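import Mathlib

/-!
Basic objects for the proof of the (1 CM + 3 IM) four-value theorem.
-/

namespace Pool.Agent.Lib.MP_bb1814_an

open Filter Topology Set

/-- A centred monic cubic with three distinct roots. -/
structure Cub where
  e : Fin 3 → ℂ
  inj : Function.Injective e
  sum : e 0 + e 1 + e 2 = 0

namespace Cub

variable (C : Cub)

/-- The cubic polynomial function. -/
def P (t : ℂ) : ℂ := (t - C.e 0) * (t - C.e 1) * (t - C.e 2)

/-- The coefficient of `t`. -/
def al : ℂ := C.e 0 * C.e 1 + C.e 1 * C.e 2 + C.e 0 * C.e 2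

/-- The constant coefficient. -/
def be : ℂ := -(C.e 0 * C.e 1 * C.e 2)

lemma P_eq (t : ℂ) : C.P t = t ^ 3 + C.al * t + C.be := by
  unfold P al be
  linear_combination (-t ^ 2) * C.sum

lemma ne01 : C.e 0 ≠ C.e 1 := fun h => by simpa using C.inj h
lemma ne02 : C.e 0 ≠ C.e 2 := fun h => by simpa using C.inj h
lemma ne12 : C.e 1 ≠ C.e 2 := fun h => by simpa using C.inj h

lemma P_eq_zero_iff {t : ℂ} : C.P t = 0 ↔ ∃ i, t = C.e i := by
  unfold P
  constructor
  · intro h
    rcases mul_eq_zero.1 h with h | h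
    · rcases mul_eq_zero.1 h with h | h
      · exact ⟨0, sub_eq_zero.1 h⟩
      · exact ⟨1, sub_eq_zero.1 h⟩
    · exact ⟨2, sub_eq_zero.1 h⟩
  · rintro ⟨i, rfl⟩
    fin_cases i <;> simp

lemma P_e (i : Fin 3) : C.P (C.e i) = 0 := C.P_eq_zero_iff.2 ⟨i, rfl⟩

/-- Every root is one of three distinct roots with sum zero. -/
lemma exists_factor {a : ℂ} (ha : C.P a = 0) :
    ∃ b c, a ≠ b ∧ a ≠ c ∧ b ≠ c ∧ a + b + c = 0 ∧ ∀ t, C.P t = (t - a) * (t - b) * (t - c) := by
  obtain ⟨i, rfl⟩ := C.P_eq_zero_iff.1 ha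
  have h := C.sum
  fin_cases i
  · exact ⟨C.e 1, C.e 2, C.ne01, C.ne02, C.ne12, h, fun t => rfl⟩
  · refine ⟨C.e 0, C.e 2, C.ne01.symm, C.ne12, C.ne02, ?_, fun t => ?_⟩
    · simp only [Fin.mk_one]; linear_combination h
    · simp only [P, Fin.mk_one]; ring
  · refine ⟨C.e 0, C.e 1, C.ne02.symm, C.ne12.symm, C.ne01, ?_, fun t => ?_⟩
    · simp only [Fin.reduceFinMk]; linear_combination h
    · simp only [P, Fin.reduceFinMk]; ring

lemma al_eq {a b c : ℂ} (hs : a + b + c = 0) (h : ∀ t, C.P t = (t - a) * (t - b) * (t - c)) :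
    C.al = a * b + b * c + a * c ∧ C.be = -(a * b * c) := by
  have h0 := h 0
  have h1 := h 1
  rw [P_eq] at h0 h1
  constructor
  · linear_combination h1 - h0 - hs
  · linear_combination h0

/-- The derivative of the cubic does not vanish at a root. -/
lemma deriv_ne {a : ℂ} (ha : C.P a = 0) : 3 * a ^ 2 + C.al ≠ 0 := by
  obtain ⟨b, c, hab, hac, -, hs, h⟩ := C.exists_factor ha
  have : 3 * a ^ 2 + C.al = (a - b) * (a - c) := by
    rw [(C.al_eq hs h).1]; linear_combination (2 * a) * hs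
  rw [this]
  exact mul_ne_zero (sub_ne_zero.2 hab) (sub_ne_zero.2 hac)

/-- The other two roots are distinct. -/
lemma disc_ne {a : ℂ} (ha : C.P a = 0) : 3 * a ^ 2 + 4 * C.al ≠ 0 := by
  obtain ⟨b, c, -, -, hbc, hs, h⟩ := C.exists_factor ha
  have : 3 * a ^ 2 + 4 * C.al = -(b - c) ^ 2 := by
    rw [(C.al_eq hs h).1]; linear_combination (3 * a + b + c) * hs
  rw [this]
  exact neg_ne_zero.2 (pow_ne_zero _ (sub_ne_zero.2 hbc))

/-- The cubic whose roots are multiplied by `K`. -/
def scale (K : ℂ) (hK : K ≠ 0) : Cub where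
  e i := K * C.e i
  inj := fun _ _ h => C.inj (mul_left_cancel₀ hK h)
  sum := by linear_combination K * C.sum

lemma scale_P (K : ℂ) (hK : K ≠ 0) (t : ℂ) : (C.scale K hK).P (K * t) = K ^ 3 * C.P t := by
  simp only [P, scale]; ring

lemma differentiable_P : Differentiable ℂ C.P := by
  unfold P; fun_prop

lemma continuous_P : Continuous C.P := C.differentiable_P.continuous

lemma analyticAt_P (t : ℂ) : AnalyticAt ℂ C.P t := C.differentiable_P.analyticAt t

end Cub

/-- A meromorphic function on the plane that is analytic away from its poles. -/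
structure Reg (f : ℂ → ℂ) : Prop where
  mero : Meromorphic f
  an : ∀ z, 0 ≤ meromorphicOrderAt f z → AnalyticAt ℂ f z

/-- A pair of non-constant meromorphic functions `f ≠ g` with the same poles, sharing the three
roots of `C.P`, such that `u = f' (f - g) / P(f)` and `w = g' (f - g) / P(g)` are entire. -/
structure Pair (C : Cub) (f g u w : ℂ → ℂ) : Prop where
  rf : Reg f
  rg : Reg g
  du : Differentiable ℂ u
  dw : Differentiable ℂ w
  pole : ∀ z, AnalyticAt ℂ f z ↔ AnalyticAt ℂ g z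
  odef : ∀ z, AnalyticAt ℂ f z → deriv f z * (f z - g z) = u z * C.P (f z)
  odeg : ∀ z, AnalyticAt ℂ f z → deriv g z * (f z - g z) = w z * C.P (g z)
  ncf : ∀ c z, meromorphicOrderAt (fun x => f x - c) z ≠ ⊤
  ncg : ∀ c z, meromorphicOrderAt (fun x => g x - c) z ≠ ⊤
  ne : ∀ z, meromorphicOrderAt (fun x => f x - g x) z ≠ ⊤
  share : ∀ z, AnalyticAt ℂ f z → (C.P (f z) = 0 ∨ C.P (g z) = 0) → f z = g z

end Pool.Agent.Lib.MP_bb1814_an
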