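import Mathlib
import Pool.Agent.Lib.MP_bb1814_an.Defs

/-!
Counting functions and the first main theorem.
-/

set_option maxHeartbeats 400000

namespace Pool.Agent.Lib.MP_bb1814_an

open Filter Topology Set Metric Real ValueDistribution

/-- The characteristic function. -/
noncomputable abbrev T (F : ℂ → ℂ) (r : ℝ) : ℝ := characteristic F ⊤ r

/-- `F` vanishes identically near no point. -/
def NZ (F : ℂ → ℂ) : Prop := ∀ z, meromorphicOrderAt F z ≠ ⊤

/-- Sets meeting every disc in a finite set. -/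
def LocFin (X : Set ℂ) : Prop := ∀ R : ℝ, (X ∩ closedBall 0 R).Finite

/-- The logarithmic counting function of a set of points (each counted once). -/
noncomputable def Nb (X : Set ℂ) (r : ℝ) : ℝ :=
  ∑ᶠ z, (X ∩ closedBall 0 r).indicator (fun z => log r - log ‖z‖) z

theorem wt_nonneg {r : ℝ} (hr : 1 ≤ r) {z : ℂ} (hz : ‖z‖ ≤ r) : 0 ≤ log r - log ‖z‖ := by
  rcases eq_or_ne z 0 with rfl | h
  · simpa using log_nonneg hr
  · exact sub_nonneg.2 (log_le_log (norm_pos_iff.2 h) hz)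

theorem divisor_univ {F : ℂ → ℂ} (hF : Meromorphic F) (z : ℂ) :
    MeromorphicOn.divisor F univ z = (meromorphicOrderAt F z).untop₀ :=
  MeromorphicOn.divisor_apply hF.meromorphicOn (mem_univ z)

theorem finite_supp (D : Function.locallyFinsupp ℂ ℤ) (R : ℝ) :
    ({z | D z ≠ 0} ∩ closedBall (0 : ℂ) R).Finite := by
  have h := (Function.locallyFinsuppWithin.toClosedBall R D).finiteSupport
    (isCompact_closedBall 0 |R|)
  refine h.subset ?_
  rintro z ⟨h1, h2⟩
  have h3 : z ∈ closedBall (0 : ℂ) |R| := closedBall_subset_closedBall (le_abs_self R) h2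
  simpa [Function.locallyFinsuppWithin.toClosedBall_eval_within D h3] using h1

theorem locFin_order {F : ℂ → ℂ} (hF : Meromorphic F) (hne : NZ F) :
    LocFin {z | meromorphicOrderAt F z ≠ 0} := by
  intro R
  refine (finite_supp (MeromorphicOn.divisor F univ) R).subset ?_
  rintro z ⟨h1, h2⟩
  refine ⟨?_, h2⟩
  simp only [mem_ofPred_eq, divisor_univ hF]
  intro h
  rcases WithTop.untop₀_eq_zero.1 h with h | h
  · exact h1 h
  · exact hne z h

theorem LocFin.mono {X Y : Set ℂ} (hY : LocFin Y) (h : X ⊆ Y) : LocFin X := fun R =>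
  (hY R).subset (inter_subset_inter_left _ h)

theorem LocFin.union {X Y : Set ℂ} (hX : LocFin X) (hY : LocFin Y) : LocFin (X ∪ Y) := fun R => by
  rw [union_inter_distrib_right]
  exact (hX R).union (hY R)

theorem Nb_eq_sum {X : Set ℂ} {r : ℝ} (S : Finset ℂ) (hS : ∀ z, z ∈ S ↔ z ∈ X ∧ ‖z‖ ≤ r) :
    Nb X r = ∑ z ∈ S, (log r - log ‖z‖) := by
  unfold Nb
  rw [finsum_eq_sum_of_support_subset (s := S)]
  · refine Finset.sum_congr rfl fun z hz => ?_
    rw [indicator_of_mem]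
    exact ⟨((hS z).1 hz).1, by simpa using ((hS z).1 hz).2⟩
  · intro z hz
    have := support_indicator_subset hz
    exact Finset.mem_coe.2 ((hS z).2 ⟨this.1, by simpa using this.2⟩)

theorem LocFin.mem_toFinset {X : Set ℂ} (hX : LocFin X) (r : ℝ) (z : ℂ) :
    z ∈ (hX r).toFinset ↔ z ∈ X ∧ ‖z‖ ≤ r := by simp

theorem Nb_eq {X : Set ℂ} (hX : LocFin X) (r : ℝ) :
    Nb X r = ∑ z ∈ (hX r).toFinset, (log r - log ‖z‖) :=
  Nb_eq_sum _ (hX.mem_toFinset r)

theorem Nb_nonneg (X : Set ℂ) {r : ℝ} (hr : 1 ≤ r) : 0 ≤ Nb X r := by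
  refine finsum_nonneg fun z => ?_
  refine indicator_apply_nonneg fun hz => wt_nonneg hr ?_
  simpa using hz.2

theorem sum_le_Nb {X : Set ℂ} (hX : LocFin X) {r : ℝ} (hr : 1 ≤ r) (S : Finset ℂ)
    (hS : ∀ z ∈ S, z ∈ X ∧ ‖z‖ ≤ r) : ∑ z ∈ S, (log r - log ‖z‖) ≤ Nb X r := by
  rw [Nb_eq hX]
  refine Finset.sum_le_sum_of_subset_of_nonneg (fun z hz => (hX.mem_toFinset r z).2 (hS z hz)) ?_
  intro z hz _
  exact wt_nonneg hr ((hX.mem_toFinset r z).1 hz).2

theorem Nb_mono {X Y : Set ℂ} (hY : LocFin Y) (h : X ⊆ Y) {r : ℝ} (hr : 1 ≤ r) :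
    Nb X r ≤ Nb Y r := by
  have hX := hY.mono h
  rw [Nb_eq hX]
  refine sum_le_Nb hY hr _ fun z hz => ?_
  have := (hX.mem_toFinset r z).1 hz
  exact ⟨h this.1, this.2⟩

theorem Nb_union_le {X Y : Set ℂ} (hX : LocFin X) (hY : LocFin Y) {r : ℝ} (hr : 1 ≤ r) :
    Nb (X ∪ Y) r ≤ Nb X r + Nb Y r := by
  classical
  rw [Nb_eq hX, Nb_eq hY, Nb_eq_sum ((hX r).toFinset ∪ (hY r).toFinset)]
  · rw [← Finset.sum_union_inter]
    refine le_add_of_nonneg_right (Finset.sum_nonneg fun z hz => wt_nonneg hr ?_)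
    exact ((hX.mem_toFinset r z).1 (Finset.mem_inter.1 hz).1).2
  · intro z
    simp only [Finset.mem_union, LocFin.mem_toFinset, mem_union]
    tauto

theorem Nb_le_card {X : Set ℂ} (hX : LocFin X) {r : ℝ} (hr : 1 ≤ r) :
    Nb X r ≤ Nb X 1 + (X ∩ closedBall 0 r).ncard * log r := by
  classical
  have hsub : (hX 1).toFinset ⊆ (hX r).toFinset := fun z hz => by
    have := (hX.mem_toFinset 1 z).1 hz
    exact (hX.mem_toFinset r z).2 ⟨this.1, this.2.trans hr⟩
  rw [Nb_eq hX, Nb_eq hX, ncard_eq_toFinset_card _ (hX r), Finset.sum_sub_distrib,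
    Finset.sum_const, nsmul_eq_mul, ← Finset.sum_sdiff hsub]
  have h1 : 0 ≤ ∑ z ∈ (hX r).toFinset \ (hX 1).toFinset, log ‖z‖ := by
    refine Finset.sum_nonneg fun z hz => log_nonneg ?_
    have h2 := Finset.mem_sdiff.1 hz
    by_contra h3
    exact h2.2 ((hX.mem_toFinset 1 z).2 ⟨((hX.mem_toFinset r z).1 h2.1).1, (not_le.1 h3).le⟩)
  simp only [log_one, zero_sub, Finset.sum_neg_distrib]
  linarith

theorem log_le_Nb {X : Set ℂ} (hX : LocFin X) {z : ℂ} (hz : z ∈ X) {r : ℝ} (hr : 1 ≤ r)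
    (hzr : ‖z‖ ≤ r) : log r - log ‖z‖ ≤ Nb X r := by
  have := sum_le_Nb hX hr {z} (by simp [hz, hzr])
  simpa using this

theorem lc_eq_sum (D : Function.locallyFinsupp ℂ ℤ) {r : ℝ} (hr : 0 < r) (S : Finset ℂ)
    (hS : ∀ z ∈ S, ‖z‖ ≤ r) (hD : ∀ z, ‖z‖ ≤ r → D z ≠ 0 → z ∈ S) :
    Function.locallyFinsuppWithin.logCounting D r = ∑ z ∈ S, D z * (log r - log ‖z‖) := by
  have habs : |r| = r := abs_of_pos hr
  have hfin := (Function.locallyFinsuppWithin.toClosedBall r D).finiteSupport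
    (isCompact_closedBall 0 |r|)
  have h0 : (0 : ℂ) ∈ closedBall (0 : ℂ) |r| := mem_closedBall_self (abs_nonneg r)
  have key := countingFunction_finsum_eq_finsum_add (c := 0) (R := r)
    (D := Function.locallyFinsuppWithin.toClosedBall r D) hr.ne' hfin
  simp only [zero_sub, norm_neg] at key
  rw [Function.locallyFinsuppWithin.toClosedBall_eval_within D h0] at key
  simp only [Function.locallyFinsuppWithin.logCounting, AddMonoidHom.coe_mk, ZeroHom.coe_mk]
  rw [← key, finsum_eq_sum_of_support_subset (s := S)]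
  · refine Finset.sum_congr rfl fun z hz => ?_
    rw [Function.locallyFinsuppWithin.toClosedBall_eval_within D (by simpa [habs] using hS z hz)]
  · intro z hz
    have h1 : Function.locallyFinsuppWithin.toClosedBall r D z ≠ 0 := by
      intro h
      simp [h] at hz
    have h2 := Function.locallyFinsuppWithin.toClosedBall_support_subset_closedBall D h1
    rw [Function.locallyFinsuppWithin.toClosedBall_eval_within D h2] at h1
    exact Finset.mem_coe.2 (hD z (by simpa [habs] using h2) h1)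

theorem sum_le_lc {D : Function.locallyFinsupp ℂ ℤ} (hD : ∀ z, 0 ≤ D z) {r : ℝ} (hr : 1 ≤ r)
    (S : Finset ℂ) (hS : ∀ z ∈ S, ‖z‖ ≤ r) :
    ∑ z ∈ S, D z * (log r - log ‖z‖) ≤ Function.locallyFinsuppWithin.logCounting D r := by
  classical
  rw [lc_eq_sum D (by linarith) (S ∪ (finite_supp D r).toFinset)]
  · refine Finset.sum_le_sum_of_subset_of_nonneg Finset.subset_union_left ?_
    intro z hz hz'
    refine mul_nonneg (by exact_mod_cast hD z) (wt_nonneg hr ?_)
    rcases Finset.mem_union.1 hz with h | h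
    · exact hS z h
    · simpa using ((finite_supp D r).mem_toFinset.1 h).2
  · intro z hz
    rcases Finset.mem_union.1 hz with h | h
    · exact hS z h
    · simpa using ((finite_supp D r).mem_toFinset.1 h).2
  · intro z h1 h2
    exact Finset.mem_union_right _ ((finite_supp D r).mem_toFinset.2 ⟨h2, by simpa using h1⟩)

/-- Zeros of order at least `m`. -/
theorem Nb_le_zeros {F : ℂ → ℂ} (hF : Meromorphic F) (hne : NZ F) {X : Set ℂ} {m : ℕ}
    (hX : ∀ z ∈ X, ((m : ℤ) : WithTop ℤ) ≤ meromorphicOrderAt F z) (hm : 1 ≤ m) {r : ℝ}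
    (hr : 1 ≤ r) : m * Nb X r ≤ logCounting F 0 r := by
  have hXf : LocFin X := by
    refine (locFin_order hF hne).mono fun z hz h => ?_
    have h1 := hX z hz
    rw [h] at h1
    have h2 : (m : ℤ) ≤ 0 := by exact_mod_cast h1
    omega
  rw [logCounting_zero, Nb_eq hXf, Finset.mul_sum]
  refine le_trans ?_ (sum_le_lc (fun z => ?_) hr (hXf r).toFinset fun z hz =>
    ((hXf.mem_toFinset r z).1 hz).2)
  · refine Finset.sum_le_sum fun z hz => ?_
    have h1 := (hXf.mem_toFinset r z).1 hz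
    refine mul_le_mul_of_nonneg_right ?_ (wt_nonneg hr h1.2)
    rw [Function.locallyFinsuppWithin.posPart_apply, divisor_univ hF]
    have h2 := hX z h1.1
    obtain ⟨n, hn⟩ := WithTop.ne_top_iff_exists.1 (hne z)
    rw [← hn] at h2 ⊢
    have h3 : (m : ℤ) ≤ n := by exact_mod_cast h2
    have h4 : (m : ℤ) ≤ n⁺ := h3.trans (le_posPart n)
    simpa using (by exact_mod_cast h4 : ((m : ℤ) : ℝ) ≤ ((n⁺ : ℤ) : ℝ))
  · rw [Function.locallyFinsuppWithin.posPart_apply]
    exact posPart_nonneg _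

/-- Simple poles contained in `X`. -/
theorem poles_le_Nb {F : ℂ → ℂ} (hF : Meromorphic F) {X : Set ℂ} (hX : LocFin X)
    (h : ∀ z, meromorphicOrderAt F z < 0 →
      z ∈ X ∧ ((-1 : ℤ) : WithTop ℤ) ≤ meromorphicOrderAt F z) {r : ℝ} (hr : 1 ≤ r) :
    logCounting F ⊤ r ≤ Nb X r := by
  have key : ∀ z, (MeromorphicOn.divisor F univ)⁻ z ≤ 1 ∧
      ((MeromorphicOn.divisor F univ)⁻ z ≠ 0 → z ∈ X) := by
    intro z
    rw [Function.locallyFinsuppWithin.negPart_apply, divisor_univ hF]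
    rcases lt_or_ge (meromorphicOrderAt F z) 0 with h1 | h1
    · obtain ⟨h2, h3⟩ := h z h1
      refine ⟨?_, fun _ => h2⟩
      obtain ⟨n, hn⟩ := WithTop.ne_top_iff_exists.1 h1.ne_top
      rw [← hn] at h3 ⊢
      have h4 : -1 ≤ n := by exact_mod_cast h3
      simp only [WithTop.untop₀_coe, negPart_def]
      omega
    · have h2 : 0 ≤ (meromorphicOrderAt F z).untop₀ := WithTop.untop₀_nonneg.2 h1
      rw [negPart_eq_zero.2 h2]
      simp
  rw [logCounting_top, Nb_eq hX, lc_eq_sum _ (by linarith) (hX r).toFinset]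
  · refine Finset.sum_le_sum fun z hz => ?_
    have h1 := (hX.mem_toFinset r z).1 hz
    have h2 : (((MeromorphicOn.divisor F univ)⁻ z : ℤ) : ℝ) ≤ 1 := by exact_mod_cast (key z).1
    nlinarith [wt_nonneg hr h1.2]
  · exact fun z hz => ((hX.mem_toFinset r z).1 hz).2
  · exact fun z h1 h2 => (hX.mem_toFinset r z).2 ⟨(key z).2 h2, h1⟩

/-- The number of zeros and poles in a disc. -/
theorem count_le {F : ℂ → ℂ} (hF : Meromorphic F) (hne : NZ F) {ρ ρ' : ℝ} (hρ : 1 ≤ ρ)
    (hρ' : ρ < ρ') (B : Finset ℂ) (ν : ℂ → ℤ) (hB : ∀ b ∈ B, ‖b‖ ≤ ρ)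
    (hν : ∀ b ∈ B, meromorphicOrderAt F b = ν b) :
    (∑ b ∈ B, |(ν b : ℝ)|) * log (ρ' / ρ) ≤ logCounting F 0 ρ' + logCounting F ⊤ ρ' := by
  have h1 : 1 ≤ ρ' := hρ.trans hρ'.le
  have hB' : ∀ b ∈ B, ‖b‖ ≤ ρ' := fun b hb => (hB b hb).trans hρ'.le
  have h2 := sum_le_lc (D := (MeromorphicOn.divisor F univ)⁺) (fun z => by
    rw [Function.locallyFinsuppWithin.posPart_apply]; exact posPart_nonneg _) h1 B hB'
  have h3 := sum_le_lc (D := (MeromorphicOn.divisor F univ)⁻) (fun z => by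
    rw [Function.locallyFinsuppWithin.negPart_apply]; exact negPart_nonneg _) h1 B hB'
  rw [logCounting_zero, logCounting_top]
  refine le_trans ?_ (add_le_add h2 h3)
  rw [Finset.sum_mul, ← Finset.sum_add_distrib]
  refine Finset.sum_le_sum fun z hz => ?_
  rw [← add_mul, Function.locallyFinsuppWithin.posPart_apply,
    Function.locallyFinsuppWithin.negPart_apply, divisor_univ hF, hν z hz, WithTop.untop₀_coe,
    ← Int.cast_add, posPart_add_negPart, Int.cast_abs]
  refine mul_le_mul_of_nonneg_left ?_ (abs_nonneg _)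
  rw [log_div (by linarith) (by linarith)]
  have := wt_nonneg hρ (hB z hz)
  linarith

theorem order_pos_of_zero {F : ℂ → ℂ} {z : ℂ} (h : AnalyticAt ℂ F z) (h0 : F z = 0) :
    0 < meromorphicOrderAt F z := by
  rw [← tendsto_zero_iff_meromorphicOrderAt_pos h.meromorphicAt, ← h0]
  exact h.continuousAt.continuousWithinAt.tendsto

theorem order_eq_zero_of_ne {F : ℂ → ℂ} {z : ℂ} (h : AnalyticAt ℂ F z) (h0 : F z ≠ 0) :
    meromorphicOrderAt F z = 0 := by
  rw [← tendsto_ne_zero_iff_meromorphicOrderAt_eq_zero h.meromorphicAt]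
  exact ⟨F z, h0, h.continuousAt.continuousWithinAt.tendsto⟩

theorem ne_zero_of_order {F : ℂ → ℂ} {z : ℂ} (h : AnalyticAt ℂ F z)
    (h0 : meromorphicOrderAt F z = 0) : F z ≠ 0 := fun h1 => (order_pos_of_zero h h1).ne' h0

theorem zero_of_order_pos {F : ℂ → ℂ} {z : ℂ} (h : AnalyticAt ℂ F z)
    (h0 : 0 < meromorphicOrderAt F z) : F z = 0 := by
  by_contra h1
  exact h0.ne' (order_eq_zero_of_ne h h1)

theorem one_le_of_pos {x : WithTop ℤ} (h : 0 < x) : (((1 : ℕ) : ℤ) : WithTop ℤ) ≤ x := by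
  induction x with
  | top => exact le_top
  | coe n =>
    have : (0 : ℤ) < n := by exact_mod_cast h
    exact_mod_cast this

theorem prox_le_T (F : ℂ → ℂ) {r : ℝ} (hr : 1 ≤ r) : proximity F ⊤ r ≤ T F r :=
  le_add_of_nonneg_right (logCounting_nonneg hr)

theorem lc_le_T (F : ℂ → ℂ) (r : ℝ) : logCounting F ⊤ r ≤ T F r :=
  le_add_of_nonneg_left (proximity_nonneg r)

theorem T_eq (F : ℂ → ℂ) (r : ℝ) : T F r = proximity F ⊤ r + logCounting F ⊤ r := rfl

theorem abs_log_eq (x : ℝ) : |log x| = log⁺ x + log⁺ x⁻¹ := by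
  have h1 := half_mul_log_add_log_abs (x := x)
  have h2 := posLog_sub_posLog_inv (x := x)
  linarith

theorem avg_abs_log {F : ℂ → ℂ} (hF : Meromorphic F) (r : ℝ) :
    circleAverage (fun z => |log ‖F z‖|) 0 r = proximity F ⊤ r + proximity F⁻¹ ⊤ r := by
  rw [proximity_top, proximity_top,
    ← circleAverage_fun_add hF.meromorphicOn.circleIntegrable_posLog_norm
      hF.inv.meromorphicOn.circleIntegrable_posLog_norm]
  simp only [abs_log_eq, Pi.inv_apply, norm_inv]

theorem T_inv_le {F : ℂ → ℂ} (hF : Meromorphic F) : ∃ c : ℝ, 0 ≤ c ∧ ∀ r : ℝ,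
    T F⁻¹ r ≤ T F r + c ∧ T F r ≤ T F⁻¹ r + c := by
  refine ⟨max |log ‖F 0‖| |log ‖meromorphicTrailingCoeffAt F 0‖|,
    le_max_of_le_left (abs_nonneg _), fun r => ?_⟩
  have := abs_le.1 (characteristic_sub_characteristic_inv_le (R := r) hF)
  constructor <;> linarith [this.1, this.2]

theorem T_shift_le {F : ℂ → ℂ} (hF : Meromorphic F) (a : ℂ) : ∃ c : ℝ, 0 ≤ c ∧ ∀ r : ℝ,
    T (fun z => F z - a) r ≤ T F r + c ∧ T F r ≤ T (fun z => F z - a) r + c := by
  refine ⟨log⁺ ‖a‖ + log 2, add_nonneg posLog_nonneg (log_nonneg one_le_two), fun r => ?_⟩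
  have := abs_le.1 (abs_characteristic_sub_characteristic_shift_le (a₀ := a) (r := r) hF)
  constructor <;> linarith [this.1, this.2]

theorem mero_sub_const {F : ℂ → ℂ} (hF : Meromorphic F) (a : ℂ) :
    Meromorphic fun z => F z - a := fun z => (hF z).sub (MeromorphicAt.const a z)

/-- First main theorem, in the form used here. -/
theorem fmt {F : ℂ → ℂ} (hF : Meromorphic F) (a : ℂ) : ∃ c : ℝ, ∀ r : ℝ, 1 ≤ r →
    T (fun z => F z - a) r ≤ T F r + c ∧ T (fun z => (F z - a)⁻¹) r ≤ T F r + c ∧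
    logCounting (fun z => F z - a) 0 r ≤ T F r + c ∧
    circleAverage (fun z => |log ‖F z - a‖|) 0 r ≤ 2 * T F r + c := by
  have hG := mero_sub_const hF a
  obtain ⟨c₁, hc₁, h₁⟩ := T_shift_le hF a
  obtain ⟨c₂, hc₂, h₂⟩ := T_inv_le hG
  refine ⟨2 * c₁ + c₂, fun r hr => ?_⟩
  have e1 := (h₁ r).1
  have e2 := (h₂ r).1
  have e3 : logCounting (fun z => F z - a) 0 r ≤ T (fun z => F z - a)⁻¹ r := by
    rw [← logCounting_inv]; exact lc_le_T _ r
  have e4 := avg_abs_log hG r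
  have e5 := prox_le_T (fun z => F z - a) hr
  have e6 := prox_le_T (fun z => F z - a)⁻¹ hr
  refine ⟨by linarith, ?_, by linarith, by linarith⟩
  change T (fun z => F z - a)⁻¹ r ≤ _
  linarith

theorem proximity_le_of_bound {F : ℂ → ℂ} {r E : ℝ} (hr : 0 < r) (hE : 1 ≤ E)
    (h : ∀ z : ℂ, ‖z‖ = r → ‖F z‖ ≤ E) (hF : Meromorphic F) : proximity F ⊤ r ≤ log E := by
  rw [proximity_top]
  refine circleAverage_mono_on_of_le_circle hF.meromorphicOn.circleIntegrable_posLog_norm ?_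
  intro z hz
  rw [← posLog_eq_log (by rw [abs_of_nonneg (by linarith)]; exact hE)]
  exact posLog_le_posLog (norm_nonneg _) (h z (by simpa [abs_of_pos hr] using hz))

theorem exists_analyticAt {F : ℂ → ℂ} (hF : Meromorphic F) : ∃ z, AnalyticAt ℂ F z :=
  (hF 0).eventually_analyticAt.exists

theorem locFin_singleton (z : ℂ) : LocFin {z} := fun _ =>
  (finite_singleton z).subset inter_subset_left

/-- A non-constant function has unbounded characteristic. -/
theorem T_tendsto {F : ℂ → ℂ} (hF : Meromorphic F) (hnc : ∀ c, NZ fun z => F z - c) :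
    Tendsto (T F) atTop atTop := by
  obtain ⟨z, hz⟩ := exists_analyticAt hF
  obtain ⟨c, hc⟩ := fmt hF (F z)
  have hpos : 0 < meromorphicOrderAt (fun x => F x - F z) z :=
    order_pos_of_zero (hz.sub analyticAt_const) (by simp)
  refine tendsto_atTop_mono' atTop ?_
    (tendsto_atTop_add_const_right atTop (-log ‖z‖ - c) tendsto_log_atTop)
  filter_upwards [eventually_ge_atTop 1, eventually_ge_atTop ‖z‖] with r h1 h2
  have e1 := log_le_Nb (locFin_singleton z) (mem_singleton z) h1 h2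
  have e2 := Nb_le_zeros (mero_sub_const hF (F z)) (hnc (F z)) (X := {z}) (m := 1)
    (fun x hx => by rw [mem_singleton_iff.1 hx]; exact one_le_of_pos hpos) le_rfl h1
  have e3 := (hc r h1).2.2.1
  simp only [Nat.cast_one, one_mul] at e2
  linarith

end Pool.Agent.Lib.MP_bb1814_an
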