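import Mathlib
import Pool.Agent.Lib.MP_bb1814_an.Nev1

/-!
Factorisation on a disc and Poisson-type estimates.
-/

set_option maxHeartbeats 400000

namespace Pool.Agent.Lib.MP_bb1814_an

open Filter Topology Set Metric Real ValueDistribution

theorem norm_avg_le {f : ℂ → ℂ} {g : ℂ → ℝ} {R : ℝ} (hg : CircleIntegrable g 0 R)
    (h : ∀ z ∈ sphere (0 : ℂ) |R|, ‖f z‖ ≤ g z) :
    ‖circleAverage f 0 R‖ ≤ circleAverage g 0 R := by
  rw [circleAverage, circleAverage, norm_smul, smul_eq_mul, Real.norm_of_nonneg (by positivity)]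
  refine mul_le_mul_of_nonneg_left ?_ (by positivity)
  exact intervalIntegral.norm_integral_le_of_norm_le two_pi_pos.le
    (Eventually.of_forall fun t _ => h _ (circleMap_mem_sphere' 0 R t)) hg

theorem avg_mono_ae {f₁ f₂ : ℂ → ℝ} {R : ℝ} (hR : R ≠ 0) (h₁ : CircleIntegrable f₁ 0 R)
    (h₂ : CircleIntegrable f₂ 0 R)
    (h : ∀ᶠ z in codiscreteWithin (sphere (0 : ℂ) |R|), f₁ z ≤ f₂ z) :
    circleAverage f₁ 0 R ≤ circleAverage f₂ 0 R := by
  have e : f₁ =ᶠ[codiscreteWithin (sphere (0 : ℂ) |R|)] fun z => min (f₁ z) (f₂ z) := by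
    filter_upwards [h] with z hz using (min_eq_left hz).symm
  rw [circleAverage_congr_codiscreteWithin e hR]
  exact circleAverage_mono (CircleIntegrable.congr_codiscreteWithin e h₁) h₂
    fun x _ => min_le_right _ _

theorem avg_const_mul (c : ℝ) (g : ℂ → ℝ) (R : ℝ) :
    circleAverage (fun z => c * g z) 0 R = c * circleAverage g 0 R :=
  circleAverage_fun_smul (a := c) (f := g)

theorem CI_const_mul (c : ℝ) {g : ℂ → ℝ} {R : ℝ} (hg : CircleIntegrable g 0 R) :
    CircleIntegrable (fun z => c * g z) 0 R := IntervalIntegrable.const_mul hg c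

theorem zero_free_estimate {h : ℂ → ℂ} {ρ : ℝ} (hρ : 0 < ρ)
    (ha : AnalyticOnNhd ℂ h (closedBall 0 ρ)) (hn : ∀ z ∈ closedBall (0 : ℂ) ρ, h z ≠ 0) (κ : ℝ)
    {z : ℂ} (hz : ‖z‖ < ρ) :
    ‖deriv h z / h z‖ ≤ 2 * ρ / (ρ - ‖z‖) ^ 2 * circleAverage (fun ζ => |log ‖h ζ‖ + κ|) 0 ρ ∧
    |log ‖h z‖ + κ| ≤ 2 * ρ / (ρ - ‖z‖) * circleAverage (fun ζ => |log ‖h ζ‖ + κ|) 0 ρ := by
  have habs : |ρ| = ρ := abs_of_pos hρ
  set g : ℂ → ℝ := fun ζ => log ‖h ζ‖ + κ with hg
  have hharm : InnerProductSpace.HarmonicOnNhd g (closedBall 0 ρ) := fun x hx =>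
    ((ha x hx).harmonicAt_log_norm (hn x hx)).add (InnerProductSpace.harmonicAt_const κ)
  have hgc : ContinuousOn g (sphere 0 ρ) := fun x hx =>
    (hharm x (sphere_subset_closedBall hx)).1.continuousAt.continuousWithinAt
  have hgi : CircleIntegrable g 0 ρ := hgc.circleIntegrable hρ.le
  have hgi' : CircleIntegrable (fun ζ => (g ζ : ℂ)) 0 ρ :=
    (Complex.continuous_ofReal.comp_continuousOn hgc).circleIntegrable hρ.le
  have hgabs : CircleIntegrable (fun ζ => |g ζ|) 0 ρ := hgi.abs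
  set Φ : ℂ → ℂ := fun w => circleAverage (fun ζ => herglotzRieszKernel 0 w ζ • (g ζ : ℂ)) 0 ρ
    with hΦ
  have hre : ∀ w ∈ ball (0 : ℂ) ρ, (Φ w).re = g w := fun w hw => by
    rw [hΦ, re_circleAverage_herglotzRieszKernel_smul hgi hw]
    exact hharm.circleAverage_re_herglotzRieszKernel_smul hw
  have hzb : z ∈ ball (0 : ℂ) ρ := by simpa using hz
  have hsub : ∀ ζ ∈ sphere (0 : ℂ) |ρ|, ‖ζ‖ = ρ ∧ ρ - ‖z‖ ≤ ‖ζ - z‖ := fun ζ hζ => by
    have h1 : ‖ζ‖ = ρ := by simpa [habs] using hζ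
    exact ⟨h1, h1 ▸ norm_sub_norm_le ζ z⟩
  have hpos : 0 < ρ - ‖z‖ := sub_pos.2 hz
  constructor
  · have hΦd : ∀ w ∈ ball (0 : ℂ) ρ, HasDerivAt Φ
        (circleAverage (fun ζ => (2 * ζ / (ζ - w) ^ 2) • (g ζ : ℂ)) 0 ρ) w := fun w hw =>
      hasDerivAt_circleAverage_herglotzRieszKernel_smul hgi' hw
    have hq : DifferentiableOn ℂ (fun w => h w * Complex.exp (-Φ w)) (ball 0 ρ) := fun w hw =>
      ((ha w (ball_subset_closedBall hw)).differentiableAt.mul
        (hΦd w hw).differentiableAt.neg.cexp).differentiableWithinAt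
    have hnorm : ∀ w ∈ ball (0 : ℂ) ρ, ‖h w * Complex.exp (-Φ w)‖ = exp (-κ) := fun w hw => by
      have h1 : 0 < ‖h w‖ := norm_pos_iff.2 (hn w (ball_subset_closedBall hw))
      rw [norm_mul, Complex.norm_exp, Complex.neg_re, hre w hw, hg]
      simp only [neg_add_rev, exp_add, exp_neg (log _), exp_log h1]
      field_simp
    have hconst := Complex.eqOn_of_isPreconnected_of_isMaxOn_norm
      (convex_ball (0 : ℂ) ρ).isPreconnected isOpen_ball hq hzb (fun w hw => by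
        simp only [Function.comp_apply, mem_ofPred_eq]
        rw [hnorm w hw, hnorm z hzb])
    have hd1 : HasDerivAt (fun w => h w * Complex.exp (-Φ w)) _ z :=
      (ha z (ball_subset_closedBall hzb)).differentiableAt.hasDerivAt.mul (hΦd z hzb).neg.cexp
    have hd2 : HasDerivAt (fun w => h w * Complex.exp (-Φ w)) 0 z := by
      refine (hasDerivAt_const z (h z * Complex.exp (-Φ z))).congr_of_eventuallyEq ?_
      filter_upwards [isOpen_ball.mem_nhds hzb] with w hw using hconst hw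
    have hu := hd1.unique hd2
    have hz0 := hn z (ball_subset_closedBall hzb)
    have hexp := Complex.exp_ne_zero (-Φ z)
    have key : deriv h z / h z =
        circleAverage (fun ζ => (2 * ζ / (ζ - z) ^ 2) • (g ζ : ℂ)) 0 ρ := by
      rw [div_eq_iff hz0]
      apply mul_right_cancel₀ hexp
      simp only [Pi.neg_apply] at hu
      linear_combination hu
    rw [key, ← avg_const_mul]
    refine norm_avg_le (CI_const_mul _ hgabs) fun ζ hζ => ?_
    obtain ⟨h1, h2⟩ := hsub ζ hζ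
    rw [norm_smul, Complex.norm_real, Real.norm_eq_abs, norm_div, norm_mul, norm_pow, h1]
    refine mul_le_mul_of_nonneg_right ?_ (abs_nonneg _)
    simp only [Complex.norm_ofNat]
    gcongr
  · change |g z| ≤ _
    rw [← hre z hzb, ← avg_const_mul]
    refine (Complex.abs_re_le_norm _).trans ?_
    refine norm_avg_le (CI_const_mul _ hgabs) fun ζ hζ => ?_
    obtain ⟨h1, h2⟩ := hsub ζ hζ
    rw [norm_smul, Complex.norm_real, Real.norm_eq_abs, herglotzRieszKernel_def, norm_div]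
    refine mul_le_mul_of_nonneg_right ?_ (abs_nonneg _)
    simp only [sub_zero]
    have h3 : ‖ζ + z‖ ≤ 2 * ρ := (norm_add_le ζ z).trans (by linarith)
    gcongr

theorem prod_meromorphic (B : Finset ℂ) (ν : ℂ → ℤ) :
    Meromorphic fun z : ℂ => ∏ b ∈ B, (z - b) ^ ν b := by
  intro z
  exact MeromorphicAt.fun_prod fun b _ => by fun_prop

/-- Factorisation on a closed disc with the Poisson-type estimates for the zero-free factor. -/
theorem factor_estimate {F : ℂ → ℂ} (hF : Meromorphic F) (hne : NZ F) {ρ : ℝ} (hρ : 0 < ρ) :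
    ∃ (B : Finset ℂ) (ν : ℂ → ℤ) (h : ℂ → ℂ),
      (∀ b, b ∈ B ↔ ‖b‖ ≤ ρ ∧ meromorphicOrderAt F b ≠ 0) ∧
      (∀ b ∈ B, meromorphicOrderAt F b = ν b) ∧
      AnalyticOnNhd ℂ h (closedBall 0 ρ) ∧ (∀ z ∈ closedBall (0 : ℂ) ρ, h z ≠ 0) ∧
      (∀ z ∈ ball (0 : ℂ) ρ, AnalyticAt ℂ F z → F z = (∏ b ∈ B, (z - b) ^ ν b) * h z) ∧
      ∀ z : ℂ, ‖z‖ < ρ →
        ‖deriv h z / h z‖ ≤ 2 * ρ / (ρ - ‖z‖) ^ 2 *
          (circleAverage (fun ζ => |log ‖F ζ‖|) 0 ρ + 2 * ∑ b ∈ B, |(ν b : ℝ)|) ∧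
        |log ‖h z‖ + (∑ b ∈ B, (ν b : ℝ)) * log ρ| ≤ 2 * ρ / (ρ - ‖z‖) *
          (circleAverage (fun ζ => |log ‖F ζ‖|) 0 ρ + 2 * ∑ b ∈ B, |(ν b : ℝ)|) := by
  have habs : |ρ| = ρ := abs_of_pos hρ
  have hFU : MeromorphicOn F (closedBall 0 ρ) := fun z _ => hF z
  set D := MeromorphicOn.divisor F (closedBall (0 : ℂ) ρ) with hD
  have hfin : D.support.Finite := D.finiteSupport (isCompact_closedBall 0 ρ)
  obtain ⟨h, ha, hn, hEq⟩ := hFU.extract_zeros_poles (fun u => hne u) hfin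
  set B := (locFin_order hF hne ρ).toFinset with hB
  have hBm : ∀ b, b ∈ B ↔ ‖b‖ ≤ ρ ∧ meromorphicOrderAt F b ≠ 0 := fun b => by
    rw [hB, LocFin.mem_toFinset]; exact and_comm
  have hDv : ∀ b ∈ closedBall (0 : ℂ) ρ, meromorphicOrderAt F b = D b := fun b hb => by
    rw [hD, MeromorphicOn.divisor_apply hFU hb, WithTop.coe_untop₀_of_ne_top (hne b)]
  have hD0 : ∀ b, b ∉ B → D b = 0 := fun b hb => by
    by_cases h1 : b ∈ closedBall (0 : ℂ) ρ
    · have h2 := hDv b h1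
      rw [hBm, not_and, not_not] at hb
      rw [hb (by simpa using h1)] at h2
      exact_mod_cast h2.symm
    · exact D.apply_eq_zero_of_notMem h1
  have hP : (∏ᶠ u, (· - u) ^ D u) = fun z : ℂ => ∏ b ∈ B, (z - b) ^ D b := by
    rw [Function.FactorizedRational.finprod_eq_fun hfin]
    ext z
    refine finprod_eq_prod_of_mulSupport_subset _ fun u hu => ?_
    by_contra h1
    simp [hD0 u h1] at hu
  have hEq' : F =ᶠ[codiscreteWithin (closedBall (0 : ℂ) ρ)]
      fun z => (∏ b ∈ B, (z - b) ^ D b) * h z := by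
    filter_upwards [hEq] with z hz
    rw [hz, hP]; rfl
  have hn' : ∀ z ∈ closedBall (0 : ℂ) ρ, h z ≠ 0 := fun z hz => hn ⟨z, hz⟩
  refine ⟨B, D, h, hBm, fun b hb => hDv b (by simpa using ((hBm b).1 hb).1), ha, hn', ?_, ?_⟩
  · intro z hz hFz
    have hz' := ball_subset_closedBall hz
    have hPz : AnalyticAt ℂ (fun z : ℂ => ∏ b ∈ B, (z - b) ^ D b) z := by
      rw [← hP]
      refine Function.FactorizedRational.analyticAt ?_
      have h1 := hFz.meromorphicOrderAt_nonneg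
      rw [hDv z hz'] at h1
      exact_mod_cast h1
    have h1 : F =ᶠ[𝓝[≠] z] fun z => (∏ b ∈ B, (z - b) ^ D b) * h z := by
      have h2 := mem_codiscreteWithin_iff_forall_mem_nhdsNE.1 hEq' z hz'
      filter_upwards [h2, mem_nhdsWithin_of_mem_nhds
        (mem_of_superset (isOpen_ball.mem_nhds hz) ball_subset_closedBall)] with w h3 h4
      rcases h3 with h3 | h3
      · exact h3
      · exact absurd h4 h3
    exact tendsto_nhds_unique_of_eventuallyEq hFz.continuousAt.continuousWithinAt.tendsto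
      (hPz.mul (ha z hz')).continuousAt.continuousWithinAt.tendsto h1
  · intro z hz
    obtain ⟨e1, e2⟩ := zero_free_estimate hρ ha hn' ((∑ b ∈ B, (D b : ℝ)) * log ρ) hz
    have hpos : 0 < ρ - ‖z‖ := sub_pos.2 hz
    suffices key : circleAverage (fun ζ => |log ‖h ζ‖ + (∑ b ∈ B, (D b : ℝ)) * log ρ|) 0 ρ ≤
        circleAverage (fun ζ => |log ‖F ζ‖|) 0 ρ + 2 * ∑ b ∈ B, |(D b : ℝ)| from
      ⟨e1.trans (mul_le_mul_of_nonneg_left key (by positivity)),
        e2.trans (mul_le_mul_of_nonneg_left key (by positivity))⟩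
    have i1 : CircleIntegrable (fun ζ => |log ‖F ζ‖|) 0 ρ :=
      (hF.meromorphicOn.circleIntegrable_log_norm).abs
    have i2 : ∀ b ∈ B, CircleIntegrable
        (fun ζ : ℂ => |(D b : ℝ)| * (2 + log ρ - log ‖ζ - b‖)) 0 ρ := fun b _ =>
      CI_const_mul _ ((circleIntegrable_const _ _ _).sub (circleIntegrable_log_norm_sub_const ρ))
    have i3 : CircleIntegrable
        (fun ζ : ℂ => ∑ b ∈ B, |(D b : ℝ)| * (2 + log ρ - log ‖ζ - b‖)) 0 ρ := by
      have := CircleIntegrable.sum B i2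
      rwa [Finset.sum_fn] at this
    have i4 : CircleIntegrable (fun ζ => |log ‖h ζ‖ + (∑ b ∈ B, (D b : ℝ)) * log ρ|) 0 ρ := by
      have h1 : MeromorphicOn h (sphere 0 |ρ|) := fun x hx =>
        (ha x (sphere_subset_closedBall (by simpa [habs] using hx))).meromorphicAt
      exact (h1.circleIntegrable_log_norm.add (circleIntegrable_const _ _ _)).abs
    have i5 : circleAverage
        (fun ζ : ℂ => ∑ b ∈ B, |(D b : ℝ)| * (2 + log ρ - log ‖ζ - b‖)) 0 ρ =
        2 * ∑ b ∈ B, |(D b : ℝ)| := by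
      rw [circleAverage_fun_sum i2, Finset.mul_sum]
      refine Finset.sum_congr rfl fun b hb => ?_
      rw [avg_const_mul, circleAverage_fun_sub (circleIntegrable_const _ _ _)
        (circleIntegrable_log_norm_sub_const ρ), circleAverage_const,
        circleAverage_log_norm_sub_const_of_mem_closedBall
          (by simpa [habs] using ((hBm b).1 hb).1)]
      ring
    rw [← i5, ← circleAverage_fun_add i1 i3]
    refine avg_mono_ae hρ.ne' i4 (i1.add i3) ?_
    have hsub : sphere (0 : ℂ) |ρ| ⊆ closedBall 0 ρ := by rw [habs]; exact sphere_subset_closedBall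
    filter_upwards [hEq'.filter_mono (codiscreteWithin_mono hsub),
      compl_finite_mem_codiscreteWithin (s := sphere (0 : ℂ) |ρ|) B.finite_toSet,
      self_mem_codiscreteWithin (sphere (0 : ℂ) |ρ|)] with ζ h1 h2 h3
    have hζ : ‖ζ‖ = ρ := by simpa [habs] using h3
    have hne' : ∀ b ∈ B, ζ - b ≠ 0 := fun b hb h4 => h2 (by rw [sub_eq_zero.1 h4]; exact hb)
    have hlog : log ‖F ζ‖ = ∑ b ∈ B, (D b : ℝ) * log ‖ζ - b‖ + log ‖h ζ‖ := by
      rw [h1, norm_mul, norm_prod, log_mul, log_prod]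
      · simp only [norm_zpow, log_zpow]
      · exact fun b hb => norm_ne_zero_iff.2 (zpow_ne_zero _ (hne' b hb))
      · exact Finset.prod_ne_zero_iff.2 fun b hb => norm_ne_zero_iff.2 (zpow_ne_zero _ (hne' b hb))
      · exact norm_ne_zero_iff.2 (hn' ζ (hsub h3))
    have h4 : log ‖h ζ‖ + (∑ b ∈ B, (D b : ℝ)) * log ρ =
        log ‖F ζ‖ + ∑ b ∈ B, (D b : ℝ) * (log ρ - log ‖ζ - b‖) := by
      rw [hlog, Finset.sum_mul]
      simp only [mul_sub, Finset.sum_sub_distrib]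
      ring
    rw [h4]
    refine (abs_add_le _ _).trans (add_le_add le_rfl ((Finset.abs_sum_le_sum_abs _ _).trans ?_))
    refine Finset.sum_le_sum fun b hb => ?_
    rw [abs_mul]
    refine mul_le_mul_of_nonneg_left ?_ (abs_nonneg _)
    have h5 : ‖ζ - b‖ ≤ 2 * ρ := (norm_sub_le ζ b).trans (by linarith [((hBm b).1 hb).1])
    have h6 : log ‖ζ - b‖ ≤ log 2 + log ρ := by
      rw [← log_mul two_ne_zero hρ.ne']
      exact log_le_log (norm_pos_iff.2 (hne' b hb)) h5
    have h7 : log 2 ≤ 1 := by linarith [log_two_lt_d9]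
    rw [abs_le]
    constructor <;> linarith

end Pool.Agent.Lib.MP_bb1814_an
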