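import Mathlib
import Pool.Agent.Lib.MP_bb1814_an.Nev2

/-!
Borel's growth lemma and the lemma on the logarithmic derivative on good circles.
-/

set_option maxHeartbeats 400000

namespace Pool.Agent.Lib.MP_bb1814_an

open Filter Topology Set Metric Real ValueDistribution

/-- A sequence of radii along which the gauge `G` grows regularly. -/
structure Scale (G : ℝ → ℝ) where
  r : ℕ → ℝ
  mono : MonotoneOn G (Ici 1)
  one_le : ∀ k, 1 ≤ r k
  tendsto : Tendsto r atTop atTop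
  tendstoG : Tendsto (fun k => G (r k)) atTop atTop
  three_le : ∀ k, 3 ≤ G (r k)
  growth : ∀ k, G (r k * (1 + 1 / log (G (r k)) ^ 2)) ≤ 3 * G (r k)

/-- Intermediate radii. -/
noncomputable def Scale.rr {G : ℝ → ℝ} (S : Scale G) (k : ℕ) (i : ℕ) : ℝ :=
  S.r k * (1 + i / (8 * log (G (S.r k)) ^ 2))

theorem one_le_log_three : 1 ≤ log 3 := by
  rw [le_log_iff_exp_le (by norm_num)]
  linarith [exp_one_lt_d9]

theorem one_le_log_of_three_le {x : ℝ} (h : 3 ≤ x) : 1 ≤ log x :=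
  one_le_log_three.trans (log_le_log (by norm_num) h)

theorem exists_growth {G : ℝ → ℝ} (hG : MonotoneOn G (Ici 1)) {R : ℝ} (hR : 1 ≤ R)
    (h9 : 9 ≤ G R) : ∃ r, R ≤ r ∧ G (r * (1 + 1 / log (G r) ^ 2)) ≤ 3 * G r := by
  by_contra hcon
  push Not at hcon
  have key : ∀ j : ℕ, ∃ r, R ≤ r ∧ r ≤ 2 * R * ((j + 1) / (j + 2)) ∧ 3 ^ (j + 2) ≤ G r := by
    intro j
    induction j with
    | zero => exact ⟨R, le_rfl, by norm_num; linarith, by norm_num; exact h9⟩
    | succ j ih =>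
      obtain ⟨r, h1, h2, h3⟩ := ih
      have hl : (j : ℝ) + 2 ≤ log (G r) := by
        have h4 := log_le_log (by positivity) h3
        rw [log_pow] at h4
        push_cast at h4
        nlinarith [one_le_log_three, (Nat.cast_nonneg j : (0 : ℝ) ≤ j)]
      have hj : (0 : ℝ) ≤ j := Nat.cast_nonneg j
      have hx : 1 / log (G r) ^ 2 ≤ 1 / ((j : ℝ) + 2) ^ 2 := by gcongr
      have hx0 : 0 ≤ 1 / log (G r) ^ 2 := by positivity
      refine ⟨r * (1 + 1 / log (G r) ^ 2), by nlinarith, ?_, ?_⟩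
      · calc r * (1 + 1 / log (G r) ^ 2)
            ≤ (2 * R * ((j + 1) / (j + 2))) * (1 + 1 / ((j : ℝ) + 2) ^ 2) := by gcongr
          _ = 2 * R * (((j + 1) / (j + 2)) * (1 + 1 / ((j : ℝ) + 2) ^ 2)) := by ring
          _ ≤ 2 * R * (((j + 1 : ℕ) + 1) / ((j + 1 : ℕ) + 2)) := by
            refine mul_le_mul_of_nonneg_left ?_ (by linarith)
            push_cast
            rw [one_add_div (by positivity), div_mul_div_comm, div_le_div_iff₀ (by positivity)
              (by positivity)]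
            nlinarith
      · have := hcon r h1
        rw [show j + 1 + 2 = j + 2 + 1 by ring, pow_succ]
        linarith
  obtain ⟨j, hj⟩ := pow_unbounded_of_one_lt (G (2 * R)) (by norm_num : (1 : ℝ) < 3)
  obtain ⟨r, h1, h2, h3⟩ := key j
  have h4 : r ≤ 2 * R := by
    refine h2.trans (mul_le_of_le_one_right (by linarith) ?_)
    rw [div_le_one (by positivity)]
    linarith
  have h5 := hG (show r ∈ Ici 1 from hR.trans h1) (show 2 * R ∈ Ici 1 from hR.trans (by linarith))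
    h4
  have h6 : (3 : ℝ) ^ j ≤ 3 ^ (j + 2) := pow_le_pow_right₀ (by norm_num) (by omega)
  linarith

/-- Borel's growth lemma. -/
theorem exists_scale {G : ℝ → ℝ} (hG : MonotoneOn G (Ici 1)) (h : Tendsto G atTop atTop) :
    Nonempty (Scale G) := by
  obtain ⟨R, hR⟩ := eventually_atTop.1 ((h.eventually_ge_atTop 9).and (eventually_ge_atTop 1))
  have key : ∀ k : ℕ, ∃ r, max R k ≤ r ∧ G (r * (1 + 1 / log (G r) ^ 2)) ≤ 3 * G r := fun k =>
    exists_growth hG (hR _ (le_max_left _ _)).2 (hR _ (le_max_left _ _)).1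
  choose r hr1 hr2 using key
  have ht : Tendsto r atTop atTop :=
    tendsto_atTop_mono (fun k => (le_max_right _ _).trans (hr1 k)) tendsto_natCast_atTop_atTop
  exact ⟨⟨r, hG, fun k => (hR _ ((le_max_left _ _).trans (hr1 k))).2, ht, h.comp ht,
    fun k => by linarith [(hR _ ((le_max_left _ _).trans (hr1 k))).1], hr2⟩⟩

theorem Scale.le_rr {G : ℝ → ℝ} (S : Scale G) (k i : ℕ) : S.r k ≤ S.rr k i :=
  le_mul_of_one_le_right (by linarith [S.one_le k]) (le_add_of_nonneg_right (by positivity))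

theorem Scale.rr_mono {G : ℝ → ℝ} (S : Scale G) (k : ℕ) {i j : ℕ} (h : i ≤ j) :
    S.rr k i ≤ S.rr k j := by
  unfold Scale.rr
  have := S.one_le k
  gcongr

theorem Scale.G_rr {G : ℝ → ℝ} (S : Scale G) (k : ℕ) {i : ℕ} (h : i ≤ 8) :
    G (S.rr k i) ≤ 3 * G (S.r k) := by
  have h1 := S.one_le k
  have hl := one_le_log_of_three_le (S.three_le k)
  have h2 : S.rr k 8 = S.r k * (1 + 1 / log (G (S.r k)) ^ 2) := by
    unfold Scale.rr
    push_cast
    field_simp
  refine le_trans (S.mono (h1.trans (S.le_rr k i)) (h1.trans (S.le_rr k 8)) (S.rr_mono k h)) ?_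
  rw [h2]
  exact S.growth k

theorem pigeon (X : Finset ℝ) (a : ℝ) {L : ℝ} (hL : 0 < L) :
    ∃ ρ, a ≤ ρ ∧ ρ ≤ a + L ∧ ∀ x ∈ X, L / (2 * (X.card + 1)) ≤ |ρ - x| := by
  by_contra hcon
  push Not at hcon
  set n := X.card with hn
  set d := L / (2 * ((n : ℝ) + 1)) with hd
  have hd0 : 0 < d := by positivity
  have key : ∀ t : ℕ, t < n + 1 → ∃ x ∈ X, |a + (2 * t + 1) * d - x| < d := fun t ht => by
    refine hcon _ (le_add_of_nonneg_right (by positivity)) ?_
    have h1 : (t : ℝ) ≤ n := by exact_mod_cast Nat.lt_succ_iff.1 ht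
    have h2 : L = (2 * ((n : ℝ) + 1)) * d := by rw [hd]; field_simp
    rw [h2]
    nlinarith
  choose! x hx1 hx2 using key
  obtain ⟨s, hs, t, ht, hst, he⟩ := Finset.exists_ne_map_eq_of_card_lt_of_maps_to
    (s := Finset.range (n + 1)) (t := X) (by simp [hn]) (f := x)
    (fun t ht => hx1 t (by simpa using ht))
  have h1 := abs_lt.1 (hx2 s (by simpa using hs))
  have h2 := abs_lt.1 (hx2 t (by simpa using ht))
  rw [he] at h1
  rcases lt_or_gt_of_ne hst with h | h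
  · have : (s : ℝ) + 1 ≤ t := by exact_mod_cast h
    nlinarith [h1.1, h2.2]
  · have : (t : ℝ) + 1 ≤ s := by exact_mod_cast h
    nlinarith [h1.2, h2.1]

theorem logDeriv_factor {F h : ℂ → ℂ} {B : Finset ℂ} {ν : ℂ → ℤ} {z : ℂ}
    (hz : ∀ b ∈ B, z - b ≠ 0) (hh : DifferentiableAt ℂ h z) (h0 : h z ≠ 0)
    (he : F =ᶠ[𝓝 z] fun w => (∏ b ∈ B, (w - b) ^ ν b) * h w) :
    deriv F z / F z = ∑ b ∈ B, (ν b : ℂ) / (z - b) + deriv h z / h z := by
  have hd : ∀ b ∈ B, DifferentiableAt ℂ (fun w : ℂ => (w - b) ^ ν b) z := fun b hb =>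
    (differentiableAt_id.sub_const b).zpow (Or.inl (hz b hb))
  rw [← logDeriv_apply, (logDeriv_congr_nhds he).eq_of_nhds, logDeriv_mul z
    (Finset.prod_ne_zero_iff.2 fun b hb => zpow_ne_zero _ (hz b hb)) h0
    (DifferentiableAt.fun_finsetProd hd) hh,
    logDeriv_prod (f := fun b w => (w - b) ^ ν b) (fun b hb => zpow_ne_zero _ (hz b hb)) hd,
    logDeriv_apply]
  congr 1
  refine Finset.sum_congr rfl fun b _ => ?_
  rw [logDeriv_fun_zpow (f := fun w : ℂ => w - b) (differentiableAt_id.sub_const b), logDeriv_apply]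
  simp [div_eq_mul_inv]

theorem good_circle_aux {ι : Type} [Fintype ι] (F : ι → ℂ → ℂ) (hF : ∀ j, Meromorphic (F j))
    (hne : ∀ j, NZ (F j)) {A r δ : ℝ} (hA : 1 ≤ A) (hr : 1 ≤ r) (hδ : 0 < δ) (i : ℕ)
    (hi : (i + 3) * δ ≤ 1)
    (h1 : ∀ j, logCounting (F j) 0 (r * (1 + (i + 3) * δ)) +
      logCounting (F j) ⊤ (r * (1 + (i + 3) * δ)) ≤ A)
    (h2 : ∀ j, circleAverage (fun z => |log ‖F j z‖|) 0 (r * (1 + (i + 2) * δ)) ≤ A) :
    ∃ ρ, r * (1 + i * δ) ≤ ρ ∧ ρ ≤ r * (1 + (i + 1) * δ) ∧ ∀ j, ∀ z : ℂ, ‖z‖ = ρ →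
      meromorphicOrderAt (F j) z = 0 ∧ (AnalyticAt ℂ (F j) z →
        ‖deriv (F j) z / F j z‖ ≤ (8 * Fintype.card ι + 32) * A ^ 2 / δ ^ 3) := by
  classical
  have hi0 : (0 : ℝ) ≤ i := Nat.cast_nonneg i
  set R := r * (1 + (i + 2) * δ) with hR
  have hR1 : r ≤ R := le_mul_of_one_le_right (by linarith) (le_add_of_nonneg_right (by positivity))
  have hR2 : R ≤ 2 * r := by rw [hR]; nlinarith
  have hδ1 : δ ≤ 1 := by nlinarith
  choose B ν h hB hν ha hn hfac hest using fun j => factor_estimate (hF j) (hne j)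
    (ρ := R) (by linarith)
  set M := 2 * A / δ with hM
  have hM1 : A ≤ M := by
    rw [hM, le_div_iff₀ hδ]
    nlinarith
  have hcount : ∀ j, ∑ b ∈ B j, |(ν j b : ℝ)| ≤ M := fun j => by
    have hlt : R < r * (1 + (i + 3) * δ) := by rw [hR]; nlinarith
    have e1 := (count_le (hF j) (hne j) (hr.trans hR1) hlt (B j) (ν j)
      (fun b hb => ((hB j b).1 hb).1) (hν j)).trans (h1 j)
    have e2 : δ / 2 ≤ log (r * (1 + (i + 3) * δ) / R) := by
      refine le_trans ?_ (one_sub_inv_le_log_of_pos (div_pos (by positivity) (by linarith)))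
      rw [inv_div, hR, mul_div_mul_left _ _ (by linarith), le_sub_comm, div_le_iff₀ (by positivity)]
      nlinarith
    have e3 : 0 ≤ ∑ b ∈ B j, |(ν j b : ℝ)| := Finset.sum_nonneg fun _ _ => abs_nonneg _
    rw [hM, le_div_iff₀ hδ]
    nlinarith
  have hcard : ∀ j, ((B j).card : ℝ) ≤ M := fun j => by
    refine le_trans ?_ (hcount j)
    rw [Finset.card_eq_sum_ones]
    push_cast
    refine Finset.sum_le_sum fun b hb => ?_
    have e1 := ((hB j b).1 hb).2
    rw [hν j b hb] at e1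
    have e2 : ν j b ≠ 0 := by exact_mod_cast e1
    exact_mod_cast Int.one_le_abs e2
  set X := (Finset.univ.biUnion B).image fun b : ℂ => ‖b‖ with hX
  have hXc : (X.card : ℝ) ≤ Fintype.card ι * M := by
    have e1 : X.card ≤ ∑ j, (B j).card := Finset.card_image_le.trans Finset.card_biUnion_le
    have e2 : (X.card : ℝ) ≤ ∑ j, ((B j).card : ℝ) := by exact_mod_cast e1
    refine e2.trans ((Finset.sum_le_sum fun j _ => hcard j).trans ?_)
    simp
  obtain ⟨ρ, hρ1, hρ2, hρ3⟩ := pigeon X (r * (1 + i * δ)) (L := r * δ) (by positivity)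
  set m : ℝ := (Fintype.card ι : ℝ) with hm
  have hm0 : 0 ≤ m := Nat.cast_nonneg _
  have hdist : ∀ j, ∀ b ∈ B j, ∀ z : ℂ, ‖z‖ = ρ → δ / (2 * ((m + 1) * M)) ≤ ‖z - b‖ := by
    intro j b hb z hz
    have e1 := hρ3 ‖b‖ (Finset.mem_image_of_mem _ (Finset.mem_biUnion.2 ⟨j, Finset.mem_univ j, hb⟩))
    rw [← hz] at e1
    refine le_trans ?_ (e1.trans (abs_norm_sub_norm_le z b))
    have e2 : (0 : ℝ) ≤ X.card := Nat.cast_nonneg _
    gcongr
    · nlinarith
    · nlinarith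
  have hdpos : 0 < δ / (2 * ((m + 1) * M)) := by
    have : 0 < M := by linarith
    positivity
  refine ⟨ρ, hρ1, by linarith, fun j z hz => ?_⟩
  have hgap : r * δ ≤ R - ‖z‖ := by rw [hz, hR]; linarith
  have hzR : ‖z‖ < R := by nlinarith
  have hzb : ∀ b ∈ B j, z - b ≠ 0 := fun b hb =>
    norm_pos_iff.1 (hdpos.trans_le (hdist j b hb z hz))
  refine ⟨?_, fun hz' => ?_⟩
  · by_contra e1
    exact hzb z ((hB j z).2 ⟨hzR.le, e1⟩) (sub_self z)
  have hzball : z ∈ ball (0 : ℂ) R := by simpa using hzR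
  have he : F j =ᶠ[𝓝 z] fun w => (∏ b ∈ B j, (w - b) ^ ν j b) * h j w := by
    filter_upwards [hz'.eventually_analyticAt, isOpen_ball.mem_nhds hzball] with w e1 e2
      using hfac j w e2 e1
  rw [logDeriv_factor hzb (ha j z (ball_subset_closedBall hzball)).differentiableAt
    (hn j z (ball_subset_closedBall hzball)) he]
  have hM0 : 0 < M := by linarith
  have b1 : ‖∑ b ∈ B j, (ν j b : ℂ) / (z - b)‖ ≤ 8 * (m + 1) * A ^ 2 / δ ^ 3 := by
    calc ‖∑ b ∈ B j, (ν j b : ℂ) / (z - b)‖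
        ≤ ∑ b ∈ B j, |(ν j b : ℝ)| / (δ / (2 * ((m + 1) * M))) := by
          refine (norm_sum_le _ _).trans (Finset.sum_le_sum fun b hb => ?_)
          rw [norm_div, Complex.norm_intCast]
          exact div_le_div_of_nonneg_left (abs_nonneg _) hdpos (hdist j b hb z hz)
      _ ≤ M / (δ / (2 * ((m + 1) * M))) := by
          rw [← Finset.sum_div]
          exact div_le_div_of_nonneg_right (hcount j) hdpos.le
      _ = 8 * (m + 1) * A ^ 2 / δ ^ 3 := by
          rw [hM]; field_simp; ring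
  have b2 : ‖deriv (h j) z / h j z‖ ≤ 24 * A ^ 2 / δ ^ 3 := by
    refine ((hest j z hzR).1).trans ?_
    have e1 : 2 * R / (R - ‖z‖) ^ 2 ≤ 4 / δ ^ 2 := by
      calc 2 * R / (R - ‖z‖) ^ 2 ≤ 2 * (2 * r) / (r * δ) ^ 2 := by gcongr
        _ = 4 / δ ^ 2 / r := by field_simp; ring
        _ ≤ 4 / δ ^ 2 := div_le_self (by positivity) hr
    have e2 : circleAverage (fun ζ => |log ‖F j ζ‖|) 0 R + 2 * ∑ b ∈ B j, |(ν j b : ℝ)| ≤ 3 * M := by
      linarith [h2 j, hcount j]
    have e3 : 0 ≤ circleAverage (fun ζ => |log ‖F j ζ‖|) 0 R + 2 * ∑ b ∈ B j, |(ν j b : ℝ)| :=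
      add_nonneg (circleAverage_nonneg_of_nonneg fun _ _ => abs_nonneg _) (by positivity)
    calc _ ≤ 4 / δ ^ 2 * (3 * M) := mul_le_mul e1 e2 e3 (by positivity)
      _ = 24 * A / δ ^ 3 := by rw [hM]; field_simp; ring
      _ ≤ 24 * A ^ 2 / δ ^ 3 := by gcongr; nlinarith
  calc _ ≤ 8 * (m + 1) * A ^ 2 / δ ^ 3 + 24 * A ^ 2 / δ ^ 3 :=
        (norm_add_le _ _).trans (add_le_add b1 b2)
    _ = _ := by ring

/-- Lemma on the logarithmic derivative, in a pointwise form on well chosen circles. -/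
theorem good_circle {G : ℝ → ℝ} (S : Scale G) (i : ℕ) (hi : i + 3 ≤ 8) {ι : Type} [Fintype ι]
    (F : ι → ℂ → ℂ) (hF : ∀ j, Meromorphic (F j)) (hne : ∀ j, NZ (F j))
    (hT : ∀ j, ∃ c : ℝ, ∀ᶠ k in atTop, T (F j) (S.rr k (i + 3)) ≤ c * G (S.r k)) :
    ∃ ρ : ℕ → ℝ, ∀ᶠ k in atTop, S.rr k i ≤ ρ k ∧ ρ k ≤ S.rr k (i + 1) ∧
      ∀ j, ∀ z : ℂ, ‖z‖ = ρ k → meromorphicOrderAt (F j) z = 0 ∧
        (AnalyticAt ℂ (F j) z → ‖deriv (F j) z / F j z‖ ≤ G (S.r k) ^ 3) := by
  refine Eventually.choice (r := fun k ρ => S.rr k i ≤ ρ ∧ ρ ≤ S.rr k (i + 1) ∧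
      ∀ j, ∀ z : ℂ, ‖z‖ = ρ → meromorphicOrderAt (F j) z = 0 ∧
        (AnalyticAt ℂ (F j) z → ‖deriv (F j) z / F j z‖ ≤ G (S.r k) ^ 3)) ?_
  choose c hc using hT
  choose d hd using fun j => fmt (hF j) 0
  simp only [sub_zero] at hd
  set C : ℝ := 1 + ∑ j, (2 * |c j| + |d j|) with hC
  have hC1 : 1 ≤ C := le_add_of_nonneg_right (by positivity)
  have hCj : ∀ j, 2 * |c j| + |d j| ≤ C := fun j => by
    have := Finset.single_le_sum (f := fun j => 2 * |c j| + |d j|) (fun j _ => by positivity)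
      (Finset.mem_univ j)
    linarith
  set K : ℝ := (8 * Fintype.card ι + 32) * C ^ 2 * 512 with hK
  have hK0 : 0 < K := by positivity
  have hlog := S.tendstoG.eventually
    ((isLittleO_pow_log_id_atTop (n := 6)).def (c := K⁻¹) (by positivity))
  filter_upwards [eventually_all.2 hc, hlog] with k hk hlk
  set g := G (S.r k) with hg
  have hg3 : 3 ≤ g := S.three_le k
  have hl : 1 ≤ log g := one_le_log_of_three_le hg3
  have hr := S.one_le k
  have hrr : ∀ n : ℕ, S.rr k n = S.r k * (1 + n * (1 / (8 * log g ^ 2))) := fun n => by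
    rw [Scale.rr, mul_one_div]
  have hT3 : ∀ j, 2 * T (F j) (S.rr k (i + 3)) + d j ≤ C * g := fun j => by
    have e1 := hk j
    have e2 : c j * g ≤ |c j| * g := mul_le_mul_of_nonneg_right (le_abs_self _) (by linarith)
    have e3 : d j ≤ |d j| * g := (le_abs_self _).trans (le_mul_of_one_le_right (abs_nonneg _)
      (by linarith))
    nlinarith [hCj j]
  have hi' : (i : ℝ) + 3 ≤ 8 := by exact_mod_cast hi
  obtain ⟨ρ, h1, h2, h3⟩ := good_circle_aux F hF hne (A := C * g) (r := S.r k)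
    (δ := 1 / (8 * log g ^ 2)) (by nlinarith) hr (by positivity) i
    (by rw [mul_one_div, div_le_one (by positivity)]; nlinarith)
    (fun j => by
      have e1 := hrr (i + 3)
      push_cast at e1
      rw [← e1]
      have e2 := (hd j _ (hr.trans (S.le_rr k (i + 3)))).2.2.1
      have e3 := lc_le_T (F j) (S.rr k (i + 3))
      linarith [hT3 j])
    (fun j => by
      have e1 := hrr (i + 2)
      push_cast at e1
      rw [← e1]
      have e2 := (hd j _ (hr.trans (S.le_rr k (i + 2)))).2.2.2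
      have e3 : T (F j) (S.rr k (i + 2)) ≤ T (F j) (S.rr k (i + 3)) :=
        characteristic_monotoneOn (hF j)
          (show 0 < S.rr k (i + 2) by linarith [S.le_rr k (i + 2)])
          (show 0 < S.rr k (i + 3) by linarith [S.le_rr k (i + 3)]) (S.rr_mono k (by omega))
      linarith [hT3 j])
  refine ⟨ρ, by rw [hrr]; exact h1, by rw [hrr]; push_cast; exact h2, fun j z hz =>
    ⟨(h3 j z hz).1, fun ha => ((h3 j z hz).2 ha).trans ?_⟩⟩
  have e1 : K * log g ^ 6 ≤ g := by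
    simp only [id, Real.norm_eq_abs] at hlk
    rw [abs_of_nonneg (by positivity), abs_of_nonneg (by linarith), inv_mul_eq_div,
      le_div_iff₀ hK0] at hlk
    linarith
  calc _ = g ^ 2 * (K * log g ^ 6) := by rw [hK]; field_simp; ring
    _ ≤ g ^ 2 * g := by gcongr
    _ = g ^ 3 := by ring

end Pool.Agent.Lib.MP_bb1814_an
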