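import Mathlib
import Pool.Agent.Lib.MP_bb1814_an.Nev3

/-!
A crude second main theorem and Picard's theorems.
-/

set_option maxHeartbeats 400000

namespace Pool.Agent.Lib.MP_bb1814_an

open Filter Topology Set Metric Real ValueDistribution

theorem ev_codiscrete {p : ℂ → Prop} : (∀ᶠ z in codiscrete ℂ, p z) ↔ ∀ x, ∀ᶠ z in 𝓝[≠] x, p z := by
  rw [Filter.eventually_iff, mem_codiscrete]
  simp only [disjoint_principal_right, compl_compl]
  rfl

theorem NZ_of_point {F : ℂ → ℂ} (hF : Meromorphic F) {z : ℂ} (h : meromorphicOrderAt F z ≠ ⊤) :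
    NZ F := fun y =>
  (hF.meromorphicOn (s := univ)).meromorphicOrderAt_ne_top_of_isPreconnected isPreconnected_univ
    (mem_univ z) (mem_univ y) h

theorem NZ.ev_ne {F : ℂ → ℂ} (hne : NZ F) (hF : Meromorphic F) : ∀ᶠ z in codiscrete ℂ, F z ≠ 0 :=
  ev_codiscrete.2 fun x => (meromorphicOrderAt_ne_top_iff_eventually_ne_zero (hF x)).1 (hne x)

theorem NZ_of_ev {F : ℂ → ℂ} (hF : Meromorphic F) (h : ∀ᶠ z in codiscrete ℂ, F z ≠ 0) : NZ F :=
  fun x => (meromorphicOrderAt_ne_top_iff_eventually_ne_zero (hF x)).2 (ev_codiscrete.1 h x)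

theorem ev_zero_of_not_NZ {F : ℂ → ℂ} (hF : Meromorphic F) (h : ¬ NZ F) :
    ∀ᶠ z in codiscrete ℂ, F z = 0 := by
  refine ev_codiscrete.2 fun x => meromorphicOrderAt_eq_top_iff.1 ?_
  by_contra h1
  exact h (NZ_of_point hF h1)

theorem ev_analytic {F : ℂ → ℂ} (hF : Meromorphic F) : ∀ᶠ z in codiscrete ℂ, AnalyticAt ℂ F z :=
  ev_codiscrete.2 fun x => (hF x).eventually_analyticAt

theorem NZ_deriv {F : ℂ → ℂ} (hF : Meromorphic F) (hnc : ∀ c, NZ fun z => F z - c) :
    NZ (deriv F) := by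
  obtain ⟨z, hz⟩ := exists_analyticAt hF
  have hpos : 0 < meromorphicOrderAt (fun x => F x - F z) z :=
    order_pos_of_zero (hz.sub analyticAt_const) (by simp)
  obtain ⟨n, hn⟩ := WithTop.ne_top_iff_exists.1 (hnc (F z) z)
  have hn0 : n ≠ 0 := by
    rintro rfl
    rw [← hn] at hpos
    simp at hpos
  have h1 := meromorphicOrderAt_deriv_eq_sub_one (by exact_mod_cast hn0) hn.symm
  have h2 : deriv (fun x => F x - F z) = deriv F := by
    ext x; exact deriv_sub_const _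
  rw [h2] at h1
  exact NZ_of_point hF.deriv (z := z) (by rw [h1]; exact WithTop.coe_ne_top)

theorem T_nonneg (F : ℂ → ℂ) {r : ℝ} (hr : 1 ≤ r) : 0 ≤ T F r := characteristic_nonneg hr

theorem T_const (c : ℂ) (r : ℝ) : T (fun _ => c) r = log⁺ ‖c‖ := by
  simp [T_eq]

theorem T_congr {F G : ℂ → ℂ} (h : ∀ᶠ z in codiscrete ℂ, F z = G z) {r : ℝ} (hr : 1 ≤ r) :
    T F r = T G r := characteristic_congr_codiscrete h (by linarith)

theorem T_mul_le {F G : ℂ → ℂ} (hF : Meromorphic F) (hG : Meromorphic G) {r : ℝ} (hr : 1 ≤ r) :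
    T (fun z => F z * G z) r ≤ T F r + T G r := by
  by_cases h : NZ F ∧ NZ G
  · exact characteristic_mul_top_le hr hF h.1 hG h.2
  · have h0 : ∀ᶠ z in codiscrete ℂ, F z * G z = (fun _ => (0 : ℂ)) z := by
      rcases not_and_or.1 h with h | h
      · filter_upwards [ev_zero_of_not_NZ hF h] with z hz using by simp [hz]
      · filter_upwards [ev_zero_of_not_NZ hG h] with z hz using by simp [hz]
    rw [T_congr h0 hr, T_const]
    simpa using add_nonneg (T_nonneg F hr) (T_nonneg G hr)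

theorem order_nonneg_of_sub {F : ℂ → ℂ} {z a : ℂ} (hF : MeromorphicAt F z)
    (h : 0 ≤ meromorphicOrderAt (fun x => F x - a) z) : 0 ≤ meromorphicOrderAt F z := by
  obtain ⟨c, hc⟩ := tendsto_nhds_of_meromorphicOrderAt_nonneg (hF.sub (MeromorphicAt.const a z)) h
  exact (tendsto_nhds_iff_meromorphicOrderAt_nonneg hF).1 ⟨c + a, by simpa using hc.add_const a⟩

theorem order_sub_nonneg {F : ℂ → ℂ} {z : ℂ} (a : ℂ) (hF : MeromorphicAt F z)
    (h : 0 ≤ meromorphicOrderAt F z) : 0 ≤ meromorphicOrderAt (fun x => F x - a) z := by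
  obtain ⟨c, hc⟩ := tendsto_nhds_of_meromorphicOrderAt_nonneg hF h
  exact (tendsto_nhds_iff_meromorphicOrderAt_nonneg (hF.sub (MeromorphicAt.const a z))).1
    ⟨c - a, hc.sub_const a⟩

theorem order_sub_of_neg {F : ℂ → ℂ} {z : ℂ} (a : ℂ) (h : meromorphicOrderAt F z < 0) :
    meromorphicOrderAt (fun x => F x - a) z = meromorphicOrderAt F z := by
  have h1 : (fun x => F x - a) = F + fun _ => -a := by ext x; simp [sub_eq_add_neg]
  rw [h1]
  exact meromorphicOrderAt_add_eq_left_of_lt (MeromorphicAt.const _ _)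
    (h.trans_le analyticAt_const.meromorphicOrderAt_nonneg)

theorem locFin_pos {F : ℂ → ℂ} (hF : Meromorphic F) (hne : NZ F) :
    LocFin {z | 0 < meromorphicOrderAt F z} :=
  (locFin_order hF hne).mono fun _ hz => ne_of_gt hz

theorem T_logDeriv_le {F : ℂ → ℂ} (hF : Meromorphic F) (hnc : ∀ c, NZ fun z => F z - c)
    (a c : ℂ) {ρ E : ℝ} (hρ : 1 ≤ ρ) (hE : 1 ≤ E)
    (h : ∀ z : ℂ, ‖z‖ = ρ → AnalyticAt ℂ F z ∧ F z ≠ a ∧ F z ≠ c ∧
      ‖deriv F z / (F z - a)‖ ≤ E ∧ ‖deriv F z / (F z - c)‖ ≤ E) :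
    T (logDeriv fun z => (F z - a) / (F z - c)) ρ ≤
      Nb {z | 0 < meromorphicOrderAt (fun x => F x - a) z} ρ +
      Nb {z | 0 < meromorphicOrderAt (fun x => F x - c) z} ρ + log E + log 2 := by
  have ha := mero_sub_const hF a
  have hc := mero_sub_const hF c
  have hH : Meromorphic fun z => (F z - a) / (F z - c) := ha.div hc
  have hXa := locFin_pos ha (hnc a)
  have hXc := locFin_pos hc (hnc c)
  have e1 : proximity (logDeriv fun z => (F z - a) / (F z - c)) ⊤ ρ ≤ log (2 * E) := by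
    refine proximity_le_of_bound (by linarith) (by linarith) (fun z hz => ?_) hH.logDeriv
    obtain ⟨h1, h2, h3, h4, h5⟩ := h z hz
    rw [logDeriv_div (f := fun z => F z - a) (g := fun z => F z - c) z (sub_ne_zero.2 h2)
      (sub_ne_zero.2 h3) (h1.differentiableAt.sub_const a) (h1.differentiableAt.sub_const c),
      logDeriv_apply, logDeriv_apply, deriv_sub_const, deriv_sub_const]
    exact (norm_sub_le _ _).trans (by linarith)
  have e2 := poles_le_Nb hH.logDeriv (hXa.union hXc) (r := ρ) (fun z hz => by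
    have ho : meromorphicOrderAt (fun z => (F z - a) / (F z - c)) z =
        meromorphicOrderAt (fun x => F x - a) z - meromorphicOrderAt (fun x => F x - c) z :=
      meromorphicOrderAt_div (ha z) (hc z)
    have h0 : meromorphicOrderAt (fun z => (F z - a) / (F z - c)) z ≠ 0 := fun h0 =>
      absurd (meromorphicOrderAt_logDeriv_nonneg (hH z) h0) (not_le.2 hz)
    obtain ⟨n, hn⟩ := WithTop.ne_top_iff_exists.1 (hnc a z)
    obtain ⟨m, hm⟩ := WithTop.ne_top_iff_exists.1 (hnc c z)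
    constructor
    · by_contra h1
      simp only [mem_union, mem_ofPred_eq, not_or, not_lt] at h1
      apply h0
      rw [ho]
      rcases lt_or_ge (meromorphicOrderAt F z) 0 with h2 | h2
      · have h3 : meromorphicOrderAt (fun x => F x - a) z =
            meromorphicOrderAt (fun x => F x - c) z := by
          rw [order_sub_of_neg a h2, order_sub_of_neg c h2]
        rw [h3, ← hm, ← WithTop.LinearOrderedAddCommGroup.coe_sub, sub_self, WithTop.coe_zero]
      · rw [le_antisymm h1.1 (order_sub_nonneg a (hF z) h2),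
          le_antisymm h1.2 (order_sub_nonneg c (hF z) h2)]
        simp
    · rw [meromorphicOrderAt_logDeriv_eq_neg_one (hH z) h0]
      · exact le_rfl
      · rw [ho, ← hn, ← hm, ← WithTop.LinearOrderedAddCommGroup.coe_sub]
        exact WithTop.coe_ne_top) hρ
  have e3 := Nb_union_le hXa hXc hρ
  rw [log_mul two_ne_zero (by linarith)] at e1
  rw [T_eq]
  linarith

theorem logDeriv_quot {F : ℂ → ℂ} {z a c : ℂ} (h1 : AnalyticAt ℂ F z) (h2 : F z - a ≠ 0)
    (h3 : F z - c ≠ 0) : logDeriv (fun z => (F z - a) / (F z - c)) z =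
      (a - c) * deriv F z / ((F z - a) * (F z - c)) := by
  rw [logDeriv_div (f := fun z => F z - a) (g := fun z => F z - c) z h2 h3
    (h1.differentiableAt.sub_const a) (h1.differentiableAt.sub_const c),
    logDeriv_apply, logDeriv_apply, deriv_sub_const, deriv_sub_const]
  field_simp
  ring

/-- A crude second main theorem for three values on a circle where the logarithmic derivatives
are bounded. -/
theorem three_values {F : ℂ → ℂ} (hF : Meromorphic F) (hnc : ∀ c, NZ fun z => F z - c)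
    {a b c : ℂ} (hab : a ≠ b) (hac : a ≠ c) (hbc : b ≠ c) :
    ∃ K : ℝ, ∀ ρ E : ℝ, 1 ≤ ρ → 1 ≤ E →
      (∀ z : ℂ, ‖z‖ = ρ → AnalyticAt ℂ F z ∧ F z ≠ a ∧ F z ≠ b ∧ F z ≠ c ∧
        ‖deriv F z / (F z - a)‖ ≤ E ∧ ‖deriv F z / (F z - b)‖ ≤ E ∧
        ‖deriv F z / (F z - c)‖ ≤ E) →
      T F ρ ≤ Nb {z | 0 < meromorphicOrderAt (fun x => F x - a) z} ρ +
        Nb {z | 0 < meromorphicOrderAt (fun x => F x - b) z} ρ +
        2 * Nb {z | 0 < meromorphicOrderAt (fun x => F x - c) z} ρ + 2 * log E + K := by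
  have ha := mero_sub_const hF a
  have hb := mero_sub_const hF b
  have hc := mero_sub_const hF c
  set l₁ := logDeriv fun z => (F z - a) / (F z - c) with hl₁
  set l₂ := logDeriv fun z => (F z - b) / (F z - c) with hl₂
  have m₁ : Meromorphic l₁ := (ha.div hc).logDeriv
  have m₂ : Meromorphic l₂ := (hb.div hc).logDeriv
  set κ : ℂ := (a - c) / ((b - c) * (b - a)) with hκ
  have hq : Meromorphic fun z => l₂ z * l₁⁻¹ z := m₂.mul m₁.inv
  have hW : Meromorphic fun z => κ * (l₂ z * l₁⁻¹ z) := (Meromorphic.const κ).mul hq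
  have hid : ∀ᶠ z in codiscrete ℂ,
      (fun z => F z - b)⁻¹ z = (fun z => κ * (l₂ z * l₁⁻¹ z) - (b - a)⁻¹) z := by
    filter_upwards [ev_analytic hF, (hnc a).ev_ne ha, (hnc b).ev_ne hb, (hnc c).ev_ne hc,
      (NZ_deriv hF hnc).ev_ne hF.deriv] with z h1 h2 h3 h4 h5
    have h6 := sub_ne_zero.2 hac
    have h7 := sub_ne_zero.2 hbc
    have h8 := sub_ne_zero.2 hab.symm
    simp only [Pi.inv_apply, hl₁, hl₂, logDeriv_quot h1 h2 h4, logDeriv_quot h1 h3 h4, hκ]
    field_simp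
    ring
  obtain ⟨c₁, -, h₁⟩ := T_shift_le hF b
  obtain ⟨c₂, -, h₂⟩ := T_inv_le hb
  obtain ⟨c₃, -, h₃⟩ := T_shift_le hW (b - a)⁻¹
  obtain ⟨c₄, -, h₄⟩ := T_inv_le m₁
  refine ⟨c₁ + c₂ + c₃ + c₄ + log⁺ ‖κ‖ + 2 * log 2, fun ρ E hρ hE h => ?_⟩
  have e1 := (h₁ ρ).2
  have e2 := (h₂ ρ).2
  have e3 := T_congr hid hρ
  have e4 := (h₃ ρ).1
  have e5 := T_mul_le (Meromorphic.const κ) hq hρ
  have e6 := T_mul_le m₂ m₁.inv hρ
  have e7 := (h₄ ρ).1
  have e8 := T_logDeriv_le hF hnc a c hρ hE fun z hz => by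
    obtain ⟨h1, h2, h3, h4, h5, h6, h7⟩ := h z hz
    exact ⟨h1, h2, h4, h5, h7⟩
  have e9 := T_logDeriv_le hF hnc b c hρ hE fun z hz => by
    obtain ⟨h1, h2, h3, h4, h5, h6, h7⟩ := h z hz
    exact ⟨h1, h3, h4, h6, h7⟩
  rw [T_const] at e5
  linarith

theorem Scale.not_le_log {G : ℝ → ℝ} (S : Scale G) (A B : ℝ) :
    ¬ ∀ᶠ k in atTop, G (S.r k) ≤ A * log (G (S.r k)) + B := by
  intro h
  have h1 := S.tendstoG.eventually
    ((isLittleO_log_id_atTop.const_mul_left A).def (c := 1 / 2) (by norm_num))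
  obtain ⟨k, e1, e2, e3⟩ := (h.and (h1.and (S.tendstoG.eventually_gt_atTop (2 * B)))).exists
  have e4 := S.three_le k
  simp only [id, Real.norm_eq_abs] at e2
  rw [abs_of_nonneg (show 0 ≤ G (S.r k) by linarith)] at e2
  linarith [le_abs_self (A * log (G (S.r k)))]

theorem Reg.const_or {F : ℂ → ℂ} (hF : Reg F) :
    (∃ k, ∀ z, F z = k) ∨ ∀ c, NZ fun z => F z - c := by
  by_cases h : ∀ c, NZ fun z => F z - c
  · exact Or.inr h
  left
  obtain ⟨c, hc⟩ := not_forall.1 h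
  refine ⟨c, fun z => ?_⟩
  have h1 : meromorphicOrderAt (fun x => F x - c) z = ⊤ := by
    by_contra h1
    exact hc (NZ_of_point (mero_sub_const hF.mero c) h1)
  have h2 := hF.an z (order_nonneg_of_sub (a := c) (hF.mero z) (by rw [h1]; exact le_top))
  exact sub_eq_zero.1 (zero_of_order_pos (F := fun x => F x - c) (h2.sub analyticAt_const)
    (by rw [h1]; exact WithTop.top_pos))

theorem Reg.of_order_pos {F : ℂ → ℂ} (hF : Reg F) {z a : ℂ}
    (h : 0 < meromorphicOrderAt (fun x => F x - a) z) : AnalyticAt ℂ F z ∧ F z = a := by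
  have h2 := hF.an z (order_nonneg_of_sub (hF.mero z) h.le)
  exact ⟨h2, sub_eq_zero.1 (zero_of_order_pos (F := fun x => F x - a)
    (h2.sub analyticAt_const) h)⟩

theorem Reg.circle {F : ℂ → ℂ} (hF : Reg F) {z a : ℂ} {E : ℝ}
    (h : meromorphicOrderAt (fun x => F x - a) z = 0 ∧ (AnalyticAt ℂ (fun x => F x - a) z →
      ‖deriv (fun x => F x - a) z / (F z - a)‖ ≤ E)) :
    AnalyticAt ℂ F z ∧ F z ≠ a ∧ ‖deriv F z / (F z - a)‖ ≤ E := by
  have h2 := hF.an z (order_nonneg_of_sub (hF.mero z) h.1.ge)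
  have h3 : AnalyticAt ℂ (fun x => F x - a) z := h2.sub analyticAt_const
  refine ⟨h2, sub_ne_zero.1 (ne_zero_of_order (F := fun x => F x - a) h3 h.1), ?_⟩
  have := h.2 h3
  rwa [deriv_sub_const] at this

theorem T_mono {F : ℂ → ℂ} (hF : Meromorphic F) {r s : ℝ} (hr : 1 ≤ r) (h : r ≤ s) :
    T F r ≤ T F s :=
  characteristic_monotoneOn hF (show 0 < r by linarith) (show 0 < s by linarith) h

theorem Scale.T_le {G : ℝ → ℝ} (S : Scale G) {F : ℂ → ℂ} (hF : Meromorphic F)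
    (h : ∀ r, 1 ≤ r → T F r ≤ G r) (a : ℂ) {i : ℕ} (hi : i ≤ 8) :
    ∃ c : ℝ, ∀ᶠ k in atTop, T (fun z => F z - a) (S.rr k i) ≤ c * G (S.r k) := by
  obtain ⟨c, hc0, hc⟩ := T_shift_le hF a
  refine ⟨3 + c, Eventually.of_forall fun k => ?_⟩
  have e1 := (hc (S.rr k i)).1
  have e2 := h _ ((S.one_le k).trans (S.le_rr k i))
  have e3 := S.G_rr k hi
  have e4 := S.three_le k
  nlinarith

theorem Nb_empty (r : ℝ) : Nb ∅ r = 0 := by simp [Nb]

/-- Picard's theorem for meromorphic functions. -/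
theorem picard3 {F : ℂ → ℂ} (hF : Reg F) {a b c : ℂ} (hab : a ≠ b) (hac : a ≠ c) (hbc : b ≠ c)
    (h : ∀ z, AnalyticAt ℂ F z → F z ≠ a ∧ F z ≠ b ∧ F z ≠ c) : ∃ k, ∀ z, F z = k := by
  rcases hF.const_or with h0 | hnc
  · exact h0
  exfalso
  obtain ⟨K, hK⟩ := three_values hF.mero hnc hab hac hbc
  have ea : {z | 0 < meromorphicOrderAt (fun x => F x - a) z} = ∅ :=
    eq_empty_of_forall_notMem fun z hz => (h z (hF.of_order_pos hz).1).1 (hF.of_order_pos hz).2
  have eb : {z | 0 < meromorphicOrderAt (fun x => F x - b) z} = ∅ :=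
    eq_empty_of_forall_notMem fun z hz => (h z (hF.of_order_pos hz).1).2.1 (hF.of_order_pos hz).2
  have ec : {z | 0 < meromorphicOrderAt (fun x => F x - c) z} = ∅ :=
    eq_empty_of_forall_notMem fun z hz => (h z (hF.of_order_pos hz).1).2.2 (hF.of_order_pos hz).2
  simp only [ea, eb, ec, Nb_empty] at hK
  obtain ⟨S⟩ := exists_scale (G := fun r => T F r + 3)
    (fun r hr s _ hrs => by linarith [T_mono hF.mero hr hrs])
    (tendsto_atTop_add_const_right _ 3 (T_tendsto hF.mero hnc))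
  obtain ⟨ρ, hρ⟩ := good_circle S 0 (by norm_num) (fun (j : Fin 3) z => F z - ![a, b, c] j)
    (fun j => mero_sub_const hF.mero _) (fun j => hnc _)
    (fun j => S.T_le hF.mero (fun r _ => by linarith) _ (by norm_num))
  refine S.not_le_log 6 (K + 3) ?_
  filter_upwards [hρ] with k ⟨h1, _, h3⟩
  have h4 : S.r k ≤ ρ k := (S.le_rr k 0).trans h1
  have h5 := S.three_le k
  have h6 := hK (ρ k) ((T F (S.r k) + 3) ^ 3) ((S.one_le k).trans h4)
    (one_le_pow₀ (by linarith)) fun z hz => by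
      obtain ⟨p1, p2, p3⟩ := hF.circle (h3 0 z hz)
      obtain ⟨-, q2, q3⟩ := hF.circle (h3 1 z hz)
      obtain ⟨-, r2, r3⟩ := hF.circle (h3 2 z hz)
      exact ⟨p1, p2, q2, r2, p3, q3, r3⟩
  rw [log_pow] at h6
  push_cast at h6
  linarith [T_mono hF.mero (S.one_le k) h4]

/-- Picard's theorem with one exceptional point. -/
theorem picard3' {F : ℂ → ℂ} (hF : Reg F) {a b c : ℂ} (hab : a ≠ b) (hac : a ≠ c) (hbc : b ≠ c)
    (z₀ : ℂ) (h : ∀ z, z ≠ z₀ → AnalyticAt ℂ F z → F z ≠ a ∧ F z ≠ b ∧ F z ≠ c) :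
    ∃ k, ∀ z, F z = k := by
  set φ : ℂ → ℂ := fun z => z₀ + Complex.exp z with hφ
  have hφa : ∀ z, AnalyticAt ℂ φ z := fun z => analyticAt_const.add analyticAt_cexp
  have hφd : ∀ z, deriv φ z ≠ 0 := fun z => by
    rw [hφ, deriv_const_add, Complex.deriv_exp]
    exact Complex.exp_ne_zero z
  have hord : ∀ z, meromorphicOrderAt (F ∘ φ) z = meromorphicOrderAt F (φ z) := fun z =>
    meromorphicOrderAt_comp_of_deriv_ne_zero (hφa z) (hφd z)
  have hR : Reg (F ∘ φ) := ⟨fun z => (hF.mero (φ z)).comp_analyticAt (hφa z),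
    fun z hz => (hF.an _ (hord z ▸ hz)).comp (hφa z)⟩
  obtain ⟨k, hk⟩ := picard3 hR hab hac hbc fun z hz =>
    h (φ z) (by simp [hφ]) (hF.an _ (hord z ▸ hz.meromorphicOrderAt_nonneg))
  have h1 : ∀ z, z ≠ z₀ → F z = k := fun z hz => by
    rw [← hk (Complex.log (z - z₀))]
    simp [hφ, Complex.exp_log (sub_ne_zero.2 hz)]
  refine ⟨k, fun z => ?_⟩
  rcases eq_or_ne z z₀ with rfl | hz
  · refine (hF.of_order_pos ?_).2
    rw [meromorphicOrderAt_eq_top_iff.2]
    · exact WithTop.top_pos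
    · filter_upwards [self_mem_nhdsWithin] with w hw using sub_eq_zero.2 (h1 w hw)
  · exact h1 z hz

/-- Picard's theorem for entire functions, with one exceptional point. -/
theorem picard2' {F : ℂ → ℂ} (hF : Differentiable ℂ F) {a b : ℂ} (hab : a ≠ b) (z₀ : ℂ)
    (h : ∀ z, z ≠ z₀ → F z ≠ a ∧ F z ≠ b) : ∃ k, ∀ z, F z = k := by
  have hFa : ∀ z, AnalyticAt ℂ F z := hF.analyticAt
  have hR : Reg F := ⟨fun z => (hFa z).meromorphicAt, fun z _ => hFa z⟩
  rcases hR.const_or with h0 | hnc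
  · exact h0
  obtain ⟨k, hk⟩ := Infinite.exists_notMem_finset ({a, b} : Finset ℂ)
  simp only [Finset.mem_insert, Finset.mem_singleton, not_or] at hk
  have hak : a - k ≠ 0 := sub_ne_zero.2 (Ne.symm hk.1)
  have hbk : b - k ≠ 0 := sub_ne_zero.2 (Ne.symm hk.2)
  have hG : ∀ z, AnalyticAt ℂ (fun x => F x - k) z := fun z => (hFa z).sub analyticAt_const
  have key : ∀ z, 0 ≤ meromorphicOrderAt (fun x => F x - k)⁻¹ z → F z - k ≠ 0 := fun z hz h0 => by
    have h1 := order_pos_of_zero (hG z) h0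
    obtain ⟨n, hn⟩ := WithTop.ne_top_iff_exists.1 (hnc k z)
    rw [meromorphicOrderAt_inv, ← hn] at hz
    rw [← hn] at h1
    have h2 : 0 < n := by exact_mod_cast h1
    have h3 : 0 ≤ -n := by exact_mod_cast hz
    omega
  have hR' : Reg (fun x => F x - k)⁻¹ := ⟨(mero_sub_const hR.mero k).inv,
    fun z hz => (hG z).inv (key z hz)⟩
  obtain ⟨κ, hκ⟩ := picard3' hR' (a := 0) (b := (a - k)⁻¹) (c := (b - k)⁻¹)
    (inv_ne_zero hak).symm (inv_ne_zero hbk).symm
    (fun e => hab (sub_left_inj.1 (inv_inj.1 e))) z₀ fun z hz ha =>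
      ⟨inv_ne_zero (key z ha.meromorphicOrderAt_nonneg),
        fun e => (h z hz).1 (sub_left_inj.1 (inv_inj.1 e)),
        fun e => (h z hz).2 (sub_left_inj.1 (inv_inj.1 e))⟩
  refine ⟨κ⁻¹ + k, fun z => ?_⟩
  rw [← hκ z]
  simp

end Pool.Agent.Lib.MP_bb1814_an
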