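import Mathlib
import Pool.Agent.Lib.MP_bb1814_an.Defs
import Pool.Agent.Lib.MP_bb1814_an.Nev4

/-!
The case of a constant quotient `u / w`.
-/

set_option maxHeartbeats 400000

namespace Pool.Agent.Lib.MP_bb1814_an

open Filter Topology Set Metric Real ValueDistribution

/-- `F` is meromorphic at `z` of order exactly `n`. -/
def OrdEq (F : ℂ → ℂ) (z : ℂ) (n : ℤ) : Prop := MeromorphicAt F z ∧ meromorphicOrderAt F z = n

/-- `F` is meromorphic at `z` of order at least `n`. -/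
def OrdGe (F : ℂ → ℂ) (z : ℂ) (n : ℤ) : Prop :=
  MeromorphicAt F z ∧ (n : WithTop ℤ) ≤ meromorphicOrderAt F z

section Ord

variable {F G : ℂ → ℂ} {z : ℂ} {n m : ℤ}

theorem OrdEq.ge (h : OrdEq F z n) : OrdGe F z n := ⟨h.1, h.2.ge⟩

theorem OrdGe.mono (h : OrdGe F z n) (hm : m ≤ n) : OrdGe F z m :=
  ⟨h.1, le_trans (by exact_mod_cast hm) h.2⟩

theorem OrdEq.mul (hF : OrdEq F z n) (hG : OrdEq G z m) : OrdEq (fun x => F x * G x) z (n + m) :=
  ⟨hF.1.mul hG.1, by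
    rw [show (fun x => F x * G x) = F * G from rfl, meromorphicOrderAt_mul hF.1 hG.1, hF.2, hG.2,
      WithTop.coe_add]⟩

theorem OrdGe.mul (hF : OrdGe F z n) (hG : OrdGe G z m) : OrdGe (fun x => F x * G x) z (n + m) :=
  ⟨hF.1.mul hG.1, by
    rw [show (fun x => F x * G x) = F * G from rfl, meromorphicOrderAt_mul hF.1 hG.1,
      WithTop.coe_add]
    exact add_le_add hF.2 hG.2⟩

theorem OrdGe.add (hF : OrdGe F z n) (hG : OrdGe G z n) : OrdGe (fun x => F x + G x) z n :=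
  ⟨hF.1.add hG.1, (le_min hF.2 hG.2).trans (meromorphicOrderAt_add hF.1 hG.1)⟩

theorem ordGe_const (c z : ℂ) : OrdGe (fun _ => c) z 0 :=
  ⟨MeromorphicAt.const c z, analyticAt_const.meromorphicOrderAt_nonneg⟩

theorem OrdGe.const_mul (c : ℂ) (hF : OrdGe F z n) : OrdGe (fun x => c * F x) z n :=
  ((ordGe_const c z).mul hF).mono (by omega)

theorem OrdGe.sub (hF : OrdGe F z n) (hG : OrdGe G z n) : OrdGe (fun x => F x - G x) z n := by
  have := hF.add (hG.const_mul (-1))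
  simpa [sub_eq_add_neg] using this

theorem OrdEq.const_mul {c : ℂ} (hc : c ≠ 0) (hF : OrdEq F z n) : OrdEq (fun x => c * F x) z n := by
  have h0 : OrdEq (fun _ => c) z 0 :=
    ⟨MeromorphicAt.const c z, order_eq_zero_of_ne analyticAt_const hc⟩
  simpa using h0.mul hF

theorem OrdEq.deriv (hF : OrdEq F z n) (hn : n ≠ 0) : OrdEq (deriv F) z (n - 1) :=
  ⟨hF.1.deriv, meromorphicOrderAt_deriv_eq_sub_one (by exact_mod_cast hn) hF.2⟩

theorem OrdEq.inv (hF : OrdEq F z n) : OrdEq (fun x => (F x)⁻¹) z (-n) :=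
  ⟨hF.1.inv, by
    rw [show (fun x => (F x)⁻¹) = F⁻¹ from rfl, meromorphicOrderAt_inv, hF.2]
    rfl⟩

theorem OrdEq.sub_const (hF : OrdEq F z n) (hn : n < 0) (a : ℂ) : OrdEq (fun x => F x - a) z n :=
  ⟨hF.1.sub (MeromorphicAt.const a z), by
    rw [order_sub_of_neg a (by rw [hF.2]; exact_mod_cast hn), hF.2]⟩

theorem OrdEq.le_of (hF : OrdEq F z n) (hG : OrdGe G z m) (h : ∀ᶠ x in 𝓝[≠] z, F x = G x) :
    m ≤ n := by
  have h1 := hG.2
  rw [← meromorphicOrderAt_congr h, hF.2] at h1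
  exact_mod_cast h1

theorem OrdEq.eq_of (hF : OrdEq F z n) (hG : OrdEq G z m) (h : ∀ᶠ x in 𝓝[≠] z, F x = G x) :
    n = m :=
  le_antisymm (hG.le_of hF.ge (h.mono fun _ hx => hx.symm)) (hF.le_of hG.ge h)

theorem OrdEq.P (C : Cub) (hF : OrdEq F z n) (hn : n < 0) :
    OrdEq (fun x => C.P (F x)) z (n + n + n) :=
  ((hF.sub_const hn _).mul (hF.sub_const hn _)).mul (hF.sub_const hn _)

theorem ordEq_of_ne_top (hF : MeromorphicAt F z) (h : meromorphicOrderAt F z ≠ ⊤) :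
    ∃ n, OrdEq F z n := by
  obtain ⟨n, hn⟩ := WithTop.ne_top_iff_exists.1 h
  exact ⟨n, hF, hn.symm⟩

end Ord

theorem Reg.ordEq_neg {F : ℂ → ℂ} (hF : Reg F) {z : ℂ} (h : ¬ AnalyticAt ℂ F z) :
    ∃ n < 0, OrdEq F z n := by
  have h1 : meromorphicOrderAt F z < 0 := not_le.1 fun h1 => h (hF.an z h1)
  obtain ⟨n, hn⟩ := ordEq_of_ne_top (hF.mero z) h1.ne_top
  rw [hn.2] at h1
  exact ⟨n, by exact_mod_cast h1, hn⟩

theorem ev_P_ne (C : Cub) {F : ℂ → ℂ} (hF : Meromorphic F) (hnc : ∀ c, NZ fun z => F z - c) :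
    ∀ᶠ z in codiscrete ℂ, C.P (F z) ≠ 0 := by
  filter_upwards [(hnc (C.e 0)).ev_ne (mero_sub_const hF _),
    (hnc (C.e 1)).ev_ne (mero_sub_const hF _), (hnc (C.e 2)).ev_ne (mero_sub_const hF _)]
    with z h0 h1 h2 using mul_ne_zero (mul_ne_zero h0 h1) h2

theorem Cub.pf (C : Cub) : ∃ K : ℝ, 0 ≤ K ∧ ∀ (t d : ℂ) (E : ℝ), (∀ j, t ≠ C.e j) →
    (∀ j, ‖d / (t - C.e j)‖ ≤ E) → ∀ i ≤ 2, ‖d * t ^ i / C.P t‖ ≤ K * E := by
  set q : ℕ → ℝ := fun i => ‖C.e 0 ^ i / ((C.e 0 - C.e 1) * (C.e 0 - C.e 2))‖ +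
    ‖C.e 1 ^ i / ((C.e 1 - C.e 0) * (C.e 1 - C.e 2))‖ +
    ‖C.e 2 ^ i / ((C.e 2 - C.e 0) * (C.e 2 - C.e 1))‖ with hq
  have hq0 : ∀ i, 0 ≤ q i := fun i => by positivity
  refine ⟨q 0 + q 1 + q 2, by linarith [hq0 0, hq0 1, hq0 2], fun t d E ht hd i hi => ?_⟩
  have hE : 0 ≤ E := (norm_nonneg _).trans (hd 0)
  have h0 := sub_ne_zero.2 (ht 0)
  have h1 := sub_ne_zero.2 (ht 1)
  have h2 := sub_ne_zero.2 (ht 2)
  have h01 := sub_ne_zero.2 C.ne01
  have h02 := sub_ne_zero.2 C.ne02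
  have h12 := sub_ne_zero.2 C.ne12
  have h10 := sub_ne_zero.2 C.ne01.symm
  have h20 := sub_ne_zero.2 C.ne02.symm
  have h21 := sub_ne_zero.2 C.ne12.symm
  have key : d * t ^ i / C.P t =
      C.e 0 ^ i / ((C.e 0 - C.e 1) * (C.e 0 - C.e 2)) * (d / (t - C.e 0)) +
      C.e 1 ^ i / ((C.e 1 - C.e 0) * (C.e 1 - C.e 2)) * (d / (t - C.e 1)) +
      C.e 2 ^ i / ((C.e 2 - C.e 0) * (C.e 2 - C.e 1)) * (d / (t - C.e 2)) := by
    unfold Cub.P
    interval_cases i <;> field_simp <;> ring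
  have h3 : ‖d * t ^ i / C.P t‖ ≤ q i * E := by
    rw [key, hq]
    refine (norm_add₃_le).trans ?_
    simp only [norm_mul _ (d / _), add_mul]
    gcongr <;> apply hd
  refine h3.trans (mul_le_mul_of_nonneg_right ?_ hE)
  interval_cases i <;> linarith [hq0 0, hq0 1, hq0 2]

theorem Cub.bound (C : Cub) {x y d u : ℂ} {E U : ℝ} (hx : x ≠ 0)
    (h : ‖d * (x - y)‖ = ‖u * C.P x‖) (hy : ‖y‖ ≤ ‖x‖) (hd : ‖d / x‖ ≤ E) (hu : ‖u‖ ≤ U) :
    ‖u * x‖ ≤ 2 * E + (1 + ‖C.al‖ + ‖C.be‖) * U := by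
  have hE : 0 ≤ E := (norm_nonneg _).trans hd
  have hU : 0 ≤ U := (norm_nonneg _).trans hu
  have ha := norm_nonneg C.al
  have hb := norm_nonneg C.be
  have hx0 : 0 < ‖x‖ := norm_pos_iff.2 hx
  rw [norm_mul]
  rcases le_total ‖x‖ 1 with h1 | h1
  · have : ‖u‖ * ‖x‖ ≤ U := (mul_le_of_le_one_right (norm_nonneg _) h1).trans hu
    nlinarith [mul_nonneg ha hU, mul_nonneg hb hU]
  · have e1 : u * x ^ 3 = u * C.P x + (-(C.al * (u * x))) + (-(C.be * u)) := by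
      rw [C.P_eq]; ring
    have e2 : ‖u‖ * ‖x‖ ^ 3 ≤ ‖u * C.P x‖ + ‖C.al‖ * (‖u‖ * ‖x‖) + ‖C.be‖ * ‖u‖ := by
      rw [← norm_pow, ← norm_mul, e1]
      refine norm_add₃_le.trans ?_
      simp only [norm_neg, norm_mul C.al, norm_mul C.be, norm_mul u x, le_refl]
    have e3 : ‖u * C.P x‖ ≤ E * ‖x‖ * (2 * ‖x‖) := by
      rw [← h, norm_mul]
      rw [norm_div, div_le_iff₀ hx0] at hd
      exact mul_le_mul hd ((norm_sub_le _ _).trans (by linarith)) (norm_nonneg _) (by positivity)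
    have e4 : ‖C.al‖ * (‖u‖ * ‖x‖) ≤ ‖C.al‖ * (U * ‖x‖ ^ 2) := by
      gcongr; nlinarith
    have e5 : ‖C.be‖ * ‖u‖ ≤ ‖C.be‖ * (U * ‖x‖ ^ 2) := by
      refine mul_le_mul_of_nonneg_left (hu.trans (le_mul_of_one_le_right hU ?_)) hb
      nlinarith
    refine le_of_mul_le_mul_right ?_ (pow_pos hx0 2)
    nlinarith [mul_nonneg hU (sq_nonneg ‖x‖)]

section Pair

variable {C : Cub} {f g u w : ℂ → ℂ} {p : ℂ}

theorem Pair.ev_rel (hP : Pair C f g u w) (hp : ∀ z, u z = p * w z) :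
    ∀ᶠ z in codiscrete ℂ, deriv f z * C.P (g z) = p * (deriv g z * C.P (f z)) := by
  filter_upwards [ev_analytic hP.rf.mero, NZ.ev_ne hP.ne (hP.rf.mero.sub hP.rg.mero)]
    with z h1 h2
  have e1 := hP.odef z h1
  have e2 := hP.odeg z h1
  rw [hp] at e1
  apply mul_right_cancel₀ h2
  linear_combination C.P (g z) * e1 - p * C.P (f z) * e2

theorem Pair.ev_u_ne (hP : Pair C f g u w) : ∀ᶠ z in codiscrete ℂ, u z ≠ 0 := by
  filter_upwards [ev_analytic hP.rf.mero, NZ.ev_ne hP.ne (hP.rf.mero.sub hP.rg.mero),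
    (NZ_deriv hP.rf.mero hP.ncf).ev_ne hP.rf.mero.deriv] with z h1 h2 h3 h4
  have e1 := hP.odef z h1
  rw [h4, zero_mul] at e1
  exact mul_ne_zero h3 h2 e1

theorem Pair.p_ne (hP : Pair C f g u w) (hp : ∀ z, u z = p * w z) : p ≠ 0 := by
  obtain ⟨z, hz⟩ := (ev_codiscrete.1 hP.ev_u_ne 0).exists
  rw [hp] at hz
  exact left_ne_zero_of_mul hz

theorem Pair.mero_D (hP : Pair C f g u w) (p : ℂ) :
    Meromorphic fun x => g x * g x - p * (f x * f x) :=
  (hP.rg.mero.mul hP.rg.mero).sub ((Meromorphic.const p).mul (hP.rf.mero.mul hP.rf.mero))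

theorem Pair.an_D (hP : Pair C f g u w) (p : ℂ) {z : ℂ} (hz : AnalyticAt ℂ f z) :
    AnalyticAt ℂ (fun x => g x * g x - p * (f x * f x)) z :=
  (((hP.pole z).1 hz).mul ((hP.pole z).1 hz)).sub (analyticAt_const.mul (hz.mul hz))

theorem Pair.no_pole (hP : Pair C f g u w) (hp : ∀ z, u z = p * w z) (z : ℂ) :
    0 ≤ meromorphicOrderAt (fun x => g x * g x - p * (f x * f x)) z := by
  by_cases hz : AnalyticAt ℂ f z
  · exact (hP.an_D p hz).meromorphicOrderAt_nonneg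
  obtain ⟨n, hn, hf⟩ := hP.rf.ordEq_neg hz
  obtain ⟨m, hm, hg⟩ := hP.rg.ordEq_neg fun h => hz ((hP.pole z).2 h)
  have hrel := ev_codiscrete.1 (hP.ev_rel hp) z
  have hnm := ((hf.deriv hn.ne).mul (hg.P C hm)).eq_of
    (((hg.deriv hm.ne).mul (hf.P C hn)).const_mul (hP.p_ne hp)) hrel
  obtain rfl : n = m := by omega
  have hf0 : ∀ᶠ x in 𝓝[≠] z, f x ≠ 0 :=
    (meromorphicOrderAt_ne_top_iff_eventually_ne_zero hf.1).1 (by rw [hf.2]; exact WithTop.coe_ne_top)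
  have hg0 : ∀ᶠ x in 𝓝[≠] z, g x ≠ 0 :=
    (meromorphicOrderAt_ne_top_iff_eventually_ne_zero hg.1).1 (by rw [hg.2]; exact WithTop.coe_ne_top)
  set W : ℂ → ℂ := fun x => (f x)⁻¹ * (f x)⁻¹ - p * ((g x)⁻¹ * (g x)⁻¹) with hW
  have hWge : OrdGe W z (-n + -n) :=
    (hf.inv.mul hf.inv).ge.sub ((hg.inv.mul hg.inv).ge.const_mul p)
  have hD : ∀ᶠ x in 𝓝[≠] z, g x * g x - p * (f x * f x) = W x * (f x * f x * (g x * g x)) := by
    filter_upwards [hf0, hg0] with x h1 h2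
    rw [hW]
    field_simp
  have hW4 : OrdGe W z (-(n + n + (n + n))) := by
    by_cases htop : meromorphicOrderAt W z = ⊤
    · exact ⟨hWge.1, by rw [htop]; exact le_top⟩
    obtain ⟨j, hj⟩ := ordEq_of_ne_top hWge.1 htop
    have hj1 := hj.le_of hWge (Eventually.of_forall fun _ => rfl)
    have hX : OrdGe (fun x => C.al * (g x * (f x * f x * f x) - f x * (g x * g x * g x)) +
        C.be * (f x * f x * f x - g x * g x * g x)) z (n + (n + n + n)) :=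
      (((hg.mul ((hf.mul hf).mul hf)).ge.sub (hf.mul ((hg.mul hg).mul hg)).ge).const_mul _).add
        (((((hf.mul hf).mul hf).ge.sub ((hg.mul hg).mul hg).ge).const_mul _).mono (by omega))
    have h1 := ((hj.deriv (by omega)).mul ((hf.P C hn).mul
      (((hf.mul hf).mul hf).mul ((hg.mul hg).mul hg)))).le_of
      (((hf.deriv hn.ne).ge.mul hX).const_mul 2) (by
        filter_upwards [hf0, hg0, hrel, hf.1.eventually_analyticAt, hg.1.eventually_analyticAt]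
          with x h1 h2 h3 h4 h5
        have d1 := h4.differentiableAt.hasDerivAt.inv h1
        have d2 := h5.differentiableAt.hasDerivAt.inv h2
        have d3 : HasDerivAt W _ x := (d1.mul d1).sub ((d2.mul d2).const_mul p)
        rw [d3.deriv]
        simp only [Pi.inv_apply]
        rw [C.P_eq, C.P_eq] at h3
        rw [C.P_eq]
        field_simp
        linear_combination (-2 * f x ^ 3) * h3)
    exact hj.ge.mono (by omega)
  have h2 := ((hW4.mul ((hf.mul hf).mul (hg.mul hg)).ge).mono (m := 0) (by omega)).2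
  rw [meromorphicOrderAt_congr hD]
  exact h2

theorem Pair.const_case (hP : Pair C f g u w) (hp : p ≠ 0) {κ : ℂ}
    (hκ : ¬ NZ fun x => g x * g x - p * (f x * f x) - κ) {z₀ : ℂ} (h₀ : AnalyticAt ℂ f z₀)
    (h₁ : C.P (f z₀) = 0) :
    meromorphicOrderAt (fun x => f x - f z₀) z₀ = meromorphicOrderAt (fun x => g x - f z₀) z₀ := by
  have hfg := hP.share z₀ h₀ (Or.inl h₁)
  have hg₀ := (hP.pole z₀).1 h₀
  have hev := ev_codiscrete.1 (ev_zero_of_not_NZ (mero_sub_const (hP.mero_D p) κ) hκ) z₀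
  have hκ0 : g z₀ * g z₀ - p * (f z₀ * f z₀) - κ = 0 :=
    zero_of_order_pos (F := fun x => g x * g x - p * (f x * f x) - κ)
      ((hP.an_D p h₀).sub analyticAt_const)
      (by rw [meromorphicOrderAt_eq_top_iff.2 hev]; exact WithTop.top_pos)
  set a := f z₀ with ha
  obtain ⟨n, hn⟩ := ordEq_of_ne_top (mero_sub_const hP.rf.mero a z₀) (hP.ncf a z₀)
  obtain ⟨m, hm⟩ := ordEq_of_ne_top (mero_sub_const hP.rg.mero a z₀) (hP.ncg a z₀)
  obtain ⟨n', hn'⟩ := ordEq_of_ne_top (mero_sub_const hP.rf.mero (-a) z₀) (hP.ncf (-a) z₀)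
  obtain ⟨m', hm'⟩ := ordEq_of_ne_top (mero_sub_const hP.rg.mero (-a) z₀) (hP.ncg (-a) z₀)
  have key := (hm.mul hm').eq_of ((hn.mul hn').const_mul hp) (by
    filter_upwards [hev] with x hx
    rw [← hfg] at hκ0
    linear_combination hx - hκ0)
  rw [hn.2, hm.2]
  congr 1
  rcases eq_or_ne a 0 with h0 | h0
  · have e1 := hn.eq_of hn' (Eventually.of_forall fun x => by simp [h0])
    have e2 := hm.eq_of hm' (Eventually.of_forall fun x => by simp [h0])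
    omega
  · have h2 : a - -a ≠ 0 := by
      rw [sub_neg_eq_add, ← two_mul]
      exact mul_ne_zero two_ne_zero h0
    have e1 := order_eq_zero_of_ne (F := fun x => f x - -a) (h₀.sub analyticAt_const) h2
    have e2 := order_eq_zero_of_ne (F := fun x => g x - -a) (hg₀.sub analyticAt_const)
      (by rwa [← hfg])
    rw [hn'.2] at e1
    rw [hm'.2] at e2
    have e3 : n' = 0 := by exact_mod_cast e1
    have e4 : m' = 0 := by exact_mod_cast e2
    omega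

theorem Pair.circle_bound (hP : Pair C f g u w) (hp : ∀ z, u z = p * w z) :
    ∃ K : ℝ, 1 ≤ K ∧ ∀ (z : ℂ) (E : ℝ), 1 ≤ E → AnalyticAt ℂ f z →
      (∀ j, f z ≠ C.e j ∧ ‖deriv f z / (f z - C.e j)‖ ≤ E) →
      (∀ j, g z ≠ C.e j ∧ ‖deriv g z / (g z - C.e j)‖ ≤ E) →
      f z ≠ 0 → ‖deriv f z / f z‖ ≤ E → g z ≠ 0 → ‖deriv g z / g z‖ ≤ E →
      ‖w z‖ ≤ K * E ∧ ‖(g z * g z - p * (f z * f z)) * (w z * w z)‖ ≤ K * E ^ 2 := by
  obtain ⟨K, hK0, hK⟩ := C.pf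
  have hp0 : 0 < ‖p‖ := norm_pos_iff.2 (hP.p_ne hp)
  set c₁ : ℝ := 1 + 4 * K ^ 2 / ‖p‖ with hc₁
  set c₂ : ℝ := 1 + ‖C.al‖ + ‖C.be‖ with hc₂
  set c₃ : ℝ := 2 + 2 / ‖p‖ + c₂ * c₁ with hc₃
  have hc₁1 : 1 ≤ c₁ := le_add_of_nonneg_right (by positivity)
  have hc₂0 : 0 ≤ c₂ := by positivity
  have hc₃0 : 0 ≤ c₃ := by positivity
  have hc₄0 : 0 ≤ (1 + ‖p‖) * c₃ ^ 2 := by positivity
  refine ⟨c₁ + (1 + ‖p‖) * c₃ ^ 2, by linarith, fun z E hE hz hf hg hf0 hf1 hg0 hg1 => ?_⟩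
  have e1 := hP.odef z hz
  have e2 := hP.odeg z hz
  have hPf : C.P (f z) ≠ 0 := fun h => by
    obtain ⟨i, hi⟩ := C.P_eq_zero_iff.1 h
    exact (hf i).1 hi
  have hPg : C.P (g z) ≠ 0 := fun h => by
    obtain ⟨i, hi⟩ := C.P_eq_zero_iff.1 h
    exact (hg i).1 hi
  have hA := hK (f z) (deriv f z) E (fun j => (hf j).1) fun j => (hf j).2
  have hB := hK (g z) (deriv g z) E (fun j => (hg j).1) fun j => (hg j).2
  have huw : u z * w z =
      deriv f z * f z ^ 2 / C.P (f z) * (deriv g z * g z ^ 0 / C.P (g z)) +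
      (-2) * (deriv f z * f z ^ 1 / C.P (f z) * (deriv g z * g z ^ 1 / C.P (g z))) +
      deriv f z * f z ^ 0 / C.P (f z) * (deriv g z * g z ^ 2 / C.P (g z)) := by
    have e3 : u z = deriv f z * (f z - g z) / C.P (f z) := by rw [e1]; field_simp
    have e4 : w z = deriv g z * (f z - g z) / C.P (g z) := by rw [e2]; field_simp
    rw [e3, e4]
    field_simp
    ring
  have hKE : 0 ≤ K * E := by positivity
  have hAB : ∀ i ≤ 2, ∀ j ≤ 2, ‖deriv f z * f z ^ i / C.P (f z) *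
      (deriv g z * g z ^ j / C.P (g z))‖ ≤ (K * E) ^ 2 := fun i hi j hj => by
    rw [norm_mul, sq]
    exact mul_le_mul (hA i hi) (hB j hj) (norm_nonneg _) hKE
  have huw' : ‖p‖ * ‖w z‖ ^ 2 ≤ 4 * (K * E) ^ 2 := by
    have : ‖p‖ * ‖w z‖ ^ 2 = ‖u z * w z‖ := by rw [hp, norm_mul, norm_mul]; ring
    rw [this, huw]
    refine norm_add₃_le.trans ?_
    rw [norm_mul (-2 : ℂ)]
    simp only [norm_neg, Complex.norm_ofNat]
    linarith [hAB 2 le_rfl 0 (by norm_num), hAB 1 (by norm_num) 1 (by norm_num),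
      hAB 0 (by norm_num) 2 le_rfl]
  have hw : ‖w z‖ ≤ c₁ * E := by
    rw [← pow_le_pow_iff_left₀ (norm_nonneg _) (by positivity) two_ne_zero]
    have e3 : ‖w z‖ ^ 2 ≤ 4 * K ^ 2 / ‖p‖ * E ^ 2 := by
      rw [div_mul_eq_mul_div, le_div_iff₀ hp0]
      linarith
    have e4 : 4 * K ^ 2 / ‖p‖ ≤ c₁ ^ 2 := by nlinarith
    calc _ ≤ _ := e3
      _ ≤ c₁ ^ 2 * E ^ 2 := by gcongr
      _ = _ := by ring
  have hboth : ‖w z * f z‖ ≤ c₃ * E ∧ ‖w z * g z‖ ≤ c₃ * E := by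
    rcases le_total ‖g z‖ ‖f z‖ with h | h
    · have hu : ‖u z‖ ≤ ‖p‖ * (c₁ * E) := by rw [hp, norm_mul]; gcongr
      have e3 := C.bound hf0 (congrArg norm e1) h hf1 hu
      have e4 : ‖w z * f z‖ ≤ c₃ * E := by
        refine le_of_mul_le_mul_left ?_ hp0
        rw [← norm_mul, ← mul_assoc, ← hp]
        refine e3.trans ?_
        have : ‖p‖ * (c₃ * E) = 2 * E + c₂ * (‖p‖ * (c₁ * E)) + 2 * ‖p‖ * E := by
          rw [hc₃]; field_simp; ring
        rw [this]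
        exact le_add_of_nonneg_right (by positivity)
      refine ⟨e4, le_trans ?_ e4⟩
      rw [norm_mul, norm_mul]
      gcongr
    · have e3 := C.bound hg0 (y := f z) (d := deriv g z) (u := w z)
        (by rw [← e2, norm_mul, norm_mul, norm_sub_rev]) h hg1 hw
      have e4 : ‖w z * g z‖ ≤ c₃ * E := by
        refine e3.trans ?_
        have : c₃ * E = 2 * E + c₂ * (c₁ * E) + 2 / ‖p‖ * E := by rw [hc₃]; ring
        rw [this]
        exact le_add_of_nonneg_right (by positivity)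
      refine ⟨le_trans ?_ e4, e4⟩
      rw [norm_mul, norm_mul]
      gcongr
  refine ⟨hw.trans (by gcongr; linarith), ?_⟩
  have e5 : (g z * g z - p * (f z * f z)) * (w z * w z) =
      (w z * g z) ^ 2 - p * (w z * f z) ^ 2 := by ring
  rw [e5]
  refine (norm_sub_le _ _).trans ?_
  rw [norm_mul p, norm_pow, norm_pow]
  calc _ ≤ (c₃ * E) ^ 2 + ‖p‖ * (c₃ * E) ^ 2 := by gcongr; exacts [hboth.2, hboth.1]
    _ = (1 + ‖p‖) * c₃ ^ 2 * E ^ 2 := by ring
    _ ≤ _ := by gcongr; linarith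

theorem T_le_of_no_pole {F : ℂ → ℂ} (hF : Meromorphic F) (h0 : ∀ z, 0 ≤ meromorphicOrderAt F z)
    {r E : ℝ} (hr : 1 ≤ r) (hE : 1 ≤ E) (h : ∀ z : ℂ, ‖z‖ = r → ‖F z‖ ≤ E) : T F r ≤ log E := by
  have e1 := proximity_le_of_bound (by linarith) hE h hF
  have e2 := poles_le_Nb hF (X := ∅) (fun _ => by simp) (fun z hz => absurd (h0 z) (not_le.2 hz)) hr
  rw [Nb_empty] at e2
  rw [T_eq]
  linarith

theorem Pair.Nb_le (hP : Pair C f g u w)
    (hD : ∀ κ, NZ fun x => g x * g x - p * (f x * f x) - κ) (j : Fin 3) :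
    ∃ c : ℝ, ∀ r, 1 ≤ r →
      Nb {z | 0 < meromorphicOrderAt (fun x => f x - C.e j) z} r ≤
        T (fun x => g x * g x - p * (f x * f x)) r + c ∧
      Nb {z | 0 < meromorphicOrderAt (fun x => g x - C.e j) z} r ≤
        T (fun x => g x * g x - p * (f x * f x)) r + c := by
  set κ := C.e j * C.e j - p * (C.e j * C.e j) with hκ
  obtain ⟨c, hc⟩ := fmt (hP.mero_D p) κ
  have key : ∀ z, AnalyticAt ℂ f z → f z = C.e j → g z = C.e j → (((1 : ℕ) : ℤ) : WithTop ℤ) ≤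
      meromorphicOrderAt (fun x => g x * g x - p * (f x * f x) - κ) z := fun z h1 h2 h3 =>
    one_le_of_pos (order_pos_of_zero ((hP.an_D p h1).sub analyticAt_const) (by
      simp only [h2, h3, hκ, sub_self]))
  refine ⟨c, fun r hr => ⟨?_, ?_⟩⟩
  · have := Nb_le_zeros (mero_sub_const (hP.mero_D p) κ) (hD κ) (m := 1)
      (X := {z | 0 < meromorphicOrderAt (fun x => f x - C.e j) z}) (fun z hz => by
        obtain ⟨h1, h2⟩ := hP.rf.of_order_pos hz
        exact key z h1 h2 (by rw [← hP.share z h1 (Or.inl (by rw [h2, C.P_e])), h2])) le_rfl hr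
    simp only [Nat.cast_one, one_mul] at this
    exact this.trans (hc r hr).2.2.1
  · have := Nb_le_zeros (mero_sub_const (hP.mero_D p) κ) (hD κ) (m := 1)
      (X := {z | 0 < meromorphicOrderAt (fun x => g x - C.e j) z}) (fun z hz => by
        obtain ⟨h1, h2⟩ := hP.rg.of_order_pos hz
        have h3 := (hP.pole z).2 h1
        exact key z h3 (by rw [hP.share z h3 (Or.inr (by rw [h2, C.P_e])), h2]) h2) le_rfl hr
    simp only [Nat.cast_one, one_mul] at this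
    exact this.trans (hc r hr).2.2.1

theorem Pair.growth_case (hP : Pair C f g u w) (hp : ∀ z, u z = p * w z)
    (hD : ∀ κ, NZ fun x => g x * g x - p * (f x * f x) - κ) : False := by
  have mf := hP.rf.mero
  have mg := hP.rg.mero
  have mD := hP.mero_D p
  have mw : Meromorphic w := fun z => (hP.dw.analyticAt z).meromorphicAt
  set D : ℂ → ℂ := fun x => g x * g x - p * (f x * f x) with hDdef
  have mH : Meromorphic fun x => D x * (w x * w x) := mD.mul (mw.mul mw)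
  have hH0 : ∀ z, 0 ≤ meromorphicOrderAt (fun x => D x * (w x * w x)) z := fun z => by
    have h1 : OrdGe D z 0 := ⟨mD z, hP.no_pole hp z⟩
    have h2 : OrdGe w z 0 := ⟨mw z, (hP.dw.analyticAt z).meromorphicOrderAt_nonneg⟩
    simpa using (h1.mul (h2.mul h2)).2
  have hid : ∀ᶠ z in codiscrete ℂ, D z = D z * (w z * w z) * (w⁻¹ z * w⁻¹ z) := by
    filter_upwards [hP.ev_u_ne] with z hz
    rw [hp] at hz
    have := right_ne_zero_of_mul hz
    simp only [Pi.inv_apply]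
    field_simp
  obtain ⟨K, hK1, hK⟩ := hP.circle_bound hp
  obtain ⟨c₀, -, hc₀⟩ := T_inv_le mw
  obtain ⟨K₁, hK₁⟩ := three_values mf hP.ncf C.ne01 C.ne02 C.ne12
  obtain ⟨K₂, hK₂⟩ := three_values mg hP.ncg C.ne01 C.ne02 C.ne12
  choose c hc using hP.Nb_le hD
  obtain ⟨S⟩ := exists_scale (G := fun r => T f r + T g r + 3)
    (fun r hr s _ hrs => by linarith [T_mono mf hr hrs, T_mono mg hr hrs])
    (tendsto_atTop_add_const_right _ 3
      ((T_tendsto mf hP.ncf).atTop_add_atTop (T_tendsto mg hP.ncg)))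
  obtain ⟨ρ, hρ⟩ := good_circle S 0 (by norm_num)
    (fun (j : Bool × Option (Fin 3)) z => cond j.1 f g z - j.2.elim 0 C.e)
    (fun j => by rcases j with ⟨_ | _, j⟩ <;> exact mero_sub_const ‹_› _)
    (fun j => by rcases j with ⟨_ | _, j⟩; exacts [hP.ncg _, hP.ncf _])
    (fun j => by
      rcases j with ⟨_ | _, j⟩
      · exact S.T_le mg (fun r hr => by linarith [T_nonneg f hr]) _ (by norm_num)
      · exact S.T_le mf (fun r hr => by linarith [T_nonneg g hr]) _ (by norm_num))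
  refine S.not_le_log 108 (3 + K₁ + K₂ + 2 * (c 0 + c 1 + 2 * c 2) + 8 * (3 * log K + 2 * c₀)) ?_
  filter_upwards [hρ] with k ⟨h1, _, h3⟩
  have h4 : S.r k ≤ ρ k := (S.le_rr k 0).trans h1
  have h5 := S.three_le k
  have h6 : 1 ≤ ρ k := (S.one_le k).trans h4
  set E := (T f (S.r k) + T g (S.r k) + 3) ^ 3 with hE
  have hE1 : 1 ≤ E := one_le_pow₀ (by linarith)
  have hlE : log E = 3 * log (T f (S.r k) + T g (S.r k) + 3) := by
    rw [hE, log_pow]; norm_num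
  have hf : ∀ (j : Option (Fin 3)) (z : ℂ), ‖z‖ = ρ k → AnalyticAt ℂ f z ∧ f z ≠ j.elim 0 C.e ∧
      ‖deriv f z / (f z - j.elim 0 C.e)‖ ≤ E := fun j z hz => hP.rf.circle (h3 (true, j) z hz)
  have hg : ∀ (j : Option (Fin 3)) (z : ℂ), ‖z‖ = ρ k → AnalyticAt ℂ g z ∧ g z ≠ j.elim 0 C.e ∧
      ‖deriv g z / (g z - j.elim 0 C.e)‖ ≤ E := fun j z hz => hP.rg.circle (h3 (false, j) z hz)
  have hb : ∀ z : ℂ, ‖z‖ = ρ k → ‖w z‖ ≤ K * E ∧ ‖D z * (w z * w z)‖ ≤ K * E ^ 2 := fun z hz =>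
    hK z E hE1 (hf none z hz).1 (fun j => (hf (some j) z hz).2) (fun j => (hg (some j) z hz).2)
      (hf none z hz).2.1 (by simpa using (hf none z hz).2.2) (hg none z hz).2.1
      (by simpa using (hg none z hz).2.2)
  have t1 := T_le_of_no_pole mw (fun z => (hP.dw.analyticAt z).meromorphicOrderAt_nonneg) h6
    (one_le_mul_of_one_le_of_one_le hK1 hE1) fun z hz => (hb z hz).1
  have t2 := T_le_of_no_pole mH hH0 h6
    (one_le_mul_of_one_le_of_one_le hK1 (one_le_pow₀ hE1)) fun z hz => (hb z hz).2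
  rw [log_mul (by linarith) (by linarith)] at t1
  rw [log_mul (by linarith) (by positivity), log_pow] at t2
  have t3 := T_congr hid h6
  have t4 := T_mul_le mH (mw.inv.mul mw.inv) h6
  have t5 := T_mul_le mw.inv mw.inv h6
  have t6 := (hc₀ (ρ k)).1
  have t7 := hK₁ (ρ k) E h6 hE1 fun z hz => ⟨(hf none z hz).1, (hf (some 0) z hz).2.1,
    (hf (some 1) z hz).2.1, (hf (some 2) z hz).2.1, (hf (some 0) z hz).2.2,
    (hf (some 1) z hz).2.2, (hf (some 2) z hz).2.2⟩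
  have t8 := hK₂ (ρ k) E h6 hE1 fun z hz => ⟨(hg none z hz).1, (hg (some 0) z hz).2.1,
    (hg (some 1) z hz).2.1, (hg (some 2) z hz).2.1, (hg (some 0) z hz).2.2,
    (hg (some 1) z hz).2.2, (hg (some 2) z hz).2.2⟩
  have t9 : T D (ρ k) ≤ 4 * log E + (3 * log K + 2 * c₀) := by
    have t4' : T (fun z => D z * (w z * w z) * (w⁻¹ z * w⁻¹ z)) (ρ k) ≤
        T (fun x => D x * (w x * w x)) (ρ k) + T (fun z => w⁻¹ z * w⁻¹ z) (ρ k) := t4
    push_cast at t2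
    linarith
  linarith [T_mono mf (S.one_le k) h4, T_mono mg (S.one_le k) h4, (hc 0 _ h6).1, (hc 0 _ h6).2,
    (hc 1 _ h6).1, (hc 1 _ h6).2, (hc 2 _ h6).1, (hc 2 _ h6).2]

end Pair

/-- The case of a constant quotient `u / w`. -/
theorem eta_zero {C : Cub} {f g u w : ℂ → ℂ} (hP : Pair C f g u w) {p : ℂ}
    (hp : ∀ z, u z = p * w z) {z₀ : ℂ} (h₀ : AnalyticAt ℂ f z₀) (h₁ : C.P (f z₀) = 0) :
    meromorphicOrderAt (fun x => f x - f z₀) z₀ = meromorphicOrderAt (fun x => g x - f z₀) z₀ := by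
  by_cases hD : ∀ κ, NZ fun x => g x * g x - p * (f x * f x) - κ
  · exact (hP.growth_case hp hD).elim
  · obtain ⟨κ, hκ⟩ := not_forall.1 hD
    exact hP.const_case (hP.p_ne hp) hκ h₀ h₁

end Pool.Agent.Lib.MP_bb1814_an
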