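import Mathlib
import Pool.Agent.Lib.MP_bb1814_an.Defs

/-!
Elementary operations on pairs and the local structure at the shared finite values.
-/

namespace Pool.Agent.Lib.MP_bb1814_an

open Filter Topology Set Metric

lemma hasDerivAt_aff (c s z : ℂ) : HasDerivAt (fun x : ℂ => c + s * x) s z := by
  simpa using ((hasDerivAt_id z).const_mul s).const_add c

lemma analyticAt_aff (c s z : ℂ) : AnalyticAt ℂ (fun x : ℂ => c + s * x) z := by fun_prop

lemma analyticAt_aff_iff {f : ℂ → ℂ} (c : ℂ) {s : ℂ} (hs : s ≠ 0) (z : ℂ) :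
    AnalyticAt ℂ (fun x => f (c + s * x)) z ↔ AnalyticAt ℂ f (c + s * z) := by
  refine ⟨fun h => ?_, fun h => AnalyticAt.comp (g := f) h (analyticAt_aff c s z)⟩
  have h1 : AnalyticAt ℂ (fun y : ℂ => (y - c) / s) (c + s * z) := by fun_prop
  have h2 : (fun y : ℂ => (y - c) / s) (c + s * z) = z := by
    simp only [add_sub_cancel_left]; field_simp
  have h3 := AnalyticAt.comp_of_eq h h1 h2
  refine h3.congr (Eventually.of_forall fun y => ?_)
  simp only [Function.comp]
  congr 1; field_simp; ring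

lemma order_aff (f : ℂ → ℂ) (c : ℂ) {s : ℂ} (hs : s ≠ 0) (z : ℂ) :
    meromorphicOrderAt (fun x => f (c + s * x)) z = meromorphicOrderAt f (c + s * z) :=
  meromorphicOrderAt_comp_of_deriv_ne_zero (f := f) (analyticAt_aff c s z)
    (by rw [(hasDerivAt_aff c s z).deriv]; exact hs)

lemma deriv_aff {f : ℂ → ℂ} (c s z : ℂ) (h : DifferentiableAt ℂ f (c + s * z)) :
    deriv (fun x => f (c + s * x)) z = s * deriv f (c + s * z) := by
  have := (h.hasDerivAt.comp z (hasDerivAt_aff c s z)).deriv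
  rw [mul_comm]; exact this

lemma Reg.aff {f : ℂ → ℂ} (hf : Reg f) (c : ℂ) {s : ℂ} (hs : s ≠ 0) :
    Reg fun x => f (c + s * x) :=
  ⟨fun z => MeromorphicAt.comp_analyticAt (g := fun x => c + s * x) (hf.mero (c + s * z))
      (analyticAt_aff c s z), fun z hz =>
    (analyticAt_aff_iff c hs z).2 (hf.an _ (by rwa [order_aff f c hs] at hz))⟩

lemma analyticAt_const_mul_iff {f : ℂ → ℂ} {K : ℂ} (hK : K ≠ 0) (z : ℂ) :
    AnalyticAt ℂ (fun x => K * f x) z ↔ AnalyticAt ℂ f z := by
  refine ⟨fun h => ?_, fun h => analyticAt_const.mul h⟩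
  have := (analyticAt_const (v := K⁻¹)).mul h
  refine this.congr (Eventually.of_forall fun y => ?_)
  simp only [Pi.mul_apply]; field_simp

lemma order_const_mul (f : ℂ → ℂ) {K : ℂ} (hK : K ≠ 0) (z : ℂ) :
    meromorphicOrderAt (fun x => K * f x) z = meromorphicOrderAt f z :=
  meromorphicOrderAt_mul_of_ne_zero (g := fun _ => K) analyticAt_const hK

lemma Reg.const_mul {f : ℂ → ℂ} (hf : Reg f) {K : ℂ} (hK : K ≠ 0) : Reg fun x => K * f x :=
  ⟨fun z => (MeromorphicAt.const K z).mul (hf.mero z), fun z hz =>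
    (analyticAt_const_mul_iff hK z).2 (hf.an _ (by rwa [order_const_mul f hK] at hz))⟩

/-- Two functions continuous at a point that agree on a punctured neighbourhood agree there. -/
lemma eq_of_nhdsNE {F G : ℂ → ℂ} {z : ℂ} (hF : ContinuousAt F z) (hG : ContinuousAt G z)
    (h : F =ᶠ[𝓝[≠] z] G) : F z = G z :=
  tendsto_nhds_unique_of_eventuallyEq (hF.tendsto.mono_left nhdsWithin_le_nhds)
    (hG.tendsto.mono_left nhdsWithin_le_nhds) h

/-- Local form of an analytic function at a zero of finite order. -/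
lemma exists_local_form {F : ℂ → ℂ} {z : ℂ} (hF : AnalyticAt ℂ F z) (h0 : F z = 0)
    (hne : meromorphicOrderAt F z ≠ ⊤) :
    ∃ (m : ℕ) (φ : ℂ → ℂ), AnalyticAt ℂ φ z ∧ φ z ≠ 0 ∧
      meromorphicOrderAt F z = ((m + 1 : ℕ) : ℤ) ∧
      (∀ᶠ x in 𝓝 z, F x = (x - z) ^ (m + 1) * φ x) ∧
      ∀ᶠ x in 𝓝 z, deriv F x = (x - z) ^ m * ((m + 1) * φ x + (x - z) * deriv φ x) := by
  have h1 : analyticOrderAt F z ≠ ⊤ := by
    intro h; rw [hF.meromorphicOrderAt_eq, h] at hne; simp at hne
  have h2 : analyticOrderAt F z ≠ 0 := hF.analyticOrderAt_ne_zero.2 h0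
  obtain ⟨k, hk⟩ := ENat.ne_top_iff_exists.1 h1
  obtain ⟨m, rfl⟩ : ∃ m, k = m + 1 := by
    refine Nat.exists_eq_add_one_of_ne_zero ?_
    rintro rfl; exact h2 hk.symm
  obtain ⟨φ, hφ, hφ0, hφe⟩ := hF.analyticOrderAt_eq_natCast.1 hk.symm
  refine ⟨m, φ, hφ, hφ0, ?_, hφe.mono fun x hx => by simpa using hx, ?_⟩
  · rw [hF.meromorphicOrderAt_eq, ← hk]; rfl
  · filter_upwards [hφe.eventually_nhds, hφ.eventually_analyticAt] with x hx hx'
    have h3 : F =ᶠ[𝓝 x] fun y => (y - z) ^ (m + 1) * φ y := hx.mono fun y hy => by simpa using hy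
    have h4 : HasDerivAt (fun y => (y - z) ^ (m + 1) * φ y)
        (((m + 1 : ℕ) : ℂ) * (x - z) ^ m * 1 * φ x + (x - z) ^ (m + 1) * deriv φ x) x :=
      (((hasDerivAt_id x).sub_const z).pow (m + 1)).mul hx'.differentiableAt.hasDerivAt
    rw [h3.deriv_eq, h4.deriv]; push_cast; ring

namespace Pair

variable {C : Cub} {f g u w : ℂ → ℂ}

lemma swap (hP : Pair C f g u w) : Pair C g f (fun z => -w z) (fun z => -u z) where
  rf := hP.rg
  rg := hP.rf
  du := hP.dw.neg
  dw := hP.du.neg
  pole z := (hP.pole z).symm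
  odef z hz := by linear_combination -hP.odeg z ((hP.pole z).2 hz)
  odeg z hz := by linear_combination -hP.odef z ((hP.pole z).2 hz)
  ncf := hP.ncg
  ncg := hP.ncf
  ne z := by
    have : (fun x => g x - f x) = fun x => -(f x - g x) := by funext x; ring
    rw [this, ← meromorphicOrderAt_fun_neg]; exact hP.ne z
  share z hz h := (hP.share z ((hP.pole z).2 hz) h.symm).symm

lemma aff (hP : Pair C f g u w) (c : ℂ) {s : ℂ} (hs : s ≠ 0) :
    Pair C (fun z => f (c + s * z)) (fun z => g (c + s * z)) (fun z => s * u (c + s * z))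
      (fun z => s * w (c + s * z)) where
  rf := hP.rf.aff c hs
  rg := hP.rg.aff c hs
  du := by have := hP.du; fun_prop
  dw := by have := hP.dw; fun_prop
  pole z := by rw [analyticAt_aff_iff c hs, analyticAt_aff_iff c hs]; exact hP.pole _
  odef z hz := by
    rw [analyticAt_aff_iff c hs] at hz
    rw [deriv_aff c s z hz.differentiableAt]
    linear_combination s * hP.odef _ hz
  odeg z hz := by
    rw [analyticAt_aff_iff c hs] at hz
    rw [deriv_aff c s z ((hP.pole _).1 hz).differentiableAt]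
    linear_combination s * hP.odeg _ hz
  ncf k z := by rw [order_aff (fun x => f x - k) c hs]; exact hP.ncf k _
  ncg k z := by rw [order_aff (fun x => g x - k) c hs]; exact hP.ncg k _
  ne z := by rw [order_aff (fun x => f x - g x) c hs]; exact hP.ne _
  share z hz h := hP.share _ ((analyticAt_aff_iff c hs z).1 hz) h

lemma scale (hP : Pair C f g u w) {K : ℂ} (hK : K ≠ 0) :
    Pair (C.scale K hK) (fun z => K * f z) (fun z => K * g z) (fun z => u z / K)
      (fun z => w z / K) where
  rf := hP.rf.const_mul hK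
  rg := hP.rg.const_mul hK
  du := hP.du.div_const K
  dw := hP.dw.div_const K
  pole z := by rw [analyticAt_const_mul_iff hK, analyticAt_const_mul_iff hK]; exact hP.pole _
  odef z hz := by
    rw [analyticAt_const_mul_iff hK] at hz
    rw [deriv_const_mul_field', C.scale_P]
    field_simp
    linear_combination hP.odef _ hz
  odeg z hz := by
    rw [analyticAt_const_mul_iff hK] at hz
    rw [deriv_const_mul_field', C.scale_P]
    field_simp
    linear_combination hP.odeg _ hz
  ncf k z := by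
    have : (fun x => K * f x - k) = fun x => K * (f x - k / K) := by funext x; field_simp
    rw [this, order_const_mul _ hK]; exact hP.ncf _ _
  ncg k z := by
    have : (fun x => K * g x - k) = fun x => K * (g x - k / K) := by funext x; field_simp
    rw [this, order_const_mul _ hK]; exact hP.ncg _ _
  ne z := by
    have : (fun x => K * f x - K * g x) = fun x => K * (f x - g x) := by funext x; ring
    rw [this, order_const_mul _ hK]; exact hP.ne _
  share z hz h := by
    rw [analyticAt_const_mul_iff hK] at hz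
    rw [C.scale_P, C.scale_P] at h
    have h3 : K ^ 3 ≠ 0 := pow_ne_zero _ hK
    rw [hP.share z hz (by simpa [h3] using h)]

/-- The local structure at a point where the common value is a root of the cubic. -/
lemma root_data (hP : Pair C f g u w) {z : ℂ} (hz : AnalyticAt ℂ f z) (h0 : C.P (f z) = 0) :
    ∃ m n : ℕ, 1 ≤ m ∧ 1 ≤ n ∧ meromorphicOrderAt (fun x => f x - f z) z = (m : ℤ) ∧
      meromorphicOrderAt (fun x => g x - f z) z = (n : ℤ) ∧
      m * (deriv f z - deriv g z) = u z * (3 * f z ^ 2 + C.al) ∧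
      n * (deriv f z - deriv g z) = w z * (3 * f z ^ 2 + C.al) ∧
      (2 ≤ m → deriv f z = 0) ∧ (2 ≤ n → deriv g z = 0) := by
  have hg := (hP.pole z).1 hz
  have hfg := hP.share z hz (Or.inl h0)
  set a := f z with ha
  obtain ⟨b, c, hab, hac, -, hs, hfac⟩ := C.exists_factor h0
  have hQ : 3 * a ^ 2 + C.al = (a - b) * (a - c) := by
    rw [(C.al_eq hs hfac).1]; linear_combination (2 * a) * hs
  have hΔ : AnalyticAt ℂ (fun x => f x - g x) z := hz.sub hg
  obtain ⟨δ, hδ, hδe⟩ : ∃ δ, AnalyticAt ℂ δ z ∧ ∀ᶠ x in 𝓝 z, f x - g x = (x - z) * δ x := by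
    have h1 : ((1 : ℕ) : ℕ∞) ≤ analyticOrderAt (fun x => f x - g x) z := by
      rw [Nat.cast_one, Order.one_le_iff_ne_zero]
      exact hΔ.analyticOrderAt_ne_zero.2 (by simp [← ha, hfg])
    obtain ⟨δ, h2, h3⟩ := (natCast_le_analyticOrderAt hΔ).1 h1
    exact ⟨δ, h2, h3.mono fun x hx => by simpa using hx⟩
  have hδ0 : deriv f z - deriv g z = δ z := by
    have h1 : HasDerivAt (fun x => (x - z) * δ x) (1 * δ z + (z - z) * deriv δ z) z :=
      ((hasDerivAt_id z).sub_const z).mul hδ.differentiableAt.hasDerivAt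
    have h2 := (hz.differentiableAt.hasDerivAt.sub hg.differentiableAt.hasDerivAt).unique
      (h1.congr_of_eventuallyEq hδe)
    simpa using h2
  have key : ∀ (F v : ℂ → ℂ), AnalyticAt ℂ F z → F z = a → ContinuousAt v z →
      meromorphicOrderAt (fun x => F x - a) z ≠ ⊤ →
      (∀ᶠ x in 𝓝 z, deriv F x * (f x - g x) = v x * C.P (F x)) →
      ∃ m : ℕ, 1 ≤ m ∧ meromorphicOrderAt (fun x => F x - a) z = (m : ℤ) ∧
        m * δ z = v z * ((a - b) * (a - c)) ∧ (2 ≤ m → deriv F z = 0) := by
    intro F v hF hFa hv hne hode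
    obtain ⟨m, φ, hφ, hφ0, hm, h1, h2⟩ :=
      exists_local_form (F := fun x => F x - a) (hF.sub analyticAt_const) (by simp [hFa]) hne
    simp only [deriv_sub_const] at h2
    refine ⟨m + 1, by omega, hm, ?_, fun h => ?_⟩
    · have h3 : (fun x => ((m + 1) * φ x + (x - z) * deriv φ x) * δ x) =ᶠ[𝓝[≠] z]
          fun x => v x * φ x * ((F x - b) * (F x - c)) := by
        filter_upwards [nhdsWithin_le_nhds h1, nhdsWithin_le_nhds h2, nhdsWithin_le_nhds hode,
          nhdsWithin_le_nhds hδe, self_mem_nhdsWithin] with x e1 e2 e3 e4 hx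
        have hx' : (x - z) ^ (m + 1) ≠ 0 := pow_ne_zero _ (sub_ne_zero.2 hx)
        apply mul_left_cancel₀ hx'
        rw [e2, e4, hfac, e1] at e3
        linear_combination e3
      have c1 := hφ.continuousAt
      have c2 := hφ.deriv.continuousAt
      have c3 := hδ.continuousAt
      have c4 := hF.continuousAt
      have h4 := eq_of_nhdsNE (by fun_prop) (by fun_prop) h3
      apply mul_left_cancel₀ hφ0
      simp only [hFa, sub_self] at h4
      push_cast
      linear_combination h4
    · rw [h2.self_of_nhds, sub_self, zero_pow (by omega), zero_mul]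
  obtain ⟨m, h1, h2, h3, h4⟩ := key f u hz rfl hP.du.continuous.continuousAt (hP.ncf _ _)
    (hz.eventually_analyticAt.mono fun x hx => hP.odef x hx)
  obtain ⟨n, h5, h6, h7, h8⟩ := key g w hg hfg.symm hP.dw.continuous.continuousAt (hP.ncg _ _)
    (hz.eventually_analyticAt.mono fun x hx => hP.odeg x hx)
  exact ⟨m, n, h1, h5, h2, h6, by rw [hδ0, hQ, h3], by rw [hδ0, hQ, h7], h4, h8⟩

/-- At a root point where `u` does not vanish one of the two multiplicities is one. -/
lemma root_local (hP : Pair C f g u w) {z : ℂ} (hz : AnalyticAt ℂ f z) (h0 : C.P (f z) = 0)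
    (hu : u z ≠ 0) :
    ∃ n : ℕ, 1 ≤ n ∧
      ((meromorphicOrderAt (fun x => f x - f z) z = (n : ℤ) ∧
        meromorphicOrderAt (fun x => g x - f z) z = (1 : ℤ) ∧ u z = n * w z) ∨
      (meromorphicOrderAt (fun x => f x - f z) z = (1 : ℤ) ∧
        meromorphicOrderAt (fun x => g x - f z) z = (n : ℤ) ∧ w z = n * u z)) := by
  obtain ⟨m, n, h1, h2, h3, h4, h5, h6, h7, h8⟩ := hP.root_data hz h0
  have hQ := C.deriv_ne h0
  rcases h2.eq_or_lt with rfl | h2'
  · refine ⟨m, h1, Or.inl ⟨h3, h4, mul_right_cancel₀ hQ ?_⟩⟩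
    push_cast at h6
    linear_combination -h5 + m * h6
  · rcases h1.eq_or_lt with rfl | h1'
    · refine ⟨n, h2, Or.inr ⟨h3, h4, mul_right_cancel₀ hQ ?_⟩⟩
      push_cast at h5
      linear_combination -h6 + n * h5
    · rw [h7 h1', h8 h2', sub_self, mul_zero] at h5
      exact absurd h5.symm (mul_ne_zero hu hQ)

/-- At a root point with `u = p w`, `p ≥ 2`, the derivatives are known. -/
lemma root_deriv (hP : Pair C f g u w) {z : ℂ} (hz : AnalyticAt ℂ f z) (h0 : C.P (f z) = 0)
    (hw : w z ≠ 0) {p : ℕ} (hp : 2 ≤ p) (huw : u z = p * w z) :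
    deriv f z = 0 ∧ deriv g z = -(w z * (3 * f z ^ 2 + C.al)) := by
  obtain ⟨m, n, h1, h2, -, -, h5, h6, h7, h8⟩ := hP.root_data hz h0
  have hQ := C.deriv_ne h0
  have hδ : deriv f z - deriv g z ≠ 0 := by
    intro h; rw [h, mul_zero] at h6; exact mul_ne_zero hw hQ h6.symm
  have hmn : m = p * n := by
    have : (m : ℂ) = p * n := by
      apply mul_right_cancel₀ hδ
      rw [h5, huw]; linear_combination -(p : ℂ) * h6
    exact_mod_cast this
  have hm : 2 ≤ m := by nlinarith
  have hn : n = 1 := by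
    by_contra h
    exact hδ (by rw [h7 hm, h8 (by omega), sub_self])
  subst hn
  refine ⟨h7 hm, ?_⟩
  rw [h7 hm] at h6
  push_cast at h6
  linear_combination -h6

end Pair

end Pool.Agent.Lib.MP_bb1814_an
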