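import Mathlib
import Pool.Agent.Lib.MP_bb1814_an.Basic

/-!
Continuous convergence of families of analytic functions along a filter.
-/

namespace Pool.Agent.Lib.MP_bb1814_an

open Filter Topology Set Metric

variable {ι : Type*} {l : Filter ι}

/-- Passing from points to a compact set. -/
lemma eventually_forall_compact {K : Set ℂ} (hK : IsCompact K) {Q : ι → ℂ → Prop}
    (h : ∀ x ∈ K, ∀ᶠ p in l ×ˢ 𝓝 x, Q p.1 p.2) : ∀ᶠ n in l, ∀ x ∈ K, Q n x := by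
  have h1 : {p : ι × ℂ | Q p.1 p.2} ∈ l ×ˢ 𝓝ˢ K := hK.mem_prod_nhdsSet_of_forall h
  obtain ⟨A, hA, V, hV, hAV⟩ := mem_prod_iff.1 h1
  filter_upwards [hA] with n hn x hx
  exact hAV (mk_mem_prod hn (subset_of_mem_nhdsSet hV hx))

lemma tendsto_at_pt (z : ℂ) : Tendsto (fun n : ι => (n, z)) l (l ×ˢ 𝓝 z) :=
  tendsto_id.prodMk tendsto_const_nhds

lemma tendsto_at_seq {z : ι → ℂ} {z0 : ℂ} (hz : Tendsto z l (𝓝 z0)) :
    Tendsto (fun n : ι => (n, z n)) l (l ×ˢ 𝓝 z0) :=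
  tendsto_id.prodMk hz

/-- The affine rescaling towards a point. -/
lemma tendsto_rescale {a ρ : ι → ℂ} {a0 : ℂ} (ha : Tendsto a l (𝓝 a0)) (hρ : Tendsto ρ l (𝓝 0))
    (z : ℂ) : Tendsto (fun p : ι × ℂ => (p.1, a p.1 + ρ p.1 * p.2)) (l ×ˢ 𝓝 z) (l ×ˢ 𝓝 a0) := by
  refine tendsto_fst.prodMk ?_
  have := (ha.comp tendsto_fst).add ((hρ.comp tendsto_fst).mul (tendsto_snd (g := 𝓝 z)))
  simpa using this

lemma eventually_prod_nhds {Q : ι × ℂ → Prop} {z : ℂ} (h : ∀ᶠ p in l ×ˢ 𝓝 z, Q p) :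
    ∀ᶠ x in 𝓝 z, ∀ᶠ p in l ×ˢ 𝓝 x, Q p := by
  obtain ⟨A, hA, V, hV, hAV⟩ := mem_prod_iff.1 h
  filter_upwards [eventually_mem_nhds_iff.2 hV] with x hx
  exact mem_of_superset (prod_mem_prod hA hx) hAV

lemma eventually_prod_inner {Q : ι → ℂ → Prop} {z : ℂ} (h : ∀ᶠ p in l ×ˢ 𝓝 z, Q p.1 p.2) :
    ∀ᶠ p in l ×ˢ 𝓝 z, ∀ᶠ x in 𝓝 p.2, Q p.1 x := by
  obtain ⟨A, hA, V, hV, hAV⟩ := mem_prod_iff.1 h
  filter_upwards [prod_mem_prod hA (eventually_mem_nhds_iff.2 hV)] with p hp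
  filter_upwards [hp.2] with x hx
  exact hAV (mk_mem_prod hp.1 hx)

/-- A limit of continuously convergent maps is continuous. -/
lemma continuousAt_of_cc {E : Type*} [PseudoMetricSpace E] [l.NeBot] {φ : ι → ℂ → E} {Φ : ℂ → E}
    {z : ℂ} (h : ∀ᶠ x in 𝓝 z, Tendsto (fun p : ι × ℂ => φ p.1 p.2) (l ×ˢ 𝓝 x) (𝓝 (Φ x))) :
    ContinuousAt Φ z := by
  rw [ContinuousAt, Metric.tendsto_nhds]
  intro ε hε
  have h1 := eventually_prod_nhds
    (Metric.tendsto_nhds.1 h.self_of_nhds (ε / 2) (half_pos hε))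
  filter_upwards [h, h1] with x hx hx'
  obtain ⟨p, h2, h3⟩ := ((Metric.tendsto_nhds.1 hx (ε / 2) (half_pos hε)).and hx').exists
  calc dist (Φ x) (Φ z) ≤ dist (φ p.1 p.2) (Φ x) + dist (φ p.1 p.2) (Φ z) := dist_triangle_left _ _ _
    _ < ε / 2 + ε / 2 := add_lt_add h2 h3
    _ = ε := add_halves ε

/-- Continuous convergence at a point of functions that are analytic near the point. -/
structure LC (l : Filter ι) (φ : ι → ℂ → ℂ) (z c : ℂ) : Prop where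
  an : ∀ᶠ p in l ×ˢ 𝓝 z, AnalyticAt ℂ (φ p.1) p.2
  lim : Tendsto (fun p : ι × ℂ => φ p.1 p.2) (l ×ˢ 𝓝 z) (𝓝 c)

namespace LC

variable {φ ψ : ι → ℂ → ℂ} {z c d : ℂ}

lemma of_tendsto {k : ι → ℂ} (hk : Tendsto k l (𝓝 c)) (z : ℂ) : LC l (fun n _ => k n) z c :=
  ⟨Eventually.of_forall fun _ => analyticAt_const, hk.comp tendsto_fst⟩

lemma const (c z : ℂ) : LC l (fun _ _ => c) z c := of_tendsto tendsto_const_nhds z

lemma of_an {F : ℂ → ℂ} (hF : AnalyticAt ℂ F z) : LC l (fun _ => F) z (F z) :=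
  ⟨hF.eventually_analyticAt.prod_inr l, hF.continuousAt.tendsto.comp tendsto_snd⟩

lemma add (h : LC l φ z c) (h' : LC l ψ z d) : LC l (fun n x => φ n x + ψ n x) z (c + d) :=
  ⟨(h.an.and h'.an).mono fun _ hp => hp.1.add hp.2, h.lim.add h'.lim⟩

lemma sub (h : LC l φ z c) (h' : LC l ψ z d) : LC l (fun n x => φ n x - ψ n x) z (c - d) :=
  ⟨(h.an.and h'.an).mono fun _ hp => hp.1.sub hp.2, h.lim.sub h'.lim⟩

lemma mul (h : LC l φ z c) (h' : LC l ψ z d) : LC l (fun n x => φ n x * ψ n x) z (c * d) :=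
  ⟨(h.an.and h'.an).mono fun _ hp => hp.1.mul hp.2, h.lim.mul h'.lim⟩

lemma neg (h : LC l φ z c) : LC l (fun n x => -φ n x) z (-c) :=
  ⟨h.an.mono fun _ hp => hp.neg, h.lim.neg⟩

lemma pow (h : LC l φ z c) (k : ℕ) : LC l (fun n x => φ n x ^ k) z (c ^ k) :=
  ⟨h.an.mono fun _ hp => hp.pow k, h.lim.pow k⟩

lemma ne (h : LC l φ z c) (hc : c ≠ d) : ∀ᶠ p in l ×ˢ 𝓝 z, φ p.1 p.2 ≠ d :=
  h.lim.eventually_ne hc

lemma inv (h : LC l φ z c) (hc : c ≠ 0) : LC l (fun n x => (φ n x)⁻¹) z c⁻¹ :=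
  ⟨(h.an.and (h.ne hc)).mono fun _ hp => hp.1.inv hp.2, h.lim.inv₀ hc⟩

lemma div (h : LC l φ z c) (h' : LC l ψ z d) (hd : d ≠ 0) :
    LC l (fun n x => φ n x / ψ n x) z (c / d) :=
  ⟨(h.an.and (h'.an.and (h'.ne hd))).mono fun _ hp => hp.1.div hp.2.1 hp.2.2, h.lim.div h'.lim hd⟩

lemma comp (h : LC l φ z c) {F : ℂ → ℂ} (hF : Differentiable ℂ F) :
    LC l (fun n x => F (φ n x)) z (F c) :=
  ⟨h.an.mono fun _ hp => (hF.analyticAt _).comp hp, (hF.continuous.tendsto c).comp h.lim⟩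

lemma congr (h : LC l φ z c) (he : ∀ᶠ p in l ×ˢ 𝓝 z, φ p.1 p.2 = ψ p.1 p.2) : LC l ψ z c :=
  ⟨(h.an.and (eventually_prod_inner (Q := fun n x => φ n x = ψ n x) he)).mono
    fun _ hp => hp.1.congr hp.2, h.lim.congr' he⟩

lemma unique [l.NeBot] (h : LC l φ z c) (h' : LC l ψ z d)
    (he : ∃ᶠ p in l ×ˢ 𝓝 z, φ p.1 p.2 = ψ p.1 p.2) : c = d :=
  tendsto_nhds_unique_of_frequently_eq h.lim h'.lim he

lemma eq_of_freq (h : LC l φ z c) (he : ∃ᶠ p in l ×ˢ 𝓝 z, φ p.1 p.2 = d) : c = d :=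
  tendsto_nhds_unique_of_frequently_eq h.lim tendsto_const_nhds he

lemma rescale {a ρ : ι → ℂ} {a0 : ℂ} (h : LC l φ a0 c) (ha : Tendsto a l (𝓝 a0))
    (hρ : Tendsto ρ l (𝓝 0)) (z : ℂ) : LC l (fun n x => φ n (a n + ρ n * x)) z c :=
  ⟨((tendsto_rescale ha hρ z).eventually h.an).mono fun p hp =>
    AnalyticAt.comp (g := φ p.1) hp (analyticAt_aff _ _ _),
    h.lim.comp (tendsto_rescale ha hρ z)⟩

lemma at_pt (h : LC l φ z c) : Tendsto (fun n => φ n z) l (𝓝 c) := h.lim.comp (tendsto_at_pt z)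

end LC

/-- Convergence to `Φ` near `z`. -/
def Loc (l : Filter ι) (φ : ι → ℂ → ℂ) (Φ : ℂ → ℂ) (z : ℂ) : Prop :=
  ∀ᶠ x in 𝓝 z, LC l φ x (Φ x)

namespace Loc

variable {φ : ι → ℂ → ℂ} {Φ : ℂ → ℂ} {z : ℂ}

lemma lc (h : Loc l φ Φ z) : LC l φ z (Φ z) := h.self_of_nhds

lemma nhds (h : Loc l φ Φ z) : ∀ᶠ x in 𝓝 z, Loc l φ Φ x := h.eventually_nhds

lemma exists_open [l.NeBot] (h : Loc l φ Φ z) : ∃ U, IsOpen U ∧ z ∈ U ∧
    (∀ᶠ n in l, DifferentiableOn ℂ (φ n) U) ∧ TendstoLocallyUniformlyOn φ Φ l U := by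
  obtain ⟨A, hA, V, hV, hAV⟩ := mem_prod_iff.1 h.lc.an
  obtain ⟨U, hU, hUo, hzU⟩ := _root_.mem_nhds_iff.1 (inter_mem hV h.nhds)
  refine ⟨U, hUo, hzU, ?_, ?_⟩
  · filter_upwards [hA] with n hn x hx
    exact (hAV (mk_mem_prod hn (hU hx).1)).differentiableAt.differentiableWithinAt
  · rw [hUo.tendstoLocallyUniformlyOn_iff_forall_tendsto]
    intro x hx
    have h1 : Loc l φ Φ x := (hU hx).2
    have h2 : ContinuousAt Φ x := continuousAt_of_cc (h1.mono fun y hy => hy.lim)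
    exact (((h2.tendsto.comp tendsto_snd).prodMk_nhds h1.lc.lim).mono_right
      (nhds_le_uniformity _))

lemma an [l.NeBot] (h : Loc l φ Φ z) : AnalyticAt ℂ Φ z := by
  obtain ⟨U, hU, hz, h1, h2⟩ := h.exists_open
  exact (h2.differentiableOn h1 hU).analyticAt (hU.mem_nhds hz)

lemma deriv [l.NeBot] (h : Loc l φ Φ z) : Loc l (fun n => deriv (φ n)) (deriv Φ) z := by
  obtain ⟨U, hU, hz, h1, h2⟩ := h.exists_open
  have h3 := (hU.tendstoLocallyUniformlyOn_iff_forall_tendsto).1 (h2.deriv h1 hU)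
  filter_upwards [hU.mem_nhds hz, h.nhds] with x hx hx'
  refine ⟨hx'.lc.an.mono fun p hp => hp.deriv, ?_⟩
  exact ((hx'.an.deriv.continuousAt.tendsto.comp tendsto_snd).congr_uniformity (h3 x hx))

lemma iteratedDeriv [l.NeBot] (h : Loc l φ Φ z) (k : ℕ) :
    Loc l (fun n => iteratedDeriv k (φ n)) (iteratedDeriv k Φ) z := by
  induction k with
  | zero => simpa using h
  | succ k ih => simpa only [iteratedDeriv_succ] using ih.deriv

/-- The derivatives of a family with a constant limit tend to zero. -/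
lemma deriv_const [l.NeBot] {c : ℂ} (h : ∀ᶠ x in 𝓝 z, LC l φ x c) :
    LC l (fun n => _root_.deriv (φ n)) z 0 := by
  have := (Loc.deriv (Φ := fun _ => c) h).lc
  simpa using this

/-- Hurwitz's theorem. -/
lemma hurwitz [l.NeBot] (h : Loc l φ Φ z) (hnc : ¬∀ᶠ x in 𝓝 z, Φ x = Φ z) {Q : ι → ℂ → Prop}
    (hQ : ∀ᶠ p in l ×ˢ 𝓝 z, Q p.1 p.2) {V : Set ℂ} (hV : V ∈ 𝓝 z) :
    ∀ᶠ n in l, ∃ x ∈ V, φ n x = Φ z ∧ Q n x := by
  obtain ⟨A, hA, W, hW, hAW⟩ := mem_prod_iff.1 hQ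
  have h1 := (h.an.eventually_eq_or_eventually_ne analyticAt_const).resolve_left hnc
  rw [eventually_nhdsWithin_iff] at h1
  obtain ⟨r, hr, hr'⟩ := nhds_basis_closedBall.mem_iff.1
    (inter_mem (inter_mem hV hW) (h1.and h.nhds))
  have hcont : ContinuousOn (fun x => ‖Φ x - Φ z‖) (sphere z r) := fun x hx =>
    ((hr' (sphere_subset_closedBall hx)).2.2.an.continuousAt.sub
      continuousAt_const).norm.continuousWithinAt
  obtain ⟨x0, hx0, hmin⟩ := (isCompact_sphere z r).exists_isMinOn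
    (NormedSpace.sphere_nonempty.2 hr.le) hcont
  have hδ : 0 < ‖Φ x0 - Φ z‖ := by
    refine norm_pos_iff.2 (sub_ne_zero.2 ((hr' (sphere_subset_closedBall hx0)).2.1 ?_))
    rintro rfl
    exact hr.ne (by simpa using hx0)
  set δ := ‖Φ x0 - Φ z‖
  have h2 : ∀ᶠ n in l, ∀ x ∈ closedBall z r, AnalyticAt ℂ (φ n) x ∧ ‖φ n x - Φ x‖ < δ / 2 := by
    refine eventually_forall_compact (isCompact_closedBall z r) fun x hx => ?_
    have h3 : Loc l φ Φ x := (hr' hx).2.2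
    have h4 := (h3.lc.lim.sub (h3.an.continuousAt.tendsto.comp tendsto_snd)).norm
    rw [sub_self, norm_zero] at h4
    exact h3.lc.an.and (h4.eventually (gt_mem_nhds (half_pos hδ)))
  filter_upwards [h2, hA] with n hn hnA
  by_contra hcon
  have hne : ∀ x ∈ closedBall z r, φ n x - Φ z ≠ 0 := fun x hx h0 =>
    hcon ⟨x, (hr' hx).1.1, sub_eq_zero.1 h0, hAW (mk_mem_prod hnA (hr' hx).1.2)⟩
  have hd : DiffContOnCl ℂ (fun x => (φ n x - Φ z)⁻¹) (ball z r) := by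
    refine DifferentiableOn.diffContOnCl fun x hx => ?_
    rw [closure_ball z hr.ne'] at hx
    exact (((hn x hx).1.differentiableAt.sub_const _).inv (hne x hx)).differentiableWithinAt
  have h5 := Complex.norm_le_of_forall_mem_frontier_norm_le isBounded_ball hd (C := (δ / 2)⁻¹)
    (fun x hx => by
      rw [frontier_ball z hr.ne'] at hx
      rw [norm_inv]
      refine inv_anti₀ (half_pos hδ) ?_
      have h6 : δ ≤ ‖Φ x - Φ z‖ := hmin hx
      have h7 := (hn x (sphere_subset_closedBall hx)).2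
      have h8 : ‖Φ x - Φ z‖ ≤ ‖φ n x - Φ z‖ + ‖φ n x - Φ x‖ := by
        have : Φ x - Φ z = (φ n x - Φ z) - (φ n x - Φ x) := by ring
        rw [this]; exact norm_sub_le _ _
      linarith) (subset_closure (mem_ball_self hr))
  rw [norm_inv, inv_le_inv₀ (norm_pos_iff.2 (hne z (mem_closedBall_self hr.le))) (half_pos hδ)]
    at h5
  exact absurd (hn z (mem_closedBall_self hr.le)).2 (not_lt.2 h5)

lemma hurwitz_freq [l.NeBot] (h : Loc l φ Φ z) (hnc : ¬∀ᶠ x in 𝓝 z, Φ x = Φ z) :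
    ∃ᶠ p in l ×ˢ 𝓝 z, φ p.1 p.2 = Φ z := by
  intro hcon
  obtain ⟨n, x, -, h1, h2⟩ :=
    (h.hurwitz hnc (Q := fun n x => ¬φ n x = Φ z) hcon univ_mem).exists
  exact h2 h1

/-- Unbounded multiplicities force a constant limit. -/
lemma const_of_order [l.NeBot] (h : Loc l φ Φ z)
    (hk : ∀ k : ℕ, ∃ᶠ p in l ×ˢ 𝓝 z,
      ((k : ℤ) : WithTop ℤ) ≤ meromorphicOrderAt (fun x => φ p.1 x - φ p.1 p.2) p.2) :
    ∀ᶠ x in 𝓝 z, Φ x = Φ z := by
  have hΦ : AnalyticAt ℂ (fun x => Φ x - Φ z) z := h.an.sub analyticAt_const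
  have h1 : ∀ k : ℕ, (k : ℕ∞) ≤ analyticOrderAt (fun x => Φ x - Φ z) z := by
    intro k
    rw [natCast_le_analyticOrderAt_iff_iteratedDeriv_eq_zero hΦ]
    intro i _
    rcases i with _ | i
    · simp
    · rw [iteratedDeriv_succ', deriv_sub_const_fun, ← iteratedDeriv_succ']
      refine (h.iteratedDeriv (i + 1)).lc.eq_of_freq (((hk (i + 2)).and_eventually h.lc.an).mono ?_)
      rintro p ⟨h2, h3⟩
      have h4 : AnalyticAt ℂ (fun x => φ p.1 x - φ p.1 p.2) p.2 := h3.sub analyticAt_const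
      have h5 : ((i + 2 : ℕ) : ℕ∞) ≤ analyticOrderAt (fun x => φ p.1 x - φ p.1 p.2) p.2 := by
        rw [h4.meromorphicOrderAt_eq] at h2
        cases h6 : analyticOrderAt (fun x => φ p.1 x - φ p.1 p.2) p.2 with
        | top => exact le_top
        | coe m =>
          rw [h6, ENat.map_natCast] at h2
          exact_mod_cast h2
      have h6 := (natCast_le_analyticOrderAt_iff_iteratedDeriv_eq_zero h4).1 h5 (i + 1) (by omega)
      rwa [iteratedDeriv_succ', deriv_sub_const_fun, ← iteratedDeriv_succ'] at h6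
  have h2 : analyticOrderAt (fun x => Φ x - Φ z) z = ⊤ := ENat.eq_top_iff_forall_ge.2 h1
  exact (analyticOrderAt_eq_top.1 h2).mono fun x hx => sub_eq_zero.1 hx

end Loc

end Pool.Agent.Lib.MP_bb1814_an
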