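import Mathlib
import Pool.Agent.Lib.MP_bb1814_an.Defs

/-!
Holomorphic maps to the Riemann sphere, embedded in `ℂ × ℝ`, and their limits along ultrafilters.
-/

namespace Pool.Agent.Lib.MP_bb1814_an

open Filter Topology Set Metric
open scoped ComplexConjugate

/-- The finite chart of the sphere. -/
noncomputable def s0 (w : ℂ) : ℂ × ℝ := ((1 + ‖w‖ ^ 2)⁻¹ • w, (1 + ‖w‖ ^ 2)⁻¹)

/-- The chart of the sphere at infinity. -/
noncomputable def sI (w : ℂ) : ℂ × ℝ := ((1 + ‖w‖ ^ 2)⁻¹ • conj w, 1 - (1 + ‖w‖ ^ 2)⁻¹)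

/-- The finite coordinate. -/
noncomputable def c0 (p : ℂ × ℝ) : ℂ := p.1 / p.2

/-- The coordinate at infinity. -/
noncomputable def cI (p : ℂ × ℝ) : ℂ := conj p.1 / (1 - p.2 : ℝ)

lemma one_add_pos (w : ℂ) : 0 < 1 + ‖w‖ ^ 2 := by positivity

lemma c0_s0 (w : ℂ) : c0 (s0 w) = w := by
  have h : ((1 + ‖w‖ ^ 2 : ℝ) : ℂ) ≠ 0 := by exact_mod_cast (one_add_pos w).ne'
  simp only [c0, s0, Complex.real_smul, Complex.ofReal_inv]
  field_simp

lemma cI_sI (w : ℂ) : cI (sI w) = w := by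
  have h : ((1 + ‖w‖ ^ 2 : ℝ) : ℂ) ≠ 0 := by exact_mod_cast (one_add_pos w).ne'
  simp only [cI, sI, Complex.real_smul, Complex.ofReal_inv, map_mul, map_inv₀,
    Complex.conj_ofReal, Complex.conj_conj, sub_sub_cancel]
  field_simp

lemma s0_snd_pos (w : ℂ) : 0 < (s0 w).2 := inv_pos.2 (one_add_pos w)

lemma sI_snd_lt (w : ℂ) : (sI w).2 < 1 := by
  have := inv_pos.2 (one_add_pos w)
  simp only [sI]; linarith

lemma sI_zero : sI 0 = (0, 0) := by simp [sI]

lemma s0_zero : s0 0 = (0, 1) := by simp [s0]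

lemma sI_inv {w : ℂ} (hw : w ≠ 0) : sI w⁻¹ = s0 w := by
  have h1 : (‖w‖ : ℝ) ≠ 0 := norm_ne_zero_iff.2 hw
  have h2 := (one_add_pos w).ne'
  have h3 : (1 + ‖w‖⁻¹ ^ 2)⁻¹ = ‖w‖ ^ 2 * (1 + ‖w‖ ^ 2)⁻¹ := by
    field_simp; ring
  simp only [sI, s0, norm_inv, h3, Prod.mk.injEq]
  constructor
  · rw [mul_comm, mul_smul]
    congr 1
    have hc : conj w ≠ 0 := by simpa using hw
    rw [Complex.real_smul, map_inv₀, Complex.ofReal_pow, ← Complex.mul_conj']
    field_simp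
  · field_simp; ring

lemma s0_inv {w : ℂ} (hw : w ≠ 0) : s0 w⁻¹ = sI w := by
  rw [← sI_inv (inv_ne_zero hw), inv_inv]

lemma c0_sI (w : ℂ) : c0 (sI w) = w⁻¹ := by
  rcases eq_or_ne w 0 with rfl | hw
  · simp [sI_zero, c0]
  · rw [← s0_inv hw, c0_s0]

lemma cI_s0 (w : ℂ) : cI (s0 w) = w⁻¹ := by
  rcases eq_or_ne w 0 with rfl | hw
  · simp [s0_zero, cI]
  · rw [← sI_inv hw, cI_sI]

lemma sI_snd_ne {w : ℂ} (h : (sI w).2 ≠ 0) : w ≠ 0 := by
  rintro rfl; simp [sI_zero] at h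

lemma s0_snd_ne {w : ℂ} (h : (s0 w).2 ≠ 1) : w ≠ 0 := by
  rintro rfl; simp [s0_zero] at h

lemma contDiff_s0 : ContDiff ℝ 1 s0 := by
  have h : ContDiff ℝ 1 fun w : ℂ => (1 + ‖w‖ ^ 2)⁻¹ :=
    (contDiff_const.add (contDiff_norm_sq ℝ)).inv fun w => (one_add_pos w).ne'
  exact (h.smul contDiff_id).prodMk h

lemma contDiff_sI : ContDiff ℝ 1 sI := by
  have h : ContDiff ℝ 1 fun w : ℂ => (1 + ‖w‖ ^ 2)⁻¹ :=
    (contDiff_const.add (contDiff_norm_sq ℝ)).inv fun w => (one_add_pos w).ne'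
  exact (h.smul Complex.conjCLE.contDiff).prodMk (contDiff_const.sub h)

lemma norm_s0_le (w : ℂ) : ‖s0 w‖ ≤ 1 := by
  have h := one_add_pos w
  have h1 : (1 + ‖w‖ ^ 2)⁻¹ ≤ 1 := inv_le_one_of_one_le₀ (by nlinarith [sq_nonneg ‖w‖])
  rw [s0, Prod.norm_def, max_le_iff, norm_smul, Real.norm_eq_abs, abs_of_pos (inv_pos.2 h)]
  refine ⟨?_, h1⟩
  rw [inv_mul_le_iff₀ h]; nlinarith [sq_nonneg (‖w‖ - 1), norm_nonneg w]

lemma norm_sI_le (w : ℂ) : ‖sI w‖ ≤ 1 := by
  rcases eq_or_ne w 0 with rfl | hw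
  · simp [sI_zero]
  · rw [← s0_inv hw]; exact norm_s0_le _

/-- Holomorphic maps from the plane to the sphere. -/
def IsHol (s : ℂ → ℂ × ℝ) : Prop :=
  ∀ z, ∃ φ : ℂ → ℂ, AnalyticAt ℂ φ z ∧
    ((s =ᶠ[𝓝 z] fun x => s0 (φ x)) ∨ (s =ᶠ[𝓝 z] fun x => sI (φ x)))

lemma analyticAt_contDiffAt {φ : ℂ → ℂ} {z : ℂ} (h : AnalyticAt ℂ φ z) : ContDiffAt ℝ 1 φ z :=
  (h.contDiffAt (n := 1)).restrict_scalars ℝ

namespace IsHol

variable {s : ℂ → ℂ × ℝ}

lemma contDiff (hs : IsHol s) : ContDiff ℝ 1 s := by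
  rw [contDiff_iff_contDiffAt]
  intro z
  obtain ⟨φ, hφ, h | h⟩ := hs z
  · exact (contDiff_s0.contDiffAt.comp z (analyticAt_contDiffAt hφ)).congr_of_eventuallyEq h
  · exact (contDiff_sI.contDiffAt.comp z (analyticAt_contDiffAt hφ)).congr_of_eventuallyEq h

lemma continuous (hs : IsHol s) : Continuous s := hs.contDiff.continuous

lemma norm_le (hs : IsHol s) (z : ℂ) : ‖s z‖ ≤ 1 := by
  obtain ⟨φ, -, h | h⟩ := hs z
  · rw [h.self_of_nhds]; exact norm_s0_le _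
  · rw [h.self_of_nhds]; exact norm_sI_le _

lemma fin (hs : IsHol s) {z : ℂ} (hz : (s z).2 ≠ 0) :
    AnalyticAt ℂ (fun x => c0 (s x)) z ∧ s z = s0 (c0 (s z)) := by
  obtain ⟨φ, hφ, h | h⟩ := hs z
  · refine ⟨hφ.congr (h.mono fun x hx => ?_), ?_⟩
    · simp only [hx, c0_s0]
    · rw [h.self_of_nhds, c0_s0]
  · have h0 : φ z ≠ 0 := sI_snd_ne (by rwa [h.self_of_nhds] at hz)
    refine ⟨(hφ.inv h0).congr (h.mono fun x hx => ?_), ?_⟩
    · simp only [hx, c0_sI, Pi.inv_apply]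
    · rw [h.self_of_nhds, c0_sI, s0_inv h0]

lemma inf (hs : IsHol s) {z : ℂ} (hz : (s z).2 ≠ 1) :
    AnalyticAt ℂ (fun x => cI (s x)) z ∧ s z = sI (cI (s z)) := by
  obtain ⟨φ, hφ, h | h⟩ := hs z
  · have h0 : φ z ≠ 0 := s0_snd_ne (by rwa [h.self_of_nhds] at hz)
    refine ⟨(hφ.inv h0).congr (h.mono fun x hx => ?_), ?_⟩
    · simp only [hx, cI_s0, Pi.inv_apply]
    · rw [h.self_of_nhds, cI_s0, sI_inv h0]
  · refine ⟨hφ.congr (h.mono fun x hx => ?_), ?_⟩
    · simp only [hx, cI_sI]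
    · rw [h.self_of_nhds, cI_sI]

lemma eq_inf (hs : IsHol s) {z : ℂ} (hz : (s z).2 = 0) : s z = sI 0 := by
  obtain ⟨φ, -, h | h⟩ := hs z
  · rw [h.self_of_nhds] at hz; exact absurd hz (s0_snd_pos _).ne'
  · have h' : s z = sI (φ z) := h.self_of_nhds
    rw [h'] at hz ⊢
    rcases eq_or_ne (φ z) 0 with h0 | h0
    · rw [h0]
    · rw [← s0_inv h0] at hz; exact absurd hz (s0_snd_pos _).ne'

end IsHol

open Classical in
/-- The map to the sphere given by a meromorphic function. -/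
noncomputable def sph (f : ℂ → ℂ) (z : ℂ) : ℂ × ℝ := if AnalyticAt ℂ f z then s0 (f z) else sI 0

/-- The reciprocal of a meromorphic function, with value `0` at the poles. -/
noncomputable def rcp (f : ℂ → ℂ) (z : ℂ) : ℂ := cI (sph f z)

lemma sph_of_an {f : ℂ → ℂ} {z : ℂ} (h : AnalyticAt ℂ f z) : sph f z = s0 (f z) := if_pos h

lemma sph_of_not {f : ℂ → ℂ} {z : ℂ} (h : ¬AnalyticAt ℂ f z) : sph f z = sI 0 := if_neg h

lemma rcp_of_an {f : ℂ → ℂ} {z : ℂ} (h : AnalyticAt ℂ f z) : rcp f z = (f z)⁻¹ := by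
  rw [rcp, sph_of_an h, cI_s0]

lemma rcp_of_not {f : ℂ → ℂ} {z : ℂ} (h : ¬AnalyticAt ℂ f z) : rcp f z = 0 := by
  rw [rcp, sph_of_not h, cI_sI]

lemma sph_snd_ne {f : ℂ → ℂ} {z : ℂ} : (sph f z).2 ≠ 0 ↔ AnalyticAt ℂ f z := by
  by_cases h : AnalyticAt ℂ f z
  · simp [sph_of_an h, (s0_snd_pos _).ne', h]
  · simp [sph_of_not h, sI_zero, h]

lemma sph_snd_ne_one {f : ℂ → ℂ} {z : ℂ} :
    (sph f z).2 ≠ 1 ↔ (AnalyticAt ℂ f z → f z ≠ 0) := by
  by_cases h : AnalyticAt ℂ f z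
  · rw [sph_of_an h]
    refine ⟨fun h1 _ => s0_snd_ne h1, fun h1 => ?_⟩
    rw [← sI_inv (h1 h)]; exact (sI_snd_lt _).ne
  · simp [sph_of_not h, sI_zero, h]

lemma c0_sph {f : ℂ → ℂ} {z : ℂ} (h : AnalyticAt ℂ f z) : c0 (sph f z) = f z := by
  rw [sph_of_an h, c0_s0]

namespace Reg

variable {f : ℂ → ℂ}

lemma order_neg (hf : Reg f) {z : ℂ} (h : ¬AnalyticAt ℂ f z) : meromorphicOrderAt f z < 0 :=
  lt_of_not_ge fun h1 => h (hf.an z h1)

lemma eventually_an (hf : Reg f) (z : ℂ) : ∀ᶠ x in 𝓝[≠] z, AnalyticAt ℂ f x :=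
  (hf.mero z).eventually_analyticAt

lemma tendsto_cobounded (hf : Reg f) {z : ℂ} (h : ¬AnalyticAt ℂ f z) :
    Tendsto f (𝓝[≠] z) (Bornology.cobounded ℂ) :=
  tendsto_cobounded_of_meromorphicOrderAt_neg (hf.order_neg h)

lemma rcp_eq (hf : Reg f) (z : ℂ) : rcp f =ᶠ[𝓝[≠] z] f⁻¹ :=
  (hf.eventually_an z).mono fun _ hx => rcp_of_an hx

lemma rcp_an_of_not (hf : Reg f) {z : ℂ} (h : ¬AnalyticAt ℂ f z) : AnalyticAt ℂ (rcp f) z := by
  refine AnalyticAt.of_meromorphicOrderAt_pos ?_ (rcp_of_not h)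
  rw [meromorphicOrderAt_congr (hf.rcp_eq z), meromorphicOrderAt_inv]
  have := hf.order_neg h
  lift meromorphicOrderAt f z to ℤ using this.ne_top with n hn
  have h2 : n < 0 := by exact_mod_cast this
  rw [← WithTop.LinearOrderedAddCommGroup.coe_neg]
  exact_mod_cast neg_pos.2 h2

lemma isHol (hf : Reg f) : IsHol (sph f) := by
  intro z
  by_cases h : AnalyticAt ℂ f z
  · exact ⟨f, h, Or.inl (h.eventually_analyticAt.mono fun x hx => sph_of_an hx)⟩
  · refine ⟨rcp f, hf.rcp_an_of_not h, Or.inr ?_⟩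
    have h1 : ∀ᶠ x in 𝓝[≠] z, f x ≠ 0 :=
      (meromorphicOrderAt_ne_top_iff_eventually_ne_zero (hf.mero z)).1 (hf.order_neg h).ne_top
    rw [← nhdsNE_sup_pure, EventuallyEq, eventually_sup]
    refine ⟨?_, ?_⟩
    · filter_upwards [h1, hf.eventually_an z] with x hx hx'
      rw [rcp_of_an hx', sph_of_an hx', sI_inv hx]
    · simp only [eventually_pure]
      rw [rcp_of_not h, sph_of_not h]

lemma rcp_an (hf : Reg f) {z : ℂ} (h : AnalyticAt ℂ f z → f z ≠ 0) : AnalyticAt ℂ (rcp f) z :=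
  (hf.isHol.inf (sph_snd_ne_one.2 h)).1

lemma of_differentiable (hf : Differentiable ℂ f) : Reg f :=
  ⟨fun z => (hf.analyticAt z).meromorphicAt, fun z _ => hf.analyticAt z⟩

end Reg

/-- A holomorphic map to the sphere is identically infinite or comes from a meromorphic
function. -/
lemma IsHol.exists_reg {s : ℂ → ℂ × ℝ} (hs : IsHol s) :
    (s = fun _ => sI 0) ∨ ∃ F, Reg F ∧ s = sph F := by
  by_cases hZ : ∃ z, ∀ᶠ x in 𝓝 z, (s x).2 = 0
  · left
    have hcl : IsClopen {z | ∀ᶠ x in 𝓝 z, (s x).2 = 0} := by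
      refine ⟨?_, isOpen_setOfPred_eventually_nhds⟩
      rw [isClosed_iff_frequently]
      intro z hz
      have hz0 : (s z).2 = 0 := by
        have h1 : ∃ᶠ x in 𝓝 z, (s x).2 = 0 := hz.mono fun x hx => hx.self_of_nhds
        by_contra hne
        exact h1 ((continuous_snd.comp hs.continuous).continuousAt.eventually_ne hne)
      have h1 := (hs.inf (by rw [hz0]; norm_num)).1
      have h2 : ∃ᶠ x in 𝓝[≠] z, cI (s x) = 0 := by
        rw [frequently_nhdsWithin_iff]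
        rw [frequently_iff] at hz ⊢
        intro U hU
        obtain ⟨V, hVU, hV, hzV⟩ := _root_.mem_nhds_iff.1 hU
        obtain ⟨x, hxV, hx⟩ := hz (hV.mem_nhds hzV)
        have h3 : ∀ᶠ y in 𝓝[≠] x, y ∈ V ∧ (s y).2 = 0 ∧ y ≠ z := by
          refine ((eventually_nhdsWithin_of_eventually_nhds (hV.mem_nhds hxV)).and
            ((eventually_nhdsWithin_of_eventually_nhds hx).and ?_))
          rcases eq_or_ne x z with rfl | hxz
          · exact self_mem_nhdsWithin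
          · exact eventually_nhdsWithin_of_eventually_nhds (eventually_ne_nhds hxz)
        obtain ⟨y, hy1, hy2, hy3⟩ := h3.exists
        exact ⟨y, hVU hy1, by rw [hs.eq_inf hy2, cI_sI], hy3⟩
      have h3 := h1.frequently_zero_iff_eventually_zero.1 h2
      have h4 : ∀ᶠ x in 𝓝 z, (s x).2 ≠ 1 :=
        (continuous_snd.comp hs.continuous).continuousAt.eventually_ne
          (by simp only [Function.comp]; rw [hz0]; norm_num)
      filter_upwards [h3, h4] with x hx hx'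
      rw [(hs.inf hx').2, hx, sI_zero]
    have := hcl.eq_univ hZ
    funext z
    exact hs.eq_inf (show ∀ᶠ x in 𝓝 z, (s x).2 = 0 from eq_univ_iff_forall.1 this z).self_of_nhds
  · right
    push Not at hZ
    have key : ∀ z, (s z).2 = 0 → MeromorphicAt (fun x => c0 (s x)) z ∧
        meromorphicOrderAt (fun x => c0 (s x)) z < 0 := by
      intro z hz
      have h1 := (hs.inf (z := z) (by rw [hz]; norm_num)).1
      have h4 : ∀ᶠ x in 𝓝 z, (s x).2 ≠ 1 :=
        (continuous_snd.comp hs.continuous).continuousAt.eventually_ne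
          (by simp only [Function.comp]; rw [hz]; norm_num)
      have h2 : (fun x => c0 (s x)) =ᶠ[𝓝[≠] z] (fun x => cI (s x))⁻¹ := by
        filter_upwards [eventually_nhdsWithin_of_eventually_nhds h4] with x hx
        rw [Pi.inv_apply, ← c0_sI, ← (hs.inf hx).2]
      refine ⟨h1.meromorphicAt.inv.congr h2.symm, ?_⟩
      rw [meromorphicOrderAt_congr h2, meromorphicOrderAt_inv]
      have h5 : 0 < meromorphicOrderAt (fun x => cI (s x)) z := by
        rw [← tendsto_zero_iff_meromorphicOrderAt_pos h1.meromorphicAt]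
        have := h1.continuousAt.tendsto
        rw [hs.eq_inf hz, cI_sI] at this
        exact this.mono_left nhdsWithin_le_nhds
      have h6 : meromorphicOrderAt (fun x => cI (s x)) z ≠ ⊤ := by
        rw [ne_eq, meromorphicOrderAt_eq_top_iff]
        intro h7
        have h8 := h1.frequently_zero_iff_eventually_zero.1 h7.frequently
        apply hZ z
        simp only [ne_eq, not_not]
        filter_upwards [h8, h4] with x hx hx'
        rw [(hs.inf hx').2, hx, sI_zero]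
      lift meromorphicOrderAt (fun x => cI (s x)) z to ℤ using h6 with n hn
      have h2 : 0 < n := by exact_mod_cast h5
      rw [← WithTop.LinearOrderedAddCommGroup.coe_neg]
      exact_mod_cast neg_neg_of_pos h2
    refine ⟨fun x => c0 (s x), ⟨fun z => ?_, fun z hz => ?_⟩, funext fun z => ?_⟩
    · by_cases h : (s z).2 = 0
      · exact (key z h).1
      · exact (hs.fin h).1.meromorphicAt
    · by_cases h : (s z).2 = 0
      · exact absurd (key z h).2 (not_lt.2 hz)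
      · exact (hs.fin h).1
    · by_cases h : (s z).2 = 0
      · rw [sph_of_not, hs.eq_inf h]
        exact fun h1 => absurd (key z h).2 (not_lt.2 h1.meromorphicOrderAt_nonneg)
      · rw [sph_of_an (hs.fin h).1]; exact (hs.fin h).2

end Pool.Agent.Lib.MP_bb1814_an
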