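import Mathlib
import Pool.Agent.Lib.MP_bb1814_an.Sphere
import Pool.Agent.Lib.MP_bb1814_an.Conv

/-!
Compactness of families of meromorphic functions along ultrafilters and Zalcman's lemma.
-/

namespace Pool.Agent.Lib.MP_bb1814_an

open Filter Topology Set Metric
open scoped ComplexConjugate

variable {ι : Type*} {l : Filter ι}

/-- Continuous convergence of maps to the sphere. -/
def CCv (l : Filter ι) (s : ι → ℂ → ℂ × ℝ) (t : ℂ → ℂ × ℝ) : Prop :=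
  ∀ z, Tendsto (fun p : ι × ℂ => s p.1 p.2) (l ×ˢ 𝓝 z) (𝓝 (t z))

lemma continuousAt_c0 {p : ℂ × ℝ} (hp : p.2 ≠ 0) : ContinuousAt c0 p := by
  unfold c0
  exact continuousAt_fst.div (Complex.continuous_ofReal.continuousAt.comp continuousAt_snd)
    (by exact_mod_cast hp)

lemma continuousAt_cI {p : ℂ × ℝ} (hp : p.2 ≠ 1) : ContinuousAt cI p := by
  unfold cI
  refine (Complex.continuous_conj.continuousAt.comp continuousAt_fst).div
    (Complex.continuous_ofReal.continuousAt.comp (continuousAt_const.sub continuousAt_snd)) ?_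
  exact_mod_cast sub_ne_zero.2 hp.symm

lemma norm_fderiv_comp_le {σ : ℂ → ℂ × ℝ} (hσ : ContDiff ℝ 1 σ) {φ : ℂ → ℂ} {z : ℂ}
    (hφ : AnalyticAt ℂ φ z) {s : ℂ → ℂ × ℝ} (hs : s =ᶠ[𝓝 z] fun x => σ (φ x)) :
    ‖fderiv ℝ s z‖ ≤ ‖fderiv ℝ σ (φ z)‖ * ‖deriv φ z‖ := by
  have h1 : HasFDerivAt φ ((fderiv ℂ φ z).restrictScalars ℝ) z :=
    hφ.differentiableAt.hasFDerivAt.restrictScalars ℝ
  have h2 := ((hσ.differentiable one_ne_zero (φ z)).hasFDerivAt.comp z h1).congr_of_eventuallyEq hs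
  rw [h2.fderiv, norm_deriv_eq_norm_fderiv,
    ← ContinuousLinearMap.norm_restrictScalars (𝕜' := ℝ) (fderiv ℂ φ z)]
  exact ContinuousLinearMap.opNorm_comp_le _ _

namespace CCv

variable {s : ι → ℂ → ℂ × ℝ} {t : ℂ → ℂ × ℝ} {z : ℂ}

lemma continuous [l.NeBot] (h : CCv l s t) : Continuous t :=
  continuous_iff_continuousAt.2 fun _ => continuousAt_of_cc (Eventually.of_forall h)

lemma snd_ne (h : CCv l s t) {r : ℝ} (hz : (t z).2 ≠ r) : ∀ᶠ p in l ×ˢ 𝓝 z, (s p.1 p.2).2 ≠ r :=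
  ((continuous_snd.tendsto _).comp (h z)).eventually_ne hz

lemma lc0 (hs : ∀ n, IsHol (s n)) (h : CCv l s t) (hz : (t z).2 ≠ 0) :
    LC l (fun n x => c0 (s n x)) z (c0 (t z)) :=
  ⟨(h.snd_ne hz).mono fun p hp => ((hs p.1).fin hp).1, (continuousAt_c0 hz).tendsto.comp (h z)⟩

lemma lcI (hs : ∀ n, IsHol (s n)) (h : CCv l s t) (hz : (t z).2 ≠ 1) :
    LC l (fun n x => cI (s n x)) z (cI (t z)) :=
  ⟨(h.snd_ne hz).mono fun p hp => ((hs p.1).inf hp).1, (continuousAt_cI hz).tendsto.comp (h z)⟩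

lemma loc0 [l.NeBot] (hs : ∀ n, IsHol (s n)) (h : CCv l s t) (hz : (t z).2 ≠ 0) :
    Loc l (fun n x => c0 (s n x)) (fun x => c0 (t x)) z :=
  ((continuous_snd.comp h.continuous).continuousAt.eventually_ne hz).mono fun _ hx =>
    h.lc0 hs hx

lemma locI [l.NeBot] (hs : ∀ n, IsHol (s n)) (h : CCv l s t) (hz : (t z).2 ≠ 1) :
    Loc l (fun n x => cI (s n x)) (fun x => cI (t x)) z :=
  ((continuous_snd.comp h.continuous).continuousAt.eventually_ne hz).mono fun _ hx =>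
    h.lcI hs hx

lemma isHol [l.NeBot] (hs : ∀ n, IsHol (s n)) (h : CCv l s t) : IsHol t := by
  intro z
  by_cases hz : (t z).2 = 0
  · have hz' : (t z).2 ≠ 1 := by rw [hz]; norm_num
    refine ⟨_, (h.locI hs hz').an, Or.inr ?_⟩
    filter_upwards [(continuous_snd.comp h.continuous).continuousAt.eventually_ne hz'] with x hx
    refine tendsto_nhds_unique_of_eventuallyEq (h x)
      ((contDiff_sI.continuous.tendsto _).comp (h.lcI hs hx).lim) ?_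
    exact (h.snd_ne hx).mono fun p hp => ((hs p.1).inf hp).2
  · refine ⟨_, (h.loc0 hs hz).an, Or.inl ?_⟩
    filter_upwards [(continuous_snd.comp h.continuous).continuousAt.eventually_ne hz] with x hx
    refine tendsto_nhds_unique_of_eventuallyEq (h x)
      ((contDiff_s0.continuous.tendsto _).comp (h.lc0 hs hx).lim) ?_
    exact (h.snd_ne hx).mono fun p hp => ((hs p.1).fin hp).2

lemma fderiv_tendsto [l.NeBot] (hs : ∀ n, IsHol (s n)) {k : ℂ × ℝ} (h : CCv l s fun _ => k)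
    (z : ℂ) : Tendsto (fun p : ι × ℂ => ‖fderiv ℝ (s p.1) p.2‖) (l ×ˢ 𝓝 z) (𝓝 0) := by
  have key : ∀ (σ : ℂ → ℂ × ℝ) (c : ℂ × ℝ → ℂ), ContDiff ℝ 1 σ →
      Loc l (fun n x => c (s n x)) (fun _ => c k) z →
      (∀ᶠ p in l ×ˢ 𝓝 z, s p.1 p.2 = σ (c (s p.1 p.2))) →
      Tendsto (fun p : ι × ℂ => ‖fderiv ℝ (s p.1) p.2‖) (l ×ˢ 𝓝 z) (𝓝 0) := by
    intro σ c hσ h1 h2
    have h3 := (((hσ.continuous_fderiv one_ne_zero).tendsto _).comp h1.lc.lim).norm.mul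
      (Loc.deriv_const h1).lim.norm
    rw [norm_zero, mul_zero] at h3
    refine squeeze_zero' (Eventually.of_forall fun _ => norm_nonneg _) ?_ h3
    filter_upwards [h1.lc.an, eventually_prod_inner (Q := fun n x => s n x = σ (c (s n x))) h2]
      with p hp hp'
    exact norm_fderiv_comp_le hσ hp hp'
  by_cases hz : k.2 = 0
  · have hz' : k.2 ≠ 1 := by rw [hz]; norm_num
    exact key sI cI contDiff_sI (h.locI hs hz')
      ((h.snd_ne (z := z) hz').mono fun p hp => ((hs p.1).inf hp).2)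
  · exact key s0 c0 contDiff_s0 (h.loc0 hs hz)
      ((h.snd_ne (z := z) hz).mono fun p hp => ((hs p.1).fin hp).2)

end CCv

/-- Compactness for families with locally bounded derivative. -/
lemma exists_ccv (𝒰 : Ultrafilter ι) {s : ι → ℂ → ℂ × ℝ} (hs : ∀ n, IsHol (s n))
    (hN : ∀ R : ℝ, ∃ K : ℝ, ∀ᶠ n in (𝒰 : Filter ι), ∀ z ∈ ball (0 : ℂ) R, ‖fderiv ℝ (s n) z‖ ≤ K) :
    ∃ t, CCv (𝒰 : Filter ι) s t := by
  have h1 : ∀ z, ∃ y, Tendsto (fun n => s n z) 𝒰 (𝓝 y) := fun z => by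
    obtain ⟨y, -, hy⟩ := (isCompact_closedBall (0 : ℂ × ℝ) 1).ultrafilter_le_nhds
      (𝒰.map fun n => s n z) (by
        rw [le_principal_iff, Ultrafilter.coe_map, mem_map]
        exact Eventually.of_forall fun n => mem_closedBall_zero_iff.2 ((hs n).norm_le z))
    exact ⟨y, hy⟩
  choose t ht using h1
  refine ⟨t, fun z => ?_⟩
  obtain ⟨K, hK⟩ := hN (‖z‖ + 1)
  have hz : z ∈ ball (0 : ℂ) (‖z‖ + 1) := by simp
  have h2 : Tendsto (fun p : ι × ℂ => s p.1 p.2 - s p.1 z) (𝒰 ×ˢ 𝓝 z) (𝓝 0) := by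
    have h3 : Tendsto (fun p : ι × ℂ => K * ‖p.2 - z‖) (𝒰 ×ˢ 𝓝 z) (𝓝 0) := by
      have := ((tendsto_snd (f := (𝒰 : Filter ι)) (g := 𝓝 z)).sub_const z).norm.const_mul K
      simpa using this
    refine squeeze_zero_norm' ?_ h3
    filter_upwards [hK.prod_mk (isOpen_ball.mem_nhds hz)] with p hp
    exact (convex_ball 0 _).norm_image_sub_le_of_norm_fderiv_le
      (fun x _ => (hs p.1).contDiff.differentiable one_ne_zero x) hp.1 hz hp.2
  simpa using h2.add ((ht z).comp tendsto_fst)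

lemma IsHol.aff {s : ℂ → ℂ × ℝ} (hs : IsHol s) (c ρ : ℂ) : IsHol fun x => s (c + ρ * x) := by
  intro z
  obtain ⟨φ, hφ, h⟩ := hs (c + ρ * z)
  have h1 := (analyticAt_aff c ρ z).continuousAt.tendsto
  exact ⟨fun x => φ (c + ρ * x), AnalyticAt.comp (g := φ) hφ (analyticAt_aff c ρ z),
    h.imp (fun h => h.comp_tendsto h1) fun h => h.comp_tendsto h1⟩

lemma norm_fderiv_aff {s : ℂ → ℂ × ℝ} (hs : IsHol s) (c z : ℂ) {ρ : ℝ} (hρ : 0 ≤ ρ) :
    ‖fderiv ℝ (fun x => s (c + ρ * x)) z‖ = ρ * ‖fderiv ℝ s (c + ρ * z)‖ := by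
  have h1 : HasFDerivAt (fun x : ℂ => c + ρ * x) (ρ • ContinuousLinearMap.id ℝ ℂ) z := by
    have := ((hasFDerivAt_id (𝕜 := ℝ) z).const_smul ρ).const_add c
    simpa using this
  have h2 := (hs.contDiff.differentiable one_ne_zero (c + ρ * z)).hasFDerivAt.comp z h1
  have h3 : fderiv ℝ (fun x => s (c + ρ * x)) z = _ := h2.fderiv
  rw [h3, ContinuousLinearMap.comp_smul, ContinuousLinearMap.comp_id, norm_smul,
    Real.norm_of_nonneg hρ]

/-- Zalcman's lemma for maps to the sphere. -/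
lemma zalcman_hol (𝒰 : Ultrafilter ι) {s : ι → ℂ → ℂ × ℝ} (hs : ∀ n, IsHol (s n)) :
    (∃ t, CCv (𝒰 : Filter ι) s t) ∨ ∃ (a ρ : ι → ℂ) (a0 : ℂ) (t : ℂ → ℂ × ℝ),
      Tendsto a 𝒰 (𝓝 a0) ∧ (∀ n, ρ n ≠ 0) ∧ Tendsto ρ 𝒰 (𝓝 0) ∧
      CCv (𝒰 : Filter ι) (fun n x => s n (a n + ρ n * x)) t ∧ ∀ k, t ≠ fun _ => k := by
  by_cases hN : ∀ R : ℝ, ∃ K : ℝ, ∀ᶠ n in (𝒰 : Filter ι), ∀ z ∈ ball (0 : ℂ) R,
      ‖fderiv ℝ (s n) z‖ ≤ K
  · exact Or.inl (exists_ccv 𝒰 hs hN)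
  right
  obtain ⟨R, hR⟩ := not_forall.1 hN
  have hbig : ∀ K : ℝ, ∀ᶠ n in (𝒰 : Filter ι), ∃ z ∈ ball (0 : ℂ) R, K < ‖fderiv ℝ (s n) z‖ := by
    intro K
    have := Ultrafilter.eventually_not.2 (not_exists.1 hR K)
    filter_upwards [this] with n hn
    push Not at hn
    exact hn
  have hR0 : 0 < R := by
    obtain ⟨n, z, hz, -⟩ := (hbig 0).exists
    exact pos_of_mem_ball hz
  set κ : ι → ℂ → ℝ := fun n z => ‖fderiv ℝ (s n) z‖ with hκ
  have hκc : ∀ n, Continuous (κ n) := fun n =>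
    ((hs n).contDiff.continuous_fderiv one_ne_zero).norm
  have hmax : ∀ n, ∃ a ∈ closedBall (0 : ℂ) (2 * R),
      ∀ z ∈ closedBall (0 : ℂ) (2 * R), (2 * R - ‖z‖) * κ n z ≤ (2 * R - ‖a‖) * κ n a := fun n =>
    (isCompact_closedBall 0 (2 * R)).exists_isMaxOn (f := fun z => (2 * R - ‖z‖) * κ n z)
      (nonempty_closedBall.2 (by positivity))
      ((continuous_const.sub continuous_norm).mul (hκc n)).continuousOn
  choose a ha hmax using hmax
  set m : ι → ℝ := fun n => (2 * R - ‖a n‖) * κ n (a n) with hm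
  have hmt : Tendsto m 𝒰 atTop := by
    rw [Filter.tendsto_atTop]
    intro K
    filter_upwards [hbig (max (K / R) 0)] with n hn
    obtain ⟨z, hz, hz'⟩ := hn
    rw [mem_ball_zero_iff] at hz
    have h1 := hmax n z (mem_closedBall_zero_iff.2 (by linarith))
    have h2 : K / R < κ n z := (le_max_left _ _).trans_lt hz'
    have h3 : 0 ≤ κ n z := norm_nonneg _
    rw [div_lt_iff₀ hR0] at h2
    have h4 : R * κ n z ≤ (2 * R - ‖z‖) * κ n z := by gcongr; linarith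
    simp only [hm]; linarith
  have haR : ∀ n, 0 ≤ 2 * R - ‖a n‖ := fun n => sub_nonneg.2 (mem_closedBall_zero_iff.1 (ha n))
  set ρ : ι → ℝ := fun n => if κ n (a n) = 0 then 1 else (κ n (a n))⁻¹ with hρ
  have hρ0 : ∀ n, 0 < ρ n := fun n => by
    simp only [hρ]
    split_ifs with h
    · exact one_pos
    · exact inv_pos.2 (lt_of_le_of_ne (norm_nonneg _) (Ne.symm h))
  have hev : ∀ᶠ n in (𝒰 : Filter ι), ρ n * κ n (a n) = 1 ∧ ρ n * m n = 2 * R - ‖a n‖ ∧ 0 < m n := by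
    filter_upwards [hmt.eventually_gt_atTop 0] with n hn
    have h1 : κ n (a n) ≠ 0 := by
      intro h; simp only [hm, h, mul_zero] at hn; exact lt_irrefl _ hn
    have h2 : ρ n * κ n (a n) = 1 := by simp only [hρ, if_neg h1]; field_simp
    refine ⟨h2, ?_, hn⟩
    simp only [hm]; linear_combination (2 * R - ‖a n‖) * h2
  have hρt : Tendsto ρ 𝒰 (𝓝 0) := by
    refine squeeze_zero' (Eventually.of_forall fun n => (hρ0 n).le) ?_
      (hmt.const_div_atTop (2 * R))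
    filter_upwards [hev] with n hn
    rw [le_div_iff₀ hn.2.2, hn.2.1]; linarith [norm_nonneg (a n)]
  obtain ⟨a0, -, ha0⟩ := (isCompact_closedBall (0 : ℂ) (2 * R)).ultrafilter_le_nhds (𝒰.map a) (by
    rw [le_principal_iff, Ultrafilter.coe_map, mem_map]; exact Eventually.of_forall ha)
  have hs' : ∀ n, IsHol fun x => s n (a n + ρ n * x) := fun n => (hs n).aff _ _
  obtain ⟨t, ht⟩ := exists_ccv 𝒰 hs' fun T => ⟨2, by
    filter_upwards [hev, hmt.eventually_ge_atTop (2 * T)] with n hn hn' z hz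
    rw [norm_fderiv_aff (hs n) _ _ (hρ0 n).le]
    rw [mem_ball_zero_iff] at hz
    have h1 : ‖a n + ρ n * z‖ ≤ ‖a n‖ + ρ n * ‖z‖ := by
      refine (norm_add_le _ _).trans ?_
      rw [norm_mul, Complex.norm_real, Real.norm_of_nonneg (hρ0 n).le]
    have h2 : ρ n * ‖z‖ ≤ ρ n * (m n / 2) := by
      have := hρ0 n
      gcongr; linarith
    have h3 : ρ n * m n / 2 ≤ 2 * R - ‖a n + ρ n * z‖ := by linarith [hn.2.1]
    have h4 : 0 < ρ n * m n := mul_pos (hρ0 n) hn.2.2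
    have h5 := hmax n (a n + ρ n * z) (mem_closedBall_zero_iff.2 (by linarith))
    have h6 : ρ n * m n / 2 * κ n (a n + ρ n * z) ≤ m n :=
      (mul_le_mul_of_nonneg_right h3 (norm_nonneg _)).trans h5
    have h7 : m n * (ρ n * κ n (a n + ρ n * z)) ≤ m n * 2 := by linarith
    exact le_of_mul_le_mul_left h7 hn.2.2⟩
  refine ⟨a, fun n => ρ n, a0, t, ha0, fun n => Complex.ofReal_ne_zero.2 (hρ0 n).ne', ?_, ht, ?_⟩
  · exact_mod_cast (Complex.continuous_ofReal.tendsto 0).comp hρt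
  · rintro k rfl
    have h1 := (ht.fderiv_tendsto hs' 0).comp (tendsto_at_pt 0)
    have h2 : ∀ᶠ n in (𝒰 : Filter ι), ‖fderiv ℝ (fun x => s n (a n + ρ n * x)) 0‖ = 1 := by
      filter_upwards [hev] with n hn
      rw [norm_fderiv_aff (hs n) _ _ (hρ0 n).le, mul_zero, add_zero]; exact hn.1
    exact zero_ne_one (tendsto_nhds_unique_of_eventuallyEq h1 tendsto_const_nhds h2)

/-- Non-constant near every point. -/
def NC (F : ℂ → ℂ) : Prop := ∀ c z, meromorphicOrderAt (fun x => F x - c) z ≠ ⊤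

lemma NC.not_eventually {F : ℂ → ℂ} (h : NC F) (c z : ℂ) : ¬∀ᶠ x in 𝓝 z, F x = c := fun h1 =>
  h c z (meromorphicOrderAt_eq_top_iff.2
    ((eventually_nhdsWithin_of_eventually_nhds h1).mono fun _ hx => sub_eq_zero.2 hx))

lemma NC.not_const {F : ℂ → ℂ} (h : NC F) : ¬∃ k, ∀ z, F z = k := fun ⟨k, hk⟩ =>
  h.not_eventually k 0 (Eventually.of_forall hk)

lemma order_top_all {F : ℂ → ℂ} (hF : Meromorphic F) {z : ℂ} (h : meromorphicOrderAt F z = ⊤)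
    (x : ℂ) : meromorphicOrderAt F x = ⊤ := by
  by_contra hx
  exact (hF.meromorphicOn (s := univ)).meromorphicOrderAt_ne_top_of_isPreconnected
    isPreconnected_univ (mem_univ x) (mem_univ z) hx h

lemma Reg.nc_or_const {F : ℂ → ℂ} (hF : Reg F) : NC F ∨ ∃ c, F = fun _ => c := by
  by_cases h : NC F
  · exact Or.inl h
  right
  simp only [NC, not_forall, not_not] at h
  obtain ⟨c, z, h⟩ := h
  refine ⟨c, funext fun x => ?_⟩
  have h1 := meromorphicOrderAt_eq_top_iff.1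
    (order_top_all (fun y => (hF.mero y).sub (MeromorphicAt.const c y)) h x)
  have h2 : F =ᶠ[𝓝[≠] x] fun _ => c := h1.mono fun y hy => sub_eq_zero.1 hy
  have h3 : AnalyticAt ℂ F x := by
    refine hF.an x ?_
    rw [meromorphicOrderAt_congr h2]; exact analyticAt_const.meromorphicOrderAt_nonneg
  exact eq_of_nhdsNE h3.continuousAt continuousAt_const h2

lemma sph_const (c : ℂ) : (sph fun _ => c) = fun _ => s0 c :=
  funext fun _ => sph_of_an analyticAt_const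

lemma sph_aff (f : ℂ → ℂ) (c : ℂ) {ρ : ℂ} (hρ : ρ ≠ 0) (z : ℂ) :
    sph (fun x => f (c + ρ * x)) z = sph f (c + ρ * z) := by
  by_cases h : AnalyticAt ℂ f (c + ρ * z)
  · rw [sph_of_an h, sph_of_an ((analyticAt_aff_iff c hρ z).2 h)]
  · rw [sph_of_not h, sph_of_not (fun h1 => h ((analyticAt_aff_iff c hρ z).1 h1))]

/-- Convergence of meromorphic functions to a map to the sphere. -/
def Cv (l : Filter ι) (f : ι → ℂ → ℂ) (t : ℂ → ℂ × ℝ) : Prop := CCv l (fun n => sph (f n)) t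

/-- The three kinds of limits. -/
lemma Cv.cases [l.NeBot] {f : ι → ℂ → ℂ} (hf : ∀ n, Reg (f n)) {t : ℂ → ℂ × ℝ} (h : Cv l f t) :
    (t = fun _ => sI 0) ∨ (∃ c, t = sph fun _ => c) ∨ ∃ F, Reg F ∧ NC F ∧ t = sph F := by
  rcases (CCv.isHol (fun n => (hf n).isHol) h).exists_reg with h1 | ⟨F, hF, h1⟩
  · exact Or.inl h1
  · rcases hF.nc_or_const with h2 | ⟨c, rfl⟩
    · exact Or.inr (Or.inr ⟨F, hF, h2, h1⟩)
    · exact Or.inr (Or.inl ⟨c, h1⟩)

lemma Cv.rescale {f : ι → ℂ → ℂ} {t : ℂ → ℂ × ℝ} (h : Cv l f t) {a ρ : ι → ℂ} {a0 : ℂ}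
    (ha : Tendsto a l (𝓝 a0)) (hρ0 : ∀ n, ρ n ≠ 0) (hρ : Tendsto ρ l (𝓝 0)) :
    Cv l (fun n x => f n (a n + ρ n * x)) fun _ => t a0 := by
  intro z
  refine ((h a0).comp (tendsto_rescale ha hρ z)).congr fun p => ?_
  simp only [Function.comp, sph_aff _ _ (hρ0 _)]

/-- Zalcman's lemma. -/
theorem zalcman (𝒰 : Ultrafilter ι) {f : ι → ℂ → ℂ} (hf : ∀ n, Reg (f n)) :
    (∃ t, Cv (𝒰 : Filter ι) f t) ∨ ∃ (a ρ : ι → ℂ) (a0 : ℂ) (F : ℂ → ℂ),
      Tendsto a 𝒰 (𝓝 a0) ∧ (∀ n, ρ n ≠ 0) ∧ Tendsto ρ 𝒰 (𝓝 0) ∧ Reg F ∧ NC F ∧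
      Cv (𝒰 : Filter ι) (fun n x => f n (a n + ρ n * x)) (sph F) := by
  rcases zalcman_hol 𝒰 (fun n => (hf n).isHol) with h | ⟨a, ρ, a0, t, h1, h2, h3, h4, h5⟩
  · exact Or.inl h
  have h6 : Cv (𝒰 : Filter ι) (fun n x => f n (a n + ρ n * x)) t := by
    intro z
    refine (h4 z).congr fun p => ?_
    simp only [sph_aff _ _ (h2 _)]
  rcases h6.cases (fun n => (hf n).aff _ (h2 n)) with h | ⟨c, h⟩ | ⟨F, hF, hF', rfl⟩
  · exact absurd h (h5 _)
  · rw [sph_const] at h; exact absurd h (h5 _)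
  · exact Or.inr ⟨a, ρ, a0, F, h1, h2, h3, hF, hF', h6⟩

namespace Cv

variable {f : ι → ℂ → ℂ} {F : ℂ → ℂ} {t : ℂ → ℂ × ℝ} {z : ℂ}

lemma lc_of_snd (hf : ∀ n, Reg (f n)) (h : Cv l f t) (hz : (t z).2 ≠ 0) :
    LC l f z (c0 (t z)) :=
  (CCv.lc0 (fun n => (hf n).isHol) h hz).congr
    ((CCv.snd_ne h hz).mono fun _ hp => c0_sph (sph_snd_ne.1 hp))

lemma lc (hf : ∀ n, Reg (f n)) (h : Cv l f (sph F)) (hz : AnalyticAt ℂ F z) :
    LC l f z (F z) := by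
  have := h.lc_of_snd hf (sph_snd_ne.2 hz)
  rwa [c0_sph hz] at this

lemma loc (hf : ∀ n, Reg (f n)) (h : Cv l f (sph F)) (hz : AnalyticAt ℂ F z) : Loc l f F z :=
  hz.eventually_analyticAt.mono fun _ hx => h.lc hf hx

lemma lc_const (hf : ∀ n, Reg (f n)) {c : ℂ} (h : Cv l f (sph fun _ => c)) (z : ℂ) :
    LC l f z c := h.lc hf analyticAt_const

lemma lc_rcp (hf : ∀ n, Reg (f n)) (h : Cv l f t) (hz : (t z).2 ≠ 1) :
    LC l (fun n => rcp (f n)) z (cI (t z)) :=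
  CCv.lcI (fun n => (hf n).isHol) h hz

lemma lc_inf (hf : ∀ n, Reg (f n)) (h : Cv l f t) (hz : t z = sI 0) :
    LC l (fun n => rcp (f n)) z 0 := by
  have := h.lc_rcp hf (z := z) (by rw [hz, sI_zero]; norm_num)
  rwa [hz, cI_sI] at this

lemma snd_ne_one (h : Cv l f t) (hz : t z = sI 0) :
    ∀ᶠ p in l ×ˢ 𝓝 z, AnalyticAt ℂ (f p.1) p.2 → f p.1 p.2 ≠ 0 :=
  (CCv.snd_ne h (z := z) (r := 1) (by rw [hz, sI_zero]; norm_num)).mono fun _ hp =>
    sph_snd_ne_one.1 hp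

/-- Values taken frequently near a point determine the limit. -/
lemma eq_of_freq (h : Cv l f t) {k : ℂ × ℝ} (hk : ∃ᶠ p in l ×ˢ 𝓝 z, sph (f p.1) p.2 = k) :
    t z = k :=
  tendsto_nhds_unique_of_frequently_eq (h z) tendsto_const_nhds hk

lemma eq_inf_of_freq (h : Cv l f t) (hk : ∃ᶠ p in l ×ˢ 𝓝 z, ¬AnalyticAt ℂ (f p.1) p.2) :
    t z = sI 0 :=
  h.eq_of_freq (hk.mono fun _ hp => sph_of_not hp)

lemma eq_fin_of_freq (h : Cv l f t) {c : ℂ}
    (hk : ∃ᶠ p in l ×ˢ 𝓝 z, AnalyticAt ℂ (f p.1) p.2 ∧ f p.1 p.2 = c) : t z = s0 c :=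
  h.eq_of_freq (hk.mono fun _ hp => by rw [sph_of_an hp.1, hp.2])

/-- Poles of the limit are limits of poles. -/
lemma freq_pole [l.NeBot] (hf : ∀ n, Reg (f n)) (hF : Reg F) (h : Cv l f (sph F))
    (hz : ¬AnalyticAt ℂ F z) : ∃ᶠ p in l ×ˢ 𝓝 z, ¬AnalyticAt ℂ (f p.1) p.2 := by
  have h0 : sph F z = sI 0 := sph_of_not hz
  have h1 : Loc l (fun n => rcp (f n)) (rcp F) z :=
    CCv.locI (fun n => (hf n).isHol) h (by rw [h0, sI_zero]; norm_num)
  have h2 : ¬∀ᶠ x in 𝓝 z, rcp F x = rcp F z := by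
    intro h3
    have h4 : ∀ᶠ x in 𝓝[≠] z, F x ≠ 0 :=
      (meromorphicOrderAt_ne_top_iff_eventually_ne_zero (hF.mero z)).1 (hF.order_neg hz).ne_top
    obtain ⟨x, h5, h6, h7⟩ := (h4.and ((hF.rcp_eq z).and (nhdsWithin_le_nhds h3))).exists
    rw [rcp_of_not hz, h6] at h7
    exact h5 (inv_eq_zero.1 h7)
  refine ((h1.hurwitz_freq h2).and_eventually (h.snd_ne_one h0)).mono ?_
  rintro p ⟨h3, h4⟩ h5
  rw [rcp_of_not hz, rcp_of_an h5] at h3
  exact h4 h5 (inv_eq_zero.1 h3)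

/-- Values of a non-constant limit are limits of values. -/
lemma freq_val [l.NeBot] (hf : ∀ n, Reg (f n)) (hF : NC F) (h : Cv l f (sph F))
    (hz : AnalyticAt ℂ F z) :
    ∃ᶠ p in l ×ˢ 𝓝 z, AnalyticAt ℂ (f p.1) p.2 ∧ f p.1 p.2 = F z :=
  (((h.loc hf hz).hurwitz_freq (hF.not_eventually _ _)).and_eventually (h.lc hf hz).an).mono
    fun _ hp => hp.symm

end Cv

lemma s0_ne_sI_zero (c : ℂ) : s0 c ≠ sI 0 := fun h => by
  have := s0_snd_pos c
  rw [h, sI_zero] at this; exact lt_irrefl _ this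

lemma s0_injective : Function.Injective s0 := fun x y h => by rw [← c0_s0 x, h, c0_s0]

lemma sph_eq_s0 {F : ℂ → ℂ} {z c : ℂ} : sph F z = s0 c ↔ AnalyticAt ℂ F z ∧ F z = c := by
  by_cases h : AnalyticAt ℂ F z
  · simp [sph_of_an h, h, s0_injective.eq_iff]
  · simp [sph_of_not h, h, (s0_ne_sI_zero c).symm]

lemma sph_eq_sI {F : ℂ → ℂ} {z : ℂ} : sph F z = sI 0 ↔ ¬AnalyticAt ℂ F z := by
  by_cases h : AnalyticAt ℂ F z
  · simp [sph_of_an h, h, s0_ne_sI_zero]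
  · simp [sph_of_not h, h]

end Pool.Agent.Lib.MP_bb1814_an
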