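import Mathlib
import Pool.Agent.Lib.MP_bb1814_an.Zalcman
import Pool.Agent.Lib.MP_bb1814_an.Nev

/-!
Normality criteria for families of pairs.
-/

namespace Pool.Agent.Lib.MP_bb1814_an

open Filter Topology Set Metric

variable {ι : Type*} {l : Filter ι} {C : Cub} {f g u w : ι → ℂ → ℂ}

/-- A family of pairs with `u` and `w` eventually zero-free. -/
structure Fam (l : Filter ι) (C : Cub) (f g u w : ι → ℂ → ℂ) : Prop where
  pair : ∀ n, Pair C (f n) (g n) (u n) (w n)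
  nz : ∀ z, ∀ᶠ p in l ×ˢ 𝓝 z, u p.1 p.2 ≠ 0 ∧ w p.1 p.2 ≠ 0

lemma NC.deriv_ne {F : ℂ → ℂ} (h : NC F) {z : ℂ} (hz : AnalyticAt ℂ F z) :
    ∀ᶠ x in 𝓝[≠] z, deriv F x ≠ 0 := by
  refine (hz.deriv.eventually_eq_zero_or_eventually_ne_zero).resolve_left fun h1 => ?_
  obtain ⟨r, hr, h2⟩ := Metric.eventually_nhds_iff_ball.1 (h1.and hz.eventually_analyticAt)
  refine h.not_eventually (F z) z ?_
  filter_upwards [ball_mem_nhds z hr] with x hx
  exact isOpen_ball.is_const_of_deriv_eq_zero (convex_ball z r).isPreconnected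
    (fun y hy => (h2 y hy).2.differentiableAt.differentiableWithinAt) (fun y hy => (h2 y hy).1) hx
    (mem_ball_self hr)

lemma NC.ne {F : ℂ → ℂ} (h : NC F) (hF : Reg F) (c z : ℂ) : ∀ᶠ x in 𝓝[≠] z, F x ≠ c :=
  ((meromorphicOrderAt_ne_top_iff_eventually_ne_zero
    ((hF.mero z).sub (MeromorphicAt.const c z))).1 (h c z)).mono fun _ hx => sub_ne_zero.1 hx

lemma NC.P_ne {F : ℂ → ℂ} (h : NC F) (hF : Reg F) (C : Cub) (z : ℂ) :
    ∀ᶠ x in 𝓝[≠] z, C.P (F x) ≠ 0 := by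
  filter_upwards [h.ne hF (C.e 0) z, h.ne hF (C.e 1) z, h.ne hF (C.e 2) z] with x h0 h1 h2
  exact mul_ne_zero (mul_ne_zero (sub_ne_zero.2 h0) (sub_ne_zero.2 h1)) (sub_ne_zero.2 h2)

lemma NC.exists_root {G : ℂ → ℂ} (h : NC G) (hG : Reg G) (C : Cub) (z0 : ℂ) :
    ∃ z, z ≠ z0 ∧ AnalyticAt ℂ G z ∧ C.P (G z) = 0 := by
  by_contra hcon
  push Not at hcon
  refine h.not_const (picard3' hG C.ne01 C.ne02 C.ne12 z0 fun z hz hz' => ?_)
  have := hcon z hz hz'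
  refine ⟨?_, ?_, ?_⟩ <;> intro h1 <;> exact this (by rw [h1]; exact C.P_e _)

namespace Fam

lemma rf (h : Fam l C f g u w) (n : ι) : Reg (f n) := (h.pair n).rf

lemma rg (h : Fam l C f g u w) (n : ι) : Reg (g n) := (h.pair n).rg

lemma swap (h : Fam l C f g u w) : Fam l C g f (fun n z => -w n z) (fun n z => -u n z) :=
  ⟨fun n => (h.pair n).swap, fun z => (h.nz z).mono fun _ hp =>
    ⟨neg_ne_zero.2 hp.2, neg_ne_zero.2 hp.1⟩⟩

lemma rescale (h : Fam l C f g u w) {a ρ : ι → ℂ} {a0 : ℂ} (ha : Tendsto a l (𝓝 a0))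
    (hρ0 : ∀ n, ρ n ≠ 0) (hρ : Tendsto ρ l (𝓝 0)) :
    Fam l C (fun n x => f n (a n + ρ n * x)) (fun n x => g n (a n + ρ n * x))
      (fun n x => ρ n * u n (a n + ρ n * x)) (fun n x => ρ n * w n (a n + ρ n * x)) :=
  ⟨fun n => (h.pair n).aff _ (hρ0 n), fun z =>
    ((tendsto_rescale ha hρ z).eventually (h.nz a0)).mono fun _ hp =>
      ⟨mul_ne_zero (hρ0 _) hp.1, mul_ne_zero (hρ0 _) hp.2⟩⟩

end Fam

section Limits

variable {F G : ℂ → ℂ} {s : ℂ → ℂ × ℝ} {z : ℂ}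

lemma limit_root [l.NeBot] (hP : ∀ n, Pair C (f n) (g n) (u n) (w n)) (hf : Cv l f s)
    (hg : Cv l g (sph G)) (hG : NC G) (hz : AnalyticAt ℂ G z) (h0 : C.P (G z) = 0) :
    s z = s0 (G z) := by
  refine hf.eq_fin_of_freq ((hg.freq_val (fun n => (hP n).rg) hG hz).mono ?_)
  rintro p ⟨h1, h2⟩
  have h3 := ((hP p.1).pole p.2).2 h1
  exact ⟨h3, by rw [(hP p.1).share _ h3 (Or.inr (by rw [h2]; exact h0)), h2]⟩

lemma limit_pole [l.NeBot] (hP : ∀ n, Pair C (f n) (g n) (u n) (w n)) (hf : Cv l f s)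
    (hg : Cv l g (sph G)) (hG : Reg G) (hz : ¬AnalyticAt ℂ G z) : s z = sI 0 :=
  hf.eq_inf_of_freq ((hg.freq_pole (fun n => (hP n).rg) hG hz).mono fun p hp h1 =>
    hp (((hP p.1).pole p.2).1 h1))

lemma limit_odeg [l.NeBot] (hP : ∀ n, Pair C (f n) (g n) (u n) (w n)) (hf : Cv l f (sph F))
    (hg : Cv l g (sph G)) (hF : AnalyticAt ℂ F z) (hG : AnalyticAt ℂ G z) {c : ℂ}
    (hw : Tendsto (fun p : ι × ℂ => w p.1 p.2) (l ×ˢ 𝓝 z) (𝓝 c)) :
    deriv G z * (F z - G z) = c * C.P (G z) := by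
  have h1 := hf.lc (fun n => (hP n).rf) hF
  have h2 := hg.loc (fun n => (hP n).rg) hG
  refine tendsto_nhds_unique_of_eventuallyEq (h2.deriv.lc.mul (h1.sub h2.lc)).lim
    (hw.mul (h2.lc.comp C.differentiable_P).lim) ?_
  exact h1.an.mono fun p hp => (hP p.1).odeg _ hp

/-- The limit of a family of pairs is a pair when it is not degenerate. -/
lemma limit_pair [l.NeBot] (hP : ∀ n, Pair C (f n) (g n) (u n) (w n)) (hf : Cv l f (sph F))
    (hg : Cv l g (sph G)) (rF : Reg F) (rG : Reg G) (nF : NC F) (nG : NC G) {U W : ℂ → ℂ}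
    (dU : Differentiable ℂ U) (dW : Differentiable ℂ W)
    (hu : ∀ z, Tendsto (fun p : ι × ℂ => u p.1 p.2) (l ×ˢ 𝓝 z) (𝓝 (U z)))
    (hw : ∀ z, Tendsto (fun p : ι × ℂ => w p.1 p.2) (l ×ˢ 𝓝 z) (𝓝 (W z)))
    (hne : meromorphicOrderAt (fun x => F x - G x) z ≠ ⊤) : Pair C F G U W := by
  have hP' : ∀ n, Pair C (g n) (f n) (fun z => -w n z) (fun z => -u n z) := fun n => (hP n).swap
  have hpole : ∀ z, AnalyticAt ℂ F z ↔ AnalyticAt ℂ G z := fun z =>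
    ⟨fun h => by_contra fun h1 => sph_eq_sI.1 (limit_pole hP hf hg rG h1) h,
      fun h => by_contra fun h1 => sph_eq_sI.1 (limit_pole hP' hg hf rF h1) h⟩
  refine ⟨rF, rG, dU, dW, hpole, fun z hz => ?_, fun z hz => ?_, nF, nG, fun x hx => ?_,
    fun z hz h => ?_⟩
  · linear_combination -limit_odeg hP' hg hf ((hpole z).1 hz) hz (hu z).neg
  · exact limit_odeg hP hf hg hz ((hpole z).1 hz) (hw z)
  · exact hne (order_top_all (fun y => (rF.mero y).sub (rG.mero y)) hx z)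
  · rcases h with h | h
    · exact (sph_eq_s0.1 (limit_root hP' hg hf nF hz h)).2.symm
    · exact (sph_eq_s0.1 (limit_root hP hf hg nG ((hpole z).1 hz) h)).2

end Limits

/-- If `u / w` tends to zero then `g` has no non-constant limit. -/
lemma Fam.not_nc_of_zero [l.NeBot] (h : Fam l C f g u w)
    (hH : ∀ z, Tendsto (fun p : ι × ℂ => u p.1 p.2 / w p.1 p.2) (l ×ˢ 𝓝 z) (𝓝 0)) {G : ℂ → ℂ}
    (hg : Cv l g (sph G)) (rG : Reg G) (nG : NC G) : False := by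
  obtain ⟨z, -, hz, h0⟩ := nG.exists_root rG C 0
  refine nG.not_eventually (G z) z ((hg.loc h.rg hz).const_of_order fun k => ?_)
  have h1 : ∀ᶠ p in l ×ˢ 𝓝 z, ‖u p.1 p.2 / w p.1 p.2‖ < 1 / (k + 1) := by
    have := (hH z).norm
    rw [norm_zero] at this
    exact this.eventually (gt_mem_nhds (by positivity))
  refine ((hg.freq_val h.rg nG hz).and_eventually (h1.and (h.nz z))).mono ?_
  rintro ⟨n, x⟩ ⟨⟨h2, h3⟩, h4, h5, h6⟩
  simp only at h2 h3 h4 h5 h6 ⊢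
  have h7 := ((h.pair n).pole x).2 h2
  have h8 : f n x = g n x := (h.pair n).share _ h7 (Or.inr (by rw [h3]; exact h0))
  obtain ⟨m, hm, h9 | h9⟩ := (h.pair n).root_local h7 (by rw [h8, h3]; exact h0) h5
  · rw [h9.2.2, mul_div_cancel_right₀ _ h6, Complex.norm_natCast] at h4
    have h10 : (1 : ℝ) ≤ m := by exact_mod_cast hm
    have h11 : 1 / ((k : ℝ) + 1) ≤ 1 := by
      rw [div_le_one (by positivity)]; linarith [Nat.cast_nonneg (α := ℝ) k]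
    linarith
  · rw [← h8, h9.2.1]
    have hm0 : (0 : ℝ) < m := by exact_mod_cast hm
    have h10 : u n x / w n x = (m : ℂ)⁻¹ := by
      rw [h9.2.2]; field_simp
    rw [h10, norm_inv, Complex.norm_natCast, one_div, inv_lt_inv₀ hm0 (by positivity)] at h4
    have h11 : k ≤ m := by
      have : (k : ℝ) ≤ m := by linarith
      exact_mod_cast this
    exact_mod_cast h11

/-- If `u / w` tends to zero then `g` has a constant limit. -/
theorem Fam.const_of_zero (𝒰 : Ultrafilter ι) (h : Fam (𝒰 : Filter ι) C f g u w)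
    (hH : ∀ z, Tendsto (fun p : ι × ℂ => u p.1 p.2 / w p.1 p.2) (𝒰 ×ˢ 𝓝 z) (𝓝 0)) :
    Cv (𝒰 : Filter ι) g (fun _ => sI 0) ∨ ∃ c, ∀ z, LC (𝒰 : Filter ι) g z c := by
  rcases zalcman 𝒰 h.rg with ⟨t, ht⟩ | ⟨a, ρ, a0, G, h1, h2, h3, h4, h5, h6⟩
  · rcases ht.cases h.rg with rfl | ⟨c, rfl⟩ | ⟨G, h1, h2, rfl⟩
    · exact Or.inl ht
    · exact Or.inr ⟨c, ht.lc_const h.rg⟩
    · exact (h.not_nc_of_zero hH ht h1 h2).elim
  · refine ((h.rescale h1 h2 h3).not_nc_of_zero (fun z => ?_) h6 h4 h5).elim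
    refine ((hH a0).comp (tendsto_rescale h1 h3 z)).congr fun p => ?_
    simp only [Function.comp, mul_div_mul_left _ _ (h2 _)]

/-- Families on which `u`, `w` converge and `u / w` is locally injective with non-zero limit. -/
structure Tame (l : Filter ι) (u w : ι → ℂ → ℂ) : Prop where
  tu : ∀ z, ∃ c, Tendsto (fun p : ι × ℂ => u p.1 p.2) (l ×ˢ 𝓝 z) (𝓝 c)
  tw : ∀ z, ∃ c, Tendsto (fun p : ι × ℂ => w p.1 p.2) (l ×ˢ 𝓝 z) (𝓝 c)
  tH : ∀ z, ∃ c ≠ 0, Tendsto (fun p : ι × ℂ => u p.1 p.2 / w p.1 p.2) (l ×ˢ 𝓝 z) (𝓝 c)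
  inj : ∀ z, ∃ r > 0, ∀ᶠ n in l, InjOn (fun x => u n x / w n x) (ball z r)

/-- The rescaled form of `Tame`. -/
structure Flat (l : Filter ι) (u w : ι → ℂ → ℂ) (c : ℂ) : Prop where
  tu : ∀ z, Tendsto (fun p : ι × ℂ => u p.1 p.2) (l ×ˢ 𝓝 z) (𝓝 0)
  tw : ∀ z, Tendsto (fun p : ι × ℂ => w p.1 p.2) (l ×ˢ 𝓝 z) (𝓝 0)
  ne : c ≠ 0
  tH : ∀ z, Tendsto (fun p : ι × ℂ => u p.1 p.2 / w p.1 p.2) (l ×ˢ 𝓝 z) (𝓝 c)
  inj : ∀ R, ∀ᶠ n in l, InjOn (fun x => u n x / w n x) (ball 0 R)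

lemma Flat.tame {c : ℂ} (h : Flat l u w c) : Tame l u w :=
  ⟨fun z => ⟨0, h.tu z⟩, fun z => ⟨0, h.tw z⟩, fun z => ⟨c, h.ne, h.tH z⟩, fun z =>
    ⟨1, one_pos, (h.inj (‖z‖ + 1)).mono fun _ hn => hn.mono
      (ball_subset_ball' (by simp [add_comm]))⟩⟩

lemma neg_div_neg_swap (x y : ℂ) : -y / -x = (x / y)⁻¹ := by rw [neg_div_neg_eq, inv_div]

lemma Tame.swap (h : Tame l u w) : Tame l (fun n z => -w n z) (fun n z => -u n z) := by
  refine ⟨fun z => ?_, fun z => ?_, fun z => ?_, fun z => ?_⟩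
  · obtain ⟨c, hc⟩ := h.tw z; exact ⟨_, hc.neg⟩
  · obtain ⟨c, hc⟩ := h.tu z; exact ⟨_, hc.neg⟩
  · obtain ⟨c, hc, hc'⟩ := h.tH z
    exact ⟨c⁻¹, inv_ne_zero hc, by simpa only [neg_div_neg_swap] using hc'.inv₀ hc⟩
  · obtain ⟨r, hr, hr'⟩ := h.inj z
    refine ⟨r, hr, hr'.mono fun n hn x hx y hy hxy => hn hx hy ?_⟩
    simpa only [neg_div_neg_swap, inv_inj] using hxy

lemma Flat.swap {c : ℂ} (h : Flat l u w c) :
    Flat l (fun n z => -w n z) (fun n z => -u n z) c⁻¹ := by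
  refine ⟨fun z => by simpa using (h.tw z).neg, fun z => by simpa using (h.tu z).neg,
    inv_ne_zero h.ne, fun z => ?_, fun R => ?_⟩
  · simpa only [neg_div_neg_swap] using (h.tH z).inv₀ h.ne
  · refine (h.inj R).mono fun n hn x hx y hy hxy => hn hx hy ?_
    simpa only [neg_div_neg_swap, inv_inj] using hxy

lemma eventually_mapsTo {a ρ : ι → ℂ} {a0 : ℂ} (ha : Tendsto a l (𝓝 a0))
    (hρ : Tendsto ρ l (𝓝 0)) {r : ℝ} (hr : 0 < r) (R : ℝ) :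
    ∀ᶠ n in l, ∀ x ∈ ball (0 : ℂ) R, a n + ρ n * x ∈ ball a0 r := by
  have := eventually_forall_compact (l := l) (isCompact_closedBall (0 : ℂ) R)
    (Q := fun n x => a n + ρ n * x ∈ ball a0 r) fun x _ =>
      (tendsto_snd.comp (tendsto_rescale ha hρ x)).eventually (ball_mem_nhds a0 hr)
  exact this.mono fun n hn x hx => hn x (ball_subset_closedBall hx)

lemma Tame.rescale (h : Tame l u w) {a ρ : ι → ℂ} {a0 : ℂ} (ha : Tendsto a l (𝓝 a0))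
    (hρ0 : ∀ n, ρ n ≠ 0) (hρ : Tendsto ρ l (𝓝 0)) :
    ∃ c, Flat l (fun n x => ρ n * u n (a n + ρ n * x)) (fun n x => ρ n * w n (a n + ρ n * x)) c := by
  obtain ⟨c1, h1⟩ := h.tu a0
  obtain ⟨c2, h2⟩ := h.tw a0
  obtain ⟨c, hc, h3⟩ := h.tH a0
  obtain ⟨r, hr, h4⟩ := h.inj a0
  refine ⟨c, fun z => ?_, fun z => ?_, hc, fun z => ?_, fun R => ?_⟩
  · simpa using (hρ.comp tendsto_fst).mul (h1.comp (tendsto_rescale ha hρ z))
  · simpa using (hρ.comp tendsto_fst).mul (h2.comp (tendsto_rescale ha hρ z))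
  · refine (h3.comp (tendsto_rescale ha hρ z)).congr fun p => ?_
    simp only [Function.comp, mul_div_mul_left _ _ (hρ0 _)]
  · filter_upwards [h4, eventually_mapsTo ha hρ hr R] with n hn hn' x hx y hy hxy
    simp only [mul_div_mul_left _ _ (hρ0 _)] at hxy
    exact mul_left_cancel₀ (hρ0 n) (add_left_cancel (hn (hn' x hx) (hn' y hy) hxy))

/-- Two points in disjoint neighbourhoods. -/
lemma two_points {φ : ι → ℂ → ℂ} {Φ : ℂ → ℂ} [l.NeBot] {z1 z2 : ℂ} (hz : z1 ≠ z2)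
    (h1 : Loc l φ Φ z1) (h2 : Loc l φ Φ z2) (n1 : ¬∀ᶠ x in 𝓝 z1, Φ x = Φ z1)
    (n2 : ¬∀ᶠ x in 𝓝 z2, Φ x = Φ z2) {Q : ι → ℂ → Prop} (hQ : ∀ z, ∀ᶠ p in l ×ˢ 𝓝 z, Q p.1 p.2) :
    ∃ R, ∀ᶠ n in l, ∃ x1 ∈ ball (0 : ℂ) R, ∃ x2 ∈ ball (0 : ℂ) R, x1 ≠ x2 ∧ φ n x1 = Φ z1 ∧
      φ n x2 = Φ z2 ∧ (Q n x1 ∧ AnalyticAt ℂ (φ n) x1) ∧ Q n x2 ∧ AnalyticAt ℂ (φ n) x2 := by
  obtain ⟨V1, V2, o1, o2, m1, m2, hd⟩ := t2_separation hz
  refine ⟨‖z1‖ + ‖z2‖ + 1, ?_⟩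
  have b1 : ball (0 : ℂ) (‖z1‖ + ‖z2‖ + 1) ∈ 𝓝 z1 :=
    isOpen_ball.mem_nhds (by rw [mem_ball_zero_iff]; linarith [norm_nonneg z2])
  have b2 : ball (0 : ℂ) (‖z1‖ + ‖z2‖ + 1) ∈ 𝓝 z2 :=
    isOpen_ball.mem_nhds (by rw [mem_ball_zero_iff]; linarith [norm_nonneg z1])
  filter_upwards [h1.hurwitz n1 (Q := fun n x => Q n x ∧ AnalyticAt ℂ (φ n) x)
      ((hQ z1).and h1.lc.an) (inter_mem (o1.mem_nhds m1) b1),
    h2.hurwitz n2 (Q := fun n x => Q n x ∧ AnalyticAt ℂ (φ n) x) ((hQ z2).and h2.lc.an)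
      (inter_mem (o2.mem_nhds m2) b2)] with n ⟨x1, a1, a2, a3⟩ ⟨x2, a4, a5, a6⟩
  refine ⟨x1, a1.2, x2, a4.2, ?_, a2, a5, a3, a6⟩
  rintro rfl
  exact hd.notMem_of_mem_left a1.1 a4.1

lemma Flat.false [l.NeBot] (h : Fam l C f g u w) {c : ℂ} (hF : Flat l u w c) {s : ℂ → ℂ × ℝ}
    {G : ℂ → ℂ} (hf : Cv l f s) (hg : Cv l g (sph G)) (rG : Reg G) (nG : NC G) : False := by
  obtain ⟨z1, -, a1, r1⟩ := nG.exists_root rG C 0
  obtain ⟨z2, hz, a2, r2⟩ := nG.exists_root rG C z1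
  obtain ⟨F, rF, rfl⟩ : ∃ F, Reg F ∧ s = sph F := by
    refine (CCv.isHol (fun n => (h.rf n).isHol) hf).exists_reg.resolve_left fun h1 => ?_
    have := limit_root h.pair hf hg nG a1 r1
    rw [h1] at this
    exact s0_ne_sI_zero _ this.symm
  have aF : AnalyticAt ℂ F z1 := (sph_eq_s0.1 (limit_root h.pair hf hg nG a1 r1)).1
  have hFG : ∀ᶠ x in 𝓝[≠] z1, F x = G x := by
    filter_upwards [rF.eventually_an z1, rG.eventually_an z1, nG.deriv_ne a1] with x b1 b2 b3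
    have := limit_odeg h.pair hf hg b1 b2 (hF.tw x)
    rw [zero_mul] at this
    exact sub_eq_zero.1 ((mul_eq_zero.1 this).resolve_left b3)
  have hFG' : ∀ᶠ x in 𝓝 z1, F x = G x := (aF.frequently_eq_iff_eventually_eq a1).1 hFG.frequently
  obtain ⟨x, b1, b2, b3, b4, b5⟩ := ((rF.eventually_an z1).and ((rG.eventually_an z1).and
    ((nG.deriv_ne a1).and ((nG.P_ne rG C z1).and
      (eventually_nhdsWithin_of_eventually_nhds hFG'.eventually_nhds))))).exists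
  have hc : c = 1 := by
    have e1 := hf.loc h.rf b1
    have e2 := hg.loc h.rg b2
    have e3 := tendsto_nhds_unique_of_eventuallyEq
      ((hF.tH x).mul (e2.deriv.lc.mul (e1.lc.comp C.differentiable_P)).lim)
      (e1.deriv.lc.mul (e2.lc.comp C.differentiable_P)).lim (by
        filter_upwards [e1.lc.an, h.nz x] with p hp hp'
        have d1 := (h.pair p.1).odef _ hp
        have d2 := (h.pair p.1).odeg _ hp
        have d3 := hp'.2
        field_simp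
        linear_combination deriv (f p.1) p.2 * d2 - deriv (g p.1) p.2 * d1)
    have e4 : deriv F x = deriv G x := EventuallyEq.deriv_eq b5
    rw [e4, b5.self_of_nhds] at e3
    exact mul_right_cancel₀ (mul_ne_zero b3 b4) (by rw [e3, one_mul])
  subst hc
  obtain ⟨R, hR⟩ := two_points (l := l) hz (hg.loc h.rg a2) (hg.loc h.rg a1)
    (nG.not_eventually _ _) (nG.not_eventually _ _)
    (Q := fun n x => (u n x ≠ 0 ∧ w n x ≠ 0) ∧ ‖u n x / w n x - 1‖ < 1 / 2) fun z => by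
      have := ((hF.tH z).sub_const 1).norm
      rw [sub_self, norm_zero] at this
      exact (h.nz z).and (this.eventually (gt_mem_nhds (by norm_num)))
  obtain ⟨n, ⟨x1, m1, x2, m2, hx, v1, v2, q1, q2⟩, hinj⟩ := (hR.and (hF.inj R)).exists
  have key : ∀ y, C.P (g n y) = 0 → ((u n y ≠ 0 ∧ w n y ≠ 0) ∧ ‖u n y / w n y - 1‖ < 1 / 2) ∧
      AnalyticAt ℂ (g n) y → u n y / w n y = 1 := by
    rintro y hy ⟨⟨⟨c1, c2⟩, c3⟩, c4⟩
    have c5 := ((h.pair n).pole y).2 c4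
    have c6 := (h.pair n).share _ c5 (Or.inr hy)
    obtain ⟨m, hm, c7 | c7⟩ := (h.pair n).root_local c5 (by rw [c6]; exact hy) c1
    · rw [c7.2.2, mul_div_cancel_right₀ _ c2] at c3 ⊢
      have c8 : (m : ℝ) - 1 < 1 / 2 := by
        have : ((m : ℂ) - 1) = ((m : ℝ) - 1 : ℝ) := by push_cast; ring
        rw [this, Complex.norm_real] at c3
        exact (le_abs_self _).trans_lt c3
      have c9 : m < 2 := by
        have : (m : ℝ) < 2 := by linarith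
        exact_mod_cast this
      obtain rfl : m = 1 := by omega
      simp
    · have hm0 : (0 : ℝ) < m := by exact_mod_cast hm
      have c10 : u n y / w n y = ((m : ℝ)⁻¹ : ℝ) := by
        rw [c7.2.2]; push_cast; field_simp
      rw [c10] at c3 ⊢
      have c8 : 1 - (m : ℝ)⁻¹ < 1 / 2 := by
        have : (((m : ℝ)⁻¹ : ℝ) : ℂ) - 1 = ((m : ℝ)⁻¹ - 1 : ℝ) := by push_cast; ring
        rw [this, Complex.norm_real, Real.norm_eq_abs, abs_sub_comm] at c3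
        exact (le_abs_self _).trans_lt c3
      have c9 : m < 2 := by
        have c11 : (2 : ℝ)⁻¹ < (m : ℝ)⁻¹ := by linarith
        rw [inv_lt_inv₀ two_pos hm0] at c11
        exact_mod_cast c11
      obtain rfl : m = 1 := by omega
      simp
  exact hx (hinj m1 m2 ((key x1 (by rw [v1]; exact r2) q1).trans
    (key x2 (by rw [v2]; exact r1) q2).symm))

lemma Tame.exists_cv (𝒰 : Ultrafilter ι) (h : Fam (𝒰 : Filter ι) C f g u w)
    (hT : Tame (𝒰 : Filter ι) u w) : ∃ t, Cv (𝒰 : Filter ι) g t := by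
  refine (zalcman 𝒰 h.rg).resolve_right ?_
  rintro ⟨a, ρ, a0, G, h1, h2, h3, h4, h5, h6⟩
  have h7 := h.rescale h1 h2 h3
  obtain ⟨c, h8⟩ := hT.rescale h1 h2 h3
  rcases zalcman 𝒰 h7.rf with ⟨s, hs⟩ | ⟨a', ρ', a0', F, k1, k2, k3, k4, k5, k6⟩
  · exact h8.false h7 hs h6 h4 h5
  · obtain ⟨c', k8⟩ := h8.tame.rescale k1 k2 k3
    exact k8.swap.false (h7.rescale k1 k2 k3).swap (h6.rescale k1 k2 k3) k6 k4 k5

/-- Normality of tame families. -/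
theorem Tame.normal (𝒰 : Ultrafilter ι) (h : Fam (𝒰 : Filter ι) C f g u w)
    (hT : Tame (𝒰 : Filter ι) u w) :
    ∃ s t, Cv (𝒰 : Filter ι) f s ∧ Cv (𝒰 : Filter ι) g t := by
  obtain ⟨t, ht⟩ := hT.exists_cv 𝒰 h
  obtain ⟨s, hs⟩ := hT.swap.exists_cv 𝒰 h.swap
  exact ⟨s, t, hs, ht⟩

end Pool.Agent.Lib.MP_bb1814_an
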