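import Mathlib
import Pool.Agent.Lib.MP_bb1814_an.Normal

/-!
Limits of translates of a model solution.
-/

namespace Pool.Agent.Lib.MP_bb1814_an

open Filter Topology Set Metric

variable {ι : Type*} {l : Filter ι} {C : Cub}

lemma Pair.trans {f g u w : ℂ → ℂ} (hP : Pair C f g u w) (c : ℂ) :
    Pair C (fun z => f (c + z)) (fun z => g (c + z)) (fun z => u (c + z)) (fun z => w (c + z)) := by
  simpa using hP.aff c one_ne_zero

lemma analyticAt_trans_iff (f : ℂ → ℂ) (c z : ℂ) :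
    AnalyticAt ℂ (fun x => f (c + x)) z ↔ AnalyticAt ℂ f (c + z) := by
  simpa using analyticAt_aff_iff (f := f) c one_ne_zero z

lemma Reg.mul_unit {f v : ℂ → ℂ} (hf : Reg f) (hv : Differentiable ℂ v) (h0 : ∀ z, v z ≠ 0) :
    Reg fun z => v z * f z :=
  ⟨fun z => (hv.analyticAt z).meromorphicAt.mul (hf.mero z), fun z hz =>
    (hv.analyticAt z).mul (hf.an z (by
      rwa [← meromorphicOrderAt_mul_of_ne_zero (hv.analyticAt z) (h0 z)]))⟩

/-- A property that holds off a discrete set for each member holds frequently. -/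
lemma freq_of_dense [l.NeBot] {Q : ι → ℂ → Prop} {z : ℂ} (h : ∀ n, ∀ᶠ x in 𝓝[≠] z, Q n x) :
    ∃ᶠ p in l ×ˢ 𝓝 z, Q p.1 p.2 := by
  intro hcon
  obtain ⟨A, hA, V, hV, hAV⟩ := mem_prod_iff.1 hcon
  obtain ⟨n, hn⟩ := l.nonempty_of_mem hA
  obtain ⟨x, h1, h2⟩ := ((h n).and (eventually_nhdsWithin_of_eventually_nhds hV)).exists
  exact hAV (mk_mem_prod hn h2) h1

/-- An analytic solution of a linear equation has no zero of finite order. -/
lemma zero_of_ode {F A : ℂ → ℂ} {z : ℂ} (hF : AnalyticAt ℂ F z) (h0 : F z = 0)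
    (hne : meromorphicOrderAt F z ≠ ⊤) (hA : ContinuousAt A z)
    (h : ∀ᶠ x in 𝓝 z, deriv F x = A x * F x) : False := by
  obtain ⟨m, φ, hφ, hφ0, -, h1, h2⟩ := exists_local_form hF h0 hne
  have h3 : (fun x => (m + 1) * φ x + (x - z) * deriv φ x) =ᶠ[𝓝[≠] z]
      fun x => A x * ((x - z) * φ x) := by
    filter_upwards [nhdsWithin_le_nhds h1, nhdsWithin_le_nhds h2, nhdsWithin_le_nhds h,
      self_mem_nhdsWithin] with x e1 e2 e3 hx
    apply mul_left_cancel₀ (pow_ne_zero m (sub_ne_zero.2 hx))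
    rw [e1, e2] at e3
    linear_combination e3
  have c1 := hφ.continuousAt
  have c2 := hφ.deriv.continuousAt
  have h4 := eq_of_nhdsNE (by fun_prop) (by fun_prop) h3
  simp only [sub_self, zero_mul, add_zero, mul_zero] at h4
  exact mul_ne_zero (by exact_mod_cast m.succ_ne_zero) hφ0 h4

/-- The reciprocal of a solution of the Riccati equation does not tend to zero. -/
lemma ric_inv_false [l.NeBot] {q X A B : ι → ℂ → ℂ} {z : ℂ} (hq : ∀ᶠ x in 𝓝 z, LC l q x 0)
    (hA : LC l A z 0) (hB : LC l B z 0)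
    (h : ∀ᶠ p in l ×ˢ 𝓝 z, q p.1 p.2 * X p.1 p.2 = 1 ∧ AnalyticAt ℂ (X p.1) p.2 ∧
      deriv (X p.1) p.2 = X p.1 p.2 + X p.1 p.2 ^ 2 + A p.1 p.2 * X p.1 p.2 + B p.1 p.2) :
    False := by
  have h1 := Loc.deriv_const hq
  have h2 := hq.self_of_nhds
  have h3 := ((h2.add (LC.const 1 z)).add ((hA.mul h2).add (hB.mul (h2.pow 2)))).neg
  have h4 := h1.unique h3 (Eventually.frequently (by
    filter_upwards [h, h2.an, eventually_prod_inner (Q := fun n x => q n x * X n x = 1)
      (h.mono fun p hp => hp.1)] with p ⟨e1, e2, e3⟩ e4 e5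
    have e6 := (e4.differentiableAt.hasDerivAt.mul e2.differentiableAt.hasDerivAt).unique
      ((hasDerivAt_const p.2 (1 : ℂ)).congr_of_eventuallyEq e5)
    rw [e3] at e6
    linear_combination (q p.1 p.2) * e6 - (deriv (q p.1) p.2 + q p.1 p.2 + 1 +
      q p.1 p.2 * X p.1 p.2 + A p.1 p.2 * q p.1 p.2) * e1))
  simp at h4

/-- Model solutions. -/
structure MP (C : Cub) (R S v : ℂ → ℂ) : Prop where
  pair : Pair C R S v fun z => (v z)⁻¹
  ne : ∀ z, v z ≠ 0
  dv : ∀ z, HasDerivAt v (v z) z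

namespace MP

variable {R S v : ℂ → ℂ} {z : ℂ}

lemma trans (h : MP C R S v) (c : ℂ) :
    MP C (fun z => R (c + z)) (fun z => S (c + z)) (fun z => v (c + z)) :=
  ⟨h.pair.trans c, fun _ => h.ne _, fun z => (h.dv (c + z)).comp_const_add c z⟩

lemma odeS (h : MP C R S v) (hz : AnalyticAt ℂ R z) :
    deriv S z * (v z * (R z - S z)) = C.P (S z) := by
  have h1 := h.pair.odeg z hz
  have h2 := h.ne z
  field_simp at h1
  linear_combination h1

lemma odeX (h : MP C R S v) (hz : AnalyticAt ℂ R z) :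
    deriv (fun x => v x * (R x - S x)) z = v z * (R z - S z) + (v z * (R z - S z)) ^ 2 +
      3 * v z * S z * (v z * (R z - S z)) +
      (v z ^ 2 * (3 * S z ^ 2 + C.al) + (v z ^ 3 - v z) * deriv S z) := by
  have hS := (h.pair.pole z).1 hz
  have hv := h.pair.du.analyticAt z
  have c1 := (hv.mul (hz.sub hS)).deriv.continuousAt
  have c2 := hv.continuousAt
  have c3 := hz.continuousAt
  have c4 := hS.continuousAt
  have c5 := hS.deriv.continuousAt
  refine eq_of_nhdsNE (F := deriv fun x => v x * (R x - S x))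
    (G := fun z => v z * (R z - S z) + (v z * (R z - S z)) ^ 2 +
      3 * v z * S z * (v z * (R z - S z)) +
      (v z ^ 2 * (3 * S z ^ 2 + C.al) + (v z ^ 3 - v z) * deriv S z)) c1 (by fun_prop) ?_
  filter_upwards [h.pair.rf.eventually_an z, (meromorphicOrderAt_ne_top_iff_eventually_ne_zero
    ((h.pair.rf.mero z).sub (h.pair.rg.mero z))).1 (h.pair.ne z)] with x hx hx'
  have e1 := ((h.dv x).mul (hx.differentiableAt.hasDerivAt.sub
    ((h.pair.pole x).1 hx).differentiableAt.hasDerivAt)).deriv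
  have e2 := h.pair.odef x hx
  have e3 := h.odeS hx
  rw [C.P_eq] at e2 e3
  apply mul_left_cancel₀ hx'
  simp only [Pi.sub_apply] at e1 ⊢
  rw [show deriv (fun x => v x * (R x - S x)) x = _ from e1]
  linear_combination v x * e2 - v x ^ 2 * e3

lemma odeY (h : MP C R S v) (hz : AnalyticAt ℂ R z) :
    deriv (fun x => v x * R x) z = v z * R z + (v z * R z) ^ 2 + v z * S z * (v z * R z) +
      (v z ^ 2 * (S z ^ 2 + C.al) + v z ^ 3 * deriv S z) := by
  have hS := (h.pair.pole z).1 hz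
  have e1 := h.odeX hz
  have e2 : deriv (fun x => v x * (R x - S x)) z = _ := ((h.dv z).mul
    (hz.differentiableAt.hasDerivAt.sub hS.differentiableAt.hasDerivAt)).deriv
  have e3 : deriv (fun x => v x * R x) z = _ :=
    ((h.dv z).mul hz.differentiableAt.hasDerivAt).deriv
  rw [e2] at e1
  rw [e3]
  simp only [Pi.sub_apply] at e1
  linear_combination e1

end MP

variable {f g v : ι → ℂ → ℂ}

lemma mp_fam (h : ∀ n, MP C (f n) (g n) (v n)) : Fam l C f g v fun n z => (v n z)⁻¹ :=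
  ⟨fun n => (h n).pair, fun _ => Eventually.of_forall fun p =>
    ⟨(h p.1).ne _, inv_ne_zero ((h p.1).ne _)⟩⟩

lemma root_of_fin [l.NeBot] (h : ∀ n, MP C (f n) (g n) (v n)) (hv : LC l v 0 0) {a : ℂ}
    (hg : ∀ z, LC l g z a) : C.P a = 0 := by
  by_contra ha
  have h1 : ∀ z, LC l (fun n => deriv (g n)) z 0 := fun z =>
    Loc.deriv_const (Eventually.of_forall hg)
  have h2 : ∀ z, LC l (fun n x => deriv (g n) x / C.P (g n x)) z 0 := fun z => by
    simpa using (h1 z).div ((hg z).comp C.differentiable_P) ha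
  refine ric_inv_false (z := 0) (X := fun n x => v n x * (f n x - g n x))
    (A := fun n x => 3 * v n x * g n x)
    (B := fun n x => v n x ^ 2 * (3 * g n x ^ 2 + C.al) + (v n x ^ 3 - v n x) * deriv (g n) x)
    (Eventually.of_forall h2) ?_ ?_ ?_
  · simpa using ((LC.const 3 0).mul hv).mul (hg 0)
  · simpa using ((hv.pow 2).mul (((LC.const 3 0).mul ((hg 0).pow 2)).add (LC.const C.al 0))).add
      (((hv.pow 3).sub hv).mul (h1 0))
  · filter_upwards [(hg 0).an, ((hg 0).comp C.differentiable_P).ne ha] with p hp hp'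
    have h3 := ((h p.1).pair.pole p.2).2 hp
    refine ⟨?_, ((h p.1).pair.du.analyticAt _).mul (h3.sub hp), (h p.1).odeX h3⟩
    rw [div_mul_eq_mul_div, (h p.1).odeS h3, div_self hp']

lemma not_inf [l.NeBot] (h : ∀ n, MP C (f n) (g n) (v n)) (hv : ∀ z, LC l v z 0)
    (hg : Cv l g fun _ => sI 0) : False := by
  set Q : ℂ → ℂ := fun t => 1 + C.al * t ^ 2 + C.be * t ^ 3 with hQ
  have dQ : Differentiable ℂ Q := by simp only [hQ]; fun_prop
  have Q0 : Q 0 = 1 := by simp [hQ]
  have h1 : ∀ z, LC l (fun n => rcp (g n)) z 0 := fun z =>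
    hg.lc_inf (fun n => (h n).pair.rg) rfl
  have h2 : ∀ z, LC l (fun n => deriv (rcp (g n))) z 0 := fun z =>
    Loc.deriv_const (Eventually.of_forall h1)
  set D : ι → ℂ → ℂ := fun n x => Q (rcp (g n) x) - v n x * deriv (rcp (g n)) x with hD
  have h3 : ∀ z, LC l D z 1 := fun z => by
    simpa [Q0] using ((h1 z).comp dQ).sub ((hv z).mul (h2 z))
  set q : ι → ℂ → ℂ := fun n x => -(rcp (g n) x * deriv (rcp (g n)) x) / D n x with hq
  have h4 : ∀ z, LC l q z 0 := fun z => by
    simpa using ((h1 z).mul (h2 z)).neg.div (h3 z) one_ne_zero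
  have h5 := Loc.deriv_const (z := 0) (Eventually.of_forall h4)
  have h6 := ((h4 0).add h5).mul ((h1 0).comp dQ)
  have h7 := ((((hv 0).mul (h4 0)).comp dQ).mul (h3 0)).neg
  have key : ∀ n y, AnalyticAt ℂ (f n) y → f n y ≠ 0 → g n y ≠ 0 →
      rcp (g n) y = (g n y)⁻¹ ∧ deriv (rcp (g n)) y = -deriv (g n) y / g n y ^ 2 ∧
      D n y = v n y * f n y * deriv (g n) y / g n y ^ 3 ∧
      (D n y ≠ 0 → q n y = (f n y)⁻¹ / v n y) := by
    intro n y a1 a2 a3
    have a4 := ((h n).pair.pole y).1 a1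
    have a5 : rcp (g n) =ᶠ[𝓝 y] fun x => (g n x)⁻¹ :=
      a4.eventually_analyticAt.mono fun x hx => rcp_of_an hx
    have a6 : deriv (rcp (g n)) y = -deriv (g n) y / g n y ^ 2 := by
      rw [a5.deriv_eq]; exact (a4.differentiableAt.hasDerivAt.inv a3).deriv
    have a7 := (h n).odeS a1
    rw [C.P_eq] at a7
    have a8 : D n y = v n y * f n y * deriv (g n) y / g n y ^ 3 := by
      simp only [hD, hQ, a6, rcp_of_an a4]
      field_simp
      linear_combination -a7
    refine ⟨rcp_of_an a4, a6, a8, fun a9 => ?_⟩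
    have a10 := (h n).ne y
    simp only [hq]
    rw [div_eq_iff a9, a8, a6, rcp_of_an a4]
    field_simp
  have h8 := h6.unique h7 (((freq_of_dense (z := 0)
    (Q := fun n y => AnalyticAt ℂ (f n) y ∧ f n y ≠ 0 ∧ g n y ≠ 0) fun n =>
      ((h n).pair.rf.eventually_an 0).and ((NC.ne (h n).pair.ncf (h n).pair.rf 0 0).and
        (NC.ne (h n).pair.ncg (h n).pair.rg 0 0))).and_eventually
      (eventually_prod_inner (Q := fun n x => D n x ≠ 0) ((h3 0).ne one_ne_zero))).mono (by
    rintro ⟨n, y⟩ ⟨⟨a1, a2, a3⟩, a4⟩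
    simp only at a1 a2 a3 a4 ⊢
    have a5 := ((h n).pair.pole y).1 a1
    have a6 : q n =ᶠ[𝓝 y] fun x => (f n x)⁻¹ / v n x := by
      filter_upwards [a1.eventually_analyticAt, a1.continuousAt.eventually_ne a2,
        a5.continuousAt.eventually_ne a3, a4] with x b1 b2 b3 b4
      exact (key n x b1 b2 b3).2.2.2 b4
    have a7 := (h n).ne y
    have a8 : deriv (q n) y = _ := a6.deriv_eq.trans
      ((a1.differentiableAt.hasDerivAt.inv a2).div ((h n).dv y) a7).deriv
    obtain ⟨b1, -, b3, -⟩ := key n y a1 a2 a3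
    have e2 := (h n).pair.odef y a1
    have e3 := (h n).odeS a1
    rw [C.P_eq] at e2 e3
    rw [a8, a6.self_of_nhds, b1, b3]
    simp only [hQ, Pi.inv_apply]
    field_simp
    linear_combination deriv (f n) y * e3 - v n y * deriv (g n) y * e2))
  simp [Q0] at h8

/-- Far to the left the second function tends to a root. -/
lemma left_root (𝒰 : Ultrafilter ι) (h : ∀ n, MP C (f n) (g n) (v n))
    (hv : ∀ z, LC (𝒰 : Filter ι) v z 0) : ∃ a, C.P a = 0 ∧ ∀ z, LC (𝒰 : Filter ι) g z a := by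
  rcases (mp_fam h).const_of_zero 𝒰 (fun z => by
    have := (hv z).lim.mul (hv z).lim
    simpa using this) with h1 | ⟨a, ha⟩
  · exact (not_inf h hv h1).elim
  · exact ⟨a, root_of_fin h (hv 0) ha, ha⟩

/-- Far to the left `v R` tends to `0` or `-1`. -/
lemma left_y (𝒰 : Ultrafilter ι) (h : ∀ n, MP C (f n) (g n) (v n))
    (hv : ∀ z, LC (𝒰 : Filter ι) v z 0) {a : ℂ} (hg : ∀ z, LC (𝒰 : Filter ι) g z a) :
    LC (𝒰 : Filter ι) (fun n x => v n x * f n x) 0 0 ∨
      LC (𝒰 : Filter ι) (fun n x => v n x * f n x) 0 (-1) := by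
  set y : ι → ℂ → ℂ := fun n x => v n x * f n x with hy
  have ry : ∀ n, Reg (y n) := fun n => (h n).pair.rf.mul_unit (h n).pair.du (h n).ne
  set A : ι → ℂ → ℂ := fun n x => v n x * g n x with hA
  set B : ι → ℂ → ℂ := fun n x => v n x ^ 2 * (g n x ^ 2 + C.al) + v n x ^ 3 * deriv (g n) x
    with hB
  have h1 : ∀ z, LC (𝒰 : Filter ι) (fun n => deriv (g n)) z 0 := fun z =>
    Loc.deriv_const (Eventually.of_forall hg)
  have lA : ∀ z, LC (𝒰 : Filter ι) A z 0 := fun z => by simpa using (hv z).mul (hg z)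
  have lB : ∀ z, LC (𝒰 : Filter ι) B z 0 := fun z => by
    simpa using (((hv z).pow 2).mul (((hg z).pow 2).add (LC.const C.al z))).add
      (((hv z).pow 3).mul (h1 z))
  have hode : ∀ z, ∀ᶠ p in (𝒰 : Filter ι) ×ˢ 𝓝 z, AnalyticAt ℂ (y p.1) p.2 ∧
      deriv (y p.1) p.2 = y p.1 p.2 + y p.1 p.2 ^ 2 + A p.1 p.2 * y p.1 p.2 + B p.1 p.2 :=
    fun z => (hg z).an.mono fun p hp => by
      have h3 := ((h p.1).pair.pole p.2).2 hp
      exact ⟨((h p.1).pair.du.analyticAt _).mul h3, (h p.1).odeY h3⟩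
  have hlim : ∀ {Y : ℂ → ℂ} {z : ℂ}, Loc (𝒰 : Filter ι) y Y z → deriv Y z = Y z + Y z ^ 2 := by
    intro Y z hY
    have := hY.deriv.lc.unique (((hY.lc.add (hY.lc.pow 2)).add ((lA z).mul hY.lc)).add (lB z))
      ((hode z).mono fun p hp => hp.2).frequently
    simpa using this
  rcases zalcman 𝒰 ry with ⟨t, ht⟩ | ⟨c, ρ, c0, Y, k1, k2, k3, k4, k5, k6⟩
  · rcases ht.cases ry with rfl | ⟨c, rfl⟩ | ⟨Y, rY, nY, rfl⟩
    · refine (ric_inv_false (X := y) (Eventually.of_forall fun z => ht.lc_inf ry rfl) (lA 0) (lB 0)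
        ?_).elim
      filter_upwards [hode 0, ht.snd_ne_one (z := 0) rfl] with p hp hp'
      refine ⟨?_, hp⟩
      rw [rcp_of_an hp.1, inv_mul_cancel₀ (hp' hp.1)]
    · have h2 := hlim (ht.loc ry (z := 0) analyticAt_const)
      have h3 : c * (c + 1) = 0 := by
        rw [deriv_const] at h2; linear_combination -h2
      rcases mul_eq_zero.1 h3 with rfl | h4
      · exact Or.inl (ht.lc_const ry 0)
      · obtain rfl : c = -1 := eq_neg_of_add_eq_zero_left h4
        exact Or.inr (ht.lc_const ry 0)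
    · have aY : ∀ z, AnalyticAt ℂ Y z := fun z => by_contra fun hz =>
        ht.freq_pole ry rY hz ((hode z).mono fun p hp h1 => h1 hp.1)
      have hY : ∀ z, deriv Y z = Y z + Y z ^ 2 := fun z => hlim (ht.loc ry (aY z))
      refine (nY.not_const (picard2' (fun z => (aY z).differentiableAt) (a := 0) (b := -1)
        (by norm_num) 0 fun z _ => ⟨fun h0 => ?_, fun h0 => ?_⟩)).elim
      · refine zero_of_ode (A := fun x => 1 + Y x) (aY z) h0 (by simpa using nY 0 z)
          (continuousAt_const.add (aY z).continuousAt) (Eventually.of_forall fun x => ?_)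
        rw [hY]; ring
      · refine zero_of_ode (F := fun x => Y x - -1) (A := Y) ((aY z).sub analyticAt_const)
          (by simp [h0]) (nY _ z) (aY z).continuousAt (Eventually.of_forall fun x => ?_)
        rw [deriv_sub_const, hY]; ring
  · exfalso
    obtain ⟨z, a1⟩ := (k4.eventually_an 0).exists
    obtain ⟨x, b1, b2⟩ := ((k4.eventually_an z).and (k5.deriv_ne a1)).exists
    have e1 := k6.loc (fun n => (ry n).aff _ (k2 n)) b1
    have e2 := (LC.of_tendsto k3 x).mul (((e1.lc.add (e1.lc.pow 2)).add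
      (((lA c0).rescale k1 k3 x).mul e1.lc)).add ((lB c0).rescale k1 k3 x))
    refine b2 ((e1.deriv.lc.unique e2 (Eventually.frequently ?_)).trans (zero_mul _))
    filter_upwards [(tendsto_rescale k1 k3 x).eventually (hode c0)] with p hp
    rw [deriv_aff _ _ _ hp.1.differentiableAt, hp.2]

end Pool.Agent.Lib.MP_bb1814_an
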