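import Mathlib
import Pool.Agent.Lib.MP_bb1814_an.AsymA

/-!
Asymptotics of model solutions.
-/

namespace Pool.Agent.Lib.MP_bb1814_an

open Filter Topology Set Metric Complex

variable {ι : Type*} {l : Filter ι} {C : Cub}

/-- The filter of left half-planes. -/
def LF : Filter ℂ := comap re atBot

lemma eventually_LF {Q : ℂ → Prop} : (∀ᶠ z in LF, Q z) ↔ ∃ L : ℝ, ∀ z : ℂ, z.re < -L → Q z := by
  rw [LF, eventually_comap, eventually_atBot]
  constructor
  · rintro ⟨a, ha⟩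
    exact ⟨-a, fun z hz => ha z.re (by linarith) z rfl⟩
  · rintro ⟨L, hL⟩
    exact ⟨-L - 1, fun b hb z hz => hL z (by linarith)⟩

instance : LF.NeBot := by
  rw [← forall_mem_nonempty_iff_neBot]
  intro s hs
  obtain ⟨L, hL⟩ := eventually_LF.1 hs
  exact ⟨((-L - 1 : ℝ) : ℂ), hL _ (by simp)⟩

lemma tendsto_add_LF (z : ℂ) : Tendsto (fun p : ℂ × ℂ => p.1 + p.2) (LF ×ˢ 𝓝 z) LF := by
  rw [LF, tendsto_comap_iff]
  have h1 : Tendsto (fun p : ℂ × ℂ => p.1.re) (comap re atBot ×ˢ 𝓝 z) atBot :=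
    tendsto_comap.comp tendsto_fst
  have h2 : Tendsto (fun p : ℂ × ℂ => p.2.re) (comap re atBot ×ˢ 𝓝 z) (𝓝 z.re) :=
    (continuous_re.tendsto z).comp tendsto_snd
  exact h1.atBot_add h2

lemma tendsto_exp_LF (v0 : ℂ) : Tendsto (fun z => v0 * exp z) LF (𝓝 0) := by
  simpa [LF] using tendsto_exp_comap_re_atBot.const_mul v0

lemma lc_trans {F : ℂ → ℂ} {a : ℂ} (h1 : ∀ᶠ z in LF, AnalyticAt ℂ F z) (h2 : Tendsto F LF (𝓝 a))
    {l : Filter ℂ} (hl : l ≤ LF) (z : ℂ) : LC l (fun c x => F (c + x)) z a := by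
  have h3 := (tendsto_add_LF z).mono_left (Filter.prod_mono_left _ hl)
  exact ⟨(h3.eventually h1).mono fun p hp => (analyticAt_trans_iff F p.1 p.2).2 hp, h2.comp h3⟩

/-- A continuous function that accumulates only at finitely many values has a limit. -/
lemma tendsto_of_finite {φ : ℂ → ℂ} {T : Set ℂ} (hT : T.Finite)
    (hc : ∀ᶠ z in LF, ContinuousAt φ z)
    (h : ∀ ε > 0, ∀ᶠ z in LF, ∃ a ∈ T, φ z ∈ ball a ε) : ∃ a ∈ T, Tendsto φ LF (𝓝 a) := by
  obtain ⟨δ, hδ, hsep⟩ : ∃ δ > 0, ∀ a ∈ T, ∀ b ∈ T, dist a b < 2 * δ → a = b := by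
    obtain ⟨δ, h1, h2⟩ := hT.relatively_discrete
    obtain ⟨δ', h3, h4, h5⟩ := ENNReal.lt_iff_exists_real_btwn.1 h1
    have h6 : 0 < δ' := ENNReal.ofReal_pos.1 h4
    refine ⟨δ' / 2, half_pos h6, fun a ha b hb hab => by_contra fun hne => ?_⟩
    have h7 := h5.trans_le (h2 a ha b hb hne)
    rw [edist_dist, ENNReal.ofReal_lt_ofReal_iff_of_nonneg h3] at h7
    linarith
  obtain ⟨L, hL⟩ := eventually_LF.1 (hc.and (h δ hδ))
  obtain ⟨a, ha, ha'⟩ := (hL ((-L - 1 : ℝ) : ℂ) (by simp)).2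
  have hpre : IsPreconnected (φ '' {z : ℂ | z.re < -L}) :=
    (convex_halfSpace_re_lt (-L)).isPreconnected.image φ fun z hz =>
      (hL z hz).1.continuousWithinAt
  have hsub := hpre.subset_left_of_subset_union (u := ball a δ)
    (v := ⋃ b ∈ T \ {a}, ball b δ) isOpen_ball (isOpen_biUnion fun _ _ => isOpen_ball)
    (by
      rw [disjoint_iUnion₂_right]
      intro b hb
      refine ball_disjoint_ball (le_of_not_gt fun h1 => hb.2 ?_)
      exact (hsep a ha b hb.1 (by linarith)).symm)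
    (by
      rintro _ ⟨z, hz, rfl⟩
      obtain ⟨b, hb, hb'⟩ := (hL z hz).2
      by_cases hab : b = a
      · exact Or.inl (hab ▸ hb')
      · exact Or.inr (mem_biUnion (show b ∈ T \ {a} from ⟨hb, hab⟩) hb'))
    ⟨_, mem_image_of_mem φ (show ((-L - 1 : ℝ) : ℂ).re < -L by simp), ha'⟩
  refine ⟨a, ha, Metric.tendsto_nhds.2 fun ε hε => ?_⟩
  filter_upwards [h (min ε δ) (lt_min hε hδ), eventually_LF.2 ⟨L, fun z hz => hz⟩] with z hz hz'
  obtain ⟨b, hb, hb'⟩ := hz
  have h1 : dist (φ z) a < δ := hsub ⟨z, hz', rfl⟩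
  have h2 : dist (φ z) b < min ε δ := hb'
  obtain rfl : a = b := hsep a ha b hb (by
    linarith [dist_triangle_left a b (φ z), min_le_right ε δ])
  exact h2.trans_le (min_le_left _ _)

/-- A bounded function that is much smaller than its derivative vanishes. -/
lemma zero_of_small {τ : ℂ → ℂ} {L M : ℝ} (h1 : ∀ z : ℂ, z.re < -L → AnalyticAt ℂ τ z ∧ ‖τ z‖ ≤ M)
    (h2 : ∀ δ > 0, ∀ᶠ z in LF, ‖τ z‖ ≤ δ * ‖deriv τ z‖) (z : ℂ) (hz : z.re ≤ -L - 1) : τ z = 0 := by
  have key : ∀ δ > 0, ∃ L', ∀ j : ℕ, ∀ z : ℂ, z.re < -L' - j → ‖τ z‖ ≤ M * δ ^ j := by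
    intro δ hδ
    obtain ⟨L1, hL1⟩ := eventually_LF.1 (h2 δ hδ)
    refine ⟨max L L1, fun j => ?_⟩
    have m1 := le_max_left L L1
    have m2 := le_max_right L L1
    induction j with
    | zero => intro z hz; simpa using (h1 z (by push_cast at hz; linarith)).2
    | succ j ih =>
      intro z hz
      push_cast at hz
      have hj : (0 : ℝ) ≤ j := j.cast_nonneg
      have hb : ∀ x ∈ closedBall z 1, x.re < -max L L1 - j := fun x hx => by
        have := (abs_re_le_norm (x - z)).trans (mem_closedBall_iff_norm.1 hx)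
        rw [sub_re, abs_le] at this
        linarith [this.2]
      have hd : DiffContOnCl ℂ τ (ball z 1) := by
        refine DifferentiableOn.diffContOnCl fun x hx => ?_
        rw [closure_ball z one_ne_zero] at hx
        exact (h1 x (by linarith [hb x hx])).1.differentiableAt.differentiableWithinAt
      have h3 := norm_deriv_le_of_forall_mem_sphere_norm_le one_pos hd fun x hx =>
        ih x (hb x (sphere_subset_closedBall hx))
      calc ‖τ z‖ ≤ δ * ‖deriv τ z‖ := hL1 z (by linarith)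
        _ ≤ δ * (M * δ ^ j / 1) := by gcongr
        _ = M * δ ^ (j + 1) := by ring
  have hM : 0 ≤ M := (norm_nonneg _).trans (h1 z (by linarith)).2
  set F : ℂ → ℂ := fun x => τ (-L - 1 - x) with hF
  have hre : ∀ x : ℂ, 0 ≤ x.re → (-L - 1 - x : ℂ).re < -L := fun x hx => by
    simp only [sub_re, neg_re, ofReal_re, one_re]; linarith
  have h3 := PhragmenLindelof.eq_zero_on_right_half_plane_of_superexponential_decay (f := F)
    (by
      refine DifferentiableOn.diffContOnCl fun x hx => ?_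
      rw [closure_setOfPred_lt_re] at hx
      exact ((h1 _ (hre x hx)).1.differentiableAt.comp x
        (by fun_prop)).differentiableWithinAt)
    ⟨0, two_pos, 0, by
      refine Asymptotics.IsBigO.of_bound M ?_
      refine eventually_inf_principal.2 (Eventually.of_forall fun x hx => ?_)
      simpa using (h1 _ (hre x (le_of_lt hx))).2⟩
    (by
      intro n
      obtain ⟨L', hL'⟩ := key (Real.exp (-(n + 1))) (Real.exp_pos _)
      have h4 : Tendsto (fun x : ℝ => M * Real.exp ((n + 1) * (L' - L + 1)) * Real.exp (-x)) atTop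
          (𝓝 0) := by
        simpa using Real.tendsto_exp_neg_atTop_nhds_zero.const_mul
          (M * Real.exp ((n + 1) * (L' - L + 1)))
      refine squeeze_zero' (Eventually.of_forall fun x => by positivity) ?_ h4
      filter_upwards [eventually_ge_atTop (L' - L)] with x hx
      have h5 := hL' ⌊x - (L' - L)⌋₊ (-L - 1 - x) (by
        simp only [sub_re, neg_re, ofReal_re, one_re]
        linarith [Nat.floor_le (sub_nonneg.2 hx)])
      have h6 := Nat.lt_floor_add_one (x - (L' - L))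
      have hn : (0 : ℝ) ≤ n := n.cast_nonneg
      calc Real.exp x ^ n * ‖F x‖ ≤ Real.exp x ^ n * (M * Real.exp (-(n + 1)) ^ ⌊x - (L' - L)⌋₊) := by
            gcongr
        _ = M * Real.exp (n * x + ⌊x - (L' - L)⌋₊ * -(n + 1)) := by
            rw [Real.exp_add, Real.exp_nat_mul, Real.exp_nat_mul]; ring
        _ ≤ M * Real.exp ((n + 1) * (L' - L + 1) + -x) := by
            refine mul_le_mul_of_nonneg_left (Real.exp_le_exp.2 ?_) hM
            nlinarith
        _ = _ := by rw [Real.exp_add]; ring)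
    ⟨M, fun x => (h1 _ (hre _ (by simp))).2⟩
  have h4 := h3 (x := -L - 1 - z) (by
    simp only [mem_ofPred_eq, sub_re, neg_re, ofReal_re, one_re]; linarith)
  simpa [hF] using h4

lemma mp_exp {R S : ℂ → ℂ} {v0 : ℂ} (hv0 : v0 ≠ 0)
    (hP : Pair C R S (fun z => v0 * exp z) fun z => (v0 * exp z)⁻¹) :
    MP C R S fun z => v0 * exp z :=
  ⟨hP, fun z => mul_ne_zero hv0 (exp_ne_zero z), fun z => (hasDerivAt_exp z).const_mul v0⟩

theorem left_asym {R S : ℂ → ℂ} {v0 : ℂ} (hv0 : v0 ≠ 0)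
    (hP : Pair C R S (fun z => v0 * exp z) fun z => (v0 * exp z)⁻¹) :
    ∃ a, C.P a = 0 ∧ ∀ ε > 0, ∃ L : ℝ, ∀ z : ℂ, z.re < -L →
      AnalyticAt ℂ R z ∧ ‖S z - a‖ < ε ∧ ‖v0 * exp z * R z + 1‖ < ε := by
  have hM := mp_exp hv0 hP
  set v : ℂ → ℂ := fun z => v0 * exp z with hv
  have tv : Tendsto v LF (𝓝 0) := tendsto_exp_LF v0
  have lv : ∀ 𝒰 : Ultrafilter ℂ, ↑𝒰 ≤ LF → ∀ z, LC (𝒰 : Filter ℂ) (fun c x => v (c + x)) z 0 :=
    fun 𝒰 h z => lc_trans (Eventually.of_forall hP.du.analyticAt) tv h z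
  have h1 : ∀ ε > 0, ∀ᶠ z in LF, AnalyticAt ℂ S z ∧ ∃ a ∈ range C.e, S z ∈ ball a ε := by
    intro ε hε
    refine mem_iff_ultrafilter.2 fun 𝒰 h𝒰 => ?_
    obtain ⟨a, ha, h2⟩ := left_root 𝒰 hM.trans (lv 𝒰 h𝒰)
    obtain ⟨i, rfl⟩ := C.P_eq_zero_iff.1 ha
    have h3 := (tendsto_at_pt 0).eventually ((h2 0).an.and
      ((h2 0).lim.eventually (ball_mem_nhds _ hε)))
    refine h3.mono fun c hc => ⟨?_, _, ⟨i, rfl⟩, by simpa using hc.2⟩
    simpa using (analyticAt_trans_iff S c 0).1 hc.1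
  have aS : ∀ᶠ z in LF, AnalyticAt ℂ S z := (h1 1 one_pos).mono fun z hz => hz.1
  have aR : ∀ᶠ z in LF, AnalyticAt ℂ R z := aS.mono fun z hz => (hP.pole z).2 hz
  obtain ⟨a, ⟨i, rfl⟩, ha⟩ := tendsto_of_finite (finite_range C.e)
    (aS.mono fun z hz => hz.continuousAt) fun ε hε => (h1 ε hε).mono fun z hz => hz.2
  obtain ⟨k, hk, hk'⟩ := tendsto_of_finite (φ := fun z => v z * R z) (T := {0, -1})
    (toFinite _) (aR.mono fun z hz => hP.du.continuous.continuousAt.mul hz.continuousAt) (by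
      intro ε hε
      refine mem_iff_ultrafilter.2 fun 𝒰 h𝒰 => ?_
      rcases left_y 𝒰 hM.trans (lv 𝒰 h𝒰) (lc_trans aS ha h𝒰) with h2 | h2
      · exact (h2.at_pt.eventually (ball_mem_nhds _ hε)).mono fun c hc =>
          ⟨0, by simp, by simpa using hc⟩
      · exact (h2.at_pt.eventually (ball_mem_nhds _ hε)).mono fun c hc =>
          ⟨-1, by simp, by simpa using hc⟩)
  have tS : Tendsto (fun z => ‖S z - C.e i‖) LF (𝓝 0) := tendsto_iff_norm_sub_tendsto_zero.1 ha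
  rcases hk with rfl | rfl
  · exfalso
    obtain ⟨b, c, hab, hac, -, -, hfac⟩ := C.exists_factor (C.P_e i)
    have h2 : Tendsto (fun z => v z * (R z - S z) / ((S z - b) * (S z - c))) LF (𝓝 0) := by
      have := (hk'.sub (tv.mul ha)).div ((ha.sub_const b).mul (ha.sub_const c))
        (mul_ne_zero (sub_ne_zero.2 hab) (sub_ne_zero.2 hac))
      simp only [zero_mul, sub_self, zero_div] at this
      refine this.congr fun z => ?_
      simp only [Pi.div_apply]; ring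
    obtain ⟨L, hL⟩ := eventually_LF.1 (aS.and (tS.eventually (ge_mem_nhds one_pos)))
    have h3 := zero_of_small (τ := fun z => S z - C.e i) (L := L) (M := 1)
      (fun z hz => ⟨(hL z hz).1.sub analyticAt_const, (hL z hz).2⟩) (fun δ hδ => by
        have h4 := h2.norm
        rw [norm_zero] at h4
        filter_upwards [h4.eventually (ge_mem_nhds hδ), aR,
          ha.eventually_ne hab, ha.eventually_ne hac] with z e1 e2 e3 e4
        have e5 := hM.odeS e2
        have e6 : S z - C.e i = v z * (R z - S z) / ((S z - b) * (S z - c)) * deriv S z := by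
          have := sub_ne_zero.2 e3
          have := sub_ne_zero.2 e4
          rw [hfac] at e5
          field_simp
          linear_combination -e5
        rw [deriv_sub_const, e6, norm_mul]
        gcongr)
    refine NC.not_eventually hP.ncg (C.e i) ((-L - 2 : ℝ) : ℂ) ?_
    have h5 : ∀ᶠ z : ℂ in 𝓝 ((-L - 2 : ℝ) : ℂ), z.re < -L - 1 :=
      continuous_re.continuousAt.eventually_lt continuousAt_const (by simp)
    exact h5.mono fun z hz => sub_eq_zero.1 (h3 z hz.le)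
  · refine ⟨C.e i, C.P_e i, fun ε hε => eventually_LF.1 (aR.and ((tS.eventually
      (gt_mem_nhds hε)).and ?_))⟩
    have := tendsto_iff_norm_sub_tendsto_zero.1 hk'
    simpa using this.eventually (gt_mem_nhds hε)

lemma Cv.ne_inf_of_bdd [l.NeBot] {f : ι → ℂ → ℂ} {t : ℂ → ℂ × ℝ} (h : Cv l f t) {z : ℂ} {M : ℝ}
    (hM : ∀ᶠ n in l, AnalyticAt ℂ (f n) z ∧ ‖f n z‖ ≤ M) : t z ≠ sI 0 := by
  intro h0
  have h1 := (continuous_snd.tendsto _).comp ((h z).comp (tendsto_at_pt z))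
  have h2 : (1 + M ^ 2)⁻¹ ≤ (t z).2 := ge_of_tendsto h1 (hM.mono fun n hn => by
    simp only [Function.comp, sph_of_an hn.1, s0]
    gcongr
    exact hn.2)
  rw [h0, sI_zero] at h2
  exact absurd h2 (not_le.2 (by positivity))

lemma exp_two_inj (z : ℂ) : InjOn (fun x => exp x ^ 2) (ball z 1) := by
  intro x hx y hy h
  simp only [← exp_nat_mul] at h
  obtain ⟨n, hn⟩ := exp_eq_exp_iff_exists_int.1 h
  have h1 : ‖x - y‖ < 2 := by
    have := dist_triangle_right x y z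
    rw [mem_ball] at hx hy
    rw [← dist_eq_norm]; linarith
  have h2 : x - y = n * (Real.pi * I) := by push_cast at hn; linear_combination hn / 2
  rw [h2, norm_mul, norm_mul, norm_I, norm_intCast, norm_real, Real.norm_of_nonneg Real.pi_pos.le,
    mul_one] at h1
  have h3 : |(n : ℝ)| < 1 := by nlinarith [Real.pi_gt_three, abs_nonneg (n : ℝ)]
  have h4 : n = 0 := by
    have : |n| < 1 := by exact_mod_cast h3
    exact Int.abs_lt_one_iff.1 this
  rw [h4] at h2
  exact sub_eq_zero.1 (by simpa using h2)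

lemma exists_exp_limit (𝒰 : Ultrafilter ι) {c : ι → ℂ} {L : ℝ} (hc : ∀ n, |(c n).re| ≤ L) :
    ∃ k ≠ 0, Tendsto (fun n => exp (c n)) 𝒰 (𝓝 k) := by
  obtain ⟨k, -, hk⟩ := (isCompact_closedBall (0 : ℂ) (Real.exp L)).ultrafilter_le_nhds
    (𝒰.map fun n => exp (c n)) (by
      rw [le_principal_iff, Ultrafilter.coe_map, mem_map]
      refine Eventually.of_forall fun n => mem_closedBall_zero_iff.2 ?_
      rw [norm_exp]
      exact Real.exp_le_exp.2 (abs_le.1 (hc n)).2)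
  have hk' : Tendsto (fun n => exp (c n)) 𝒰 (𝓝 k) := hk
  refine ⟨k, norm_pos_iff.1 ((Real.exp_pos (-L)).trans_le (ge_of_tendsto' hk'.norm fun n => ?_)), hk'⟩
  rw [norm_exp]
  exact Real.exp_le_exp.2 (abs_le.1 (hc n)).1

theorem strip_bound {R S : ℂ → ℂ} {v0 : ℂ} (hv0 : v0 ≠ 0)
    (hP : Pair C R S (fun z => v0 * exp z) fun z => (v0 * exp z)⁻¹) (L : ℝ) :
    ∃ M : ℝ, ∀ z : ℂ, |z.re| ≤ L → ∃ ρ : ℝ, 0 < ρ ∧ ρ ≤ 1 ∧ ∀ ζ ∈ sphere z ρ,
      AnalyticAt ℂ R ζ ∧ ‖R ζ‖ ≤ M ∧ ‖S ζ‖ ≤ M ∧ ‖deriv R ζ‖ ≤ M ∧ ‖deriv S ζ‖ ≤ M := by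
  by_contra hcon
  simp only [not_exists, not_forall] at hcon
  choose c hc hc' using fun n : ℕ => hcon n
  have hM := mp_exp hv0 hP
  set 𝒰 := hyperfilter ℕ
  obtain ⟨k, hk, hk'⟩ := exists_exp_limit 𝒰 hc
  have hF := mp_fam (l := (𝒰 : Filter ℕ)) fun n => hM.trans (c n)
  have tv : ∀ z, Tendsto (fun p : ℕ × ℂ => v0 * exp (c p.1 + p.2)) (𝒰 ×ˢ 𝓝 z)
      (𝓝 (v0 * (k * exp z))) := fun z => by
    simp only [exp_add]
    exact ((hk'.comp tendsto_fst).mul ((continuous_exp.tendsto z).comp tendsto_snd)).const_mul v0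
  have nv : ∀ z, v0 * (k * exp z) ≠ 0 := fun z => mul_ne_zero hv0 (mul_ne_zero hk (exp_ne_zero z))
  obtain ⟨s, t, hs, ht⟩ := Tame.normal 𝒰 hF ⟨fun z => ⟨_, tv z⟩, fun z => ⟨_, (tv z).inv₀ (nv z)⟩,
    fun z => ⟨_, div_ne_zero (nv z) (inv_ne_zero (nv z)),
      (tv z).div ((tv z).inv₀ (nv z)) (inv_ne_zero (nv z))⟩,
    fun z => ⟨1, one_pos, Eventually.of_forall fun n x hx y hy h => exp_two_inj z hx hy (by
      simp only [div_inv_eq_mul, exp_add] at h
      apply mul_left_cancel₀ (pow_ne_zero 2 (mul_ne_zero hv0 (exp_ne_zero (c n))))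
      linear_combination h)⟩⟩
  obtain ⟨a, -, ha⟩ := left_asym hv0 hP
  obtain ⟨L0, hL0⟩ := ha 1 one_pos
  set z0 : ℂ := ((-L0 - L - 1 : ℝ) : ℂ) with hz0
  have h1 := fun n => hL0 (c n + z0) (by
    simp only [hz0, add_re, ofReal_re]; linarith [(abs_le.1 (hc n)).2])
  have h2 : t z0 ≠ sI 0 := ht.ne_inf_of_bdd (M := ‖a‖ + 1) (Eventually.of_forall fun n =>
    ⟨(analyticAt_trans_iff S _ _).2 ((hP.pole _).1 (h1 n).1), by
      linarith [(h1 n).2.1, norm_le_insert' (S (c n + z0)) a]⟩)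
  have h3 : s z0 ≠ sI 0 := hs.ne_inf_of_bdd (M := 2 * (‖(v0 * (k * exp z0))⁻¹‖ + 1)) (by
    filter_upwards [(((tv z0).inv₀ (nv z0)).norm.comp (tendsto_at_pt z0)).eventually
      (ge_mem_nhds (lt_add_one _))] with n hn
    refine ⟨(analyticAt_trans_iff R _ _).2 (h1 n).1, ?_⟩
    have e1 : R (c n + z0) = (v0 * exp (c n + z0) * R (c n + z0)) * (v0 * exp (c n + z0))⁻¹ := by
      have := hM.ne (c n + z0)
      field_simp
    have e2 : ‖v0 * exp (c n + z0) * R (c n + z0)‖ ≤ 2 := by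
      have := norm_sub_le (v0 * exp (c n + z0) * R (c n + z0) + 1) 1
      rw [add_sub_cancel_right, norm_one] at this
      linarith [(h1 n).2.2]
    rw [e1, norm_mul]
    exact mul_le_mul e2 hn (norm_nonneg _) zero_le_two)
  obtain ⟨F, rF, rfl⟩ := (CCv.isHol (fun n => (hF.rf n).isHol) hs).exists_reg.resolve_left
    fun h => h3 (by rw [h])
  obtain ⟨G, rG, rfl⟩ := (CCv.isHol (fun n => (hF.rg n).isHol) ht).exists_reg.resolve_left
    fun h => h2 (by rw [h])
  obtain ⟨r, hr, hr'⟩ := nhds_basis_closedBall.eventually_iff.1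
    (eventually_nhdsWithin_iff.1 ((rF.eventually_an 0).and (rG.eventually_an 0)))
  have hρ : 0 < min r 1 := lt_min hr one_pos
  have h4 : ∀ x ∈ sphere (0 : ℂ) (min r 1), AnalyticAt ℂ F x ∧ AnalyticAt ℂ G x := fun x hx =>
    hr' (closedBall_subset_closedBall (min_le_left _ _) (sphere_subset_closedBall hx)) (by
      rintro rfl
      exact hρ.ne (by simpa using hx))
  obtain ⟨M, hM'⟩ := (isCompact_sphere (0 : ℂ) (min r 1)).exists_bound_of_continuousOn
    (f := fun x => (F x, G x, deriv F x, deriv G x)) fun x hx =>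
      ((h4 x hx).1.continuousAt.prodMk ((h4 x hx).2.continuousAt.prodMk
        ((h4 x hx).1.deriv.continuousAt.prodMk
          (h4 x hx).2.deriv.continuousAt))).continuousWithinAt
  have h5 := eventually_forall_compact (l := (𝒰 : Filter ℕ)) (isCompact_sphere (0 : ℂ) (min r 1))
    (Q := fun n x => AnalyticAt ℂ (fun x => R (c n + x)) x ∧
      ‖(R (c n + x), S (c n + x), deriv (fun x => R (c n + x)) x,
        deriv (fun x => S (c n + x)) x)‖ ≤ M + 1) fun x hx => by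
      have e1 := hs.loc hF.rf (h4 x hx).1
      have e2 := ht.loc hF.rg (h4 x hx).2
      exact e1.lc.an.and ((e1.lc.lim.prodMk_nhds (e2.lc.lim.prodMk_nhds
        (e1.deriv.lc.lim.prodMk_nhds e2.deriv.lc.lim))).norm.eventually
        (ge_mem_nhds ((hM' x hx).trans_lt (lt_add_one _))))
  have h6 : ∀ᶠ n : ℕ in (𝒰 : Filter ℕ), M + 1 ≤ n :=
    (tendsto_natCast_atTop_atTop.mono_left Nat.hyperfilter_le_atTop).eventually_ge_atTop _
  obtain ⟨n, e1, e2⟩ := (h5.and h6).exists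
  refine hc' n (min r 1) ⟨hρ, min_le_right _ _, fun ζ hζ => ?_⟩
  obtain ⟨e3, e4⟩ := e1 (ζ - c n) (by simpa [dist_eq_norm] using hζ)
  simp only [analyticAt_trans_iff, deriv_comp_const_add, add_sub_cancel, Prod.norm_def,
    max_le_iff] at e3 e4
  exact ⟨e3, e4.1.trans e2, e4.2.1.trans e2, e4.2.2.1.trans e2, e4.2.2.2.trans e2⟩

end Pool.Agent.Lib.MP_bb1814_an
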