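import Mathlib
import Pool.Agent.Lib.MP_bb1814_an.Basic

/-!
Statements that connect the parts of the proof.
-/

namespace Pool.Agent.Lib.MP_bb1814_an

open Filter Topology Set Metric

/-- The points where `F` takes a root of the cubic with a multiplicity different from that
of `G`. -/
def NonCM (C : Cub) (F G : ℂ → ℂ) : Set ℂ :=
  {z | AnalyticAt ℂ F z ∧ C.P (F z) = 0 ∧
    meromorphicOrderAt (fun x => F x - F z) z ≠ meromorphicOrderAt (fun x => G x - F z) z}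

/-- The logarithmic counting function of a set of points (same as `Nb`). -/
noncomputable def Nb0 (X : Set ℂ) (r : ℝ) : ℝ :=
  ∑ᶠ z, (X ∩ closedBall 0 r).indicator (fun z => Real.log r - Real.log ‖z‖) z

/-- A pair has no sequence of good points. -/
def LocalFalse : Prop :=
  ∀ (C : Cub) (f g u w : ℂ → ℂ), Pair C f g u w →
    (∀ M0 : ℕ, ∃ M : ℕ, M0 ≤ M ∧ ∃ (y η : ℂ) (ρ : ℝ) (p : ℕ), 2 ≤ p ∧ p ≤ 48 ∧
      AnalyticAt ℂ f y ∧ C.P (f y) = 0 ∧ (u y = p * w y ∨ w y = p * u y) ∧ η ≠ 0 ∧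
      5 * (M : ℝ) ^ 2 ≤ ρ * ‖η‖ ∧ ‖η‖ ≤ Real.exp (2 * (M : ℝ) ^ 2) * ‖w y‖ ∧
      ∀ z ∈ ball y ρ, u z ≠ 0 ∧ w z ≠ 0 ∧ ‖deriv u z / u z - η‖ ≤ ‖η‖ / M ∧
        ‖deriv w z / w z + η‖ ≤ ‖η‖ / M) → False

/-- The points with different multiplicities cannot carry a fixed share of the characteristic. -/
def PairMany : Prop :=
  ∀ (C : Cub) (F G u w : ℂ → ℂ), Pair C F G u w → ∀ (ι : Type) [Fintype ι] (φ : ι → ℂ → ℂ),
    (∀ j, Meromorphic (φ j)) → (∀ j z, meromorphicOrderAt (φ j) z ≠ ⊤) →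
    (∀ j, ∃ c : ℝ, ∀ r : ℝ, 1 ≤ r → ValueDistribution.characteristic (φ j) ⊤ r ≤
      ValueDistribution.characteristic F ⊤ r + ValueDistribution.characteristic G ⊤ r + c) →
    ∀ K : ℝ, (∀ ρ E : ℝ, 1 ≤ ρ → 1 ≤ E →
      (∀ j, ∀ z : ℂ, ‖z‖ = ρ → meromorphicOrderAt (φ j) z = 0 ∧
        (AnalyticAt ℂ (φ j) z → ‖deriv (φ j) z / φ j z‖ ≤ E)) →
      ValueDistribution.characteristic F ⊤ ρ + ValueDistribution.characteristic G ⊤ ρ ≤
        8 * Nb0 (NonCM C F G) ρ + K * Real.log E + K) → False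

end Pool.Agent.Lib.MP_bb1814_an
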