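import Pool.Agent.Lib.MP_bb1814_an.SelectB

/-!
The selection lemma: among many solutions of `u = p w` one is good.
-/

namespace Pool.Agent.Lib.MP_bb1814_an

open Filter Topology Set Metric

namespace Sel

namespace Hyp

variable {M : ℕ} {r : ℝ} {u w : ℂ → ℂ} {B : Finset ℂ}

/-- Numerical lower bound used in the zero count. -/
lemma kappa (h : Hyp M r u w B) {s e : ℝ} (hs : s = r * Real.exp (-M) / 12)
    (he : Real.exp (-M) * (s / (2 * (M + 1)) / (4 * r)) ^ M ≤ e) :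
    Real.exp (-(3 * (M : ℝ) ^ 2)) ≤ 5 / 12 * e * (s / (250 * (M : ℝ) ^ 2)) := by
  have hM := h.MR
  have hr := h.hr
  have hbig := exp_big h.hM
  have hE := Real.exp_pos (M : ℝ)
  have hE' := Real.exp_pos (-(M : ℝ))
  have hinv : Real.exp (-M) * Real.exp M = 1 := by
    rw [← Real.exp_add, neg_add_cancel, Real.exp_zero]
  have h1 : Real.exp (-M) * Real.exp (-M) ≤ s / (2 * (M + 1)) / (4 * r) := by
    have e1 : s / (2 * (M + 1)) / (4 * r) = Real.exp (-M) * (1 / (96 * (M + 1))) := by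
      rw [hs]
      field_simp
      ring
    rw [e1]
    refine mul_le_mul_of_nonneg_left ?_ hE'.le
    rw [le_div_iff₀ (by positivity)]
    have h2 : 96 * ((M : ℝ) + 1) ≤ Real.exp M := by nlinarith
    calc _ ≤ Real.exp (-M) * Real.exp M := mul_le_mul_of_nonneg_left h2 hE'.le
      _ = 1 := hinv
  have h2 : Real.exp (-M) * Real.exp (-M) ≤ 5 / 12 * (s / (250 * (M : ℝ) ^ 2)) := by
    have e1 : 5 / 12 * (s / (250 * (M : ℝ) ^ 2)) = Real.exp (-M) * (r / (7200 * (M : ℝ) ^ 2)) := by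
      rw [hs]
      field_simp
      ring
    rw [e1]
    refine mul_le_mul_of_nonneg_left ?_ hE'.le
    rw [le_div_iff₀ (by positivity)]
    calc _ ≤ Real.exp (-M) * Real.exp M := mul_le_mul_of_nonneg_left hbig hE'.le
      _ = 1 := hinv
      _ ≤ r := hr
  have h3 : Real.exp (-M) * (Real.exp (-M) * Real.exp (-M)) ^ M ≤ e := by
    refine le_trans ?_ he
    gcongr
  have h4 := mul_le_mul h3 h2 (by positivity) ((by positivity : (0 : ℝ) ≤ _).trans h3)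
  refine le_trans ?_ (h4.trans (le_of_eq (by ring)))
  rw [← Real.exp_add, ← Real.exp_nat_mul, ← Real.exp_add, ← Real.exp_add]
  refine Real.exp_le_exp.2 ?_
  nlinarith

/-- Few solutions lie very close to a point of `B`. -/
lemma near (h : Hyp M r u w B) {p : ℂ} {b : ℂ} {s : ℝ} (hs : s = r * Real.exp (-M) / 12)
    {S : Finset ℂ} (hS : ∀ y ∈ S, ‖y‖ ≤ r ∧ u y = p * w y ∧ ‖y - b‖ ≤ s) :
    (S.card : ℝ) ≤ 8 * (M : ℝ) ^ 2 := by
  rcases S.eq_empty_or_nonempty with rfl | ⟨y0, hy0⟩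
  · simp
  have hM := h.MR
  have hr := h.hr
  have hbig := exp_big h.hM
  have hE := Real.exp_pos (M : ℝ)
  have hE' := Real.exp_pos (-(M : ℝ))
  have hinv : Real.exp (-M) * Real.exp M = 1 := by
    rw [← Real.exp_add, neg_add_cancel, Real.exp_zero]
  have hs0 : 0 < s := by rw [hs]; positivity
  have hAs : Real.exp M / r * s = 1 / 12 := by
    rw [hs]
    calc Real.exp M / r * (r * Real.exp (-M) / 12) = Real.exp (-M) * Real.exp M / 12 := by
          field_simp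
      _ = 1 / 12 := by rw [hinv]
  have hsM : 10 * s ≤ r / M := by
    rw [le_div_iff₀ (by linarith), hs]
    have h1 : (M : ℝ) ≤ Real.exp M := by nlinarith
    have h2 := mul_le_mul_of_nonneg_left h1 hE'.le
    rw [hinv] at h2
    have h3 := mul_le_mul_of_nonneg_left h2 h.rpos.le
    linarith
  have hball : ∀ c : ℂ, ‖c - b‖ ≤ 2 * s →
      closedBall c (6 * s) ⊆ ball (0 : ℂ) (r * (1 + 1 / M)) := by
    intro c hc z hz
    have hzc : ‖z - c‖ ≤ 6 * s := by simpa [dist_eq_norm] using hz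
    obtain ⟨h1, -, h2⟩ := hS y0 hy0
    have h3 : ‖z‖ ≤ ‖y0‖ + ‖z - y0‖ := norm_le_insert' _ _
    have h4 : ‖z - y0‖ ≤ ‖z - c‖ + ‖c - y0‖ := norm_sub_le_norm_sub_add_norm_sub _ _ _
    have h5 : ‖c - y0‖ ≤ ‖c - b‖ + ‖b - y0‖ := norm_sub_le_norm_sub_add_norm_sub _ _ _
    rw [norm_sub_rev b y0] at h5
    rw [mem_ball_zero_iff, mul_add, mul_one, mul_one_div]
    linarith
  obtain ⟨c1, hc1, hB1⟩ := far_point h.card b hs0
  set d1 := s / (2 * ((M : ℝ) + 1)) with hd1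
  set s3 := s / (250 * (M : ℝ) ^ 2) with hs3
  have hd1p : 0 < d1 := by positivity
  have hs3p : 0 < s3 := by positivity
  have hd1s : d1 ≤ s := div_le_self hs0.le (by linarith)
  have hd1r : d1 ≤ r := h.le_r (by linarith)
  have h16 : 16 * M * s3 ≤ d1 := by
    rw [hs3, hd1, ← mul_div_assoc, div_le_div_iff₀ (by positivity) (by positivity)]
    have : 16 * (M : ℝ) * (2 * (M + 1)) ≤ 250 * (M : ℝ) ^ 2 := by nlinarith
    have := mul_le_mul_of_nonneg_left this hs0.le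
    linarith
  have hs3d : s3 ≤ d1 / 2 := by nlinarith
  have hsub1 : closedBall c1 (d1 / 2) ⊆ ball (0 : ℂ) (r * (1 + 1 / M)) :=
    (closedBall_subset_closedBall (by linarith)).trans (hball c1 (by linarith))
  have hc1D := hsub1 (mem_closedBall_self (half_pos hd1p).le)
  have he1 : ‖eta u w c1‖ * s ≤ 5 * (M : ℝ) ^ 2 := by
    have h1 := mul_le_mul_of_nonneg_right (h.eta_le hc1D hd1p hB1) hs0.le
    have e : (M : ℝ) / d1 * s = 2 * M * (M + 1) := by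
      rw [hd1]
      field_simp
    rw [add_mul, hAs, e] at h1
    nlinarith
  have h25 : 25 * ‖eta u w c1‖ * s3 ≤ 1 := by
    rw [hs3, ← mul_div_assoc, div_le_one (by positivity)]
    nlinarith
  have hc2 : c1 + (s3 : ℂ) ∈ closedBall c1 s3 := by
    simp [abs_of_pos hs3p]
  obtain ⟨hl1, hl2⟩ := h.loc hd1p hd1r hsub1 hB1 hs3p.le h16 h25 _ hc2
  rw [add_sub_cancel_left, Complex.norm_real, Real.norm_eq_abs, abs_of_pos hs3p] at hl1
  have hk := h.kappa hs (h.est c1 hc1D d1 hd1p hd1r hB1).2.2.1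
  rw [← hs3] at hk
  set κ := Real.exp (-(3 * (M : ℝ) ^ 2)) with hκ
  have hκp : 0 < κ := Real.exp_pos _
  have hex : ∃ c0 ∈ closedBall c1 s3, κ * ‖u c0 / w c0‖ ≤ ‖u c0 / w c0 - p‖ := by
    set H1 := u c1 / w c1
    set H2 := u (c1 + s3) / w (c1 + s3)
    have h1 : ‖H2 - H1‖ ≤ ‖H2 - p‖ + ‖H1 - p‖ := by
      have := norm_sub_le (H2 - p) (H1 - p)
      simpa using this
    have h2 : ‖H2‖ ≤ ‖H1‖ + ‖H2 - H1‖ := norm_le_insert' _ _
    have h3 := mul_le_mul_of_nonneg_right hk (norm_nonneg H1)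
    have h4 : 0 ≤ κ * ‖H1‖ := by positivity
    rcases le_total ‖H2 - p‖ ‖H1 - p‖ with h5 | h5
    · refine ⟨c1, mem_closedBall_self hs3p.le, ?_⟩
      change κ * ‖H1‖ ≤ ‖H1 - p‖
      linarith
    · refine ⟨c1 + s3, hc2, ?_⟩
      change κ * ‖H2‖ ≤ ‖H2 - p‖
      have h6 : κ * ‖H2‖ ≤ κ * (6 / 5 * ‖H1‖) := mul_le_mul_of_nonneg_left (by linarith) hκp.le
      linarith
  obtain ⟨c0, hc0, hκc⟩ := hex
  have hc0' : ‖c0 - c1‖ ≤ s3 := by simpa [dist_eq_norm] using hc0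
  have hc0b : ‖c0 - b‖ ≤ 2 * s := by
    have : ‖c0 - b‖ ≤ ‖c0 - c1‖ + ‖c1 - b‖ := norm_sub_le_norm_sub_add_norm_sub _ _ _
    linarith
  have hB0 : ∀ b' ∈ B, d1 / 2 ≤ ‖c0 - b'‖ := by
    intro b' hb'
    have h1 := hB1 b' hb'
    have h2 : ‖c1 - b'‖ ≤ ‖c1 - c0‖ + ‖c0 - b'‖ := norm_sub_le_norm_sub_add_norm_sub _ _ _
    rw [norm_sub_rev c1 c0] at h2
    linarith
  have hsub0 := hball c0 hc0b
  obtain ⟨hu0, hw0, -⟩ := h.ne_zero (hsub0 (mem_closedBall_self (by linarith))) (half_pos hd1p)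
    (by linarith) hB0
  have hA6 : Real.exp M / r * (6 * s) ≤ 1 / 2 := by linarith
  have hA0 : 0 ≤ Real.exp M / r := by positivity
  have gu := fac_growth h.fu (by linarith) hA0 hA6 hsub0 (half_pos hd1p) hB0
  have gw := fac_growth h.fw (by linarith) hA0 hA6 hsub0 (half_pos hd1p) hB0
  have hK : (1 + 6 * s / (d1 / 2)) ^ M ≤ Real.exp ((M : ℝ) ^ 2) := by
    have e : 1 + 6 * s / (d1 / 2) = 24 * M + 25 := by
      rw [hd1]
      field_simp
      ring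
    rw [e, sq, Real.exp_nat_mul]
    exact pow_le_pow_left₀ (by positivity) (by nlinarith) _
  have hFc : u c0 - p * w c0 = w c0 * (u c0 / w c0 - p) := by field_simp
  have hH0 : 0 < ‖u c0 / w c0‖ := norm_pos_iff.2 (div_ne_zero hu0 hw0)
  have hFne : u c0 - p * w c0 ≠ 0 := by
    rw [hFc]
    exact mul_ne_zero hw0 (norm_pos_iff.1 ((mul_pos hκp hH0).trans_le hκc))
  have hκinv : Real.exp (3 * (M : ℝ) ^ 2) * κ = 1 := by
    rw [hκ, ← Real.exp_add, add_neg_cancel, Real.exp_zero]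
  have hE3 : 1 ≤ Real.exp (3 * (M : ℝ) ^ 2) := Real.one_le_exp (by positivity)
  have hsum : ‖u c0‖ + ‖p‖ * ‖w c0‖ ≤ 3 * Real.exp (3 * (M : ℝ) ^ 2) * ‖u c0 - p * w c0‖ := by
    have h1 : ‖u c0 / w c0‖ ≤ Real.exp (3 * (M : ℝ) ^ 2) * ‖u c0 / w c0 - p‖ := by
      calc ‖u c0 / w c0‖ = Real.exp (3 * (M : ℝ) ^ 2) * (κ * ‖u c0 / w c0‖) := by
            rw [← mul_assoc, hκinv, one_mul]
        _ ≤ _ := mul_le_mul_of_nonneg_left hκc (Real.exp_pos _).le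
    have h2 : ‖p‖ ≤ ‖u c0 / w c0‖ + ‖u c0 / w c0 - p‖ := by
      have := norm_sub_le (u c0 / w c0) (u c0 / w c0 - p)
      simpa using this
    have h3 := le_mul_of_one_le_left (norm_nonneg (u c0 / w c0 - p)) hE3
    have h4 : ‖u c0 / w c0‖ + ‖p‖ ≤ 3 * Real.exp (3 * (M : ℝ) ^ 2) * ‖u c0 / w c0 - p‖ := by
      linarith
    have h5 : ‖u c0‖ = ‖w c0‖ * ‖u c0 / w c0‖ := by
      rw [← norm_mul]
      congr 1
      field_simp
    rw [hFc, norm_mul, h5]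
    have h6 := mul_le_mul_of_nonneg_left h4 (norm_nonneg (w c0))
    linarith
  have hz := zeros_le (F := fun z => u z - p * w z) (h.du.sub (h.dw.const_mul p)) (c := c0)
    (R := 3 * s) (L := 5 * (M : ℝ) ^ 2) (by linarith) (by positivity) hFne (S := S) (by
      intro z hz
      rw [show 2 * (3 * s) = 6 * s by ring] at hz
      have h1 := gu z hz
      have h2 := gw z hz
      have h3 := norm_sub_le (u z) (p * w z)
      rw [norm_mul] at h3
      have h4 := mul_le_mul_of_nonneg_left h2 (norm_nonneg p)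
      have h5 : ‖u z - p * w z‖ ≤ 2 * (1 + 6 * s / (d1 / 2)) ^ M * (‖u c0‖ + ‖p‖ * ‖w c0‖) := by
        linarith
      refine h5.trans ?_
      have h6 : 6 ≤ Real.exp ((M : ℝ) ^ 2) := by
        have := Real.add_one_le_exp ((M : ℝ) ^ 2)
        nlinarith
      have e : Real.exp (5 * (M : ℝ) ^ 2) =
          Real.exp ((M : ℝ) ^ 2) * (Real.exp ((M : ℝ) ^ 2) * Real.exp (3 * (M : ℝ) ^ 2)) := by
        rw [← Real.exp_add, ← Real.exp_add]
        congr 1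
        ring
      calc _ ≤ 2 * Real.exp ((M : ℝ) ^ 2) *
            (3 * Real.exp (3 * (M : ℝ) ^ 2) * ‖u c0 - p * w c0‖) := by gcongr
        _ = 6 * (Real.exp ((M : ℝ) ^ 2) * Real.exp (3 * (M : ℝ) ^ 2)) * ‖u c0 - p * w c0‖ := by
            ring
        _ ≤ _ := by
            rw [e]
            gcongr) (by
      intro y hy
      obtain ⟨-, h1, h2⟩ := hS y hy
      refine ⟨?_, by simp [h1]⟩
      rw [mem_closedBall, dist_eq_norm]
      have h3 : ‖y - c0‖ ≤ ‖y - b‖ + ‖b - c0‖ := norm_sub_le_norm_sub_add_norm_sub _ _ _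
      rw [norm_sub_rev b c0] at h3
      linarith)
  nlinarith [sq_nonneg (M : ℝ)]

/-- Dyadic scale of a distance. -/
lemma dyadic (h : Hyp M r u w B) {d : ℝ} (h1 : r * Real.exp (-M) / 12 ≤ d) (h2 : d ≤ r) :
    ∃ j ∈ Finset.range (2 * M + 4), r / 2 ^ (j + 1) ≤ d ∧ d ≤ r / 2 ^ j := by
  have hr := h.rpos
  have hlast : r / 2 ^ (2 * M + 4) ≤ d := by
    refine le_trans ?_ h1
    rw [mul_div_assoc, div_eq_mul_one_div]
    refine mul_le_mul_of_nonneg_left ?_ hr.le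
    rw [Real.exp_neg, inv_eq_one_div, div_div]
    refine one_div_le_one_div_of_le (by positivity) ?_
    have h3 : Real.exp (M : ℝ) ≤ 4 ^ M := by
      rw [← Real.exp_one_pow]
      exact pow_le_pow_left₀ (Real.exp_pos _).le (by linarith [Real.exp_one_lt_d9]) _
    have e : (2 : ℝ) ^ (2 * M + 4) = 4 ^ M * 16 := by
      rw [pow_add, pow_mul]
      norm_num
    rw [e]
    have : (0 : ℝ) < 4 ^ M := by positivity
    linarith
  have key : ∀ n : ℕ, r / 2 ^ (n + 1) ≤ d →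
      ∃ j ∈ Finset.range (n + 1), r / 2 ^ (j + 1) ≤ d ∧ d ≤ r / 2 ^ j := by
    intro n
    induction n with
    | zero => exact fun hn => ⟨0, by simp, hn, by simpa using h2⟩
    | succ n ih =>
      intro hn
      rcases le_total (r / 2 ^ (n + 1)) d with h3 | h3
      · obtain ⟨j, hj, hj'⟩ := ih h3
        exact ⟨j, Finset.mem_range.2 (by have := Finset.mem_range.1 hj; omega), hj'⟩
      · exact ⟨n + 1, by simp, hn, h3⟩
  exact key (2 * M + 3) hlast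

/-- If there is no good point the number of solutions is bounded by a power of `M`. -/
lemma count (h : Hyp M r u w B) {p : ℂ} (hp : p ≠ 0) {Y : Finset ℂ}
    (hY : ∀ y ∈ Y, ‖y‖ ≤ r ∧ u y = p * w y ∧ w y ≠ 0)
    (hbad : ∀ y ∈ Y, ∀ d : ℝ, d ≤ r / M → (∀ b ∈ B, d ≤ ‖y - b‖) →
      ‖eta u w y‖ * d ≤ 40 * (M : ℝ) ^ 4) : Y.card ≤ M ^ 14 := by
  classical
  have hM := h.MR
  have hr := h.rpos
  have hM0 : (0 : ℝ) < M := by linarith
  set s := r * Real.exp (-M) / 12 with hs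
  have hs0 : 0 < s := by positivity
  let S0 := Y.filter fun y => ∀ y' ∈ Y, y ≠ y' → r / (1000 * (M : ℝ) ^ 5) ≤ ‖y - y'‖
  let S1 : ℂ → ℕ → Finset ℂ := fun b j => Y.filter fun y => ‖y - b‖ ≤ r / 2 ^ j ∧
    ∀ y' ∈ Y, y ≠ y' → r / 2 ^ (j + 1) / (1000 * (M : ℝ) ^ 4) ≤ ‖y - y'‖
  let S2 : ℂ → Finset ℂ := fun b => Y.filter fun y => ‖y - b‖ ≤ s
  have hcover : Y ⊆ S0 ∪ (B.biUnion fun b => (Finset.range (2 * M + 4)).biUnion (S1 b)) ∪
      B.biUnion S2 := by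
    intro y hy
    obtain ⟨hy1, hy2, hy3⟩ := hY y hy
    obtain ⟨d, hd1, hd2, hd3⟩ := exists_dist B y (r / M)
    have hb := hbad y hy d hd1 hd2
    simp only [Finset.mem_union, Finset.mem_biUnion]
    rcases hd3 with hd3 | ⟨b, hb1, hd3⟩
    · refine Or.inl (Or.inl (Finset.mem_filter.2 ⟨hy, fun y' hy' hne => ?_⟩))
      have hd0 : 0 < d := by rw [hd3]; positivity
      have h1 := h.sep hp hy1 hy2 hd0 hd1 hd2 hb (hY y' hy').2.1 (hY y' hy').2.2 hne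
      refine le_trans (le_of_eq ?_) h1
      rw [hd3]
      field_simp
    · rcases le_total d s with hds | hds
      · exact Or.inr ⟨b, hb1, Finset.mem_filter.2 ⟨hy, hd3 ▸ hds⟩⟩
      · obtain ⟨j, hj, hj1, hj2⟩ := h.dyadic hds (h.le_r hd1)
        refine Or.inl (Or.inr ⟨b, hb1, j, hj, Finset.mem_filter.2 ⟨hy, hd3 ▸ hj2,
          fun y' hy' hne => ?_⟩⟩)
        have h1 := h.sep hp hy1 hy2 (hs0.trans_le hds) hd1 hd2 hb (hY y' hy').2.1
          (hY y' hy').2.2 hne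
        exact le_trans (div_le_div_of_nonneg_right hj1 (by positivity)) h1
  have c0 : S0.card ≤ (4 * (1000 * M ^ 5) + 1) ^ 2 := by
    refine pack (c := 0) (R := r) (t := r / (1000 * (M : ℝ) ^ 5)) (by positivity)
      (le_of_eq (by push_cast; field_simp)) (fun y hy => ?_) (fun y hy y' hy' hne => ?_)
    · simpa using (hY y (Finset.mem_filter.1 hy).1).1
    · exact (Finset.mem_filter.1 hy).2 y' (Finset.mem_filter.1 hy').1 hne
  have c1 : ∀ b j, (S1 b j).card ≤ (4 * (2000 * M ^ 4) + 1) ^ 2 := by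
    intro b j
    refine pack (c := b) (R := r / 2 ^ j) (t := r / 2 ^ (j + 1) / (1000 * (M : ℝ) ^ 4))
      (by positivity) (le_of_eq (by push_cast; field_simp; ring)) (fun y hy => ?_)
      (fun y hy y' hy' hne => ?_)
    · exact (Finset.mem_filter.1 hy).2.1
    · exact (Finset.mem_filter.1 hy).2.2 y' (Finset.mem_filter.1 hy').1 hne
  have c2 : ∀ b, (S2 b).card ≤ 8 * M ^ 2 := by
    intro b
    have := h.near (p := p) (b := b) hs (S := S2 b) (fun y hy => by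
      obtain ⟨h1, h2⟩ := Finset.mem_filter.1 hy
      exact ⟨(hY y h1).1, (hY y h1).2.1, h2⟩)
    exact_mod_cast this
  have d1 : (B.biUnion fun b => (Finset.range (2 * M + 4)).biUnion (S1 b)).card ≤
      M * ((2 * M + 4) * (4 * (2000 * M ^ 4) + 1) ^ 2) := by
    refine (Finset.card_biUnion_le_card_mul _ _ ((2 * M + 4) * (4 * (2000 * M ^ 4) + 1) ^ 2)
      fun b _ => ?_).trans (Nat.mul_le_mul_right _ h.card)
    have := Finset.card_biUnion_le_card_mul (Finset.range (2 * M + 4)) (S1 b) _ fun j _ => c1 b j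
    rwa [Finset.card_range] at this
  have d2 : (B.biUnion S2).card ≤ M * (8 * M ^ 2) :=
    (Finset.card_biUnion_le_card_mul _ _ _ fun b _ => c2 b).trans (Nat.mul_le_mul_right _ h.card)
  have tot := (Finset.card_le_card hcover).trans ((Finset.card_union_le _ _).trans
    (Nat.add_le_add_right (Finset.card_union_le _ _) _))
  have hN := h.hM
  have hpow : ∀ k : ℕ, 1 ≤ M ^ k := fun k => Nat.one_le_pow _ _ (by omega)
  have hstep : ∀ k : ℕ, 10000 * M ^ k ≤ M ^ (k + 1) := fun k => by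
    rw [pow_succ, mul_comm]
    exact Nat.mul_le_mul_left _ hN
  have a0 : 4 * (1000 * M ^ 5) + 1 ≤ M ^ 6 := by
    have h10 : 10000 * M ^ 5 ≤ M ^ 6 := hstep 5
    have := hpow 5
    omega
  have a1 : 4 * (2000 * M ^ 4) + 1 ≤ M ^ 5 := by
    have h10 : 10000 * M ^ 4 ≤ M ^ 5 := hstep 4
    have := hpow 4
    omega
  have a2 : 2 * M + 4 ≤ M ^ 2 := by
    have h10 : 10000 * M ^ 1 ≤ M ^ 2 := hstep 1
    rw [pow_one] at h10
    omega
  have b0 : S0.card ≤ M ^ 13 :=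
    calc S0.card ≤ (M ^ 6) ^ 2 := c0.trans (Nat.pow_le_pow_left a0 2)
      _ = M ^ 12 := by ring
      _ ≤ M ^ 13 := Nat.pow_le_pow_right (by omega) (by norm_num)
  have b1 : M * ((2 * M + 4) * (4 * (2000 * M ^ 4) + 1) ^ 2) ≤ M ^ 13 :=
    calc _ ≤ M * (M ^ 2 * (M ^ 5) ^ 2) :=
          Nat.mul_le_mul_left _ (Nat.mul_le_mul a2 (Nat.pow_le_pow_left a1 2))
      _ = M ^ 13 := by ring
  have b2 : M * (8 * M ^ 2) ≤ M ^ 13 :=
    calc M * (8 * M ^ 2) = 8 * M ^ 3 := by ring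
      _ ≤ M ^ 4 := by
          have h10 : 10000 * M ^ 3 ≤ M ^ 4 := hstep 3
          omega
      _ ≤ M ^ 13 := Nat.pow_le_pow_right (by omega) (by norm_num)
  have h10 : 10000 * M ^ 13 ≤ M ^ 14 := hstep 13
  omega

end Hyp

end Sel

theorem select : ∃ M0 N0 : ℕ, ∀ M : ℕ, M0 ≤ M → ∀ r : ℝ, 1 ≤ r → ∀ u w : ℂ → ℂ,
    Differentiable ℂ u → Differentiable ℂ w → ∀ B : Finset ℂ, B.card ≤ M →
    Fac u B M (ball 0 (r * (1 + 1 / M))) (Real.exp M / r) →
    Fac w B M (ball 0 (r * (1 + 1 / M))) (Real.exp M / r) →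
    (∀ z ∈ ball (0 : ℂ) (r * (1 + 1 / M)), ∀ d : ℝ, 0 < d → d ≤ r → (∀ b ∈ B, d ≤ ‖z - b‖) →
      ‖deriv (eta u w) z‖ ≤ M / d * ‖eta u w z‖ ∧
      ‖deriv u z / u z + deriv w z / w z‖ ≤ M / d ∧
      Real.exp (-M) * (d / (4 * r)) ^ M ≤ ‖eta u w z‖ ∧
      Real.exp (-M) * (d / (4 * r)) ^ M ≤ ‖u z * w z‖) →
    ∀ p : ℂ, 1 / 48 ≤ ‖p‖ → ‖p‖ ≤ 48 → ∀ Y : Finset ℂ,
    (∀ y ∈ Y, ‖y‖ ≤ r ∧ u y = p * w y ∧ w y ≠ 0) → M ^ N0 < Y.card →
    ∃ y ∈ Y, ∃ ρ : ℝ, 0 < ρ ∧ eta u w y ≠ 0 ∧ 5 * (M : ℝ) ^ 2 ≤ ρ * ‖eta u w y‖ ∧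
      ‖eta u w y‖ ≤ Real.exp (2 * (M : ℝ) ^ 2) * ‖w y‖ ∧
      ∀ z ∈ ball y ρ, u z ≠ 0 ∧ w z ≠ 0 ∧
        ‖deriv u z / u z - eta u w y‖ ≤ ‖eta u w y‖ / M ∧
        ‖deriv w z / w z + eta u w y‖ ≤ ‖eta u w y‖ / M := by
  refine ⟨10000, 14, fun M hM r hr u w du dw B hB fu fw est p hp1 hp2 Y hY hcard => ?_⟩
  have h : Sel.Hyp M r u w B := ⟨hM, hr, du, dw, hB, fu, fw, est⟩
  have hp : p ≠ 0 := norm_pos_iff.1 (lt_of_lt_of_le (by norm_num) hp1)
  by_cases hg : ∃ y ∈ Y, ∃ d : ℝ, d ≤ r / M ∧ (∀ b ∈ B, d ≤ ‖y - b‖) ∧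
      40 * (M : ℝ) ^ 4 ≤ ‖eta u w y‖ * d
  · obtain ⟨y, hy, d, h1, h2, h3⟩ := hg
    exact ⟨y, hy, h.good hp2 (hY y hy).1 (hY y hy).2.1 h1 h2 h3⟩
  · push Not at hg
    exact absurd (h.count hp hY fun y hy d h1 h2 => (hg y hy d h1 h2).le) (not_le.2 hcard)

end Pool.Agent.Lib.MP_bb1814_an
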