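import Mathlib
import Pool.Agent.Lib.MP_bb1814_an.Iface
import Pool.Agent.Lib.MP_bb1814_an.Nev
import Pool.Agent.Lib.MP_bb1814_an.Select

/-!
Elementary facts used in the counting argument.
-/

namespace Pool.Agent.Lib.MP_bb1814_an

open Filter Topology Set Metric Real ValueDistribution

namespace Cnt

lemma mero_of_diff {u : ℂ → ℂ} (hu : Differentiable ℂ u) : Meromorphic u :=
  fun z => (hu.analyticAt z).meromorphicAt

lemma order_eq_zero_iff {F : ℂ → ℂ} {z : ℂ} (hF : AnalyticAt ℂ F z) :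
    meromorphicOrderAt F z = 0 ↔ F z ≠ 0 := by
  rw [hF.meromorphicOrderAt_eq, ← hF.analyticOrderAt_eq_zero]
  cases analyticOrderAt F z with
  | top => simp
  | coe n => simp

lemma order_mul {f g : ℂ → ℂ} {z : ℂ} (hf : MeromorphicAt f z) (hg : MeromorphicAt g z) :
    meromorphicOrderAt (fun x => f x * g x) z = meromorphicOrderAt f z + meromorphicOrderAt g z :=
  meromorphicOrderAt_mul hf hg

lemma Nb_empty (r : ℝ) : Nb ∅ r = 0 := by simp [Nb]

lemma locFin_empty : LocFin ∅ := fun R => by simp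

lemma logCounting_top_entire {u : ℂ → ℂ} (hu : Differentiable ℂ u) {r : ℝ} (hr : 1 ≤ r) :
    logCounting u ⊤ r ≤ 0 := by
  have := poles_le_Nb (mero_of_diff hu) locFin_empty
    (fun z hz => absurd hz (not_lt.2 (hu.analyticAt z).meromorphicOrderAt_nonneg)) hr
  rwa [Nb_empty] at this

lemma T_eq (F : ℂ → ℂ) (r : ℝ) : T F r = proximity F ⊤ r + logCounting F ⊤ r := rfl

lemma T_mono {F : ℂ → ℂ} (hF : Meromorphic F) {a b : ℝ} (ha : 1 ≤ a) (hab : a ≤ b) :
    T F a ≤ T F b :=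
  characteristic_monotoneOn hF (show (0 : ℝ) < a by linarith) (show (0 : ℝ) < b by linarith) hab

lemma T_nonneg (F : ℂ → ℂ) {r : ℝ} (hr : 1 ≤ r) : 0 ≤ T F r := characteristic_nonneg hr

lemma logCounting_top_le_T (F : ℂ → ℂ) (r : ℝ) : logCounting F ⊤ r ≤ T F r := by
  have : 0 ≤ proximity F ⊤ r := proximity_nonneg r
  rw [T_eq]; linarith

lemma proximity_le_T (F : ℂ → ℂ) {r : ℝ} (hr : 1 ≤ r) : proximity F ⊤ r ≤ T F r := by
  rw [T_eq]; linarith [logCounting_nonneg (f := F) (e := ⊤) hr]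

/-- The first main theorem for the value zero. -/
lemma fmt0 {F : ℂ → ℂ} (hF : Meromorphic F) : ∃ c : ℝ, 0 ≤ c ∧ ∀ r : ℝ, 1 ≤ r →
    logCounting F 0 r ≤ T F r + c ∧
    circleAverage (fun z => |log ‖F z‖|) 0 r ≤ 2 * T F r + c := by
  obtain ⟨c, hc⟩ := fmt hF 0
  refine ⟨|c|, abs_nonneg c, fun r hr => ?_⟩
  obtain ⟨-, -, h1, h2⟩ := hc r hr
  simp only [sub_zero] at h1 h2
  exact ⟨h1.trans (by linarith [le_abs_self c]), h2.trans (by linarith [le_abs_self c])⟩

lemma proximity_le_mul {u G : ℂ → ℂ} (hu : Meromorphic u) (hG : Meromorphic G) {r E : ℝ}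
    (hr : 0 < r) (hE : 1 ≤ E) (h : ∀ z : ℂ, ‖z‖ = r → ‖u z‖ ≤ E * (1 + ‖G z‖)) :
    proximity u ⊤ r ≤ log E + log 2 + proximity G ⊤ r := by
  simp only [proximity_top]
  have iG : CircleIntegrable (fun z => log⁺ ‖G z‖) 0 r :=
    hG.meromorphicOn.circleIntegrable_posLog_norm
  have h1 : circleAverage (fun z => log⁺ ‖u z‖) 0 r ≤
      circleAverage (fun z => (log E + log 2) + log⁺ ‖G z‖) 0 r := by
    apply circleAverage_mono hu.meromorphicOn.circleIntegrable_posLog_norm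
      ((circleIntegrable_const _ _ _).add iG)
    intro z hz
    have hz' : ‖z‖ = r := by simpa [abs_of_pos hr] using hz
    have h2 : log⁺ ‖u z‖ ≤ log⁺ (E * (1 + ‖G z‖)) := posLog_le_posLog (norm_nonneg _) (h z hz')
    have h3 : log⁺ (E * (1 + ‖G z‖)) ≤ log⁺ E + log⁺ (1 + ‖G z‖) := posLog_mul
    have h4 : log⁺ (1 + ‖G z‖) ≤ log 2 + log⁺ 1 + log⁺ ‖G z‖ := posLog_add
    have h5 : log⁺ E = log E := posLog_eq_log (by rw [abs_of_nonneg (by linarith)]; exact hE)
    simp only [posLog_one] at h4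
    show log⁺ ‖u z‖ ≤ log E + log 2 + log⁺ ‖G z‖
    linarith
  refine h1.trans (le_of_eq ?_)
  have := circleAverage_add (circleIntegrable_const (log E + log 2) 0 r) iG
  rw [circleAverage_const] at this
  exact this

/-- A meromorphic function none of whose translates vanishes locally has a derivative that does
not vanish locally. -/
lemma deriv_ne_top {F : ℂ → ℂ} (hF : Meromorphic F)
    (hnc : ∀ c z, meromorphicOrderAt (fun x => F x - c) z ≠ ⊤) (z : ℂ) :
    meromorphicOrderAt (deriv F) z ≠ ⊤ := by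
  intro h
  rw [meromorphicOrderAt_eq_top_iff] at h
  have h1 := (hF z).eventually_analyticAt
  have h2 : ∀ᶠ y in 𝓝[≠] z, ∀ᶠ x in 𝓝 y, deriv F x = 0 := by
    rw [eventually_nhdsWithin_iff] at h ⊢
    filter_upwards [h.eventually_nhds] with y hy hyz
    filter_upwards [hy, isOpen_compl_singleton.mem_nhds hyz] with x hx hxz using hx hxz
  obtain ⟨y, hy1, hy2⟩ := (h1.and h2).exists
  have h3 := hy1.analyticOrderAt_deriv_add_one
  rw [analyticOrderAt_eq_top.2 hy2, top_add] at h3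
  apply hnc (F y) y
  have h4 : AnalyticAt ℂ (fun x => F x - F y) y := hy1.sub analyticAt_const
  rw [h4.meromorphicOrderAt_eq, ← h3]; rfl

lemma pair_nz_u {C : Cub} {F G u w : ℂ → ℂ} (hP : Pair C F G u w) : NZ u := by
  intro z h
  rw [meromorphicOrderAt_eq_top_iff] at h
  have h1 : meromorphicOrderAt (fun x => deriv F x * (F x - G x)) z = ⊤ := by
    rw [meromorphicOrderAt_eq_top_iff]
    filter_upwards [h, (hP.rf.mero z).eventually_analyticAt] with x hx hx'
    rw [hP.odef x hx', hx, zero_mul]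
  rw [order_mul (g := fun x => F x - G x) (hP.rf.mero z).deriv
    ((hP.rf.mero z).sub (hP.rg.mero z))] at h1
  rcases WithTop.add_eq_top.1 h1 with h2 | h2
  · exact deriv_ne_top hP.rf.mero hP.ncf z h2
  · exact hP.ne z h2

lemma pair_nz_w {C : Cub} {F G u w : ℂ → ℂ} (hP : Pair C F G u w) : NZ w := by
  intro z
  have := pair_nz_u hP.swap z
  rwa [← meromorphicOrderAt_fun_neg] at this

lemma nz_mul {u w : ℂ → ℂ} (hu : Meromorphic u) (hw : Meromorphic w) (h1 : NZ u) (h2 : NZ w) :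
    NZ fun z => u z * w z := fun z => by
  rw [order_mul (hu z) (hw z)]
  exact WithTop.add_ne_top.2 ⟨h1 z, h2 z⟩

/-- Decomposition into simple fractions for the cubic. -/
lemma pf_bound (C : Cub) : ∃ K0 : ℝ, 1 ≤ K0 ∧ ∀ (t d : ℂ) (E : ℝ), (∀ j, t ≠ C.e j) →
    (∀ j, ‖d / (t - C.e j)‖ ≤ E) →
    ‖d / C.P t‖ ≤ K0 * E ∧ ‖t * d / C.P t‖ ≤ K0 * E ∧ ‖t ^ 2 * d / C.P t‖ ≤ K0 * E := by
  set a := C.e 0
  set b := C.e 1
  set c := C.e 2
  have hab : a - b ≠ 0 := sub_ne_zero.2 C.ne01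
  have hac : a - c ≠ 0 := sub_ne_zero.2 C.ne02
  have hbc : b - c ≠ 0 := sub_ne_zero.2 C.ne12
  set x := ((a - b) * (a - c))⁻¹
  set y := (-((a - b) * (b - c)))⁻¹
  set s := ((a - c) * (b - c))⁻¹
  have key : ∀ i : ℕ, ∀ (t d : ℂ) (E : ℝ), (∀ j, t ≠ C.e j) → (∀ j, ‖d / (t - C.e j)‖ ≤ E) →
      t ^ i * d / C.P t = a ^ i * x * (d / (t - a)) + b ^ i * y * (d / (t - b)) +
        c ^ i * s * (d / (t - c)) →
      ‖t ^ i * d / C.P t‖ ≤ (‖a ^ i * x‖ + ‖b ^ i * y‖ + ‖c ^ i * s‖) * E := by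
    intro i t d E _ h2 h3
    rw [h3]
    refine (norm_add₃_le).trans ?_
    rw [norm_mul (a ^ i * x), norm_mul (b ^ i * y), norm_mul (c ^ i * s), add_mul, add_mul]
    gcongr
    exacts [h2 0, h2 1, h2 2]
  set k : ℕ → ℝ := fun i => ‖a ^ i * x‖ + ‖b ^ i * y‖ + ‖c ^ i * s‖ with hk
  have hk0 : ∀ i, 0 ≤ k i := fun i => by simp only [hk]; positivity
  refine ⟨1 + k 0 + k 1 + k 2, by linarith [hk0 0, hk0 1, hk0 2], fun t d E h1 h2 => ?_⟩
  have hE : 0 ≤ E := (norm_nonneg _).trans (h2 0)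
  have ha : t - a ≠ 0 := sub_ne_zero.2 (h1 0)
  have hb : t - b ≠ 0 := sub_ne_zero.2 (h1 1)
  have hc : t - c ≠ 0 := sub_ne_zero.2 (h1 2)
  have hPt : C.P t = (t - a) * (t - b) * (t - c) := rfl
  have e0 := key 0 t d E h1 h2 (by rw [hPt]; simp only [x, y, s]; field_simp; ring)
  have e1 := key 1 t d E h1 h2 (by rw [hPt]; simp only [x, y, s]; field_simp; ring)
  have e2 := key 2 t d E h1 h2 (by rw [hPt]; simp only [x, y, s]; field_simp; ring)
  simp only [pow_zero, one_mul, pow_one] at e0 e1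
  refine ⟨e0.trans ?_, e1.trans ?_, e2.trans ?_⟩
  · have : ‖x‖ + ‖y‖ + ‖s‖ = k 0 := by simp [hk]
    rw [this]; nlinarith [hk0 0, hk0 1, hk0 2]
  · have : ‖a * x‖ + ‖b * y‖ + ‖c * s‖ = k 1 := by simp [hk]
    rw [this]; nlinarith [hk0 0, hk0 1, hk0 2]
  · have : ‖a ^ 2 * x‖ + ‖b ^ 2 * y‖ + ‖c ^ 2 * s‖ = k 2 := rfl
    rw [this]; nlinarith [hk0 0, hk0 1, hk0 2]

lemma eta_eq (u w : ℂ → ℂ) :
    eta u w = fun z => (1 / 2 : ℂ) * (logDeriv u + -logDeriv w) z := by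
  funext z
  simp only [eta, Pi.add_apply, Pi.neg_apply, logDeriv_apply]
  ring

lemma mero_eta {u w : ℂ → ℂ} (hu : Meromorphic u) (hw : Meromorphic w) :
    Meromorphic (eta u w) := by
  rw [eta_eq]
  exact fun z => (MeromorphicAt.const _ z).mul ((hu.logDeriv.add hw.logDeriv.neg) z)

lemma logDeriv_order {u : ℂ → ℂ} (hu : Meromorphic u) (h : NZ u) (z : ℂ) :
    ((-1 : ℤ) : WithTop ℤ) ≤ meromorphicOrderAt (logDeriv u) z := by
  by_cases h0 : meromorphicOrderAt u z = 0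
  · exact le_trans (by exact_mod_cast (by norm_num : (-1 : ℤ) ≤ 0))
      (meromorphicOrderAt_logDeriv_nonneg (hu z) h0)
  · rw [meromorphicOrderAt_logDeriv_eq_neg_one (hu z) h0 (h z)]; rfl

lemma analyticAt_eta {u w : ℂ → ℂ} (hu : Differentiable ℂ u) (hw : Differentiable ℂ w) {z : ℂ}
    (h1 : u z ≠ 0) (h2 : w z ≠ 0) : AnalyticAt ℂ (eta u w) z := by
  have a1 := hu.analyticAt z
  have a2 := hw.analyticAt z
  exact ((a1.deriv.div a1 h1).sub (a2.deriv.div a2 h2)).div analyticAt_const two_ne_zero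

lemma eta_poles {u w : ℂ → ℂ} (hu : Differentiable ℂ u) (hw : Differentiable ℂ w) (h1 : NZ u)
    (h2 : NZ w) (z : ℂ) (hz : meromorphicOrderAt (eta u w) z < 0) :
    u z * w z = 0 ∧ ((-1 : ℤ) : WithTop ℤ) ≤ meromorphicOrderAt (eta u w) z := by
  constructor
  · by_contra h
    exact absurd hz (not_lt.2
      (analyticAt_eta hu hw (left_ne_zero_of_mul h) (right_ne_zero_of_mul h)).meromorphicOrderAt_nonneg)
  · have mu := mero_of_diff hu
    have mw := mero_of_diff hw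
    rw [eta_eq, order_const_mul _ (by norm_num)]
    refine le_trans (le_min (logDeriv_order mu h1 z) ?_)
      (meromorphicOrderAt_add (mu.logDeriv z) (mw.logDeriv.neg z))
    rw [← meromorphicOrderAt_neg]
    exact logDeriv_order mw h2 z

/-- If `eta` vanishes near a point then `u / w` is constant. -/
lemma exists_ratio {u w : ℂ → ℂ} (hu : Differentiable ℂ u) (hw : Differentiable ℂ w) (h1 : NZ u)
    (h2 : NZ w) {z : ℂ} (hz : meromorphicOrderAt (eta u w) z = ⊤) : ∃ p, ∀ x, u x = p * w x := by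
  rw [meromorphicOrderAt_eq_top_iff] at hz
  have e1 := (meromorphicOrderAt_ne_top_iff_eventually_ne_zero (mero_of_diff hu z)).1 (h1 z)
  have e2 := (meromorphicOrderAt_ne_top_iff_eventually_ne_zero (mero_of_diff hw z)).1 (h2 z)
  have h3 : ∀ᶠ y in 𝓝[≠] z, ∀ᶠ x in 𝓝 y, eta u w x = 0 ∧ u x ≠ 0 ∧ w x ≠ 0 := by
    have h := hz.and (e1.and e2)
    rw [eventually_nhdsWithin_iff] at h ⊢
    filter_upwards [h.eventually_nhds] with y hy hyz
    filter_upwards [hy, isOpen_compl_singleton.mem_nhds hyz] with x hx hxz using hx hxz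
  obtain ⟨y, hy⟩ := h3.exists
  have hwy : w y ≠ 0 := hy.self_of_nhds.2.2
  have aH : AnalyticAt ℂ (fun x => u x / w x) y := (hu.analyticAt y).div (hw.analyticAt y) hwy
  have h4 : ∀ᶠ x in 𝓝 y, deriv (fun x => u x / w x) x = 0 := by
    filter_upwards [hy] with x ⟨e, hx1, hx2⟩
    rw [deriv_fun_div (hu x) (hw x) hx2]
    unfold eta at e
    field_simp at e
    rw [div_eq_zero_iff]; left
    linear_combination e
  have h5 := aH.analyticOrderAt_deriv_add_one
  rw [analyticOrderAt_eq_top.2 h4, top_add, eq_comm, analyticOrderAt_eq_top] at h5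
  refine ⟨u y / w y, ?_⟩
  have h6 : u =ᶠ[𝓝 y] fun x => u y / w y * w x := by
    filter_upwards [h5, hy] with x hx ⟨_, _, hx2⟩
    rw [sub_eq_zero] at hx
    rw [← hx]; field_simp
  have h7 := AnalyticOnNhd.eq_of_eventuallyEq (𝕜 := ℂ) (f := u)
    (g := fun x => u y / w y * w x) (fun x _ => hu.analyticAt x)
    (fun x _ => analyticAt_const.mul (hw.analyticAt x)) h6
  exact fun x => congrFun h7 x

end Cnt

end Pool.Agent.Lib.MP_bb1814_an
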