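import Mathlib
import Pool.Agent.Lib.MP_bb1814_an.CountA

/-!
Growth estimates on well chosen circles.
-/

namespace Pool.Agent.Lib.MP_bb1814_an

open Filter Topology Set Metric Real ValueDistribution

namespace Cnt

section ScaleFacts

variable {H : ℝ → ℝ} (S : Scale H)

lemma one_lt_l (k : ℕ) : 1 < log (H (S.r k)) := by
  have h := S.three_le k
  rw [lt_log_iff_exp_lt (by linarith)]
  linarith [exp_one_lt_d9]

lemma rr_mono (k : ℕ) {i j : ℕ} (h : i ≤ j) : S.rr k i ≤ S.rr k j := by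
  have h1 := S.one_le k
  have h2 := one_lt_l S k
  have h3 : (i : ℝ) ≤ j := by exact_mod_cast h
  unfold Scale.rr
  gcongr

lemma rr_zero (k : ℕ) : S.rr k 0 = S.r k := by simp [Scale.rr]

lemma r_le_rr (k i : ℕ) : S.r k ≤ S.rr k i := by
  rw [← rr_zero]; exact rr_mono S k (Nat.zero_le i)

lemma one_le_rr (k i : ℕ) : 1 ≤ S.rr k i := (S.one_le k).trans (r_le_rr S k i)

lemma H_le (k : ℕ) {ρ : ℝ} (h1 : 1 ≤ ρ) (h2 : ρ ≤ S.rr k 8) : H ρ ≤ 3 * H (S.r k) := by
  refine le_trans (S.mono h1 (one_le_rr S k 8) h2) (le_trans (le_of_eq ?_) (S.growth k))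
  have h2 := one_lt_l S k
  congr 1
  unfold Scale.rr
  congr 2
  field_simp
  norm_num

lemma le_H (k : ℕ) {ρ : ℝ} (h : S.r k ≤ ρ) : H (S.r k) ≤ H ρ :=
  S.mono (S.one_le k) ((S.one_le k).trans h) h

lemma tendsto_l : Tendsto (fun k => log (H (S.r k))) atTop atTop :=
  tendsto_log_atTop.comp S.tendstoG

end ScaleFacts

/-- The gauge. -/
noncomputable def Ga (F G : ℂ → ℂ) (r : ℝ) : ℝ := T F r + T G r + 3

variable {C : Cub} {F G u w : ℂ → ℂ}

lemma exists_scale_Ga (hP : Pair C F G u w) : Nonempty (Scale (Ga F G)) := by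
  apply exists_scale
  · intro a ha b _ hab
    unfold Ga
    linarith [T_mono hP.rf.mero ha hab, T_mono hP.rg.mero ha hab]
  · refine tendsto_atTop_mono' atTop ?_ (T_tendsto hP.rf.mero hP.ncf)
    filter_upwards [eventually_ge_atTop 1] with r hr
    unfold Ga
    linarith [T_nonneg G hr]

lemma TF_le (S : Scale (Ga F G)) (k : ℕ) {ρ : ℝ} (h1 : 1 ≤ ρ) (h2 : ρ ≤ S.rr k 8) :
    T F ρ + T G ρ ≤ 3 * Ga F G (S.r k) ∧ T F ρ ≤ 3 * Ga F G (S.r k) ∧
      T G ρ ≤ 3 * Ga F G (S.r k) := by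
  have h := H_le S k h1 h2
  have a := T_nonneg F h1
  have b := T_nonneg G h1
  unfold Ga at h ⊢
  refine ⟨by linarith, by linarith, by linarith⟩

lemma analytic_of_order_sub {F : ℂ → ℂ} (hF : Reg F) {a z : ℂ}
    (h : meromorphicOrderAt (fun x => F x - a) z = 0) : AnalyticAt ℂ F z ∧ F z ≠ a := by
  have m1 : MeromorphicAt (fun x => F x - a) z := (hF.mero z).sub (MeromorphicAt.const a z)
  have h1 : AnalyticAt ℂ F z := by
    apply hF.an
    have h2 := meromorphicOrderAt_add m1 (MeromorphicAt.const a z)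
    have h3 : ((fun x => F x - a) + fun _ => a) = F := by funext x; simp
    rw [h3] at h2
    exact le_trans (le_min h.ge (analyticAt_const (v := a)).meromorphicOrderAt_nonneg) h2
  have h4 : AnalyticAt ℂ (fun x => F x - a) z := h1.sub analyticAt_const
  exact ⟨h1, sub_ne_zero.1 ((order_eq_zero_iff h4).1 h)⟩

lemma log_mul_pow_le {a g : ℝ} (ha : 1 ≤ a) (hg : 1 < log g) (hg0 : 0 < g) (n : ℕ) :
    log (a * g ^ n) ≤ (log a + n) * log g := by
  rw [log_mul (by linarith) (pow_pos hg0 n).ne', log_pow]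
  nlinarith [log_nonneg ha]

/-- Growth of `u`, `w` and `u w`. -/
lemma circleB (hP : Pair C F G u w) (S : Scale (Ga F G)) : ∃ c : ℝ, 0 ≤ c ∧ ∀ᶠ k in atTop,
    T (fun z => u z * w z) (S.rr k 5) ≤ c * log (Ga F G (S.r k)) ∧
    T u (S.rr k 5) ≤ c * Ga F G (S.r k) ∧ T w (S.rr k 5) ≤ c * Ga F G (S.r k) := by
  obtain ⟨K0, hK0, hpf⟩ := pf_bound C
  let Φ : Fin 3 ⊕ Fin 3 → ℂ → ℂ :=
    Sum.elim (fun j z => F z - C.e j) (fun j z => G z - C.e j)
  have mF : ∀ a, Meromorphic fun z => F z - a := fun a z =>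
    (hP.rf.mero z).sub (MeromorphicAt.const a z)
  have mG : ∀ a, Meromorphic fun z => G z - a := fun a z =>
    (hP.rg.mero z).sub (MeromorphicAt.const a z)
  obtain ⟨ρ, hρ⟩ := good_circle S 5 (by norm_num) Φ
    (by rintro (j | j); exacts [mF _, mG _])
    (by rintro (j | j); exacts [hP.ncf _, hP.ncg _])
    (by
      rintro (j | j)
      · obtain ⟨c, hc⟩ := fmt hP.rf.mero (C.e j)
        refine ⟨3 + |c|, Eventually.of_forall fun k => ?_⟩
        have h1 := (hc _ (one_le_rr S k 8)).1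
        have h2 := (TF_le S k (one_le_rr S k 8) le_rfl).2.1
        have h3 := S.three_le k
        show T (fun z => F z - C.e j) (S.rr k 8) ≤ _
        nlinarith [le_abs_self c, abs_nonneg c]
      · obtain ⟨c, hc⟩ := fmt hP.rg.mero (C.e j)
        refine ⟨3 + |c|, Eventually.of_forall fun k => ?_⟩
        have h1 := (hc _ (one_le_rr S k 8)).1
        have h2 := (TF_le S k (one_le_rr S k 8) le_rfl).2.2
        have h3 := S.three_le k
        show T (fun z => G z - C.e j) (S.rr k 8) ≤ _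
        nlinarith [le_abs_self c, abs_nonneg c])
  have lK : 0 ≤ log K0 := log_nonneg hK0
  have lK4 : 0 ≤ log (4 * K0 ^ 2) := log_nonneg (by nlinarith)
  refine ⟨log (4 * K0 ^ 2) + log K0 + 10, by linarith, ?_⟩
  filter_upwards [hρ] with k ⟨h1, h2, h3⟩
  set g := Ga F G (S.r k) with hg
  have g3 : 3 ≤ g := S.three_le k
  have l1 : 1 < log g := one_lt_l S k
  have lg : log g ≤ g := (log_le_sub_one_of_pos (by linarith)).trans (by linarith)
  have ρ1 : 1 ≤ ρ k := (one_le_rr S k 5).trans h1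
  have ρ8 : ρ k ≤ S.rr k 8 := h2.trans (rr_mono S k (by norm_num))
  have E1 : 1 ≤ g ^ 3 := one_le_pow₀ (by linarith)
  have hc : ∀ z : ℂ, ‖z‖ = ρ k → AnalyticAt ℂ F z ∧ C.P (F z) ≠ 0 ∧ C.P (G z) ≠ 0 ∧
      (‖deriv F z / C.P (F z)‖ ≤ K0 * g ^ 3 ∧ ‖F z * deriv F z / C.P (F z)‖ ≤ K0 * g ^ 3 ∧
        ‖F z ^ 2 * deriv F z / C.P (F z)‖ ≤ K0 * g ^ 3) ∧
      (‖deriv G z / C.P (G z)‖ ≤ K0 * g ^ 3 ∧ ‖G z * deriv G z / C.P (G z)‖ ≤ K0 * g ^ 3 ∧
        ‖G z ^ 2 * deriv G z / C.P (G z)‖ ≤ K0 * g ^ 3) := by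
    intro z hz
    have f1 := fun j => analytic_of_order_sub hP.rf (h3 (Sum.inl j) z hz).1
    have g1 := fun j => analytic_of_order_sub hP.rg (h3 (Sum.inr j) z hz).1
    refine ⟨(f1 0).1, fun h => ?_, fun h => ?_, hpf _ _ _ (fun j => (f1 j).2) fun j => ?_,
      hpf _ _ _ (fun j => (g1 j).2) fun j => ?_⟩
    · obtain ⟨j, hj⟩ := C.P_eq_zero_iff.1 h; exact (f1 j).2 hj
    · obtain ⟨j, hj⟩ := C.P_eq_zero_iff.1 h; exact (g1 j).2 hj
    · have := (h3 (Sum.inl j) z hz).2 ((f1 j).1.sub analyticAt_const)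
      simpa only [Φ, Sum.elim_inl, deriv_sub_const] using this
    · have := (h3 (Sum.inr j) z hz).2 ((g1 j).1.sub analyticAt_const)
      simpa only [Φ, Sum.elim_inr, deriv_sub_const] using this
  have hu : ∀ z : ℂ, ‖z‖ = ρ k → u z = deriv F z * (F z - G z) / C.P (F z) ∧
      w z = deriv G z * (F z - G z) / C.P (G z) := by
    intro z hz
    obtain ⟨a, b, c, -⟩ := hc z hz
    exact ⟨by rw [hP.odef z a]; field_simp, by rw [hP.odeg z a]; field_simp⟩
  have mu := mero_of_diff hP.du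
  have mw := mero_of_diff hP.dw
  have dψ : Differentiable ℂ fun z => u z * w z := hP.du.mul hP.dw
  have KE : 1 ≤ K0 * g ^ 3 := by nlinarith
  have lKE : log (K0 * g ^ 3) ≤ (log K0 + 3) * log g := by
    simpa using log_mul_pow_le hK0 l1 (by linarith) 3
  have l2 : log 2 ≤ 1 := by linarith [log_two_lt_d9]
  obtain ⟨-, tF, tG⟩ := TF_le S k ρ1 ρ8
  refine ⟨(T_mono (mero_of_diff dψ) (one_le_rr S k 5) h1).trans ?_,
    (T_mono mu (one_le_rr S k 5) h1).trans ?_, (T_mono mw (one_le_rr S k 5) h1).trans ?_⟩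
  · have p1 := proximity_le_of_bound (F := fun z => u z * w z) (E := 4 * K0 ^ 2 * g ^ 6)
      (by linarith : 0 < ρ k) (by nlinarith [one_le_pow₀ (n := 6) (by linarith : 1 ≤ g)])
      (fun z hz => by
        obtain ⟨-, b, c, ⟨f0, f1, f2⟩, ⟨g0, g1, g2⟩⟩ := hc z hz
        have e : u z * w z = (F z ^ 2 * deriv F z / C.P (F z)) * (deriv G z / C.P (G z)) -
            2 * ((F z * deriv F z / C.P (F z)) * (G z * deriv G z / C.P (G z))) +
            (deriv F z / C.P (F z)) * (G z ^ 2 * deriv G z / C.P (G z)) := by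
          rw [(hu z hz).1, (hu z hz).2]; field_simp; ring
        rw [e]
        refine (norm_add_le _ _).trans ((add_le_add_left (norm_sub_le _ _) _).trans ?_)
        simp only [norm_mul, Complex.norm_ofNat] at f1 f2 g1 g2 ⊢
        have m : ∀ a b : ℝ, 0 ≤ a → 0 ≤ b → a ≤ K0 * g ^ 3 → b ≤ K0 * g ^ 3 →
            a * b ≤ K0 ^ 2 * g ^ 6 := fun a b ha hb h1 h2 => by
          calc a * b ≤ (K0 * g ^ 3) * (K0 * g ^ 3) := by gcongr
            _ = _ := by ring
        linarith [m _ _ (norm_nonneg _) (norm_nonneg _) f2 g0,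
          m _ _ (norm_nonneg _) (norm_nonneg _) f1 g1, m _ _ (norm_nonneg _) (norm_nonneg _) f0 g2])
      (mero_of_diff dψ)
    have p2 := logCounting_top_entire dψ ρ1
    have p3 := log_mul_pow_le (a := 4 * K0 ^ 2) (by nlinarith) l1 (by linarith) 6
    rw [T_eq]
    push_cast at p3
    nlinarith
  · have p1 := proximity_le_mul mu hP.rg.mero (by linarith : 0 < ρ k) KE (fun z hz => by
      obtain ⟨-, b, c, ⟨f0, f1, -⟩, -⟩ := hc z hz
      have e : u z = F z * deriv F z / C.P (F z) - deriv F z / C.P (F z) * G z := by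
        rw [(hu z hz).1]; field_simp
      rw [e]
      refine (norm_sub_le _ _).trans ?_
      rw [norm_mul, mul_add, mul_one]
      gcongr)
    have p2 := logCounting_top_entire hP.du ρ1
    have p3 := proximity_le_T G ρ1
    rw [T_eq]
    nlinarith
  · have p1 := proximity_le_mul mw hP.rf.mero (by linarith : 0 < ρ k) KE (fun z hz => by
      obtain ⟨-, b, c, -, ⟨g0, g1, -⟩⟩ := hc z hz
      have e : w z = deriv G z / C.P (G z) * F z - G z * deriv G z / C.P (G z) := by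
        rw [(hu z hz).2]; field_simp
      rw [e]
      refine (norm_sub_le _ _).trans ?_
      rw [norm_mul, mul_add, mul_one, add_comm]
      gcongr)
    have p2 := logCounting_top_entire hP.dw ρ1
    have p3 := proximity_le_T F ρ1
    rw [T_eq]
    nlinarith

end Cnt

end Pool.Agent.Lib.MP_bb1814_an
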