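import Mathlib
import Pool.Agent.Lib.MP_bb1814_an.CountB

/-!
The growth of `eta` and the lower bound for the points with small multiplicity ratio.
-/

namespace Pool.Agent.Lib.MP_bb1814_an

open Filter Topology Set Metric Real ValueDistribution

namespace Cnt

variable {C : Cub} {F G u w : ℂ → ℂ}

/-- The zeros of `u w`. -/
def Zs (u w : ℂ → ℂ) : Set ℂ := {z | u z * w z = 0}

lemma nz_psi (hP : Pair C F G u w) : NZ fun z => u z * w z :=
  nz_mul (mero_of_diff hP.du) (mero_of_diff hP.dw) (pair_nz_u hP) (pair_nz_w hP)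

lemma diff_psi (hP : Pair C F G u w) : Differentiable ℂ fun z => u z * w z := hP.du.mul hP.dw

lemma locFin_Zs (hP : Pair C F G u w) : LocFin (Zs u w) :=
  (locFin_order (mero_of_diff (diff_psi hP)) (nz_psi hP)).mono fun z hz h =>
    (order_eq_zero_iff ((diff_psi hP).analyticAt z)).1 h hz

lemma one_le_order {F : ℂ → ℂ} {z : ℂ} (hF : AnalyticAt ℂ F z) (h : F z = 0) :
    (((1 : ℕ) : ℤ) : WithTop ℤ) ≤ meromorphicOrderAt F z := by
  have h1 := hF.meromorphicOrderAt_nonneg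
  have h2 : meromorphicOrderAt F z ≠ 0 := fun h0 => (order_eq_zero_iff hF).1 h0 h
  cases h3 : meromorphicOrderAt F z with
  | top => exact le_top
  | coe n =>
    rw [h3] at h1 h2
    have a : (0 : ℤ) ≤ n := by exact_mod_cast h1
    have b : n ≠ 0 := by exact_mod_cast h2
    exact_mod_cast (by omega : ((1 : ℕ) : ℤ) ≤ n)

lemma Nb_Zs_le (hP : Pair C F G u w) (S : Scale (Ga F G)) : ∃ c : ℝ, 0 ≤ c ∧ ∀ᶠ k in atTop,
    ∀ ρ, 1 ≤ ρ → ρ ≤ S.rr k 5 → Nb (Zs u w) ρ ≤ c * log (Ga F G (S.r k)) := by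
  obtain ⟨c, hc0, hc⟩ := circleB hP S
  have mψ := mero_of_diff (diff_psi hP)
  obtain ⟨c', hc'0, hc'⟩ := fmt0 mψ
  refine ⟨c + c', by linarith, ?_⟩
  filter_upwards [hc] with k hk ρ h1 h2
  have e1 := Nb_le_zeros mψ (nz_psi hP) (X := Zs u w) (m := 1)
    (fun z hz => one_le_order ((diff_psi hP).analyticAt z) hz) le_rfl h1
  have e2 := (hc' ρ h1).1
  have e3 := T_mono mψ h1 h2
  have l1 := one_lt_l S k
  push_cast at e1
  nlinarith [hk.1]

/-- Growth of `eta`. -/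
lemma circleC (hP : Pair C F G u w) (S : Scale (Ga F G)) : ∃ c : ℝ, 0 ≤ c ∧ ∀ᶠ k in atTop,
    T (eta u w) (S.rr k 2) ≤ c * log (Ga F G (S.r k)) := by
  obtain ⟨c, hc0, hc⟩ := circleB hP S
  obtain ⟨c', hc'0, hc'⟩ := Nb_Zs_le hP S
  have mu := mero_of_diff hP.du
  have mw := mero_of_diff hP.dw
  obtain ⟨ρ, hρ⟩ := good_circle S 2 (by norm_num) (fun j : Bool => bif j then u else w)
    (by rintro (_ | _); exacts [mw, mu])
    (by rintro (_ | _); exacts [pair_nz_w hP, pair_nz_u hP])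
    (by
      rintro (_ | _)
      · exact ⟨c, hc.mono fun k hk => hk.2.2⟩
      · exact ⟨c, hc.mono fun k hk => hk.2.1⟩)
  refine ⟨c' + 3, by linarith, ?_⟩
  filter_upwards [hρ, hc'] with k ⟨h1, h2, h3⟩ h4
  set g := Ga F G (S.r k) with hg
  have g3 : 3 ≤ g := S.three_le k
  have ρ1 : 1 ≤ ρ k := (one_le_rr S k 2).trans h1
  have me := mero_eta mu mw
  refine (T_mono me (one_le_rr S k 2) h1).trans ?_
  have p1 := proximity_le_of_bound (F := eta u w) (E := g ^ 3) (by linarith : 0 < ρ k)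
    (one_le_pow₀ (by linarith)) (fun z hz => by
      have a : ‖deriv u z / u z‖ ≤ g ^ 3 := (h3 true z hz).2 (hP.du.analyticAt z)
      have b : ‖deriv w z / w z‖ ≤ g ^ 3 := (h3 false z hz).2 (hP.dw.analyticAt z)
      unfold eta
      rw [norm_div, Complex.norm_ofNat]
      linarith [norm_sub_le (deriv u z / u z) (deriv w z / w z)]) me
  have p2 := poles_le_Nb me (locFin_Zs hP)
    (eta_poles hP.du hP.dw (pair_nz_u hP) (pair_nz_w hP)) ρ1
  have p3 := h4 _ ρ1 (h2.trans (rr_mono S k (by norm_num)))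
  rw [log_pow] at p1
  rw [T_eq]
  push_cast at p1
  linarith

/-- Points with different multiplicities, a small ratio of multiplicities and `u ≠ 0`. -/
def X2 (C : Cub) (F G u w : ℂ → ℂ) : Set ℂ :=
  {y | y ∈ NonCM C F G ∧ u y ≠ 0 ∧ ∃ p : ℕ, 2 ≤ p ∧ p ≤ 48 ∧ (u y = p * w y ∨ w y = p * u y)}

/-- Points where a root is taken with high multiplicity. -/
def Hi (C : Cub) (F : ℂ → ℂ) (j : Fin 3) : Set ℂ :=
  {z | (((49 : ℕ) : ℤ) : WithTop ℤ) ≤ meromorphicOrderAt (fun x => F x - C.e j) z}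

lemma mero_sub {F : ℂ → ℂ} (hF : Meromorphic F) (a : ℂ) : Meromorphic fun z => F z - a :=
  fun z => (hF z).sub (MeromorphicAt.const a z)

lemma locFin_Hi {F : ℂ → ℂ} (hF : Meromorphic F)
    (hnc : ∀ c z, meromorphicOrderAt (fun x => F x - c) z ≠ ⊤) (j : Fin 3) :
    LocFin (Hi C F j) :=
  (locFin_order (mero_sub hF _) (hnc (C.e j))).mono fun z hz h => by
    simp only [Hi, mem_ofPred_eq, h] at hz
    exact absurd hz (by decide)

lemma locFin_Hi3 {F : ℂ → ℂ} (hF : Meromorphic F)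
    (hnc : ∀ c z, meromorphicOrderAt (fun x => F x - c) z ≠ ⊤) :
    LocFin (Hi C F 0 ∪ Hi C F 1 ∪ Hi C F 2) :=
  ((locFin_Hi hF hnc 0).union (locFin_Hi hF hnc 1)).union (locFin_Hi hF hnc 2)

lemma Nb_Hi3 {F : ℂ → ℂ} (hF : Meromorphic F)
    (hnc : ∀ c z, meromorphicOrderAt (fun x => F x - c) z ≠ ⊤) : ∃ c : ℝ, 0 ≤ c ∧ ∀ r, 1 ≤ r →
    49 * Nb (Hi C F 0 ∪ Hi C F 1 ∪ Hi C F 2) r ≤ 3 * T F r + c := by
  have key : ∀ j, ∃ c : ℝ, ∀ r, 1 ≤ r → 49 * Nb (Hi C F j) r ≤ T F r + c := by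
    intro j
    obtain ⟨c, hc⟩ := fmt hF (C.e j)
    refine ⟨c, fun r hr => ?_⟩
    have := Nb_le_zeros (mero_sub hF _) (hnc (C.e j)) (X := Hi C F j) (m := 49)
      (fun z hz => hz) (by norm_num) hr
    push_cast at this
    exact this.trans (hc r hr).2.2.1
  choose c hc using key
  refine ⟨|c 0 + c 1 + c 2|, abs_nonneg _, fun r hr => ?_⟩
  have h1 := Nb_union_le ((locFin_Hi (C := C) hF hnc 0).union (locFin_Hi (C := C) hF hnc 1))
    (locFin_Hi (C := C) hF hnc 2) hr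
  have h2 := Nb_union_le (locFin_Hi (C := C) hF hnc 0) (locFin_Hi (C := C) hF hnc 1) hr
  linarith [hc 0 r hr, hc 1 r hr, hc 2 r hr, le_abs_self (c 0 + c 1 + c 2)]

lemma mem_Hi3 {F : ℂ → ℂ} {z a : ℂ} (ha : C.P a = 0) {n : ℕ} (hn : 49 ≤ n)
    (h : meromorphicOrderAt (fun x => F x - a) z = (n : ℤ)) :
    z ∈ Hi C F 0 ∪ Hi C F 1 ∪ Hi C F 2 := by
  obtain ⟨j, rfl⟩ := C.P_eq_zero_iff.1 ha
  have : z ∈ Hi C F j := by
    simp only [Hi, mem_ofPred_eq, h]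
    exact_mod_cast hn
  fin_cases j
  · exact Or.inl (Or.inl this)
  · exact Or.inl (Or.inr this)
  · exact Or.inr this

lemma locFin_NonCM (hP : Pair C F G u w) : LocFin (NonCM C F G) := by
  have h := fun j => locFin_order (mero_sub hP.rf.mero (C.e j)) (hP.ncf (C.e j))
  refine (((h 0).union (h 1)).union (h 2)).mono ?_
  rintro z ⟨h1, h2, -⟩
  obtain ⟨j, hj⟩ := C.P_eq_zero_iff.1 h2
  have : meromorphicOrderAt (fun x => F x - C.e j) z ≠ 0 := fun h0 =>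
    (order_eq_zero_iff (F := fun x => F x - C.e j) (h1.sub analyticAt_const)).1 h0
      (sub_eq_zero.2 hj)
  fin_cases j
  · exact Or.inl (Or.inl this)
  · exact Or.inl (Or.inr this)
  · exact Or.inr this

lemma locFin_X2 (hP : Pair C F G u w) : LocFin (X2 C F G u w) :=
  (locFin_NonCM hP).mono fun _ hz => hz.1

lemma NonCM_subset (hP : Pair C F G u w) : NonCM C F G ⊆
    ((Zs u w ∪ (Hi C F 0 ∪ Hi C F 1 ∪ Hi C F 2)) ∪ (Hi C G 0 ∪ Hi C G 1 ∪ Hi C G 2)) ∪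
      X2 C F G u w := by
  intro z hz
  obtain ⟨h1, h2, h3⟩ := hz
  by_cases hu : u z = 0
  · exact Or.inl (Or.inl (Or.inl (by simp [Zs, hu])))
  obtain ⟨n, hn, ⟨a, b, c⟩ | ⟨a, b, c⟩⟩ := hP.root_local h1 h2 hu
  · by_cases h49 : 49 ≤ n
    · exact Or.inl (Or.inl (Or.inr (mem_Hi3 h2 h49 a)))
    · refine Or.inr ⟨⟨h1, h2, h3⟩, hu, n, ?_, by omega, Or.inl c⟩
      by_contra hlt
      obtain rfl : n = 1 := by omega
      exact h3 (by rw [a, b]; rfl)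
  · by_cases h49 : 49 ≤ n
    · exact Or.inl (Or.inr (mem_Hi3 h2 h49 b))
    · refine Or.inr ⟨⟨h1, h2, h3⟩, hu, n, ?_, by omega, Or.inr c⟩
      by_contra hlt
      obtain rfl : n = 1 := by omega
      exact h3 (by rw [a, b]; rfl)

lemma eventually_log_le {H : ℝ → ℝ} (S : Scale H) (a : ℝ) (n : ℕ) {ε : ℝ} (hε : 0 < ε) :
    ∀ᶠ k in atTop, a * log (H (S.r k)) ^ n ≤ ε * H (S.r k) := by
  have h := (isLittleO_pow_log_id_atTop (n := n)).comp_tendsto S.tendstoG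
  have h2 := h.def (c := ε / (|a| + 1)) (by positivity)
  filter_upwards [h2] with k hk
  have l1 := one_lt_l S k
  have g3 := S.three_le k
  simp only [Function.comp, id, Real.norm_eq_abs] at hk
  rw [abs_of_nonneg (by positivity), abs_of_nonneg (a := H (S.r k)) (by linarith)] at hk
  have h3 : a * log (H (S.r k)) ^ n ≤ (|a| + 1) * log (H (S.r k)) ^ n := by
    gcongr; linarith [le_abs_self a]
  refine h3.trans ?_
  calc (|a| + 1) * log (H (S.r k)) ^ n ≤ (|a| + 1) * (ε / (|a| + 1) * H (S.r k)) := by gcongr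
    _ = ε * H (S.r k) := by field_simp

/-- Many points of `X2`. -/
lemma circleA (hP : Pair C F G u w) (S : Scale (Ga F G)) {ι : Type} [Fintype ι]
    (φ : ι → ℂ → ℂ) (h1 : ∀ j, Meromorphic (φ j)) (h2 : ∀ j z, meromorphicOrderAt (φ j) z ≠ ⊤)
    (h3 : ∀ j, ∃ c : ℝ, ∀ r : ℝ, 1 ≤ r → T (φ j) r ≤ T F r + T G r + c) {K : ℝ}
    (hK : ∀ ρ E : ℝ, 1 ≤ ρ → 1 ≤ E →
      (∀ j, ∀ z : ℂ, ‖z‖ = ρ → meromorphicOrderAt (φ j) z = 0 ∧
        (AnalyticAt ℂ (φ j) z → ‖deriv (φ j) z / φ j z‖ ≤ E)) →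
      T F ρ + T G ρ ≤ 8 * Nb (NonCM C F G) ρ + K * log E + K) :
    ∃ ρ : ℕ → ℝ, ∀ᶠ k in atTop, S.r k ≤ ρ k ∧ ρ k ≤ S.rr k 1 ∧
      Ga F G (S.r k) / 20 ≤ Nb (X2 C F G u w) (ρ k) := by
  obtain ⟨ρ, hρ⟩ := good_circle S 0 (by norm_num) φ h1 h2 (fun j => by
    obtain ⟨c, hc⟩ := h3 j
    refine ⟨3 + |c|, Eventually.of_forall fun k => ?_⟩
    have a := hc _ (one_le_rr S k 3)
    have b := (TF_le S k (one_le_rr S k 3) (rr_mono S k (by norm_num))).1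
    have g3 := S.three_le k
    show T (φ j) (S.rr k 3) ≤ _
    nlinarith [le_abs_self c, abs_nonneg c])
  obtain ⟨c, hc0, hc⟩ := Nb_Zs_le hP S
  obtain ⟨c1, hc10, hc1⟩ := Nb_Hi3 (C := C) hP.rf.mero hP.ncf
  obtain ⟨c2, hc20, hc2⟩ := Nb_Hi3 (C := C) hP.rg.mero hP.ncg
  refine ⟨ρ, ?_⟩
  filter_upwards [hρ, hc, eventually_log_le S (8 * c + 4 * |K| + c1 + c2 + 3) 1
    (by norm_num : (0 : ℝ) < 1 / 10)] with k ⟨a1, a2, a3⟩ a4 a5
  rw [rr_zero] at a1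
  refine ⟨a1, a2, ?_⟩
  set g := Ga F G (S.r k) with hg
  have g3 : 3 ≤ g := S.three_le k
  have l1 : 1 < log g := one_lt_l S k
  have ρ1 : 1 ≤ ρ k := (S.one_le k).trans a1
  have b1 := hK (ρ k) (g ^ 3) ρ1 (one_le_pow₀ (by linarith)) a3
  have b2 : g ≤ T F (ρ k) + T G (ρ k) + 3 := le_H S k a1
  have b3 := a4 _ ρ1 (a2.trans (rr_mono S k (by norm_num)))
  have f1 := locFin_Zs hP
  have f2 := locFin_Hi3 (C := C) hP.rf.mero hP.ncf
  have f3 := locFin_Hi3 (C := C) hP.rg.mero hP.ncg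
  have f4 := locFin_X2 hP
  have b4 := Nb_mono (((f1.union f2).union f3).union f4) (NonCM_subset hP) ρ1
  have b5 := Nb_union_le ((f1.union f2).union f3) f4 ρ1
  have b6 := Nb_union_le (f1.union f2) f3 ρ1
  have b7 := Nb_union_le f1 f2 ρ1
  have b8 := hc1 _ ρ1
  have b9 := hc2 _ ρ1
  rw [log_pow] at b1
  push_cast at b1
  rw [pow_one] at a5
  have k1 : K * (3 * log g) + K ≤ 4 * |K| * log g := by
    nlinarith [le_abs_self K, abs_nonneg K]
  nlinarith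

end Cnt

end Pool.Agent.Lib.MP_bb1814_an
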