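import Mathlib
import Pool.Agent.Lib.MP_bb1814_an.CountC

/-!
Consequences of the factorisation on a disc.
-/

namespace Pool.Agent.Lib.MP_bb1814_an

open Filter Topology Set Metric Real ValueDistribution

namespace Cnt

lemma fac_est {Φ h : ℂ → ℂ} {ρ : ℝ} {B : Finset ℂ} {ν : ℂ → ℤ} (hB : ∀ b ∈ B, ‖b‖ ≤ ρ)
    (hh : AnalyticOnNhd ℂ h (closedBall 0 ρ)) (hh0 : ∀ z ∈ closedBall (0 : ℂ) ρ, h z ≠ 0)
    (hprod : ∀ z ∈ ball (0 : ℂ) ρ, AnalyticAt ℂ Φ z → Φ z = (∏ b ∈ B, (z - b) ^ ν b) * h z)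
    {z : ℂ} (hz : ‖z‖ < ρ) (haz : AnalyticAt ℂ Φ z) {d r n A1 A2 : ℝ} (hd : 0 < d) (hdr : d ≤ r)
    (hρr : ρ ≤ 4 * r) (hdb : ∀ b ∈ B, d ≤ ‖z - b‖) (hn : ∑ b ∈ B, |(ν b : ℝ)| ≤ n)
    (h1 : ‖deriv h z / h z‖ ≤ A1) (h2 : |log ‖h z‖ + (∑ b ∈ B, (ν b : ℝ)) * log ρ| ≤ A2) :
    Φ z ≠ 0 ∧ ‖deriv Φ z / Φ z‖ ≤ n / d + A1 ∧ n * log (d / (4 * r)) - A2 ≤ log ‖Φ z‖ := by
  have hzb : ∀ b ∈ B, z - b ≠ 0 := fun b hb =>
    norm_pos_iff.1 (hd.trans_le (hdb b hb))
  have hzc : z ∈ closedBall (0 : ℂ) ρ := by simpa using hz.le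
  have hzo : z ∈ ball (0 : ℂ) ρ := by simpa using hz
  have hρ : 0 < ρ := (norm_nonneg z).trans_lt hz
  have hr : 0 < r := hd.trans_le hdr
  have hP : (∏ b ∈ B, (z - b) ^ ν b) ≠ 0 :=
    Finset.prod_ne_zero_iff.2 fun b hb => zpow_ne_zero _ (hzb b hb)
  have e0 := hprod z hzo haz
  refine ⟨by rw [e0]; exact mul_ne_zero hP (hh0 z hzc), ?_, ?_⟩
  · have e1 : Φ =ᶠ[𝓝 z] fun x => (∏ b ∈ B, (x - b) ^ ν b) * h x := by
      filter_upwards [haz.eventually_analyticAt, isOpen_ball.mem_nhds hzo] with x a b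
      exact hprod x b a
    have dz : ∀ b ∈ B, DifferentiableAt ℂ (fun x : ℂ => (x - b) ^ ν b) z := fun b hb =>
      (differentiableAt_id.sub_const b).zpow (Or.inl (hzb b hb))
    have e2 : logDeriv Φ z = ∑ b ∈ B, (ν b : ℂ) / (z - b) + logDeriv h z := by
      rw [(logDeriv_congr_nhds e1).self_of_nhds,
        logDeriv_mul (f := fun x => ∏ b ∈ B, (x - b) ^ ν b) z hP (hh0 z hzc)
          (DifferentiableAt.fun_finsetProd dz) (hh z hzc).differentiableAt,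
        logDeriv_prod (f := fun b x => (x - b) ^ ν b) (fun b hb => zpow_ne_zero _ (hzb b hb)) dz]
      congr 1
      refine Finset.sum_congr rfl fun b _ => ?_
      rw [logDeriv_fun_zpow (f := fun x => x - b) (differentiableAt_id.sub_const b),
        logDeriv_apply]
      simp [div_eq_mul_inv]
    rw [← logDeriv_apply, e2]
    refine (norm_add_le _ _).trans (add_le_add ((norm_sum_le _ _).trans ?_) h1)
    refine le_trans (Finset.sum_le_sum (g := fun b => |(ν b : ℝ)| / d) fun b hb => ?_) ?_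
    · rw [norm_div, Complex.norm_intCast]
      gcongr
      exact hdb b hb
    · rw [← Finset.sum_div]; gcongr
  · have L0 : log (d / (4 * r)) ≤ -log 2 := by
      rw [← log_inv]
      refine log_le_log (by positivity) ?_
      rw [div_le_iff₀ (by positivity)]
      linarith
    have l2 : 0 < log 2 := log_pos (by norm_num)
    have e3 : log ‖Φ z‖ = ∑ b ∈ B, (ν b : ℝ) * (log ‖z - b‖ - log ρ) +
        (log ‖h z‖ + (∑ b ∈ B, (ν b : ℝ)) * log ρ) := by
      rw [e0, norm_mul, log_mul (norm_ne_zero_iff.2 hP) (norm_ne_zero_iff.2 (hh0 z hzc)),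
        norm_prod, log_prod fun b hb => norm_ne_zero_iff.2 (zpow_ne_zero _ (hzb b hb))]
      simp only [norm_zpow, log_zpow, mul_sub, Finset.sum_sub_distrib, Finset.sum_mul]
      ring
    have e4 : ∀ b ∈ B, |(ν b : ℝ)| * log (d / (4 * r)) ≤ (ν b : ℝ) * (log ‖z - b‖ - log ρ) := by
      intro b hb
      have p := norm_pos_iff.2 (hzb b hb)
      have t1 : log (d / (4 * r)) ≤ log ‖z - b‖ - log ρ := by
        rw [← log_div p.ne' hρ.ne']
        refine log_le_log (by positivity) ?_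
        gcongr
        exact hdb b hb
      have t2 : log ‖z - b‖ - log ρ ≤ log 2 := by
        rw [← log_div p.ne' hρ.ne']
        refine log_le_log (by positivity) ?_
        rw [div_le_iff₀ hρ]
        linarith [norm_sub_le z b, hB b hb]
      rcases abs_cases (ν b : ℝ) with ⟨a1, a2⟩ | ⟨a1, a2⟩ <;> rw [a1] <;> nlinarith
    have e5 := Finset.sum_le_sum e4
    rw [← Finset.sum_mul] at e5
    have e6 : n * log (d / (4 * r)) ≤ (∑ b ∈ B, |(ν b : ℝ)|) * log (d / (4 * r)) :=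
      mul_le_mul_of_nonpos_right hn (by linarith)
    rw [e3]
    linarith [neg_abs_le (log ‖h z‖ + (∑ b ∈ B, (ν b : ℝ)) * log ρ)]

lemma card_le_sum {Φ : ℂ → ℂ} {B : Finset ℂ} {ν : ℂ → ℤ}
    (h0 : ∀ b ∈ B, meromorphicOrderAt Φ b ≠ 0) (h1 : ∀ b ∈ B, meromorphicOrderAt Φ b = ν b) :
    (B.card : ℝ) ≤ ∑ b ∈ B, |(ν b : ℝ)| := by
  rw [Finset.card_eq_sum_ones, Nat.cast_sum]
  refine Finset.sum_le_sum fun b hb => ?_
  have : ν b ≠ 0 := fun h => h0 b hb (by rw [h1 b hb, h]; rfl)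
  have h2 : (1 : ℤ) ≤ |ν b| := Int.one_le_abs this
  exact_mod_cast h2

/-- The factorisation of one factor of a product of two entire functions. -/
lemma fac_of_factor {u w : ℂ → ℂ} (hu : Differentiable ℂ u) (hw : Differentiable ℂ w)
    (h1 : NZ u) {ρ r' A a n : ℝ} (hρ : 0 < ρ) (hr' : r' < ρ) {B Bψ : Finset ℂ}
    {νψ : ℂ → ℤ} (hBψ : ∀ b, b ∈ Bψ ↔ ‖b‖ ≤ ρ ∧ meromorphicOrderAt (fun z => u z * w z) b ≠ 0)
    (hνψ : ∀ b ∈ Bψ, meromorphicOrderAt (fun z => u z * w z) b = νψ b) (hBB : Bψ ⊆ B)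
    (hn : ∑ b ∈ Bψ, |(νψ b : ℝ)| ≤ n) {M : ℕ} (hM : n ≤ M)
    (ha : circleAverage (fun ζ => |log ‖u ζ‖|) 0 ρ ≤ a)
    (hA : 2 * ρ / (ρ - r') ^ 2 * (a + 2 * n) ≤ A) : Fac u B M (ball 0 r') A := by
  classical
  obtain ⟨Bu, ν, h, b1, b2, b3, b4, b5, b6⟩ := factor_estimate (mero_of_diff hu) h1 hρ
  have ou : ∀ b, 0 ≤ meromorphicOrderAt u b := fun b => (hu.analyticAt b).meromorphicOrderAt_nonneg
  have ow : ∀ b, 0 ≤ meromorphicOrderAt w b := fun b => (hw.analyticAt b).meromorphicOrderAt_nonneg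
  have om : ∀ b, meromorphicOrderAt (fun z => u z * w z) b =
      meromorphicOrderAt u b + meromorphicOrderAt w b := fun b =>
    order_mul (mero_of_diff hu b) (mero_of_diff hw b)
  have sub : Bu ⊆ Bψ := fun b hb => by
    obtain ⟨c1, c2⟩ := (b1 b).1 hb
    refine (hBψ b).2 ⟨c1, fun h0 => c2 ?_⟩
    rw [om] at h0
    exact le_antisymm (h0 ▸ le_add_of_nonneg_right (ow b)) (ou b)
  have ν0 : ∀ b ∈ Bu, 0 ≤ ν b := fun b hb => by
    have := ou b
    rw [b2 b hb] at this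
    exact_mod_cast this
  have νle : ∀ b ∈ Bu, ν b ≤ νψ b := fun b hb => by
    have e := hνψ b (sub hb)
    rw [om, b2 b hb] at e
    have : ((ν b : ℤ) : WithTop ℤ) ≤ (νψ b : ℤ) := e ▸ le_add_of_nonneg_right (ow b)
    exact_mod_cast this
  have hsum : ∑ b ∈ Bu, |(ν b : ℝ)| ≤ n := by
    refine le_trans (Finset.sum_le_sum (g := fun b => |(νψ b : ℝ)|) fun b hb => ?_)
      ((Finset.sum_le_sum_of_subset_of_nonneg sub fun _ _ _ => abs_nonneg _).trans hn)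
    have c1 : (0 : ℝ) ≤ ν b := by exact_mod_cast ν0 b hb
    have c2 : (ν b : ℝ) ≤ νψ b := by exact_mod_cast νle b hb
    rw [abs_of_nonneg c1]
    exact c2.trans (le_abs_self _)
  have inter : B.filter (· ∈ Bu) = Bu := by
    ext b; simp only [Finset.mem_filter]
    exact ⟨fun h => h.2, fun h => ⟨hBB (sub h), h⟩⟩
  have a0 : 0 ≤ circleAverage (fun ζ => |log ‖u ζ‖|) 0 ρ :=
    circleAverage_nonneg_of_nonneg fun _ _ => abs_nonneg _
  have s0 : 0 ≤ ∑ b ∈ Bu, |(ν b : ℝ)| := Finset.sum_nonneg fun _ _ => abs_nonneg _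
  refine ⟨fun b => if b ∈ Bu then (ν b).toNat else 0, h, ?_,
    b3.mono (ball_subset_closedBall.trans (closedBall_subset_closedBall hr'.le)), fun z hz => ?_⟩
  · rw [← Finset.sum_filter, inter]
    have : ((∑ b ∈ Bu, (ν b).toNat : ℕ) : ℝ) ≤ M := by
      refine le_trans (le_of_eq ?_) (hsum.trans hM)
      rw [Nat.cast_sum]
      refine Finset.sum_congr rfl fun b hb => ?_
      have c1 : (0 : ℝ) ≤ ν b := by exact_mod_cast ν0 b hb
      rw [abs_of_nonneg c1]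
      exact_mod_cast Int.toNat_of_nonneg (ν0 b hb)
    exact_mod_cast this
  · have hz' : ‖z‖ < r' := by simpa using hz
    have hz2 : ‖z‖ < ρ := hz'.trans hr'
    refine ⟨b4 z (by simpa using hz2.le), ?_, (b6 z hz2).1.trans (le_trans ?_ hA)⟩
    · rw [b5 z (by simpa using hz2) (hu.analyticAt z)]
      congr 1
      simp only [pow_ite, pow_zero]
      rw [← Finset.prod_filter, inter]
      refine Finset.prod_congr rfl fun b hb => ?_
      rw [← zpow_natCast, Int.toNat_of_nonneg (ν0 b hb)]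
    · have : 0 < ρ - r' := by linarith
      gcongr

end Cnt

end Pool.Agent.Lib.MP_bb1814_an
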