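import Mathlib
import Pool.Agent.Lib.MP_bb1814_an.CountD

/-!
The hypotheses of the selection lemma.
-/

namespace Pool.Agent.Lib.MP_bb1814_an

open Filter Topology Set Metric Real ValueDistribution

namespace Cnt

lemma big_exp {c l : ℝ} {M : ℕ} (hl : 2 ≤ l) (hcl : 447024 * c ≤ l) (hc : 0 ≤ c)
    (hM : l ^ 8 ≤ M) : 4608 * l ^ 4 * (c * exp l + 96 * c * l ^ 3) ≤ exp M := by
  have e1 : l ≤ exp l := by linarith [add_one_le_exp l]
  have e0 : 1 ≤ exp l := by linarith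
  have l0 : 0 ≤ l := by linarith
  have h1 : 4608 * l ^ 4 * (c * exp l + 96 * c * l ^ 3) ≤ exp l ^ 8 := by
    have a1 : l ^ 4 ≤ exp l ^ 4 := by gcongr
    have a2 : l ^ 3 ≤ exp l ^ 3 := by gcongr
    have a3 : exp l ≤ exp l ^ 3 := le_self_pow₀ e0 (by norm_num)
    calc 4608 * l ^ 4 * (c * exp l + 96 * c * l ^ 3)
        ≤ 4608 * exp l ^ 4 * (c * exp l ^ 3 + 96 * c * exp l ^ 3) := by gcongr
      _ = (446976 * c) * exp l ^ 7 := by ring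
      _ ≤ exp l * exp l ^ 7 := by gcongr; linarith
      _ = exp l ^ 8 := by ring
  refine h1.trans ?_
  rw [← exp_nat_mul]
  refine exp_le_exp.2 (le_trans ?_ hM)
  have : (2 : ℝ) ^ 7 ≤ l ^ 7 := by gcongr
  push_cast
  nlinarith

lemma geom {R r x m : ℝ} (hR : 1 ≤ R) (x0 : 0 < x) (x1 : x ≤ 1 / 96) (hr2 : r ≤ R * (1 + 3 * x))
    (m0 : 0 ≤ m) (mx : m ≤ x / 2) :
    1 ≤ R * (1 + 5 * x) ∧ R * (1 + 5 * x) ≤ 2 * R ∧ r ≤ 2 * R ∧
      R * (1 + 5 * x) < R * (1 + 6 * x) ∧ R * x ≤ R * (1 + 5 * x) - r * (1 + m) ∧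
      x / 2 ≤ log (R * (1 + 6 * x) / (R * (1 + 5 * x))) := by
  have R0 : 0 < R := by linarith
  have Rx := mul_pos R0 x0
  have Rx1 : R * x ≤ R / 96 := by nlinarith
  refine ⟨by linarith, by linarith, by linarith, by linarith, ?_, ?_⟩
  · have : r * (1 + m) ≤ R * (1 + 3 * x) * (1 + x / 2) := by gcongr
    nlinarith
  · have h := one_sub_inv_le_log_of_pos
      (show 0 < R * (1 + 6 * x) / (R * (1 + 5 * x)) by positivity)
    refine le_trans ?_ h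
    rw [inv_div, mul_div_mul_left _ _ R0.ne', le_sub_comm, div_le_iff₀ (by positivity)]
    nlinarith

lemma M_bounds {l x M : ℝ} (hl : 2 ≤ l) (hM : l ^ 8 ≤ M) (x0 : 0 < x) (xl : x * (24 * l ^ 2) = 1) :
    0 < M ∧ 1 / M ≤ x / 2 := by
  have l6 : (64 : ℝ) ≤ l ^ 6 := by
    calc (64 : ℝ) = 2 ^ 6 := by norm_num
      _ ≤ l ^ 6 := by gcongr
  have l2 : 0 < l ^ 2 := by positivity
  have M1 : 64 * l ^ 2 ≤ M := by nlinarith
  have M0 : 0 < M := by linarith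
  refine ⟨M0, ?_⟩
  rw [div_le_iff₀ M0]; nlinarith

lemma select_hyp {u w : ℂ → ℂ} (hu : Differentiable ℂ u) (hw : Differentiable ℂ w)
    (h1 : NZ u) (h2 : NZ w) (h3 : NZ (eta u w)) {R l c r : ℝ} {M : ℕ} (hR : 1 ≤ R) (hl : 2 ≤ l)
    (hc : 0 ≤ c) (hcl : 447024 * c ≤ l) (hM : l ^ 8 ≤ M) (hr1 : R ≤ r)
    (hr2 : r ≤ R * (1 + 1 / (8 * l ^ 2)))
    (aψ : circleAverage (fun ζ => |log ‖u ζ * w ζ‖|) 0 (R * (1 + 5 / (24 * l ^ 2))) ≤ c * l)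
    (aη : circleAverage (fun ζ => |log ‖eta u w ζ‖|) 0 (R * (1 + 5 / (24 * l ^ 2))) ≤ c * l)
    (au : circleAverage (fun ζ => |log ‖u ζ‖|) 0 (R * (1 + 5 / (24 * l ^ 2))) ≤ c * exp l)
    (aw : circleAverage (fun ζ => |log ‖w ζ‖|) 0 (R * (1 + 5 / (24 * l ^ 2))) ≤ c * exp l)
    (nψ : logCounting (fun z => u z * w z) 0 (R * (1 + 2 / (8 * l ^ 2))) +
      logCounting (fun z => u z * w z) ⊤ (R * (1 + 2 / (8 * l ^ 2))) ≤ c * l)
    (nη : logCounting (eta u w) 0 (R * (1 + 2 / (8 * l ^ 2))) +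
      logCounting (eta u w) ⊤ (R * (1 + 2 / (8 * l ^ 2))) ≤ c * l) :
    ∃ B : Finset ℂ, B.card ≤ M ∧ Fac u B M (ball 0 (r * (1 + 1 / M))) (exp M / r) ∧
      Fac w B M (ball 0 (r * (1 + 1 / M))) (exp M / r) ∧
      ∀ z ∈ ball (0 : ℂ) (r * (1 + 1 / M)), ∀ d : ℝ, 0 < d → d ≤ r → (∀ b ∈ B, d ≤ ‖z - b‖) →
        ‖deriv (eta u w) z‖ ≤ M / d * ‖eta u w z‖ ∧
        ‖deriv u z / u z + deriv w z / w z‖ ≤ M / d ∧
        exp (-M) * (d / (4 * r)) ^ M ≤ ‖eta u w z‖ ∧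
        exp (-M) * (d / (4 * r)) ^ M ≤ ‖u z * w z‖ := by
  classical
  set x := 1 / (24 * l ^ 2) with hx
  have l0 : 0 < l := by linarith
  have l2 : 4 ≤ l ^ 2 := by nlinarith
  have x0 : 0 < x := by positivity
  have x1 : x ≤ 1 / 96 := by rw [hx]; gcongr; linarith
  have xl : x * (24 * l ^ 2) = 1 := by rw [hx]; field_simp
  have q1 : (5 : ℝ) / (24 * l ^ 2) = 5 * x := by rw [hx]; ring
  have q2 : (2 : ℝ) / (8 * l ^ 2) = 6 * x := by rw [hx]; field_simp; norm_num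
  have q3 : (1 : ℝ) / (8 * l ^ 2) = 3 * x := by rw [hx]; field_simp; norm_num
  rw [q1] at aψ aη au aw
  rw [q2] at nψ nη
  rw [q3] at hr2
  set ρ := R * (1 + 5 * x) with hρ
  set ρ' := R * (1 + 6 * x) with hρ'
  set r' := r * (1 + 1 / M) with hr'
  have R0 : 0 < R := by linarith
  have r0 : 0 < r := by linarith
  obtain ⟨M0, Mx⟩ := M_bounds hl hM x0 xl
  obtain ⟨ρ1, ρ2, r2, ρρ, gap, lg⟩ := geom hR x0 x1 hr2 (by positivity) Mx
  rw [← hρ] at ρ1 ρ2 ρρ gap lg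
  rw [← hρ'] at ρρ lg
  rw [← hr'] at gap
  have ρ0 : 0 < ρ := by linarith
  have gap0 : 0 < ρ - r' := lt_of_lt_of_le (mul_pos R0 x0) gap
  have cnt : ∀ s : ℝ, 0 ≤ s → s * log (ρ' / ρ) ≤ c * l → s ≤ 48 * c * l ^ 3 := by
    intro s hs h
    have : s * (x / 2) ≤ c * l := le_trans (by gcongr) h
    calc s = s * (x / 2) * (48 * l ^ 2) := by linear_combination (-s) * xl
      _ ≤ c * l * (48 * l ^ 2) := by gcongr
      _ = _ := by ring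
  have k1 : ∀ t : ℝ, t ≤ r' → 2 * ρ / (ρ - t) ^ 2 ≤ 4608 * l ^ 4 / r := by
    intro t ht
    calc 2 * ρ / (ρ - t) ^ 2 ≤ 2 * (2 * R) / (R * x) ^ 2 := by gcongr; linarith
      _ = 2304 * l ^ 4 / R := by rw [hx]; field_simp; norm_num
      _ ≤ 4608 * l ^ 4 / r := by
        rw [div_le_div_iff₀ R0 r0]
        calc 2304 * l ^ 4 * r ≤ 2304 * l ^ 4 * (2 * R) := by gcongr
          _ = _ := by ring
  have k2 : ∀ t : ℝ, t ≤ r' → 2 * ρ / (ρ - t) ≤ 96 * l ^ 2 := by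
    intro t ht
    calc 2 * ρ / (ρ - t) ≤ 2 * (2 * R) / (R * x) := by gcongr; linarith
      _ = 96 * l ^ 2 := by rw [hx]; field_simp; norm_num
  have dψ : Differentiable ℂ fun z => u z * w z := hu.mul hw
  have mψ := mero_of_diff dψ
  have zψ := nz_mul (mero_of_diff hu) (mero_of_diff hw) h1 h2
  have mη := mero_eta (mero_of_diff hu) (mero_of_diff hw)
  obtain ⟨Bψ, νψ, hψ, b1, b2, b3, b4, b5, b6⟩ := factor_estimate mψ zψ ρ0
  obtain ⟨Bη, νη, hη, c1, c2, c3, c4, c5, c6⟩ := factor_estimate mη h3 ρ0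
  have sψ : ∑ b ∈ Bψ, |(νψ b : ℝ)| ≤ 48 * c * l ^ 3 :=
    cnt _ (Finset.sum_nonneg fun _ _ => abs_nonneg _)
      ((count_le mψ zψ ρ1 ρρ Bψ νψ (fun b hb => ((b1 b).1 hb).1) b2).trans nψ)
  have sη : ∑ b ∈ Bη, |(νη b : ℝ)| ≤ 48 * c * l ^ 3 :=
    cnt _ (Finset.sum_nonneg fun _ _ => abs_nonneg _)
      ((count_le mη h3 ρ1 ρρ Bη νη (fun b hb => ((c1 b).1 hb).1) c2).trans nη)
  have p7 : 447024 * c * l ^ 7 ≤ M := le_trans (by
    calc 447024 * c * l ^ 7 ≤ l * l ^ 7 := by gcongr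
      _ = l ^ 8 := by ring) hM
  have p13 : c * l ≤ c * l ^ 3 := by gcongr; exact le_self_pow₀ (by linarith) (by norm_num)
  have p37 : c * l ^ 3 ≤ c * l ^ 7 := by gcongr <;> [linarith; norm_num]
  have p57 : c * l ^ 5 ≤ c * l ^ 7 := by gcongr <;> [linarith; norm_num]
  have c30 : 0 ≤ c * l ^ 3 := by positivity
  have facA : 2 * ρ / (ρ - r') ^ 2 * (c * exp l + 2 * (48 * c * l ^ 3)) ≤ exp M / r := by
    calc _ ≤ 4608 * l ^ 4 / r * (c * exp l + 2 * (48 * c * l ^ 3)) :=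
          mul_le_mul_of_nonneg_right (k1 _ le_rfl) (by positivity)
      _ = 4608 * l ^ 4 * (c * exp l + 96 * c * l ^ 3) / r := by ring
      _ ≤ _ := by gcongr; exact big_exp hl hcl hc hM
  refine ⟨Bψ ∪ Bη, ?_, fac_of_factor hu hw h1 ρ0 (by linarith) b1 b2 Finset.subset_union_left sψ
    (by linarith) au facA, fac_of_factor (νψ := νψ) hw hu h2 ρ0 (by linarith)
    (by simpa only [mul_comm] using b1) (by simpa only [mul_comm] using b2)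
    Finset.subset_union_left sψ (by linarith) aw facA, fun z hz d hd hdr hdb => ?_⟩
  · have e1 := card_le_sum (fun b hb => ((b1 b).1 hb).2) b2
    have e2 := card_le_sum (fun b hb => ((c1 b).1 hb).2) c2
    have e3 : ((Bψ ∪ Bη).card : ℝ) ≤ Bψ.card + Bη.card := by
      exact_mod_cast Finset.card_union_le Bψ Bη
    have : ((Bψ ∪ Bη).card : ℝ) ≤ M := by linarith
    exact_mod_cast this
  have hz1 : ‖z‖ < r' := by simpa using hz
  have hz2 : ‖z‖ < ρ := by linarith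
  have est : ∀ {Φ h : ℂ → ℂ} {B : Finset ℂ} {ν : ℂ → ℤ}, (∀ b ∈ B, ‖b‖ ≤ ρ) →
      AnalyticOnNhd ℂ h (closedBall 0 ρ) → (∀ z ∈ closedBall (0 : ℂ) ρ, h z ≠ 0) →
      (∀ z ∈ ball (0 : ℂ) ρ, AnalyticAt ℂ Φ z → Φ z = (∏ b ∈ B, (z - b) ^ ν b) * h z) →
      AnalyticAt ℂ Φ z → (∀ b ∈ B, d ≤ ‖z - b‖) → ∑ b ∈ B, |(ν b : ℝ)| ≤ 48 * c * l ^ 3 →
      circleAverage (fun ζ => |log ‖Φ ζ‖|) 0 ρ ≤ c * l →
      (‖deriv h z / h z‖ ≤ 2 * ρ / (ρ - ‖z‖) ^ 2 *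
          (circleAverage (fun ζ => |log ‖Φ ζ‖|) 0 ρ + 2 * ∑ b ∈ B, |(ν b : ℝ)|) ∧
        |log ‖h z‖ + (∑ b ∈ B, (ν b : ℝ)) * log ρ| ≤ 2 * ρ / (ρ - ‖z‖) *
          (circleAverage (fun ζ => |log ‖Φ ζ‖|) 0 ρ + 2 * ∑ b ∈ B, |(ν b : ℝ)|)) →
      Φ z ≠ 0 ∧ ‖deriv Φ z / Φ z‖ ≤ M / d ∧ exp (-M) * (d / (4 * r)) ^ M ≤ ‖Φ z‖ := by
    intro Φ h B ν t1 t2 t3 t4 t5 t6 t7 t8 ⟨t9, t10⟩
    have a0 : 0 ≤ circleAverage (fun ζ => |log ‖Φ ζ‖|) 0 ρ + 2 * ∑ b ∈ B, |(ν b : ℝ)| :=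
      add_nonneg (circleAverage_nonneg_of_nonneg fun _ _ => abs_nonneg _)
        (mul_nonneg two_pos.le (Finset.sum_nonneg fun _ _ => abs_nonneg _))
    have a1 : circleAverage (fun ζ => |log ‖Φ ζ‖|) 0 ρ + 2 * ∑ b ∈ B, |(ν b : ℝ)| ≤
        97 * (c * l ^ 3) := by linarith
    have a2 : ‖deriv h z / h z‖ ≤ 446976 * (c * l ^ 7) / d := by
      calc _ ≤ 4608 * l ^ 4 / r * (97 * (c * l ^ 3)) :=
            t9.trans (mul_le_mul (k1 _ hz1.le) a1 a0 (by positivity))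
        _ = 446976 * (c * l ^ 7) / r := by ring
        _ ≤ _ := by gcongr
    have a3 : |log ‖h z‖ + (∑ b ∈ B, (ν b : ℝ)) * log ρ| ≤ M := by
      calc _ ≤ 96 * l ^ 2 * (97 * (c * l ^ 3)) :=
            t10.trans (mul_le_mul (k2 _ hz1.le) a1 a0 (by positivity))
        _ = 9312 * (c * l ^ 5) := by ring
        _ ≤ _ := by linarith
    obtain ⟨f1, f2, -⟩ := fac_est t1 t2 t3 t4 hz2 t5 hd hdr (by linarith) t6 t7 a2 a3
    obtain ⟨-, -, f3⟩ := fac_est (n := M) t1 t2 t3 t4 hz2 t5 hd hdr (by linarith) t6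
      (by linarith) a2 a3
    refine ⟨f1, f2.trans ?_, ?_⟩
    · rw [← add_div]; gcongr; linarith
    · rw [← log_le_log_iff (by positivity) (norm_pos_iff.2 f1),
        log_mul (by positivity) (by positivity), log_exp, log_pow]
      linarith
  obtain ⟨f1, f2, f3⟩ := est (fun b hb => ((b1 b).1 hb).1) b3 b4 b5 (dψ.analyticAt z)
    (fun b hb => hdb b (Finset.mem_union_left _ hb)) sψ aψ (b6 z hz2)
  have u0 : u z ≠ 0 := left_ne_zero_of_mul f1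
  have w0 : w z ≠ 0 := right_ne_zero_of_mul f1
  obtain ⟨g1, g2, g3⟩ := est (fun b hb => ((c1 b).1 hb).1) c3 c4 c5 (analyticAt_eta hu hw u0 w0)
    (fun b hb => hdb b (Finset.mem_union_right _ hb)) sη aη (c6 z hz2)
  refine ⟨?_, ?_, g3, f3⟩
  · rwa [norm_div, div_le_iff₀ (norm_pos_iff.2 g1)] at g2
  · have := logDeriv_mul z u0 w0 (hu z) (hw z)
    simp only [logDeriv_apply] at this
    rw [← this]; exact f2

end Cnt

end Pool.Agent.Lib.MP_bb1814_an
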