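import Mathlib
import Pool.Agent.Lib.MP_bb1814_an.Iface
import Pool.Agent.Lib.MP_bb1814_an.Nev
import Pool.Agent.Lib.MP_bb1814_an.Select
import Pool.Agent.Lib.MP_bb1814_an.CountE

/-!
The counting argument: many points with different multiplicities give good points.
-/

namespace Pool.Agent.Lib.MP_bb1814_an

open Filter Topology Set Metric Real ValueDistribution

namespace Cnt

variable {C : Cub} {F G u w : ℂ → ℂ}

lemma eventually_log_sq_le {H : ℝ → ℝ} (S : Scale H) (a : ℝ) {ε : ℝ} (hε : 0 < ε) :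
    ∀ᶠ k in atTop, a * log (S.r k) ^ 2 ≤ ε * S.r k := by
  have h := (isLittleO_pow_log_id_atTop (n := 2)).comp_tendsto S.tendsto
  have h2 := h.def (c := ε / (|a| + 1)) (by positivity)
  filter_upwards [h2] with k hk
  have g3 := S.one_le k
  simp only [Function.comp, id, Real.norm_eq_abs] at hk
  rw [abs_of_nonneg (by positivity), abs_of_nonneg (a := S.r k) (by linarith)] at hk
  have h3 : a * log (S.r k) ^ 2 ≤ (|a| + 1) * log (S.r k) ^ 2 := by
    gcongr; linarith [le_abs_self a]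
  refine h3.trans ?_
  calc (|a| + 1) * log (S.r k) ^ 2 ≤ (|a| + 1) * (ε / (|a| + 1) * S.r k) := by gcongr
    _ = ε * S.r k := by field_simp

/-- A zero-free entire function of slow growth is constant. -/
lemma logDeriv_zero {H : ℝ → ℝ} (S : Scale H) {v : ℂ → ℂ} (hv : Differentiable ℂ v)
    (h0 : ∀ z, v z ≠ 0) {c : ℝ} (hc0 : 0 ≤ c) (hc : ∀ᶠ k in atTop, T v (S.r k) ≤ c * H (S.r k))
    (slow : ∃ᶠ k in atTop, H (S.r k) ≤ log (S.r k) ^ 2) (z : ℂ) : deriv v z / v z = 0 := by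
  have ord : ∀ b, meromorphicOrderAt v b = 0 := fun b =>
    (order_eq_zero_iff (hv.analyticAt b)).2 (h0 b)
  have nz : NZ v := fun b => by rw [ord b]; exact WithTop.zero_ne_top
  obtain ⟨c', hc'0, hc'⟩ := fmt0 (mero_of_diff hv)
  rw [← norm_le_zero_iff]
  refine le_of_forall_pos_le_add fun ε hε => ?_
  obtain ⟨k, k1, k2, k3, k4⟩ := (slow.and_eventually (hc.and
    ((eventually_log_sq_le S (8 * (2 * c + c')) hε).and
      (S.tendsto.eventually_gt_atTop (2 * ‖z‖))))).exists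
  set R := S.r k
  have R1 : 1 ≤ R := S.one_le k
  have g3 : 3 ≤ H R := S.three_le k
  have R0 : 0 < R := by linarith
  have hz : ‖z‖ < R := by linarith [norm_nonneg z]
  obtain ⟨B, ν, h, b1, -, b3, b4, b5, b6⟩ := factor_estimate (mero_of_diff hv) nz R0
  obtain rfl : B = ∅ := Finset.eq_empty_of_forall_notMem fun b hb => ((b1 b).1 hb).2 (ord b)
  have e : v =ᶠ[𝓝 z] h := by
    filter_upwards [isOpen_ball.mem_nhds (show z ∈ ball (0 : ℂ) R by simpa using hz)] with x hx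
    simpa using b5 x hx (hv.analyticAt x)
  have e1 := (b6 z hz).1
  rw [← e.deriv_eq, ← e.self_of_nhds] at e1
  simp only [Finset.sum_empty, mul_zero, add_zero] at e1
  have e2 := (hc' R R1).2
  have e3 : circleAverage (fun z => |log ‖v z‖|) 0 R ≤ (2 * c + c') * log R ^ 2 := by nlinarith
  have e4 : 2 * R / (R - ‖z‖) ^ 2 ≤ 8 / R := by
    calc 2 * R / (R - ‖z‖) ^ 2 ≤ 2 * R / (R / 2) ^ 2 := by gcongr; linarith
      _ = 8 / R := by field_simp; norm_num
  refine e1.trans ?_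
  calc _ ≤ 8 / R * ((2 * c + c') * log R ^ 2) :=
        mul_le_mul e4 e3 (circleAverage_nonneg_of_nonneg fun _ _ => abs_nonneg _) (by positivity)
    _ = 8 * (2 * c + c') * log R ^ 2 / R := by ring
    _ ≤ 0 + ε := by rw [div_le_iff₀ R0]; linarith

lemma slow_false (hP : Pair C F G u w) (S : Scale (Ga F G)) (hη : NZ (eta u w))
    (slow : ∃ᶠ k in atTop, Ga F G (S.r k) ≤ log (S.r k) ^ 2) : False := by
  obtain ⟨c, hc0, hc⟩ := circleB hP S
  obtain ⟨c', hc'0, hc'⟩ := Nb_Zs_le hP S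
  have nz : ∀ z, u z * w z ≠ 0 := by
    intro z hz
    obtain ⟨k, k1, k2, k3, k4⟩ := (slow.and_eventually (hc'.and
      ((eventually_log_le S ((c' + |log ‖z‖|) ^ 2) 2 (by norm_num : (0 : ℝ) < 1 / 2)).and
        (S.tendsto.eventually_ge_atTop ‖z‖)))).exists
    have R1 := S.one_le k
    have e1 := log_le_Nb (locFin_Zs hP) (z := z) hz R1 k4
    have e2 := k2 _ R1 (r_le_rr S k 5)
    have l1 := one_lt_l S k
    have g3 := S.three_le k
    have e3 : log (S.r k) ≤ (c' + |log ‖z‖|) * log (Ga F G (S.r k)) := by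
      nlinarith [le_abs_self (log ‖z‖), abs_nonneg (log ‖z‖)]
    have e4 : log (S.r k) ^ 2 ≤ ((c' + |log ‖z‖|) * log (Ga F G (S.r k))) ^ 2 := by
      gcongr; exact log_nonneg R1
    rw [mul_pow] at e4
    linarith
  have a1 := logDeriv_zero S hP.du (fun z => left_ne_zero_of_mul (nz z)) hc0
    (hc.mono fun k hk => (T_mono (mero_of_diff hP.du) (S.one_le k) (r_le_rr S k 5)).trans hk.2.1)
    slow
  have a2 := logDeriv_zero S hP.dw (fun z => right_ne_zero_of_mul (nz z)) hc0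
    (hc.mono fun k hk => (T_mono (mero_of_diff hP.dw) (S.one_le k) (r_le_rr S k 5)).trans hk.2.2)
    slow
  apply hη 0
  rw [meromorphicOrderAt_eq_top_iff]
  exact Eventually.of_forall fun z => by simp [eta, a1 z, a2 z]

lemma card_big {g N0 s n : ℝ} (hg : 0 < g) (hs : s ≤ 2 * √g) (hn : 0 ≤ n)
    (h : g / 20 ≤ N0 + n * s) (h0 : N0 ≤ g / 100) {a : ℝ} (ha0 : 0 ≤ a)
    (ha : 2500 * a ^ 2 ≤ 1 / 2 * g) : a < n := by
  have q : √g * √g = g := mul_self_sqrt hg.le
  have q0 : 0 < √g := sqrt_pos.2 hg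
  have h1 : n * s ≤ n * (2 * √g) := by gcongr
  have h2 : √g ≤ 50 * n := by
    apply le_of_mul_le_mul_right _ q0
    nlinarith
  by_contra hc
  push Not at hc
  have h3 : √g ≤ 50 * a := by linarith
  nlinarith

lemma comb {a t d ci c l : ℝ} (h1 : a ≤ 2 * t + d) (h2 : t ≤ ci * l) (hl : 1 ≤ l) (hd : 0 ≤ d)
    (hc : 2 * ci + d ≤ c) : a ≤ c * l := by nlinarith

lemma fast_false (hL : LocalFalse) (hP : Pair C F G u w) (S : Scale (Ga F G))
    (hη : NZ (eta u w)) {ρ : ℕ → ℝ} (hρ : ∀ᶠ k in atTop, S.r k ≤ ρ k ∧ ρ k ≤ S.rr k 1 ∧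
      Ga F G (S.r k) / 20 ≤ Nb (X2 C F G u w) (ρ k))
    (fast : ∀ᶠ k in atTop, log (S.r k) ^ 2 < Ga F G (S.r k)) : False := by
  classical
  obtain ⟨M0, N0, hsel⟩ := select
  obtain ⟨c1, hc10, hc1⟩ := circleB hP S
  obtain ⟨c2, hc20, hc2⟩ := circleC hP S
  have mu := mero_of_diff hP.du
  have mw := mero_of_diff hP.dw
  have mψ := mero_of_diff (diff_psi hP)
  have mη := mero_eta mu mw
  obtain ⟨d1, hd10, hd1⟩ := fmt0 mu
  obtain ⟨d2, hd20, hd2⟩ := fmt0 mw
  obtain ⟨d3, hd30, hd3⟩ := fmt0 mψ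
  obtain ⟨d4, hd40, hd4⟩ := fmt0 mη
  set c := 2 * c1 + 2 * c2 + d1 + d2 + d3 + d4 with hc
  refine hL C F G u w hP fun M1 => ?_
  obtain ⟨k, ⟨k1, k2, k3⟩, k4, ⟨k5, k6, k7⟩, k8, k9, k10, k11, k12⟩ := (hρ.and (fast.and
    (hc1.and (hc2.and (((tendsto_l S).eventually_ge_atTop (2 + 447024 * c + M0 + M1)).and
    ((eventually_log_le S (2500 * (94 * 2 ^ N0) ^ 2) (16 * N0)
      (by norm_num : (0 : ℝ) < 1 / 2)).and
    ((S.tendstoG.eventually_ge_atTop (100 * Nb (X2 C F G u w) 1)).and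
    (Eventually.of_forall fun k => S.three_le k)))))))).exists
  set g := Ga F G (S.r k) with hg
  set l := log g with hl
  set R := S.r k with hR
  have c0 : 0 ≤ c := by rw [hc]; linarith
  have m0 : (0 : ℝ) ≤ M0 := Nat.cast_nonneg _
  have m1 : (0 : ℝ) ≤ M1 := Nat.cast_nonneg _
  have l2 : 2 ≤ l := by linarith
  have el : exp l = g := exp_log (by linarith)
  have R1 : 1 ≤ R := S.one_le k
  set M := ⌈l ^ 8⌉₊ with hM
  have hM1 : l ^ 8 ≤ M := Nat.le_ceil _
  have l8 : l ≤ l ^ 8 := le_self_pow₀ (by linarith) (by norm_num)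
  have hM2 : (M : ℝ) ≤ 2 * l ^ 8 := by
    have := Nat.ceil_lt_add_one (show 0 ≤ l ^ 8 by positivity)
    linarith
  have hM3 : M0 ≤ M := by
    have : (M0 : ℝ) ≤ M := by linarith
    exact_mod_cast this
  have hM4 : M1 ≤ M := by
    have : (M1 : ℝ) ≤ M := by linarith
    exact_mod_cast this
  have rr1 : S.rr k 1 = R * (1 + 1 / (8 * l ^ 2)) := by simp [Scale.rr, hR, hl, hg]
  have rr2 : S.rr k 2 = R * (1 + 2 / (8 * l ^ 2)) := by simp [Scale.rr, hR, hl, hg]
  set rF := R * (1 + 5 / (24 * l ^ 2)) with hrF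
  have lp : 0 < l ^ 2 := by positivity
  have rF1 : 1 ≤ rF := by
    have : 0 ≤ 5 / (24 * l ^ 2) := by positivity
    exact one_le_mul_of_one_le_of_one_le R1 (by linarith)
  have rF2 : rF ≤ S.rr k 2 := by
    rw [rr2, hrF]
    gcongr R * (1 + ?_)
    rw [div_le_div_iff₀ (by positivity) (by positivity)]
    linarith
  have r25 : S.rr k 2 ≤ S.rr k 5 := rr_mono S k (by norm_num)
  have r21 : 1 ≤ S.rr k 2 := one_le_rr S k 2
  have l1 : 1 ≤ l := by linarith
  have g1 : 1 ≤ g := by linarith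
  have tψ := T_mono mψ r21 r25
  obtain ⟨B, hB, fu, fw, est⟩ := select_hyp hP.du hP.dw (pair_nz_u hP) (pair_nz_w hP) hη R1 l2 c0
    (by linarith) hM1 k1 (k2.trans rr1.le)
    (comb (hd3 rF rF1).2 ((T_mono mψ rF1 (rF2.trans r25)).trans k5) l1 hd30 (by linarith))
    (comb (hd4 rF rF1).2 ((T_mono mη rF1 rF2).trans k8) l1 hd40 (by linarith))
    (el ▸ comb (hd1 rF rF1).2 ((T_mono mu rF1 (rF2.trans r25)).trans k6) g1 hd10 (by linarith))
    (el ▸ comb (hd2 rF rF1).2 ((T_mono mw rF1 (rF2.trans r25)).trans k7) g1 hd20 (by linarith))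
    (rr2 ▸ comb (t := T (fun z => u z * w z) (S.rr k 2)) (d := d3)
      (by linarith [(hd3 _ r21).1, logCounting_top_le_T (fun z => u z * w z) (S.rr k 2)])
      (tψ.trans k5) l1 hd30 (by linarith))
    (rr2 ▸ comb (t := T (eta u w) (S.rr k 2)) (d := d4)
      (by linarith [(hd4 _ r21).1, logCounting_top_le_T (eta u w) (S.rr k 2)])
      k8 l1 hd40 (by linarith))
  have ρ1 : 1 ≤ ρ k := R1.trans k1
  have fin := locFin_X2 hP (ρ k)
  set Y := fin.toFinset with hY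
  have hcard : 94 * M ^ N0 < Y.card := by
    have e1 := Nb_le_card (locFin_X2 hP) ρ1
    rw [Set.ncard_eq_toFinset_card _ fin] at e1
    have e2 : log (ρ k) ≤ 2 * √g := by
      have a1 : ρ k ≤ 2 * R := by
        refine k2.trans (rr1.le.trans ?_)
        have l4 : 1 ≤ l ^ 2 := one_le_pow₀ l1
        have : 1 / (8 * l ^ 2) ≤ 1 := by rw [div_le_one (by positivity)]; linarith
        rw [mul_comm 2 R]
        exact mul_le_mul_of_nonneg_left (by linarith) (by linarith)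
      have a2 : log (ρ k) ≤ log 2 + log R := by
        rw [← log_mul two_ne_zero (by linarith)]; exact log_le_log (by linarith) a1
      have a3 : log R ≤ √g := le_sqrt_of_sq_le k4.le
      have a4 : 1 ≤ √g := one_le_sqrt.2 g1
      linarith [log_two_lt_d9]
    have e3 := card_big (a := 94 * (M : ℝ) ^ N0) (by linarith) e2 (Nat.cast_nonneg Y.card)
      (k3.trans e1) (by linarith) (by positivity) (le_trans ?_ k10)
    · exact_mod_cast e3
    · calc 2500 * (94 * (M : ℝ) ^ N0) ^ 2 ≤ 2500 * (94 * (2 * l ^ 8) ^ N0) ^ 2 := by gcongr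
        _ = _ := by rw [mul_pow 2, ← pow_mul]; ring
  let I : Finset (ℕ × Bool) := Finset.Icc 2 48 ×ˢ Finset.univ
  let Yi : ℕ × Bool → Finset ℂ := fun i =>
    Y.filter fun y => bif i.2 then u y = i.1 * w y else w y = i.1 * u y
  obtain ⟨i, hi, hic⟩ : ∃ i ∈ I, M ^ N0 < (Yi i).card := by
    by_contra hcon
    push Not at hcon
    have s1 : Y ⊆ I.biUnion Yi := by
      intro y hy
      obtain ⟨⟨-, -, p, p1, p2, h | h⟩, -⟩ := fin.mem_toFinset.1 hy
      · exact Finset.mem_biUnion.2 ⟨(p, true), by simp [I, p1, p2], Finset.mem_filter.2 ⟨hy, h⟩⟩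
      · exact Finset.mem_biUnion.2 ⟨(p, false), by simp [I, p1, p2], Finset.mem_filter.2 ⟨hy, h⟩⟩
    have s2 := (Finset.card_le_card s1).trans (Finset.card_biUnion_le.trans
      (Finset.sum_le_card_nsmul I _ _ hcon))
    have s3 : I.card = 94 := by simp [I]
    rw [s3, smul_eq_mul] at s2
    omega
  obtain ⟨p, side⟩ := i
  have hp : 2 ≤ p ∧ p ≤ 48 := by simpa [I] using hi
  have p2 : (2 : ℝ) ≤ p := by exact_mod_cast hp.1
  have p48 : (p : ℝ) ≤ 48 := by exact_mod_cast hp.2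
  have p0 : (p : ℂ) ≠ 0 := by exact_mod_cast (by omega : p ≠ 0)
  have mem : ∀ y ∈ Yi (p, side), y ∈ X2 C F G u w ∧ ‖y‖ ≤ ρ k := fun y hy => by
    simpa using fin.mem_toFinset.1 (Finset.mem_filter.1 hy).1
  cases side
  · obtain ⟨y, hy, σ, -, e1, e2, e3, e4⟩ := hsel M hM3 (ρ k) ρ1 u w hP.du hP.dw B hB fu fw est
      (p : ℂ)⁻¹ (by
        rw [norm_inv, Complex.norm_natCast, one_div]; gcongr)
      (by
        rw [norm_inv, Complex.norm_natCast]
        exact (inv_le_one_of_one_le₀ (by linarith)).trans (by norm_num))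
      (Yi (p, false)) (fun y hy => by
        have h : w y = p * u y := (Finset.mem_filter.1 hy).2
        refine ⟨(mem y hy).2, by rw [h]; field_simp, ?_⟩
        rw [h]; exact mul_ne_zero p0 (mem y hy).1.2.1) hic
    exact ⟨M, hM4, y, eta u w y, σ, p, hp.1, hp.2, (mem y hy).1.1.1, (mem y hy).1.1.2.1,
      Or.inr (Finset.mem_filter.1 hy).2, e1, e2, e3, e4⟩
  · obtain ⟨y, hy, σ, -, e1, e2, e3, e4⟩ := hsel M hM3 (ρ k) ρ1 u w hP.du hP.dw B hB fu fw est
      (p : ℂ) (by rw [Complex.norm_natCast]; linarith) (by rw [Complex.norm_natCast]; exact p48)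
      (Yi (p, true)) (fun y hy => by
        have h : u y = p * w y := (Finset.mem_filter.1 hy).2
        refine ⟨(mem y hy).2, h, fun h0 => (mem y hy).1.2.1 ?_⟩
        rw [h, h0, mul_zero]) hic
    exact ⟨M, hM4, y, eta u w y, σ, p, hp.1, hp.2, (mem y hy).1.1.1, (mem y hy).1.1.2.1,
      Or.inl (Finset.mem_filter.1 hy).2, e1, e2, e3, e4⟩

end Cnt

theorem pairMany (hL : LocalFalse) : PairMany := by
  intro C F G u w hP ι _ φ h1 h2 h3 K hK
  obtain ⟨S⟩ := Cnt.exists_scale_Ga hP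
  obtain ⟨ρ, hρ⟩ := Cnt.circleA hP S φ h1 h2 h3 hK
  have hη : NZ (eta u w) := by
    intro z hz
    obtain ⟨p, hp⟩ := Cnt.exists_ratio hP.du hP.dw (Cnt.pair_nz_u hP) (Cnt.pair_nz_w hP) hz
    have e : Cnt.X2 C F G u w = ∅ :=
      eq_empty_of_forall_notMem fun y hy => hy.1.2.2 (eta_zero hP hp hy.1.1 hy.1.2.1)
    obtain ⟨k, -, -, hk⟩ := hρ.exists
    rw [e, Cnt.Nb_empty] at hk
    linarith [S.three_le k]
  by_cases slow : ∃ᶠ k in atTop, Cnt.Ga F G (S.r k) ≤ log (S.r k) ^ 2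
  · exact Cnt.slow_false hP S hη slow
  · exact Cnt.fast_false hL hP S hη hρ ((not_frequently.1 slow).mono fun k hk => not_le.1 hk)

end Pool.Agent.Lib.MP_bb1814_an
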