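import Mathlib
import Pool.Agent.Lib.MP_bb1814_an.Zalcman
import Pool.Agent.Lib.MP_bb1814_an.Nev4

/-!
The system `Y' = Y + H (1 + Ω) - Ω`, `Y Ω' = (1 - H) Ω (1 + Ω)` with `H = p exp (2 z)`:
local structure and normality of translates.
-/

namespace Pool.Agent.Lib.MP_bb1814_an

open Filter Topology Set Metric Complex

/-- A non-constant entire solution of the system. -/
structure K0Sys (p : ℂ) (Y Ω : ℂ → ℂ) : Prop where
  hp : p ≠ 0
  hY : Differentiable ℂ Y
  hΩ : Differentiable ℂ Ω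
  h1 : ∀ z, deriv Y z = Y z + p * exp (2 * z) * (1 + Ω z) - Ω z
  h2 : ∀ z, Y z * deriv Ω z = (1 - p * exp (2 * z)) * (Ω z * (1 + Ω z))
  nc : NC Ω

/-- The possible values of `H` at the points where `Ω` is `0` or `-1`. -/
def K0D : Set ℂ := {u | ∃ m : ℕ, 2 ≤ m ∧ (u = m ∨ u * m = 1)}

lemma K0D_isolated {h : ℂ} (hh : h ≠ 0) : ∀ᶠ u in 𝓝 h, u ∈ K0D → u = h := by
  have hpos : 0 < ‖h‖ := norm_pos_iff.2 hh
  obtain ⟨N, hN⟩ := exists_nat_gt (max (2 * ‖h‖) (2 / ‖h‖))
  have hN1 : 2 * ‖h‖ < N := (le_max_left _ _).trans_lt hN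
  have hN2 : 2 / ‖h‖ < N := (le_max_right _ _).trans_lt hN
  set S : Set ℂ := ((fun m : ℕ => (m : ℂ)) '' Iic N ∪ (fun m : ℕ => (m : ℂ)⁻¹) '' Iic N) \ {h}
    with hS
  have hfin : S.Finite :=
    (((finite_Iic N).image _).union ((finite_Iic N).image _)).subset sdiff_subset
  have h1 : Sᶜ ∈ 𝓝 h := hfin.isClosed.isOpen_compl.mem_nhds (by simp [hS])
  have h2 : ∀ᶠ u in 𝓝 h, ‖u‖ < 2 * ‖h‖ :=
    continuous_norm.continuousAt.eventually_lt continuousAt_const (by linarith)
  have h3 : ∀ᶠ u in 𝓝 h, ‖h‖ / 2 < ‖u‖ :=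
    continuousAt_const.eventually_lt continuous_norm.continuousAt (by linarith)
  filter_upwards [h1, h2, h3] with u hu1 hu2 hu3 hu
  obtain ⟨m, hm, hu⟩ := hu
  by_contra hne
  apply hu1
  refine ⟨?_, hne⟩
  rcases hu with hu | hu
  · left
    refine ⟨m, ?_, hu.symm⟩
    rw [hu, Complex.norm_natCast] at hu2
    have : (m : ℝ) < N := hu2.trans hN1
    exact le_of_lt (by exact_mod_cast this)
  · right
    have hm0 : (m : ℂ) ≠ 0 := by
      have : m ≠ 0 := by omega
      exact_mod_cast this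
    refine ⟨m, ?_, (eq_inv_of_mul_eq_one_left hu).symm⟩
    have h4 : ‖u‖ * m = 1 := by
      have := congrArg norm hu
      rwa [norm_mul, Complex.norm_natCast, norm_one] at this
    have h5 : (m : ℝ) < N := by
      rw [div_lt_iff₀ hpos] at hN2
      have hm1 : (0 : ℝ) ≤ m := Nat.cast_nonneg m
      by_contra hcon
      push Not at hcon
      nlinarith
    exact le_of_lt (by exact_mod_cast h5)

namespace K0Sys

variable {p : ℂ} {Y Ω : ℂ → ℂ}

lemma an (hS : K0Sys p Y Ω) (z : ℂ) : AnalyticAt ℂ Ω z := hS.hΩ.analyticAt z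

/-- Local analysis at a point where `Ω` takes the value `a ∈ {0, -1}`. -/
lemma local_rel (hS : K0Sys p Y Ω) {z a : ℂ} (ha : a * (1 + a) = 0) (hz : Ω z = a) :
    ∃ m : ℕ, meromorphicOrderAt (fun x => Ω x - a) z = ((m + 1 : ℕ) : ℤ) ∧
      ((m : ℂ) + 1) * (p * exp (2 * z) * (1 + a) - a) = (1 - p * exp (2 * z)) * (1 + 2 * a) := by
  obtain ⟨m, φ, hφ, hφ0, hm, e1, e2⟩ := exists_local_form (F := fun x => Ω x - a)
    ((hS.an z).sub analyticAt_const) (by simp [hz]) (hS.nc a z)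
  simp only [deriv_sub_const] at e2
  refine ⟨m, hm, ?_⟩
  have cφ := hφ.continuousAt
  have cφ' := hφ.deriv.continuousAt
  have cΩ := (hS.an z).continuousAt
  have cY := hS.hY.continuous.continuousAt (x := z)
  have key : ∀ᶠ x in 𝓝[≠] z, Y x * ((m + 1) * φ x + (x - z) * deriv φ x) =
      (x - z) * ((1 - p * exp (2 * x)) * (φ x * (1 + Ω x + a))) := by
    filter_upwards [nhdsWithin_le_nhds e1, nhdsWithin_le_nhds e2, self_mem_nhdsWithin]
      with x h1 h2 hx
    have hx' : (x - z) ^ m ≠ 0 := pow_ne_zero _ (sub_ne_zero.2 hx)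
    apply mul_left_cancel₀ hx'
    have h3 := hS.h2 x
    rw [h2] at h3
    have h4 : Ω x * (1 + Ω x) = (x - z) ^ (m + 1) * φ x * (1 + Ω x + a) := by
      rw [← h1]; linear_combination ha
    rw [h4] at h3
    linear_combination h3
  have hY0 : Y z = 0 := by
    have h := eq_of_nhdsNE (by fun_prop) (by fun_prop) key
    simp only [sub_self, zero_mul, add_zero] at h
    have hm0 : ((m : ℂ) + 1) ≠ 0 := by exact_mod_cast Nat.succ_ne_zero m
    exact (mul_eq_zero.1 h).resolve_right (mul_ne_zero hm0 hφ0)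
  have hd : ContinuousAt (dslope Y z) z := continuousAt_dslope_same.2 (hS.hY z)
  have key2 : (fun x => dslope Y z x * ((m + 1) * φ x + (x - z) * deriv φ x)) =ᶠ[𝓝[≠] z]
      fun x => (1 - p * exp (2 * x)) * (φ x * (1 + Ω x + a)) := by
    filter_upwards [key, self_mem_nhdsWithin] with x h1 hx
    have hx' : x - z ≠ 0 := sub_ne_zero.2 hx
    apply mul_left_cancel₀ hx'
    have h2 := sub_smul_dslope Y z x
    rw [hY0, sub_zero, smul_eq_mul] at h2
    rw [← h1, ← h2]; ring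
  have h := eq_of_nhdsNE (by fun_prop) (by fun_prop) key2
  simp only [sub_self, zero_mul, add_zero, dslope_same, hS.h1 z, hY0, hz] at h
  apply mul_right_cancel₀ hφ0
  linear_combination h

lemma zero_rel (hS : K0Sys p Y Ω) {z : ℂ} (hz : Ω z = 0) :
    ∃ m : ℕ, meromorphicOrderAt (fun x => Ω x - 0) z = ((m + 1 : ℕ) : ℤ) ∧
      p * exp (2 * z) * ((m + 2 : ℕ) : ℂ) = 1 := by
  obtain ⟨m, h1, h2⟩ := hS.local_rel (a := 0) (by ring) hz
  exact ⟨m, h1, by push_cast; linear_combination h2⟩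

lemma one_rel (hS : K0Sys p Y Ω) {z : ℂ} (hz : Ω z = -1) :
    ∃ m : ℕ, p * exp (2 * z) = ((m + 2 : ℕ) : ℂ) := by
  obtain ⟨m, -, h2⟩ := hS.local_rel (a := -1) (by ring) hz
  exact ⟨m, by push_cast; linear_combination -h2⟩

lemma mem_D (hS : K0Sys p Y Ω) {z : ℂ} (hz : Ω z = 0 ∨ Ω z = -1) : p * exp (2 * z) ∈ K0D := by
  rcases hz with hz | hz
  · obtain ⟨m, -, h⟩ := hS.zero_rel hz
    exact ⟨m + 2, by omega, Or.inr h⟩
  · obtain ⟨m, h⟩ := hS.one_rel hz
    exact ⟨m + 2, by omega, Or.inl h⟩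

/-- The mirror system. -/
lemma mirror (hS : K0Sys p Y Ω) :
    K0Sys p⁻¹ (fun z => -Y (-z) * (p⁻¹ * exp (2 * z))) (fun z => -1 - Ω (-z)) where
  hp := inv_ne_zero hS.hp
  hY := by have := hS.hY; fun_prop
  hΩ := by have := hS.hΩ; fun_prop
  h1 z := by
    have e : p * exp (2 * (-z)) * (p⁻¹ * exp (2 * z)) = 1 := by
      have hp : p * p⁻¹ = 1 := mul_inv_cancel₀ hS.hp
      have : exp (2 * (-z)) * exp (2 * z) = 1 := by rw [← Complex.exp_add]; simp
      linear_combination exp (2 * (-z)) * exp (2 * z) * hp + this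
    have d1 : HasDerivAt (fun z => Y (-z)) (deriv Y (-z) * (-1)) z :=
      (hS.hY (-z)).hasDerivAt.comp z (hasDerivAt_neg z)
    have d2 : HasDerivAt (fun z : ℂ => exp (2 * z)) (exp (2 * z) * (2 * 1)) z :=
      ((hasDerivAt_id z).const_mul 2).cexp
    have d3 := (d1.neg.mul (d2.const_mul p⁻¹)).deriv
    have d4 : deriv (fun z => -Y (-z) * (p⁻¹ * exp (2 * z))) z =
        -(deriv Y (-z) * (-1)) * (p⁻¹ * exp (2 * z)) + -Y (-z) * (p⁻¹ * (exp (2 * z) * (2 * 1))) :=
      d3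
    rw [d4, hS.h1]
    linear_combination (1 + Ω (-z)) * e
  h2 z := by
    have e : p * exp (2 * (-z)) * (p⁻¹ * exp (2 * z)) = 1 := by
      have hp : p * p⁻¹ = 1 := mul_inv_cancel₀ hS.hp
      have : exp (2 * (-z)) * exp (2 * z) = 1 := by rw [← Complex.exp_add]; simp
      linear_combination exp (2 * (-z)) * exp (2 * z) * hp + this
    have d1 : HasDerivAt (fun z => Ω (-z)) (deriv Ω (-z) * (-1)) z :=
      (hS.hΩ (-z)).hasDerivAt.comp z (hasDerivAt_neg z)
    have d2 : deriv (fun z => -1 - Ω (-z)) z = -(deriv Ω (-z) * (-1)) := (d1.const_sub (-1)).deriv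
    rw [d2]
    linear_combination (-(p⁻¹ * exp (2 * z))) * hS.h2 (-z) + Ω (-z) * (1 + Ω (-z)) * e
  nc := by
    rcases (Reg.of_differentiable (f := fun z => -1 - Ω (-z))
      (by have := hS.hΩ; fun_prop)).nc_or_const with h | ⟨c, h⟩
    · exact h
    · refine absurd ⟨-1 - c, fun z => ?_⟩ hS.nc.not_const
      have := congrFun h (-z)
      simp only [neg_neg] at this
      linear_combination -this

variable {ι : Type*}

lemma entire_of_cv {l : Filter ι} [l.NeBot] {f : ι → ℂ → ℂ} (hf : ∀ n, Differentiable ℂ (f n))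
    {F : ℂ → ℂ} (hF : Reg F) (h : Cv l f (sph F)) (z : ℂ) : AnalyticAt ℂ F z := by
  by_contra hz
  exact h.freq_pole (fun n => Reg.of_differentiable (hf n)) hF hz
    (Eventually.of_forall fun q => not_not.2 ((hf q.1).analyticAt _))

/-- Rescaled translates have no non-constant limit when `H` degenerates. -/
lemma star (hS : K0Sys p Y Ω) {l : Filter ι} [l.NeBot] {c ρ : ι → ℂ} (hρ : ∀ n, ρ n ≠ 0) {h0 : ℂ}
    (hH : ∀ z, Tendsto (fun q : ι × ℂ => p * exp (2 * (c q.1 + ρ q.1 * q.2))) (l ×ˢ 𝓝 z) (𝓝 h0))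
    (hcase : h0 = 0 ∨ Tendsto ρ l (𝓝 0)) {F : ℂ → ℂ} (hF : Reg F) (hnc : NC F)
    (h : Cv l (fun n x => Ω (c n + ρ n * x)) (sph F)) : False := by
  have hf : ∀ n, Differentiable ℂ fun x => Ω (c n + ρ n * x) := fun n => by
    have := hS.hΩ; fun_prop
  have hr : ∀ n, Reg fun x => Ω (c n + ρ n * x) := fun n => Reg.of_differentiable (hf n)
  have hFa := entire_of_cv hf hF h
  have hFd : Differentiable ℂ F := fun z => (hFa z).differentiableAt
  have hpic : ∀ z0, ∃ z, z ≠ z0 ∧ (F z = 0 ∨ F z = -1) := by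
    intro z0
    by_contra hcon
    push Not at hcon
    exact hnc.not_const (picard2' hFd (a := 0) (b := -1) (by norm_num) z0 hcon)
  by_cases hz : h0 = 0
  · subst hz
    obtain ⟨z, -, hz | hz⟩ := hpic 0
    · refine hnc.not_eventually (F z) z ((h.loc hr (hFa z)).const_of_order fun k => ?_)
      have h1 : ∀ᶠ q : ι × ℂ in l ×ˢ 𝓝 z,
          ‖p * exp (2 * (c q.1 + ρ q.1 * q.2))‖ < 1 / ((k : ℝ) + 1) := by
        have := (hH z).norm
        rw [norm_zero] at this
        exact this.eventually (gt_mem_nhds (by positivity))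
      refine ((h.freq_val hr hnc (hFa z)).and_eventually h1).mono ?_
      rintro q ⟨⟨-, h2⟩, h3⟩
      rw [hz] at h2
      obtain ⟨m, h4, h5⟩ := hS.zero_rel h2
      simp only [h2]
      rw [order_aff (fun x => Ω x - 0) _ (hρ _), h4]
      have h6 := congrArg norm h5
      rw [norm_mul, Complex.norm_natCast, norm_one] at h6
      have h7 : (k : ℝ) < (m + 1 : ℕ) := by
        rw [lt_div_iff₀ (by positivity)] at h3
        by_contra hcon
        push Not at hcon
        push_cast at hcon h6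
        nlinarith [norm_nonneg (p * exp (2 * (c q.1 + ρ q.1 * q.2)))]
      have h8 : k ≤ m + 1 := le_of_lt (by exact_mod_cast h7)
      exact_mod_cast h8
    · have h1 : ∀ᶠ q : ι × ℂ in l ×ˢ 𝓝 z, ‖p * exp (2 * (c q.1 + ρ q.1 * q.2))‖ < 1 := by
        have := (hH z).norm
        rw [norm_zero] at this
        exact this.eventually (gt_mem_nhds one_pos)
      obtain ⟨q, ⟨-, h2⟩, h3⟩ := ((h.freq_val hr hnc (hFa z)).and_eventually h1).exists
      rw [hz] at h2
      obtain ⟨m, h4⟩ := hS.one_rel h2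
      rw [h4, Complex.norm_natCast] at h3
      push_cast at h3
      have : (0 : ℝ) ≤ m := Nat.cast_nonneg m
      linarith
  · have hρ0 := hcase.resolve_left hz
    obtain ⟨z1, -, hz1⟩ := hpic 0
    obtain ⟨z2, hne, hz2⟩ := hpic z1
    have hr0 : 0 < ‖z2 - z1‖ := norm_pos_iff.2 (sub_ne_zero.2 hne)
    set r := ‖z2 - z1‖ with hrdef
    have hur : ∀ z, (F z = 0 ∨ F z = -1) → ∀ᶠ n in l, ∃ x ∈ ball z (r / 2),
        p * exp (2 * (c n + ρ n * x)) = h0 := by
      intro z hz'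
      have := (h.loc hr (hFa z)).hurwitz (hnc.not_eventually _ _)
        (Q := fun n x => p * exp (2 * (c n + ρ n * x)) ∈ K0D → p * exp (2 * (c n + ρ n * x)) = h0)
        ((hH z).eventually (K0D_isolated hz)) (ball_mem_nhds z (half_pos hr0))
      filter_upwards [this] with n ⟨x, hx, h1, h2⟩
      refine ⟨x, hx, h2 (hS.mem_D ?_)⟩
      rw [h1]; exact hz'
    have hsm : ∀ᶠ n in l, ‖ρ n‖ < 1 / (2 * r) := by
      have := hρ0.norm
      rw [norm_zero] at this
      exact this.eventually (gt_mem_nhds (by positivity))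
    obtain ⟨n, ⟨x1, hx1, e1⟩, ⟨x2, hx2, e2⟩, h3⟩ := ((hur z1 hz1).and ((hur z2 hz2).and hsm)).exists
    rw [mem_ball_iff_norm] at hx1 hx2
    have hx : x2 - x1 ≠ 0 := by
      intro h4
      have h5 : z2 - z1 = (x1 - z1) - (x2 - z2) := by linear_combination h4
      have h6 : r ≤ ‖x1 - z1‖ + ‖x2 - z2‖ := by rw [hrdef, h5]; exact norm_sub_le _ _
      linarith
    have hx' : ‖x2 - x1‖ < 2 * r := by
      have h5 : x2 - x1 = (x2 - z2) - (x1 - z1) + (z2 - z1) := by ring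
      have h6 : ‖x2 - x1‖ ≤ ‖x2 - z2‖ + ‖x1 - z1‖ + r := by
        rw [h5]; exact (norm_add_le _ _).trans (by gcongr; exact norm_sub_le _ _)
      linarith
    have e3 : exp (2 * (ρ n * (x2 - x1))) = 1 := by
      have e4 : exp (2 * (c n + ρ n * x2)) = exp (2 * (c n + ρ n * x1)) :=
        mul_left_cancel₀ hS.hp (e2.trans e1.symm)
      have e5 : 2 * (ρ n * (x2 - x1)) = 2 * (c n + ρ n * x2) - 2 * (c n + ρ n * x1) := by ring
      rw [e5, Complex.exp_sub, e4, div_self (Complex.exp_ne_zero _)]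
    obtain ⟨k, hk⟩ := Complex.exp_eq_one_iff.1 e3
    have hk0 : k ≠ 0 := by
      rintro rfl
      simp only [Int.cast_zero, zero_mul] at hk
      exact mul_ne_zero two_ne_zero (mul_ne_zero (hρ n) hx) hk
    have h7 := congrArg norm hk
    simp only [norm_mul, Complex.norm_ofNat, Complex.norm_intCast, Complex.norm_real,
      Complex.norm_I, mul_one, Real.norm_eq_abs, abs_of_pos Real.pi_pos] at h7
    have h8 : (1 : ℝ) ≤ |(k : ℝ)| := by exact_mod_cast Int.one_le_abs hk0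
    have h9 : ‖ρ n‖ * ‖x2 - x1‖ ≤ 1 := by
      rw [lt_div_iff₀ (by positivity)] at h3
      nlinarith [norm_nonneg (ρ n), norm_nonneg (x2 - x1)]
    nlinarith [Real.pi_gt_three]

lemma tendsto_H {l : Filter ι} {c a ρ : ι → ℂ} {lam a0 r0 : ℂ}
    (hc : Tendsto (fun n => exp (2 * c n)) l (𝓝 lam)) (ha : Tendsto a l (𝓝 a0))
    (hρ : Tendsto ρ l (𝓝 r0)) (z : ℂ) :
    Tendsto (fun q : ι × ℂ => p * exp (2 * (c q.1 + a q.1 + ρ q.1 * q.2))) (l ×ˢ 𝓝 z)
      (𝓝 (p * (lam * exp (2 * (a0 + r0 * z))))) := by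
  have h1 : Tendsto (fun q : ι × ℂ => 2 * (a q.1 + ρ q.1 * q.2)) (l ×ˢ 𝓝 z)
      (𝓝 (2 * (a0 + r0 * z))) :=
    ((ha.comp tendsto_fst).add ((hρ.comp tendsto_fst).mul tendsto_snd)).const_mul 2
  have h2 := ((hc.comp tendsto_fst).mul ((Complex.continuous_exp.tendsto _).comp h1)).const_mul p
  refine h2.congr fun q => ?_
  simp only [Function.comp]
  rw [← Complex.exp_add]
  congr 2; ring

/-- Translates along which `exp (2 c)` converges have a limit. -/
lemma normal (hS : K0Sys p Y Ω) (U : Ultrafilter ι) {c : ι → ℂ} {lam : ℂ}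
    (hc : Tendsto (fun n => exp (2 * c n)) U (𝓝 lam)) :
    ∃ t, Cv (U : Filter ι) (fun n x => Ω (c n + x)) t := by
  have hr : ∀ n, Reg fun x => Ω (c n + x) := fun n =>
    Reg.of_differentiable (by have := hS.hΩ; fun_prop)
  rcases zalcman U hr with h | ⟨a, ρ, a0, F, h1, h2, h3, h4, h5, h6⟩
  · exact h
  exfalso
  refine hS.star (l := U) (c := fun n => c n + a n) h2 (h0 := p * (lam * exp (2 * a0)))
    (fun z => ?_) (Or.inr h3) h4 h5 (by simpa only [add_assoc] using h6)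
  simpa only [zero_mul, add_zero] using tendsto_H (p := p) hc h1 h3 z

/-- If the translates are bounded at one point the limit is finite. -/
lemma normal_fin (hS : K0Sys p Y Ω) (U : Ultrafilter ι) {c : ι → ℂ} {lam : ℂ}
    (hc : Tendsto (fun n => exp (2 * c n)) U (𝓝 lam)) {x0 : ℂ} {M : ℝ}
    (hM : ∀ n, ‖Ω (c n + x0)‖ ≤ M) :
    ∃ F : ℂ → ℂ, (∀ z, LC (U : Filter ι) (fun n x => Ω (c n + x)) z (F z)) ∧
      (lam = 0 → ∃ k, F = fun _ => k) := by
  have hf : ∀ n, Differentiable ℂ fun x => Ω (c n + x) := fun n => by have := hS.hΩ; fun_prop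
  have hr : ∀ n, Reg fun x => Ω (c n + x) := fun n => Reg.of_differentiable (hf n)
  obtain ⟨t, ht⟩ := hS.normal U hc
  rcases ht.cases hr with rfl | ⟨k, rfl⟩ | ⟨F, hF, hnc, rfl⟩
  · exfalso
    have hM0 : 0 ≤ M := (norm_nonneg _).trans (hM (Classical.choice U.neBot.nonempty))
    have h1 := (ht.lc_inf hr (z := x0) rfl).at_pt.norm
    rw [norm_zero] at h1
    have h2 := (tendsto_at_pt x0).eventually (ht.snd_ne_one (z := x0) rfl)
    obtain ⟨n, h3, h4⟩ := ((h1.eventually (gt_mem_nhds (show (0 : ℝ) < 1 / (M + 1) by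
      positivity))).and h2).exists
    have h5 := (hf n).analyticAt x0
    rw [rcp_of_an h5, norm_inv, lt_div_iff₀ (by positivity),
      inv_mul_lt_iff₀ (norm_pos_iff.2 (h4 h5))] at h3
    have := hM n
    linarith
  · exact ⟨fun _ => k, fun z => ht.lc_const hr z, fun _ => ⟨k, rfl⟩⟩
  · refine ⟨F, fun z => ht.lc hr (entire_of_cv hf hF ht z), fun h0 => ?_⟩
    exfalso
    subst h0
    refine hS.star (l := U) (c := c) (ρ := fun _ => 1) (fun _ => one_ne_zero) (h0 := 0)
      (fun z => ?_) (Or.inl rfl) hF hnc (by simpa only [one_mul] using ht)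
    simpa only [zero_mul, mul_zero, add_zero] using
      tendsto_H (p := p) (a := fun _ => 0) (ρ := fun _ => 1) hc tendsto_const_nhds
        tendsto_const_nhds z

end K0Sys

end Pool.Agent.Lib.MP_bb1814_an
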