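import Mathlib
import Pool.Agent.Lib.MP_bb1814_an.K0A

/-!
Estimates along horizontal rays on which `Ω` is large and `H` is small.
-/

namespace Pool.Agent.Lib.MP_bb1814_an

open Filter Topology Set Metric Complex

lemma exp_bound {f f' : ℝ → ℂ} {a b K : ℝ} (hab : a ≤ b)
    (hf : ∀ t ∈ Icc a b, HasDerivAt f (f' t) t) (hK : ∀ t ∈ Icc a b, ‖f' t‖ ≤ K * Real.exp t) :
    ‖f b - f a‖ ≤ K * (Real.exp b - Real.exp a) := by
  refine image_norm_le_of_norm_deriv_right_le_deriv_boundary (f := fun t => f t - f a) (f' := f')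
    (a := a) (b := b) (B := fun t => K * (Real.exp t - Real.exp a)) (B' := fun t => K * Real.exp t)
    (fun t ht => ((hf t ht).continuousAt.sub continuousAt_const).continuousWithinAt)
    (fun t ht => ((hf t (Ico_subset_Icc_self ht)).sub_const _).hasDerivWithinAt) (by simp)
    (fun t => ((Real.hasDerivAt_exp t).sub_const _).const_mul K)
    (fun t ht => hK t (Ico_subset_Icc_self ht)) (right_mem_Icc.2 hab)

lemma hasDerivAt_ray {F : ℂ → ℂ} (hF : Differentiable ℂ F) (z : ℂ) (t : ℝ) :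
    HasDerivAt (fun s : ℝ => F (z - s)) (-deriv F (z - t)) t := by
  have h1 : HasDerivAt (fun w : ℂ => F (z - w)) (deriv F (z - t) * (-1)) (t : ℂ) :=
    (hF (z - t)).hasDerivAt.comp (t : ℂ) ((hasDerivAt_id (t : ℂ)).const_sub z)
  simpa using h1.comp_ofReal

lemma hasDerivAt_cexp_real (k : ℝ) (t : ℝ) :
    HasDerivAt (fun s : ℝ => ((Real.exp (k * s) : ℝ) : ℂ)) ((Real.exp (k * t) * k : ℝ) : ℂ) t := by
  have h : HasDerivAt (fun s : ℝ => Real.exp (k * s)) (Real.exp (k * t) * k) t := by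
    simpa using ((hasDerivAt_id t).const_mul k).exp
  exact h.ofReal_comp

namespace K0Sys

variable {p : ℂ} {Y Ω : ℂ → ℂ}

/-- The pointwise relations where `Ω` is large and `H` is small. -/
lemma point (hS : K0Sys p Y Ω) {w : ℂ} (hH : ‖p * exp (2 * w)‖ ≤ 1 / 100) (hw : 100 ≤ ‖Ω w‖) :
    Ω w ≠ 0 ∧ Y w ≠ 0 ∧ ∃ θ κ : ℂ, ‖θ - 1‖ ≤ 3 / 100 ∧ ‖κ - 2‖ ≤ 4 / 100 ∧
      Y w / Ω w * deriv Ω w = Ω w * θ ∧
      (deriv Y w * Ω w - Y w * deriv Ω w) / Ω w ^ 2 = Y w / Ω w - κ := by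
  have h0 : Ω w ≠ 0 := norm_pos_iff.1 (by linarith)
  set H := p * exp (2 * w) with hHd
  have hb : ‖(Ω w)⁻¹‖ ≤ 1 / 100 := by
    rw [norm_inv, one_div]; exact inv_anti₀ (by norm_num) hw
  set b := (Ω w)⁻¹ with hbd
  have hbΩ : Ω w * b = 1 := mul_inv_cancel₀ h0
  have hHb : ‖H * b‖ ≤ 1 / 100 := by
    rw [norm_mul]; nlinarith [norm_nonneg H, norm_nonneg b]
  have hθ : ‖(1 - H) * (1 + b) - 1‖ ≤ 3 / 100 := by
    have : (1 - H) * (1 + b) - 1 = b - H - H * b := by ring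
    rw [this]
    have h1 := norm_sub_le (b - H) (H * b)
    have h2 := norm_sub_le b H
    linarith
  have hκ : ‖1 + (1 - 2 * H) * (1 + b) - 2‖ ≤ 4 / 100 := by
    have : 1 + (1 - 2 * H) * (1 + b) - 2 = b - 2 * H - 2 * (H * b) := by ring
    rw [this]
    have h1 := norm_sub_le (b - 2 * H) (2 * (H * b))
    have h2 := norm_sub_le b (2 * H)
    have h3 : ‖H * b‖ ≤ 1 / 200 := by
      rw [norm_mul]; nlinarith [norm_nonneg H, norm_nonneg b]
    rw [norm_mul, Complex.norm_ofNat] at h1 h2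
    linarith
  have e2 := hS.h2 w
  have e1 := hS.h1 w
  rw [← hHd] at e1 e2
  have e3 : Y w / Ω w * deriv Ω w = Ω w * ((1 - H) * (1 + b)) := by
    rw [div_eq_mul_inv, ← hbd]
    linear_combination b * e2 + (1 - H) * Ω w * hbΩ
  refine ⟨h0, fun hY => ?_, (1 - H) * (1 + b), 1 + (1 - 2 * H) * (1 + b), hθ, hκ, e3, ?_⟩
  · rw [hY, zero_div, zero_mul] at e3
    have h1 := (mul_eq_zero.1 e3.symm).resolve_left h0
    rw [h1] at hθ
    norm_num at hθ
  · rw [div_eq_iff (pow_ne_zero 2 h0), e2, e1, div_eq_mul_inv, ← hbd]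
    linear_combination (-(Y w) * Ω w + (1 - 2 * H) * Ω w) * hbΩ

lemma hasDerivAt_chi (hS : K0Sys p Y Ω) {z : ℂ} {t : ℝ} (h0 : Ω (z - t) ≠ 0) {κ : ℂ}
    (hκ : (deriv Y (z - t) * Ω (z - t) - Y (z - t) * deriv Ω (z - t)) / Ω (z - t) ^ 2 =
      Y (z - t) / Ω (z - t) - κ) :
    HasDerivAt (fun s : ℝ => ((Real.exp s : ℝ) : ℂ) * (Y (z - s) / Ω (z - s)))
      (((Real.exp t : ℝ) : ℂ) * κ) t := by
  have h1 := (hasDerivAt_ray hS.hY z t).div (hasDerivAt_ray hS.hΩ z t) h0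
  have h2 := (Real.hasDerivAt_exp t).ofReal_comp.mul h1
  refine h2.congr_deriv ?_
  simp only [Pi.div_apply]
  linear_combination (-((Real.exp t : ℝ) : ℂ)) * hκ

/-- On a ray `Ω` cannot stay large forever. -/
lemma exists_hit (hS : K0Sys p Y Ω) {z : ℂ} (hH : ∀ t : ℝ, 0 ≤ t → ‖p * exp (2 * (z - t))‖ ≤ 1 / 100) :
    ∃ t : ℝ, 0 ≤ t ∧ ‖Ω (z - t)‖ ≤ 100 := by
  by_contra hcon
  push Not at hcon
  have hpt := fun t (ht : 0 ≤ t) => hS.point (hH t ht) (hcon t ht).le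
  choose h0 hY θ κ hθ hκ e1 e2 using hpt
  set χ : ℝ → ℂ := fun s => Y (z - s) / Ω (z - s) with hχ
  set G : ℝ → ℂ := fun s => ((Real.exp s : ℝ) : ℂ) * χ s - ((Real.exp s : ℝ) : ℂ) * 2 with hG
  have hG1 : ∀ t, 0 ≤ t → ‖G t - G 0‖ ≤ 4 / 100 * (Real.exp t - Real.exp 0) := by
    intro t ht
    refine exp_bound (f' := fun s => if hs : 0 ≤ s then ((Real.exp s : ℝ) : ℂ) * (κ s hs - 2) else 0)
      ht (fun s hs => ?_) (fun s hs => ?_)
    · rw [dif_pos hs.1]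
      refine ((hS.hasDerivAt_chi (h0 s hs.1) (e2 s hs.1)).sub
        ((Real.hasDerivAt_exp s).ofReal_comp.mul_const 2)).congr_deriv ?_
      ring
    · rw [dif_pos hs.1, norm_mul, Complex.norm_real, Real.norm_eq_abs, abs_of_pos (Real.exp_pos s),
        mul_comm]
      exact mul_le_mul_of_nonneg_right (hκ s hs.1) (Real.exp_pos s).le
  set T := 20 * ‖G 0‖ with hT
  have hT0 : 0 ≤ T := by positivity
  have hχ2 : ∀ t, T ≤ t → ‖χ t - 2‖ ≤ 1 / 10 := by
    intro t ht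
    have h1 := hG1 t (hT0.trans ht)
    have h2 : ‖G t‖ ≤ ‖G t - G 0‖ + ‖G 0‖ := by
      simpa using norm_add_le (G t - G 0) (G 0)
    have h3 : ‖G t‖ = Real.exp t * ‖χ t - 2‖ := by
      have : G t = ((Real.exp t : ℝ) : ℂ) * (χ t - 2) := by simp only [hG]; ring
      rw [this, norm_mul, Complex.norm_real, Real.norm_eq_abs, abs_of_pos (Real.exp_pos t)]
    have h4 := Real.add_one_le_exp t
    have h5 := Real.exp_pos t
    have h6 := Real.exp_pos 0
    apply le_of_mul_le_mul_left _ h5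
    linarith
  set W : ℝ → ℂ := fun s => ((Real.exp (1 / 2 * s) : ℝ) : ℂ) * Ω (z - s) with hW
  set s := T + 4 * ‖W T‖ with hs
  have hTs : T ≤ s := by have := norm_nonneg (W T); linarith
  have hWd : ∀ t, HasDerivAt W (((Real.exp (1 / 2 * t) * (1 / 2) : ℝ) : ℂ) * Ω (z - t) +
      ((Real.exp (1 / 2 * t) : ℝ) : ℂ) * -deriv Ω (z - t)) t := fun t =>
    (hasDerivAt_cexp_real (1 / 2) t).mul (hasDerivAt_ray hS.hΩ z t)
  have hgr := norm_le_gronwallBound_of_norm_deriv_right_le (f := W) (δ := ‖W T‖) (K := 1 / 4)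
    (ε := 0) (a := T) (b := s) (fun t _ => (hWd t).continuousAt.continuousWithinAt)
    (fun t _ => (hWd t).hasDerivWithinAt) le_rfl (fun t ht => by
      have ht0 : 0 ≤ t := hT0.trans ht.1
      have h1 := hχ2 t ht.1
      have hχ0 : χ t ≠ 0 := div_ne_zero (hY t ht0) (h0 t ht0)
      have h2 : deriv Ω (z - t) = Ω (z - t) * θ t ht0 / χ t := by
        rw [eq_div_iff hχ0, mul_comm]; exact e1 t ht0
      have h3 : ((Real.exp (1 / 2 * t) * (1 / 2) : ℝ) : ℂ) * Ω (z - t) +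
          ((Real.exp (1 / 2 * t) : ℝ) : ℂ) * -deriv Ω (z - t) =
          ((χ t - 2) - 2 * (θ t ht0 - 1)) / (2 * χ t) * W t := by
        rw [h2]; simp only [hW]; push_cast; field_simp; ring
      rw [h3, norm_mul, add_zero]
      refine mul_le_mul_of_nonneg_right ?_ (norm_nonneg _)
      have h4 : 19 / 10 ≤ ‖χ t‖ := by
        have h5 := norm_sub_le (χ t) (χ t - 2)
        rw [sub_sub_cancel, Complex.norm_ofNat] at h5
        linarith
      rw [norm_div, norm_mul, Complex.norm_ofNat, div_le_iff₀ (by linarith)]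
      have h6 := norm_sub_le (χ t - 2) (2 * (θ t ht0 - 1))
      rw [norm_mul, Complex.norm_ofNat] at h6
      have h7 := hθ t ht0
      linarith) s (right_mem_Icc.2 hTs)
  rw [gronwallBound_ε0] at hgr
  have h1 : ‖W s‖ = Real.exp (1 / 4 * s) * Real.exp (1 / 4 * s) * ‖Ω (z - s)‖ := by
    simp only [hW]
    rw [norm_mul, Complex.norm_real, Real.norm_eq_abs, abs_of_pos (Real.exp_pos _), ← Real.exp_add]
    congr 2; ring
  have h2 : Real.exp (1 / 4 * (s - T)) ≤ Real.exp (1 / 4 * s) := Real.exp_le_exp.2 (by linarith)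
  have h3 := Real.add_one_le_exp (1 / 4 * s)
  have h4 := hcon s (hT0.trans hTs)
  have h5 := Real.exp_pos (1 / 4 * s)
  have h6 := norm_nonneg (W T)
  have h7 : ‖W T‖ < Real.exp (1 / 4 * s) := by linarith
  have h8 : ‖W T‖ * Real.exp (1 / 4 * (s - T)) ≤ Real.exp (1 / 4 * s) * Real.exp (1 / 4 * s) :=
    mul_le_mul h7.le h2 (Real.exp_pos _).le h5.le
  nlinarith [mul_pos h5 h5]

/-- The first time at which `‖Ω‖` drops to `100`. -/
lemma exists_first (hS : K0Sys p Y Ω) {z : ℂ}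
    (hH : ∀ t : ℝ, 0 ≤ t → ‖p * exp (2 * (z - t))‖ ≤ 1 / 100) (hz : 100 < ‖Ω z‖) :
    ∃ T : ℝ, 0 ≤ T ∧ ‖Ω (z - T)‖ ≤ 100 ∧ ∀ t ∈ Icc 0 T, 100 ≤ ‖Ω (z - t)‖ := by
  have hc : Continuous fun t : ℝ => ‖Ω (z - t)‖ := by have := hS.hΩ.continuous; fun_prop
  set A : Set ℝ := {t | 0 ≤ t ∧ ‖Ω (z - t)‖ ≤ 100} with hA
  have hAc : IsClosed A :=
    (isClosed_le continuous_const continuous_id).inter (isClosed_le hc continuous_const)
  have hAb : BddBelow A := ⟨0, fun t ht => ht.1⟩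
  have hT := hAc.csInf_mem (hS.exists_hit hH) hAb
  refine ⟨sInf A, hT.1, hT.2, ?_⟩
  have hne : (0 : ℝ) ≠ sInf A := by
    intro h
    have h1 := hT.2
    rw [← h] at h1
    simp only [Complex.ofReal_zero, sub_zero] at h1
    linarith
  rw [← closure_Ico hne]
  refine (isClosed_le continuous_const hc).closure_subset_iff.2 fun t ht => ?_
  by_contra hcon
  exact absurd (csInf_le hAb ⟨ht.1, (not_le.1 hcon).le⟩) (not_le.2 ht.2)

/-- If `Y / Ω` is large at the first time then `Ω` was not large at the start. -/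
lemma bound_of_first (hS : K0Sys p Y Ω) {z : ℂ}
    (hH : ∀ t : ℝ, 0 ≤ t → ‖p * exp (2 * (z - t))‖ ≤ 1 / 100) {T : ℝ} (hT : 0 ≤ T)
    (h1 : ‖Ω (z - T)‖ ≤ 100) (h2 : ∀ t ∈ Icc 0 T, 100 ≤ ‖Ω (z - t)‖)
    (h3 : 7 ≤ ‖Y (z - T) / Ω (z - T)‖) : ‖Ω z‖ ≤ 200 := by
  have hpt := fun t (ht : t ∈ Icc 0 T) => hS.point (hH t ht.1) (h2 t ht)
  choose h0 hY θ κ hθ hκ e1 e2 using hpt
  set χ : ℝ → ℂ := fun s => Y (z - s) / Ω (z - s) with hχ
  have hlow : ∀ t ∈ Icc 0 T, 4 * Real.exp T ≤ Real.exp t * ‖χ t‖ := by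
    intro t ht
    have h4 := exp_bound (f := fun s : ℝ => ((Real.exp s : ℝ) : ℂ) * χ s) (K := 3)
      (f' := fun s => if hs : s ∈ Icc 0 T then ((Real.exp s : ℝ) : ℂ) * κ s hs else 0) ht.2
      (fun s hs => by
        have hs' : s ∈ Icc 0 T := ⟨ht.1.trans hs.1, hs.2⟩
        rw [dif_pos hs']
        exact hS.hasDerivAt_chi (h0 s hs') (e2 s hs'))
      (fun s hs => by
        have hs' : s ∈ Icc 0 T := ⟨ht.1.trans hs.1, hs.2⟩
        rw [dif_pos hs', norm_mul, Complex.norm_real, Real.norm_eq_abs,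
          abs_of_pos (Real.exp_pos s), mul_comm]
        refine mul_le_mul_of_nonneg_right ?_ (Real.exp_pos s).le
        have h5 := norm_add_le (κ s hs' - 2) 2
        rw [sub_add_cancel, Complex.norm_ofNat] at h5
        have h6 := hκ s hs'
        linarith)
    have h5 := norm_sub_norm_le (((Real.exp T : ℝ) : ℂ) * χ T) (((Real.exp t : ℝ) : ℂ) * χ t)
    rw [norm_mul, norm_mul, Complex.norm_real, Complex.norm_real, Real.norm_eq_abs,
      Real.norm_eq_abs, abs_of_pos (Real.exp_pos _), abs_of_pos (Real.exp_pos _)] at h5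
    have h6 := Real.exp_pos t
    have h7 := mul_le_mul_of_nonneg_left h3 (Real.exp_pos T).le
    linarith
  have hE := Real.exp_pos T
  have h4 := exp_bound (f := fun s : ℝ => (Ω (z - s))⁻¹) (K := 1 / 200 / Real.exp T)
    (f' := fun s => -(-deriv Ω (z - s)) / Ω (z - s) ^ 2) hT
    (fun s hs => (hasDerivAt_ray hS.hΩ z s).inv (h0 s hs))
    (fun s hs => by
      have hχ0 : χ s ≠ 0 := div_ne_zero (hY s hs) (h0 s hs)
      have h5 : deriv Ω (z - s) = Ω (z - s) * θ s hs / χ s := by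
        rw [eq_div_iff hχ0, mul_comm]; exact e1 s hs
      have h6 : -(-deriv Ω (z - s)) / Ω (z - s) ^ 2 = θ s hs / (Ω (z - s) * χ s) := by
        have := h0 s hs
        rw [h5]; field_simp
      have h7 : ‖θ s hs‖ ≤ 2 := by
        have h8 := norm_add_le (θ s hs - 1) 1
        rw [sub_add_cancel, norm_one] at h8
        have h9 := hθ s hs
        linarith
      have h8 := hlow s hs
      have h9 := h2 s hs
      have h10 : 0 < ‖χ s‖ := norm_pos_iff.2 hχ0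
      have h11 := Real.exp_pos s
      rw [h6, norm_div, norm_mul, div_le_iff₀ (by positivity), div_mul_eq_mul_div,
        div_mul_eq_mul_div, le_div_iff₀ hE]
      nlinarith [mul_le_mul_of_nonneg_right h9 (mul_pos h11 h10).le])
  simp only [Complex.ofReal_zero, sub_zero, Real.exp_zero] at h4
  have h5 : 1 / 200 / Real.exp T * (Real.exp T - 1) ≤ 1 / 200 := by
    rw [div_mul_eq_mul_div, div_le_iff₀ hE]; linarith
  have h6 := norm_sub_norm_le (Ω (z - T))⁻¹ (Ω z)⁻¹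
  have h7 : (100 : ℝ)⁻¹ ≤ ‖(Ω (z - T))⁻¹‖ := by
    rw [norm_inv]
    exact inv_anti₀ (norm_pos_iff.2 (h0 T (right_mem_Icc.2 hT))) h1
  by_contra hcon
  have h8 : ‖(Ω z)⁻¹‖ < (200 : ℝ)⁻¹ := by
    rw [norm_inv]; exact inv_strictAnti₀ (by norm_num) (not_le.1 hcon)
  linarith

end K0Sys

end Pool.Agent.Lib.MP_bb1814_an
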