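import Mathlib
import Pool.Agent.Lib.MP_bb1814_an.Zalcman
import Pool.Agent.Lib.MP_bb1814_an.Nev
import Pool.Agent.Lib.MP_bb1814_an.K0B

/-!
Entire solutions of the system `Y' = Y + H (1 + Ω) - Ω`, `Y Ω' = (1 - H) Ω (1 + Ω)`,
`H = p exp (2 z)`, have constant `Ω`.
-/

namespace Pool.Agent.Lib.MP_bb1814_an

open Filter Topology Set Metric Complex

namespace K0Sys

variable {p : ℂ} {Y Ω : ℂ → ℂ}

lemma norm_exp_two (w : ℂ) : ‖exp (2 * w)‖ = Real.exp (2 * w.re) := by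
  rw [Complex.norm_exp]; simp

/-- `Ω` is bounded on a left half plane. -/
lemma left_bound (hS : K0Sys p Y Ω) : ∃ L : ℝ, 0 ≤ L ∧ ∀ z : ℂ, z.re < -L → ‖Ω z‖ ≤ 200 := by
  by_contra hcon
  push Not at hcon
  set L0 : ℝ := 50 * ‖p‖ with hL0
  have hL00 : 0 ≤ L0 := by positivity
  have hsmall : ∀ w : ℂ, w.re ≤ -L0 → ‖p * exp (2 * w)‖ ≤ 1 / 100 := by
    intro w hw
    rw [norm_mul, norm_exp_two]
    have h1 : Real.exp (2 * w.re) ≤ Real.exp (-(2 * L0)) := Real.exp_le_exp.2 (by linarith)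
    have h2 := Real.add_one_le_exp (2 * L0)
    have h3 : Real.exp (-(2 * L0)) * Real.exp (2 * L0) = 1 := by rw [← Real.exp_add]; simp
    have h4 := Real.exp_pos (-(2 * L0))
    have h5 := mul_le_mul_of_nonneg_left h1 (norm_nonneg p)
    nlinarith
  choose z hz1 hz2 using fun n : ℕ => hcon (L0 + n) (by positivity)
  have hH : ∀ n, ∀ t : ℝ, 0 ≤ t → ‖p * exp (2 * (z n - t))‖ ≤ 1 / 100 := by
    intro n t ht
    refine hsmall _ ?_
    have h1 := hz1 n
    have h2 : (0 : ℝ) ≤ n := Nat.cast_nonneg n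
    simp only [Complex.sub_re, Complex.ofReal_re]
    linarith
  choose T hT0 hT1 hT2 using fun n => hS.exists_first (hH n) (by linarith [hz2 n])
  have hc : Tendsto (fun n => exp (2 * (z n - T n))) (hyperfilter ℕ) (𝓝 0) := by
    refine Tendsto.mono_left ?_ (hyperfilter_le_cofinite.trans Nat.cofinite_eq_atTop.le)
    rw [tendsto_zero_iff_norm_tendsto_zero]
    refine squeeze_zero (fun n => norm_nonneg _) (fun n => ?_)
      (Real.tendsto_exp_neg_atTop_nhds_zero.comp tendsto_natCast_atTop_atTop)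
    rw [norm_exp_two]
    refine Real.exp_le_exp.2 ?_
    have h1 := hz1 n
    have h2 : (0 : ℝ) ≤ n := Nat.cast_nonneg n
    have h3 := hT0 n
    simp only [Complex.sub_re, Complex.ofReal_re]
    linarith
  obtain ⟨F, hF, hk⟩ := hS.normal_fin (hyperfilter ℕ) hc (x0 := 0) (M := 100)
    (fun n => by rw [add_zero]; exact hT1 n)
  obtain ⟨k, rfl⟩ := hk rfl
  have h1 := (Loc.deriv_const (z := 0) (Eventually.of_forall hF)).at_pt.norm
  rw [norm_zero] at h1
  obtain ⟨n, hn⟩ := (h1.eventually (gt_mem_nhds (show (0 : ℝ) < 13 by norm_num))).exists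
  rw [deriv_comp_const_add, add_zero] at hn
  have hw := hT2 n (T n) (right_mem_Icc.2 (hT0 n))
  obtain ⟨-, -, θ, κ, hθ, -, e1, -⟩ := hS.point (hH n (T n) (hT0 n)) hw
  refine absurd (hS.bound_of_first (hH n) (hT0 n) (hT1 n) (hT2 n) ?_) (not_le.2 (hz2 n))
  have h2 := congrArg norm e1
  rw [norm_mul, norm_mul] at h2
  have h3 := norm_sub_le θ (θ - 1)
  rw [sub_sub_cancel, norm_one] at h3
  have h4 : 97 ≤ ‖Ω (z n - T n)‖ * ‖θ‖ := by nlinarith
  by_contra hcon'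
  push Not at hcon'
  nlinarith [norm_nonneg (deriv Ω (z n - T n)), norm_nonneg (Y (z n - T n) / Ω (z n - T n))]

lemma bounded (hS : K0Sys p Y Ω) : ∃ M : ℝ, ∀ z, ‖Ω z‖ ≤ M := by
  obtain ⟨L, hL, h1⟩ := hS.left_bound
  obtain ⟨L', hL', h2⟩ := hS.mirror.left_bound
  have hstrip : ∃ M : ℝ, ∀ z : ℂ, z.re ≤ L' → ‖Ω z‖ ≤ M := by
    by_contra hcon
    push Not at hcon
    choose c hc1 hc2 using fun n : ℕ => hcon n
    obtain ⟨lam, -, hlam⟩ := (isCompact_closedBall (0 : ℂ) (Real.exp (2 * L'))).ultrafilter_le_nhds'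
      ((hyperfilter ℕ).map fun n => exp (2 * c n)) (by
        rw [Ultrafilter.mem_map]
        refine univ_mem' fun n => ?_
        rw [mem_preimage, mem_closedBall_zero_iff, norm_exp_two]
        exact Real.exp_le_exp.2 (by linarith [hc1 n]))
    obtain ⟨F, hF, -⟩ := hS.normal_fin (hyperfilter ℕ) (c := c) hlam
      (x0 := ((-(L + L' + 1) : ℝ) : ℂ)) (M := 200) (fun n => h1 _ (by
        simp only [Complex.add_re, Complex.ofReal_re]
        linarith [hc1 n]))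
    have h3 := (hF 0).at_pt.norm
    obtain ⟨N, hN⟩ := exists_nat_gt (‖F 0‖ + 1)
    have h4 : ∀ᶠ n in (hyperfilter ℕ : Filter ℕ), N ≤ n :=
      (hyperfilter_le_cofinite.trans Nat.cofinite_eq_atTop.le) (eventually_ge_atTop N)
    obtain ⟨n, h5, h6⟩ := ((h3.eventually (gt_mem_nhds (lt_add_one ‖F 0‖))).and h4).exists
    rw [add_zero] at h5
    have h7 : (N : ℝ) ≤ n := by exact_mod_cast h6
    linarith [hc2 n]
  obtain ⟨M, hM⟩ := hstrip
  refine ⟨max M 201, fun z => ?_⟩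
  rcases le_or_gt z.re L' with h | h
  · exact (hM z h).trans (le_max_left _ _)
  · have h3 := h2 (-z) (by simpa using h)
    simp only [neg_neg] at h3
    have h4 := norm_sub_le (-1) (-1 - Ω z)
    rw [sub_sub_cancel, norm_neg, norm_one] at h4
    exact le_trans (by linarith) (le_max_right _ _)

end K0Sys

theorem k0_const (p : ℂ) (hp : p ≠ 0) (Y Ω : ℂ → ℂ) (hY : Differentiable ℂ Y)
    (hΩ : Differentiable ℂ Ω)
    (h1 : ∀ z, deriv Y z = Y z + p * exp (2 * z) * (1 + Ω z) - Ω z)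
    (h2 : ∀ z, Y z * deriv Ω z = (1 - p * exp (2 * z)) * (Ω z * (1 + Ω z))) :
    ∃ c, ∀ z, Ω z = c := by
  rcases (Reg.of_differentiable hΩ).nc_or_const with hnc | ⟨c, hc⟩
  · obtain ⟨M, hM⟩ := (K0Sys.mk hp hY hΩ h1 h2 hnc).bounded
    refine hΩ.exists_const_forall_eq_of_bounded ?_
    rw [isBounded_iff_forall_norm_le]
    exact ⟨M, by rintro _ ⟨z, rfl⟩; exact hM z⟩
  · exact ⟨c, fun z => congrFun hc z⟩

end Pool.Agent.Lib.MP_bb1814_an
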