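import Mathlib
import Pool.Agent.Lib.MP_bb1814_an.AsymB

/-!
Auxiliary lemmas for the local analysis at a sequence of good points.
-/

namespace Pool.Agent.Lib.MP_bb1814_an

open Filter Topology Set Metric Complex

variable {ι : Type*} {l : Filter ι} {C : Cub}

/-- On the disc of radius `R` the function `u` behaves like `exp (θ z)`. -/
def Rep (u : ℂ → ℂ) (θ : ℂ) (δ R : ℝ) : Prop :=
  ∀ x ∈ ball (0 : ℂ) R, ∀ y ∈ ball (0 : ℂ) R, ∃ e : ℂ, ‖e‖ ≤ δ * ‖y - x‖ ∧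
    u y = u x * exp (θ * (y - x) + e)

lemma rep_of_logDeriv {u : ℂ → ℂ} (hu : Differentiable ℂ u) {θ : ℂ} {δ R : ℝ}
    (h : ∀ z ∈ ball (0 : ℂ) R, u z ≠ 0 ∧ ‖deriv u z / u z - θ‖ ≤ δ) : Rep u θ δ R := by
  have h1 : DifferentiableOn ℂ (fun z => deriv u z / u z - θ) (ball 0 R) := fun z hz =>
    ((((hu.analyticAt z).deriv.differentiableAt).div (hu z) (h z hz).1).sub_const
      θ).differentiableWithinAt
  obtain ⟨L, hL⟩ := h1.isExactOn_ball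
  have h2 : ∀ z ∈ ball (0 : ℂ) R, HasDerivAt (fun z => u z * exp (-(θ * z + L z))) 0 z := by
    intro z hz
    have h3 := (hu z).hasDerivAt.mul
      ((((hasDerivAt_id z).const_mul θ).add (hL z hz)).neg.cexp)
    refine HasDerivAt.congr_deriv h3 ?_
    have := (h z hz).1
    simp only [Pi.neg_apply, Pi.add_apply, id]
    field_simp
    ring
  intro x hx y hy
  refine ⟨L y - L x, ?_, ?_⟩
  · exact (convex_ball 0 R).norm_image_sub_le_of_norm_hasDerivWithin_le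
      (fun z hz => (hL z hz).hasDerivWithinAt) (fun z hz => (h z hz).2) hx hy
  · have h3 := isOpen_ball.is_const_of_deriv_eq_zero (convex_ball 0 R).isPreconnected
      (fun z hz => (h2 z hz).differentiableAt.differentiableWithinAt)
      (fun z hz => (h2 z hz).deriv) hy hx
    have h4 : u y = u y * exp (-(θ * y + L y)) * exp (θ * y + L y) := by
      rw [mul_assoc, ← exp_add, neg_add_cancel, exp_zero, mul_one]
    rw [h4, h3, mul_assoc, ← exp_add]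
    congr 2; ring

lemma Rep.div {u w : ℂ → ℂ} {θ θ' : ℂ} {δ δ' R : ℝ} (hu : Rep u θ δ R) (hw : Rep w θ' δ' R) :
    Rep (fun z => u z / w z) (θ - θ') (δ + δ') R := by
  intro x hx y hy
  obtain ⟨e, h1, h2⟩ := hu x hx y hy
  obtain ⟨e', h3, h4⟩ := hw x hx y hy
  refine ⟨e - e', (norm_sub_le _ _).trans (by linarith), ?_⟩
  simp only [h2, h4]
  rw [mul_div_mul_comm, ← exp_sub]
  congr 2; ring

lemma Rep.norm_le {u : ℂ → ℂ} {θ : ℂ} {δ R : ℝ} (hu : Rep u θ δ R) {x y : ℂ}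
    (hx : x ∈ ball (0 : ℂ) R) (hy : y ∈ ball (0 : ℂ) R) :
    ‖u y‖ ≤ ‖u x‖ * Real.exp ((θ * (y - x)).re + δ * ‖y - x‖) ∧
      ‖u x‖ * Real.exp ((θ * (y - x)).re - δ * ‖y - x‖) ≤ ‖u y‖ := by
  obtain ⟨e, h1, h2⟩ := hu x hx y hy
  have h3 := abs_le.1 ((abs_re_le_norm e).trans h1)
  rw [h2, norm_mul, norm_exp, add_re]
  constructor <;> gcongr <;> linarith [h3.1, h3.2]

lemma Rep.inj {H : ℂ → ℂ} {θ : ℂ} {δ R : ℝ} (hH : Rep H θ δ R) (hδ : δ < ‖θ‖) (hθ : ‖θ‖ ≤ 2)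
    {x y : ℂ} (hx : x ∈ ball (0 : ℂ) R) (hy : y ∈ ball (0 : ℂ) R) (h0 : H x ≠ 0)
    (hxy : ‖y - x‖ ≤ 1) (h : H x = H y) : x = y := by
  obtain ⟨e, h1, h2⟩ := hH x hx y hy
  have h3 : exp (θ * (y - x) + e) = 1 := mul_left_cancel₀ h0 (by rw [← h2, h, mul_one])
  obtain ⟨n, hn⟩ := exp_eq_one_iff.1 h3
  have h4 : ‖θ * (y - x) + e‖ ≤ 4 := by
    refine (norm_add_le _ _).trans ?_
    rw [norm_mul]
    nlinarith [norm_nonneg (y - x), norm_nonneg θ]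
  have h5 : n = 0 := by
    rw [hn, norm_mul, norm_intCast, norm_mul, norm_I, norm_mul, norm_real,
      Real.norm_of_nonneg Real.pi_pos.le, Complex.norm_ofNat] at h4
    have h6 : |(n : ℝ)| < 1 := by nlinarith [Real.pi_gt_three, abs_nonneg (n : ℝ)]
    have : |n| < 1 := by exact_mod_cast h6
    exact Int.abs_lt_one_iff.1 this
  rw [h5, Int.cast_zero, zero_mul] at hn
  have h6 : ‖θ‖ * ‖y - x‖ ≤ δ * ‖y - x‖ := by
    rw [← norm_mul, eq_neg_of_add_eq_zero_left hn, norm_neg]; exact h1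
  by_contra hne
  have h7 : 0 < ‖y - x‖ := norm_pos_iff.2 (sub_ne_zero.2 (Ne.symm hne))
  nlinarith

lemma eventually_mem_ball {R : ι → ℝ} (hR : Tendsto R l atTop) (z : ℂ) :
    ∀ᶠ p in l ×ˢ 𝓝 z, p.2 ∈ ball (0 : ℂ) (R p.1) := by
  filter_upwards [(hR.eventually_ge_atTop (‖z‖ + 1)).prod_mk
    (isOpen_ball.mem_nhds (show z ∈ ball (0 : ℂ) (‖z‖ + 1) by simp))] with p hp
  exact ball_subset_ball hp.1 hp.2

lemma rep_tendsto {u : ι → ℂ → ℂ} {θ : ι → ℂ} {δ R : ι → ℝ} {θ0 : ℂ}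
    (h : ∀ᶠ n in l, Rep (u n) (θ n) (δ n) (R n) ∧ u n 0 ≠ 0) (hθ : Tendsto θ l (𝓝 θ0))
    (hδ : Tendsto δ l (𝓝 0)) (hR : Tendsto R l atTop) (z : ℂ) :
    Tendsto (fun p : ι × ℂ => u p.1 p.2 / u p.1 0) (l ×ˢ 𝓝 z) (𝓝 (exp (θ0 * z))) := by
  have h1 : ∀ p : ι × ℂ, ∃ e : ℂ, (Rep (u p.1) (θ p.1) (δ p.1) (R p.1) ∧ u p.1 0 ≠ 0) ∧
      p.2 ∈ ball (0 : ℂ) (R p.1) → ‖e‖ ≤ δ p.1 * ‖p.2‖ ∧
        exp (θ p.1 * p.2 + e) = u p.1 p.2 / u p.1 0 := by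
    intro p
    by_cases hp : (Rep (u p.1) (θ p.1) (δ p.1) (R p.1) ∧ u p.1 0 ≠ 0) ∧ p.2 ∈ ball (0 : ℂ) (R p.1)
    · obtain ⟨e, h1, h2⟩ := hp.1.1 0 (mem_ball_self (pos_of_mem_ball hp.2)) p.2 hp.2
      rw [sub_zero] at h1 h2
      exact ⟨e, fun _ => ⟨h1, by rw [h2, mul_div_cancel_left₀ _ hp.1.2]⟩⟩
    · exact ⟨0, fun h => absurd h hp⟩
  choose e he using h1
  have h2 := ((h.prod_inl (𝓝 z)).and (eventually_mem_ball hR z)).mono he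
  have h3 : Tendsto e (l ×ˢ 𝓝 z) (𝓝 0) := by
    refine squeeze_zero_norm' (h2.mono fun p hp => hp.1) ?_
    simpa using (hδ.comp tendsto_fst).mul (tendsto_snd (f := l) (g := 𝓝 z)).norm
  have h4 := (((hθ.comp tendsto_fst).mul (tendsto_snd (f := l) (g := 𝓝 z))).add h3).cexp
  rw [add_zero] at h4
  exact h4.congr' (h2.mono fun p hp => hp.2)

lemma exists_reg_version {φ : ℂ → ℂ} (hφ : Meromorphic φ) :
    ∃ ψ, Reg ψ ∧ ∀ z, AnalyticAt ℂ φ z → AnalyticAt ℂ ψ z ∧ ψ z = φ z := by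
  have h1 : MeromorphicOn φ univ := hφ.meromorphicOn
  have h2 := meromorphicNFOn_toMeromorphicNFOn φ univ
  have h3 : Reg (toMeromorphicNFOn φ univ) := ⟨fun z => (h2 (mem_univ z)).meromorphicAt,
    fun z hz => (h2 (mem_univ z)).meromorphicOrderAt_nonneg_iff_analyticAt.1 hz⟩
  refine ⟨_, h3, fun z hz => ?_⟩
  have h4 := h1.toMeromorphicNFOn_eq_self_on_nhdsNE (mem_univ z)
  have h5 := h3.an z (by rw [meromorphicOrderAt_congr h4]; exact hz.meromorphicOrderAt_nonneg)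
  exact ⟨h5, eq_of_nhdsNE h5.continuousAt hz.continuousAt h4⟩

lemma lc_of_cv [l.NeBot] {φ ψ : ι → ℂ → ℂ} (hψ : ∀ n, Reg (ψ n))
    (h : ∀ z, ∀ᶠ p in l ×ˢ 𝓝 z, AnalyticAt ℂ (ψ p.1) p.2 ∧ ψ p.1 p.2 = φ p.1 p.2) {F : ℂ → ℂ}
    (hF : Reg F) (hc : Cv l ψ (sph F)) : Differentiable ℂ F ∧ ∀ z, LC l φ z (F z) := by
  have h1 : ∀ z, AnalyticAt ℂ F z := fun z => by_contra fun hz =>
    hc.freq_pole hψ hF hz ((h z).mono fun p hp h1 => h1 hp.1)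
  exact ⟨fun z => (h1 z).differentiableAt, fun z =>
    (hc.lc hψ (h1 z)).congr ((h z).mono fun p hp => hp.2)⟩

/-- Zalcman's lemma for families that are eventually holomorphic. -/
lemma zalcman_an (𝒰 : Ultrafilter ι) {φ : ι → ℂ → ℂ} (hφ : ∀ n, Meromorphic (φ n))
    (han : ∀ z, ∀ᶠ p in (𝒰 : Filter ι) ×ˢ 𝓝 z, AnalyticAt ℂ (φ p.1) p.2) {M : ℝ}
    (hb : ∀ᶠ n in (𝒰 : Filter ι), ‖φ n 0‖ ≤ M) :
    (∃ F, Differentiable ℂ F ∧ ∀ z, LC (𝒰 : Filter ι) φ z (F z)) ∨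
      ∃ (a ρ : ι → ℂ) (a0 : ℂ) (F : ℂ → ℂ), Tendsto a 𝒰 (𝓝 a0) ∧ (∀ n, ρ n ≠ 0) ∧
        Tendsto ρ 𝒰 (𝓝 0) ∧ Differentiable ℂ F ∧ NC F ∧
        ∀ z, LC (𝒰 : Filter ι) (fun n x => φ n (a n + ρ n * x)) z (F z) := by
  choose ψ hψ hψ' using fun n => exists_reg_version (hφ n)
  have h1 : ∀ z, ∀ᶠ p in (𝒰 : Filter ι) ×ˢ 𝓝 z, AnalyticAt ℂ (ψ p.1) p.2 ∧ ψ p.1 p.2 = φ p.1 p.2 :=
    fun z => (han z).mono fun p hp => hψ' _ _ hp
  rcases zalcman 𝒰 hψ with ⟨t, ht⟩ | ⟨a, ρ, a0, F, k1, k2, k3, k4, k5, k6⟩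
  · have h2 : t 0 ≠ sI 0 := ht.ne_inf_of_bdd (M := M) (by
      filter_upwards [(tendsto_at_pt 0).eventually (h1 0), hb] with n hn hn'
      exact ⟨hn.1, by rw [hn.2]; exact hn'⟩)
    obtain ⟨F, rF, rfl⟩ := (CCv.isHol (fun n => (hψ n).isHol) ht).exists_reg.resolve_left
      fun h => h2 (by rw [h])
    exact Or.inl ⟨F, lc_of_cv hψ h1 rF ht⟩
  · obtain ⟨h2, h3⟩ := lc_of_cv (φ := fun n x => φ n (a n + ρ n * x))
      (fun n => (hψ n).aff _ (k2 n)) (fun z => ((tendsto_rescale k1 k3 z).eventually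
        (h1 a0)).mono fun p hp => ⟨(analyticAt_aff_iff _ (k2 _) _).2 hp.1, hp.2⟩) k4 k6
    exact Or.inr ⟨a, ρ, a0, F, k1, k2, k3, h2, k5, h3⟩

/-- Convergence of primitives. -/
lemma lc_primitive {φ : ι → ℂ → ℂ} {Φ Ψ : ℂ → ℂ} (hΦ : ∀ z, HasDerivAt Φ (Ψ z) z)
    (hΨ : Continuous Ψ) (han : ∀ z, ∀ᶠ p in l ×ˢ 𝓝 z, AnalyticAt ℂ (φ p.1) p.2)
    (hd : ∀ z, Tendsto (fun p : ι × ℂ => deriv (φ p.1) p.2) (l ×ˢ 𝓝 z) (𝓝 (Ψ z)))
    (h0 : Tendsto (fun n => φ n 0) l (𝓝 (Φ 0))) (z : ℂ) : LC l φ z (Φ z) := by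
  refine ⟨han z, ?_⟩
  have cΦ : Continuous Φ := continuous_iff_continuousAt.2 fun x => (hΦ x).continuousAt
  have h1 : Tendsto (fun p : ι × ℂ => (φ p.1 p.2 - Φ p.2) - (φ p.1 0 - Φ 0)) (l ×ˢ 𝓝 z)
      (𝓝 0) := by
    rw [NormedAddGroup.tendsto_nhds_zero]
    intro ε hε
    have hR : 0 < ‖z‖ + 1 := by positivity
    have h2 := eventually_forall_compact (l := l) (isCompact_closedBall (0 : ℂ) (‖z‖ + 1))
      (Q := fun n x => AnalyticAt ℂ (φ n) x ∧ ‖deriv (φ n) x - Ψ x‖ ≤ ε / (‖z‖ + 1) / 2)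
      fun x _ => (han x).and (by
        have := ((hd x).sub ((hΨ.tendsto x).comp tendsto_snd)).norm
        rw [sub_self, norm_zero] at this
        exact this.eventually (ge_mem_nhds (by positivity)))
    filter_upwards [h2.prod_mk (closedBall_mem_nhds_of_mem
      (show z ∈ ball (0 : ℂ) (‖z‖ + 1) by simp))] with p hp
    have h3 := (convex_closedBall (0 : ℂ) (‖z‖ + 1)).norm_image_sub_le_of_norm_hasDerivWithin_le
      (f := fun x => φ p.1 x - Φ x)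
      (fun x hx => ((hp.1 x hx).1.differentiableAt.hasDerivAt.sub (hΦ x)).hasDerivWithinAt)
      (fun x hx => (hp.1 x hx).2) (mem_closedBall_self hR.le) hp.2
    rw [sub_zero] at h3
    calc _ ≤ ε / (‖z‖ + 1) / 2 * ‖p.2‖ := h3
      _ ≤ ε / (‖z‖ + 1) / 2 * (‖z‖ + 1) := by gcongr; exact mem_closedBall_zero_iff.1 hp.2
      _ = ε / 2 := by field_simp
      _ < ε := half_lt_self hε
  have h4 := (h1.add ((h0.comp tendsto_fst).sub_const (Φ 0))).add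
    ((cΦ.tendsto z).comp (tendsto_snd (f := l)))
  simpa using h4

lemma finite_sep {T : Set ℂ} (hT : T.Finite) :
    ∃ δ > 0, ∀ a ∈ T, ∀ b ∈ T, dist a b < δ → a = b := by
  obtain ⟨δ, h1, h2⟩ := hT.relatively_discrete
  obtain ⟨δ', h3, h4, h5⟩ := ENNReal.lt_iff_exists_real_btwn.1 h1
  refine ⟨δ', ENNReal.ofReal_pos.1 h4, fun a ha b hb hab => by_contra fun hne => ?_⟩
  have h7 := h5.trans_le (h2 a ha b hb hne)
  rw [edist_dist, ENNReal.ofReal_lt_ofReal_iff_of_nonneg h3] at h7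
  linarith

/-- The positive integers and their reciprocals do not accumulate at a non-zero point. -/
lemma disc_int {h : ℂ} (h0 : h ≠ 0) : ∃ δ > 0, ∀ x y : ℂ,
    (∃ m : ℕ, x = m ∨ x = (m : ℂ)⁻¹) → (∃ m : ℕ, y = m ∨ y = (m : ℂ)⁻¹) →
    ‖x - h‖ < δ → ‖y - h‖ < δ → x = y := by
  have hp : 0 < ‖h‖ := norm_pos_iff.2 h0
  obtain ⟨N, hN⟩ := exists_nat_ge (2 * ‖h‖ + 2 / ‖h‖)
  obtain ⟨δ, hδ, hsep⟩ := finite_sep ((((finite_Iic N).image fun m : ℕ => (m : ℂ))).union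
    ((finite_Iic N).image fun m : ℕ => (m : ℂ)⁻¹))
  have h2 : 0 < 2 / ‖h‖ := by positivity
  have key : ∀ x : ℂ, (∃ m : ℕ, x = m ∨ x = (m : ℂ)⁻¹) → ‖x - h‖ < ‖h‖ / 2 →
      x ∈ ((fun m : ℕ => (m : ℂ)) '' Iic N) ∪ ((fun m : ℕ => (m : ℂ)⁻¹) '' Iic N) := by
    rintro x ⟨m, rfl | rfl⟩ hx
    · refine Or.inl ⟨m, ?_, rfl⟩
      have := norm_le_insert' (m : ℂ) h
      rw [norm_natCast] at this
      have h3 : (m : ℝ) ≤ N := by linarith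
      exact_mod_cast h3
    · refine Or.inr ⟨m, ?_, rfl⟩
      have := norm_le_insert (m : ℂ)⁻¹ h
      rw [norm_inv, norm_natCast] at this
      have h3 : ‖h‖ / 2 < (m : ℝ)⁻¹ := by linarith
      have h4 : (m : ℝ) < 2 / ‖h‖ := by
        have := lt_inv_comm₀ (half_pos hp) (inv_pos.1 ((half_pos hp).trans h3)) |>.1 h3
        rwa [inv_div] at this
      have h5 : (m : ℝ) ≤ N := by linarith
      exact_mod_cast h5
  refine ⟨min (δ / 2) (‖h‖ / 2), by positivity, fun x y hx hy h3 h4 => ?_⟩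
  rw [lt_min_iff] at h3 h4
  refine hsep x (key x hx h3.2) y (key y hy h4.2) ?_
  have := dist_triangle_right x y h
  rw [dist_eq_norm x h, dist_eq_norm y h] at this
  linarith [h3.1, h4.1]

/-- A curve that points inwards stays in the closed disc for a short time. -/
lemma inward {φ : ℝ → ℂ} {φ' : ℂ} {x r : ℝ} (h : HasDerivAt φ φ' x) (h1 : ‖φ x‖ ≤ r)
    (h2 : ‖φ' + φ x‖ < r) : ∀ᶠ t in 𝓝[>] x, ‖φ t‖ ≤ r := by
  have h3 := (hasDerivAt_iff_isLittleO.1 h).bound (sub_pos.2 h2)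
  filter_upwards [nhdsWithin_le_nhds h3, Ioo_mem_nhdsGT (lt_add_one x)] with t ht ht'
  have h4 : 0 < t - x := sub_pos.2 ht'.1
  have h5 : 0 ≤ 1 - (t - x) := by linarith [ht'.2]
  have h6 : φ t = (φ t - φ x - (t - x) • φ') + (1 - (t - x)) • φ x + (t - x) • (φ' + φ x) := by
    simp only [real_smul]; push_cast; ring
  have h7 : ‖φ t - φ x - (t - x) • φ'‖ ≤ (r - ‖φ' + φ x‖) * (t - x) := by
    have : ‖φ t - φ x - (t - x) • φ'‖ ≤ (r - ‖φ' + φ x‖) * ‖t - x‖ := ht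
    rwa [Real.norm_of_nonneg h4.le] at this
  rw [h6]
  refine (norm_add₃_le).trans ?_
  rw [norm_smul, norm_smul, Real.norm_of_nonneg h4.le, Real.norm_of_nonneg h5]
  nlinarith

end Pool.Agent.Lib.MP_bb1814_an
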