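import Mathlib
import Pool.Agent.Lib.MP_bb1814_an.LocA

/-!
The quotient `(g - a) / (f - g)` near a root `a` and an invariant region.
-/

namespace Pool.Agent.Lib.MP_bb1814_an

open Filter Topology Set Metric Complex

variable {C : Cub} {f g u w : ℂ → ℂ} {a x : ℂ}

/-- The quotient of the cubic by the linear factor of a root. -/
def Cub.Q (C : Cub) (a t : ℂ) : ℂ := t ^ 2 + a * t + (a ^ 2 + C.al)

lemma Cub.P_eq_mul (C : Cub) (ha : C.P a = 0) (t : ℂ) : C.P t = (t - a) * C.Q a t := by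
  rw [C.P_eq] at ha ⊢
  unfold Cub.Q
  linear_combination ha

lemma Cub.Q_self (C : Cub) (a : ℂ) : C.Q a a = 3 * a ^ 2 + C.al := by unfold Cub.Q; ring

lemma Cub.Q_ne (C : Cub) (ha : C.P a = 0) : C.Q a a ≠ 0 := by
  rw [C.Q_self]; exact C.deriv_ne ha

lemma Cub.differentiable_Q (C : Cub) (a : ℂ) : Differentiable ℂ (C.Q a) := by
  unfold Cub.Q; fun_prop

/-- The quotient `(g - a) / (f - g)`. -/
noncomputable def om (C : Cub) (a : ℂ) (g w : ℂ → ℂ) (x : ℂ) : ℂ :=
  deriv g x / (w x * C.Q a (g x))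

namespace Pair

lemma om_mero (hP : Pair C f g u w) (a : ℂ) : Meromorphic (om C a g w) := fun z => by
  have h1 := hP.rg.mero z
  have h2 := (hP.dw.analyticAt z).meromorphicAt
  unfold om Cub.Q
  exact h1.deriv.div (h2.mul (((h1.pow 2).add ((MeromorphicAt.const a z).mul h1)).add
    (MeromorphicAt.const _ z)))

lemma om_an (hP : Pair C f g u w) (hx : AnalyticAt ℂ f x) (hw : w x ≠ 0)
    (hQ : C.Q a (g x) ≠ 0) : AnalyticAt ℂ (om C a g w) x := by
  have hg := (hP.pole x).1 hx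
  exact hg.deriv.div ((hP.dw.analyticAt x).mul (((C.differentiable_Q a).analyticAt _).comp hg))
    (mul_ne_zero hw hQ)

lemma om_mul (hP : Pair C f g u w) (ha : C.P a = 0) (hx : AnalyticAt ℂ f x) (hw : w x ≠ 0)
    (hQ : C.Q a (g x) ≠ 0) : om C a g w x * (f x - g x) = g x - a := by
  have h := hP.odeg x hx
  rw [C.P_eq_mul ha] at h
  unfold om
  field_simp
  linear_combination h

lemma deriv_g (hw : w x ≠ 0) (hQ : C.Q a (g x) ≠ 0) :
    deriv g x = w x * om C a g w x * C.Q a (g x) := by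
  unfold om; field_simp

lemma om_near (hP : Pair C f g u w) (hx : AnalyticAt ℂ f x) (hw : w x ≠ 0)
    (hQ : C.Q a (g x) ≠ 0) : ∀ᶠ y in 𝓝 x, AnalyticAt ℂ f y ∧ w y ≠ 0 ∧ C.Q a (g y) ≠ 0 :=
  hx.eventually_analyticAt.and ((hP.dw.continuous.continuousAt.eventually_ne hw).and
    (((C.differentiable_Q a).continuous.continuousAt.comp
      ((hP.pole x).1 hx).continuousAt).eventually_ne hQ))

lemma deriv_f (hP : Pair C f g u w) (ha : C.P a = 0) (hx : AnalyticAt ℂ f x) (hw : w x ≠ 0)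
    (hQ : C.Q a (g x) ≠ 0) : deriv f x = u x * (1 + om C a g w x) * C.Q a (f x) := by
  refine eq_of_nhdsNE (F := deriv f) (G := fun x => u x * (1 + om C a g w x) * C.Q a (f x))
    hx.deriv.continuousAt ((hP.du.continuous.continuousAt.mul (continuousAt_const.add
      (hP.om_an hx hw hQ).continuousAt)).mul
      ((C.differentiable_Q a).continuous.continuousAt.comp hx.continuousAt)) ?_
  filter_upwards [eventually_nhdsWithin_of_eventually_nhds (hP.om_near hx hw hQ),
    (meromorphicOrderAt_ne_top_iff_eventually_ne_zero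
    ((hP.rf.mero x).sub (hP.rg.mero x))).1 (hP.ne x)] with y hy hy'
  have h1 := hP.om_mul ha hy.1 hy.2.1 hy.2.2
  have h2 := hP.odef y hy.1
  rw [C.P_eq_mul ha] at h2
  apply mul_left_cancel₀ hy'
  simp only [Pi.sub_apply]
  linear_combination h2 - u y * C.Q a (f y) * h1

lemma om_ode (hP : Pair C f g u w) (ha : C.P a = 0) (hx : AnalyticAt ℂ f x) (hw : w x ≠ 0)
    (hQ : C.Q a (g x) ≠ 0) : deriv (om C a g w) x * (f x - g x) =
      om C a g w x * (1 + om C a g w x) * (w x * C.Q a (g x) - u x * C.Q a (f x)) := by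
  have hg := (hP.pole x).1 hx
  have h1 := ((hP.om_an hx hw hQ).differentiableAt.hasDerivAt.mul
    (hx.differentiableAt.hasDerivAt.sub hg.differentiableAt.hasDerivAt)).unique
    ((hg.differentiableAt.hasDerivAt.sub_const a).congr_of_eventuallyEq
      ((hP.om_near hx hw hQ).mono fun y hy => hP.om_mul ha hy.1 hy.2.1 hy.2.2))
  simp only [Pi.sub_apply] at h1
  rw [hP.deriv_f ha hx hw hQ, deriv_g hw hQ] at h1
  linear_combination h1

lemma om_root (hP : Pair C f g u w) (ha : C.P a = 0) (hx : AnalyticAt ℂ f x) (hu : u x ≠ 0)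
    (hw : w x ≠ 0) (hQ : C.Q a (g x) ≠ 0) (h : om C a g w x = 0 ∨ om C a g w x = -1) :
    ∃ m : ℕ, u x / w x = m ∨ u x / w x = (m : ℂ)⁻¹ := by
  have h1 := hP.om_mul ha hx hw hQ
  have h2 : f x = g x := by
    refine hP.share x hx ?_
    rcases h with h | h
    · right; rw [h] at h1; rw [show g x = a by linear_combination -h1, ha]
    · left; rw [h] at h1; rw [show f x = a by linear_combination -h1, ha]
  have h3 : C.P (f x) = 0 := by
    have := hP.odef x hx
    rw [h2, sub_self, mul_zero, ← h2] at this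
    exact (mul_eq_zero.1 this.symm).resolve_left hu
  obtain ⟨m, hm, h4 | h4⟩ := hP.root_local hx h3 hu
  · exact ⟨m, Or.inl (by rw [h4.2.2, mul_div_cancel_right₀ _ hw])⟩
  · refine ⟨m, Or.inr ?_⟩
    rw [h4.2.2] at hw ⊢
    have := left_ne_zero_of_mul hw
    field_simp

end Pair

/-- The invariant region. -/
def Cond (C : Cub) (a : ℂ) (δ : ℝ) (f g w : ℂ → ℂ) (x : ℂ) : Prop :=
  AnalyticAt ℂ f x ∧ ‖g x - a‖ ≤ δ ∧ ‖1 + om C a g w x‖ ≤ 1 / 10 ∧
    ‖(f x - g x) / (w x * C.Q a a) + 1‖ ≤ 1 / 4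

lemma Reg.an_of_freq {g : ℂ → ℂ} (hg : Reg g) {γ : ℝ → ℂ} {t : ℝ} (hγ : ContinuousAt γ t) {M : ℝ}
    (h : ∃ᶠ s in 𝓝 t, AnalyticAt ℂ g (γ s) ∧ ‖g (γ s)‖ ≤ M) : AnalyticAt ℂ g (γ t) := by
  have h1 := (continuous_snd.comp hg.isHol.continuous).continuousAt.tendsto.comp hγ.tendsto
  have h2 : (sph g (γ t)).2 ∈ Ici (1 + M ^ 2)⁻¹ :=
    isClosed_Ici.mem_of_frequently_of_tendsto (h.mono fun s hs => by
      simp only [Function.comp, sph_of_an hs.1, s0, mem_Ici]
      gcongr
      exact hs.2) h1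
  exact sph_snd_ne.1 (lt_of_lt_of_le (by positivity) h2).ne'

lemma norm_ge_of_add_one {y : ℂ} {r : ℝ} (h : ‖y + 1‖ ≤ r) : 1 - r ≤ ‖y‖ ∧ ‖y‖ ≤ 1 + r := by
  have h1 := norm_sub_le (y + 1) y
  have h2 := norm_sub_le (y + 1) 1
  rw [add_sub_cancel_left, norm_one] at h1
  rw [add_sub_cancel_right, norm_one] at h2
  constructor <;> linarith

theorem bootstrap (hP : Pair C f g u w) (ha : C.P a = 0) {δ L T : ℝ} (hδ0 : 0 < δ)
    (hδ : ∀ t, ‖t - a‖ ≤ δ → ‖C.Q a t / C.Q a a - 1‖ ≤ 1 / 20) (hLT : L ≤ T)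
    (h : ∀ t ∈ Icc L T, w (-t) ≠ 0 ∧ ‖w (-t)‖ * ‖C.Q a a‖ ≤ δ / 2 ∧ ‖u (-t) / w (-t)‖ ≤ 1 / 25 ∧
      ‖deriv w (-t) / w (-t) + 1‖ ≤ 1 / 100) (hL : Cond C a δ f g w (-L)) :
    Cond C a δ f g w (-T) := by
  have hQ0 := C.Q_ne ha
  have hQ : ∀ t, ‖t - a‖ ≤ δ → C.Q a t ≠ 0 := fun t ht h0 => by
    have := hδ t ht
    rw [h0, zero_div, zero_sub, norm_neg, norm_one] at this
    norm_num at this
  have hγ : ∀ t : ℝ, HasDerivAt (fun s : ℝ => -(s : ℂ)) (-1) t := fun t =>
    (ofRealCLM.hasDerivAt (x := t)).neg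
  refine IsClosed.mem_of_ge_of_forall_exists_gt (s := {t : ℝ | Cond C a δ f g w (-t)}) ?_ hL hLT ?_
  · rw [isClosed_iff_frequently]
    intro t ht
    have h1 : t ∈ Icc L T := isClosed_Icc.mem_of_frequently_of_tendsto
      (ht.mono fun s hs => hs.2) tendsto_id
    have h2 : AnalyticAt ℂ g (-t) := hP.rg.an_of_freq (γ := fun s : ℝ => -(s : ℂ))
      (hγ t).continuousAt (M := ‖a‖ + δ)
      (ht.mono fun s hs => ⟨(hP.pole _).1 hs.1.1, by
        linarith [hs.1.2.1, norm_le_insert' (g (-s)) a]⟩)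
    have h3 := (hP.pole _).2 h2
    have key : ∀ (F : ℂ → ℂ) (r : ℝ), ContinuousAt F (-t) → (∃ᶠ s : ℝ in 𝓝 t, ‖F (-s)‖ ≤ r) →
        ‖F (-t)‖ ≤ r := fun F r hF hs =>
      isClosed_Iic.mem_of_frequently_of_tendsto hs
        (ContinuousAt.comp (f := fun s : ℝ => -(s : ℂ)) hF (hγ t).continuousAt).norm
    have h4 : ‖g (-t) - a‖ ≤ δ := key (fun x => g x - a) δ (h2.continuousAt.sub continuousAt_const)
      (ht.mono fun s hs => hs.1.2.1)
    refine ⟨⟨h3, h4, key (fun x => 1 + om C a g w x) _ (continuousAt_const.add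
      (hP.om_an h3 (h t h1).1 (hQ _ h4)).continuousAt) (ht.mono fun s hs => hs.1.2.2.1),
      key (fun x => (f x - g x) / (w x * C.Q a a) + 1) _ ?_ (ht.mono fun s hs => hs.1.2.2.2)⟩, h1⟩
    exact ((h3.continuousAt.sub h2.continuousAt).div
      (hP.dw.continuous.continuousAt.mul continuousAt_const)
      (mul_ne_zero (h t h1).1 hQ0)).add continuousAt_const
  · rintro t ⟨⟨c1, c2, c3, c4⟩, ht⟩
    obtain ⟨d1, d2, d3, d4⟩ := h t (Ico_subset_Icc_self ht)
    have c5 := (hP.pole _).1 c1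
    have q1 := hQ _ c2
    set x : ℂ := -t with hx
    set ω := om C a g w x with hω
    set y := (f x - g x) / (w x * C.Q a a) with hy
    have e1 : ω * (f x - g x) = g x - a := hP.om_mul ha c1 d1 q1
    have e2 : f x - g x = y * (w x * C.Q a a) := by rw [hy]; field_simp
    obtain ⟨n1, n2⟩ := norm_ge_of_add_one c4
    obtain ⟨n3, n4⟩ := norm_ge_of_add_one (y := ω) (r := 1 / 10) (by rwa [add_comm])
    have n5 : ‖f x - g x‖ ≤ 5 / 4 * (δ / 2) := by
      rw [e2, norm_mul, norm_mul]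
      exact mul_le_mul (by linarith) d2 (by positivity) (by norm_num)
    have n6 : ‖g x - a‖ < δ := by
      rw [← e1, norm_mul]
      have := mul_le_mul n4 n5 (norm_nonneg _) (by norm_num)
      linarith
    have n7 : ‖f x - a‖ ≤ δ := by
      rw [show f x - a = (1 + ω) * (f x - g x) by linear_combination -e1, norm_mul]
      have := mul_le_mul c3 n5 (norm_nonneg _) (by norm_num)
      linarith
    set γ1 := C.Q a (g x) / C.Q a a - 1 with hγ1
    set γ2 := u x / w x * (C.Q a (f x) / C.Q a a) with hγ2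
    have n8 : ‖γ1‖ ≤ 1 / 20 := hδ _ c2
    have n9 : ‖γ2‖ ≤ 1 / 20 := by
      have := hδ _ n7
      have h5 := norm_le_insert' (C.Q a (f x) / C.Q a a) 1
      rw [norm_one] at h5
      rw [hγ2, norm_mul]
      have := mul_le_mul d3 (show ‖C.Q a (f x) / C.Q a a‖ ≤ 21 / 20 by linarith) (norm_nonneg _)
        (by norm_num)
      linarith
    have y0 : y ≠ 0 := norm_pos_iff.1 (by linarith)
    have e3 : deriv (om C a g w) x = ω * (1 + ω) * (1 + γ1 - γ2) / y := by
      have := hP.om_ode ha c1 d1 q1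
      rw [e2] at this
      rw [hγ1, hγ2]
      field_simp
      linear_combination this
    have i1 := inward (φ := fun s : ℝ => 1 + om C a g w (-s)) (x := t) (r := 1 / 10)
      (((hP.om_an c1 d1 q1).differentiableAt.hasDerivAt.scomp t (hγ t)).const_add 1) c3 (by
        have e4 : (-1 : ℂ) • deriv (om C a g w) x + (1 + ω) =
            (1 + ω) * ((y + 1) - (1 + ω) - ω * (γ1 - γ2)) / y := by
          rw [e3, smul_eq_mul]; field_simp; ring
        have n10 : ‖(y + 1) - (1 + ω) - ω * (γ1 - γ2)‖ ≤ 1 / 2 := by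
          have h5 := norm_sub_le (y + 1) (1 + ω)
          have h6 := norm_sub_le (y + 1 - (1 + ω)) (ω * (γ1 - γ2))
          have h7 := mul_le_mul n4 ((norm_sub_le γ1 γ2).trans (add_le_add n8 n9)) (norm_nonneg _)
            (by norm_num)
          rw [norm_mul] at h6
          linarith
        refine (congrArg norm e4).trans_lt ?_
        rw [norm_div, norm_mul, div_lt_iff₀ (by linarith)]
        have := mul_le_mul c3 n10 (norm_nonneg _) (by norm_num)
        linarith)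
    have dY := ((c1.differentiableAt.hasDerivAt.sub c5.differentiableAt.hasDerivAt).div
      ((hP.dw x).hasDerivAt.mul_const (C.Q a a)) (mul_ne_zero d1 hQ0)).add_const 1
    have i2 := inward (φ := fun s : ℝ => (f (-s) - g (-s)) / (w (-s) * C.Q a a) + 1) (x := t)
      (r := 1 / 4) (dY.scomp t (hγ t)) c4 (by
        have e4 : (-1 : ℂ) • (((deriv f x - deriv g x) * (w x * C.Q a a) -
            (f - g) x * (deriv w x * C.Q a a)) / (w x * C.Q a a) ^ 2) + (y + 1) =
            (1 + ω) * (1 - γ2) + ω * γ1 + (deriv w x / w x + 1) * y := by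
          rw [smul_eq_mul, Pi.sub_apply, e2, hP.deriv_f ha c1 d1 q1, Pair.deriv_g d1 q1, hγ1, hγ2]
          field_simp
          ring
        refine (congrArg norm e4).trans_lt (norm_add₃_le.trans_lt ?_)
        rw [norm_mul, norm_mul, norm_mul]
        have h5 := mul_le_mul c3 ((norm_sub_le 1 γ2).trans (add_le_add norm_one.le n9))
          (norm_nonneg _) (by norm_num)
        have h6 := mul_le_mul n4 n8 (norm_nonneg _) (by norm_num)
        have h7 := mul_le_mul d4 n2 (norm_nonneg _) (by norm_num)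
        linarith)
    have i3 : ∀ᶠ s : ℝ in 𝓝 t, AnalyticAt ℂ f (-s) :=
      (hγ t).continuousAt.eventually c1.eventually_analyticAt
    have i4 : ∀ᶠ s : ℝ in 𝓝 t, ‖g (-s) - a‖ < δ :=
      (ContinuousAt.comp (f := fun s : ℝ => -(s : ℂ)) (c5.continuousAt.sub continuousAt_const)
        (hγ t).continuousAt).norm.eventually_lt continuousAt_const n6
    obtain ⟨s, s1, s2, s3, s4, s5⟩ := (i1.and (i2.and
      ((eventually_nhdsWithin_of_eventually_nhds i3).and
      ((eventually_nhdsWithin_of_eventually_nhds i4).and (Ioc_mem_nhdsGT ht.2))))).exists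
    exact ⟨s, ⟨s3, s4.le, s1, s2⟩, s5⟩

end Pool.Agent.Lib.MP_bb1814_an
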