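import Mathlib
import Pool.Agent.Lib.MP_bb1814_an.LocB
import Pool.Agent.Lib.MP_bb1814_an.K0

/-!
The degenerate case of the local analysis.
-/

namespace Pool.Agent.Lib.MP_bb1814_an

open Filter Topology Set Metric Complex

variable {ι : Type*} {l : Filter ι} {C : Cub} {f g u w : ι → ℂ → ℂ}

lemma limit_H [l.NeBot] (h : Fam l C f g u w) {F G H : ℂ → ℂ} (hf : Cv l f (sph F))
    (hg : Cv l g (sph G)) (rF : Reg F) (rG : Reg G) (nG : NC G)
    (hw : ∀ z, Tendsto (fun p : ι × ℂ => w p.1 p.2) (l ×ˢ 𝓝 z) (𝓝 0))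
    (hH : ∀ z, Tendsto (fun p : ι × ℂ => u p.1 p.2 / w p.1 p.2) (l ×ˢ 𝓝 z) (𝓝 (H z)))
    {z : ℂ} (aF : AnalyticAt ℂ F z) (aG : AnalyticAt ℂ G z) (cH : ContinuousAt H z) :
    H z = 1 := by
  have hFG : ∀ᶠ x in 𝓝[≠] z, F x = G x := by
    filter_upwards [rF.eventually_an z, rG.eventually_an z, nG.deriv_ne aG] with x b1 b2 b3
    have := limit_odeg h.pair hf hg b1 b2 (hw x)
    rw [zero_mul] at this
    exact sub_eq_zero.1 ((mul_eq_zero.1 this).resolve_left b3)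
  have hFG' : ∀ᶠ x in 𝓝 z, F x = G x := (aF.frequently_eq_iff_eventually_eq aG).1 hFG.frequently
  refine eq_of_nhdsNE (G := fun _ => 1) cH continuousAt_const ?_
  filter_upwards [rF.eventually_an z, rG.eventually_an z, nG.deriv_ne aG, nG.P_ne rG C z,
    eventually_nhdsWithin_of_eventually_nhds hFG'.eventually_nhds] with x b1 b2 b3 b4 b5
  have e1 := hf.loc h.rf b1
  have e2 := hg.loc h.rg b2
  have e3 := tendsto_nhds_unique_of_eventuallyEq
    ((hH x).mul (e2.deriv.lc.mul (e1.lc.comp C.differentiable_P)).lim)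
    (e1.deriv.lc.mul (e2.lc.comp C.differentiable_P)).lim (by
      filter_upwards [e1.lc.an, h.nz x] with p hp hp'
      have d1 := (h.pair p.1).odef _ hp
      have d2 := (h.pair p.1).odeg _ hp
      have d3 := hp'.2
      field_simp
      linear_combination deriv (f p.1) p.2 * d2 - deriv (g p.1) p.2 * d1)
  have e4 : deriv F x = deriv G x := EventuallyEq.deriv_eq b5
  rw [e4, b5.self_of_nhds] at e3
  exact mul_right_cancel₀ (mul_ne_zero b3 b4) (by rw [e3, one_mul])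

lemma exists_hit {w : ℂ → ℂ} (hw : Continuous w) {ε R L T δ : ℝ} (hR : Rep w (-1) ε R)
    (hε : ε ≤ 1 / 3) (hL : 0 ≤ L) (hLT : L ≤ T) (hT : T < R) (h1 : ‖w (-L)‖ ≤ δ)
    (h2 : δ ≤ ‖w 0‖ * Real.exp (2 / 3 * T)) :
    ∃ t ∈ Icc L T, ‖w (-t)‖ = δ ∧ ∀ s ∈ Icc L t, ‖w (-s)‖ ≤ δ := by
  have hb : ∀ s : ℝ, 0 ≤ s → s ≤ T → -(s : ℂ) ∈ ball (0 : ℂ) R := fun s h3 h4 => by
    rw [mem_ball_zero_iff, norm_neg, norm_real, Real.norm_of_nonneg h3]; linarith
  have key : ∀ s t : ℝ, 0 ≤ s → s ≤ t → t ≤ T →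
      ‖w (-s)‖ * Real.exp (2 / 3 * (t - s)) ≤ ‖w (-t)‖ := fun s t h3 h4 h5 => by
    refine le_trans ?_ (hR.norm_le (hb s h3 (h4.trans h5)) (hb t (h3.trans h4) h5)).2
    have e1 : -(t : ℂ) - -(s : ℂ) = -((t - s : ℝ) : ℂ) := by push_cast; ring
    rw [e1, norm_neg, norm_real, Real.norm_of_nonneg (sub_nonneg.2 h4), neg_mul_neg, one_mul,
      ofReal_re]
    gcongr
    nlinarith
  have h3 : δ ≤ ‖w (-T)‖ := by
    have := key 0 T le_rfl (hL.trans hLT) le_rfl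
    simp only [ofReal_zero, neg_zero, sub_zero] at this
    exact h2.trans this
  obtain ⟨t, ht, ht'⟩ := intermediate_value_Icc hLT (f := fun s : ℝ => ‖w (-s)‖)
    (by fun_prop) ⟨h1, h3⟩
  refine ⟨t, ht, ht', fun s hs => ?_⟩
  have h4 := key s t (hL.trans hs.1) hs.2 ht.2
  have h5 : 1 ≤ Real.exp (2 / 3 * (t - s)) := Real.one_le_exp (by linarith [hs.2])
  have h6 : ‖w (-t)‖ = δ := ht'
  nlinarith [norm_nonneg (w (-s))]

/-- The quotient `(g - a) / (f - g)` converges. -/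
lemma om_normal (𝒰 : Ultrafilter ι) (h : Fam (𝒰 : Filter ι) C f g u w) (hT : Tame (𝒰 : Filter ι) u w)
    {a : ℂ} (ha : C.P a = 0) (hg : ∀ z, LC (𝒰 : Filter ι) g z a)
    (h0 : ∀ n, om C a (g n) (w n) 0 = -1) :
    ∃ Ω, Differentiable ℂ Ω ∧ ∀ z, LC (𝒰 : Filter ι) (fun n => om C a (g n) (w n)) z (Ω z) := by
  have hev : ∀ z, ∀ᶠ p in (𝒰 : Filter ι) ×ˢ 𝓝 z, AnalyticAt ℂ (f p.1) p.2 ∧ u p.1 p.2 ≠ 0 ∧
      w p.1 p.2 ≠ 0 ∧ C.Q a (g p.1 p.2) ≠ 0 := fun z => by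
    filter_upwards [(hg z).an, h.nz z, ((hg z).comp (C.differentiable_Q a)).ne (C.Q_ne ha)]
      with p h1 h2 h3
    exact ⟨((h.pair p.1).pole _).2 h1, h2.1, h2.2, h3⟩
  refine (zalcman_an 𝒰 (fun n => (h.pair n).om_mero a) (fun z => (hev z).mono fun p hp =>
    (h.pair p.1).om_an hp.1 hp.2.2.1 hp.2.2.2) (M := 1)
    (Eventually.of_forall fun n => by simp [h0 n])).resolve_right ?_
  rintro ⟨c, ρ, c0, Ω, k1, k2, k3, k4, k5, k6⟩
  obtain ⟨h0', hF⟩ := hT.rescale k1 k2 k3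
  obtain ⟨δ, hδ, hδ'⟩ := disc_int hF.ne
  have hex : ∀ z0, ∃ z, z ≠ z0 ∧ (Ω z = 0 ∨ Ω z = -1) := fun z0 => by
    by_contra hcon
    push Not at hcon
    exact k5.not_const (picard2' k4 (a := 0) (b := -1) (by norm_num) z0 hcon)
  obtain ⟨z1, -, r1⟩ := hex 0
  obtain ⟨z2, hz, r2⟩ := hex z1
  obtain ⟨R, hR⟩ := two_points (l := (𝒰 : Filter ι)) hz (Eventually.of_forall k6)
    (Eventually.of_forall k6) (k5.not_eventually _ _) (k5.not_eventually _ _)
    (Q := fun n x => (AnalyticAt ℂ (f n) (c n + ρ n * x) ∧ u n (c n + ρ n * x) ≠ 0 ∧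
      w n (c n + ρ n * x) ≠ 0 ∧ C.Q a (g n (c n + ρ n * x)) ≠ 0) ∧
      ‖ρ n * u n (c n + ρ n * x) / (ρ n * w n (c n + ρ n * x)) - h0'‖ < δ) fun z => by
      have := ((hF.tH z).sub_const h0').norm
      rw [sub_self, norm_zero] at this
      exact ((tendsto_rescale k1 k3 z).eventually (hev c0)).and
        (this.eventually (gt_mem_nhds hδ))
  obtain ⟨n, ⟨x1, m1, x2, m2, hx, v1, v2, ⟨⟨q1, q2⟩, -⟩, ⟨q3, q4⟩, -⟩, hinj⟩ :=
    (hR.and (hF.inj R)).exists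
  refine hx (hinj m1 m2 (hδ' _ _ ?_ ?_ q2 q4))
  · simp only [mul_div_mul_left _ _ (k2 n)]
    exact (h.pair n).om_root ha q1.1 q1.2.1 q1.2.2.1 q1.2.2.2 (by rw [v1]; exact r2)
  · simp only [mul_div_mul_left _ _ (k2 n)]
    exact (h.pair n).om_root ha q3.1 q3.2.1 q3.2.2.1 q3.2.2.2 (by rw [v2]; exact r1)

/-- The limit of the normalised quantities in the degenerate case. -/
lemma om_limit (𝒰 : Ultrafilter ι) (h : Fam (𝒰 : Filter ι) C f g u w) (hT : Tame (𝒰 : Filter ι) u w)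
    {a p : ℂ} (ha : C.P a = 0) (hp : p ≠ 0) (hf : ∀ z, LC (𝒰 : Filter ι) f z a)
    (hg : ∀ z, LC (𝒰 : Filter ι) g z a) (h0 : ∀ n, om C a (g n) (w n) 0 = -1)
    (h1 : ∀ n, f n 0 = g n 0 ∧ w n 0 ≠ 0)
    (hu : ∀ z, LC (𝒰 : Filter ι) (fun n x => u n x / w n 0) z (p * exp z))
    (hw : ∀ z, LC (𝒰 : Filter ι) (fun n x => w n x / w n 0) z (exp (-z))) (z : ℂ) :
    LC (𝒰 : Filter ι) (fun n => om C a (g n) (w n)) z (-1) ∧
      LC (𝒰 : Filter ι) (fun n x => (f n x - g n x) / (w n x * C.Q a a)) z (exp z - 1) := by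
  obtain ⟨Ω, dΩ, hΩ⟩ := om_normal 𝒰 h hT ha hg h0
  have hQ0 := C.Q_ne ha
  have lQf := fun z => (hf z).comp (C.differentiable_Q a)
  have lQg := fun z => (hg z).comp (C.differentiable_Q a)
  have hev : ∀ z, ∀ᶠ p in (𝒰 : Filter ι) ×ˢ 𝓝 z, AnalyticAt ℂ (f p.1) p.2 ∧
      w p.1 p.2 ≠ 0 ∧ C.Q a (g p.1 p.2) ≠ 0 := fun z =>
    (hf z).an.and (((h.nz z).mono fun p hp => hp.2).and ((lQg z).ne hQ0))
  set Ψ : ℂ → ℂ := fun z => p * exp z * (1 + Ω z) * C.Q a a - exp (-z) * Ω z * C.Q a a with hΨ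
  have dΨ : Differentiable ℂ Ψ := by simp only [hΨ]; fun_prop
  obtain ⟨D0, hD0⟩ := dΨ.isExactOn_univ
  set D : ℂ → ℂ := fun z => D0 z - D0 0 with hD
  have hD' : ∀ z, HasDerivAt D (Ψ z) z := fun z => (hD0 z (mem_univ z)).sub_const _
  have lD : ∀ z, LC (𝒰 : Filter ι) (fun n x => (f n x - g n x) / w n 0) z (D z) := by
    refine lc_primitive hD' dΨ.continuous (fun z => ((hf z).sub (hg z)).an.mono fun p hp =>
      hp.div_const) (fun z => ?_) (by simp [hD, (h1 _).1])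
    refine ((((hu z).mul ((LC.const 1 z).add (hΩ z))).mul (lQf z)).sub
      (((hw z).mul (hΩ z)).mul (lQg z))).lim.congr' ((hev z).mono fun p hp => ?_)
    have e1 := ((hp.1.differentiableAt.hasDerivAt.sub (((h.pair p.1).pole _).1
      hp.1).differentiableAt.hasDerivAt).div_const (w p.1 0)).deriv
    refine Eq.trans ?_ e1.symm
    rw [(h.pair p.1).deriv_f ha hp.1 hp.2.1 hp.2.2, Pair.deriv_g hp.2.1 hp.2.2]
    ring
  have hode : ∀ z, deriv Ω z * D z =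
      Ω z * (1 + Ω z) * (exp (-z) * C.Q a a - p * exp z * C.Q a a) := fun z => by
    refine ((Loc.deriv (Eventually.of_forall hΩ)).lc.mul (lD z)).unique
      (((hΩ z).mul ((LC.const 1 z).add (hΩ z))).mul (((hw z).mul (lQg z)).sub
        ((hu z).mul (lQf z)))) ((hev z).mono fun p hp => ?_).frequently
    have e1 := (h.pair p.1).om_ode ha hp.1 hp.2.1 hp.2.2
    have e2 := (h1 p.1).2
    field_simp
    linear_combination e1
  have hY : ∀ z, HasDerivAt (fun z => D z * exp z / C.Q a a)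
      ((Ψ z * exp z + D z * exp z) / C.Q a a) z := fun z =>
    ((hD' z).mul (hasDerivAt_exp z)).div_const _
  have e2 : ∀ z : ℂ, exp (2 * z) = exp z ^ 2 := fun z => by rw [← exp_nat_mul]; norm_num
  obtain ⟨c, hc⟩ := k0_const p hp (fun z => D z * exp z / C.Q a a) Ω
    (fun z => (hY z).differentiableAt) dΩ (fun z => by
      rw [(hY z).deriv, e2, hΨ]
      simp only [exp_neg]
      have := exp_ne_zero z
      field_simp
      ring) (fun z => by
      have e3 := hode z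
      rw [exp_neg] at e3
      rw [e2]
      have := exp_ne_zero z
      field_simp at e3 ⊢
      linear_combination e3)
  have hc' : c = -1 := by
    rw [← hc 0]
    exact tendsto_nhds_unique (hΩ 0).at_pt (by simp only [h0]; exact tendsto_const_nhds)
  subst hc'
  have e4 : ∀ z, HasDerivAt (fun z => D z + C.Q a a * exp (-z)) 0 z := fun z => by
    refine HasDerivAt.congr_deriv ((hD' z).add (((hasDerivAt_neg z).cexp).const_mul _)) ?_
    simp only [hΨ, hc]; ring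
  have e5 := is_const_of_deriv_eq_zero (fun z => (e4 z).differentiableAt)
    (fun z => (e4 z).deriv) z 0
  refine ⟨hc z ▸ hΩ z, ?_⟩
  have e6 := (lD z).div ((hw z).mul (LC.const (C.Q a a) z)) (mul_ne_zero (exp_ne_zero _) hQ0)
  have e7 : D z / (exp (-z) * C.Q a a) = exp z - 1 := by
    simp only [hD, sub_self, neg_zero, exp_zero, mul_one, zero_add] at e5 ⊢
    rw [eq_sub_of_add_eq e5, exp_neg]
    have := exp_ne_zero z
    field_simp
  rw [e7] at e6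
  refine e6.congr ((hev z).mono fun p hp => ?_)
  have := (h1 p.1).2
  field_simp

theorem mu_zero (𝒰 : Ultrafilter ι) (h : Fam (𝒰 : Filter ι) C f g u w)
    (hT : Tame (𝒰 : Filter ι) u w) {a : ℂ} {p : ℕ} (ha : C.P a = 0) (hp : 2 ≤ p)
    (hf : ∀ z, LC (𝒰 : Filter ι) f z a) (hg : ∀ z, LC (𝒰 : Filter ι) g z a)
    (h0 : ∀ n, AnalyticAt ℂ (f n) 0 ∧ f n 0 = a ∧ u n 0 = p * w n 0 ∧ w n 0 ≠ 0) {ε R : ι → ℝ}
    (hb : ∀ᶠ n in (𝒰 : Filter ι), ∀ z ∈ ball (0 : ℂ) (R n), u n z ≠ 0 ∧ w n z ≠ 0 ∧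
      ‖deriv (u n) z / u n z - 1‖ ≤ ε n ∧ ‖deriv (w n) z / w n z + 1‖ ≤ ε n)
    (hε : Tendsto ε 𝒰 (𝓝 0)) (hK : Tendsto (fun n => w n 0) 𝒰 (𝓝 0))
    (hR : Tendsto (fun n => R n + 2 * Real.log ‖w n 0‖) 𝒰 atTop) : False := by
  have hQ0 := C.Q_ne ha
  have hp0 : (p : ℂ) ≠ 0 := by exact_mod_cast (by omega : p ≠ 0)
  have hp1 : (2 : ℝ) ≤ p := by exact_mod_cast hp
  have hfg : ∀ n, f n 0 = g n 0 := fun n =>
    (h.pair n).share 0 (h0 n).1 (Or.inl (by rw [(h0 n).2.1, ha]))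
  have hK' : Tendsto (fun n => Real.log ‖w n 0‖) 𝒰 atBot := by
    refine Real.tendsto_log_nhdsGT_zero.comp (tendsto_nhdsWithin_iff.2 ⟨?_,
      Eventually.of_forall fun n => norm_pos_iff.2 (h0 n).2.2.2⟩)
    simpa using hK.norm
  have hR' : Tendsto R 𝒰 atTop := by
    refine tendsto_atTop_mono' _ ?_ hR
    filter_upwards [hK'.eventually_le_atBot 0] with n hn
    linarith
  have ru : ∀ᶠ n in (𝒰 : Filter ι), Rep (u n) 1 (ε n) (R n) := hb.mono fun n hn =>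
    rep_of_logDeriv (h.pair n).du fun z hz => ⟨(hn z hz).1, (hn z hz).2.2.1⟩
  have rw' : ∀ᶠ n in (𝒰 : Filter ι), Rep (w n) (-1) (ε n) (R n) := hb.mono fun n hn =>
    rep_of_logDeriv (h.pair n).dw fun z hz => ⟨(hn z hz).2.1, by
      rw [sub_neg_eq_add]; exact (hn z hz).2.2.2⟩
  have lw : ∀ z, LC (𝒰 : Filter ι) (fun n x => w n x / w n 0) z (exp (-z)) := fun z =>
    ⟨Eventually.of_forall fun q => ((h.pair q.1).dw.analyticAt _).div_const, by
      simpa using rep_tendsto (rw'.mono fun n hn => ⟨hn, (h0 n).2.2.2⟩) tendsto_const_nhds hε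
        hR' z⟩
  have lu : ∀ z, LC (𝒰 : Filter ι) (fun n x => u n x / w n 0) z (p * exp z) := fun z =>
    ⟨Eventually.of_forall fun q => ((h.pair q.1).du.analyticAt _).div_const, by
      have := (rep_tendsto (ru.mono fun n hn => ⟨hn, by
        rw [(h0 n).2.2.1]; exact mul_ne_zero hp0 (h0 n).2.2.2⟩) tendsto_const_nhds hε
        hR' z).const_mul (p : ℂ)
      rw [one_mul] at this
      refine this.congr fun q => ?_
      rw [(h0 q.1).2.2.1]
      field_simp⟩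
  have hom : ∀ n, om C a (g n) (w n) 0 = -1 := fun n => by
    have e1 := ((h.pair n).root_deriv (h0 n).1 (by rw [(h0 n).2.1, ha]) (h0 n).2.2.2 hp
      (h0 n).2.2.1).2
    have e2 := (h0 n).2.2.2
    rw [om, e1, ← hfg, (h0 n).2.1, ← C.Q_self]
    field_simp
  have hlim := om_limit 𝒰 h hT ha hp0 hf hg hom (fun n => ⟨hfg n, (h0 n).2.2.2⟩) lu lw
  obtain ⟨δ, hδ0, hδ⟩ : ∃ δ > 0, ∀ t, ‖t - a‖ ≤ δ → ‖C.Q a t / C.Q a a - 1‖ ≤ 1 / 20 := by
    have e1 : ContinuousAt (fun t => ‖C.Q a t / C.Q a a - 1‖) a :=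
      (((C.differentiable_Q a).continuous.div_const _).sub continuous_const).norm.continuousAt
    have e2 := e1.eventually (ge_mem_nhds (show ‖C.Q a a / C.Q a a - 1‖ < 1 / 20 by
      rw [div_self hQ0]; norm_num))
    obtain ⟨δ, e3, e4⟩ := nhds_basis_closedBall.eventually_iff.1 e2
    exact ⟨δ, e3, fun t ht => e4 (mem_closedBall_iff_norm.2 ht)⟩
  set L := Real.log (25 * p) with hL
  have hL0 : 0 ≤ L := Real.log_nonneg (by linarith)
  have hL1 : p * Real.exp (-L) = 1 / 25 := by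
    rw [Real.exp_neg, hL, Real.exp_log (by linarith)]; field_simp
  have hcond : ∀ᶠ n in (𝒰 : Filter ι), Cond C a δ (f n) (g n) (w n) (-L) := by
    have e1 := ((hg (-L)).at_pt.sub_const a).norm
    have e2 := ((hlim (-L)).1.at_pt.const_add 1).norm
    have e3 := ((hlim (-L)).2.at_pt.add_const 1).norm
    rw [sub_self, norm_zero] at e1
    rw [add_neg_cancel, norm_zero] at e2
    rw [sub_add_cancel, norm_exp, neg_re, ofReal_re] at e3
    filter_upwards [(tendsto_at_pt _).eventually (hf (-L)).an, e1.eventually (ge_mem_nhds hδ0),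
      e2.eventually (ge_mem_nhds (show (0 : ℝ) < 1 / 10 by norm_num)),
      e3.eventually (ge_mem_nhds (show Real.exp (-L) < 1 / 4 by
        nlinarith [Real.exp_pos (-L)]))] with n a1 a2 a3 a4
    exact ⟨a1, a2, a3, a4⟩
  have hQn : 0 < ‖C.Q a a‖ := norm_pos_iff.2 hQ0
  set δ0 := δ / 2 / ‖C.Q a a‖ with hδ0'
  have hδ1 : 0 < δ0 := by positivity
  have hHb : ∀ᶠ n in (𝒰 : Filter ι), ∀ y ∈ ball (0 : ℂ) (R n),
      ‖u n y / w n y‖ ≤ p * Real.exp (2 * y.re + ‖y‖) := by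
    filter_upwards [ru, rw', hε.eventually (ge_mem_nhds (show (0 : ℝ) < 1 / 2 by norm_num))]
      with n a1 a2 a3 y hy
    have e1 := ((a1.div a2).norm_le (mem_ball_self (pos_of_mem_ball hy)) hy).1
    rw [(h0 n).2.2.1, mul_div_cancel_right₀ _ (h0 n).2.2.2, norm_natCast, sub_zero] at e1
    refine e1.trans ?_
    gcongr
    · simp; linarith
    · nlinarith [norm_nonneg y]
  have hT1 : Tendsto (fun n => R n - 3 / 2 * (Real.log δ0 - Real.log ‖w n 0‖)) 𝒰 atTop := by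
    refine tendsto_atTop_mono' _ ?_ (tendsto_atTop_add_const_right _ (-(3 / 2 * Real.log δ0)) hR)
    filter_upwards [hK'.eventually_le_atBot 0] with n hn
    linarith
  have hT2 : Tendsto (fun n => Real.log δ0 - Real.log ‖w n 0‖) 𝒰 atTop :=
    tendsto_atTop_add_const_left _ _ (tendsto_neg_atBot_atTop.comp hK')
  have hex : ∀ᶠ n in (𝒰 : Filter ι), ∃ t : ℝ, t ≤ 3 / 2 * (Real.log δ0 - Real.log ‖w n 0‖) ∧
      (Real.log δ0 - Real.log ‖w n 0‖) / 2 ≤ t ∧ ‖w n (-t)‖ = δ0 ∧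
      Cond C a δ (f n) (g n) (w n) (-t) := by
    have e1 := ((lw (-L)).at_pt.mul hK).norm
    rw [mul_zero, norm_zero] at e1
    filter_upwards [hb, rw', hHb, hcond, hT1.eventually_gt_atTop 0, hT2.eventually_ge_atTop L,
      hε.eventually (ge_mem_nhds (show (0 : ℝ) < 1 / 100 by norm_num)),
      e1.eventually (ge_mem_nhds hδ1)] with n a1 a2 a3 a4 a5 a6 a7 a8
    have a9 := (h0 n).2.2.2
    have a10 : 0 < ‖w n 0‖ := norm_pos_iff.2 a9
    rw [div_mul_cancel₀ _ a9] at a8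
    obtain ⟨t, b1, b2, b3⟩ := exists_hit (h.pair n).dw.continuous a2 (by linarith) hL0
      (show L ≤ 3 / 2 * (Real.log δ0 - Real.log ‖w n 0‖) by linarith) (by linarith) a8 (by
        rw [show 2 / 3 * (3 / 2 * (Real.log δ0 - Real.log ‖w n 0‖)) =
          Real.log δ0 - Real.log ‖w n 0‖ by ring, Real.exp_sub, Real.exp_log hδ1,
          Real.exp_log a10]
        field_simp; rfl)
    have hball : ∀ s ∈ Icc L t, -(s : ℂ) ∈ ball (0 : ℂ) (R n) ∧ ‖-(s : ℂ)‖ = s := fun s hs => by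
      have : ‖-(s : ℂ)‖ = s := by rw [norm_neg, norm_real, Real.norm_of_nonneg (hL0.trans hs.1)]
      refine ⟨?_, this⟩
      rw [mem_ball_zero_iff, this]
      linarith [hs.2, b1.2]
    refine ⟨t, b1.2, ?_, b2, bootstrap (h.pair n) ha hδ0 hδ b1.1 (fun s hs => ?_) a4⟩
    · obtain ⟨c1, c2⟩ := hball t ⟨b1.1, le_rfl⟩
      have c3 := (a2.norm_le (mem_ball_self (pos_of_mem_ball c1)) c1).1
      rw [b2, sub_zero, c2, neg_mul_neg, one_mul, ofReal_re] at c3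
      have c4 := Real.log_le_log hδ1 c3
      rw [Real.log_mul a10.ne' (Real.exp_pos _).ne', Real.log_exp] at c4
      nlinarith [b1.1]
    · obtain ⟨c1, c2⟩ := hball s hs
      refine ⟨(a1 _ c1).2.1, ?_, (a3 _ c1).trans ?_, (a1 _ c1).2.2.2.trans a7⟩
      · rw [← le_div_iff₀ hQn]; exact b3 s hs
      · rw [← hL1, c2, neg_re, ofReal_re]
        gcongr
        linarith [hs.1]
  obtain ⟨t, ht⟩ := hex.choice
  have ht1 : Tendsto t 𝒰 atTop :=
    tendsto_atTop_mono' _ (ht.mono fun n hn => hn.2.1) (hT2.atTop_div_const two_pos)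
  have ht2 : Tendsto (fun n => R n - t n) 𝒰 atTop :=
    tendsto_atTop_mono' _ (ht.mono fun n hn => by linarith [hn.1]) hT1
  have hmem : ∀ z, ∀ᶠ q in (𝒰 : Filter ι) ×ˢ 𝓝 z, -(t q.1 : ℂ) + q.2 ∈ ball (0 : ℂ) (R q.1) ∧
      ‖-(t q.1 : ℂ) + q.2‖ ≤ t q.1 + ‖q.2‖ := fun z => by
    filter_upwards [eventually_mem_ball ht2 z, (ht1.eventually_ge_atTop 0).prod_inl (𝓝 z)]
      with q a1 a2
    have a3 : ‖-(t q.1 : ℂ) + q.2‖ ≤ t q.1 + ‖q.2‖ := (norm_add_le _ _).trans (by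
      rw [norm_neg, norm_real, Real.norm_of_nonneg a2])
    rw [mem_ball_zero_iff] at a1 ⊢
    exact ⟨by linarith, a3⟩
  have hF : Fam (𝒰 : Filter ι) C (fun n x => f n (-t n + x)) (fun n x => g n (-t n + x))
      (fun n x => u n (-t n + x)) (fun n x => w n (-t n + x)) :=
    ⟨fun n => (h.pair n).trans _, fun z => ((hmem z).and (hb.prod_inl (𝓝 z))).mono fun q hq =>
      ⟨(hq.2 _ hq.1.1).1, (hq.2 _ hq.1.1).2.1⟩⟩
  rcases hF.const_of_zero 𝒰 (fun z => by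
    have e1 : Tendsto (fun q : ι × ℂ => (p : ℝ) * Real.exp (-t q.1 + 3 * ‖q.2‖)) (𝒰 ×ˢ 𝓝 z)
        (𝓝 0) := by
      have := (Real.tendsto_exp_atBot.comp
        ((tendsto_neg_atTop_atBot.comp (ht1.comp tendsto_fst)).atBot_add
        ((tendsto_snd (f := (𝒰 : Filter ι)) (g := 𝓝 z)).norm.const_mul 3))).const_mul (p : ℝ)
      simpa using this
    refine squeeze_zero_norm' ?_ e1
    filter_upwards [hmem z, hHb.prod_inl (𝓝 z)] with q a1 a2
    refine (a2 _ a1.1).trans (mul_le_mul_of_nonneg_left (Real.exp_le_exp.2 ?_) (by positivity))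
    simp only [add_re, neg_re, ofReal_re]
    linarith [a1.2, re_le_norm q.2]) with h2 | ⟨c, hc⟩
  · refine h2.ne_inf_of_bdd (z := 0) (M := ‖a‖ + δ) (ht.mono fun n hn => ?_) rfl
    rw [analyticAt_trans_iff, add_zero]
    exact ⟨((h.pair n).pole _).1 hn.2.2.2.1, by
      linarith [hn.2.2.2.2.1, norm_le_insert' (g n (-t n)) a]⟩
  · have e1 := (Loc.deriv_const (z := 0) (Eventually.of_forall hc)).at_pt.norm
    rw [norm_zero] at e1
    obtain ⟨n, ⟨-, -, a1, a2, a3, a4, -⟩, a5⟩ := (ht.and (e1.eventually (gt_mem_nhds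
      (show 0 < δ0 * (1 / 2) * (1 / 2 * ‖C.Q a a‖) by positivity)))).exists
    have a6 := hδ _ a3
    have a7 : 1 / 2 * ‖C.Q a a‖ ≤ ‖C.Q a (g n (-t n))‖ := by
      have := norm_le_insert (C.Q a (g n (-t n)) / C.Q a a) 1
      rw [norm_one, norm_div] at this
      rw [← le_div_iff₀ hQn]; linarith
    have a8 := (norm_ge_of_add_one (y := om C a (g n) (w n) (-t n)) (r := 1 / 10)
      (by rwa [add_comm])).1
    rw [deriv_comp_const_add, add_zero, Pair.deriv_g (C := C) (a := a) (w := w n)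
      (norm_pos_iff.1 (by rw [a1]; exact hδ1)) (norm_pos_iff.1 (by linarith)), norm_mul, norm_mul,
      a1] at a5
    refine absurd a5 (not_lt.2 ?_)
    gcongr
    linarith

end Pool.Agent.Lib.MP_bb1814_an
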