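import Mathlib

/-!
The algebraic identities used in the analysis of the model equation.
-/

namespace Pool.Agent.Lib.MP_bb1814_an

/-- A polynomial function of degree at most ten. -/
def pl (c0 c1 c2 c3 c4 c5 c6 c7 c8 c9 c10 t : ℂ) : ℂ :=
  c0 + c1 * t + c2 * t ^ 2 + c3 * t ^ 3 + c4 * t ^ 4 + c5 * t ^ 5 + c6 * t ^ 6 + c7 * t ^ 7 +
    c8 * t ^ 8 + c9 * t ^ 9 + c10 * t ^ 10

lemma hasDerivAt_pl (c0 c1 c2 c3 c4 c5 c6 c7 c8 c9 c10 t : ℂ) :
    HasDerivAt (pl c0 c1 c2 c3 c4 c5 c6 c7 c8 c9 c10)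
      (pl c1 (2 * c2) (3 * c3) (4 * c4) (5 * c5) (6 * c6) (7 * c7) (8 * c8) (9 * c9) (10 * c10) 0 t)
      t := by
  have h := fun (c : ℂ) (n : ℕ) => (hasDerivAt_pow n t).const_mul c
  have h1 := (((((((((((hasDerivAt_const t c0).add ((hasDerivAt_id t).const_mul c1)).add
    (h c2 2)).add (h c3 3)).add (h c4 4)).add (h c5 5)).add (h c6 6)).add (h c7 7)).add
    (h c8 8)).add (h c9 9)).add (h c10 10))
  refine HasDerivAt.congr_deriv h1 ?_
  simp only [pl]
  push_cast
  ring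

/-- Coefficients of an expansion `p(S) + v (q(S) + r(S) Γ)`. -/
structure Tri where
  p : ℂ → ℂ
  q : ℂ → ℂ
  r : ℂ → ℂ

/-- `T'` is the expansion of the derivative of a function with expansion `T`. -/
def Tri.Step (al be : ℂ) (T T' : Tri) : Prop :=
  ∃ p' q' r' : ℂ → ℂ, (∀ t, HasDerivAt T.p (p' t) t) ∧ (∀ t, HasDerivAt T.q (q' t) t) ∧
    (∀ t, HasDerivAt T.r (r' t) t) ∧ ∀ t,
      T'.p t = -((t ^ 3 + al * t + be) * p' t) ∧
      T'.q t = T.q t - (t ^ 3 + al * t + be) * q' t - t * T.r t +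
        t * (t ^ 3 + al * t + be) * p' t ∧
      T'.r t = -T.r t - (t ^ 3 + al * t + be) * r' t - (t ^ 3 + al * t + be) * p' t

/-- The action of the derivative on the leading terms on the right. -/
def RStep (al be : ℂ) (φ φ' : ℂ → ℂ) : Prop :=
  ∃ d : ℂ → ℂ, (∀ t, HasDerivAt φ (d t) t) ∧ ∀ t, φ' t = φ t + (t ^ 3 + al * t + be) * d t

/-- Left expansion. -/
noncomputable def TA0 (al be : ℂ) : Tri where
  p :=
    pl (0) (0) (1) (0) (0) (0) (0) (0) (0) (0) (0)
  q :=
    pl ((-1) * be) ((-1) * al + 1) (0) ((-1)) (0) (0) (0) (0) (0) (0) (0)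
  r :=
    pl ((4 / 3)) (0) (0) (0) (0) (0) (0) (0) (0) (0) (0)

/-- Right leading term. -/
noncomputable def RA0 (al be : ℂ) : ℂ → ℂ :=
    pl ((-1) * be) ((-1) * al + (1 / 3)) (0) ((-1)) (0) (0) (0) (0) (0) (0) (0)

/-- Left expansion. -/
noncomputable def TA1 (al be : ℂ) : Tri where
  p :=
    pl (0) ((-2) * be) ((-2) * al) (0) ((-2)) (0) (0) (0) (0) (0) (0)
  q :=
    pl (al * be + (-2) * be) (al ^ 2 + (-2) * al + (-1 / 3)) (5 * be) (6 * al + (-2)) (0) (5) (0)
    (0) (0) (0) (0)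
  r :=
    pl ((-4 / 3)) ((-2) * be) ((-2) * al) (0) ((-2)) (0) (0) (0) (0) (0) (0)

/-- Right leading term. -/
noncomputable def RA1 (al be : ℂ) : ℂ → ℂ :=
    pl ((-1) * al * be + (-2 / 3) * be) ((-1) * al ^ 2 + (-2 / 3) * al + (1 / 3)) ((-3) * be)
    ((-4) * al + (-2 / 3)) (0) ((-3)) (0) (0) (0) (0) (0)

/-- Left expansion. -/
noncomputable def TA2 (al be : ℂ) : Tri where
  p :=
    pl (2 * be ^ 2) (6 * al * be) (4 * al ^ 2) (10 * be) (12 * al) (0) (8) (0) (0) (0) (0)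
  q :=
    pl ((-1) * al ^ 2 * be + 3 * al * be + (-5 / 3) * be) ((-1) * al ^ 3 + 3 * al ^ 2 + (-5 / 3)
    * al + (-12) * be ^ 2 + 1) ((-34) * al * be + 13 * be) ((-23) * al ^ 2 + 16 * al + (-5 / 3))
    ((-45) * be) ((-55) * al + 13) (0) ((-33)) (0) (0) (0)
  r :=
    pl (4 * be ^ 2 + (4 / 3)) (12 * al * be + 2 * be) (8 * al ^ 2 + 2 * al) (20 * be) (24 * al +
    2) (0) (16) (0) (0) (0) (0)

/-- Right leading term. -/
noncomputable def RA2 (al be : ℂ) : ℂ → ℂ :=
    pl ((-1) * al ^ 2 * be + (-5 / 3) * al * be + (-1 / 3) * be) ((-1) * al ^ 3 + (-5 / 3) * al ^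
    2 + (-1 / 3) * al + (-6) * be ^ 2 + (1 / 3)) ((-18) * al * be + (-5) * be) ((-13) * al ^ 2 +
    (-20 / 3) * al + (-1 / 3)) ((-21) * be) ((-27) * al + (-5)) (0) ((-15)) (0) (0) (0)

/-- Left expansion. -/
noncomputable def TB0 (al be : ℂ) : Tri where
  p :=
    pl (0) (al + (-1 / 3)) (0) (1) (0) (0) (0) (0) (0) (0) (0)
  q :=
    pl (al) ((-1) * be) ((-1) * al + 1) (0) ((-1)) (0) (0) (0) (0) (0) (0)
  r :=
    pl (be) (al + 1) (0) (1) (0) (0) (0) (0) (0) (0) (0)

/-- Right leading term. -/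
noncomputable def RB0 (al be : ℂ) : ℂ → ℂ :=
    pl ((1 / 3)) (0) ((-1)) (0) (0) (0) (0) (0) (0) (0) (0)

/-- Left expansion. -/
noncomputable def TB1 (al be : ℂ) : Tri where
  p :=
    pl ((-1) * al * be + (1 / 3) * be) ((-1) * al ^ 2 + (1 / 3) * al) ((-3) * be) ((-4) * al + (1
    / 3)) (0) ((-3)) (0) (0) (0) (0) (0)
  q :=
    pl (al + be ^ 2) (4 * al * be + (-13 / 3) * be) (3 * al ^ 2 + (-13 / 3) * al) (8 * be) (10 *
    al + (-13 / 3)) (0) (7) (0) (0) (0) (0)
  r :=
    pl ((-2) * al * be + (-5 / 3) * be) ((-2) * al ^ 2 + (-5 / 3) * al + (-1)) ((-6) * be) ((-8)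
    * al + (-5 / 3)) (0) ((-6)) (0) (0) (0) (0) (0)

/-- Right leading term. -/
noncomputable def RB1 (al be : ℂ) : ℂ → ℂ :=
    pl ((1 / 3)) ((-2) * be) ((-2) * al + (-1)) (0) ((-2)) (0) (0) (0) (0) (0) (0)

/-- Left expansion. -/
noncomputable def TB2 (al be : ℂ) : Tri where
  p :=
    pl (al ^ 2 * be + (-1 / 3) * al * be) (al ^ 3 + (-1 / 3) * al ^ 2 + 6 * be ^ 2) (18 * al * be
    + (-1) * be) (13 * al ^ 2 + (-4 / 3) * al) (21 * be) (27 * al + (-1)) (0) (15) (0) (0) (0)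
  q :=
    pl ((-4) * al * be ^ 2 + al + (16 / 3) * be ^ 2) ((-11) * al ^ 2 * be + (58 / 3) * al * be +
    (-8 / 3) * be) ((-7) * al ^ 3 + 14 * al ^ 2 + (-8 / 3) * al + (-30) * be ^ 2 + 1) ((-86) * al
    * be + (110 / 3) * be) ((-59) * al ^ 2 + (136 / 3) * al + (-8 / 3)) ((-87) * be) ((-109) * al
    + (94 / 3)) (0) ((-57)) (0) (0)
  r :=
    pl (3 * al ^ 2 * be + (10 / 3) * al * be + (8 / 3) * be) (3 * al ^ 3 + (10 / 3) * al ^ 2 + (8
    / 3) * al + 18 * be ^ 2 + 1) (54 * al * be + 10 * be) (39 * al ^ 2 + (40 / 3) * al + (8 / 3))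
    (63 * be) (81 * al + 10) (0) (45) (0) (0) (0)

/-- Right leading term. -/
noncomputable def RB2 (al be : ℂ) : ℂ → ℂ :=
    pl ((-2) * be ^ 2 + (1 / 3)) ((-6) * al * be + (-4) * be) ((-4) * al ^ 2 + (-4) * al + (-1))
    ((-10) * be) ((-12) * al + (-4)) (0) ((-8)) (0) (0) (0) (0)

/-- Left expansion. -/
noncomputable def TB3 (al be : ℂ) : Tri where
  p :=
    pl ((-1) * al ^ 3 * be + (1 / 3) * al ^ 2 * be + (-6) * be ^ 3) ((-1) * al ^ 4 + (1 / 3) * al
    ^ 3 + (-42) * al * be ^ 2 + 2 * be ^ 2) ((-75) * al ^ 2 * be + 6 * al * be) ((-40) * al ^ 3 +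
    (13 / 3) * al ^ 2 + (-90) * be ^ 2) ((-255) * al * be + 7 * be) ((-174) * al ^ 2 + 9 * al)
    ((-189) * be) ((-240) * al + 5) (0) ((-105)) (0)
  q :=
    pl (11 * al ^ 2 * be ^ 2 + (-70 / 3) * al * be ^ 2 + al + 8 * be ^ 2) (26 * al ^ 3 * be +
    (-185 / 3) * al ^ 2 * be + 24 * al * be + 66 * be ^ 3 + (-22 / 3) * be) (15 * al ^ 4 + (-115
    / 3) * al ^ 3 + 16 * al ^ 2 + 360 * al * be ^ 2 + (-22 / 3) * al + (-160) * be ^ 2) (580 * al
    ^ 2 * be + (-1370 / 3) * al * be + 40 * be) (290 * al ^ 3 + (-935 / 3) * al ^ 2 + 48 * al +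
    585 * be ^ 2 + (-22 / 3)) (1602 * al * be + (-455) * be) (1064 * al ^ 2 + (-1705 / 3) * al +
    32) (1080 * be) (1350 * al + (-295)) (0) (561)
  r :=
    pl ((-4) * al ^ 3 * be + (-6) * al ^ 2 * be + (-6) * al * be + (-24) * be ^ 3 + (-11 / 3) *
    be) ((-4) * al ^ 4 + (-6) * al ^ 3 + (-6) * al ^ 2 + (-168) * al * be ^ 2 + (-11 / 3) * al +
    (-36) * be ^ 2 + (-1)) ((-300) * al ^ 2 * be + (-108) * al * be + (-18) * be) ((-160) * al ^
    3 + (-78) * al ^ 2 + (-24) * al + (-360) * be ^ 2 + (-11 / 3)) ((-1020) * al * be + (-126) *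
    be) ((-696) * al ^ 2 + (-162) * al + (-18)) ((-756) * be) ((-960) * al + (-90)) (0) ((-420))
    (0)

/-- Right leading term. -/
noncomputable def RB3 (al be : ℂ) : ℂ → ℂ :=
    pl ((-6) * al * be ^ 2 + (-6) * be ^ 2 + (1 / 3)) ((-14) * al ^ 2 * be + (-18) * al * be +
    (-6) * be) ((-8) * al ^ 3 + (-12) * al ^ 2 + (-6) * al + (-30) * be ^ 2 + (-1)) ((-84) * al *
    be + (-30) * be) ((-56) * al ^ 2 + (-36) * al + (-6)) ((-78) * be) ((-96) * al + (-24)) (0)
    ((-48)) (0) (0)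

lemma TA0_eq (al be t : ℂ) : (TA0 al be).p t = t ^ 2 ∧
    (TA0 al be).q t = t - (t ^ 3 + al * t + be) ∧ (TA0 al be).r t = 4 / 3 := by
  simp only [TA0, pl]
  refine ⟨?_, ?_, ?_⟩ <;> ring

lemma TB0_eq (al be t : ℂ) : (TB0 al be).p t = (t ^ 3 + al * t + be) - t / 3 - be ∧
    (TB0 al be).q t = t ^ 2 + al - t * (t ^ 3 + al * t + be) ∧
    (TB0 al be).r t = t + (t ^ 3 + al * t + be) := by
  simp only [TB0, pl]
  refine ⟨?_, ?_, ?_⟩ <;> ring

lemma RA0_eq (al be t : ℂ) : RA0 al be t = t / 3 - (t ^ 3 + al * t + be) := by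
  simp only [RA0, pl]; ring

lemma RB0_eq (al be t : ℂ) : RB0 al be t = 1 / 3 - t ^ 2 := by
  simp only [RB0, pl]; ring

lemma stepA1 (al be : ℂ) : Tri.Step al be (TA0 al be) (TA1 al be) := by
  refine ⟨_, _, _, hasDerivAt_pl _ _ _ _ _ _ _ _ _ _ _, hasDerivAt_pl _ _ _ _ _ _ _ _ _ _ _,
    hasDerivAt_pl _ _ _ _ _ _ _ _ _ _ _, fun t => ?_⟩
  simp only [TA0, TA1, pl]
  refine ⟨?_, ?_, ?_⟩ <;> ring

lemma rstepA1 (al be : ℂ) : RStep al be (RA0 al be) (RA1 al be) := by
  refine ⟨_, hasDerivAt_pl _ _ _ _ _ _ _ _ _ _ _, fun t => ?_⟩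
  simp only [RA0, RA1, pl]
  ring

lemma stepA2 (al be : ℂ) : Tri.Step al be (TA1 al be) (TA2 al be) := by
  refine ⟨_, _, _, hasDerivAt_pl _ _ _ _ _ _ _ _ _ _ _, hasDerivAt_pl _ _ _ _ _ _ _ _ _ _ _,
    hasDerivAt_pl _ _ _ _ _ _ _ _ _ _ _, fun t => ?_⟩
  simp only [TA1, TA2, pl]
  refine ⟨?_, ?_, ?_⟩ <;> ring

lemma rstepA2 (al be : ℂ) : RStep al be (RA1 al be) (RA2 al be) := by
  refine ⟨_, hasDerivAt_pl _ _ _ _ _ _ _ _ _ _ _, fun t => ?_⟩
  simp only [RA1, RA2, pl]
  ring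

lemma stepB1 (al be : ℂ) : Tri.Step al be (TB0 al be) (TB1 al be) := by
  refine ⟨_, _, _, hasDerivAt_pl _ _ _ _ _ _ _ _ _ _ _, hasDerivAt_pl _ _ _ _ _ _ _ _ _ _ _,
    hasDerivAt_pl _ _ _ _ _ _ _ _ _ _ _, fun t => ?_⟩
  simp only [TB0, TB1, pl]
  refine ⟨?_, ?_, ?_⟩ <;> ring

lemma rstepB1 (al be : ℂ) : RStep al be (RB0 al be) (RB1 al be) := by
  refine ⟨_, hasDerivAt_pl _ _ _ _ _ _ _ _ _ _ _, fun t => ?_⟩
  simp only [RB0, RB1, pl]
  ring

lemma stepB2 (al be : ℂ) : Tri.Step al be (TB1 al be) (TB2 al be) := by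
  refine ⟨_, _, _, hasDerivAt_pl _ _ _ _ _ _ _ _ _ _ _, hasDerivAt_pl _ _ _ _ _ _ _ _ _ _ _,
    hasDerivAt_pl _ _ _ _ _ _ _ _ _ _ _, fun t => ?_⟩
  simp only [TB1, TB2, pl]
  refine ⟨?_, ?_, ?_⟩ <;> ring

lemma rstepB2 (al be : ℂ) : RStep al be (RB1 al be) (RB2 al be) := by
  refine ⟨_, hasDerivAt_pl _ _ _ _ _ _ _ _ _ _ _, fun t => ?_⟩
  simp only [RB1, RB2, pl]
  ring

lemma stepB3 (al be : ℂ) : Tri.Step al be (TB2 al be) (TB3 al be) := by
  refine ⟨_, _, _, hasDerivAt_pl _ _ _ _ _ _ _ _ _ _ _, hasDerivAt_pl _ _ _ _ _ _ _ _ _ _ _,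
    hasDerivAt_pl _ _ _ _ _ _ _ _ _ _ _, fun t => ?_⟩
  simp only [TB2, TB3, pl]
  refine ⟨?_, ?_, ?_⟩ <;> ring

lemma rstepB3 (al be : ℂ) : RStep al be (RB2 al be) (RB3 al be) := by
  refine ⟨_, hasDerivAt_pl _ _ _ _ _ _ _ _ _ _ _, fun t => ?_⟩
  simp only [RB2, RB3, pl]
  ring

/-- Coefficients of a quadratic differential relation. -/
structure Rel where
  x1 : ℂ
  x2 : ℂ
  x3 : ℂ
  x4 : ℂ
  x5 : ℂ
  x6 : ℂ
  lA0 : ℂ
  lA1 : ℂ
  lA2 : ℂ
  lB0 : ℂ
  lB1 : ℂ
  lB2 : ℂ
  k0 : ℂ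
  rA0 : ℂ
  rA1 : ℂ
  rA2 : ℂ
  rB0 : ℂ
  rB1 : ℂ
  rB2 : ℂ
  rB3 : ℂ
  r0 : ℂ

namespace Rel

/-- The quadratic terms. -/
def quad (ρ : Rel) (A0 A1 B0 B1 : ℂ) : ℂ :=
  ρ.x1 * (A0 * A0) + ρ.x2 * (A0 * B0) + ρ.x3 * (B0 * B0) + ρ.x4 * (A0 * B1) + ρ.x5 * (B0 * A1) +
  ρ.x6 * (A0 * A1)

/-- The polarised quadratic terms. -/
def bil (ρ : Rel) (A0 A1 B0 B1 A0' A1' B0' B1' : ℂ) : ℂ :=
  ρ.x1 * (A0 * A0' + A0' * A0) + ρ.x2 * (A0 * B0' + A0' * B0) + ρ.x3 * (B0 * B0' + B0' * B0) +
  ρ.x4 * (A0 * B1' + A0' * B1) + ρ.x5 * (B0 * A1' + B0' * A1) + ρ.x6 * (A0 * A1' + A0' * A1)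

/-- The linear terms for the left side. -/
def lin (ρ : Rel) (A0 A1 A2 B0 B1 B2 : ℂ) : ℂ :=
  ρ.lA0 * A0 + ρ.lA1 * A1 + ρ.lA2 * A2 + ρ.lB0 * B0 + ρ.lB1 * B1 + ρ.lB2 * B2

/-- The linear terms for the right side. -/
def rlin (ρ : Rel) (A0 A1 A2 B0 B1 B2 B3 : ℂ) : ℂ :=
  ρ.rA0 * A0 + ρ.rA1 * A1 + ρ.rA2 * A2 + ρ.rB0 * B0 + ρ.rB1 * B1 + ρ.rB2 * B2 + ρ.rB3 * B3

/-- The term of order zero on the left. -/
noncomputable def left0 (ρ : Rel) (al be t : ℂ) : ℂ :=
  ρ.quad ((TA0 al be).p t) ((TA1 al be).p t) ((TB0 al be).p t) ((TB1 al be).p t) - ρ.lin ((TA0 al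
  be).p t) ((TA1 al be).p t) ((TA2 al be).p t) ((TB0 al be).p t) ((TB1 al be).p t) ((TB2 al be).p
  t) - ρ.k0

/-- The coefficient of `Γ` in the limit relation. -/
noncomputable def aa (ρ : Rel) (al be t : ℂ) : ℂ :=
  ρ.bil ((TA0 al be).p t) ((TA1 al be).p t) ((TB0 al be).p t) ((TB1 al be).p t) ((TA0 al be).r t)
  ((TA1 al be).r t) ((TB0 al be).r t) ((TB1 al be).r t) - ρ.lin ((TA0 al be).r t) ((TA1 al be).r
  t) ((TA2 al be).r t) ((TB0 al be).r t) ((TB1 al be).r t) ((TB2 al be).r t)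

/-- The term free of `Γ` in the limit relation. -/
noncomputable def bb (ρ : Rel) (al be t : ℂ) : ℂ :=
  ρ.bil ((TA0 al be).p t) ((TA1 al be).p t) ((TB0 al be).p t) ((TB1 al be).p t) ((TA0 al be).q t)
  ((TA1 al be).q t) ((TB0 al be).q t) ((TB1 al be).q t) - ρ.lin ((TA0 al be).q t) ((TA1 al be).q
  t) ((TA2 al be).q t) ((TB0 al be).q t) ((TB1 al be).q t) ((TB2 al be).q t) - ρ.rlin ((TA0 al
  be).p t) ((TA1 al be).p t) ((TA2 al be).p t) ((TB0 al be).p t) ((TB1 al be).p t) ((TB2 al be).p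
  t) ((TB3 al be).p t)

/-- The leading term on the right. -/
noncomputable def right0 (ρ : Rel) (al be t : ℂ) : ℂ :=
  ρ.quad (RA0 al be t) (RA1 al be t) (RB0 al be t) (RB1 al be t) - ρ.rlin (RA0 al be t) (RA1 al
  be t) (RA2 al be t) (RB0 al be t) (RB1 al be t) (RB2 al be t) (RB3 al be t) - ρ.r0

/-- The properties of a useful relation. -/
def Good (ρ : Rel) (al be a c : ℂ) : Prop :=
  (∀ t, ρ.left0 al be t = 0) ∧ (∀ t, ρ.right0 al be t = 0) ∧
    ∃ a' b' : ℂ → ℂ, (∀ t, HasDerivAt (ρ.aa al be) (a' t) t) ∧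
      (∀ t, HasDerivAt (ρ.bb al be) (b' t) t) ∧
      c = (2 - (3 * a ^ 2 + al)) * (a' a * (-a / 2) + b' a) - ρ.aa al be a

end Rel

/-- A relation. -/
noncomputable def relm (al be : ℂ) : Rel where
  x1 := 8 * al + (-8 / 3)
  x2 := 27 * be
  x3 := 8 * al + (-8 / 3)
  x4 := 0
  x5 := 0
  x6 := 0
  lA0 := (-8) * al ^ 2 + (32 / 9) * al + (-27) * be ^ 2 + (-8 / 27)
  lA1 := (-2) * al ^ 2 + (-2 / 3) * al + (4 / 9)
  lA2 := al + (-1 / 3)
  lB0 := (-19) * al * be + (-8 / 3) * be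
  lB1 := (-9) * be
  lB2 := 0
  k0 := (-11) * al * be ^ 2 + (11 / 3) * be ^ 2
  rA0 := 3 * al * be + 26 * be
  rA1 := (-9) * be
  rA2 := 0
  rB0 := 10 * al ^ 2 + (13 / 9) * al + (-43 / 27)
  rB1 := (-2) * al ^ 2 + (4 / 3) * al + (-2 / 9)
  rB2 := (-1) * al + (1 / 3)
  rB3 := 0
  r0 := (-8 / 3) * al ^ 2 + (8 / 27) * al + 9 * be ^ 2 + (16 / 81)

lemma relm_aa (al be : ℂ) : (relm al be).aa al be =
    pl (8 * al ^ 2 + (-3) * al * be ^ 2 + (-188 / 27) * al + 25 * be ^ 2 + (116 / 81)) (al ^ 2 *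
    be + (98 / 3) * al * be + (-15) * be) (4 * al ^ 3 + (14 / 3) * al ^ 2 + 14 * al + (-27) * be
    ^ 2 + (-16 / 3)) ((-30) * al * be + 52 * be) (4 * al ^ 2 + (14 / 3) * al + (-2)) ((-27) * be)
    (0) (0) (0) (0) (0) := by
  funext t
  simp only [Rel.aa, Rel.bil, Rel.lin, relm, TA0, TA1, TA2, TB0, TB1, TB2, pl]
  ring

lemma relm_bb (al be : ℂ) : (relm al be).bb al be =
    pl (2 * al ^ 3 * be + (17 / 3) * al ^ 2 * be + (140 / 9) * al * be + (-18) * be ^ 3 + (1 / 9)
    * be) (2 * al ^ 4 + (-22 / 3) * al ^ 3 + (22 / 9) * al ^ 2 + (-19) * al * be ^ 2 + (-22 / 27)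
    * al + (-89 / 3) * be ^ 2 + (20 / 81)) (21 * al ^ 2 * be + (-10) * al * be + (-27) * be) (24
    * al ^ 3 + (-44 / 3) * al ^ 2 + (70 / 9) * al + (-9) * be ^ 2 + (-50 / 27)) (40 * al * be +
    (-40 / 3) * be) (54 * al ^ 2 + (-18) * al) (9 * be) (32 * al + (-32 / 3)) (0) (0) (0) := by
  funext t
  simp only [Rel.bb, Rel.bil, Rel.lin, Rel.rlin, relm, TA0, TA1, TA2, TB0, TB1, TB2, TB3, pl]
  ring

lemma relm_good (a s : ℂ) : (relm (-s - 3 * a ^ 2) (2 * a ^ 3 + s * a)).Good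
    (-s - 3 * a ^ 2) (2 * a ^ 3 + s * a) a
    ((-180) * a ^ 6 * s + (-396) * a ^ 6 + 18 * a ^ 4 * s ^ 3 + (-27) * a ^ 4 * s ^ 2 + (-233) *
    a ^ 4 * s + (-188) * a ^ 4 + (33 / 2) * a ^ 2 * s ^ 4 + 57 * a ^ 2 * s ^ 3 + (59 / 6) * a ^ 2
    * s ^ 2 + (-892 / 9) * a ^ 2 * s + (-100 / 9) * a ^ 2 + 2 * s ^ 5 + (34 / 3) * s ^ 4 + (154 /
    9) * s ^ 3 + (-62 / 27) * s ^ 2 + (-412 / 81) * s + (-76 / 81)) := by
  generalize hal : -s - 3 * a ^ 2 = al
  generalize hbe : 2 * a ^ 3 + s * a = be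
  refine ⟨fun t => ?_, fun t => ?_, ?_⟩
  · simp only [Rel.left0, Rel.quad, Rel.lin, relm, TA0, TA1, TA2, TB0, TB1, TB2, pl]
    ring
  · simp only [Rel.right0, Rel.quad, Rel.rlin, relm, RA0, RA1, RA2, RB0, RB1, RB2, RB3, pl]
    ring
  · rw [relm_aa, relm_bb]
    refine ⟨_, _, hasDerivAt_pl _ _ _ _ _ _ _ _ _ _ _, hasDerivAt_pl _ _ _ _ _ _ _ _ _ _ _, ?_⟩
    simp only [pl, ← hal, ← hbe]
    ring

/-- A relation. -/
noncomputable def relc (al be : ℂ) : Rel where
  x1 := 0
  x2 := (4 / 5) * al + (-1 / 5)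
  x3 := 0
  x4 := 1
  x5 := (-1)
  x6 := 0
  lA0 := (-4 / 5) * al * be + (1 / 5) * be
  lA1 := (-1 / 5) * be
  lA2 := 0
  lB0 := (-4 / 5) * al ^ 2 + (1 / 5) * al
  lB1 := (-13 / 15) * al + (1 / 5)
  lB2 := (-1 / 15)
  k0 := (-4 / 5) * al ^ 2 * be + (7 / 15) * al * be + (-1 / 15) * be
  rA0 := (4 / 5) * al ^ 2 + (14 / 15) * al + (2 / 15)
  rA1 := (-13 / 15) * al + (-4 / 15)
  rA2 := (1 / 15)
  rB0 := (6 / 5) * be
  rB1 := (-6 / 5) * be
  rB2 := 0
  rB3 := 0
  r0 := (4 / 15) * al * be + (-1 / 15) * be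

lemma relc_aa (al be : ℂ) : (relc al be).aa al be =
    pl ((-11 / 15) * al ^ 2 * be + (-58 / 45) * al * be + (19 / 45) * be) ((-11 / 15) * al ^ 3 +
    (-22 / 45) * al ^ 2 + (3 / 5) * al + (14 / 5) * be ^ 2 + (-4 / 45)) ((14 / 5) * al * be + (-8
    / 3) * be) ((-11 / 15) * al ^ 2 + (-142 / 45) * al + (37 / 45)) ((19 / 5) * be) (al + (-8 /
    3)) (0) (1) (0) (0) (0) := by
  funext t
  simp only [Rel.aa, Rel.bil, Rel.lin, relc, TA0, TA1, TA2, TB0, TB1, TB2, pl]
  ring

lemma relc_bb (al be : ℂ) : (relc al be).bb al be =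
    pl ((4 / 5) * al ^ 3 + (2 / 3) * al ^ 2 + (-1 / 5) * al * be ^ 2 + (-2 / 15) * al + (-1 / 9)
    * be ^ 2) ((1 / 3) * al ^ 2 * be + (-34 / 15) * al * be + (-1 / 9) * be) ((8 / 15) * al ^ 3 +
    (-7 / 45) * al ^ 2 + (-32 / 45) * al + (-13 / 5) * be ^ 2 + (-1 / 9)) ((-14 / 5) * al * be +
    (-124 / 45) * be) ((8 / 15) * al ^ 2 + (-8 / 5) * al + (-14 / 45)) ((-17 / 5) * be) ((-4 / 5)
    * al + (-13 / 9)) (0) ((-4 / 5)) (0) (0) := by
  funext t
  simp only [Rel.bb, Rel.bil, Rel.lin, Rel.rlin, relc, TA0, TA1, TA2, TB0, TB1, TB2, TB3, pl]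
  ring

lemma relc_good (a s : ℂ) : (relc (-s - 3 * a ^ 2) (2 * a ^ 3 + s * a)).Good
    (-s - 3 * a ^ 2) (2 * a ^ 3 + s * a) a
    ((24 / 5) * a ^ 5 * s + (24 / 5) * a ^ 5 + (-12 / 5) * a ^ 3 * s ^ 3 + (11 / 5) * a ^ 3 * s ^
    2 + (187 / 15) * a ^ 3 * s + (76 / 15) * a ^ 3 + (-11 / 10) * a * s ^ 4 + (469 / 90) * a * s
    ^ 2 + (29 / 9) * a * s + (-4 / 15) * a) := by
  generalize hal : -s - 3 * a ^ 2 = al
  generalize hbe : 2 * a ^ 3 + s * a = be
  refine ⟨fun t => ?_, fun t => ?_, ?_⟩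
  · simp only [Rel.left0, Rel.quad, Rel.lin, relc, TA0, TA1, TA2, TB0, TB1, TB2, pl]
    ring
  · simp only [Rel.right0, Rel.quad, Rel.rlin, relc, RA0, RA1, RA2, RB0, RB1, RB2, RB3, pl]
    ring
  · rw [relc_aa, relc_bb]
    refine ⟨_, _, hasDerivAt_pl _ _ _ _ _ _ _ _ _ _ _, hasDerivAt_pl _ _ _ _ _ _ _ _ _ _ _, ?_⟩
    simp only [pl, ← hal, ← hbe]
    ring

/-- A relation. -/
noncomputable def relb (al be : ℂ) : Rel where
  x1 := 23
  x2 := 0
  x3 := 32
  x4 := 0
  x5 := 0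
  x6 := 90
  lA0 := (-23) * al + (32 / 9)
  lA1 := (-53) * al + (-5 / 6)
  lA2 := (-37 / 2)
  lB0 := 5 * be
  lB1 := 0
  lB2 := 0
  k0 := 37 * be ^ 2
  rA0 := (-249 / 4) * be
  rA1 := (-135 / 4) * be
  rA2 := 0
  rB0 := 49 * al + (-25 / 18)
  rB1 := (-23 / 4) * al + (-47 / 24)
  rB2 := (-45 / 4) * al + (71 / 4)
  rB3 := (-45 / 8)
  r0 := (-32 / 3) * al + (17 / 27)

lemma relb_aa (al be : ℂ) : (relb al be).aa al be =
    pl ((-40) * al + 69 * be ^ 2 + (508 / 27)) (175 * al * be + (-231) * be) (106 * al ^ 2 +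
    (-162) * al + (-80)) (249 * be) (286 * al + (-162)) (0) (180) (0) (0) (0) (0) := by
  funext t
  simp only [Rel.aa, Rel.bil, Rel.lin, relb, TA0, TA1, TA2, TB0, TB1, TB2, pl]
  ring

lemma relb_bb (al be : ℂ) : (relb al be).bb al be =
    pl ((45 / 8) * al ^ 3 * be + (73 / 8) * al ^ 2 * be + (-1723 / 24) * al * be + (-135 / 4) *
    be ^ 3 + (-679 / 24) * be) ((45 / 8) * al ^ 4 + (73 / 8) * al ^ 3 + (-1243 / 24) * al ^ 2 +
    (-675 / 4) * al * be ^ 2 + (-1913 / 72) * al + (-799 / 4) * be ^ 2 + (767 / 54)) ((-1755 / 8)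
    * al ^ 2 * be + (-1419 / 4) * al * be + (-567 / 8) * be) ((-315 / 4) * al ^ 3 + (-1167 / 8) *
    al ^ 2 + (-1391 / 12) * al + (-2025 / 4) * be ^ 2 + (-2321 / 72)) ((-9585 / 8) * al * be +
    (-3859 / 8) * be) ((-675) * al ^ 2 + (-3501 / 8) * al + (-513 / 8)) ((-8505 / 8) * be)
    ((-4725 / 4) * al + (-2261 / 8)) (0) ((-4725 / 8)) (0) := by
  funext t
  simp only [Rel.bb, Rel.bil, Rel.lin, Rel.rlin, relb, TA0, TA1, TA2, TB0, TB1, TB2, TB3, pl]
  ring

lemma relb_good (a s : ℂ) : (relb (-s - 3 * a ^ 2) (2 * a ^ 3 + s * a)).Good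
    (-s - 3 * a ^ 2) (2 * a ^ 3 + s * a) a
    (135 * a ^ 4 * s ^ 2 + 312 * a ^ 4 * s + 222 * a ^ 4 + (135 / 4) * a ^ 2 * s ^ 4 + 39 * a ^ 2
    * s ^ 3 + (-833 / 4) * a ^ 2 * s ^ 2 + (-341 / 2) * a ^ 2 * s + 86 * a ^ 2 + (45 / 8) * s ^ 5
    + (17 / 8) * s ^ 4 + (-1681 / 24) * s ^ 3 + (-5545 / 72) * s ^ 2 + (2953 / 108) * s + (259 /
    27)) := by
  generalize hal : -s - 3 * a ^ 2 = al
  generalize hbe : 2 * a ^ 3 + s * a = be
  refine ⟨fun t => ?_, fun t => ?_, ?_⟩
  · simp only [Rel.left0, Rel.quad, Rel.lin, relb, TA0, TA1, TA2, TB0, TB1, TB2, pl]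
    ring
  · simp only [Rel.right0, Rel.quad, Rel.rlin, relb, RA0, RA1, RA2, RB0, RB1, RB2, RB3, pl]
    ring
  · rw [relb_aa, relb_bb]
    refine ⟨_, _, hasDerivAt_pl _ _ _ _ _ _ _ _ _ _ _, hasDerivAt_pl _ _ _ _ _ _ _ _ _ _ _, ?_⟩
    simp only [pl, ← hal, ← hbe]
    ring

lemma bezout_main (x s : ℂ)
    (hm :
      (-180) * x ^ 3 * s + (-396) * x ^ 3 + 18 * x ^ 2 * s ^ 3 + (-27) * x ^ 2 * s ^ 2 + (-233) *
      x ^ 2 * s + (-188) * x ^ 2 + (33 / 2) * x * s ^ 4 + 57 * x * s ^ 3 + (59 / 6) * x * s ^ 2 +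
      (-892 / 9) * x * s + (-100 / 9) * x + 2 * s ^ 5 + (34 / 3) * s ^ 4 + (154 / 9) * s ^ 3 +
      (-62 / 27) * s ^ 2 + (-412 / 81) * s + (-76 / 81) = 0)
    (hc :
      (24 / 5) * x ^ 2 * s + (24 / 5) * x ^ 2 + (-12 / 5) * x * s ^ 3 + (11 / 5) * x * s ^ 2 +
      (187 / 15) * x * s + (76 / 15) * x + (-11 / 10) * s ^ 4 + (469 / 90) * s ^ 2 + (29 / 9) * s
      + (-4 / 15) = 0)
    (hb :
      135 * x ^ 2 * s ^ 2 + 312 * x ^ 2 * s + 222 * x ^ 2 + (135 / 4) * x * s ^ 4 + 39 * x * s ^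
      3 + (-833 / 4) * x * s ^ 2 + (-341 / 2) * x * s + 86 * x + (45 / 8) * s ^ 5 + (17 / 8) * s
      ^ 4 + (-1681 / 24) * s ^ 3 + (-5545 / 72) * s ^ 2 + (2953 / 108) * s + (259 / 27) = 0) : False := by
  have h1 :
      5983632 * s ^ 15 + 24984288 * s ^ 14 + (-57771063) * s ^ 13 + (-389262429) * s ^ 12 +
      (-175430448) * s ^ 11 + 1442573847 * s ^ 10 + 1514576664 * s ^ 9 + (-1568802273) * s ^ 8 +
      (-11222684) * s ^ 7 + 6357967169 * s ^ 6 + 4202731539 * s ^ 5 + (-2707312410) * s ^ 4 +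
      (-2106462968) * s ^ 3 + 305897568 * s ^ 2 + 9658496 * s + (-119544832) = 0 := by
    linear_combination
      (6718464 * x * s ^ 8 + 16796160 * x * s ^ 7 + (-63930384) * x * s ^ 6 + (-235402848) * x *
      s ^ 5 + (-85681152) * x * s ^ 4 + 445271904 * x * s ^ 3 + 617146128 * x * s ^ 2 + 299075328
      * x * s + 51487488 * x + (-3359232) * s ^ 10 + (-5038848) * s ^ 9 + 51041664 * s ^ 8 +
      109177470 * s ^ 7 + (-183172104) * s ^ 6 + (-617279508) * s ^ 5 + (-184400496) * s ^ 4 +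
      772281702 * s ^ 3 + 889903368 * s ^ 2 + 375431328 * s + 56557440) * hm + (251942400 * x ^ 2
      * s ^ 8 + 932186880 * x ^ 2 * s ^ 7 + (-1943893080) * x ^ 2 * s ^ 6 + (-12157970400) * x ^
      2 * s ^ 5 + (-10475807760) * x ^ 2 * s ^ 4 + 20104809120 * x ^ 2 * s ^ 3 + 39773102760 * x
      ^ 2 * s ^ 2 + 22356777600 * x ^ 2 * s + 4247717760 * x ^ 2 + (-25194240) * x * s ^ 10 +
      (-115473600) * x * s ^ 9 + 220624560 * x * s ^ 8 + 1811003670 * x * s ^ 7 + 1278155700 * x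
      * s ^ 6 + (-7137694080) * x * s ^ 5 + (-13178317140) * x * s ^ 4 + (-675660150) * x * s ^ 3
      + 14002288560 * x * s ^ 2 + 10477092960 * x * s + 2198880000 * x + (-11547360) * s ^ 11 +
      (-66484800) * s ^ 10 + (-13552110) * s ^ 9 + 658104750 * s ^ 8 + 1515178710 * s ^ 7 +
      391052340 * s ^ 6 + (-2271952170) * s ^ 5 + (-2706250650) * s ^ 4 + (-1225835070) * s ^ 3 +
      (-90433800) * s ^ 2 + 576348960 * s + 249294720) * hc
  have h2 :
      (-20667150) * s ^ 13 + (-22515165) * s ^ 12 + 422404470 * s ^ 11 + 891767313 * s ^ 10 +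
      (-2145954762) * s ^ 9 + (-7899076269) * s ^ 8 + (-2750749494) * s ^ 7 + 17157358519 * s ^ 6
      + 27888804340 * s ^ 5 + 16558609250 * s ^ 4 + 2890380724 * s ^ 3 + (-166776144) * s ^ 2 +
      357210048 * s + 111617792 = 0 := by
    linear_combination
      (118098000 * x * s ^ 7 + 467580600 * x * s ^ 6 + 340200 * x * s ^ 5 + (-2839438800) * x * s
      ^ 4 + (-6077570400) * x * s ^ 3 + (-5592110400) * x * s ^ 2 + (-2299557600) * x * s +
      (-284515200) * x + 29524500 * s ^ 9 + 40131450 * s ^ 8 + (-477871650) * s ^ 7 +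
      (-1146262590) * s ^ 6 + 1011934890 * s ^ 5 + 5581162620 * s ^ 4 + 5977546980 * s ^ 3 +
      1835641080 * s ^ 2 + (-394755840) * s + (-152273280)) * hc + ((-4199040) * x * s ^ 6 +
      (-11119680) * x * s ^ 5 + 15966720 * x * s ^ 4 + 82330560 * x * s ^ 3 + 100517760 * x * s ^
      2 + 47226240 * x * s + 6151680 * x + 2099520 * s ^ 8 + 3052080 * s ^ 7 + (-20718504) * s ^
      6 + (-45136656) * s ^ 5 + 28156392 * s ^ 4 + 149961168 * s ^ 3 + 147884688 * s ^ 2 +
      56313216 * s + 7402752) * hb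
  have h3 : (92041571507018288217812583053711960693830774771151715824432300801660300193315252447644982104215397202951110072488802129518927832751535040587364438944350654407639040 : ℂ) = 0 := by
    linear_combination

      (7810835286977676906099356188661184192997549324866256860668367063744706064160749759669389799926839257746334167799996170905271606845830450368905052632974059350
      * s ^ 12 +
      (-6046310667972997936106677241686201324404664060418296670906444982519856415901548866821513566702486535303617510098624169913499164233512775750342218048556502615)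
      * s ^ 11 +
      (-148554477223244731105491185183887696154239503720730716643128354273399258941713853333331318911105226855371237653931758016308110656163854441289650479189387251390)
      * s ^ 10 +
      (-59901698595540470239926507600817200836464976168744831930044819705074038395544091700850661068217318498123075488738108433933876059527189358527933114059682968477)
      * s ^ 9 +
      925863512688947552543688742506857460257793467239219014749485183942368138037164866667911642885161340077936007823350143539704211253184351214499715993511153249090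
      * s ^ 8 +
      1258499002830536967366822690159972335645332385793798173637390151174369153964207883855938359090705169351338076453016395766313111866056084231253527411564083746441
      * s ^ 7 +
      (-1326034112525348485165188295002381854884752693922286284785062320279112860775820145470540435515944019761558024764755771972931501684766813607075203019174117594370)
      * s ^ 6 +
      (-4023820609554109481073279225947398171973119006326342343387238816500082792816731093695272022835378549095915699349781083154194290048338568004727596840661048767531)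
      * s ^ 5 +
      (-3000591916441777762883224983552612500840734414215219898175584748239614319692543368678773500593700386331719833967148001265290459627925835196749109764099132069444)
      * s ^ 4 +
      (-611458985691534775234751412919409976889432995802906931278645165622703275517914635481035278997862385169074863458129886922344786186524449002808419074872985789226)
      * s ^ 3 +
      66091992154471612868591976756407107017306070416320955821520676381965893787533552982020930505141881632376515340501983404544315294546983314288623978766933170780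
      * s ^ 2 +
      (-60253012331066318549775178620848691586292272363194594599422904525430641431473333501180266956728308318488770532692289662274744604343424141815910642290379276624)
      * s +
      (-23743260669173494666193328427208542673085198542651962686458524392890640886638455988594166575834745311874395628925362649102048011903922614414403933328766659968))
      * h1 +
      (2261422787848775028051623125098095233020242852151754367279222464169895850957017073275709046835961080337986273343998891385907208077269006582997272381356299088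
      * s ^ 14 +
      5228246426450340709872985829960532378125866926461941531591089586816520332006695956133970721554496211409931782141889094256145440858030866432749004606580101984
      * s ^ 13 +
      (-31628845049946608757610248687195565685924845459173752180602477195499958923453775272143354666039902572648775960950870580078564832973675330878135513491952746651)
      * s ^ 12 +
      (-88250882975466751016764085955043131120337008643597465129004348957191780595453024265651476080350271816113668299853136533389740408372523232839420422459892763625)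
      * s ^ 11 +
      98959193081804297455375792574668281742212727112903342014839755494077178221658548753749323644554466284129064314482440412736340730810746586917392613080852343168
      * s ^ 10 +
      362128263010931914914362969861131399464396502740139736652044528734369383784996463407314294029291194307554631553431355847532280479487151533211486555401873357195
      * s ^ 9 +
      (-105978744894373886058186665967748591961665252901568835945573656113589092419762418783592162605810266743918077517999110096490982552356979830704860833859741542024)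
      * s ^ 8 +
      (-400657911424311031178014244672678181200285751870081905987951522967854270110534193273165558953865829855300777453062990859217929414241752472581099004782017136333)
      * s ^ 7 +
      749915677823333013465301044051977577800665514158444678347562683393251081161478697884763643931134167716375990484233632385765563059555396558138447770623115441812
      * s ^ 6 +
      1007736457259631533454130947834597069318286459188607047097892525510388359715443591468286784473058117502942039913978110164895648044052069140688775525239384675149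
      * s ^ 5 +
      (-309891445794774543381259474373949171500771878516395932540607490047288967303638357274948045668932409294292724836760193502676957894351204842506779231943525497593)
      * s ^ 4 +
      (-449328212092872564857579982755520928804555596565389913859525377879385163050163658751355868860613424944049256121164916451366547878396970496840450107370909613762)
      * s ^ 3 +
      52252182033362551690463523662618518923126097733371971556641893084064239342151563625316307972254219484726639317912061095187229999927861659844038385784301815800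
      * s ^ 2 +
      16265317486473473124013879242799512126370712310461583739942116127139714171260426061118968836248045955445590704915829047065932677654867613459310754318802204032
      * s +
      (-24604881418201989791243719847976902303576926218866809316551618157026017491657692112815119809787712794639954179428025384129264558523401842965889632998494187008))
      * h2
  norm_num at h3

lemma bezout_zero (s : ℂ)
    (hm :
      2 * s ^ 5 + (34 / 3) * s ^ 4 + (154 / 9) * s ^ 3 + (-62 / 27) * s ^ 2 + (-412 / 81) * s +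
      (-76 / 81) = 0)
    (hb :
      (45 / 8) * s ^ 5 + (17 / 8) * s ^ 4 + (-1681 / 24) * s ^ 3 + (-5545 / 72) * s ^ 2 + (2953 /
      108) * s + (259 / 27) = 0) : False := by
  have h3 : (1 : ℂ) = 0 := by
    linear_combination
      ((-2073197350438965 / 1266809174313472) * s ^ 4 + (-67953523363281 / 316702293578368) * s ^
      3 + (25911824154578775 / 1266809174313472) * s ^ 2 + (11003683663498545 / 633404587156736)
      * s + (-53652611903949 / 4279760724032)) * hm + ((46071052231977 / 79175573394592) * s ^ 4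
      + (124852494718485 / 39587786697296) * s ^ 3 + (331910494767171 / 79175573394592) * s ^ 2 +
      (-17320602241017 / 9896946674324) * s + (-44415927214923 / 39587786697296)) * hb
  norm_num at h3

/-- For every root of the cubic there is a relation with a non-zero linearisation. -/
theorem exists_rel {al be a : ℂ} (ha : a ^ 3 + al * a + be = 0) :
    ∃ (ρ : Rel) (c : ℂ), ρ.Good al be a c ∧ c ≠ 0 := by
  obtain ⟨s, rfl⟩ : ∃ s, al = -s - 3 * a ^ 2 := ⟨-al - 3 * a ^ 2, by ring⟩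
  obtain rfl : be = 2 * a ^ 3 + s * a := by linear_combination ha
  by_contra h
  push Not at h
  have hm := h _ _ (relm_good a s)
  have hc := h _ _ (relc_good a s)
  have hb := h _ _ (relb_good a s)
  rcases eq_or_ne a 0 with rfl | h0
  · exact bezout_zero s (by linear_combination hm) (by linear_combination hb)
  · refine bezout_main (a ^ 2) s (by linear_combination hm) ?_ (by linear_combination hb)
    apply mul_left_cancel₀ h0
    linear_combination hc

end Pool.Agent.Lib.MP_bb1814_an
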