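import Mathlib

/-!
Classes of functions used in the analysis of the model equation: bounded analytic functions on a
left half plane and entire functions bounded on vertical strips.
-/

namespace Pool.Agent.Lib.MP_bb1814_an

open Filter Topology Set Metric Complex

/-- The filter of left half planes. -/
def lft : Filter ℂ := comap re atBot

lemma eventually_lft {p : ℂ → Prop} :
    (∀ᶠ z in lft, p z) ↔ ∃ c : ℝ, ∀ z : ℂ, z.re ≤ c → p z := by
  simp only [lft, eventually_comap, eventually_atBot]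
  constructor
  · rintro ⟨c, h⟩; exact ⟨c, fun z hz => h _ hz z rfl⟩
  · rintro ⟨c, h⟩; exact ⟨c, fun b hb z hz => h z (hz ▸ hb)⟩

instance lft_neBot : lft.NeBot := comap_neBot fun t ht => by
  obtain ⟨x, hx⟩ := Filter.nonempty_of_mem ht
  exact ⟨x, by simpa using hx⟩

lemma lft_nhds {p : ℂ → Prop} (h : ∀ᶠ z in lft, p z) : ∀ᶠ z in lft, ∀ᶠ w in 𝓝 z, p w := by
  obtain ⟨c, hc⟩ := eventually_lft.1 h
  refine eventually_lft.2 ⟨c - 1, fun z hz => ?_⟩
  have : ∀ᶠ w in 𝓝 z, w.re < c := continuous_re.continuousAt.eventually_lt_const (by linarith)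
  exact this.mono fun w hw => hc w hw.le

lemma deriv_lft {F G : ℂ → ℂ} (h : ∀ᶠ z in lft, F z = G z) :
    ∀ᶠ z in lft, deriv F z = deriv G z :=
  (lft_nhds h).mono fun _ hz => EventuallyEq.deriv_eq hz

/-- The exponential factor. -/
noncomputable def ev (v0 z : ℂ) : ℂ := v0 * exp z

lemma ev_ne {v0 : ℂ} (h : v0 ≠ 0) (z : ℂ) : ev v0 z ≠ 0 := mul_ne_zero h (exp_ne_zero z)

lemma hasDerivAt_ev (v0 z : ℂ) : HasDerivAt (ev v0) (ev v0 z) z :=
  (hasDerivAt_exp z).const_mul v0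

lemma differentiable_ev (v0 : ℂ) : Differentiable ℂ (ev v0) := fun z =>
  (hasDerivAt_ev v0 z).differentiableAt

lemma norm_ev (v0 z : ℂ) : ‖ev v0 z‖ = ‖v0‖ * Real.exp z.re := by
  simp [ev, norm_exp]

lemma ev_mul_ev {v0 w0 : ℂ} (h : v0 * w0 = 1) (z : ℂ) : ev v0 z * ev w0 (-z) = 1 := by
  have := exp_add z (-z)
  simp only [add_neg_cancel, exp_zero] at this
  simp only [ev]
  linear_combination (exp z * exp (-z)) * h - this

lemma tendsto_ev (v0 : ℂ) : Tendsto (ev v0) lft (𝓝 0) := by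
  rw [tendsto_zero_iff_norm_tendsto_zero]
  simp only [norm_ev]
  have := (Real.tendsto_exp_atBot.comp (tendsto_comap (f := re))).const_mul ‖v0‖
  simpa [lft] using this

/-- Analytic and bounded on a left half plane. -/
@[fun_prop] def Bd (F : ℂ → ℂ) : Prop :=
  (∀ᶠ z in lft, AnalyticAt ℂ F z) ∧ ∃ M : ℝ, ∀ᶠ z in lft, ‖F z‖ ≤ M

namespace Bd

variable {F G : ℂ → ℂ}

lemma hd (h : Bd F) : ∀ᶠ z in lft, HasDerivAt F (deriv F z) z :=
  h.1.mono fun _ hz => hz.differentiableAt.hasDerivAt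

lemma congr (h : Bd F) (e : ∀ᶠ z in lft, F z = G z) : Bd G := by
  obtain ⟨h1, M, h2⟩ := h
  refine ⟨?_, M, ?_⟩
  · filter_upwards [h1, lft_nhds e] with z a b using a.congr b
  · filter_upwards [h2, e] with z a b using b ▸ a

@[fun_prop] lemma const (c : ℂ) : Bd fun _ => c :=
  ⟨Eventually.of_forall fun _ => analyticAt_const, ‖c‖, Eventually.of_forall fun _ => le_rfl⟩

@[fun_prop] lemma add (h : Bd F) (h' : Bd G) : Bd fun z => F z + G z := by
  obtain ⟨h1, M, h2⟩ := h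
  obtain ⟨h3, N, h4⟩ := h'
  refine ⟨?_, M + N, ?_⟩
  · filter_upwards [h1, h3] with z a b using a.add b
  · filter_upwards [h2, h4] with z a b using (norm_add_le _ _).trans (add_le_add a b)

@[fun_prop] lemma mul (h : Bd F) (h' : Bd G) : Bd fun z => F z * G z := by
  obtain ⟨h1, M, h2⟩ := h
  obtain ⟨h3, N, h4⟩ := h'
  refine ⟨?_, M * N, ?_⟩
  · filter_upwards [h1, h3] with z a b using a.mul b
  · filter_upwards [h2, h4] with z a b
    rw [norm_mul]
    exact mul_le_mul a b (norm_nonneg _) ((norm_nonneg _).trans a)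

@[fun_prop] lemma neg (h : Bd F) : Bd fun z => -F z :=
  ((const (-1)).mul h).congr (Eventually.of_forall fun _ => by ring)

@[fun_prop] lemma sub (h : Bd F) (h' : Bd G) : Bd fun z => F z - G z :=
  (h.add h'.neg).congr (Eventually.of_forall fun _ => by ring)

@[fun_prop] lemma pow (h : Bd F) (n : ℕ) : Bd fun z => F z ^ n := by
  induction n with
  | zero => simpa using const 1
  | succ n ih => exact (ih.mul h).congr (Eventually.of_forall fun _ => by ring)

@[fun_prop] lemma div_const (h : Bd F) (c : ℂ) : Bd fun z => F z / c :=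
  (h.mul (const c⁻¹)).congr (Eventually.of_forall fun _ => by ring)

lemma of_tendsto {c : ℂ} (h : ∀ᶠ z in lft, AnalyticAt ℂ F z) (ht : Tendsto F lft (𝓝 c)) :
    Bd F :=
  ⟨h, ‖c‖ + 1, (ht.norm.eventually (gt_mem_nhds (lt_add_one _))).mono fun _ h => h.le⟩

@[fun_prop] lemma ev (v0 : ℂ) : Bd (ev v0) :=
  of_tendsto (Eventually.of_forall fun z => (differentiable_ev v0).analyticAt z) (tendsto_ev v0)

lemma comp {p : ℂ → ℂ} (hp : Differentiable ℂ p) (h : Bd F) : Bd fun z => p (F z) := by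
  obtain ⟨h1, M, h2⟩ := h
  obtain ⟨N, hN⟩ := (isCompact_closedBall (0 : ℂ) M).exists_bound_of_continuousOn
    hp.continuous.continuousOn
  refine ⟨h1.mono fun z hz => AnalyticAt.comp (g := p) (hp.analyticAt _) hz, N, ?_⟩
  exact h2.mono fun z hz => hN _ (by simpa using hz)

lemma inv {c : ℂ} (h : Bd F) (ht : Tendsto F lft (𝓝 c)) (hc : c ≠ 0) : Bd fun z => (F z)⁻¹ := by
  refine of_tendsto ?_ (ht.inv₀ hc)
  filter_upwards [h.1, ht.eventually_ne hc] with z a b using a.inv b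

@[fun_prop] lemma deriv (h : Bd F) : Bd (deriv F) := by
  obtain ⟨h1, M, h2⟩ := h
  refine ⟨h1.mono fun z hz => hz.deriv, M, ?_⟩
  obtain ⟨c, hc⟩ := eventually_lft.1 (h1.and h2)
  refine eventually_lft.2 ⟨c - 1, fun z hz => ?_⟩
  have key : ∀ w ∈ closedBall z 1, w.re ≤ c := fun w hw => by
    have h3 := (abs_re_le_norm (w - z)).trans (mem_closedBall_iff_norm.1 hw)
    rw [sub_re] at h3
    linarith [(abs_le.1 h3).2]
  have := norm_deriv_le_of_forall_mem_sphere_norm_le (c := z) (R := 1) (C := M) (f := F) one_pos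
    (DifferentiableOn.diffContOnCl (by
      rw [closure_ball z one_ne_zero]
      exact fun w hw => (hc w (key w hw)).1.differentiableAt.differentiableWithinAt))
    fun w hw => (hc w (key w (sphere_subset_closedBall hw))).2
  simpa using this

lemma tendsto_mul (h : Bd G) (ht : Tendsto F lft (𝓝 0)) :
    Tendsto (fun z => F z * G z) lft (𝓝 0) := by
  obtain ⟨-, M, h2⟩ := h
  exact ht.zero_mul_isBoundedUnder_le ⟨M, h2⟩

lemma tendsto_ev_mul (h : Bd G) (v0 : ℂ) :
    Tendsto (fun z => MP_bb1814_an.ev v0 z * G z) lft (𝓝 0) := h.tendsto_mul (tendsto_ev v0)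

lemma eq_zero (h : Bd G) {v0 c : ℂ} (e : ∀ᶠ z in lft, c = MP_bb1814_an.ev v0 z * G z) : c = 0 :=
  tendsto_nhds_unique_of_eventuallyEq tendsto_const_nhds (h.tendsto_ev_mul v0) e

end Bd

/-- The basic estimate along a horizontal ray. -/
lemma ray_bound {F : ℂ → ℂ} {κ A M c : ℝ} (hκ : 0 < κ)
    (h : ∀ w : ℂ, w.re ≤ c → DifferentiableAt ℂ F w ∧ ‖F w‖ ≤ M ∧ ‖deriv F w + κ * F w‖ ≤ A)
    {z : ℂ} (hz : z.re ≤ c) : ‖F z‖ ≤ A / κ := by
  have hs : ∀ s : ℝ, 0 ≤ s → (z - s).re ≤ c := fun s hs => by simp; linarith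
  have hE : ∀ s : ℝ, 0 ≤ s → HasDerivAt (fun s : ℝ => F (z - s) * exp (-(κ * s)) - F z)
      (-((deriv F (z - s) + κ * F (z - s)) * exp (-(κ * s)))) s := fun s h0 => by
    have h1 : HasDerivAt (fun t : ℂ => z - t) (-1) s := (hasDerivAt_id (s : ℂ)).const_sub z
    have h2 := HasDerivAt.comp (h₂ := F) (s : ℂ) (h _ (hs s h0)).1.hasDerivAt h1
    have h3 : HasDerivAt (fun t : ℂ => exp (-(κ * t))) (exp (-(κ * s)) * -(κ * 1)) s :=
      ((hasDerivAt_id (s : ℂ)).const_mul (κ : ℂ)).neg.cexp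
    have h4 := ((h2.mul h3).sub_const (F z)).comp_ofReal
    refine HasDerivAt.congr_deriv h4 ?_
    simp only [Function.comp]; ring
  have hB : ∀ s : ℝ, HasDerivAt (fun s : ℝ => A / κ * (1 - Real.exp (-(κ * s))))
      (A * Real.exp (-(κ * s))) s := fun s => by
    have := ((((hasDerivAt_id s).const_mul κ).neg.exp).const_sub 1).const_mul (A / κ)
    refine HasDerivAt.congr_deriv this ?_
    simp only [id, Pi.neg_apply]; field_simp
  have hn : ∀ s : ℝ, ‖exp (-(κ * s : ℂ))‖ = Real.exp (-(κ * s)) := fun s => by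
    simp [norm_exp]
  have hA : 0 ≤ A / κ := div_nonneg ((norm_nonneg _).trans (h z hz).2.2) hκ.le
  have key : ∀ T : ℝ, 0 ≤ T → ‖F z‖ ≤ A / κ + M * Real.exp (-(κ * T)) := fun T hT => by
    have h1 := image_norm_le_of_norm_deriv_right_le_deriv_boundary (a := 0) (b := T)
      (fun s hs => (hE s hs.1).continuousAt.continuousWithinAt)
      (fun s hs => (hE s hs.1).hasDerivWithinAt) (by simp) hB (fun s hs' => by
        rw [norm_neg, norm_mul, hn]
        exact mul_le_mul_of_nonneg_right (h _ (hs s hs'.1)).2.2 (Real.exp_pos _).le)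
      (right_mem_Icc.2 hT)
    have h2 : ‖F (z - T) * exp (-(κ * T))‖ ≤ M * Real.exp (-(κ * T)) := by
      rw [norm_mul, hn]
      exact mul_le_mul_of_nonneg_right (h _ (hs T hT)).2.1 (Real.exp_pos _).le
    have h3 := norm_sub_le (F (z - T) * exp (-(κ * T))) (F (z - T) * exp (-(κ * T)) - F z)
    rw [sub_sub_cancel] at h3
    have h4 := mul_nonneg hA (Real.exp_pos (-(κ * T))).le
    nlinarith
  have ht : Tendsto (fun T : ℝ => A / κ + M * Real.exp (-(κ * T))) atTop (𝓝 (A / κ + M * 0)) :=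
    ((Real.tendsto_exp_neg_atTop_nhds_zero.comp
      (tendsto_id.const_mul_atTop hκ)).const_mul M).const_add _
  simpa using ge_of_tendsto ht ((eventually_ge_atTop 0).mono key)

/-- A bounded solution of `F' + κ F = o(1)` tends to zero. -/
lemma Bd.tendsto_of_ode {F : ℂ → ℂ} {κ : ℝ} (hκ : 0 < κ) (h : Bd F)
    (ht : Tendsto (fun z => _root_.deriv F z + κ * F z) lft (𝓝 0)) : Tendsto F lft (𝓝 0) := by
  obtain ⟨h1, M, h2⟩ := h
  rw [NormedAddGroup.tendsto_nhds_zero] at ht ⊢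
  intro ε hε
  obtain ⟨c, hc⟩ := eventually_lft.1 (h1.and (h2.and (ht (κ * (ε / 2)) (by positivity))))
  refine eventually_lft.2 ⟨c, fun z hz => ?_⟩
  have := ray_bound (A := κ * (ε / 2)) hκ
    (fun w hw => ⟨(hc w hw).1.differentiableAt, (hc w hw).2.1, (hc w hw).2.2.le⟩) hz
  rw [mul_div_cancel_left₀ _ hκ.ne'] at this
  linarith

/-- A bounded solution of `F' + κ F = o(1) F + O(v)` is `O(v)`. -/
lemma Bd.small_of_ode {F A B : ℂ → ℂ} {κ : ℝ} {v0 : ℂ} (hv : v0 ≠ 0) (hκ : 0 < κ) (h : Bd F)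
    (hA : Tendsto A lft (𝓝 0)) (hB : Bd B)
    (e : ∀ᶠ z in lft, _root_.deriv F z + κ * F z = F z * A z + MP_bb1814_an.ev v0 z * B z) :
    ∃ G, Bd G ∧ ∀ᶠ z in lft, F z = MP_bb1814_an.ev v0 z * G z := by
  obtain ⟨h1, M, h2⟩ := h
  obtain ⟨-, K, h3⟩ := hB
  rw [NormedAddGroup.tendsto_nhds_zero] at hA
  refine ⟨fun z => F z / MP_bb1814_an.ev v0 z, ⟨h1.mono fun z hz =>
    hz.div ((differentiable_ev v0).analyticAt z) (ev_ne hv z), 2 * K / κ, ?_⟩,
    Eventually.of_forall fun z => by field_simp [ev_ne hv z]⟩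
  obtain ⟨c, hc⟩ := eventually_lft.1
    (h1.and (h2.and (h3.and (e.and (hA (κ / 2) (by positivity))))))
  refine eventually_lft.2 ⟨c, fun z hz => ?_⟩
  have hK : 0 ≤ K := (norm_nonneg _).trans (hc z hz).2.2.1
  set s : Set ℝ := (fun w => ‖F w‖) '' {w | w.re ≤ z.re} with hs
  have hb : BddAbove s := ⟨M, by rintro _ ⟨w, hw, rfl⟩; exact (hc w (le_trans hw hz)).2.1⟩
  have hz' : ‖F z‖ ∈ s := ⟨z, le_refl z.re, rfl⟩
  have hm : ∀ w : ℂ, w.re ≤ z.re → ‖F w‖ ≤ sSup s := fun w hw => le_csSup hb ⟨w, hw, rfl⟩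
  have hle : sSup s ≤ (sSup s * (κ / 2) + ‖MP_bb1814_an.ev v0 z‖ * K) / κ := by
    refine csSup_le ⟨_, hz'⟩ ?_
    rintro _ ⟨w, hw, rfl⟩
    refine ray_bound (M := M) (c := z.re) hκ (fun u hu => ?_) hw
    obtain ⟨a1, a2, a3, a4, a5⟩ := hc u (hu.trans hz)
    refine ⟨a1.differentiableAt, a2, ?_⟩
    rw [a4]
    refine (norm_add_le _ _).trans (add_le_add ?_ ?_)
    · rw [norm_mul]
      exact mul_le_mul (hm u hu) a5.le (norm_nonneg _) ((norm_nonneg _).trans (hm u hu))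
    · rw [norm_mul]
      refine mul_le_mul ?_ a3 (norm_nonneg _) (norm_nonneg _)
      rw [norm_ev, norm_ev]
      exact mul_le_mul_of_nonneg_left (Real.exp_le_exp.2 hu) (norm_nonneg _)
  have hpos : 0 < ‖MP_bb1814_an.ev v0 z‖ := norm_pos_iff.2 (ev_ne hv z)
  rw [norm_div, div_le_div_iff₀ hpos hκ]
  rw [le_div_iff₀ hκ] at hle
  have := mul_le_mul_of_nonneg_right (hm z le_rfl) hκ.le
  nlinarith

/-- Entire and bounded on every vertical strip. -/
@[fun_prop] def SB (F : ℂ → ℂ) : Prop :=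
  Differentiable ℂ F ∧ ∀ L : ℝ, ∃ M : ℝ, ∀ z : ℂ, |z.re| ≤ L → ‖F z‖ ≤ M

namespace SB

variable {F G : ℂ → ℂ}

@[fun_prop] lemma const (c : ℂ) : SB fun _ => c :=
  ⟨differentiable_const c, fun _ => ⟨‖c‖, fun _ _ => le_rfl⟩⟩

@[fun_prop] lemma add (h : SB F) (h' : SB G) : SB fun z => F z + G z := by
  refine ⟨h.1.add h'.1, fun L => ?_⟩
  obtain ⟨M, hM⟩ := h.2 L
  obtain ⟨N, hN⟩ := h'.2 L
  exact ⟨M + N, fun z hz => (norm_add_le _ _).trans (add_le_add (hM z hz) (hN z hz))⟩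

@[fun_prop] lemma mul (h : SB F) (h' : SB G) : SB fun z => F z * G z := by
  refine ⟨h.1.mul h'.1, fun L => ?_⟩
  obtain ⟨M, hM⟩ := h.2 L
  obtain ⟨N, hN⟩ := h'.2 L
  refine ⟨M * N, fun z hz => ?_⟩
  rw [norm_mul]
  exact mul_le_mul (hM z hz) (hN z hz) (norm_nonneg _) ((norm_nonneg _).trans (hM z hz))

@[fun_prop] lemma neg (h : SB F) : SB fun z => -F z := by
  simpa using (const (-1)).mul h

@[fun_prop] lemma sub (h : SB F) (h' : SB G) : SB fun z => F z - G z := by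
  simpa [sub_eq_add_neg] using h.add h'.neg

@[fun_prop] lemma ev (v0 : ℂ) : SB (ev v0) := by
  refine ⟨differentiable_ev v0, fun L => ⟨‖v0‖ * Real.exp L, fun z hz => ?_⟩⟩
  rw [norm_ev]
  exact mul_le_mul_of_nonneg_left (Real.exp_le_exp.2 (abs_le.1 hz).2) (norm_nonneg _)

lemma comp_neg (h : SB F) : SB fun z => F (-z) := by
  refine ⟨h.1.comp differentiable_neg, fun L => ?_⟩
  obtain ⟨M, hM⟩ := h.2 L
  exact ⟨M, fun z hz => hM _ (by simpa using hz)⟩

@[fun_prop] lemma deriv (h : SB F) : SB (deriv F) := by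
  refine ⟨fun z => (h.1.analyticAt z).deriv.differentiableAt, fun L => ?_⟩
  obtain ⟨M, hM⟩ := h.2 (L + 1)
  refine ⟨M, fun z hz => ?_⟩
  have := norm_deriv_le_of_forall_mem_sphere_norm_le (c := z) (R := 1) (C := M) (f := F) one_pos
    h.1.diffContOnCl fun w hw => hM w (by
      have h3 := (abs_re_le_norm (w - z)).trans (mem_sphere_iff_norm.1 hw).le
      rw [sub_re] at h3
      rw [abs_le] at h3 hz ⊢
      constructor <;> linarith [h3.1, h3.2, hz.1, hz.2])
  simpa using this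

/-- Liouville's theorem for functions bounded on both sides and on strips. -/
lemma exists_const (h : SB F) (h1 : Bd F) (h2 : Bd fun z => F (-z)) : ∃ c, ∀ z, F z = c := by
  obtain ⟨-, M1, h1⟩ := h1
  obtain ⟨-, M2, h2⟩ := h2
  obtain ⟨c1, h1⟩ := eventually_lft.1 h1
  obtain ⟨c2, h2⟩ := eventually_lft.1 h2
  obtain ⟨M, hM⟩ := h.2 (max |c1| |c2|)
  refine h.1.exists_const_forall_eq_of_bounded
    (isBounded_iff_forall_norm_le.2 ⟨max M (max M1 M2), ?_⟩)
  rintro _ ⟨z, rfl⟩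
  by_cases e1 : z.re ≤ c1
  · exact (h1 z e1).trans (le_max_of_le_right (le_max_left _ _))
  by_cases e2 : (-z).re ≤ c2
  · have := h2 _ e2
    simp only [neg_neg] at this
    exact this.trans (le_max_of_le_right (le_max_right _ _))
  refine (hM z ?_).trans (le_max_left _ _)
  simp only [neg_re, not_le] at e1 e2
  rw [abs_le]
  constructor
  · linarith [neg_abs_le c1, le_max_left |c1| |c2|]
  · linarith [neg_abs_le c2, le_max_right |c1| |c2|]

end SB

end Pool.Agent.Lib.MP_bb1814_an
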