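import Mathlib
import Pool.Agent.Lib.MP_bb1814_an.Basic
import Pool.Agent.Lib.MP_bb1814_an.ModelO

/-!
The two entire functions attached to a solution of the model equation.
-/

namespace Pool.Agent.Lib.MP_bb1814_an

open Filter Topology Set Metric Complex

/-- The first invariant. -/
noncomputable def jj1 (v0 : ℂ) (R S : ℂ → ℂ) (z : ℂ) : ℂ :=
  ev v0 z * (deriv R z - deriv S z) - S z ^ 2 + 2 / 3 * ev v0 z * R z

/-- The second invariant. -/
noncomputable def jj2 (v0 : ℂ) (R S : ℂ → ℂ) (z : ℂ) : ℂ :=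
  (deriv R z - deriv S z) - ev v0 z * R z ^ 2 + 2 / 3 * S z

lemma exists_entire (F : ℂ → ℂ) (h : ∀ z, ∃ g, AnalyticAt ℂ g z ∧ F =ᶠ[𝓝[≠] z] g) :
    ∃ J, Differentiable ℂ J ∧ ∀ z, ContinuousAt F z → J z = F z := by
  choose g hg he using h
  refine ⟨fun z => g z z, fun z => ?_, fun z hz => (eq_of_nhdsNE hz (hg z).continuousAt (he z)).symm⟩
  refine (hg z).differentiableAt.congr_of_eventuallyEq ?_
  have h1 : ∀ᶠ w in 𝓝[≠] z, g w w = g z w := by
    filter_upwards [eventually_nhdsNE_eventually_nhds_iff.2 (he z),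
      nhdsWithin_le_nhds (hg z).eventually_analyticAt] with w h2 h3
    exact eq_of_nhdsNE (hg w).continuousAt h3.continuousAt
      ((he w).symm.trans (nhdsWithin_le_nhds h2))
  rw [← nhdsNE_sup_pure z]
  exact eventually_sup.2 ⟨h1, rfl⟩

lemma exists_div_sq {N : ℂ → ℂ} {z d : ℂ} (hN : AnalyticAt ℂ N z) (h0 : N z = 0)
    (h1 : HasDerivAt N d z) (hd : d = 0) :
    ∃ g, AnalyticAt ℂ g z ∧ ∀ᶠ x in 𝓝 z, N x = (x - z) ^ 2 * g x := by
  have : ((2 : ℕ) : ℕ∞) ≤ analyticOrderAt N z := by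
    rw [natCast_le_analyticOrderAt_iff_iteratedDeriv_eq_zero hN]
    intro i hi
    interval_cases i
    · simpa using h0
    · simpa [hd] using h1.deriv
  simpa using (natCast_le_analyticOrderAt hN).1 this

lemma pole_form {f : ℂ → ℂ} {z : ℂ} (hf : Reg f) (hz : ¬AnalyticAt ℂ f z) :
    ∃ (m : ℕ) (φ : ℂ → ℂ), AnalyticAt ℂ φ z ∧ φ z ≠ 0 ∧ ∀ᶠ x in 𝓝[≠] z,
      AnalyticAt ℂ f x ∧ f x = φ x / (x - z) ^ (m + 1) ∧
        deriv f x = ((x - z) * deriv φ x - (m + 1) * φ x) / (x - z) ^ (m + 2) := by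
  have h1 : meromorphicOrderAt f z < 0 := lt_of_not_ge fun h => hz (hf.an z h)
  obtain ⟨n, hn⟩ := WithTop.ne_top_iff_exists.1 h1.ne_top
  have h2 : n < 0 := by rw [← hn] at h1; exact_mod_cast h1
  obtain ⟨m, rfl⟩ : ∃ m : ℕ, n = -((m + 1 : ℕ) : ℤ) := ⟨(-n - 1).toNat, by omega⟩
  obtain ⟨φ, hφ, h0, he⟩ := (meromorphicOrderAt_eq_int_iff (hf.mero z)).1 hn.symm
  have he' : f =ᶠ[𝓝[≠] z] fun x => φ x / (x - z) ^ (m + 1) := he.mono fun x hx => by
    rw [hx, zpow_neg, zpow_natCast, smul_eq_mul]; ring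
  refine ⟨m, φ, hφ, h0, ?_⟩
  filter_upwards [(hf.mero z).eventually_analyticAt, he', he'.nhdsNE_deriv,
    nhdsWithin_le_nhds hφ.eventually_analyticAt, self_mem_nhdsWithin] with x a1 a2 a3 a4 hx
  have hx' : x - z ≠ 0 := sub_ne_zero.2 hx
  refine ⟨a1, a2, ?_⟩
  have := a4.differentiableAt.hasDerivAt.div (((hasDerivAt_id x).sub_const z).pow (m + 1))
    (pow_ne_zero _ hx')
  rw [a3]
  refine (HasDerivAt.deriv this).trans ?_
  simp only [id, Pi.pow_apply, Nat.add_sub_cancel]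
  push_cast
  field_simp
  ring

lemma pole_alg {f0 g0 f1 g1 v : ℂ} (hg : g0 ≠ 0) (hv : v ≠ 0)
    (e1 : -(f0 - g0) = v * f0 ^ 2) (e2 : -(v * (f0 - g0)) = g0 ^ 2)
    (e3 : -(f1 - g1) = v * f0 ^ 2 + 3 * v * f0 * f1)
    (e4 : -(v * (f0 - g0)) - v * (f1 - g1) = 3 * g0 * g1) :
    -(v * (f0 - g0)) - 2 * g0 * g1 + 2 / 3 * v * f0 = 0 ∧
      -(v * f0 ^ 2) - 2 * v * f0 * f1 + 2 / 3 * g0 = 0 := by
  constructor
  · grind
  · grind

variable {C : Cub} {R S : ℂ → ℂ} {v0 : ℂ}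

/-- All poles of a model solution are simple. -/
lemma simple_pole (hv : v0 ≠ 0) (hP : Pair C R S (ev v0) fun z => (ev v0 z)⁻¹) {z : ℂ}
    (hz : ¬AnalyticAt ℂ R z) :
    ∃ φ ψ : ℂ → ℂ, AnalyticAt ℂ φ z ∧ φ z ≠ 0 ∧ AnalyticAt ℂ ψ z ∧ ψ z ≠ 0 ∧ ∀ᶠ x in 𝓝[≠] z,
      R x = φ x / (x - z) ∧ deriv R x = ((x - z) * deriv φ x - φ x) / (x - z) ^ 2 ∧
      S x = ψ x / (x - z) ∧ deriv S x = ((x - z) * deriv ψ x - ψ x) / (x - z) ^ 2 ∧
      ((x - z) * deriv φ x - φ x) * (φ x - ψ x) =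
        ev v0 x * (φ x ^ 3 + C.al * (x - z) ^ 2 * φ x + C.be * (x - z) ^ 3) ∧
      ev v0 x * (((x - z) * deriv ψ x - ψ x) * (φ x - ψ x)) =
        ψ x ^ 3 + C.al * (x - z) ^ 2 * ψ x + C.be * (x - z) ^ 3 := by
  obtain ⟨m, φ, hφ, hφ0, h1⟩ := pole_form hP.rf hz
  obtain ⟨n, ψ, hψ, hψ0, h2⟩ := pole_form hP.rg fun h => hz ((hP.pole z).2 h)
  have key : ∀ᶠ x in 𝓝[≠] z,
      ((x - z) * deriv φ x - (m + 1) * φ x) * ((x - z) ^ n * φ x - (x - z) ^ m * ψ x) *
        (x - z) ^ m = ev v0 x * (φ x ^ 3 + C.al * (x - z) ^ (2 * m + 2) * φ x +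
          C.be * (x - z) ^ (3 * m + 3)) * (x - z) ^ n ∧
      ev v0 x * (((x - z) * deriv ψ x - (n + 1) * ψ x) *
        ((x - z) ^ n * φ x - (x - z) ^ m * ψ x)) * (x - z) ^ n =
          (ψ x ^ 3 + C.al * (x - z) ^ (2 * n + 2) * ψ x + C.be * (x - z) ^ (3 * n + 3)) *
            (x - z) ^ m := by
    filter_upwards [h1, h2, self_mem_nhdsWithin] with x ⟨a1, a2, a3⟩ ⟨_, a5, a6⟩ hx
    have hx' : x - z ≠ 0 := sub_ne_zero.2 hx
    have e1 := hP.odef x a1
    have e2 := hP.odeg x a1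
    have hv' := ev_ne hv x
    rw [C.P_eq, a2, a3, a5] at e1
    rw [C.P_eq, a2, a6, a5] at e2
    generalize x - z = t at *
    constructor
    · field_simp at e1
      apply mul_left_cancel₀ (pow_ne_zero (m + 3) hx')
      linear_combination e1
    · field_simp at e2
      apply mul_left_cancel₀ (pow_ne_zero (n + 3) hx')
      linear_combination e2
  have c1 := hφ.continuousAt
  have c2 := hφ.deriv.continuousAt
  have c3 := hψ.continuousAt
  have c4 := hψ.deriv.continuousAt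
  have c5 : ContinuousAt (ev v0) z := (differentiable_ev v0).continuous.continuousAt
  have hv' := ev_ne hv z
  have aux : ∀ F G : ℂ → ℂ, ContinuousAt F z → ContinuousAt G z →
      (∀ᶠ x in 𝓝[≠] z, (x - z) * F x = G x) → G z = 0 := fun F G hF hG h => by
    have := eq_of_nhdsNE (F := fun x => (x - z) * F x) (by fun_prop) hG h
    simpa using this.symm
  have hmn : m = n := by
    rcases lt_trichotomy m n with h | h | h
    · obtain ⟨k, rfl⟩ := Nat.exists_eq_add_of_lt h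
      have := aux (fun x => ev v0 x * (((x - z) * deriv ψ x - ((m + k + 1 : ℕ) + 1) * ψ x) *
        ((x - z) ^ (m + k + 1) * φ x - (x - z) ^ m * ψ x)) * (x - z) ^ k)
        (fun x => ψ x ^ 3 + C.al * (x - z) ^ (2 * (m + k + 1) + 2) * ψ x +
          C.be * (x - z) ^ (3 * (m + k + 1) + 3)) (by fun_prop) (by fun_prop) (by
          filter_upwards [key, self_mem_nhdsWithin] with x a hx
          apply mul_left_cancel₀ (pow_ne_zero m (sub_ne_zero.2 hx))
          linear_combination a.2)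
      simp [hψ0] at this
    · exact h
    · obtain ⟨k, rfl⟩ := Nat.exists_eq_add_of_lt h
      have := aux (fun x => ((x - z) * deriv φ x - ((n + k + 1 : ℕ) + 1) * φ x) *
        ((x - z) ^ n * φ x - (x - z) ^ (n + k + 1) * ψ x) * (x - z) ^ k)
        (fun x => ev v0 x * (φ x ^ 3 + C.al * (x - z) ^ (2 * (n + k + 1) + 2) * φ x +
          C.be * (x - z) ^ (3 * (n + k + 1) + 3))) (by fun_prop) (by fun_prop) (by
          filter_upwards [key, self_mem_nhdsWithin] with x a hx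
          apply mul_left_cancel₀ (pow_ne_zero n (sub_ne_zero.2 hx))
          linear_combination a.1)
      simp [hφ0, hv'] at this
  subst hmn
  have hm : m = 0 := by
    by_contra h
    obtain ⟨k, rfl⟩ := Nat.exists_eq_add_one_of_ne_zero h
    have := aux (fun x => ((x - z) * deriv φ x - ((k + 1 : ℕ) + 1) * φ x) *
      ((x - z) ^ k * φ x - (x - z) ^ k * ψ x))
      (fun x => ev v0 x * (φ x ^ 3 + C.al * (x - z) ^ (2 * (k + 1) + 2) * φ x +
        C.be * (x - z) ^ (3 * (k + 1) + 3))) (by fun_prop) (by fun_prop) (by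
        filter_upwards [key, self_mem_nhdsWithin] with x a hx
        apply mul_left_cancel₀ (pow_ne_zero (k + 1) (sub_ne_zero.2 hx))
        linear_combination a.1)
    simp [hφ0, hv'] at this
  subst hm
  refine ⟨φ, ψ, hφ, hφ0, hψ, hψ0, ?_⟩
  filter_upwards [h1, h2, key] with x ⟨_, a2, a3⟩ ⟨_, a5, a6⟩ ⟨a7, a8⟩
  refine ⟨by simpa using a2, by simpa using a3, by simpa using a5, by simpa using a6, ?_, ?_⟩
  · simpa using a7
  · simpa using a8

/-- The invariants have removable singularities at the poles. -/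
lemma jj_removable (hv : v0 ≠ 0) (hP : Pair C R S (ev v0) fun z => (ev v0 z)⁻¹) (z : ℂ) :
    (∃ g, AnalyticAt ℂ g z ∧ jj1 v0 R S =ᶠ[𝓝[≠] z] g) ∧
      ∃ g, AnalyticAt ℂ g z ∧ jj2 v0 R S =ᶠ[𝓝[≠] z] g := by
  have av : AnalyticAt ℂ (ev v0) z := (differentiable_ev v0).analyticAt z
  by_cases hz : AnalyticAt ℂ R z
  · have h1 := (hP.pole z).1 hz
    have h2 := hz.deriv
    have h3 := h1.deriv
    exact ⟨⟨_, by unfold jj1; fun_prop, EventuallyEq.rfl⟩,
      ⟨_, by unfold jj2; fun_prop, EventuallyEq.rfl⟩⟩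
  obtain ⟨φ, ψ, hφ, hφ0, hψ, hψ0, h⟩ := simple_pole hv hP hz
  have hφ' := hφ.deriv
  have hψ' := hψ.deriv
  have hv' := ev_ne hv z
  have d0 : HasDerivAt (fun x : ℂ => x - z) 1 z := (hasDerivAt_id z).sub_const z
  have d1 := hφ.differentiableAt.hasDerivAt
  have d2 := hφ'.differentiableAt.hasDerivAt
  have d3 := hψ.differentiableAt.hasDerivAt
  have d4 := hψ'.differentiableAt.hasDerivAt
  have d5 := hasDerivAt_ev v0 z
  have E1 : (fun x => ((x - z) * deriv φ x - φ x) * (φ x - ψ x)) =ᶠ[𝓝 z] fun x =>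
      ev v0 x * (φ x ^ 3 + C.al * (x - z) ^ 2 * φ x + C.be * (x - z) ^ 3) :=
    (AnalyticAt.frequently_eq_iff_eventually_eq (by fun_prop) (by fun_prop)).1
      (h.mono fun x hx => hx.2.2.2.2.1).frequently
  have E2 : (fun x => ev v0 x * (((x - z) * deriv ψ x - ψ x) * (φ x - ψ x))) =ᶠ[𝓝 z] fun x =>
      ψ x ^ 3 + C.al * (x - z) ^ 2 * ψ x + C.be * (x - z) ^ 3 :=
    (AnalyticAt.frequently_eq_iff_eventually_eq (by fun_prop) (by fun_prop)).1
      (h.mono fun x hx => hx.2.2.2.2.2).frequently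
  have e1 := E1.self_of_nhds
  have e2 := E2.self_of_nhds
  have e3 := (((d0.fun_mul d2).fun_sub d1).fun_mul (d1.fun_sub d3)).unique
    ((d5.fun_mul (((d1.fun_pow 3).fun_add (((d0.fun_pow 2).const_mul C.al).fun_mul d1)).fun_add
      ((d0.fun_pow 3).const_mul C.be))).congr_of_eventuallyEq E1)
  have e4 := (d5.fun_mul (((d0.fun_mul d4).fun_sub d3).fun_mul (d1.fun_sub d3))).unique
    ((((d3.fun_pow 3).fun_add (((d0.fun_pow 2).const_mul C.al).fun_mul d3)).fun_add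
      ((d0.fun_pow 3).const_mul C.be)).congr_of_eventuallyEq E2)
  simp only [sub_self] at e1 e2 e3 e4
  push_cast at e3 e4
  have f1 : -(φ z - ψ z) = ev v0 z * φ z ^ 2 :=
    mul_left_cancel₀ hφ0 (by linear_combination e1)
  have f2 : -(ev v0 z * (φ z - ψ z)) = ψ z ^ 2 :=
    mul_left_cancel₀ hψ0 (by linear_combination e2)
  obtain ⟨g1, g2⟩ := pole_alg (f1 := deriv φ z) (g1 := deriv ψ z) hψ0 hv' f1 f2
    (mul_left_cancel₀ hφ0 (by linear_combination e3))
    (mul_left_cancel₀ hψ0 (by linear_combination e4))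
  constructor
  · obtain ⟨g, hg, he⟩ := exists_div_sq (z := z) (N := fun x => ev v0 x *
      (((x - z) * deriv φ x - φ x) - ((x - z) * deriv ψ x - ψ x)) - ψ x ^ 2 +
        2 / 3 * (ev v0 x * ((x - z) * φ x))) (by fun_prop) (by linear_combination f2)
      (((d5.fun_mul (((d0.fun_mul d2).fun_sub d1).fun_sub ((d0.fun_mul d4).fun_sub d3))).fun_sub
        (d3.fun_pow 2)).fun_add ((d5.fun_mul (d0.fun_mul d1)).const_mul (2 / 3)))
      (by push_cast; linear_combination g1)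
    refine ⟨g, hg, ?_⟩
    filter_upwards [h, nhdsWithin_le_nhds he, self_mem_nhdsWithin] with x a b hx
    have hx' : x - z ≠ 0 := sub_ne_zero.2 hx
    rw [jj1, a.1, a.2.1, a.2.2.1, a.2.2.2.1]
    field_simp
    linear_combination 3 * b
  · obtain ⟨g, hg, he⟩ := exists_div_sq (z := z) (N := fun x =>
      (((x - z) * deriv φ x - φ x) - ((x - z) * deriv ψ x - ψ x)) - ev v0 x * φ x ^ 2 +
        2 / 3 * ((x - z) * ψ x)) (by fun_prop) (by linear_combination f1)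
      (((((d0.fun_mul d2).fun_sub d1).fun_sub ((d0.fun_mul d4).fun_sub d3)).fun_sub
        (d5.fun_mul (d1.fun_pow 2))).fun_add ((d0.fun_mul d3).const_mul (2 / 3)))
      (by push_cast; linear_combination g2)
    refine ⟨g, hg, ?_⟩
    filter_upwards [h, nhdsWithin_le_nhds he, self_mem_nhdsWithin] with x a b hx
    have hx' : x - z ≠ 0 := sub_ne_zero.2 hx
    rw [jj2, a.1, a.2.1, a.2.2.1, a.2.2.2.1]
    field_simp
    linear_combination 3 * b

/-- The entire extensions of the invariants. -/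
lemma exists_JJ (hv : v0 ≠ 0) (hP : Pair C R S (ev v0) fun z => (ev v0 z)⁻¹) :
    ∃ J1 J2 : ℂ → ℂ, Differentiable ℂ J1 ∧ Differentiable ℂ J2 ∧
      ∀ z, AnalyticAt ℂ R z → J1 z = jj1 v0 R S z ∧ J2 z = jj2 v0 R S z := by
  obtain ⟨J1, h1, h2⟩ := exists_entire _ fun z => (jj_removable hv hP z).1
  obtain ⟨J2, h3, h4⟩ := exists_entire _ fun z => (jj_removable hv hP z).2
  refine ⟨J1, J2, h1, h3, fun z hz => ?_⟩
  have a1 := hz.continuousAt
  have a2 := ((hP.pole z).1 hz).continuousAt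
  have a3 := hz.deriv.continuousAt
  have a4 := ((hP.pole z).1 hz).deriv.continuousAt
  have a5 : ContinuousAt (ev v0) z := (differentiable_ev v0).continuous.continuousAt
  exact ⟨h2 z (by unfold jj1; fun_prop), h4 z (by unfold jj2; fun_prop)⟩

end Pool.Agent.Lib.MP_bb1814_an
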