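import Mathlib
import Pool.Agent.Lib.MP_bb1814_an.Basic
import Pool.Agent.Lib.MP_bb1814_an.ModelAlg
import Pool.Agent.Lib.MP_bb1814_an.ModelO

/-!
Expansions of a model solution far to the left.
-/

namespace Pool.Agent.Lib.MP_bb1814_an

open Filter Topology Set Metric Complex

/-- The reduced system on the left: `v R = -1 + v Γ`. -/
structure Left (C : Cub) (v0 : ℂ) (S Γ J1 J2 : ℂ → ℂ) (a : ℂ) : Prop where
  hv : v0 ≠ 0
  ha : C.P a = 0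
  bS : Bd S
  bG : Bd Γ
  tS : Tendsto S lft (𝓝 a)
  odeS : ∀ᶠ z in lft, (-1 + ev v0 z * (Γ z - S z)) * deriv S z = S z ^ 3 + C.al * S z + C.be
  odeG : ∀ᶠ z in lft, (-1 + ev v0 z * (Γ z - S z)) * (1 + ev v0 z * deriv Γ z) =
    (-1 + ev v0 z * Γ z) ^ 3 + C.al * ev v0 z ^ 2 * (-1 + ev v0 z * Γ z) + C.be * ev v0 z ^ 3
  j1 : ∀ᶠ z in lft, J1 z = 1 / 3 - S z ^ 2 + ev v0 z * (deriv Γ z + 2 / 3 * Γ z - deriv S z)
  j2 : ∀ᶠ z in lft, J2 z = deriv Γ z + 2 * Γ z - deriv S z + 2 / 3 * S z - ev v0 z * Γ z ^ 2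

/-- Second order expansion on the left. -/
def Exp (v0 : ℂ) (S Γ F : ℂ → ℂ) (T : Tri) : Prop :=
  ∃ B, Bd B ∧ ∀ᶠ z in lft,
    F z = T.p (S z) + ev v0 z * (T.q (S z) + T.r (S z) * Γ z) + ev v0 z ^ 2 * B z

/-- First order expansion on the right. -/
def RExp (w0 : ℂ) (S F φ : ℂ → ℂ) : Prop :=
  ∃ B, Bd B ∧ ∀ᶠ z in lft, ev w0 z * F (-z) = φ (S z) + ev w0 z * B z

lemma diff_of_hasDerivAt {p p' : ℂ → ℂ} (h : ∀ t, HasDerivAt p (p' t) t) :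
    Differentiable ℂ p ∧ Differentiable ℂ p' := by
  have h1 : Differentiable ℂ p := fun t => (h t).differentiableAt
  have h2 : p' = deriv p := funext fun t => (h t).deriv.symm
  exact ⟨h1, h2 ▸ fun t => (h1.analyticAt t).deriv.differentiableAt⟩

@[fun_prop] lemma Bd.pl {F : ℂ → ℂ} (h : Bd F) (c0 c1 c2 c3 c4 c5 c6 c7 c8 c9 c10 : ℂ) :
    Bd fun z => pl c0 c1 c2 c3 c4 c5 c6 c7 c8 c9 c10 (F z) :=
  Bd.comp (diff_of_hasDerivAt (hasDerivAt_pl _ _ _ _ _ _ _ _ _ _ _)).1 h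

lemma Bd.gen {p S : ℂ → ℂ} (hp : Differentiable ℂ p) (h : Bd S) :
    ∃ u, Bd u ∧ ∀ z, u z = p (S z) := ⟨_, Bd.comp hp h, fun _ => rfl⟩

namespace Left

variable {C : Cub} {v0 a : ℂ} {S Γ J1 J2 : ℂ → ℂ}

lemma exists_inv (h : Left C v0 S Γ J1 J2 a) :
    ∃ Y, Bd Y ∧ ∀ᶠ z in lft, (-1 + ev v0 z * (Γ z - S z)) * Y z = 1 := by
  have b1 := h.bS
  have b2 := h.bG
  have ht : Tendsto (fun z => -1 + ev v0 z * (Γ z - S z)) lft (𝓝 (-1)) := by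
    simpa using ((b2.sub b1).tendsto_ev_mul v0).const_add (-1)
  have hne : (-1 : ℂ) ≠ 0 := by norm_num
  exact ⟨_, Bd.inv (by fun_prop) ht hne, (ht.eventually_ne hne).mono fun z hz => mul_inv_cancel₀ hz⟩

lemma derS (h : Left C v0 S Γ J1 J2 a) : ∃ B, Bd B ∧ ∀ᶠ z in lft,
    deriv S z = -(S z ^ 3 + C.al * S z + C.be) -
      ev v0 z * ((S z ^ 3 + C.al * S z + C.be) * (Γ z - S z)) + ev v0 z ^ 2 * B z := by
  obtain ⟨Y, hY, e⟩ := h.exists_inv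
  have b1 := h.bS
  have b2 := h.bG
  refine ⟨fun z => (S z ^ 3 + C.al * S z + C.be) * (Γ z - S z) ^ 2 * Y z, by fun_prop, ?_⟩
  filter_upwards [e, h.odeS] with z e1 e2
  linear_combination Y z * e2 - (deriv S z + (S z ^ 3 + C.al * S z + C.be) *
    (1 + ev v0 z * (Γ z - S z))) * e1

lemma derG (h : Left C v0 S Γ J1 J2 a) : ∃ B, Bd B ∧ ∀ᶠ z in lft,
    deriv Γ z = -2 * Γ z - S z + ev v0 z * (Γ z ^ 2 + Γ z * S z + S z ^ 2 + C.al) +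
      ev v0 z ^ 2 * B z := by
  obtain ⟨Y, hY, e⟩ := h.exists_inv
  have b1 := h.bS
  have b2 := h.bG
  refine ⟨fun z => (Γ z ^ 3 + C.al * Γ z + C.be -
    (Γ z - S z) * (Γ z ^ 2 + Γ z * S z + S z ^ 2 + C.al)) * Y z, by fun_prop, ?_⟩
  filter_upwards [e, h.odeG] with z e1 e2
  apply mul_left_cancel₀ (ev_ne h.hv z)
  linear_combination Y z * e2 - ev v0 z * (deriv Γ z + 2 * Γ z + S z -
    ev v0 z * (Γ z ^ 2 + Γ z * S z + S z ^ 2 + C.al)) * e1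

lemma expA (h : Left C v0 S Γ J1 J2 a) :
    Exp v0 S Γ (fun z => 1 / 3 - J1 z) (TA0 C.al C.be) := by
  obtain ⟨B1, b3, e1⟩ := h.derS
  obtain ⟨B2, b4, e2⟩ := h.derG
  have b1 := h.bS
  have b2 := h.bG
  refine ⟨fun z => -(Γ z ^ 2 + Γ z * S z + S z ^ 2 + C.al) - ev v0 z * B2 z -
    (S z ^ 3 + C.al * S z + C.be) * (Γ z - S z) + ev v0 z * B1 z, by fun_prop, ?_⟩
  filter_upwards [e1, e2, h.j1] with z e1 e2 e3
  obtain ⟨t1, t2, t3⟩ := TA0_eq C.al C.be (S z)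
  rw [t1, t2, t3, e3, e1, e2]
  ring

lemma expB (h : Left C v0 S Γ J1 J2 a) :
    Exp v0 S Γ (fun z => J2 z - C.be) (TB0 C.al C.be) := by
  obtain ⟨B1, b3, e1⟩ := h.derS
  obtain ⟨B2, b4, e2⟩ := h.derG
  refine ⟨fun z => B2 z - B1 z, by fun_prop, ?_⟩
  filter_upwards [e1, e2, h.j2] with z e1 e2 e3
  obtain ⟨t1, t2, t3⟩ := TB0_eq C.al C.be (S z)
  rw [t1, t2, t3, e3, e1, e2]
  ring

lemma step (h : Left C v0 S Γ J1 J2 a) {F : ℂ → ℂ} {T T' : Tri} (hF : Exp v0 S Γ F T)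
    (hT : Tri.Step C.al C.be T T') : Exp v0 S Γ (deriv F) T' := by
  obtain ⟨B1, b3, e1⟩ := h.derS
  obtain ⟨B2, b4, e2⟩ := h.derG
  have b1 := h.bS
  have b2 := h.bG
  obtain ⟨B, b5, e3⟩ := hF
  obtain ⟨p', q', r', d1, d2, d3, e4⟩ := hT
  obtain ⟨u1, b6, hu1⟩ := Bd.gen (diff_of_hasDerivAt d1).2 b1
  obtain ⟨u2, b7, hu2⟩ := Bd.gen (diff_of_hasDerivAt d2).2 b1
  obtain ⟨u3, b8, hu3⟩ := Bd.gen (diff_of_hasDerivAt d3).2 b1
  obtain ⟨u4, b9, hu4⟩ := Bd.gen (diff_of_hasDerivAt d3).1 b1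
  refine ⟨fun z => u1 z * B1 z + (u2 z + u3 z * Γ z) *
    (-((S z ^ 3 + C.al * S z + C.be) * (Γ z - S z)) + ev v0 z * B1 z) +
    u4 z * (Γ z ^ 2 + Γ z * S z + S z ^ 2 + C.al + ev v0 z * B2 z) + 2 * B z + deriv B z,
    by fun_prop, ?_⟩
  filter_upwards [e1, e2, deriv_lft e3, b1.hd, b2.hd, b5.hd] with z e1 e2 e3 a1 a2 a3
  have a4 := hasDerivAt_ev v0 z
  have := ((((d1 _).comp z a1).fun_add (a4.fun_mul (((d2 _).comp z a1).fun_add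
    (((d3 _).comp z a1).fun_mul a2)))).fun_add ((a4.fun_pow 2).fun_mul a3)).deriv
  obtain ⟨t1, t2, t3⟩ := e4 (S z)
  rw [e3, hu1, hu2, hu3, hu4, t1, t2, t3]
  refine this.trans ?_
  rw [e1, e2]
  simp only [Function.comp]
  push_cast
  ring

lemma rexpA (h : Left C v0 S Γ J1 J2 a) {F : ℂ → ℂ} (hF : ∀ z, J2 z = ev v0 z * F (-z)) :
    RExp v0 S (fun z => 1 / 3 - F z) (RA0 C.al C.be) := by
  obtain ⟨B, b3, e⟩ := h.expB
  have b1 := h.bS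
  have b2 := h.bG
  refine ⟨fun z => 1 / 3 - ((TB0 C.al C.be).q (S z) + (TB0 C.al C.be).r (S z) * Γ z) -
    ev v0 z * B z, by simp only [TB0]; fun_prop, ?_⟩
  filter_upwards [e] with z e
  rw [(TB0_eq C.al C.be (S z)).1, hF] at e
  rw [RA0_eq]
  linear_combination -e

lemma rexpB (h : Left C v0 S Γ J1 J2 a) {F : ℂ → ℂ} (hF : ∀ z, J1 z = ev v0 z * F (-z)) :
    RExp v0 S (fun z => F z - C.be) (RB0 C.al C.be) := by
  have b1 := h.bS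
  have b2 := h.bG
  refine ⟨fun z => deriv Γ z + 2 / 3 * Γ z - deriv S z - C.be, by fun_prop, ?_⟩
  filter_upwards [h.j1] with z e
  rw [hF] at e
  rw [RB0_eq]
  linear_combination e

lemma rstep (h : Left C v0 S Γ J1 J2 a) {F φ φ' : ℂ → ℂ} (hd : Differentiable ℂ F)
    (hF : RExp v0 S F φ) (hT : RStep C.al C.be φ φ') : RExp v0 S (deriv F) φ' := by
  obtain ⟨B1, b3, e1⟩ := h.derS
  have b1 := h.bS
  have b2 := h.bG
  obtain ⟨B, b5, e3⟩ := hF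
  obtain ⟨d, d1, e4⟩ := hT
  obtain ⟨u, b6, hu⟩ := Bd.gen (diff_of_hasDerivAt d1).2 b1
  refine ⟨fun z => u z * ((S z ^ 3 + C.al * S z + C.be) * (Γ z - S z) - ev v0 z * B1 z) -
    deriv B z, by fun_prop, ?_⟩
  filter_upwards [e1, e3, deriv_lft e3, b1.hd, b5.hd] with z e1 e2 e3 a1 a3
  have a4 := hasDerivAt_ev v0 z
  have a5 := (a4.fun_mul ((hd (-z)).hasDerivAt.comp z (hasDerivAt_neg z))).deriv
  have a6 := (((d1 _).comp z a1).fun_add (a4.fun_mul a3)).deriv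
  have a7 := a5.symm.trans (e3.trans a6)
  rw [e1] at a7
  simp only [Function.comp] at a7
  rw [e4, hu]
  linear_combination e2 - a7

end Left

end Pool.Agent.Lib.MP_bb1814_an
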