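import Mathlib
import Pool.Agent.Lib.MP_bb1814_an.ModelJ
import Pool.Agent.Lib.MP_bb1814_an.ModelL

/-!
The two-sided system and the rate of convergence far to the left.
-/

namespace Pool.Agent.Lib.MP_bb1814_an

open Filter Topology Set Metric Complex

variable {C : Cub} {v0 w0 a a' : ℂ} {R S Γ S' Γ' J1 J2 K1 K2 : ℂ → ℂ}

lemma exists_left (hv : v0 ≠ 0) (hP : Pair C R S (ev v0) fun z => (ev v0 z)⁻¹) (ha : C.P a = 0)
    (hA : ∀ᶠ z in lft, AnalyticAt ℂ R z) (hS : Tendsto S lft (𝓝 a))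
    (hZ : Tendsto (fun z => ev v0 z * R z + 1) lft (𝓝 0))
    (hJ : ∀ z, AnalyticAt ℂ R z → J1 z = jj1 v0 R S z ∧ J2 z = jj2 v0 R S z) :
    ∃ Γ, Left C v0 S Γ J1 J2 a := by
  have bS : Bd S := Bd.of_tendsto (hA.mono fun z hz => (hP.pole z).1 hz) hS
  obtain ⟨Z, hZe⟩ : ∃ Z : ℂ → ℂ, Z = fun z => ev v0 z * R z + 1 := ⟨_, rfl⟩
  have bZ : Bd Z := hZe ▸ Bd.of_tendsto (hA.mono fun z hz =>
    (((differentiable_ev v0).analyticAt z).mul hz).add analyticAt_const) hZ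
  rw [← hZe] at hZ
  have dZ : ∀ᶠ z in lft, deriv Z z = ev v0 z * R z + ev v0 z * deriv R z := hA.mono fun z hz => by
    rw [hZe]
    exact (((hasDerivAt_ev v0 z).fun_mul hz.differentiableAt.hasDerivAt).add_const 1).deriv
  have ht : Tendsto (fun z => Z z - 1 - ev v0 z * S z) lft (𝓝 (-1)) := by
    simpa using (hZ.sub_const 1).sub (bS.tendsto_ev_mul v0)
  have hne : (-1 : ℂ) ≠ 0 := by norm_num
  obtain ⟨Y, bY, hY⟩ : ∃ Y, Bd Y ∧ ∀ᶠ z in lft, (Z z - 1 - ev v0 z * S z) * Y z = 1 :=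
    ⟨_, Bd.inv (by fun_prop) ht hne, (ht.eventually_ne hne).mono fun z hz => mul_inv_cancel₀ hz⟩
  obtain ⟨Γ, bG, hG⟩ := bZ.small_of_ode (κ := 1) hv one_pos
    (A := fun z => Z z * ((Z z - 1) * Y z))
    (B := fun z => (-(2 * Z z - 1) * S z + C.al * ev v0 z * (Z z - 1) + C.be * ev v0 z ^ 2) * Y z)
    (Bd.tendsto_mul (by fun_prop) hZ) (by fun_prop) (by
      filter_upwards [hA, dZ, hY] with z e1 e2 e3
      have e4 := hP.odef z e1
      have e5 : Z z = ev v0 z * R z + 1 := by rw [hZe]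
      rw [C.P_eq] at e4
      rw [e5] at e3
      rw [e2, e5]
      push_cast
      linear_combination (ev v0 z ^ 2 * Y z) * e4 -
        (2 * ev v0 z * R z + 1 + ev v0 z * deriv R z) * e3)
  have h1 : ∀ᶠ z in lft, ev v0 z * R z = -1 + ev v0 z * Γ z ∧
      ev v0 z * deriv R z = 1 + ev v0 z * deriv Γ z := by
    filter_upwards [hG, deriv_lft hG, dZ, bG.hd] with z e1 e2 e3 e4
    have e5 : Z z = ev v0 z * R z + 1 := by rw [hZe]
    rw [((hasDerivAt_ev v0 z).fun_mul e4).deriv] at e2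
    exact ⟨by linear_combination e1 - e5, by linear_combination e2 - e3 - e1 + e5⟩
  refine ⟨Γ, hv, ha, bS, bG, hS, ?_, ?_, ?_, ?_⟩
  · filter_upwards [hA, h1] with z e1 e2
    have e3 := hP.odeg z e1
    have e4 := ev_ne hv z
    rw [C.P_eq] at e3
    field_simp at e3
    linear_combination e3 - deriv S z * e2.1
  · filter_upwards [hA, h1] with z e1 e2
    have e3 := hP.odef z e1
    rw [C.P_eq] at e3
    rw [← e2.2, mul_sub, ← add_sub_assoc, ← e2.1]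
    linear_combination ev v0 z ^ 2 * e3
  · filter_upwards [hA, h1] with z e1 e2
    rw [(hJ z e1).1, jj1]
    linear_combination e2.2 + 2 / 3 * e2.1
  · filter_upwards [hA, h1] with z e1 e2
    rw [(hJ z e1).2, jj2]
    apply mul_left_cancel₀ (ev_ne hv z)
    linear_combination e2.2 - (ev v0 z * R z - 1 + ev v0 z * Γ z) * e2.1

lemma Left.tendsto_G (h : Left C v0 S Γ J1 J2 a) : Tendsto Γ lft (𝓝 (-a / 2)) := by
  obtain ⟨B, b3, e⟩ := h.derG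
  have b1 := h.bS
  have b2 := h.bG
  have h1 : Tendsto (fun z => Γ z + a / 2) lft (𝓝 0) := by
    refine Bd.tendsto_of_ode (κ := 2) two_pos (by fun_prop) ?_
    have h2 := (h.tS.sub_const a).neg.add (Bd.tendsto_ev_mul (G := fun z =>
      Γ z ^ 2 + Γ z * S z + S z ^ 2 + C.al + ev v0 z * B z) (by fun_prop) v0)
    simp only [sub_self, neg_zero, add_zero] at h2
    refine h2.congr' (e.mono fun z hz => ?_)
    simp only [deriv_add_const', hz]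
    push_cast
    ring
  have := h1.sub_const (a / 2)
  simp only [add_sub_cancel_right] at this
  rwa [zero_sub, ← neg_div] at this

/-- The two-sided system. -/
structure Sys (C : Cub) (v0 w0 : ℂ) (S Γ S' Γ' J1 J2 K1 K2 : ℂ → ℂ) (a a' : ℂ) : Prop where
  vw : v0 * w0 = 1
  L : Left C v0 S Γ J1 J2 a
  R : Left C w0 S' Γ' K1 K2 a'
  s1 : SB J1
  s2 : SB J2
  k1 : ∀ z, K1 z = ev w0 z * J2 (-z)
  k2 : ∀ z, K2 z = ev w0 z * J1 (-z)

namespace Sys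

lemma mirror (h : Sys C v0 w0 S Γ S' Γ' J1 J2 K1 K2 a a') :
    Sys C w0 v0 S' Γ' S Γ K1 K2 J1 J2 a' a where
  vw := by rw [mul_comm]; exact h.vw
  L := h.R
  R := h.L
  s1 := by rw [funext h.k1]; exact (SB.ev w0).mul h.s2.comp_neg
  s2 := by rw [funext h.k2]; exact (SB.ev w0).mul h.s1.comp_neg
  k1 z := by rw [h.k2, neg_neg, ← mul_assoc, ev_mul_ev h.vw, one_mul]
  k2 z := by rw [h.k1, neg_neg, ← mul_assoc, ev_mul_ev h.vw, one_mul]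

/-- The limit relation obtained from Liouville's theorem. -/
lemma relation (h : Sys C v0 w0 S Γ S' Γ' J1 J2 K1 K2 a a') (ρ : Rel)
    (hl : ∀ t, ρ.left0 C.al C.be t = 0) (hr : ∀ t, ρ.right0 C.al C.be t = 0)
    (da : Differentiable ℂ (ρ.aa C.al C.be)) (db : Differentiable ℂ (ρ.bb C.al C.be)) :
    ∃ (k : ℂ) (W : ℂ → ℂ), Bd W ∧ ∀ᶠ z in lft,
      k = ρ.aa C.al C.be (S z) * Γ z + ρ.bb C.al C.be (S z) + ev v0 z * W z := by
  have s1 := h.s1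
  have s2 := h.s2
  obtain ⟨A0, hA0⟩ : ∃ A0 : ℂ → ℂ, A0 = fun z => 1 / 3 - J1 z := ⟨_, rfl⟩
  obtain ⟨B0, hB0⟩ : ∃ B0 : ℂ → ℂ, B0 = fun z => J2 z - C.be := ⟨_, rfl⟩
  have sA0 : SB A0 := by rw [hA0]; fun_prop
  have sB0 : SB B0 := by rw [hB0]; fun_prop
  have xA0 : Exp v0 S Γ A0 (TA0 C.al C.be) := hA0 ▸ h.L.expA
  have xB0 : Exp v0 S Γ B0 (TB0 C.al C.be) := hB0 ▸ h.L.expB
  have yA0 : RExp w0 S' A0 (RA0 C.al C.be) := hA0 ▸ h.R.rexpA h.k2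
  have yB0 : RExp w0 S' B0 (RB0 C.al C.be) := hB0 ▸ h.R.rexpB h.k1
  have xA1 := h.L.step xA0 (stepA1 _ _)
  have xA2 := h.L.step xA1 (stepA2 _ _)
  have xB1 := h.L.step xB0 (stepB1 _ _)
  have xB2 := h.L.step xB1 (stepB2 _ _)
  have xB3 := h.L.step xB2 (stepB3 _ _)
  have yA1 := h.R.rstep sA0.1 yA0 (rstepA1 _ _)
  have yA2 := h.R.rstep sA0.deriv.1 yA1 (rstepA2 _ _)
  have yB1 := h.R.rstep sB0.1 yB0 (rstepB1 _ _)
  have yB2 := h.R.rstep sB0.deriv.1 yB1 (rstepB2 _ _)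
  have yB3 := h.R.rstep sB0.deriv.deriv.1 yB2 (rstepB3 _ _)
  have sA1 := sA0.deriv
  have sA2 := sA1.deriv
  have sB1 := sB0.deriv
  have sB2 := sB1.deriv
  have sB3 := sB2.deriv
  generalize deriv (deriv (deriv B0)) = B3 at *
  generalize deriv (deriv B0) = B2 at *
  generalize deriv B0 = B1 at *
  generalize deriv (deriv A0) = A2 at *
  generalize deriv A0 = A1 at *
  have si : SB fun z => ev w0 (-z) := (SB.ev w0).comp_neg
  obtain ⟨vi, hvi, si⟩ : ∃ vi : ℂ → ℂ, (∀ z, vi z = ev w0 (-z)) ∧ SB vi := ⟨_, fun _ => rfl, si⟩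
  have sΨ : SB fun z => (ρ.quad (A0 z) (A1 z) (B0 z) (B1 z) -
      ρ.lin (A0 z) (A1 z) (A2 z) (B0 z) (B1 z) (B2 z) - ρ.k0) * vi z -
      ρ.rlin (A0 z) (A1 z) (A2 z) (B0 z) (B1 z) (B2 z) (B3 z) - ρ.r0 * ev v0 z := by
    simp only [Rel.quad, Rel.lin, Rel.rlin]; fun_prop
  have b1 := h.L.bS
  have b2 := h.L.bG
  have b3 := h.R.bS
  have ex : ∀ {F : ℂ → ℂ} {T : Tri}, Exp v0 S Γ F T → Bd (fun z => T.p (S z)) →
      Bd (fun z => T.q (S z)) → Bd (fun z => T.r (S z)) → ∃ p u β : ℂ → ℂ, Bd p ∧ Bd u ∧ Bd β ∧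
        ∀ᶠ z in lft, T.p (S z) = p z ∧ T.q (S z) = u z - T.r (S z) * Γ z - ev v0 z * β z ∧
          F z = p z + ev v0 z * u z := by
    rintro F T ⟨β, hβ, e⟩ c1 c2 c3
    refine ⟨_, _, β, c1, (c2.add (c3.mul b2)).add ((Bd.ev v0).mul hβ), hβ, e.mono fun z hz => ?_⟩
    exact ⟨rfl, by ring, by rw [hz]; ring⟩
  have ey : ∀ {F φ : ℂ → ℂ}, RExp w0 S' F φ → Bd (fun z => φ (S' z)) →
      ∃ p β : ℂ → ℂ, Bd p ∧ Bd β ∧
        ∀ᶠ z in lft, φ (S' z) = p z ∧ F (-z) = ev v0 (-z) * p z + β z := by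
    rintro F φ ⟨β, hβ, e⟩ c1
    refine ⟨_, β, c1, hβ, e.mono fun z hz => ⟨rfl, ?_⟩⟩
    have := ev_mul_ev h.mirror.vw z
    linear_combination ev v0 (-z) * hz - (F (-z) - β z) * this
  obtain ⟨pA0, uA0, βA0, _, _, _, eA0⟩ := ex xA0 (b1.pl ..) (b1.pl ..) (b1.pl ..)
  obtain ⟨pA1, uA1, βA1, _, _, _, eA1⟩ := ex xA1 (b1.pl ..) (b1.pl ..) (b1.pl ..)
  obtain ⟨pA2, uA2, βA2, _, _, _, eA2⟩ := ex xA2 (b1.pl ..) (b1.pl ..) (b1.pl ..)
  obtain ⟨pB0, uB0, βB0, _, _, _, eB0⟩ := ex xB0 (b1.pl ..) (b1.pl ..) (b1.pl ..)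
  obtain ⟨pB1, uB1, βB1, _, _, _, eB1⟩ := ex xB1 (b1.pl ..) (b1.pl ..) (b1.pl ..)
  obtain ⟨pB2, uB2, βB2, _, _, _, eB2⟩ := ex xB2 (b1.pl ..) (b1.pl ..) (b1.pl ..)
  obtain ⟨pB3, uB3, βB3, _, _, _, eB3⟩ := ex xB3 (b1.pl ..) (b1.pl ..) (b1.pl ..)
  obtain ⟨qA0, γA0, _, _, fA0⟩ := ey yA0 (b3.pl ..)
  obtain ⟨qA1, γA1, _, _, fA1⟩ := ey yA1 (b3.pl ..)
  obtain ⟨qA2, γA2, _, _, fA2⟩ := ey yA2 (b3.pl ..)
  obtain ⟨qB0, γB0, _, _, fB0⟩ := ey yB0 (b3.pl ..)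
  obtain ⟨qB1, γB1, _, _, fB1⟩ := ey yB1 (b3.pl ..)
  obtain ⟨qB2, γB2, _, _, fB2⟩ := ey yB2 (b3.pl ..)
  obtain ⟨qB3, γB3, _, _, fB3⟩ := ey yB3 (b3.pl ..)
  obtain ⟨W, bW, hW⟩ : ∃ W, Bd W ∧ ∀ᶠ z in lft, (ρ.quad (A0 z) (A1 z) (B0 z) (B1 z) -
      ρ.lin (A0 z) (A1 z) (A2 z) (B0 z) (B1 z) (B2 z) - ρ.k0) * vi z -
      ρ.rlin (A0 z) (A1 z) (A2 z) (B0 z) (B1 z) (B2 z) (B3 z) - ρ.r0 * ev v0 z =
      ρ.aa C.al C.be (S z) * Γ z + ρ.bb C.al C.be (S z) + ev v0 z * W z := by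
    refine ⟨fun z => ρ.quad (uA0 z) (uA1 z) (uB0 z) (uB1 z) +
      ρ.bil (pA0 z) (pA1 z) (pB0 z) (pB1 z) (βA0 z) (βA1 z) (βB0 z) (βB1 z) -
      ρ.lin (βA0 z) (βA1 z) (βA2 z) (βB0 z) (βB1 z) (βB2 z) -
      ρ.rlin (uA0 z) (uA1 z) (uA2 z) (uB0 z) (uB1 z) (uB2 z) (uB3 z) - ρ.r0, ?_, ?_⟩
    · simp only [Rel.quad, Rel.lin, Rel.rlin, Rel.bil]; fun_prop
    · filter_upwards [eA0, eA1, eA2, eB0, eB1, eB2, eB3] with z e1 e2 e3 e4 e5 e6 e7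
      have e0 := hl (S z)
      have e8 := ev_mul_ev h.vw z
      rw [← hvi] at e8
      apply mul_left_cancel₀ (ev_ne h.L.hv z)
      rw [mul_sub, mul_sub, mul_left_comm, e8]
      simp only [Rel.left0, Rel.aa, Rel.bb, Rel.quad, Rel.lin, Rel.rlin, Rel.bil, e1.1, e2.1, e3.1,
        e4.1, e5.1, e6.1, e7.1, e1.2.1, e2.2.1, e3.2.1, e4.2.1, e5.2.1, e6.2.1, e1.2.2, e2.2.2,
        e3.2.2, e4.2.2, e5.2.2, e6.2.2, e7.2.2] at e0 ⊢
      linear_combination e0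
  obtain ⟨k, hk⟩ := sΨ.exists_const
    (Bd.congr (((Bd.comp da b1).mul b2).add (Bd.comp db b1) |>.add ((Bd.ev v0).mul bW))
      (hW.mono fun z hz => hz.symm)) (by
      refine Bd.congr (F := fun z =>
        ρ.bil (qA0 z) (qA1 z) (qB0 z) (qB1 z) (γA0 z) (γA1 z) (γB0 z) (γB1 z) +
        ev w0 z * ρ.quad (γA0 z) (γA1 z) (γB0 z) (γB1 z) -
        ρ.rlin (γA0 z) (γA1 z) (γA2 z) (γB0 z) (γB1 z) (γB2 z) (γB3 z) -
        ρ.lin (qA0 z) (qA1 z) (qA2 z) (qB0 z) (qB1 z) (qB2 z) -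
        ev w0 z * ρ.lin (γA0 z) (γA1 z) (γA2 z) (γB0 z) (γB1 z) (γB2 z) - ρ.k0 * ev w0 z) ?_ ?_
      · simp only [Rel.quad, Rel.lin, Rel.rlin, Rel.bil]; fun_prop
      · filter_upwards [fA0, fA1, fA2, fB0, fB1, fB2, fB3] with z e1 e2 e3 e4 e5 e6 e7
        have e0 := hr (S' z)
        have e8 := ev_mul_ev h.mirror.vw z
        simp only [Rel.right0, e1.1, e2.1, e3.1, e4.1, e5.1, e6.1, e7.1] at e0
        rw [hvi, neg_neg]
        simp only [Rel.quad, Rel.lin, Rel.rlin, Rel.bil, e1.2, e2.2, e3.2, e4.2, e5.2, e6.2,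
          e7.2] at e0 ⊢
        have e9 : ev v0 (-z) = (ev w0 z)⁻¹ := eq_inv_of_mul_eq_one_right e8
        have e10 := ev_ne h.R.hv z
        rw [e9]
        field_simp
        linear_combination -e0)
  exact ⟨k, W, bW, hW.mono fun z hz => by rw [← hz, hk]⟩

/-- The function `S` converges exponentially fast. -/
lemma rate (h : Sys C v0 w0 S Γ S' Γ' J1 J2 K1 K2 a a') :
    ∃ T, Bd T ∧ ∀ᶠ z in lft, S z = a + ev v0 z * T z := by
  obtain ⟨ρ, c, ⟨hl, hr, aa', bb', da, db, hc⟩, hc0⟩ :=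
    exists_rel (al := C.al) (be := C.be) (a := a) (by rw [← C.P_eq]; exact h.L.ha)
  have da' := (diff_of_hasDerivAt da).1
  have db' := (diff_of_hasDerivAt db).1
  obtain ⟨k, W, bW, hW⟩ := h.relation ρ hl hr da' db'
  generalize ρ.aa C.al C.be = α at *
  generalize ρ.bb C.al C.be = β at *
  have b1 := h.L.bS
  have b2 := h.L.bG
  have tS := h.L.tS
  have tG := h.L.tendsto_G
  have hk : k = α a * (-a / 2) + β a + 0 :=
    tendsto_nhds_unique_of_eventuallyEq tendsto_const_nhds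
      (((((da'.continuous.tendsto a).comp tS).mul tG).add
        ((db'.continuous.tendsto a).comp tS)).add (bW.tendsto_ev_mul v0)) hW
  have ds : ∀ {f : ℂ → ℂ}, Differentiable ℂ f → Differentiable ℂ (dslope f a) := fun hf => by
    rw [← differentiableOn_univ] at hf ⊢
    exact (differentiableOn_dslope univ_mem).2 hf
  obtain ⟨u0, c0, hu0⟩ := Bd.gen da' b1
  obtain ⟨u1, c1, hu1⟩ := Bd.gen (ds da') b1
  obtain ⟨u2, c2, hu2⟩ := Bd.gen (ds db') b1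
  have t0 : Tendsto u0 lft (𝓝 (α a)) := by
    rw [funext hu0]; exact (da'.continuous.tendsto a).comp tS
  have t1 : Tendsto u1 lft (𝓝 (aa' a)) := by
    rw [funext hu1, ← (da a).deriv, ← dslope_same]; exact ((ds da').continuous.tendsto a).comp tS
  have t2 : Tendsto u2 lft (𝓝 (bb' a)) := by
    rw [funext hu2, ← (db a).deriv, ← dslope_same]; exact ((ds db').continuous.tendsto a).comp tS
  have ht : Tendsto (fun z => (2 - (3 * a ^ 2 + C.al)) * (u1 z * (-a / 2) + u2 z) - u0 z) lft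
      (𝓝 c) := hc ▸ (((t1.mul_const _).add t2).const_mul _).sub t0
  obtain ⟨Y, bY, hY⟩ : ∃ Y, Bd Y ∧ ∀ᶠ z in lft,
      ((2 - (3 * a ^ 2 + C.al)) * (u1 z * (-a / 2) + u2 z) - u0 z) * Y z = 1 :=
    ⟨_, Bd.inv (by fun_prop) ht hc0, (ht.eventually_ne hc0).mono fun z hz => mul_inv_cancel₀ hz⟩
  obtain ⟨γ, hγ⟩ : ∃ γ : ℂ → ℂ,
    γ = fun z => (2 - (3 * a ^ 2 + C.al)) * (Γ z + a / 2) + (S z - a) := ⟨_, rfl⟩
  have bγ : Bd γ := by rw [hγ]; fun_prop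
  have e1 : ∀ᶠ z in lft, S z - a =
      γ z * (-u0 z * Y z) + ev v0 z * (-(2 - (3 * a ^ 2 + C.al)) * W z * Y z) := by
    filter_upwards [hW, hY] with z e1 e2
    have e3 := sub_smul_dslope α a (S z)
    have e4 := sub_smul_dslope β a (S z)
    rw [smul_eq_mul, ← hu1] at e3
    rw [smul_eq_mul, ← hu2] at e4
    rw [← hu0] at e1 e3
    rw [hγ]
    linear_combination -(S z - a) * e2 + (2 - (3 * a ^ 2 + C.al)) * Y z *
      ((-a / 2) * e3 + e4 - e1 + hk)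
  obtain ⟨B1, b3, d1⟩ := h.L.derS
  obtain ⟨B2, b4, d2⟩ := h.L.derG
  have hP : a ^ 3 + C.al * a + C.be = 0 := by rw [← C.P_eq]; exact h.L.ha
  have tτ : Tendsto (fun z => S z - a) lft (𝓝 0) := by simpa using tS.sub_const a
  obtain ⟨g, bg, hg⟩ := bγ.small_of_ode (κ := 2) h.L.hv two_pos
    (A := fun z => (S z - a) * (-(3 * a + (S z - a)) * (-u0 z * Y z)))
    (B := fun z => -(3 * a * (S z - a) + (S z - a) ^ 2) * (-(2 - (3 * a ^ 2 + C.al)) * W z * Y z) +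
      (2 - (3 * a ^ 2 + C.al)) * (Γ z ^ 2 + Γ z * S z + S z ^ 2 + C.al + ev v0 z * B2 z) -
      (S z ^ 3 + C.al * S z + C.be) * (Γ z - S z) + ev v0 z * B1 z)
    (Bd.tendsto_mul (by fun_prop) tτ) (by fun_prop) (by
      filter_upwards [e1, d1, d2, b1.hd, b2.hd] with z e1 e2 e3 e4 e5
      have e6 : deriv γ z = (2 - (3 * a ^ 2 + C.al)) * deriv Γ z + deriv S z := by
        rw [hγ]
        exact (((e5.add_const _).const_mul _).fun_add (e4.sub_const a)).deriv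
      have e7 : γ z = (2 - (3 * a ^ 2 + C.al)) * (Γ z + a / 2) + (S z - a) := by rw [hγ]
      push_cast
      linear_combination e6 + (2 - (3 * a ^ 2 + C.al)) * e3 + e2 + 2 * e7 - hP -
        (3 * a * (S z - a) + (S z - a) ^ 2) * e1)
  refine ⟨fun z => g z * (-u0 z * Y z) + -(2 - (3 * a ^ 2 + C.al)) * W z * Y z, by fun_prop, ?_⟩
  filter_upwards [e1, hg] with z e1 e2
  rw [e2] at e1
  linear_combination e1

end Sys

end Pool.Agent.Lib.MP_bb1814_an
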