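import Mathlib
import Pool.Agent.Lib.MP_bb1814_an.ModelS

/-!
Explicit form of the invariants and the resulting algebraic constraints.
-/

namespace Pool.Agent.Lib.MP_bb1814_an

open Filter Topology Set Metric Complex

variable {C : Cub} {v0 w0 a a' : ℂ} {R S Γ S' Γ' J1 J2 K1 K2 : ℂ → ℂ}

lemma Left.tendsto_J2 (h : Left C v0 S Γ J1 J2 a) : Tendsto J2 lft (𝓝 (-a / 3)) := by
  obtain ⟨B1, b3, e1⟩ := h.derS
  obtain ⟨B2, b4, e2⟩ := h.derG
  have b1 := h.bS
  have b2 := h.bG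
  have hP : a ^ 3 + C.al * a + C.be = 0 := by rw [← C.P_eq]; exact h.ha
  have h1 : Tendsto (fun z => S z ^ 3 + C.al * S z + C.be - S z / 3) lft
      (𝓝 (a ^ 3 + C.al * a + C.be - a / 3)) :=
    (((h.tS.pow 3).add (h.tS.const_mul _)).add_const _).sub (h.tS.div_const 3)
  have h2 := h1.add (Bd.tendsto_ev_mul (G := fun z => Γ z * S z + S z ^ 2 + C.al + ev v0 z * B2 z +
    (S z ^ 3 + C.al * S z + C.be) * (Γ z - S z) - ev v0 z * B1 z) (by fun_prop) v0)
  rw [hP, add_zero, zero_sub, ← neg_div] at h2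
  refine h2.congr' ?_
  filter_upwards [e1, e2, h.j2] with z e1 e2 e3
  rw [e3, e1, e2]
  ring

lemma Sys.J1_eq (h : Sys C v0 w0 S Γ S' Γ' J1 J2 K1 K2 a a') (z : ℂ) :
    J1 z = 1 / 3 - a ^ 2 - a' / 3 * ev v0 z := by
  obtain ⟨T, bT, hT⟩ := h.rate
  have b1 := h.L.bS
  have b2 := h.L.bG
  have s1 : SB fun z => (J1 z - (1 / 3 - a ^ 2)) * ev w0 (-z) :=
    (h.s1.sub (SB.const _)).mul (SB.ev w0).comp_neg
  have t1 : Tendsto (fun z => (J1 (-z) - (1 / 3 - a ^ 2)) * ev w0 (- -z)) lft (𝓝 (-a' / 3)) := by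
    have := h.R.tendsto_J2.sub ((tendsto_ev w0).const_mul (1 / 3 - a ^ 2))
    rw [mul_zero, sub_zero] at this
    refine this.congr fun z => ?_
    rw [h.k2, neg_neg]; ring
  obtain ⟨k, hk⟩ := s1.exists_const (by
    refine Bd.congr (F := fun z => -T z * (S z + a) + (deriv Γ z + 2 / 3 * Γ z - deriv S z))
      (by fun_prop) ?_
    filter_upwards [hT, h.L.j1] with z e1 e2
    apply mul_left_cancel₀ (ev_ne h.L.hv z)
    rw [mul_left_comm _ (_ - _), ev_mul_ev h.vw, e2]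
    linear_combination (S z + a) * e1)
    (Bd.of_tendsto (Eventually.of_forall fun z => s1.comp_neg.1.analyticAt z) t1)
  have hk' : k = -a' / 3 := by
    simp only [hk] at t1
    exact tendsto_nhds_unique tendsto_const_nhds t1
  have e1 := hk z
  have e2 := ev_mul_ev h.vw z
  linear_combination ev v0 z * e1 + ev v0 z * hk' - (J1 z - (1 / 3 - a ^ 2)) * e2

lemma Sys.J2_eq (h : Sys C v0 w0 S Γ S' Γ' J1 J2 K1 K2 a a') (z : ℂ) :
    J2 z = -a / 3 + (1 / 3 - a' ^ 2) * ev v0 z := by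
  rw [h.mirror.k2, h.mirror.J1_eq]
  linear_combination -a / 3 * ev_mul_ev h.vw z

lemma deriv_ev_mul {F G : ℂ → ℂ} {c : ℂ} (hG : Bd G) (e : ∀ᶠ z in lft, F z = c + ev v0 z * G z) :
    ∀ᶠ z in lft, deriv F z = ev v0 z * (G z + deriv G z) := by
  filter_upwards [deriv_lft e, hG.hd] with z e1 e2
  rw [e1, (((hasDerivAt_ev v0 z).fun_mul e2).const_add c).deriv]
  ring

/-- The constraints on the limit values. -/
lemma Sys.key (h : Sys C v0 w0 S Γ S' Γ' J1 J2 K1 K2 a a') :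
    3 * a ^ 2 + C.al = -1 ∧ ∃ t : ℂ, t ≠ 0 ∧ 6 * a * t + a - a' = 0 ∧
      (1 / 3 - a ^ 2 - C.al) * t + (1 / 3 - a' ^ 2 - C.al) - a * a' / 3 - a ^ 2 / 6 = 0 := by
  obtain ⟨T, bT, hT⟩ := h.rate
  have hv := h.L.hv
  have b1 := h.L.bS
  have b2 := h.L.bG
  have hP : a ^ 3 + C.al * a + C.be = 0 := by rw [← C.P_eq]; exact h.L.ha
  obtain ⟨B2, b4, d2⟩ := h.L.derG
  obtain ⟨G, bG, hG⟩ := Bd.small_of_ode (F := fun z => Γ z + a / 2) (κ := 2) hv two_pos
    (A := fun _ => 0) (B := fun z => -T z + (Γ z ^ 2 + Γ z * S z + S z ^ 2 + C.al) +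
      ev v0 z * B2 z) (by fun_prop) tendsto_const_nhds (by fun_prop) (by
      filter_upwards [d2, hT] with z e1 e2
      simp only [deriv_add_const']
      push_cast
      linear_combination e1 - e2)
  have hG' : ∀ᶠ z in lft, Γ z = -a / 2 + ev v0 z * G z := hG.mono fun z hz => by
    linear_combination hz
  have dG := deriv_ev_mul bG hG'
  have dT := deriv_ev_mul bT hT
  have E2 : ∀ᶠ z in lft, (a - a') / 3 + 2 * a * T z =
      ev v0 z * (1 / 3 - a' ^ 2 - T z ^ 2 - 4 / 3 * G z - 2 / 3 * T z + Γ z ^ 2) := by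
    filter_upwards [h.L.j1, h.L.j2, hT, hG'] with z e1 e2 e3 e4
    rw [h.J1_eq] at e1
    rw [h.J2_eq] at e2
    apply mul_left_cancel₀ (ev_ne hv z)
    linear_combination e1 - ev v0 z * e2 - (S z + a + ev v0 z * T z + 2 / 3 * ev v0 z) * e3 -
      4 / 3 * ev v0 z * e4
  have E1 : ∀ᶠ z in lft,
      (1 / 3 - a ^ 2 - C.al) * T z + (1 / 3 - a' ^ 2 - C.al) - a * a' / 3 - a ^ 2 / 6 =
        ev v0 z * (-a / 3 * G z + (1 / 3 - a' ^ 2 - C.al) * Γ z + a' / 3 * T z - C.be) := by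
    filter_upwards [h.L.j1, h.L.j2, hT, hG', h.L.odeS, h.L.odeG] with z e1 e2 e3 e4 e5 e6
    rw [h.J1_eq] at e1
    rw [h.J2_eq] at e2
    have e7 : (-a / 3 + (1 / 3 - a' ^ 2) * ev v0 z - C.al * ev v0 z) * (-1 + ev v0 z * Γ z) -
        (1 / 3 - a ^ 2 - a' / 3 * ev v0 z - C.al) * S z = C.be * (ev v0 z ^ 2 - 1) := by
      apply mul_left_cancel₀ (ev_ne hv z)
      linear_combination ev v0 z * (-1 + ev v0 z * Γ z) * e2 - ev v0 z * S z * e1 + e6 -
        ev v0 z * e5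
    apply mul_left_cancel₀ (ev_ne hv z)
    linear_combination -e7 - (1 / 3 - a ^ 2 - a' / 3 * ev v0 z - C.al) * e3 -
      a / 3 * ev v0 z * e4 + hP
  have E3 : ∀ᶠ z in lft, deriv T z + (1 + (3 * a ^ 2 + C.al)) * T z =
      ev v0 z * ((Γ z - S z) * (T z + deriv T z) - 3 * a * T z ^ 2 - ev v0 z * T z ^ 3) := by
    filter_upwards [hT, dT, h.L.odeS] with z e1 e2 e3
    apply mul_left_cancel₀ (ev_ne hv z)
    rw [e2] at e3
    nth_rewrite 2 3 [e1] at e3
    linear_combination -e3 - hP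
  obtain ⟨t, U, bU, hU⟩ : ∃ (t : ℂ) (U : ℂ → ℂ), Bd U ∧ ∀ᶠ z in lft, T z = t + ev v0 z * U z := by
    by_cases ha : a = 0
    · by_cases hA : 1 / 3 - a ^ 2 - C.al = 0
      · obtain ⟨U, bU, hU⟩ := bT.small_of_ode (κ := 4 / 3) hv (by norm_num) (A := fun _ => 0)
          (B := fun z => (Γ z - S z) * (T z + deriv T z) - 3 * a * T z ^ 2 - ev v0 z * T z ^ 3)
          tendsto_const_nhds (by fun_prop) (E3.mono fun z hz => by
            push_cast
            linear_combination hz + T z * hA - 2 * a * T z * ha)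
        exact ⟨0, U, bU, hU.mono fun z hz => by rw [hz, zero_add]⟩
      · refine ⟨-((1 / 3 - a' ^ 2 - C.al) - a * a' / 3 - a ^ 2 / 6) / (1 / 3 - a ^ 2 - C.al),
          fun z => (-a / 3 * G z + (1 / 3 - a' ^ 2 - C.al) * Γ z + a' / 3 * T z - C.be) /
            (1 / 3 - a ^ 2 - C.al), by fun_prop, E1.mono fun z hz => ?_⟩
        rw [← mul_div_assoc, ← add_div, eq_div_iff hA]
        linear_combination hz
    · refine ⟨(a' - a) / 3 / (2 * a), fun z =>
        (1 / 3 - a' ^ 2 - T z ^ 2 - 4 / 3 * G z - 2 / 3 * T z + Γ z ^ 2) / (2 * a), by fun_prop,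
        E2.mono fun z hz => ?_⟩
      rw [← mul_div_assoc, ← add_div, eq_div_iff (mul_ne_zero two_ne_zero ha)]
      linear_combination hz
  have dU := deriv_ev_mul bU hU
  have r2 : (a - a') / 3 + 2 * a * t = 0 := by
    refine Bd.eq_zero (v0 := v0) (G := fun z => (1 / 3 - a' ^ 2 - T z ^ 2 - 4 / 3 * G z -
      2 / 3 * T z + Γ z ^ 2) - 2 * a * U z) (by fun_prop) ?_
    filter_upwards [E2, hU] with z e1 e2
    linear_combination e1 - 2 * a * e2
  have r1 : (1 / 3 - a ^ 2 - C.al) * t + (1 / 3 - a' ^ 2 - C.al) - a * a' / 3 - a ^ 2 / 6 = 0 := by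
    refine Bd.eq_zero (v0 := v0) (G := fun z => (-a / 3 * G z + (1 / 3 - a' ^ 2 - C.al) * Γ z +
      a' / 3 * T z - C.be) - (1 / 3 - a ^ 2 - C.al) * U z) (by fun_prop) ?_
    filter_upwards [E1, hU] with z e1 e2
    linear_combination e1 - (1 / 3 - a ^ 2 - C.al) * e2
  have r3 : (1 + (3 * a ^ 2 + C.al)) * t = 0 := by
    refine Bd.eq_zero (v0 := v0) (G := fun z => ((Γ z - S z) * (T z + deriv T z) -
      3 * a * T z ^ 2 - ev v0 z * T z ^ 3) - (U z + deriv U z) - (1 + (3 * a ^ 2 + C.al)) * U z)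
      (by fun_prop) ?_
    filter_upwards [E3, hU, dU] with z e1 e2 e3
    linear_combination e1 - (1 + (3 * a ^ 2 + C.al)) * e2 - e3
  have ht : t ≠ 0 := by
    rintro rfl
    obtain rfl : a' = a := by linear_combination -3 * r2
    have hal : C.al = 1 / 3 - 3 * a' ^ 2 / 2 := by linear_combination -r1
    have F1 : ∀ᶠ z in lft, a' ^ 2 / 2 * U z =
        -a' / 3 * G z + a' ^ 2 / 2 * Γ z + a' / 3 * T z - C.be := by
      filter_upwards [E1, hU] with z e1 e2
      apply mul_left_cancel₀ (ev_ne hv z)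
      rw [hal] at e1
      linear_combination e1 - a' ^ 2 / 2 * e2
    have F2 : ∀ᶠ z in lft, 2 * a' * U z =
        1 / 3 - a' ^ 2 - T z ^ 2 - 4 / 3 * G z - 2 / 3 * T z + Γ z ^ 2 := by
      filter_upwards [E2, hU] with z e1 e2
      apply mul_left_cancel₀ (ev_ne hv z)
      linear_combination e1 - 2 * a' * e2
    have r4 : a' * (4 - 9 * a' ^ 2) / 16 = 0 := by
      refine Bd.eq_zero (v0 := v0) (G := fun z => -(a' ^ 2 / 2 * G z + a' / 3 * U z +
        a' / 4 * (T z * U z + 2 / 3 * U z - (Γ z - a' / 2) * G z))) (by fun_prop) ?_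
      filter_upwards [F1, F2, hU, hG'] with z e1 e2 e3 e4
      linear_combination -e1 + a' / 4 * e2 - (a' / 2 + a' / 4 * T z) * e3 +
        (-(a' ^ 2 / 2) + a' / 4 * (Γ z - a' / 2)) * e4 + hP - a' * hal
    by_cases ha : a' = 0
    · subst ha
      obtain ⟨H, bH, hH⟩ : ∃ H, Bd H ∧ ∀ᶠ z in lft, G z = 1 / 4 + ev v0 z * H z := by
        refine ⟨fun z => 3 / 4 * (-T z * U z - 2 / 3 * U z + Γ z * G z), by fun_prop, ?_⟩
        filter_upwards [F2, hU, hG'] with z e1 e2 e3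
        linear_combination 3 / 4 * e1 - 3 / 4 * (T z + 2 / 3) * e2 + 3 / 4 * Γ z * e3
      have dH := deriv_ev_mul bH hH
      have : (5 / 12 : ℂ) = 0 := by
        refine Bd.eq_zero (v0 := v0) (G := fun z => T z * U z + (2 * U z + deriv U z) -
          (H z + deriv H z) - 5 / 3 * H z) (by fun_prop) ?_
        filter_upwards [h.L.j1, hT, hG', hU, hH, dG, dT, dU, dH] with z e1 e2 e3 e4 e5 e6 e7 e8 e9
        rw [h.J1_eq, e6, e7, e8, e9, e2, e3] at e1
        apply mul_left_cancel₀ (pow_ne_zero 2 (ev_ne hv z))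
        linear_combination -e1 + ev v0 z ^ 2 * (T z + 1) * e4 - 5 / 3 * ev v0 z ^ 2 * e5
      norm_num at this
    · refine C.disc_ne h.L.ha ?_
      apply mul_left_cancel₀ ha
      linear_combination 16 / 3 * r4 + 4 * a' * hal
  refine ⟨mul_right_cancel₀ ht (by linear_combination r3), t, ht, by linear_combination 3 * r2, r1⟩

end Pool.Agent.Lib.MP_bb1814_an
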