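import Mathlib
import Pool.Agent.Lib.MP_bb1814_an.Basic
import Pool.Agent.Lib.MP_bb1814_an.ModelAlg
import Pool.Agent.Lib.MP_bb1814_an.ModelK

namespace Pool.Agent.Lib.MP_bb1814_an

open Filter Topology Set Metric Complex

/-- Behaviour of a model solution far to the left. -/
def LeftAsym (C : Cub) (R S v : ℂ → ℂ) (a : ℂ) : Prop :=
  C.P a = 0 ∧ ∀ ε > 0, ∃ L : ℝ, ∀ z : ℂ, z.re < -L →
    AnalyticAt ℂ R z ∧ ‖S z - a‖ < ε ∧ ‖v z * R z + 1‖ < ε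

/-- Uniform bounds on small circles around the points of a vertical strip. -/
def StripBound (R S : ℂ → ℂ) : Prop :=
  ∀ L : ℝ, ∃ M : ℝ, ∀ z : ℂ, |z.re| ≤ L → ∃ ρ : ℝ, 0 < ρ ∧ ρ ≤ 1 ∧ ∀ ζ ∈ sphere z ρ,
    AnalyticAt ℂ R ζ ∧ ‖R ζ‖ ≤ M ∧ ‖S ζ‖ ≤ M ∧ ‖deriv R ζ‖ ≤ M ∧ ‖deriv S ζ‖ ≤ M

lemma LeftAsym.exists_left {C : Cub} {R S J1 J2 : ℂ → ℂ} {v0 a : ℂ} (hv : v0 ≠ 0)
    (hP : Pair C R S (ev v0) fun z => (ev v0 z)⁻¹) (h : LeftAsym C R S (ev v0) a)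
    (hJ : ∀ z, AnalyticAt ℂ R z → J1 z = jj1 v0 R S z ∧ J2 z = jj2 v0 R S z) :
    ∃ Γ, Left C v0 S Γ J1 J2 a := by
  have key : ∀ ε > 0, ∀ᶠ z in lft,
      AnalyticAt ℂ R z ∧ ‖S z - a‖ < ε ∧ ‖ev v0 z * R z + 1‖ < ε := fun ε hε => by
    obtain ⟨L, hL⟩ := h.2 ε hε
    exact eventually_lft.2 ⟨-L - 1, fun z hz => hL z (by linarith)⟩
  refine MP_bb1814_an.exists_left hv hP h.1 ((key 1 one_pos).mono fun z hz => hz.1) ?_ ?_ hJ
  · exact Metric.tendsto_nhds.2 fun ε hε => (key ε hε).mono fun z hz => by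
      rw [dist_eq_norm]; exact hz.2.1
  · exact NormedAddGroup.tendsto_nhds_zero.2 fun ε hε => (key ε hε).mono fun z hz => hz.2.2

lemma StripBound.sb {R S J : ℂ → ℂ} (h : StripBound R S) (hJ : Differentiable ℂ J) (v0 : ℂ)
    (b : ℝ → ℝ → ℝ) (hb : ∀ V M : ℝ, ∀ z, AnalyticAt ℂ R z → ‖ev v0 z‖ ≤ V → ‖R z‖ ≤ M →
      ‖S z‖ ≤ M → ‖deriv R z‖ ≤ M → ‖deriv S z‖ ≤ M → ‖J z‖ ≤ b V M) : SB J := by
  refine ⟨hJ, fun L => ?_⟩
  obtain ⟨M, hM⟩ := h L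
  obtain ⟨V, hV⟩ := (SB.ev v0).2 (L + 1)
  refine ⟨b V M, fun z hz => ?_⟩
  obtain ⟨ρ, h0, h1, h2⟩ := hM z hz
  refine norm_le_of_forall_mem_frontier_norm_le (U := ball z ρ) isBounded_ball hJ.diffContOnCl
    (fun w hw => ?_) (subset_closure (mem_ball_self h0))
  rw [frontier_ball z h0.ne'] at hw
  obtain ⟨a1, a2, a3, a4, a5⟩ := h2 w hw
  refine hb V M w a1 (hV w ?_) a2 a3 a4 a5
  have h3 := (abs_re_le_norm (w - z)).trans (mem_sphere_iff_norm.1 hw).le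
  rw [sub_re] at h3
  rw [abs_le] at h3 hz ⊢
  constructor <;> linarith [h3.1, h3.2, hz.1, hz.2]

theorem model_false (C : Cub) (R S : ℂ → ℂ) (v0 : ℂ) (hv0 : v0 ≠ 0) (hv1 : v0 ^ 2 ≠ 1)
    (hP : Pair C R S (fun z => v0 * exp z) (fun z => (v0 * exp z)⁻¹)) (a a' : ℂ)
    (hL : LeftAsym C R S (fun z => v0 * exp z) a)
    (hR : LeftAsym C (fun z => S (-z)) (fun z => R (-z)) (fun z => v0⁻¹ * exp z) a')
    (hS : StripBound R S) (h0 : AnalyticAt ℂ R 0) (h1 : R 0 = S 0) : False := by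
  replace hP : Pair C R S (ev v0) fun z => (ev v0 z)⁻¹ := hP
  have hw0 : v0⁻¹ ≠ 0 := inv_ne_zero hv0
  have hvw : v0 * v0⁻¹ = 1 := mul_inv_cancel₀ hv0
  have hwv : v0⁻¹ * v0 = 1 := inv_mul_cancel₀ hv0
  have hP' : Pair C (fun z => S (-z)) (fun z => R (-z)) (ev v0⁻¹) fun z => (ev v0⁻¹ z)⁻¹ := by
    have h2 := hP.swap.aff 0 (s := -1) (by norm_num)
    simp only [zero_add, neg_mul, one_mul, neg_neg] at h2
    have h3 : (fun z => (ev v0 (-z))⁻¹) = ev v0⁻¹ :=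
      funext fun z => (eq_inv_of_mul_eq_one_left (ev_mul_ev hwv z)).symm
    have h4 : (fun z => ev v0 (-z)) = fun z => (ev v0⁻¹ z)⁻¹ :=
      funext fun z => eq_inv_of_mul_eq_one_right (ev_mul_ev hwv z)
    rwa [h3, h4] at h2
  obtain ⟨J1, J2, d1, d2, hJ⟩ := exists_JJ hv0 hP
  obtain ⟨Γ, hΓ⟩ := LeftAsym.exists_left hv0 hP hL hJ
  obtain ⟨Γ', hΓ'⟩ := LeftAsym.exists_left (J1 := fun z => ev v0⁻¹ z * J2 (-z))
    (J2 := fun z => ev v0⁻¹ z * J1 (-z)) hw0 hP' hR fun z hz => by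
      have h2 : AnalyticAt ℂ S (-z) := by
        have := (analyticAt_aff_iff (f := S) 0 (s := -1) (by norm_num) z).1 (by simpa using hz)
        simpa using this
      obtain ⟨e1, e2⟩ := hJ (-z) ((hP.pole _).2 h2)
      have e3 := ev_mul_ev hwv z
      simp only [e1, e2, jj1, jj2, deriv_comp_neg]
      constructor
      · linear_combination -R (-z) ^ 2 * e3
      · linear_combination (deriv R (-z) - deriv S (-z) + 2 / 3 * R (-z)) * e3
  have s1 : SB J1 := hS.sb d1 v0 (fun V M => V * (M + M) + M ^ 2 + 2 / 3 * V * M)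
    fun V M z a1 a2 a3 a4 a5 a6 => by
      have a7 : 0 ≤ V := (norm_nonneg _).trans a2
      rw [(hJ z a1).1, jj1]
      refine (norm_add_le _ _).trans (add_le_add ((norm_sub_le _ _).trans (add_le_add ?_ ?_)) ?_)
      · rw [norm_mul]
        exact mul_le_mul a2 ((norm_sub_le _ _).trans (add_le_add a5 a6)) (norm_nonneg _) a7
      · rw [norm_pow]; gcongr
      · rw [norm_mul, norm_mul, norm_div, Complex.norm_ofNat, Complex.norm_ofNat]; gcongr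
  have s2 : SB J2 := hS.sb d2 v0 (fun V M => (M + M) + V * M ^ 2 + 2 / 3 * M)
    fun V M z a1 a2 a3 a4 a5 a6 => by
      have a7 : 0 ≤ V := (norm_nonneg _).trans a2
      rw [(hJ z a1).2, jj2]
      refine (norm_add_le _ _).trans (add_le_add ((norm_sub_le _ _).trans (add_le_add ?_ ?_)) ?_)
      · exact (norm_sub_le _ _).trans (add_le_add a5 a6)
      · rw [norm_mul, norm_pow]; gcongr
      · rw [norm_mul, norm_div, Complex.norm_ofNat, Complex.norm_ofNat]; gcongr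
  have h : Sys C v0 v0⁻¹ S Γ (fun z => R (-z)) Γ' J1 J2 _ _ a a' :=
    ⟨hvw, hΓ, hΓ', s1, s2, fun _ => rfl, fun _ => rfl⟩
  obtain ⟨k1, t, ht, k2, k3⟩ := h.key
  obtain ⟨k4, -⟩ := h.mirror.key
  have p1 : a ^ 3 + C.al * a + C.be = 0 := by rw [← C.P_eq]; exact hL.1
  have p2 : a' ^ 3 + C.al * a' + C.be = 0 := by rw [← C.P_eq]; exact hR.1
  have ha : a = 0 ∧ a' = 0 := by
    by_cases ha : a = 0
    · exact ⟨ha, by linear_combination -k2 + (6 * t + 1) * ha⟩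
    exfalso
    have h2 : (a' - a) * (a' + a) = 0 := by linear_combination (k4 - k1) / 3
    rcases mul_eq_zero.1 h2 with h2 | h2
    · exact mul_ne_zero ha ht (by linear_combination (k2 + h2) / 6)
    · obtain rfl : a' = -a := by linear_combination h2
      have h3 : a ^ 2 + C.al = 0 := mul_left_cancel₀ ha (by linear_combination (p1 - p2) / 2)
      have h4 : t = -1 / 3 := mul_left_cancel₀ ha (by linear_combination k2 / 6)
      subst h4
      have : (5 / 36 : ℂ) = 0 := by linear_combination k3 + 2 / 3 * h3 - (k1 - h3) / 12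
      norm_num at this
  obtain ⟨rfl, rfl⟩ := ha
  have e1 := h.J1_eq 0
  have e2 := h.J2_eq 0
  have e3 := hP.odef 0 h0
  have e4 := hP.odeg 0 h0
  rw [(hJ 0 h0).1, jj1] at e1
  rw [(hJ 0 h0).2, jj2] at e2
  rw [C.P_eq] at e3 e4
  have e5 : ev v0 0 = v0 := by simp [ev]
  have hal : C.al = -1 := by linear_combination k1
  have hbe : C.be = 0 := by linear_combination p1
  simp only [e5, h1, hal, hbe] at e1 e2 e3 e4
  have e6 : S 0 = 0 := by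
    apply mul_left_cancel₀ (sub_ne_zero.2 hv1)
    linear_combination 3 / 4 * S 0 * e1 - 3 / 4 * v0 * S 0 * e2 + 3 / 4 * v0 * e3 -
      3 / 4 * v0 * e4 - 3 / 4 * (S 0 ^ 3 - S 0) * hvw
  rw [e6] at e1 e2
  exact hv1 (by linear_combination 3 * e1 - 3 * v0 * e2)

end Pool.Agent.Lib.MP_bb1814_an
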