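import Mathlib
import Pool.Agent.Lib.MP_bb1814_an.LocC
import Pool.Agent.Lib.MP_bb1814_an.Model
import Pool.Agent.Lib.MP_bb1814_an.Iface

/-!
A pair has no sequence of good points.
-/

namespace Pool.Agent.Lib.MP_bb1814_an

open Filter Topology Set Metric Complex

variable {ι : Type*} {l : Filter ι} {C : Cub}

/-- There is no model solution with a multiple common point. -/
theorem model_none {R S : ℂ → ℂ} {v0 : ℂ} (hv0 : v0 ≠ 0) (hv1 : v0 ^ 2 ≠ 1)
    (hP : Pair C R S (fun z => v0 * exp z) fun z => (v0 * exp z)⁻¹) (h0 : AnalyticAt ℂ R 0)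
    (h1 : R 0 = S 0) : False := by
  obtain ⟨a, ha⟩ := left_asym hv0 hP
  have hP' : Pair C (fun z => S (-z)) (fun z => R (-z)) (fun z => v0⁻¹ * exp z)
      fun z => (v0⁻¹ * exp z)⁻¹ := by
    have := hP.swap.aff 0 (neg_ne_zero.2 one_ne_zero)
    simp only [neg_mul, one_mul, zero_add, neg_neg, mul_neg] at this
    have e1 : (fun z => v0⁻¹ * exp z) = fun z => (v0 * exp (-z))⁻¹ := by
      funext z; rw [exp_neg, mul_inv, inv_inv]
    have e2 : (fun z => (v0⁻¹ * exp z)⁻¹) = fun z => v0 * exp (-z) := by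
      funext z; rw [exp_neg, mul_inv, inv_inv]
    rw [e2, e1]; exact this
  obtain ⟨a', ha'⟩ := left_asym (inv_ne_zero hv0) hP'
  exact model_false C R S v0 hv0 hv1 hP a a' ha ha' (strip_bound hv0 hP) h0 h1

/-- The limit pair with exponential `u` and `w` does not exist. -/
theorem exp_pair_false {F G : ℂ → ℂ} {μ θ : ℂ} {p : ℕ} (hp : 2 ≤ p) (hμ : μ ≠ 0)
    (hP : Pair C F G (fun z => p * exp (θ * z) * μ) fun z => exp (-θ * z) * μ)
    (h0 : AnalyticAt ℂ F 0) (h1 : C.P (F 0) = 0) : False := by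
  have hp0 : (p : ℂ) ≠ 0 := by exact_mod_cast (by omega : p ≠ 0)
  have hp1 : (p : ℂ) ≠ 1 := by exact_mod_cast (by omega : p ≠ 1)
  rcases eq_or_ne θ 0 with rfl | hθ
  · have h2 := eta_zero hP (p := p) (fun z => by simp) h0 h1
    obtain ⟨m, n, -, -, h3, h4, h5, h6, -⟩ := hP.root_data h0 h1
    rw [h3, h4] at h2
    obtain rfl : m = n := by exact_mod_cast h2
    have h7 := mul_right_cancel₀ (C.deriv_ne h1) (h5.symm.trans h6)
    simp only [neg_zero, zero_mul, exp_zero, mul_one, one_mul] at h7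
    exact hp1 (mul_right_cancel₀ hμ (by rw [h7, one_mul]))
  · obtain ⟨v0, hv⟩ := IsAlgClosed.exists_pow_nat_eq (p : ℂ) two_pos
    have hv0 : v0 ≠ 0 := by rintro rfl; exact hp0 (by rw [← hv]; simp)
    have hK : μ * v0 / θ ≠ 0 := div_ne_zero (mul_ne_zero hμ hv0) hθ
    have h2 := (hP.aff 0 (inv_ne_zero hθ)).scale hK
    have e1 : (fun z => θ⁻¹ * (p * exp (θ * (0 + θ⁻¹ * z)) * μ) / (μ * v0 / θ)) =
        fun z => v0 * exp z := by
      funext z
      rw [zero_add, mul_inv_cancel_left₀ hθ, ← hv]; field_simp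
    have e2 : (fun z => θ⁻¹ * (exp (-θ * (0 + θ⁻¹ * z)) * μ) / (μ * v0 / θ)) =
        fun z => (v0 * exp z)⁻¹ := by
      funext z
      rw [zero_add, neg_mul, mul_inv_cancel_left₀ hθ, exp_neg]
      have := exp_ne_zero z
      field_simp
    rw [e1, e2] at h2
    refine model_none hv0 (by rw [hv]; exact hp1) h2 ?_ ?_
    · exact analyticAt_const.mul ((analyticAt_aff_iff 0 (inv_ne_zero hθ) 0).2 (by simpa using h0))
    · simp [hP.share 0 h0 (Or.inl h1)]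

theorem core_false (𝒰 : Ultrafilter ι) {f g u w : ι → ℂ → ℂ} {a : ℂ} {p : ℕ} (ha : C.P a = 0)
    (hp : 2 ≤ p) (hP : ∀ n, Pair C (f n) (g n) (u n) (w n))
    (h0 : ∀ n, AnalyticAt ℂ (f n) 0 ∧ f n 0 = a ∧ u n 0 = p * w n 0 ∧ w n 0 ≠ 0) {θ ε R : ι → ℝ}
    (hθ : ∀ n, 0 < θ n ∧ θ n ≤ 1 ∧ ‖w n 0‖ ≤ 1 ∧ (θ n = 1 ∨ ‖w n 0‖ = 1))
    (hb : ∀ n, ∀ z ∈ ball (0 : ℂ) (R n), u n z ≠ 0 ∧ w n z ≠ 0 ∧
      ‖deriv (u n) z / u n z - θ n‖ ≤ ε n * θ n ∧ ‖deriv (w n) z / w n z + θ n‖ ≤ ε n * θ n)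
    (hε : Tendsto ε 𝒰 (𝓝 0)) (hR : Tendsto (fun n => R n + 2 * Real.log ‖w n 0‖) 𝒰 atTop) :
    False := by
  have hp0 : (p : ℂ) ≠ 0 := by exact_mod_cast (by omega : p ≠ 0)
  have hp1 : (p : ℂ) ≠ 1 := by exact_mod_cast (by omega : p ≠ 1)
  have hR' : Tendsto R 𝒰 atTop := tendsto_atTop_mono (fun n => by
    linarith [Real.log_nonpos (norm_nonneg _) (hθ n).2.2.1]) hR
  obtain ⟨θ0, -, hθ0⟩ := (isCompact_Icc (a := (0 : ℝ)) (b := 1)).ultrafilter_le_nhds (𝒰.map θ) (by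
    rw [le_principal_iff, Ultrafilter.coe_map, mem_map]
    exact Eventually.of_forall fun n => ⟨(hθ n).1.le, (hθ n).2.1⟩)
  have tθ : Tendsto θ 𝒰 (𝓝 θ0) := hθ0
  have tθ' : Tendsto (fun n => (θ n : ℂ)) 𝒰 (𝓝 θ0) := (continuous_ofReal.tendsto _).comp tθ
  obtain ⟨μ, -, hμ⟩ := (isCompact_closedBall (0 : ℂ) 1).ultrafilter_le_nhds
    (𝒰.map fun n => w n 0) (by
      rw [le_principal_iff, Ultrafilter.coe_map, mem_map]
      exact Eventually.of_forall fun n => mem_closedBall_zero_iff.2 (hθ n).2.2.1)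
  have tμ : Tendsto (fun n => w n 0) 𝒰 (𝓝 μ) := hμ
  have tε : Tendsto (fun n => ε n * θ n) 𝒰 (𝓝 0) := by simpa using hε.mul tθ
  have ru : ∀ n, Rep (u n) (θ n) (ε n * θ n) (R n) := fun n =>
    rep_of_logDeriv (hP n).du fun z hz => ⟨(hb n z hz).1, (hb n z hz).2.2.1⟩
  have rw' : ∀ n, Rep (w n) (-θ n) (ε n * θ n) (R n) := fun n =>
    rep_of_logDeriv (hP n).dw fun z hz => ⟨(hb n z hz).2.1, by
      rw [sub_neg_eq_add]; exact (hb n z hz).2.2.2⟩
  have lw := rep_tendsto (Eventually.of_forall fun n => ⟨rw' n, (h0 n).2.2.2⟩) tθ'.neg tε hR'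
  have lu := rep_tendsto (Eventually.of_forall fun n => ⟨ru n, by
    rw [(h0 n).2.2.1]; exact mul_ne_zero hp0 (h0 n).2.2.2⟩) tθ' tε hR'
  have tw : ∀ z, Tendsto (fun q : ι × ℂ => w q.1 q.2) (𝒰 ×ˢ 𝓝 z) (𝓝 (exp (-θ0 * z) * μ)) :=
    fun z => ((lw z).mul (tμ.comp tendsto_fst)).congr fun q =>
      div_mul_cancel₀ _ (h0 q.1).2.2.2
  have tu : ∀ z, Tendsto (fun q : ι × ℂ => u q.1 q.2) (𝒰 ×ˢ 𝓝 z) (𝓝 (p * exp (θ0 * z) * μ)) :=
    fun z => (((lu z).const_mul (p : ℂ)).mul (tμ.comp tendsto_fst)).congr fun q => by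
      have := (h0 q.1).2.2.2
      simp only [Function.comp, (h0 q.1).2.2.1]
      field_simp
  have tH : ∀ z, Tendsto (fun q : ι × ℂ => u q.1 q.2 / w q.1 q.2) (𝒰 ×ˢ 𝓝 z)
      (𝓝 (p * exp (θ0 * z) / exp (-θ0 * z))) :=
    fun z => (((lu z).const_mul (p : ℂ)).div (lw z) (exp_ne_zero _)).congr fun q => by
      have := (h0 q.1).2.2.2
      simp only [Pi.div_apply, (h0 q.1).2.2.1]
      field_simp
  have hF : Fam (𝒰 : Filter ι) C f g u w := ⟨hP, fun z => (eventually_mem_ball hR' z).mono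
    fun q hq => ⟨(hb _ _ hq).1, (hb _ _ hq).2.1⟩⟩
  have hT : Tame (𝒰 : Filter ι) u w := by
    refine ⟨fun z => ⟨_, tu z⟩, fun z => ⟨_, tw z⟩, fun z => ⟨_, div_ne_zero
      (mul_ne_zero hp0 (exp_ne_zero _)) (exp_ne_zero _), tH z⟩, fun z => ⟨1 / 2, one_half_pos, ?_⟩⟩
    filter_upwards [hR'.eventually_ge_atTop (‖z‖ + 1), hε.eventually (gt_mem_nhds one_pos)]
      with n h1 h2 x hx y hy hxy
    have h3 : ball z (1 / 2) ⊆ ball 0 (R n) := ball_subset_ball' (by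
      rw [dist_zero_right]; linarith)
    have h4 : ‖(θ n : ℂ) - -θ n‖ = 2 * θ n := by
      rw [sub_neg_eq_add, ← ofReal_add, norm_real, Real.norm_of_nonneg (by linarith [(hθ n).1])]
      ring
    refine ((ru n).div (rw' n)).inj (by rw [h4]; nlinarith [(hθ n).1])
      (by rw [h4]; linarith [(hθ n).2.1]) (h3 hx) (h3 hy)
      (div_ne_zero (hb n x (h3 hx)).1 (hb n x (h3 hx)).2.1) ?_ hxy
    have := dist_triangle_right y x z
    rw [mem_ball] at hx hy
    rw [← dist_eq_norm]; linarith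
  obtain ⟨s, t, hs, ht⟩ := hT.normal 𝒰 hF
  have hfg : ∀ n, g n 0 = a := fun n => by
    rw [← (hP n).share 0 (h0 n).1 (Or.inl (by rw [(h0 n).2.1, ha])), (h0 n).2.1]
  have s0' : s 0 = s0 a := hs.eq_fin_of_freq ((tendsto_at_pt 0).frequently
    (Eventually.of_forall fun n => ⟨(h0 n).1, (h0 n).2.1⟩).frequently)
  have t0' : t 0 = s0 a := ht.eq_fin_of_freq ((tendsto_at_pt 0).frequently
    (Eventually.of_forall fun n => ⟨((hP n).pole 0).1 (h0 n).1, hfg n⟩).frequently)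
  obtain ⟨F, rF, rfl⟩ := (CCv.isHol (fun n => (hF.rf n).isHol) hs).exists_reg.resolve_left
    fun h => s0_ne_sI_zero a (by rw [← s0', h])
  obtain ⟨G, rG, rfl⟩ := (CCv.isHol (fun n => (hF.rg n).isHol) ht).exists_reg.resolve_left
    fun h => s0_ne_sI_zero a (by rw [← t0', h])
  obtain ⟨aF, vF⟩ := sph_eq_s0.1 s0'
  obtain ⟨aG, vG⟩ := sph_eq_s0.1 t0'
  rcases eq_or_ne μ 0 with rfl | hμ0
  · simp only [mul_zero] at tu tw
    have cH : Continuous fun z : ℂ => p * exp (θ0 * z) / exp (-θ0 * z) :=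
      Continuous.div (by fun_prop) (by fun_prop) fun z => exp_ne_zero _
    obtain ⟨c, rfl⟩ := rG.nc_or_const.resolve_left fun nG => hp1 (by
      simpa using limit_H hF hs ht rF rG nG tw tH aF aG cH.continuousAt)
    obtain ⟨c', rfl⟩ := rF.nc_or_const.resolve_left fun nF => hp1 (by
      have := limit_H (H := fun z : ℂ => (p * exp (θ0 * z) / exp (-θ0 * z))⁻¹) hF.swap ht hs rG rF
        nF (fun z => by simpa using (tu z).neg) (fun z => by
          simpa only [neg_div_neg_swap] using (tH z).inv₀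
            (div_ne_zero (mul_ne_zero hp0 (exp_ne_zero _)) (exp_ne_zero _))) aG aF
        (cH.continuousAt.inv₀ (div_ne_zero (mul_ne_zero hp0 (exp_ne_zero _)) (exp_ne_zero _)))
      simpa using this)
    subst vF
    obtain rfl : c = c' := vG
    refine mu_zero 𝒰 hF hT ha hp (hs.lc_const hF.rf) (ht.lc_const hF.rg) h0 ?_ hε tμ hR
    have h1 := tμ.norm
    rw [norm_zero] at h1
    filter_upwards [h1.eventually (gt_mem_nhds one_pos)] with n hn
    have h2 := (hθ n).2.2.2.resolve_right hn.ne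
    simpa [h2] using hb n
  · have hd := fun n => (hP n).root_deriv (h0 n).1 (by rw [(h0 n).2.1, ha]) (h0 n).2.2.2 hp
      (h0 n).2.2.1
    have dF : deriv F 0 = 0 := tendsto_nhds_unique (hs.loc hF.rf aF).deriv.lc.at_pt
      (by simp only [(hd _).1]; exact tendsto_const_nhds)
    have dG : deriv G 0 = -(μ * (3 * a ^ 2 + C.al)) :=
      tendsto_nhds_unique (ht.loc hF.rg aG).deriv.lc.at_pt
        (by simp only [(hd _).2, (h0 _).2.1]; exact (tμ.mul_const _).neg)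
    have dG' : deriv G 0 ≠ 0 := by
      rw [dG]; exact neg_ne_zero.2 (mul_ne_zero hμ0 (C.deriv_ne ha))
    have nG : NC G := rG.nc_or_const.resolve_right (by
      rintro ⟨c, rfl⟩; exact dG' (deriv_const _ _))
    have nF : NC F := rF.nc_or_const.resolve_right (by
      rintro ⟨c, rfl⟩
      obtain rfl : c = a := vF
      obtain ⟨b, b', h1, h2, h3, -, h4⟩ := C.exists_factor ha
      have h5 : ∀ z, AnalyticAt ℂ G z := fun z => by_contra fun hz =>
        sph_eq_sI.1 (limit_pole hP hs ht rG hz) analyticAt_const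
      refine nG.not_const (picard2' (fun z => (h5 z).differentiableAt) h3 0 fun z _ =>
        ⟨fun h6 => h1 ?_, fun h6 => h2 ?_⟩)
      · rw [← h6]
        exact (sph_eq_s0.1 (limit_root hP hs ht nG (h5 z) (by rw [h4, h6]; ring))).2
      · rw [← h6]
        exact (sph_eq_s0.1 (limit_root hP hs ht nG (h5 z) (by rw [h4, h6]; ring))).2)
    refine exp_pair_false hp hμ0 (limit_pair (z := 0) hP hs ht rF rG nF nG (by fun_prop)
      (by fun_prop) tu tw fun h => dG' ?_) aF (by rw [vF, ha])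
    have h1 : ∀ᶠ x in 𝓝 (0 : ℂ), F x = G x := (aF.frequently_eq_iff_eventually_eq aG).1
      ((meromorphicOrderAt_eq_top_iff.1 h).mono fun x hx => sub_eq_zero.1 hx).frequently
    rw [← EventuallyEq.deriv_eq h1, dF]

/-- The data of a good point. -/
def GoodPt (f u w : ℂ → ℂ) (a : ℂ) (p : ℕ) (k : ℝ) (M : ℕ) : Prop :=
  ∃ (y η : ℂ) (ρ : ℝ), AnalyticAt ℂ f y ∧ f y = a ∧ u y = p * w y ∧ η ≠ 0 ∧
    5 * (M : ℝ) ^ 2 ≤ ρ * ‖η‖ ∧ ‖η‖ ≤ k * Real.exp (2 * (M : ℝ) ^ 2) * ‖w y‖ ∧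
    ∀ z ∈ ball y ρ, u z ≠ 0 ∧ w z ≠ 0 ∧ ‖deriv u z / u z - η‖ ≤ ‖η‖ / M ∧
      ‖deriv w z / w z + η‖ ≤ ‖η‖ / M

theorem goodPt_false {f g u w : ℂ → ℂ} (hP : Pair C f g u w) {a : ℂ} (ha : C.P a = 0) {p : ℕ}
    (hp : 2 ≤ p) {k : ℝ} (hk : 1 ≤ k) (h : ∃ᶠ M in atTop, GoodPt f u w a p k M) : False := by
  obtain ⟨M, hM, hM'⟩ := extraction_of_frequently_atTop (h.and_eventually (eventually_ge_atTop 1))
  choose y η ρ h1 h2 h3 h4 h5 h6 h7 using fun n => (hM' n).1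
  have tM : Tendsto (fun n => (M n : ℝ)) (hyperfilter ℕ) atTop :=
    (tendsto_natCast_atTop_atTop.comp hM.tendsto_atTop).mono_left Nat.hyperfilter_le_atTop
  have M1 : ∀ n, (1 : ℝ) ≤ M n := fun n => by exact_mod_cast (hM' n).2
  have η0 : ∀ n, 0 < ‖η n‖ := fun n => norm_pos_iff.2 (h4 n)
  have ρ0 : ∀ n, 0 < ρ n := fun n =>
    pos_of_mul_pos_left (lt_of_lt_of_le (by nlinarith [M1 n]) (h5 n)) (η0 n).le
  set m : ℕ → ℝ := fun n => max ‖η n‖ ‖w (y n)‖ with hm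
  have m0 : ∀ n, 0 < m n := fun n => (η0 n).trans_le (le_max_left _ _)
  set s : ℕ → ℂ := fun n => (‖η n‖ / m n : ℝ) / η n with hs
  have sη : ∀ n, s n * η n = (‖η n‖ / m n : ℝ) := fun n => div_mul_cancel₀ _ (h4 n)
  have ns : ∀ n, ‖s n‖ = (m n)⁻¹ := fun n => by
    have := η0 n
    have := m0 n
    simp only [hs]
    rw [norm_div, norm_real, Real.norm_of_nonneg (by positivity)]
    field_simp
  have s0 : ∀ n, s n ≠ 0 := fun n => norm_pos_iff.1 (by rw [ns]; exact inv_pos.2 (m0 n))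
  have nw : ∀ n, ‖s n * w (y n + s n * 0)‖ = ‖w (y n)‖ / m n := fun n => by
    rw [mul_zero, add_zero, norm_mul, ns, inv_mul_eq_div]
  have w0 : ∀ n, 0 < ‖w (y n)‖ := fun n => norm_pos_iff.2 (h7 n _ (mem_ball_self (ρ0 n))).2.1
  refine core_false (hyperfilter ℕ) ha hp (fun n => hP.aff (y n) (s0 n))
    (θ := fun n => ‖η n‖ / m n) (ε := fun n => (M n : ℝ)⁻¹) (R := fun n => ρ n * m n)
    (fun n => ?_) (fun n => ?_) (fun n z hz => ?_) tM.inv_tendsto_atTop ?_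
  · refine ⟨(analyticAt_aff_iff _ (s0 n) 0).2 (by simpa using h1 n), by simpa using h2 n, ?_,
      norm_pos_iff.1 (by rw [nw]; exact div_pos (w0 n) (m0 n))⟩
    simp only [mul_zero, add_zero, h3]; ring
  · rw [nw]
    refine ⟨div_pos (η0 n) (m0 n), (div_le_one (m0 n)).2 (le_max_left _ _),
      (div_le_one (m0 n)).2 (le_max_right _ _), ?_⟩
    rcases le_total ‖η n‖ ‖w (y n)‖ with h8 | h8
    · right; simp only [hm, max_eq_right h8]; exact div_self (w0 n).ne'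
    · left; simp only [hm, max_eq_left h8]; exact div_self (η0 n).ne'
  · have h8 : y n + s n * z ∈ ball (y n) (ρ n) := by
      rw [mem_ball_zero_iff] at hz
      rw [mem_ball, dist_eq_norm, add_sub_cancel_left, norm_mul, ns, inv_mul_lt_iff₀ (m0 n)]
      linarith
    obtain ⟨a1, a2, a3, a4⟩ := h7 n _ h8
    have e1 : ∀ v : ℂ → ℂ, Differentiable ℂ v → v (y n + s n * z) ≠ 0 →
        deriv (fun z => s n * v (y n + s n * z)) z / (s n * v (y n + s n * z)) =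
          s n * (deriv v (y n + s n * z) / v (y n + s n * z)) := fun v hv hv' => by
      rw [deriv_const_mul_field, deriv_aff _ _ _ (hv _)]
      have := s0 n
      field_simp
    have e2 : (m n)⁻¹ * (‖η n‖ / M n) = (M n : ℝ)⁻¹ * (‖η n‖ / m n) := by ring
    refine ⟨mul_ne_zero (s0 n) a1, mul_ne_zero (s0 n) a2, ?_, ?_⟩
    · rw [e1 u hP.du a1, ← sη, ← mul_sub, norm_mul, ns, ← e2]
      exact mul_le_mul_of_nonneg_left a3 (inv_pos.2 (m0 n)).le
    · rw [e1 w hP.dw a2, ← sη, ← mul_add, norm_mul, ns, ← e2]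
      exact mul_le_mul_of_nonneg_left a4 (inv_pos.2 (m0 n)).le
  · refine tendsto_atTop_mono (fun n => ?_)
      (tendsto_atTop_add_const_right _ (-(2 * Real.log k)) tM)
    rw [nw]
    have e1 : m n ≤ k * Real.exp (2 * (M n : ℝ) ^ 2) * ‖w (y n)‖ := by
      refine max_le (h6 n) (le_mul_of_one_le_left (norm_nonneg _) ?_)
      exact one_le_mul_of_one_le_of_one_le hk (Real.one_le_exp (by positivity))
    have e2 := Real.log_le_log (m0 n) e1
    rw [Real.log_mul (by positivity) (w0 n).ne', Real.log_mul (by positivity) (by positivity),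
      Real.log_exp] at e2
    rw [Real.log_div (w0 n).ne' (m0 n).ne']
    have e3 : ρ n * ‖η n‖ ≤ ρ n * m n := mul_le_mul_of_nonneg_left (le_max_left _ _) (ρ0 n).le
    nlinarith [h5 n, M1 n]

theorem localFalse : LocalFalse := by
  intro C f g u w hP h
  have h1 : ∃ᶠ M in atTop, ∃ q : Fin 3 × Fin 47, GoodPt f u w (C.e q.1) (q.2 + 2) 1 M ∨
      GoodPt g (fun z => -w z) (fun z => -u z) (C.e q.1) (q.2 + 2) 48 M := by
    rw [frequently_atTop]
    intro M0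
    obtain ⟨M, hM, y, η, ρ, p, p1, p2, a1, a2, a3, a4, a5, a6, a7⟩ := h M0
    obtain ⟨i, hi⟩ := C.P_eq_zero_iff.1 a2
    obtain ⟨j, rfl⟩ : ∃ j : Fin 47, p = j + 2 := ⟨⟨p - 2, by omega⟩, by simp only; omega⟩
    refine ⟨M, hM, (i, j), a3.imp (fun a3 => ⟨y, η, ρ, a1, hi, a3, a4, a5, by rwa [one_mul], a7⟩)
      fun a3 => ⟨y, -η, ρ, (hP.pole y).1 a1, by rw [← hP.share y a1 (Or.inl a2), hi],
        by simp only [a3]; ring, neg_ne_zero.2 a4, by rwa [norm_neg], ?_, fun z hz => ?_⟩⟩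
    · rw [norm_neg, norm_neg]
      refine a6.trans ?_
      rw [a3, norm_mul, Complex.norm_natCast]
      have e1 : ((j + 2 : ℕ) : ℝ) ≤ 48 := by exact_mod_cast p2
      nlinarith [mul_nonneg (Real.exp_pos (2 * (M : ℝ) ^ 2)).le (norm_nonneg (u y))]
    · obtain ⟨b1, b2, b3, b4⟩ := a7 z hz
      simp only [deriv.fun_neg, neg_div_neg_eq, norm_neg, sub_neg_eq_add, ← sub_eq_add_neg]
      exact ⟨neg_ne_zero.2 b2, neg_ne_zero.2 b1, b4, b3⟩
  obtain ⟨q, hq⟩ := frequently_exists.1 h1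
  rcases frequently_or_distrib.1 hq with h2 | h2
  · exact goodPt_false hP (C.P_e _) (by omega) le_rfl h2
  · exact goodPt_false hP.swap (C.P_e _) (by omega) (by norm_num) h2

end Pool.Agent.Lib.MP_bb1814_an
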