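import Mathlib
import Pool.Agent.Lib.MP_bb1814_an.Iface
import Pool.Agent.Lib.MP_bb1814_an.Nev

/-!
The auxiliary functions of Mues type for four shared values: local orders and the count of
the points of one shared value.
-/

set_option maxHeartbeats 400000

namespace Pool.Agent.Lib.MP_bb1814_an

open Filter Topology Set Metric Real ValueDistribution

theorem exists_NF {f : ℂ → ℂ} (hf : Meromorphic f) :
    ∃ F, Reg F ∧ ∀ᶠ x in codiscrete ℂ, F x = f x := by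
  have h1 := meromorphicNFOn_toMeromorphicNFOn f univ
  refine ⟨toMeromorphicNFOn f univ, ⟨fun z => (h1 (mem_univ z)).meromorphicAt, fun z hz =>
    (h1 (mem_univ z)).meromorphicOrderAt_nonneg_iff_analyticAt.1 hz⟩, ev_codiscrete.2 fun z => ?_⟩
  exact (hf.meromorphicOn (s := univ)).toMeromorphicNFOn_eq_self_on_nhdsNE (mem_univ z)

theorem ordGe_of_an {F : ℂ → ℂ} {z : ℂ} (h : AnalyticAt ℂ F z) : OrdGe F z 0 :=
  ⟨h.meromorphicAt, h.meromorphicOrderAt_nonneg⟩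

theorem ordGe_one_of_zero {F : ℂ → ℂ} {z : ℂ} (h : AnalyticAt ℂ F z) (h0 : F z = 0) :
    OrdGe F z 1 :=
  ⟨h.meromorphicAt, by simpa using one_le_of_pos (order_pos_of_zero h h0)⟩

theorem ordEq_zero_of_ne {F : ℂ → ℂ} {z : ℂ} (h : AnalyticAt ℂ F z) (h0 : F z ≠ 0) :
    OrdEq F z 0 :=
  ⟨h.meromorphicAt, order_eq_zero_of_ne h h0⟩

theorem OrdGe.congr {F G : ℂ → ℂ} {z : ℂ} {n : ℤ} (hF : OrdGe F z n)
    (h : ∀ᶠ x in 𝓝[≠] z, F x = G x) : OrdGe G z n :=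
  ⟨hF.1.congr h, by rw [← meromorphicOrderAt_congr h]; exact hF.2⟩

theorem OrdEq.congr {F G : ℂ → ℂ} {z : ℂ} {n : ℤ} (hF : OrdEq F z n)
    (h : ∀ᶠ x in 𝓝[≠] z, F x = G x) : OrdEq G z n :=
  ⟨hF.1.congr h, by rw [← meromorphicOrderAt_congr h]; exact hF.2⟩

theorem OrdEq.ev_ne {F : ℂ → ℂ} {z : ℂ} {n : ℤ} (hF : OrdEq F z n) : ∀ᶠ x in 𝓝[≠] z, F x ≠ 0 :=
  (meromorphicOrderAt_ne_top_iff_eventually_ne_zero hF.1).1
    (by rw [hF.2]; exact WithTop.coe_ne_top)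

theorem ordEq_pos {F : ℂ → ℂ} {z : ℂ} (hF : MeromorphicAt F z) (h : meromorphicOrderAt F z ≠ ⊤)
    (h0 : 0 < meromorphicOrderAt F z) : ∃ n, 0 < n ∧ OrdEq F z n := by
  obtain ⟨n, hn⟩ := ordEq_of_ne_top hF h
  rw [hn.2] at h0
  exact ⟨n, by exact_mod_cast h0, hn⟩

theorem OrdEq.deriv_of_sub {F : ℂ → ℂ} {z a : ℂ} {n : ℤ} (hF : OrdEq (fun x => F x - a) z n)
    (hn : n ≠ 0) : OrdEq (_root_.deriv F) z (n - 1) := by
  have h2 : _root_.deriv (fun x => F x - a) = _root_.deriv F := by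
    ext x; exact deriv_sub_const _
  rw [← h2]
  exact hF.deriv hn

/-- One half of the auxiliary function. -/
noncomputable def tm (F : ℂ → ℂ) (p q r s : ℂ) (x : ℂ) : ℂ :=
  deriv F x * (F x - p) * ((F x - q) * (F x - r) * (F x - s))⁻¹

/-- The auxiliary function. -/
noncomputable def Xi (f g : ℂ → ℂ) (p q r s : ℂ) (x : ℂ) : ℂ := tm f p q r s x - tm g p q r s x

theorem tm_mero {F : ℂ → ℂ} (hF : Meromorphic F) (p q r s : ℂ) : Meromorphic (tm F p q r s) :=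
  fun z => ((hF z).deriv.mul (mero_sub_const hF p z)).mul
    (((mero_sub_const hF q z).mul (mero_sub_const hF r z)).mul (mero_sub_const hF s z)).inv

theorem Xi_mero {f g : ℂ → ℂ} (hf : Meromorphic f) (hg : Meromorphic g) (p q r s : ℂ) :
    Meromorphic (Xi f g p q r s) := (tm_mero hf p q r s).sub (tm_mero hg p q r s)

theorem Xi_swap1 (f g : ℂ → ℂ) (p q r s : ℂ) : Xi f g p q r s = Xi f g p r q s := by
  funext x; simp only [Xi, tm]; ring

theorem Xi_swap2 (f g : ℂ → ℂ) (p q r s : ℂ) : Xi f g p q r s = Xi f g p s r q := by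
  funext x; simp only [Xi, tm]; ring

theorem tm_an {F : ℂ → ℂ} {z p q r s : ℂ} (h : AnalyticAt ℂ F z) (hq : F z ≠ q) (hr : F z ≠ r)
    (hs : F z ≠ s) : AnalyticAt ℂ (tm F p q r s) z :=
  (h.deriv.mul (h.sub analyticAt_const)).mul
    ((((h.sub analyticAt_const).mul (h.sub analyticAt_const)).mul (h.sub analyticAt_const)).inv
      (mul_ne_zero (mul_ne_zero (sub_ne_zero.2 hq) (sub_ne_zero.2 hr)) (sub_ne_zero.2 hs)))

theorem tm_nonneg {F : ℂ → ℂ} (hF : Reg F) {z p q r s : ℂ}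
    (hq : ¬ 0 < meromorphicOrderAt (fun x => F x - q) z)
    (hr : ¬ 0 < meromorphicOrderAt (fun x => F x - r) z)
    (hs : ¬ 0 < meromorphicOrderAt (fun x => F x - s) z) : OrdGe (tm F p q r s) z 0 := by
  by_cases h : AnalyticAt ℂ F z
  · refine ordGe_of_an (tm_an h (fun e => hq ?_) (fun e => hr ?_) (fun e => hs ?_)) <;>
      exact order_pos_of_zero (h.sub analyticAt_const) (by simp [e])
  · obtain ⟨n, hn, hf⟩ := hF.ordEq_neg h
    exact (((hf.deriv hn.ne).mul (hf.sub_const hn p)).mul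
      (((hf.sub_const hn q).mul (hf.sub_const hn r)).mul (hf.sub_const hn s)).inv).ge.mono
      (by omega)

theorem tm_pos {F : ℂ → ℂ} (hF : Reg F) {z p q r s : ℂ} (hpq : p ≠ q) (hpr : p ≠ r) (hps : p ≠ s)
    (hp : 0 < meromorphicOrderAt (fun x => F x - p) z) : OrdGe (tm F p q r s) z 1 := by
  obtain ⟨h, e⟩ := hF.of_order_pos hp
  exact ordGe_one_of_zero (tm_an h (e ▸ hpq) (e ▸ hpr) (e ▸ hps)) (by simp [tm, e])

theorem Xi_at {f g : ℂ → ℂ} (hf : Reg f) (hg : Reg g) {z p q r s : ℂ} (hqr : q ≠ r) (hqs : q ≠ s)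
    {n m : ℤ} (hn : 0 < n) (hm : 0 < m) (h1 : OrdEq (fun x => f x - q) z n)
    (h2 : OrdEq (fun x => g x - q) z m) :
    OrdGe (Xi f g p q r s) z (-1) ∧ (n = m → OrdGe (Xi f g p q r s) z 0) := by
  obtain ⟨fa, fe⟩ := hf.of_order_pos (z := z) (a := q) (by rw [h1.2]; exact_mod_cast hn)
  obtain ⟨ga, ge⟩ := hg.of_order_pos (z := z) (a := q) (by rw [h2.2]; exact_mod_cast hm)
  have hh : ∀ {F : ℂ → ℂ}, AnalyticAt ℂ F z → F z = q →
      AnalyticAt ℂ (fun x => (F x - p) * ((F x - r) * (F x - s))⁻¹) z := fun {F} h e =>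
    (h.sub analyticAt_const).mul (((h.sub analyticAt_const).mul (h.sub analyticAt_const)).inv
      (mul_ne_zero (sub_ne_zero.2 (e ▸ hqr)) (sub_ne_zero.2 (e ▸ hqs))))
  have lf : OrdGe (fun x => deriv f x * (f x - q)⁻¹) z (-1) :=
    ((h1.deriv_of_sub hn.ne').mul h1.inv).ge.mono (by omega)
  have lg : OrdGe (fun x => deriv g x * (g x - q)⁻¹) z (-1) :=
    ((h2.deriv_of_sub hm.ne').mul h2.inv).ge.mono (by omega)
  have hd : OrdGe (fun x => (f x - p) * ((f x - r) * (f x - s))⁻¹ -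
      (g x - p) * ((g x - r) * (g x - s))⁻¹) z 1 :=
    ordGe_one_of_zero ((hh fa fe).sub (hh ga ge)) (by simp [fe, ge])
  have key : ∀ k : ℤ, k ≤ 0 →
      OrdGe (fun x => deriv f x * (f x - q)⁻¹ - deriv g x * (g x - q)⁻¹) z k →
      OrdGe (Xi f g p q r s) z k := fun k hk h => by
    refine (((h.mul (ordGe_of_an (hh fa fe))).mono (m := k) (by omega)).add
      ((lg.mul hd).mono (m := k) (by omega))).congr (Eventually.of_forall fun x => ?_)
    simp only [Xi, tm, mul_inv]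
    ring
  refine ⟨key _ (by omega) (lf.sub lg), fun hnm => key _ le_rfl ?_⟩
  subst hnm
  have h3 : OrdEq (fun x => (f x - q) * (g x - q)⁻¹) z 0 := by simpa using h1.mul h2.inv
  have h4 : OrdGe (logDeriv fun x => (f x - q) * (g x - q)⁻¹) z 0 :=
    ⟨h3.1.logDeriv, meromorphicOrderAt_logDeriv_nonneg h3.1 h3.2⟩
  refine h4.congr ?_
  filter_upwards [h1.ev_ne, h2.ev_ne, (hf.mero z).eventually_analyticAt,
    (hg.mero z).eventually_analyticAt] with x e1 e2 e3 e4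
  have d1 := (e3.differentiableAt.hasDerivAt.sub_const q).mul
    ((e4.differentiableAt.hasDerivAt.sub_const q).inv e2)
  have d2 : HasDerivAt (fun x => (f x - q) * (g x - q)⁻¹) _ x := d1
  rw [logDeriv_apply, d2.deriv]
  simp only [Pi.inv_apply]
  field_simp
  ring

theorem tm_bound {p q r s : ℂ} (hqr : q ≠ r) (hqs : q ≠ s) (hrs : r ≠ s) :
    ∃ K : ℝ, 0 ≤ K ∧ ∀ (F : ℂ → ℂ) (x : ℂ) (E : ℝ), F x ≠ q → F x ≠ r → F x ≠ s →
      ‖deriv F x / (F x - q)‖ ≤ E → ‖deriv F x / (F x - r)‖ ≤ E → ‖deriv F x / (F x - s)‖ ≤ E →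
      ‖tm F p q r s x‖ ≤ K * E := by
  refine ⟨‖(q - p) / ((q - r) * (q - s))‖ + ‖(r - p) / ((r - q) * (r - s))‖ +
    ‖(s - p) / ((s - q) * (s - r))‖, by positivity, fun F x E h1 h2 h3 e1 e2 e3 => ?_⟩
  have h0 := sub_ne_zero.2 h1
  have h1 := sub_ne_zero.2 h2
  have h2 := sub_ne_zero.2 h3
  have h01 := sub_ne_zero.2 hqr
  have h02 := sub_ne_zero.2 hqs
  have h12 := sub_ne_zero.2 hrs
  have h10 := sub_ne_zero.2 hqr.symm
  have h20 := sub_ne_zero.2 hqs.symm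
  have h21 := sub_ne_zero.2 hrs.symm
  have key : tm F p q r s x =
      (q - p) / ((q - r) * (q - s)) * (deriv F x / (F x - q)) +
      (r - p) / ((r - q) * (r - s)) * (deriv F x / (F x - r)) +
      (s - p) / ((s - q) * (s - r)) * (deriv F x / (F x - s)) := by
    unfold tm
    field_simp
    ring
  rw [key]
  refine (norm_add₃_le).trans ?_
  simp only [norm_mul _ (deriv F x / _), add_mul]
  gcongr

/-- The circle condition for one function and one value. -/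
def Circ (F : ℂ → ℂ) (a : ℂ) (ρ E : ℝ) : Prop :=
  ∀ z : ℂ, ‖z‖ = ρ → AnalyticAt ℂ F z ∧ F z ≠ a ∧ ‖deriv F z / (F z - a)‖ ≤ E

/-- The values shared by two functions, ignoring multiplicities. -/
def Sh (f g : ℂ → ℂ) (a : ℂ) : Prop :=
  ∀ z, 0 < meromorphicOrderAt (fun x => f x - a) z ↔ 0 < meromorphicOrderAt (fun x => g x - a) z

/-- The points where the multiplicities differ lie in `X`. -/
def Dif (f g : ℂ → ℂ) (a : ℂ) (X : Set ℂ) : Prop :=
  ∀ z, 0 < meromorphicOrderAt (fun x => f x - a) z →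
    meromorphicOrderAt (fun x => f x - a) z ≠ meromorphicOrderAt (fun x => g x - a) z → z ∈ X

theorem Xi_pole_aux {f g : ℂ → ℂ} (hf : Reg f) (hg : Reg g) (ncf : ∀ c, NZ fun x => f x - c)
    (ncg : ∀ c, NZ fun x => g x - c) {p q r s : ℂ} (hqr : q ≠ r) (hqs : q ≠ s) (sq : Sh f g q)
    {X : Set ℂ} (dq : Dif f g q X) {z : ℂ} (hz : meromorphicOrderAt (Xi f g p q r s) z < 0)
    (h : 0 < meromorphicOrderAt (fun x => f x - q) z) :
    z ∈ X ∧ ((-1 : ℤ) : WithTop ℤ) ≤ meromorphicOrderAt (Xi f g p q r s) z := by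
  obtain ⟨n, hn, h1⟩ := ordEq_pos (mero_sub_const hf.mero q z) (ncf q z) h
  obtain ⟨m, hm, h2⟩ := ordEq_pos (mero_sub_const hg.mero q z) (ncg q z) ((sq z).1 h)
  obtain ⟨k1, k2⟩ := Xi_at (p := p) hf hg hqr hqs hn hm h1 h2
  refine ⟨dq z h fun e => ?_, k1.2⟩
  rw [h1.2, h2.2] at e
  exact absurd (k2 (by exact_mod_cast e)).2 (not_le.2 hz)

theorem Nb_le_of_Xi {f g : ℂ → ℂ} (hf : Reg f) (hg : Reg g) (ncf : ∀ c, NZ fun x => f x - c)
    (ncg : ∀ c, NZ fun x => g x - c) {p q r s : ℂ} (hpq : p ≠ q) (hpr : p ≠ r) (hps : p ≠ s)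
    (hqr : q ≠ r) (hqs : q ≠ s) (hrs : r ≠ s) (sp : Sh f g p) (sq : Sh f g q) (sr : Sh f g r)
    (ss : Sh f g s) {X : Set ℂ} (hX : LocFin X) (dq : Dif f g q X) (dr : Dif f g r X)
    (ds : Dif f g s X) (hne : NZ (Xi f g p q r s)) :
    ∃ c : ℝ, ∀ ρ E : ℝ, 1 ≤ ρ → 1 ≤ E → Circ f q ρ E → Circ f r ρ E → Circ f s ρ E →
      Circ g q ρ E → Circ g r ρ E → Circ g s ρ E →
      Nb {z | 0 < meromorphicOrderAt (fun x => f x - p) z} ρ ≤ Nb X ρ + log E + c := by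
  have hm := Xi_mero hf.mero hg.mero p q r s
  obtain ⟨c, hc⟩ := fmt hm 0
  obtain ⟨K, hK0, hK⟩ := tm_bound (p := p) hqr hqs hrs
  refine ⟨c + log (2 * K + 1), fun ρ E hρ hE f1 f2 f3 g1 g2 g3 => ?_⟩
  have e1 := Nb_le_zeros hm hne (X := {z | 0 < meromorphicOrderAt (fun x => f x - p) z}) (m := 1)
    (fun z hz => ((tm_pos hf hpq hpr hps hz).sub (tm_pos hg hpq hpr hps ((sp z).1 hz))).2)
    le_rfl hρ
  have e2 := (hc ρ hρ).2.2.1
  simp only [sub_zero] at e2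
  have e3 : proximity (Xi f g p q r s) ⊤ ρ ≤ log ((2 * K + 1) * E) := by
    refine proximity_le_of_bound (by linarith) (by nlinarith) (fun z hz => ?_) hm
    have b1 := hK f z E (f1 z hz).2.1 (f2 z hz).2.1 (f3 z hz).2.1 (f1 z hz).2.2 (f2 z hz).2.2
      (f3 z hz).2.2
    have b2 := hK g z E (g1 z hz).2.1 (g2 z hz).2.1 (g3 z hz).2.1 (g1 z hz).2.2 (g2 z hz).2.2
      (g3 z hz).2.2
    exact (norm_sub_le _ _).trans (by nlinarith)
  have e4 := poles_le_Nb hm hX (r := ρ) (fun z hz => by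
    by_cases h1 : 0 < meromorphicOrderAt (fun x => f x - q) z
    · exact Xi_pole_aux hf hg ncf ncg hqr hqs sq dq hz h1
    by_cases h2 : 0 < meromorphicOrderAt (fun x => f x - r) z
    · rw [Xi_swap1] at hz ⊢
      exact Xi_pole_aux hf hg ncf ncg hqr.symm hrs sr dr hz h2
    by_cases h3 : 0 < meromorphicOrderAt (fun x => f x - s) z
    · rw [Xi_swap2] at hz ⊢
      exact Xi_pole_aux hf hg ncf ncg hrs.symm hqs.symm ss ds hz h3
    exact absurd ((tm_nonneg (p := p) hf h1 h2 h3).sub (tm_nonneg (p := p) hg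
      (fun h => h1 ((sq z).2 h)) (fun h => h2 ((sr z).2 h)) (fun h => h3 ((ss z).2 h)))).2
      (not_le.2 hz)) hρ
  rw [log_mul (by linarith) (by linarith)] at e3
  rw [T_eq] at e2
  simp only [Nat.cast_one, one_mul] at e1
  linarith

end Pool.Agent.Lib.MP_bb1814_an
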