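import Mathlib
import Pool.Agent.Lib.MP_bb1814_an.XiA

/-!
The degenerate case of two vanishing auxiliary functions, and the construction of a pair.
-/

set_option maxHeartbeats 400000

namespace Pool.Agent.Lib.MP_bb1814_an

open Filter Topology Set Metric Real ValueDistribution

theorem NZ.ev_ne' {F : ℂ → ℂ} (hF : Meromorphic F) (nc : ∀ c, NZ fun x => F x - c) (c : ℂ) :
    ∀ᶠ z in codiscrete ℂ, F z ≠ c :=
  ((nc c).ev_ne (mero_sub_const hF c)).mono fun _ h => sub_ne_zero.1 h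

theorem pos_of_mob {F Ψ : ℂ → ℂ} {z p q r : ℂ} (hF : MeromorphicAt F z) (hpq : p ≠ q)
    (hrq : r ≠ q) (h : ∀ᶠ x in 𝓝[≠] z, F x ≠ q ∧ Ψ x = (F x - p) / (F x - q))
    (ht : Tendsto Ψ (𝓝[≠] z) (𝓝 ((r - p) / (r - q)))) :
    0 < meromorphicOrderAt (fun x => F x - r) z := by
  have h1 := sub_ne_zero.2 hrq
  have h2 := sub_ne_zero.2 hpq.symm
  have h3 : (r - p) / (r - q) - 1 = (q - p) / (r - q) := by field_simp; ring
  have h4 : (r - p) / (r - q) - 1 ≠ 0 := by rw [h3]; exact div_ne_zero h2 h1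
  refine (tendsto_zero_iff_meromorphicOrderAt_pos (hF.sub (MeromorphicAt.const r z))).1 ?_
  have h5 := (((ht.sub_const 1).inv₀ h4).const_mul (q - p)).sub_const (r - q)
  have h6 : (q - p) * ((r - p) / (r - q) - 1)⁻¹ - (r - q) = 0 := by rw [h3]; field_simp; ring
  rw [h6] at h5
  refine h5.congr' ?_
  filter_upwards [h] with x hx
  have h7 := sub_ne_zero.2 hx.1
  have h8 : (F x - p) / (F x - q) - 1 = (q - p) / (F x - q) := by field_simp; ring
  rw [hx.2, h8]
  simp only [Pi.sub_apply]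
  field_simp
  ring

theorem omit_of_sum {f g : ℂ → ℂ} (hf : Reg f) (hg : Reg g) {p q r : ℂ} (hrp : r ≠ p)
    (hrq : r ≠ q) (sr : Sh f g r)
    (hS : ∀ᶠ x in codiscrete ℂ, (f x - p) * (g x - q) + (f x - q) * (g x - p) = 0) (z : ℂ) :
    ¬ 0 < meromorphicOrderAt (fun x => f x - r) z := by
  intro h
  obtain ⟨fa, fe⟩ := hf.of_order_pos h
  obtain ⟨ga, ge⟩ := hg.of_order_pos ((sr z).1 h)
  have h1 := fa.continuousAt
  have h2 := ga.continuousAt
  have h3 := eq_of_nhdsNE (F := fun x => (f x - p) * (g x - q) + (f x - q) * (g x - p))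
    (G := fun _ => 0) (z := z) (by fun_prop) continuousAt_const (ev_codiscrete.1 hS z)
  simp only [fe, ge] at h3
  have h4 : (r - p) * (r - q) = 0 := by linear_combination h3 / 2
  exact mul_ne_zero (sub_ne_zero.2 hrp) (sub_ne_zero.2 hrq) h4

theorem harmonic_of_sum {f g : ℂ → ℂ} (hf : Reg f) (hg : Reg g) (ncf : ∀ c, NZ fun x => f x - c)
    (ncg : ∀ c, NZ fun x => g x - c) {p q r s : ℂ} (hpq : p ≠ q) (hrp : r ≠ p)
    (hrq : r ≠ q) (hsp : s ≠ p) (hsq : s ≠ q) (hrs : r ≠ s) (sr : Sh f g r) (ss : Sh f g s)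
    (hS : ∀ᶠ x in codiscrete ℂ, (f x - p) * (g x - q) + (f x - q) * (g x - p) = 0) :
    (r - p) * (s - q) = -((r - q) * (s - p)) := by
  by_contra hcon
  obtain ⟨Φ, hΦ, e⟩ := exists_NF (f := fun x => (f x - p) / (f x - q))
    ((mero_sub_const hf.mero p).div (mero_sub_const hf.mero q))
  have h1 := sub_ne_zero.2 hrq
  have h2 := sub_ne_zero.2 hsq
  have h3 := sub_ne_zero.2 hrp
  have h4 := sub_ne_zero.2 hpq
  have h5 := sub_ne_zero.2 hrs
  have ef : ∀ᶠ x in codiscrete ℂ, f x ≠ q ∧ Φ x = (f x - p) / (f x - q) :=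
    (NZ.ev_ne' hf.mero ncf q).and e
  have eg : ∀ᶠ x in codiscrete ℂ, g x ≠ q ∧ -Φ x = (g x - p) / (g x - q) := by
    filter_upwards [ef, NZ.ev_ne' hg.mero ncg q, hS] with x a1 a2 a3
    have a4 := sub_ne_zero.2 a1.1
    have a5 := sub_ne_zero.2 a2
    refine ⟨a2, ?_⟩
    rw [a1.2]
    field_simp
    linear_combination -a3
  obtain ⟨k, hk⟩ := picard3 hΦ (a := (r - p) / (r - q)) (b := (s - p) / (s - q))
    (c := -((r - p) / (r - q)))
    (fun h => by
      field_simp at h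
      exact mul_ne_zero h4 h5 (by linear_combination h))
    (fun h => div_ne_zero h3 h1 (by linear_combination h / 2))
    (fun h => hcon (by
      field_simp at h
      linear_combination h))
    (fun z hz => by
      have ht : Tendsto Φ (𝓝[≠] z) (𝓝 (Φ z)) := hz.continuousAt.continuousWithinAt.tendsto
      refine ⟨fun h => ?_, fun h => ?_, fun h => ?_⟩
      · exact omit_of_sum hf hg hrp hrq sr hS z
          (pos_of_mob (hf.mero z) hpq hrq (ev_codiscrete.1 ef z) (h ▸ ht))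
      · exact omit_of_sum hf hg hsp hsq ss hS z
          (pos_of_mob (hf.mero z) hpq hsq (ev_codiscrete.1 ef z) (h ▸ ht))
      · refine omit_of_sum hf hg hrp hrq sr hS z ((sr z).2
          (pos_of_mob (Ψ := fun x => -Φ x) (hg.mero z) hpq hrq (ev_codiscrete.1 eg z) ?_))
        have := ht.neg
        rwa [h, neg_neg] at this)
  obtain ⟨x, a1, a2⟩ := (ev_codiscrete.1
    (ef.and (NZ.ev_ne' hf.mero ncf (q + (q - p) / (k - 1)))) 0).exists
  have a3 := sub_ne_zero.2 a1.1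
  have a4 : k - 1 = (q - p) / (f x - q) := by
    rw [← hk x, a1.2]; field_simp; ring
  have a5 := sub_ne_zero.2 hpq.symm
  apply a2
  rw [a4]
  field_simp
  ring

theorem quot_nonneg (C : Cub) {F H : ℂ → ℂ} (hF : Reg F) (nc : ∀ c, NZ fun x => F x - c) {z : ℂ}
    (h1 : ∀ n < 0, OrdEq F z n → OrdGe H z n)
    (h2 : AnalyticAt ℂ F z → AnalyticAt ℂ H z ∧ (C.P (F z) = 0 → H z = 0)) :
    OrdGe (fun x => deriv F x * H x * (C.P (F x))⁻¹) z 0 := by
  by_cases h : AnalyticAt ℂ F z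
  · obtain ⟨ha, h0⟩ := h2 h
    by_cases hP : C.P (F z) = 0
    · obtain ⟨b, c, hb, hc, -, -, e⟩ := C.exists_factor hP
      obtain ⟨n, hn, h3⟩ := ordEq_pos (mero_sub_const hF.mero (F z) z) (nc _ z)
        (order_pos_of_zero (h.sub analyticAt_const) (by simp))
      have h4 : OrdEq (fun x => F x - b) z 0 :=
        ordEq_zero_of_ne (h.sub analyticAt_const) (sub_ne_zero.2 hb)
      have h5 : OrdEq (fun x => F x - c) z 0 :=
        ordEq_zero_of_ne (h.sub analyticAt_const) (sub_ne_zero.2 hc)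
      simp only [e]
      exact (((h3.deriv_of_sub hn.ne').ge.mul (ordGe_one_of_zero ha (h0 hP))).mul
        ((h3.mul h4).mul h5).inv.ge).mono (by omega)
    · exact ordGe_of_an ((h.deriv.mul ha).mul (((C.analyticAt_P _).comp h).inv hP))
  · obtain ⟨n, hn, hf⟩ := hF.ordEq_neg h
    exact (((hf.deriv hn.ne).ge.mul (h1 n hn hf)).mul (hf.P C hn).inv.ge).mono (by omega)

theorem exists_quot (C : Cub) {F H : ℂ → ℂ} (hF : Reg F) (nc : ∀ c, NZ fun x => F x - c)
    (h1 : ∀ z, ∀ n < 0, OrdEq F z n → OrdGe H z n)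
    (h2 : ∀ z, AnalyticAt ℂ F z → AnalyticAt ℂ H z ∧ (C.P (F z) = 0 → H z = 0)) :
    ∃ u, Differentiable ℂ u ∧ ∀ z, AnalyticAt ℂ F z → deriv F z * H z = u z * C.P (F z) := by
  have h3 := fun z => quot_nonneg C hF nc (h1 z) (h2 z)
  obtain ⟨u, hu, e⟩ := exists_NF (fun z => (h3 z).1)
  have hua : ∀ z, AnalyticAt ℂ u z := fun z => hu.an z
    ((h3 z).congr ((ev_codiscrete.1 e z).mono fun _ h => h.symm)).2
  refine ⟨u, fun z => (hua z).differentiableAt, fun z hz => ?_⟩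
  refine eq_of_nhdsNE (F := fun x => deriv F x * H x) (G := fun x => u x * C.P (F x))
    (hz.deriv.mul (h2 z hz).1).continuousAt
    ((hua z).mul ((C.analyticAt_P _).comp hz)).continuousAt ?_
  filter_upwards [ev_codiscrete.1 e z, ev_codiscrete.1 (ev_P_ne C hF.mero nc) z] with x a1 a2
  rw [a1]
  field_simp

theorem exists_pair (C : Cub) {F G : ℂ → ℂ} (hF : Reg F) (hG : Reg G)
    (ncF : ∀ c, NZ fun x => F x - c) (ncG : ∀ c, NZ fun x => G x - c)
    (ne : NZ fun x => F x - G x) (sh : ∀ k, Sh F G (C.e k))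
    (po : ∀ z, ∀ n < 0, OrdEq F z n ↔ OrdEq G z n) : ∃ u w, Pair C F G u w := by
  have hpole : ∀ z, AnalyticAt ℂ F z ↔ AnalyticAt ℂ G z := fun z => by
    constructor
    · intro h
      by_contra h1
      obtain ⟨n, hn, h2⟩ := hG.ordEq_neg h1
      have := ((po z n hn).2 h2).le_of (ordGe_of_an h) (Eventually.of_forall fun _ => rfl)
      omega
    · intro h
      by_contra h1
      obtain ⟨n, hn, h2⟩ := hF.ordEq_neg h1
      have := ((po z n hn).1 h2).le_of (ordGe_of_an h) (Eventually.of_forall fun _ => rfl)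
      omega
  have hshare : ∀ z, AnalyticAt ℂ F z → (C.P (F z) = 0 ∨ C.P (G z) = 0) → F z = G z := by
    intro z hz h
    rcases h with h | h
    · obtain ⟨k, hk⟩ := C.P_eq_zero_iff.1 h
      rw [hk, (hG.of_order_pos ((sh k z).1
        (order_pos_of_zero (hz.sub analyticAt_const) (by simp [hk])))).2]
    · obtain ⟨k, hk⟩ := C.P_eq_zero_iff.1 h
      rw [hk, (hF.of_order_pos ((sh k z).2
        (order_pos_of_zero (((hpole z).1 hz).sub analyticAt_const) (by simp [hk])))).2]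
  obtain ⟨u, hu, eu⟩ := exists_quot C (H := fun x => F x - G x) hF ncF
    (fun z n hn h => h.ge.sub ((po z n hn).1 h).ge)
    (fun z hz => ⟨hz.sub ((hpole z).1 hz), fun h => sub_eq_zero.2 (hshare z hz (Or.inl h))⟩)
  obtain ⟨w, hw, ew⟩ := exists_quot C (H := fun x => F x - G x) hG ncG
    (fun z n hn h => ((po z n hn).2 h).ge.sub h.ge)
    (fun z hz => ⟨((hpole z).2 hz).sub hz,
      fun h => sub_eq_zero.2 (hshare z ((hpole z).2 hz) (Or.inr h))⟩)
  exact ⟨u, w, hF, hG, hu, hw, hpole, eu, fun z hz => ew z ((hpole z).1 hz), ncF, ncG, ne, hshare⟩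

section Norm

variable {f F : ℂ → ℂ} {a c : ℂ}

theorem norm_nc (hf : Meromorphic f) (nc : ∀ c, NZ fun x => f x - c) (hF : Meromorphic F)
    (e : ∀ᶠ x in codiscrete ℂ, F x = (f x - a)⁻¹ - c) (k : ℂ) : NZ fun x => F x - k := by
  refine NZ_of_ev (mero_sub_const hF k) ?_
  filter_upwards [e, NZ.ev_ne' hf nc (a + (k + c)⁻¹)] with x h1 h2 h3
  apply h2
  have h4 : k + c = (f x - a)⁻¹ := by linear_combination h1 - h3
  rw [h4, inv_inv]
  ring

theorem norm_pole (e : ∀ᶠ x in codiscrete ℂ, F x = (f x - a)⁻¹ - c) (z : ℂ) {n : ℤ} (hn : n < 0) :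
    OrdEq F z n ↔ OrdEq (fun x => f x - a) z (-n) := by
  constructor
  · intro h
    have h1 := (h.sub_const hn (-c)).inv
    refine h1.congr ?_
    filter_upwards [ev_codiscrete.1 e z] with x hx
    simp [hx]
  · intro h
    have h1 := h.inv
    rw [neg_neg] at h1
    exact (h1.sub_const hn c).congr ((ev_codiscrete.1 e z).mono fun _ h => h.symm)

theorem norm_root (hf : Reg f) (nc : ∀ c, NZ fun x => f x - c)
    (e : ∀ᶠ x in codiscrete ℂ, F x = (f x - a)⁻¹ - c) {b z : ℂ} (hb : b ≠ a)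
    (h : 0 < meromorphicOrderAt (fun x => f x - b) z) :
    meromorphicOrderAt (fun x => F x - ((b - a)⁻¹ - c)) z =
      meromorphicOrderAt (fun x => f x - b) z := by
  obtain ⟨n, -, h1⟩ := ordEq_pos (mero_sub_const hf.mero b z) (nc b z) h
  obtain ⟨fa, fe⟩ := hf.of_order_pos h
  have h0 := sub_ne_zero.2 hb
  have h2 : OrdEq (fun x => f x - a) z 0 :=
    ordEq_zero_of_ne (fa.sub analyticAt_const) (by rw [fe]; exact h0)
  have h3 := (h1.mul h2.inv).const_mul (c := -(b - a)⁻¹) (neg_ne_zero.2 (inv_ne_zero h0))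
  have h4 : OrdEq (fun x => F x - ((b - a)⁻¹ - c)) z (n + -0) := by
    refine h3.congr ?_
    filter_upwards [ev_codiscrete.1 e z, h2.ev_ne] with x a1 a2
    rw [a1]
    field_simp
    ring
  rw [h4.2, h1.2]
  simp

theorem norm_root_iff (hf : Reg f) (nc : ∀ c, NZ fun x => f x - c) (hF : Meromorphic F)
    (e : ∀ᶠ x in codiscrete ℂ, F x = (f x - a)⁻¹ - c) {b : ℂ} (hb : b ≠ a) (z : ℂ) :
    0 < meromorphicOrderAt (fun x => F x - ((b - a)⁻¹ - c)) z ↔
      0 < meromorphicOrderAt (fun x => f x - b) z := by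
  refine ⟨fun h => ?_, fun h => by rwa [norm_root hf nc e hb h]⟩
  have h0 := sub_ne_zero.2 hb
  rw [← tendsto_zero_iff_meromorphicOrderAt_pos (mero_sub_const hF _ z)] at h
  rw [← tendsto_zero_iff_meromorphicOrderAt_pos (mero_sub_const hf.mero _ z)]
  have h1 := ((h.add_const (b - a)⁻¹).inv₀ (by simpa using h0)).sub_const (b - a)
  simp only [zero_add, inv_inv, sub_self] at h1
  refine h1.congr' ?_
  filter_upwards [ev_codiscrete.1 e z] with x hx
  have : F x - ((b - a)⁻¹ - c) + (b - a)⁻¹ = (f x - a)⁻¹ := by rw [hx]; ring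
  rw [this, inv_inv]
  ring

theorem norm_T (hf : Meromorphic f) (e : ∀ᶠ x in codiscrete ℂ, F x = (f x - a)⁻¹ - c) :
    ∃ k : ℝ, ∀ r : ℝ, 1 ≤ r → T F r ≤ T f r + k ∧ T f r ≤ T F r + k := by
  have h1 := mero_sub_const hf a
  obtain ⟨c1, -, e1⟩ := T_shift_le hf a
  obtain ⟨c2, -, e2⟩ := T_inv_le h1
  obtain ⟨c3, -, e3⟩ := T_shift_le h1.inv c
  refine ⟨c1 + c2 + c3, fun r hr => ?_⟩
  have e4 : T F r = T (fun z => (fun z => f z - a)⁻¹ z - c) r := T_congr e hr
  constructor <;> linarith [(e1 r).1, (e1 r).2, (e2 r).1, (e2 r).2, (e3 r).1, (e3 r).2]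

end Norm

end Pool.Agent.Lib.MP_bb1814_an
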