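import Mathlib
import Pool.Agent.Lib.MP_bb1814_an.Iface
import Pool.Agent.Lib.MP_bb1814_an.Nev
import Pool.Agent.Lib.MP_bb1814_an.XiB

/-!
The four-value theorem with one value shared counting multiplicities, from `PairMany`.
-/

set_option maxHeartbeats 400000

namespace Pool.Agent.Lib.MP_bb1814_an

open Filter Topology Set Metric Real ValueDistribution

/-- The auxiliary function attached to the index `j`. -/
noncomputable def Xj (f g : ℂ → ℂ) (a : Fin 4 → ℂ) (j : Fin 4) : ℂ → ℂ :=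
  Xi f g (a j) (a (j.succAbove 0)) (a (j.succAbove 1)) (a (j.succAbove 2))

theorem tm_index (F : ℂ → ℂ) (a : Fin 4 → ℂ) (j : Fin 4) (x : ℂ) (h : F x ≠ a j) :
    tm F (a j) (a (j.succAbove 0)) (a (j.succAbove 1)) (a (j.succAbove 2)) x =
      deriv F x * (∏ i, (F x - a i))⁻¹ * (F x - a j) ^ 2 := by
  have h0 := sub_ne_zero.2 h
  rw [Fin.prod_univ_succAbove _ j, Fin.prod_univ_three, mul_inv (F x - a j), tm]
  field_simp

theorem sum_zero_of_two {f g : ℂ → ℂ} (hf : Reg f) (hg : Reg g) (ncf : ∀ c, NZ fun x => f x - c)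
    (ncg : ∀ c, NZ fun x => g x - c) (ne : NZ fun x => f x - g x) {a : Fin 4 → ℂ}
    (ha : Function.Injective a) {j k : Fin 4} (hjk : j ≠ k) (hj : ¬ NZ (Xj f g a j))
    (hk : ¬ NZ (Xj f g a k)) :
    ∀ᶠ x in codiscrete ℂ, (f x - a j) * (g x - a k) + (f x - a k) * (g x - a j) = 0 := by
  filter_upwards [ev_zero_of_not_NZ (Xi_mero hf.mero hg.mero _ _ _ _) hj,
    ev_zero_of_not_NZ (Xi_mero hf.mero hg.mero _ _ _ _) hk,
    eventually_all.2 fun i => NZ.ev_ne' hf.mero ncf (a i),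
    eventually_all.2 fun i => NZ.ev_ne' hg.mero ncg (a i),
    (NZ_deriv hf.mero ncf).ev_ne hf.mero.deriv, ne.ev_ne (hf.mero.sub hg.mero)]
    with x e1 e2 e3 e4 e5 e6
  simp only [Xi] at e1 e2
  rw [tm_index f a j x (e3 j), tm_index g a j x (e4 j)] at e1
  rw [tm_index f a k x (e3 k), tm_index g a k x (e4 k)] at e2
  have h1 : deriv f x * (∏ i, (f x - a i))⁻¹ ≠ 0 :=
    mul_ne_zero e5 (inv_ne_zero (Finset.prod_ne_zero_iff.2 fun i _ => sub_ne_zero.2 (e3 i)))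
  have h2 : a j - a k ≠ 0 := sub_ne_zero.2 (ha.ne hjk)
  apply mul_left_cancel₀ (mul_ne_zero h1 (mul_ne_zero h2 e6))
  linear_combination (g x - a k) ^ 2 * e1 - (g x - a j) ^ 2 * e2

theorem T_le_of_three {f g : ℂ → ℂ} (hf : Reg f) (hg : Reg g) (ncf : ∀ c, NZ fun x => f x - c)
    (ncg : ∀ c, NZ fun x => g x - c) {a : Fin 4 → ℂ} (ha : Function.Injective a)
    (sh : ∀ i, Sh f g (a i)) {X : Set ℂ} (hX : LocFin X) (hd : ∀ i, Dif f g (a i) X) (j : Fin 4)
    (hj : ∀ i : Fin 3, NZ (Xj f g a (j.succAbove i))) :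
    ∃ K : ℝ, ∀ ρ E : ℝ, 1 ≤ ρ → 1 ≤ E → (∀ i, Circ f (a i) ρ E) → (∀ i, Circ g (a i) ρ E) →
      T f ρ + T g ρ ≤ 8 * Nb X ρ + 12 * log E + K := by
  have hN : ∀ i : Fin 4, NZ (Xj f g a i) → ∃ c : ℝ, ∀ ρ E : ℝ, 1 ≤ ρ → 1 ≤ E →
      (∀ i, Circ f (a i) ρ E) → (∀ i, Circ g (a i) ρ E) →
      Nb {z | 0 < meromorphicOrderAt (fun x => f x - a i) z} ρ ≤ Nb X ρ + log E + c := by
    intro i hi
    have hs : ∀ k l : Fin 3, k ≠ l → a (i.succAbove k) ≠ a (i.succAbove l) := fun k l h =>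
      ha.ne (Fin.succAbove_right_injective.ne h)
    have hs' : ∀ k : Fin 3, a i ≠ a (i.succAbove k) := fun k => ha.ne (Fin.succAbove_ne i k).symm
    obtain ⟨c, hc⟩ := Nb_le_of_Xi hf hg ncf ncg (hs' 0) (hs' 1) (hs' 2) (hs 0 1 (by decide))
      (hs 0 2 (by decide)) (hs 1 2 (by decide)) (sh _) (sh _) (sh _) (sh _) hX (hd _) (hd _)
      (hd _) hi
    exact ⟨c, fun ρ E h1 h2 h3 h4 => hc ρ E h1 h2 (h3 _) (h3 _) (h3 _) (h4 _) (h4 _) (h4 _)⟩
  obtain ⟨c0, e0⟩ := hN _ (hj 0)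
  obtain ⟨c1, e1⟩ := hN _ (hj 1)
  obtain ⟨c2, e2⟩ := hN _ (hj 2)
  have hs : ∀ k l : Fin 3, k ≠ l → a (j.succAbove k) ≠ a (j.succAbove l) := fun k l h =>
    ha.ne (Fin.succAbove_right_injective.ne h)
  obtain ⟨Kf, hKf⟩ := three_values hf.mero ncf (hs 0 1 (by decide)) (hs 0 2 (by decide))
    (hs 1 2 (by decide))
  obtain ⟨Kg, hKg⟩ := three_values hg.mero ncg (hs 0 1 (by decide)) (hs 0 2 (by decide))
    (hs 1 2 (by decide))
  refine ⟨2 * (c0 + c1 + 2 * c2) + Kf + Kg, fun ρ E h1 h2 h3 h4 => ?_⟩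
  have b1 := hKf ρ E h1 h2 fun z hz => ⟨(h3 0 z hz).1, (h3 _ z hz).2.1, (h3 _ z hz).2.1,
    (h3 _ z hz).2.1, (h3 _ z hz).2.2, (h3 _ z hz).2.2, (h3 _ z hz).2.2⟩
  have b2 := hKg ρ E h1 h2 fun z hz => ⟨(h4 0 z hz).1, (h4 _ z hz).2.1, (h4 _ z hz).2.1,
    (h4 _ z hz).2.1, (h4 _ z hz).2.2, (h4 _ z hz).2.2, (h4 _ z hz).2.2⟩
  have hs2 : ∀ i, {z | 0 < meromorphicOrderAt (fun x => g x - a i) z} =
      {z | 0 < meromorphicOrderAt (fun x => f x - a i) z} := fun i =>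
    Set.ext fun z => (sh i z).symm
  rw [hs2, hs2, hs2] at b2
  linarith [e0 ρ E h1 h2 h3 h4, e1 ρ E h1 h2 h3 h4, e2 ρ E h1 h2 h3 h4]

theorem not_three (hPM : PairMany) {f g : ℂ → ℂ} (hf : Reg f) (hg : Reg g)
    (ncf : ∀ c, NZ fun x => f x - c) (ncg : ∀ c, NZ fun x => g x - c)
    (ne : NZ fun x => f x - g x) {a : Fin 4 → ℂ} (ha : Function.Injective a)
    (sh : ∀ i, Sh f g (a i)) {i0 : Fin 4}
    (cm : ∀ z, 0 < meromorphicOrderAt (fun x => f x - a i0) z →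
      meromorphicOrderAt (fun x => f x - a i0) z = meromorphicOrderAt (fun x => g x - a i0) z)
    (j : Fin 4) (hj : ∀ i : Fin 3, NZ (Xj f g a (j.succAbove i))) : False := by
  have hb : ∀ k : Fin 3, a (i0.succAbove k) ≠ a i0 := fun k => ha.ne (Fin.succAbove_ne i0 k)
  set d : Fin 3 → ℂ := fun k => (a (i0.succAbove k) - a i0)⁻¹ with hd
  set c : ℂ := (d 0 + d 1 + d 2) / 3 with hc
  let C : Cub := ⟨fun k => d k - c, fun k l h => by
      have h1 : d k = d l := sub_left_injective h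
      exact Fin.succAbove_right_injective (ha (sub_left_injective (inv_injective h1))),
    by rw [hc]; ring⟩
  obtain ⟨F, hF, eF⟩ := exists_NF (f := fun x => (f x - a i0)⁻¹ - c)
    (mero_sub_const (mero_sub_const hf.mero _).inv c)
  obtain ⟨G, hG, eG⟩ := exists_NF (f := fun x => (g x - a i0)⁻¹ - c)
    (mero_sub_const (mero_sub_const hg.mero _).inv c)
  have ncF := norm_nc hf.mero ncf hF.mero eF
  have ncG := norm_nc hg.mero ncg hG.mero eG
  obtain ⟨u, w, hP⟩ := exists_pair C hF hG ncF ncG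
    (by
      refine NZ_of_ev (hF.mero.sub hG.mero) ?_
      filter_upwards [eF, eG, ne.ev_ne (hf.mero.sub hg.mero)] with x h1 h2 h3 h4
      rw [h1, h2] at h4
      have h5 : (f x - a i0)⁻¹ = (g x - a i0)⁻¹ := by linear_combination h4
      exact h3 (by linear_combination inv_injective h5))
    (fun k z => (norm_root_iff hf ncf hF.mero eF (hb k) z).trans
      ((sh _ z).trans (norm_root_iff hg ncg hG.mero eG (hb k) z).symm))
    (fun z n hn => by
      rw [norm_pole eF z hn, norm_pole eG z hn]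
      have hn' : (0 : WithTop ℤ) < ((-n : ℤ) : WithTop ℤ) := by exact_mod_cast neg_pos.2 hn
      constructor
      · intro h
        exact ⟨mero_sub_const hg.mero _ z, by rw [← cm z (by rw [h.2]; exact hn'), h.2]⟩
      · intro h
        exact ⟨mero_sub_const hf.mero _ z, by
          rw [cm z ((sh i0 z).2 (by rw [h.2]; exact hn')), h.2]⟩)
  have hX : LocFin (NonCM C F G) := by
    have h1 : Meromorphic fun x => C.P (F x) := fun z =>
      ((mero_sub_const hF.mero _ z).mul (mero_sub_const hF.mero _ z)).mul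
        (mero_sub_const hF.mero _ z)
    refine (locFin_pos h1 (NZ_of_ev h1 (ev_P_ne C hF.mero ncF))).mono fun z hz => ?_
    exact order_pos_of_zero ((C.analyticAt_P _).comp hz.1) hz.2.1
  have hD : ∀ i, Dif f g (a i) (NonCM C F G) := by
    intro i z h1 h2
    have hi : i ≠ i0 := by
      rintro rfl
      exact h2 (cm z h1)
    obtain ⟨k, rfl⟩ := Fin.exists_succAbove_eq hi
    have h3 := norm_root hf ncf eF (hb k) h1
    have h4 := norm_root hg ncg eG (hb k) ((sh _ z).1 h1)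
    obtain ⟨h5, h6⟩ := hF.of_order_pos (h3 ▸ h1)
    refine ⟨h5, by rw [h6]; exact C.P_e k, ?_⟩
    rw [h6, h3, h4]
    exact h2
  obtain ⟨K, hK⟩ := T_le_of_three hf hg ncf ncg ha sh hX hD j hj
  obtain ⟨kf, hkf⟩ := norm_T hf.mero eF
  obtain ⟨kg, hkg⟩ := norm_T hg.mero eG
  refine hPM C F G u w hP (Fin 4 ⊕ Fin 4)
    (Sum.elim (fun i x => f x - a i) (fun i x => g x - a i)) ?_ ?_ ?_ (max 12 (K + kf + kg)) ?_
  · rintro (i | i)
    · exact mero_sub_const hf.mero _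
    · exact mero_sub_const hg.mero _
  · rintro (i | i)
    · exact ncf _
    · exact ncg _
  · rintro (i | i)
    · obtain ⟨c1, e1⟩ := fmt hf.mero (a i)
      refine ⟨c1 + kf, fun r hr => ?_⟩
      have := (e1 r hr).1
      have := (hkf r hr).2
      have := T_nonneg G hr
      change T (fun x => f x - a i) r ≤ T F r + T G r + _
      linarith
    · obtain ⟨c1, e1⟩ := fmt hg.mero (a i)
      refine ⟨c1 + kg, fun r hr => ?_⟩
      have := (e1 r hr).1
      have := (hkg r hr).2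
      have := T_nonneg F hr
      change T (fun x => g x - a i) r ≤ T F r + T G r + _
      linarith
  · intro ρ E h1 h2 h3
    have b := hK ρ E h1 h2 (fun i z hz => hf.circle (h3 (Sum.inl i) z hz))
      (fun i z hz => hg.circle (h3 (Sum.inr i) z hz))
    have := (hkf ρ h1).1
    have := (hkg ρ h1).1
    have := mul_le_mul_of_nonneg_right (le_max_left 12 (K + kf + kg)) (log_nonneg h2)
    have := le_max_right 12 (K + kf + kg)
    change T F ρ + T G ρ ≤ 8 * Nb (NonCM C F G) ρ + _ + _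
    linarith

theorem exists_perm (j k : Fin 4) (h : j ≠ k) : ∃ σ : Equiv.Perm (Fin 4), σ 2 = j ∧ σ 3 = k :=
  ⟨Equiv.swap 2 j * Equiv.swap 3 (Equiv.swap 2 j k), by revert j k; decide⟩

theorem two_or_three (p : Fin 4 → Prop) :
    (∃ j k, j ≠ k ∧ ¬ p j ∧ ¬ p k) ∨ ∃ j : Fin 4, ∀ i : Fin 3, p (j.succAbove i) := by
  by_cases h : ∃ j, ¬ p j
  · obtain ⟨j, hj⟩ := h
    by_cases h1 : ∀ i : Fin 3, p (j.succAbove i)
    · exact Or.inr ⟨j, h1⟩
    · obtain ⟨i, hi⟩ := not_forall.1 h1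
      exact Or.inl ⟨j, _, (Fin.succAbove_ne j i).symm, hj, hi⟩
  · exact Or.inr ⟨0, fun i => by_contra fun h1 => h ⟨_, h1⟩⟩

theorem main_of_pairMany (hPM : PairMany) :
  ∀ (f g : ℂ → ℂ) (a : Fin 4 → ℂ),
    MeromorphicOn f Set.univ → MeromorphicOn g Set.univ →
    (∀ (c z : ℂ), meromorphicOrderAt (fun w => f w - c) z ≠ ⊤) →
    (∀ (c z : ℂ), meromorphicOrderAt (fun w => g w - c) z ≠ ⊤) →
    (∃ z : ℂ, meromorphicOrderAt (fun w => f w - g w) z ≠ ⊤) →
    Function.Injective a →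
    (∀ (i : Fin 4) (z : ℂ),
      0 < meromorphicOrderAt (fun w => f w - a i) z ↔
        0 < meromorphicOrderAt (fun w => g w - a i) z) →
    (∃ i : Fin 4, ∀ z : ℂ,
      0 < meromorphicOrderAt (fun w => f w - a i) z →
        meromorphicOrderAt (fun w => f w - a i) z =
          meromorphicOrderAt (fun w => g w - a i) z) →
    ∃ σ : Equiv.Perm (Fin 4),
      (a (σ 0) - a (σ 2)) * (a (σ 1) - a (σ 3)) =
          -((a (σ 0) - a (σ 3)) * (a (σ 1) - a (σ 2))) ∧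
      (∀ z : ℂ, meromorphicOrderAt
          (fun w => (f w - a (σ 2)) * (g w - a (σ 3)) +
                    (f w - a (σ 3)) * (g w - a (σ 2))) z = ⊤) ∧
      (∀ z : ℂ, ¬ 0 < meromorphicOrderAt (fun w => f w - a (σ 0)) z) ∧
      (∀ z : ℂ, ¬ 0 < meromorphicOrderAt (fun w => f w - a (σ 1)) z) ∧
      (∀ z : ℂ, ¬ 0 < meromorphicOrderAt (fun w => g w - a (σ 0)) z) ∧
      (∀ z : ℂ, ¬ 0 < meromorphicOrderAt (fun w => g w - a (σ 1)) z) := by
  intro f0 g0 a hf0 hg0 ncf0 ncg0 ⟨z0, hz0⟩ ha sh0 ⟨i0, cm0⟩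
  obtain ⟨f, hf, ef⟩ := exists_NF (meromorphicOn_univ.1 hf0)
  obtain ⟨g, hg, eg⟩ := exists_NF (meromorphicOn_univ.1 hg0)
  have of : ∀ c z, meromorphicOrderAt (fun w => f0 w - c) z =
      meromorphicOrderAt (fun w => f w - c) z := fun c z =>
    meromorphicOrderAt_congr ((ev_codiscrete.1 ef z).mono fun x hx => by simp only [hx])
  have og : ∀ c z, meromorphicOrderAt (fun w => g0 w - c) z =
      meromorphicOrderAt (fun w => g w - c) z := fun c z =>
    meromorphicOrderAt_congr ((ev_codiscrete.1 eg z).mono fun x hx => by simp only [hx])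
  simp only [of, og] at ncf0 ncg0 sh0 cm0 ⊢
  have ne : NZ fun x => f x - g x := by
    refine NZ_of_point (hf.mero.sub hg.mero) (z := z0) ?_
    rwa [meromorphicOrderAt_congr (f₂ := fun w => f0 w - g0 w)]
    filter_upwards [ev_codiscrete.1 ef z0, ev_codiscrete.1 eg z0] with x h1 h2
    simp only [h1, h2]
  rcases two_or_three fun j => NZ (Xj f g a j) with ⟨j, k, hjk, hj, hk⟩ | ⟨j, hj⟩
  · obtain ⟨σ, rfl, rfl⟩ := exists_perm j k hjk
    have hS := sum_zero_of_two hf hg ncf0 ncg0 ne ha hjk hj hk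
    have hs : ∀ k l : Fin 4, k ≠ l → a (σ k) ≠ a (σ l) := fun k l h => ha.ne (σ.injective.ne h)
    have o0 := omit_of_sum hf hg (hs 0 2 (by decide)) (hs 0 3 (by decide)) (sh0 _) hS
    have o1 := omit_of_sum hf hg (hs 1 2 (by decide)) (hs 1 3 (by decide)) (sh0 _) hS
    refine ⟨σ, harmonic_of_sum hf hg ncf0 ncg0 (hs 2 3 (by decide)) (hs 0 2 (by decide))
      (hs 0 3 (by decide)) (hs 1 2 (by decide)) (hs 1 3 (by decide)) (hs 0 1 (by decide))
      (sh0 _) (sh0 _) hS, fun z => ?_, o0, o1, fun z h => o0 z ((sh0 _ z).2 h),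
      fun z h => o1 z ((sh0 _ z).2 h)⟩
    rw [meromorphicOrderAt_eq_top_iff]
    filter_upwards [ev_codiscrete.1 hS z, ev_codiscrete.1 ef z, ev_codiscrete.1 eg z]
      with x h1 h2 h3
    rw [← h2, ← h3]
    exact h1
  · exact (not_three hPM hf hg ncf0 ncg0 ne ha sh0 cm0 j hj).elim

end Pool.Agent.Lib.MP_bb1814_an
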