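import Mathlib
import Pool.Agent.Lib.MP_bb1814_an.Count
import Pool.Agent.Lib.MP_bb1814_an.Xi

/-!
The four-value theorem when, at one shared value, each multiplicity is less than twice the other.
-/

set_option maxHeartbeats 400000

namespace Pool.Agent.Lib.MP_bb1814_an

open Filter Topology Set Metric Real ValueDistribution

namespace Ratio

theorem quot_nonneg (C : Cub) {F H : ℂ → ℂ} (hF : Reg F) (nc : ∀ c, NZ fun x => F x - c) {z : ℂ}
    (h1 : ∀ n < 0, OrdEq F z n → OrdGe H z (2 * n + 1))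
    (h2 : AnalyticAt ℂ F z → AnalyticAt ℂ H z ∧ (C.P (F z) = 0 → H z = 0)) :
    OrdGe (fun x => deriv F x * H x * (C.P (F x))⁻¹) z 0 := by
  by_cases h : AnalyticAt ℂ F z
  · refine Pool.Agent.Lib.MP_bb1814_an.quot_nonneg C hF nc (fun n hn hf => ?_) h2
    have := hf.le_of (ordGe_of_an h) (Eventually.of_forall fun _ => rfl)
    omega
  · obtain ⟨n, hn, hf⟩ := hF.ordEq_neg h
    exact (((hf.deriv hn.ne).ge.mul (h1 n hn hf)).mul (hf.P C hn).inv.ge).mono (by omega)

theorem exists_quot (C : Cub) {F H : ℂ → ℂ} (hF : Reg F) (nc : ∀ c, NZ fun x => F x - c)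
    (h1 : ∀ z, ∀ n < 0, OrdEq F z n → OrdGe H z (2 * n + 1))
    (h2 : ∀ z, AnalyticAt ℂ F z → AnalyticAt ℂ H z ∧ (C.P (F z) = 0 → H z = 0)) :
    ∃ u, Differentiable ℂ u ∧ ∀ z, AnalyticAt ℂ F z → deriv F z * H z = u z * C.P (F z) := by
  have h3 := fun z => quot_nonneg C hF nc (h1 z) (h2 z)
  obtain ⟨u, hu, e⟩ := exists_NF (fun z => (h3 z).1)
  have hua : ∀ z, AnalyticAt ℂ u z := fun z => hu.an z
    ((h3 z).congr ((ev_codiscrete.1 e z).mono fun _ h => h.symm)).2
  refine ⟨u, fun z => (hua z).differentiableAt, fun z hz => ?_⟩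
  refine eq_of_nhdsNE (F := fun x => deriv F x * H x) (G := fun x => u x * C.P (F x))
    (hz.deriv.mul (h2 z hz).1).continuousAt
    ((hua z).mul ((C.analyticAt_P _).comp hz)).continuousAt ?_
  filter_upwards [ev_codiscrete.1 e z, ev_codiscrete.1 (ev_P_ne C hF.mero nc) z] with x a1 a2
  rw [a1]
  field_simp

theorem exists_pair (C : Cub) {F G : ℂ → ℂ} (hF : Reg F) (hG : Reg G)
    (ncF : ∀ c, NZ fun x => F x - c) (ncG : ∀ c, NZ fun x => G x - c)
    (ne : NZ fun x => F x - G x) (sh : ∀ k, Sh F G (C.e k))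
    (po : ∀ z, ∀ n < 0, OrdEq F z n → ∃ m < 0, OrdEq G z m ∧ 2 * n < m)
    (po' : ∀ z, ∀ m < 0, OrdEq G z m → ∃ n < 0, OrdEq F z n ∧ 2 * m < n) :
    ∃ u w, Pair C F G u w := by
  have hpole : ∀ z, AnalyticAt ℂ F z ↔ AnalyticAt ℂ G z := fun z => by
    constructor
    · intro h
      by_contra h1
      obtain ⟨m, hm, h2⟩ := hG.ordEq_neg h1
      obtain ⟨n, hn, h3, -⟩ := po' z m hm h2
      have := h3.le_of (ordGe_of_an h) (Eventually.of_forall fun _ => rfl)
      omega
    · intro h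
      by_contra h1
      obtain ⟨n, hn, h2⟩ := hF.ordEq_neg h1
      obtain ⟨m, hm, h3, -⟩ := po z n hn h2
      have := h3.le_of (ordGe_of_an h) (Eventually.of_forall fun _ => rfl)
      omega
  have hshare : ∀ z, AnalyticAt ℂ F z → (C.P (F z) = 0 ∨ C.P (G z) = 0) → F z = G z := by
    intro z hz h
    rcases h with h | h
    · obtain ⟨k, hk⟩ := C.P_eq_zero_iff.1 h
      rw [hk, (hG.of_order_pos ((sh k z).1
        (order_pos_of_zero (hz.sub analyticAt_const) (by simp [hk])))).2]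
    · obtain ⟨k, hk⟩ := C.P_eq_zero_iff.1 h
      rw [hk, (hF.of_order_pos ((sh k z).2
        (order_pos_of_zero (((hpole z).1 hz).sub analyticAt_const) (by simp [hk])))).2]
  obtain ⟨u, hu, eu⟩ := exists_quot C (H := fun x => F x - G x) hF ncF
    (fun z n hn h => by
      obtain ⟨m, -, h1, h2⟩ := po z n hn h
      exact (h.ge.mono (by omega)).sub (h1.ge.mono (by omega)))
    (fun z hz => ⟨hz.sub ((hpole z).1 hz), fun h => sub_eq_zero.2 (hshare z hz (Or.inl h))⟩)
  obtain ⟨w, hw, ew⟩ := exists_quot C (H := fun x => F x - G x) hG ncG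
    (fun z m hm h => by
      obtain ⟨n, -, h1, h2⟩ := po' z m hm h
      exact (h1.ge.mono (by omega)).sub (h.ge.mono (by omega)))
    (fun z hz => ⟨((hpole z).2 hz).sub hz,
      fun h => sub_eq_zero.2 (hshare z ((hpole z).2 hz) (Or.inr h))⟩)
  exact ⟨u, w, hF, hG, hu, hw, hpole, eu, fun z hz => ew z ((hpole z).1 hz), ncF, ncG, ne, hshare⟩

variable {C : Cub} {F G u w : ℂ → ℂ}

/-- A pole that is multiple for both functions is a zero of `u w`. -/
theorem mem_Zs (hP : Pair C F G u w) {z : ℂ} {n m : ℤ} (hn : n ≤ -2) (hm : m ≤ -2)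
    (h1 : OrdEq F z n) (h2 : OrdEq G z m) : z ∈ Cnt.Zs u w := by
  have hd : OrdGe (fun x => F x - G x) z (min n m) :=
    (h1.ge.mono (min_le_left _ _)).sub (h2.ge.mono (min_le_right _ _))
  have a1 := ((h1.deriv (by omega)).ge.mul hd).mul (h1.P C (by omega)).inv.ge
  have a2 := ((h2.deriv (by omega)).ge.mul hd).mul (h2.P C (by omega)).inv.ge
  have a3 : OrdGe (fun x => u x * w x) z 1 := by
    refine ((a1.mul a2).mono (by omega)).congr ?_
    filter_upwards [(hP.rf.mero z).eventually_analyticAt,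
      ev_codiscrete.1 (ev_P_ne C hP.rf.mero hP.ncf) z,
      ev_codiscrete.1 (ev_P_ne C hP.rg.mero hP.ncg) z] with x b1 b2 b3
    rw [hP.odef x b1, hP.odeg x b1]
    field_simp
  exact zero_of_order_pos (F := fun x => u x * w x) ((Cnt.diff_psi hP).analyticAt z)
    (lt_of_lt_of_le (b := ((1 : ℤ) : WithTop ℤ)) (WithTop.coe_pos.2 one_pos) a3.2)

/-- The zeros of `u w` are few on a good circle. -/
theorem Nb_Zs (hP : Pair C F G u w) : ∃ K : ℝ, ∀ ρ E : ℝ, 1 ≤ ρ → 1 ≤ E →
    (∀ j, Circ F (C.e j) ρ E) → (∀ j, Circ G (C.e j) ρ E) →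
    Nb (Cnt.Zs u w) ρ ≤ 2 * log E + K := by
  obtain ⟨K0, hK0, hpf⟩ := Cnt.pf_bound C
  have mψ := Cnt.mero_of_diff (Cnt.diff_psi hP)
  obtain ⟨c, -, hc⟩ := Cnt.fmt0 mψ
  refine ⟨log (4 * K0 ^ 2) + c, fun ρ E h1 h2 h3 h4 => ?_⟩
  have e1 := Nb_le_zeros mψ (Cnt.nz_psi hP) (X := Cnt.Zs u w) (m := 1)
    (fun z hz => Cnt.one_le_order ((Cnt.diff_psi hP).analyticAt z) hz) le_rfl h1
  have e2 := (hc ρ h1).1
  have e3 := Cnt.logCounting_top_entire (Cnt.diff_psi hP) h1
  have hKE : 1 ≤ K0 * E := by nlinarith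
  have e4 := proximity_le_of_bound (F := fun z => u z * w z) (E := 4 * K0 ^ 2 * E ^ 2)
    (by linarith : 0 < ρ) (by nlinarith) (fun z hz => by
      obtain ⟨f0, f1, f2⟩ := hpf _ _ _ (fun j => (h3 j z hz).2.1) fun j => (h3 j z hz).2.2
      obtain ⟨g0, g1, g2⟩ := hpf _ _ _ (fun j => (h4 j z hz).2.1) fun j => (h4 j z hz).2.2
      have b : C.P (F z) ≠ 0 := fun h => by
        obtain ⟨j, hj⟩ := C.P_eq_zero_iff.1 h
        exact (h3 j z hz).2.1 hj
      have b' : C.P (G z) ≠ 0 := fun h => by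
        obtain ⟨j, hj⟩ := C.P_eq_zero_iff.1 h
        exact (h4 j z hz).2.1 hj
      have hu : u z = deriv F z * (F z - G z) / C.P (F z) := by
        rw [hP.odef z (h3 0 z hz).1]; field_simp
      have hw : w z = deriv G z * (F z - G z) / C.P (G z) := by
        rw [hP.odeg z (h3 0 z hz).1]; field_simp
      have e : u z * w z = (F z ^ 2 * deriv F z / C.P (F z)) * (deriv G z / C.P (G z)) -
          2 * ((F z * deriv F z / C.P (F z)) * (G z * deriv G z / C.P (G z))) +
          (deriv F z / C.P (F z)) * (G z ^ 2 * deriv G z / C.P (G z)) := by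
        rw [hu, hw]; field_simp; ring
      have key : ∀ x y : ℂ, ‖x‖ ≤ K0 * E → ‖y‖ ≤ K0 * E → ‖x * y‖ ≤ K0 ^ 2 * E ^ 2 := by
        intro x y hx hy
        rw [norm_mul]
        calc ‖x‖ * ‖y‖ ≤ (K0 * E) * (K0 * E) := mul_le_mul hx hy (norm_nonneg _) (by linarith)
          _ = _ := by ring
      rw [e]
      refine (norm_add_le _ _).trans ?_
      refine (add_le_add (norm_sub_le _ _) le_rfl).trans ?_
      rw [norm_mul 2, Complex.norm_two]
      linarith [key _ _ f2 g0, key _ _ f1 g1, key _ _ f0 g2]) mψ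
  rw [log_mul (by positivity) (by positivity), log_pow] at e4
  rw [T_eq] at e2
  push_cast at e1 e4
  linarith

theorem not_three (hPM : PairMany) {f g : ℂ → ℂ} (hf : Reg f) (hg : Reg g)
    (ncf : ∀ c, NZ fun x => f x - c) (ncg : ∀ c, NZ fun x => g x - c)
    (ne : NZ fun x => f x - g x) {a : Fin 4 → ℂ} (ha : Function.Injective a)
    (sh : ∀ i, Sh f g (a i)) {i0 : Fin 4}
    (cm : ∀ z (p q : ℤ), 0 < p → meromorphicOrderAt (fun x => f x - a i0) z = p →
      meromorphicOrderAt (fun x => g x - a i0) z = q → p < 2 * q ∧ q < 2 * p)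
    (j : Fin 4) (hj : ∀ i : Fin 3, NZ (Xj f g a (j.succAbove i))) : False := by
  have hb : ∀ k : Fin 3, a (i0.succAbove k) ≠ a i0 := fun k => ha.ne (Fin.succAbove_ne i0 k)
  set d : Fin 3 → ℂ := fun k => (a (i0.succAbove k) - a i0)⁻¹ with hd
  set c : ℂ := (d 0 + d 1 + d 2) / 3 with hc
  let C : Cub := ⟨fun k => d k - c, fun k l h => by
      have h1 : d k = d l := sub_left_injective h
      exact Fin.succAbove_right_injective (ha (sub_left_injective (inv_injective h1))),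
    by rw [hc]; ring⟩
  obtain ⟨F, hF, eF⟩ := exists_NF (f := fun x => (f x - a i0)⁻¹ - c)
    (mero_sub_const (mero_sub_const hf.mero _).inv c)
  obtain ⟨G, hG, eG⟩ := exists_NF (f := fun x => (g x - a i0)⁻¹ - c)
    (mero_sub_const (mero_sub_const hg.mero _).inv c)
  have ncF := norm_nc hf.mero ncf hF.mero eF
  have ncG := norm_nc hg.mero ncg hG.mero eG
  obtain ⟨u, w, hP⟩ := exists_pair C hF hG ncF ncG
    (by
      refine NZ_of_ev (hF.mero.sub hG.mero) ?_
      filter_upwards [eF, eG, ne.ev_ne (hf.mero.sub hg.mero)] with x h1 h2 h3 h4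
      rw [h1, h2] at h4
      have h5 : (f x - a i0)⁻¹ = (g x - a i0)⁻¹ := by linear_combination h4
      exact h3 (by linear_combination inv_injective h5))
    (fun k z => (norm_root_iff hf ncf hF.mero eF (hb k) z).trans
      ((sh _ z).trans (norm_root_iff hg ncg hG.mero eG (hb k) z).symm))
    (fun z n hn h => by
      rw [norm_pole eF z hn] at h
      obtain ⟨q, hq, h2⟩ := ordEq_pos (mero_sub_const hg.mero _ z) (ncg _ z)
        ((sh i0 z).1 (by rw [h.2]; exact_mod_cast neg_pos.2 hn))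
      have := cm z _ _ (neg_pos.2 hn) h.2 h2.2
      exact ⟨-q, by omega, (norm_pole eG z (by omega)).2 (by rwa [neg_neg]), by omega⟩)
    (fun z m hm h => by
      rw [norm_pole eG z hm] at h
      obtain ⟨p, hp, h2⟩ := ordEq_pos (mero_sub_const hf.mero _ z) (ncf _ z)
        ((sh i0 z).2 (by rw [h.2]; exact_mod_cast neg_pos.2 hm))
      have := cm z _ _ hp h2.2 h.2
      exact ⟨-p, by omega, (norm_pole eF z (by omega)).2 (by rwa [neg_neg]), by omega⟩)
  have hX : LocFin (NonCM C F G) := by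
    have h1 : Meromorphic fun x => C.P (F x) := fun z =>
      ((mero_sub_const hF.mero _ z).mul (mero_sub_const hF.mero _ z)).mul
        (mero_sub_const hF.mero _ z)
    refine (locFin_pos h1 (NZ_of_ev h1 (ev_P_ne C hF.mero ncF))).mono fun z hz => ?_
    exact order_pos_of_zero ((C.analyticAt_P _).comp hz.1) hz.2.1
  have hD : ∀ i, Dif f g (a i) (NonCM C F G ∪ Cnt.Zs u w) := by
    intro i z h1 h2
    by_cases hi : i = i0
    · subst hi
      obtain ⟨p, hp, h3⟩ := ordEq_pos (mero_sub_const hf.mero _ z) (ncf _ z) h1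
      obtain ⟨q, hq, h4⟩ := ordEq_pos (mero_sub_const hg.mero _ z) (ncg _ z) ((sh i z).1 h1)
      have h5 := cm z _ _ hp h3.2 h4.2
      have h6 : p ≠ q := fun h => h2 (by rw [h3.2, h4.2, h])
      exact Or.inr (mem_Zs hP (n := -p) (m := -q) (by omega) (by omega)
        ((norm_pole eF z (by omega)).2 (by rwa [neg_neg]))
        ((norm_pole eG z (by omega)).2 (by rwa [neg_neg])))
    left
    obtain ⟨k, rfl⟩ := Fin.exists_succAbove_eq hi
    have h3 := norm_root hf ncf eF (hb k) h1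
    have h4 := norm_root hg ncg eG (hb k) ((sh _ z).1 h1)
    obtain ⟨h5, h6⟩ := hF.of_order_pos (h3 ▸ h1)
    refine ⟨h5, by rw [h6]; exact C.P_e k, ?_⟩
    rw [h6, h3, h4]
    exact h2
  obtain ⟨K, hK⟩ := T_le_of_three hf hg ncf ncg ha sh (hX.union (Cnt.locFin_Zs hP)) hD j hj
  obtain ⟨K', hK'⟩ := Nb_Zs hP
  obtain ⟨kf, hkf⟩ := norm_T hf.mero eF
  obtain ⟨kg, hkg⟩ := norm_T hg.mero eG
  refine hPM C F G u w hP ((Fin 4 ⊕ Fin 4) ⊕ (Fin 3 ⊕ Fin 3))
    (Sum.elim (Sum.elim (fun i x => f x - a i) (fun i x => g x - a i))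
      (Sum.elim (fun i x => F x - C.e i) (fun i x => G x - C.e i))) ?_ ?_ ?_
    (max 28 (K + kf + kg + 8 * K')) ?_
  · rintro ((i | i) | (i | i))
    · exact mero_sub_const hf.mero _
    · exact mero_sub_const hg.mero _
    · exact mero_sub_const hF.mero _
    · exact mero_sub_const hG.mero _
  · rintro ((i | i) | (i | i))
    · exact ncf _
    · exact ncg _
    · exact ncF _
    · exact ncG _
  · rintro ((i | i) | (i | i))
    · obtain ⟨c1, e1⟩ := fmt hf.mero (a i)
      refine ⟨c1 + kf, fun r hr => ?_⟩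
      have := (e1 r hr).1
      have := (hkf r hr).2
      have := T_nonneg G hr
      change T (fun x => f x - a i) r ≤ T F r + T G r + _
      linarith
    · obtain ⟨c1, e1⟩ := fmt hg.mero (a i)
      refine ⟨c1 + kg, fun r hr => ?_⟩
      have := (e1 r hr).1
      have := (hkg r hr).2
      have := T_nonneg F hr
      change T (fun x => g x - a i) r ≤ T F r + T G r + _
      linarith
    · obtain ⟨c1, e1⟩ := fmt hF.mero (C.e i)
      refine ⟨c1, fun r hr => ?_⟩
      have := (e1 r hr).1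
      have := T_nonneg G hr
      change T (fun x => F x - C.e i) r ≤ T F r + T G r + _
      linarith
    · obtain ⟨c1, e1⟩ := fmt hG.mero (C.e i)
      refine ⟨c1, fun r hr => ?_⟩
      have := (e1 r hr).1
      have := T_nonneg F hr
      change T (fun x => G x - C.e i) r ≤ T F r + T G r + _
      linarith
  · intro ρ E h1 h2 h3
    have b := hK ρ E h1 h2 (fun i z hz => hf.circle (h3 (Sum.inl (Sum.inl i)) z hz))
      (fun i z hz => hg.circle (h3 (Sum.inl (Sum.inr i)) z hz))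
    have b' := hK' ρ E h1 h2 (fun i z hz => hF.circle (h3 (Sum.inr (Sum.inl i)) z hz))
      (fun i z hz => hG.circle (h3 (Sum.inr (Sum.inr i)) z hz))
    have := Nb_union_le hX (Cnt.locFin_Zs hP) h1
    have := (hkf ρ h1).1
    have := (hkg ρ h1).1
    have := mul_le_mul_of_nonneg_right (le_max_left 28 (K + kf + kg + 8 * K')) (log_nonneg h2)
    have := le_max_right 28 (K + kf + kg + 8 * K')
    change T F ρ + T G ρ ≤ 8 * Nb (NonCM C F G) ρ + _ + _
    linarith

theorem main_of_pairMany (hPM : PairMany) :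
  ∀ (f g : ℂ → ℂ) (a : Fin 4 → ℂ),
    MeromorphicOn f Set.univ → MeromorphicOn g Set.univ →
    (∀ (c z : ℂ), meromorphicOrderAt (fun w => f w - c) z ≠ ⊤) →
    (∀ (c z : ℂ), meromorphicOrderAt (fun w => g w - c) z ≠ ⊤) →
    (∃ z : ℂ, meromorphicOrderAt (fun w => f w - g w) z ≠ ⊤) →
    Function.Injective a →
    (∀ (i : Fin 4) (z : ℂ),
      0 < meromorphicOrderAt (fun w => f w - a i) z ↔
        0 < meromorphicOrderAt (fun w => g w - a i) z) →
    (∃ i : Fin 4, ∀ (z : ℂ) (p q : ℤ), 0 < p → meromorphicOrderAt (fun w => f w - a i) z = p →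
      meromorphicOrderAt (fun w => g w - a i) z = q → p < 2 * q ∧ q < 2 * p) →
    ∃ σ : Equiv.Perm (Fin 4),
      (a (σ 0) - a (σ 2)) * (a (σ 1) - a (σ 3)) =
          -((a (σ 0) - a (σ 3)) * (a (σ 1) - a (σ 2))) ∧
      (∀ z : ℂ, meromorphicOrderAt
          (fun w => (f w - a (σ 2)) * (g w - a (σ 3)) +
                    (f w - a (σ 3)) * (g w - a (σ 2))) z = ⊤) ∧
      (∀ z : ℂ, ¬ 0 < meromorphicOrderAt (fun w => f w - a (σ 0)) z) ∧
      (∀ z : ℂ, ¬ 0 < meromorphicOrderAt (fun w => f w - a (σ 1)) z) ∧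
      (∀ z : ℂ, ¬ 0 < meromorphicOrderAt (fun w => g w - a (σ 0)) z) ∧
      (∀ z : ℂ, ¬ 0 < meromorphicOrderAt (fun w => g w - a (σ 1)) z) := by
  intro f0 g0 a hf0 hg0 ncf0 ncg0 ⟨z0, hz0⟩ ha sh0 ⟨i0, cm0⟩
  obtain ⟨f, hf, ef⟩ := exists_NF (meromorphicOn_univ.1 hf0)
  obtain ⟨g, hg, eg⟩ := exists_NF (meromorphicOn_univ.1 hg0)
  have of : ∀ c z, meromorphicOrderAt (fun w => f0 w - c) z =
      meromorphicOrderAt (fun w => f w - c) z := fun c z =>
    meromorphicOrderAt_congr ((ev_codiscrete.1 ef z).mono fun x hx => by simp only [hx])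
  have og : ∀ c z, meromorphicOrderAt (fun w => g0 w - c) z =
      meromorphicOrderAt (fun w => g w - c) z := fun c z =>
    meromorphicOrderAt_congr ((ev_codiscrete.1 eg z).mono fun x hx => by simp only [hx])
  simp only [of, og] at ncf0 ncg0 sh0 cm0 ⊢
  have ne : NZ fun x => f x - g x := by
    refine NZ_of_point (hf.mero.sub hg.mero) (z := z0) ?_
    rwa [meromorphicOrderAt_congr (f₂ := fun w => f0 w - g0 w)]
    filter_upwards [ev_codiscrete.1 ef z0, ev_codiscrete.1 eg z0] with x h1 h2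
    simp only [h1, h2]
  rcases two_or_three fun j => NZ (Xj f g a j) with ⟨j, k, hjk, hj, hk⟩ | ⟨j, hj⟩
  · obtain ⟨σ, rfl, rfl⟩ := exists_perm j k hjk
    have hS := sum_zero_of_two hf hg ncf0 ncg0 ne ha hjk hj hk
    have hs : ∀ k l : Fin 4, k ≠ l → a (σ k) ≠ a (σ l) := fun k l h => ha.ne (σ.injective.ne h)
    have o0 := omit_of_sum hf hg (hs 0 2 (by decide)) (hs 0 3 (by decide)) (sh0 _) hS
    have o1 := omit_of_sum hf hg (hs 1 2 (by decide)) (hs 1 3 (by decide)) (sh0 _) hS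
    refine ⟨σ, harmonic_of_sum hf hg ncf0 ncg0 (hs 2 3 (by decide)) (hs 0 2 (by decide))
      (hs 0 3 (by decide)) (hs 1 2 (by decide)) (hs 1 3 (by decide)) (hs 0 1 (by decide))
      (sh0 _) (sh0 _) hS, fun z => ?_, o0, o1, fun z h => o0 z ((sh0 _ z).2 h),
      fun z h => o1 z ((sh0 _ z).2 h)⟩
    rw [meromorphicOrderAt_eq_top_iff]
    filter_upwards [ev_codiscrete.1 hS z, ev_codiscrete.1 ef z, ev_codiscrete.1 eg z]
      with x h1 h2 h3
    rw [← h2, ← h3]
    exact h1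
  · exact (not_three hPM hf hg ncf0 ncg0 ne ha sh0 cm0 j hj).elim

end Ratio

end Pool.Agent.Lib.MP_bb1814_an
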