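import Mathlib

/-!
Auxiliary complex analysis for the selection lemma: a Gronwall type estimate, a packing bound,
a zero count from Jensen's inequality and a pigeonhole choice of a point far from a finite set.
-/

namespace Pool.Agent.Lib.MP_bb1814_an

open Filter Topology Set Metric

/-- Half the logarithmic derivative of `u / w`. -/
noncomputable def eta (u w : ℂ → ℂ) (z : ℂ) : ℂ := (deriv u z / u z - deriv w z / w z) / 2

/-- On `D`, `u` is a polynomial of degree at most `M` with roots in `B` times a zero-free function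
with logarithmic derivative at most `A`. -/
def Fac (u : ℂ → ℂ) (B : Finset ℂ) (M : ℕ) (D : Set ℂ) (A : ℝ) : Prop :=
  ∃ (ν : ℂ → ℕ) (h : ℂ → ℂ), ∑ b ∈ B, ν b ≤ M ∧ AnalyticOnNhd ℂ h D ∧
    ∀ z ∈ D, h z ≠ 0 ∧ u z = (∏ b ∈ B, (z - b) ^ ν b) * h z ∧ ‖deriv h z / h z‖ ≤ A

namespace Sel

/-- Gronwall type estimate on a closed disc. -/
lemma gron {F : ℂ → ℂ} {y : ℂ} {t A : ℝ} (hA : 0 ≤ A) (ht : 0 ≤ t) (hAt : A * t ≤ 1 / 2)
    (hd : ∀ z ∈ closedBall y t, DifferentiableAt ℂ F z)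
    (hb : ∀ z ∈ closedBall y t, ‖deriv F z‖ ≤ A * ‖F z‖) :
    ∀ z ∈ closedBall y t, ‖F z - F y‖ ≤ 2 * A * ‖z - y‖ * ‖F y‖ := by
  have hcont : ContinuousOn (fun z => ‖F z‖) (closedBall y t) :=
    fun z hz => (hd z hz).continuousAt.norm.continuousWithinAt
  obtain ⟨z0, hz0, hmax⟩ := (isCompact_closedBall y t).exists_isMaxOn
    (nonempty_closedBall.2 ht) hcont
  have hy : y ∈ closedBall y t := mem_closedBall_self ht
  have key : ∀ z ∈ closedBall y t, ‖F z - F y‖ ≤ A * ‖F z0‖ * ‖z - y‖ := by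
    intro z hz
    refine (convex_closedBall y t).norm_image_sub_le_of_norm_deriv_le hd (fun x hx => ?_) hy hz
    exact (hb x hx).trans (mul_le_mul_of_nonneg_left (hmax hx) hA)
  have hm : ‖F z0‖ ≤ 2 * ‖F y‖ := by
    have h1 := key z0 hz0
    have h2 : ‖z0 - y‖ ≤ t := by simpa [dist_eq_norm] using hz0
    have h3 : ‖F z0‖ ≤ ‖F y‖ + ‖F z0 - F y‖ := norm_le_insert' _ _
    have h4 : A * ‖F z0‖ * ‖z0 - y‖ ≤ A * t * ‖F z0‖ := by
      have := mul_le_mul_of_nonneg_left h2 (mul_nonneg hA (norm_nonneg (F z0)))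
      linarith
    have h5 : A * t * ‖F z0‖ ≤ 1 / 2 * ‖F z0‖ :=
      mul_le_mul_of_nonneg_right hAt (norm_nonneg _)
    linarith
  intro z hz
  refine (key z hz).trans ?_
  have := mul_le_mul_of_nonneg_left hm (mul_nonneg hA (norm_nonneg (z - y)))
  linarith

/-- Packing bound in the plane. -/
lemma pack {S : Finset ℂ} {c : ℂ} {R t : ℝ} {N : ℕ} (ht : 0 < t) (hR : R ≤ N * t)
    (hS : ∀ y ∈ S, ‖y - c‖ ≤ R) (hsep : ∀ y ∈ S, ∀ y' ∈ S, y ≠ y' → t ≤ ‖y - y'‖) :
    S.card ≤ (4 * N + 1) ^ 2 := by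
  classical
  let f : ℂ → ℤ × ℤ := fun y => (⌊2 * (y - c).re / t⌋, ⌊2 * (y - c).im / t⌋)
  let I : Finset ℤ := Finset.Icc (-(2 * N : ℤ)) (2 * N)
  have hI : ∀ x : ℝ, |x| ≤ R → ⌊2 * x / t⌋ ∈ I := by
    intro x hx
    have hx' := abs_le.1 (hx.trans hR)
    simp only [I, Finset.mem_Icc]
    constructor
    · rw [Int.le_floor]
      push_cast
      rw [le_div_iff₀ ht]
      linarith [hx'.1]
    · have : 2 * x / t ≤ 2 * N := by
        rw [div_le_iff₀ ht]
        linarith [hx'.2]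
      have h2 := Int.floor_le (2 * x / t)
      have h3 : ((⌊2 * x / t⌋ : ℤ) : ℝ) ≤ ((2 * N : ℤ) : ℝ) := by
        push_cast
        linarith
      exact_mod_cast h3
  have hclose : ∀ x x' : ℝ, ⌊2 * x / t⌋ = ⌊2 * x' / t⌋ → |x - x'| < t / 2 := by
    intro x x' h
    have h1 := Int.abs_sub_lt_one_of_floor_eq_floor h
    have h2 : 2 * x / t - 2 * x' / t = (x - x') / (t / 2) := by
      field_simp
    rw [h2, abs_div, abs_of_pos (half_pos ht), div_lt_one (half_pos ht)] at h1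
    exact h1
  have hcard : S.card ≤ (I ×ˢ I).card := by
    refine Finset.card_le_card_of_injOn f (fun y hy => ?_) (fun y hy y' hy' h => ?_)
    · have hy' := hS y hy
      simp only [Finset.coe_product, mem_prod, Finset.mem_coe]
      exact ⟨hI _ ((Complex.abs_re_le_norm _).trans hy'), hI _ ((Complex.abs_im_le_norm _).trans hy')⟩
    · by_contra hne
      have h1 := hsep y hy y' hy' hne
      have h2 := hclose _ _ (congrArg Prod.fst h)
      have h3 := hclose _ _ (congrArg Prod.snd h)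
      have h4 := Complex.norm_le_abs_re_add_abs_im (y - y')
      have e1 : (y - c).re - (y' - c).re = (y - y').re := by simp
      have e2 : (y - c).im - (y' - c).im = (y - y').im := by simp
      rw [e1] at h2
      rw [e2] at h3
      linarith
  have hIc : I.card = 4 * N + 1 := by
    simp only [I, Int.card_Icc]
    omega
  rw [Finset.card_product, hIc] at hcard
  rw [sq]
  exact hcard

/-- Zero count from Jensen's inequality. -/
lemma zeros_le {F : ℂ → ℂ} (hF : Differentiable ℂ F) {c : ℂ} {R L : ℝ} (hR : 0 < R) (hL : 0 ≤ L)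
    (hc : F c ≠ 0) (hb : ∀ z ∈ closedBall c (2 * R), ‖F z‖ ≤ Real.exp L * ‖F c‖)
    {S : Finset ℂ} (hS : ∀ y ∈ S, y ∈ closedBall c R ∧ F y = 0) : (S.card : ℝ) ≤ 3 / 2 * L := by
  classical
  let G : ℂ → ℂ := fun z => F z / F c
  have hG : Differentiable ℂ G := hF.div_const _
  have hGa : ∀ s : Set ℂ, AnalyticOnNhd ℂ G s := fun s z _ => hG.analyticAt z
  have hGc : G c = 1 := div_self hc
  have h1 : |R| = R := abs_of_pos hR
  have h2 : |2 * R| = 2 * R := abs_of_pos (by linarith)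
  have hJ := AnalyticOnNhd.sum_divisor_le (c := c) (r := R) (R := 2 * R) (M := Real.exp L) (f := G)
    (by rw [h1]; exact hR) (by rw [h1, h2]; linarith) (Real.one_le_exp hL) (hGa _)
    (by rw [hGc]; exact one_ne_zero) (by
      intro z hz
      rw [h2] at hz
      have := hb z (sphere_subset_closedBall hz)
      simp only [G, norm_div]
      rwa [div_le_iff₀ (norm_pos_iff.2 hc)])
  rw [hGc, norm_one, div_one, Real.log_exp, h1, show 2 * R / R = 2 by field_simp] at hJ
  have hfin := (MeromorphicOn.divisor G (closedBall c R)).finiteSupport (isCompact_closedBall c R)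
  have hnn : ∀ u, 0 ≤ MeromorphicOn.divisor G (closedBall c R) u :=
    fun u => MeromorphicOn.AnalyticOnNhd.divisor_nonneg (hGa (closedBall c R)) u
  have hone : ∀ y ∈ S, 1 ≤ MeromorphicOn.divisor G (closedBall c R) y := by
    intro y hy
    obtain ⟨hy1, hy2⟩ := hS y hy
    rw [MeromorphicOn.AnalyticOnNhd.divisor_apply (hGa _) hy1]
    have hne0 : analyticOrderAt G y ≠ 0 := by
      rw [(hG.analyticAt y).analyticOrderAt_ne_zero]
      simp [G, hy2]
    have hnt : analyticOrderAt G y ≠ ⊤ := by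
      intro h
      rw [analyticOrderAt_eq_top] at h
      have := (hGa univ).eqOn_zero_of_preconnected_of_eventuallyEq_zero isPreconnected_univ
        (mem_univ y) h (mem_univ c)
      rw [hGc] at this
      exact one_ne_zero this
    obtain ⟨n, hn⟩ := ENat.ne_top_iff_exists.1 hnt
    rw [← hn] at hne0 ⊢
    have : n ≠ 0 := by
      rintro rfl
      exact hne0 rfl
    simp only [ENat.map_natCast, WithTop.untop₀_coe]
    exact_mod_cast Nat.one_le_iff_ne_zero.2 this
  have hsum : (S.card : ℤ) ≤ ∑ᶠ u, MeromorphicOn.divisor G (closedBall c R) u := by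
    rw [finsum_eq_sum_of_support_subset (s := S ∪ hfin.toFinset) _ (by
      intro x hx
      simp only [Finset.coe_union, Finite.coe_toFinset, mem_union]
      exact Or.inr hx)]
    calc (S.card : ℤ) = ∑ y ∈ S, (1 : ℤ) := by simp
      _ ≤ ∑ y ∈ S, MeromorphicOn.divisor G (closedBall c R) y := Finset.sum_le_sum hone
      _ ≤ _ := Finset.sum_le_sum_of_subset_of_nonneg Finset.subset_union_left
          (fun u _ _ => hnn u)
  have hsum' : (S.card : ℝ) ≤ L / Real.log 2 := by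
    refine le_trans ?_ hJ
    exact_mod_cast hsum
  refine hsum'.trans ?_
  have hl := Real.log_two_gt_d9
  rw [div_le_iff₀ (by linarith)]
  nlinarith

/-- A point near `b` that is far from the finite set `B`. -/
lemma far_point {B : Finset ℂ} {M : ℕ} (hB : B.card ≤ M) (b : ℂ) {s : ℝ} (hs : 0 < s) :
    ∃ c : ℂ, ‖c - b‖ ≤ s ∧ ∀ b' ∈ B, s / (2 * (M + 1)) ≤ ‖c - b'‖ := by
  classical
  by_contra hcon
  push Not at hcon
  have hM : (0 : ℝ) < M + 1 := by positivity
  let c : ℕ → ℂ := fun k => b + ((k * (s / (M + 1)) : ℝ) : ℂ)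
  have hc : ∀ k ∈ Finset.range (M + 1), ‖c k - b‖ ≤ s := by
    intro k hk
    have hk' : (k : ℝ) ≤ M + 1 := by
      have := (Finset.mem_range.1 hk).le
      exact_mod_cast this
    simp only [c, add_sub_cancel_left, Complex.norm_real, Real.norm_eq_abs]
    rw [abs_of_nonneg (by positivity)]
    calc (k : ℝ) * (s / (M + 1)) ≤ (M + 1) * (s / (M + 1)) := by gcongr
      _ = s := by field_simp
  have hex : ∀ k, k ∈ Finset.range (M + 1) → ∃ b' ∈ B, ‖c k - b'‖ < s / (2 * (M + 1)) :=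
    fun k hk => hcon (c k) (hc k hk)
  choose! f hf1 hf2 using hex
  obtain ⟨k, hk, l, hl, hkl, hf⟩ := Finset.exists_ne_map_eq_of_card_lt_of_maps_to
    (s := Finset.range (M + 1)) (t := B) (by simp; omega) (f := f) (fun k hk => hf1 k hk)
  have h1 := hf2 k hk
  have h2 := hf2 l hl
  rw [← hf] at h2
  have h3 : ‖c k - c l‖ ≤ ‖c k - f k‖ + ‖c l - f k‖ := by
    have := norm_sub_le (c k - f k) (c l - f k)
    simpa using this
  have h4 : ‖c k - c l‖ = |(k : ℝ) - l| * (s / (M + 1)) := by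
    have : c k - c l = ((((k : ℝ) - l) * (s / (M + 1)) : ℝ) : ℂ) := by
      simp only [c]
      push_cast
      ring
    rw [this, Complex.norm_real, Real.norm_eq_abs, abs_mul, abs_of_pos (div_pos hs hM)]
  have h5 : (1 : ℝ) ≤ |(k : ℝ) - l| := by
    have : (1 : ℤ) ≤ |(k : ℤ) - l| := Int.one_le_abs (by omega)
    exact_mod_cast this
  have h6 : s / (M + 1) ≤ |(k : ℝ) - l| * (s / (M + 1)) :=
    le_mul_of_one_le_left (div_pos hs hM).le h5
  have h7 : s / (2 * (M + 1)) + s / (2 * (M + 1)) = s / (M + 1) := by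
    field_simp
    ring
  linarith

/-- The distance to `B`, cut off at `a`. -/
lemma exists_dist (B : Finset ℂ) (y : ℂ) (a : ℝ) :
    ∃ d : ℝ, d ≤ a ∧ (∀ b ∈ B, d ≤ ‖y - b‖) ∧ (d = a ∨ ∃ b ∈ B, d = ‖y - b‖) := by
  classical
  induction B using Finset.induction_on with
  | empty => exact ⟨a, le_rfl, by simp, Or.inl rfl⟩
  | insert b B _ ih =>
    obtain ⟨d, h1, h2, h3⟩ := ih
    rcases le_total d ‖y - b‖ with h | h
    · refine ⟨d, h1, fun b' hb' => ?_, ?_⟩
      · rcases Finset.mem_insert.1 hb' with rfl | hb'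
        · exact h
        · exact h2 b' hb'
      · rcases h3 with h3 | ⟨b', hb', h3⟩
        · exact Or.inl h3
        · exact Or.inr ⟨b', Finset.mem_insert_of_mem hb', h3⟩
    · refine ⟨‖y - b‖, h.trans h1, fun b' hb' => ?_, Or.inr ⟨b, Finset.mem_insert_self _ _, rfl⟩⟩
      rcases Finset.mem_insert.1 hb' with rfl | hb'
      · exact le_rfl
      · exact h.trans (h2 b' hb')

/-- Logarithmic derivative bound from a factorisation. -/
lemma fac_logd {u : ℂ → ℂ} {B : Finset ℂ} {M : ℕ} {D : Set ℂ} {A : ℝ} (hD : IsOpen D)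
    (hf : Fac u B M D A) {z : ℂ} (hz : z ∈ D) {d : ℝ} (hd : 0 < d) (hB : ∀ b ∈ B, d ≤ ‖z - b‖) :
    ‖deriv u z / u z‖ ≤ M / d + A := by
  obtain ⟨ν, h, hν, han, hh⟩ := hf
  have hne : ∀ b ∈ B, z - b ≠ 0 := fun b hb => norm_pos_iff.1 (hd.trans_le (hB b hb))
  have heq : u =ᶠ[𝓝 z] fun x => (∏ b ∈ B, (x - b) ^ ν b) * h x := by
    filter_upwards [hD.mem_nhds hz] with x hx using (hh x hx).2.1
  have h1 : logDeriv u z = ∑ b ∈ B, (ν b : ℂ) / (z - b) + logDeriv h z := by
    rw [(logDeriv_congr_nhds heq).eq_of_nhds, logDeriv_mul z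
      (Finset.prod_ne_zero_iff.2 fun b hb => pow_ne_zero _ (hne b hb)) (hh z hz).1
      (by fun_prop) (han z hz).differentiableAt]
    congr 1
    rw [logDeriv_prod (f := fun b x => (x - b) ^ ν b) (fun b hb => pow_ne_zero _ (hne b hb))
      (fun b _ => by fun_prop)]
    refine Finset.sum_congr rfl fun b _ => ?_
    rw [logDeriv_fun_pow (f := fun x => x - b) (by fun_prop), logDeriv_apply]
    simp [div_eq_mul_inv]
  rw [← logDeriv_apply, h1]
  refine (norm_add_le _ _).trans (add_le_add ?_ (hh z hz).2.2)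
  refine (norm_sum_le _ _).trans ?_
  calc ∑ b ∈ B, ‖(ν b : ℂ) / (z - b)‖ ≤ ∑ b ∈ B, (ν b : ℝ) / d := by
        refine Finset.sum_le_sum fun b hb => ?_
        rw [norm_div, Complex.norm_natCast]
        exact div_le_div_of_nonneg_left (Nat.cast_nonneg _) hd (hB b hb)
    _ = ((∑ b ∈ B, ν b : ℕ) : ℝ) / d := by rw [← Finset.sum_div]; push_cast; rfl
    _ ≤ M / d := div_le_div_of_nonneg_right (by exact_mod_cast hν) hd.le

/-- Growth bound from a factorisation. -/
lemma fac_growth {u : ℂ → ℂ} {B : Finset ℂ} {M : ℕ} {D : Set ℂ} {A : ℝ}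
    (hf : Fac u B M D A) {c : ℂ} {R : ℝ} (hR : 0 ≤ R) (hA : 0 ≤ A) (hAR : A * R ≤ 1 / 2)
    (hsub : closedBall c R ⊆ D) {d : ℝ} (hd : 0 < d) (hB : ∀ b ∈ B, d ≤ ‖c - b‖) :
    ∀ z ∈ closedBall c R, ‖u z‖ ≤ 2 * (1 + R / d) ^ M * ‖u c‖ := by
  obtain ⟨ν, h, hν, han, hh⟩ := hf
  intro z hz
  have hc : c ∈ D := hsub (mem_closedBall_self hR)
  have hzc : ‖z - c‖ ≤ R := by simpa [dist_eq_norm] using hz
  have hg := gron hA hR hAR (fun x hx => (han x (hsub hx)).differentiableAt) (fun x hx => by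
    have h1 := (hh x (hsub hx)).2.2
    rwa [norm_div, div_le_iff₀ (norm_pos_iff.2 (hh x (hsub hx)).1)] at h1) z hz
  have hh2 : ‖h z‖ ≤ 2 * ‖h c‖ := by
    have h1 : ‖h z‖ ≤ ‖h c‖ + ‖h z - h c‖ := norm_le_insert' _ _
    have h2 : A * ‖z - c‖ ≤ 1 / 2 := (mul_le_mul_of_nonneg_left hzc hA).trans hAR
    have h3 := mul_le_mul_of_nonneg_right h2 (norm_nonneg (h c))
    linarith
  have hK : 1 ≤ 1 + R / d := le_add_of_nonneg_right (div_nonneg hR hd.le)
  have hp : ‖∏ b ∈ B, (z - b) ^ ν b‖ ≤ (1 + R / d) ^ M * ‖∏ b ∈ B, (c - b) ^ ν b‖ := by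
    rw [norm_prod, norm_prod]
    calc ∏ b ∈ B, ‖(z - b) ^ ν b‖ ≤ ∏ b ∈ B, ((1 + R / d) ^ ν b * ‖(c - b) ^ ν b‖) := by
          refine Finset.prod_le_prod (fun b _ => norm_nonneg _) fun b hb => ?_
          rw [norm_pow, norm_pow, ← mul_pow]
          refine pow_le_pow_left₀ (norm_nonneg _) ?_ _
          have h1 : ‖z - b‖ ≤ ‖z - c‖ + ‖c - b‖ := norm_sub_le_norm_sub_add_norm_sub _ _ _
          have h2 : R ≤ R / d * ‖c - b‖ := by
            calc R = R / d * d := by field_simp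
              _ ≤ _ := mul_le_mul_of_nonneg_left (hB b hb) (div_nonneg hR hd.le)
          linarith
      _ = (1 + R / d) ^ (∑ b ∈ B, ν b) * ∏ b ∈ B, ‖(c - b) ^ ν b‖ := by
          rw [Finset.prod_mul_distrib, Finset.prod_pow_eq_pow_sum]
      _ ≤ _ := mul_le_mul_of_nonneg_right (pow_le_pow_right₀ hK hν)
          (Finset.prod_nonneg fun b _ => norm_nonneg _)
  rw [(hh z (hsub hz)).2.1, (hh c hc).2.1, norm_mul, norm_mul]
  calc _ ≤ ((1 + R / d) ^ M * ‖∏ b ∈ B, (c - b) ^ ν b‖) * (2 * ‖h c‖) :=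
        mul_le_mul hp hh2 (norm_nonneg _) (by positivity)
    _ = _ := by ring

end Sel

end Pool.Agent.Lib.MP_bb1814_an
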