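import Pool.Agent.Lib.MP_bb1814_an.SelectA

/-!
Local behaviour of `u / w` away from the exceptional set, and the good points.
-/

namespace Pool.Agent.Lib.MP_bb1814_an

open Filter Topology Set Metric

namespace Sel

/-- The standing hypotheses of the selection lemma. -/
structure Hyp (M : ℕ) (r : ℝ) (u w : ℂ → ℂ) (B : Finset ℂ) : Prop where
  hM : 10000 ≤ M
  hr : 1 ≤ r
  du : Differentiable ℂ u
  dw : Differentiable ℂ w
  card : B.card ≤ M
  fu : Fac u B M (ball 0 (r * (1 + 1 / M))) (Real.exp M / r)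
  fw : Fac w B M (ball 0 (r * (1 + 1 / M))) (Real.exp M / r)
  est : ∀ z ∈ ball (0 : ℂ) (r * (1 + 1 / M)), ∀ d : ℝ, 0 < d → d ≤ r → (∀ b ∈ B, d ≤ ‖z - b‖) →
      ‖deriv (eta u w) z‖ ≤ M / d * ‖eta u w z‖ ∧
      ‖deriv u z / u z + deriv w z / w z‖ ≤ M / d ∧
      Real.exp (-M) * (d / (4 * r)) ^ M ≤ ‖eta u w z‖ ∧
      Real.exp (-M) * (d / (4 * r)) ^ M ≤ ‖u z * w z‖

lemma exp_big {M : ℕ} (hM : 10000 ≤ M) : 7200 * (M : ℝ) ^ 2 ≤ Real.exp M := by
  have h1 := Real.pow_div_factorial_le_exp (M : ℝ) (Nat.cast_nonneg M) 4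
  have h2 : (10000 : ℝ) ≤ M := by exact_mod_cast hM
  have h3 : ((Nat.factorial 4 : ℕ) : ℝ) = 24 := by norm_num [Nat.factorial]
  rw [h3] at h1
  refine le_trans ?_ h1
  rw [le_div_iff₀ (by norm_num)]
  have h4 : (172800 : ℝ) ≤ (M : ℝ) ^ 2 := by nlinarith
  have h5 : (M : ℝ) ^ 4 = (M : ℝ) ^ 2 * (M : ℝ) ^ 2 := by ring
  rw [h5]
  nlinarith [sq_nonneg (M : ℝ)]

namespace Hyp

variable {M : ℕ} {r : ℝ} {u w : ℂ → ℂ} {B : Finset ℂ}

lemma MR (h : Hyp M r u w B) : (10000 : ℝ) ≤ M := by exact_mod_cast h.hM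

lemma rpos (h : Hyp M r u w B) : 0 < r := lt_of_lt_of_le one_pos h.hr

lemma ne_zero (h : Hyp M r u w B) {z : ℂ} (hz : z ∈ ball (0 : ℂ) (r * (1 + 1 / M))) {d : ℝ}
    (hd : 0 < d) (hdr : d ≤ r) (hB : ∀ b ∈ B, d ≤ ‖z - b‖) :
    u z ≠ 0 ∧ w z ≠ 0 ∧ eta u w z ≠ 0 := by
  obtain ⟨-, -, h3, h4⟩ := h.est z hz d hd hdr hB
  have hr := h.rpos
  have hpos : 0 < Real.exp (-M) * (d / (4 * r)) ^ M := by positivity
  have h5 : u z * w z ≠ 0 := norm_pos_iff.1 (hpos.trans_le h4)
  exact ⟨left_ne_zero_of_mul h5, right_ne_zero_of_mul h5, norm_pos_iff.1 (hpos.trans_le h3)⟩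

lemma diff_eta (h : Hyp M r u w B) {z : ℂ} (hu : u z ≠ 0) (hw : w z ≠ 0) :
    DifferentiableAt ℂ (eta u w) z := by
  have h1 : DifferentiableAt ℂ (deriv u) z := (h.du.analyticAt z).deriv.differentiableAt
  have h2 : DifferentiableAt ℂ (deriv w) z := (h.dw.analyticAt z).deriv.differentiableAt
  exact ((h1.div (h.du z) hu).sub (h2.div (h.dw z) hw)).div_const 2

lemma hasDeriv_H (h : Hyp M r u w B) {z : ℂ} (hu : u z ≠ 0) (hw : w z ≠ 0) :
    HasDerivAt (fun x => u x / w x) (2 * eta u w z * (u z / w z)) z := by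
  have h1 := ((h.du z).hasDerivAt.div (h.dw z).hasDerivAt hw)
  have h2 : 2 * eta u w z * (u z / w z) = (deriv u z * w z - u z * deriv w z) / w z ^ 2 := by
    unfold eta
    field_simp
  rw [h2]
  exact h1

lemma eta_le (h : Hyp M r u w B) {z : ℂ} (hz : z ∈ ball (0 : ℂ) (r * (1 + 1 / M))) {d : ℝ}
    (hd : 0 < d) (hB : ∀ b ∈ B, d ≤ ‖z - b‖) : ‖eta u w z‖ ≤ M / d + Real.exp M / r := by
  have h1 := fac_logd isOpen_ball h.fu hz hd hB
  have h2 := fac_logd isOpen_ball h.fw hz hd hB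
  have h3 := norm_sub_le (deriv u z / u z) (deriv w z / w z)
  unfold eta
  rw [norm_div, Complex.norm_ofNat]
  linarith

/-- Estimates on the disc of half the distance to `B`. -/
lemma half (h : Hyp M r u w B) {c : ℂ} {d : ℝ} (hd : 0 < d) (hdr : d ≤ r)
    (hsub : closedBall c (d / 2) ⊆ ball (0 : ℂ) (r * (1 + 1 / M))) (hB : ∀ b ∈ B, d ≤ ‖c - b‖) :
    ∀ z ∈ closedBall c (d / 2), u z ≠ 0 ∧ w z ≠ 0 ∧
      ‖deriv (eta u w) z‖ ≤ 2 * M / d * ‖eta u w z‖ ∧
      ‖deriv u z / u z + deriv w z / w z‖ ≤ 2 * M / d := by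
  intro z hz
  have hzc : ‖c - z‖ ≤ d / 2 := by
    rw [norm_sub_rev]
    simpa [dist_eq_norm] using hz
  have hB' : ∀ b ∈ B, d / 2 ≤ ‖z - b‖ := by
    intro b hb
    have h1 := hB b hb
    have h2 : ‖c - b‖ ≤ ‖c - z‖ + ‖z - b‖ := norm_sub_le_norm_sub_add_norm_sub _ _ _
    linarith
  obtain ⟨h1, h2, -⟩ := h.ne_zero (hsub hz) (half_pos hd) (by linarith) hB'
  obtain ⟨h3, h4, -, -⟩ := h.est z (hsub hz) (d / 2) (half_pos hd) (by linarith) hB'
  have e : (M : ℝ) / (d / 2) = 2 * M / d := by field_simp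
  rw [e] at h3 h4
  exact ⟨h1, h2, h3, h4⟩

/-- Variation of `eta` on a small disc. -/
lemma eta_var (h : Hyp M r u w B) {c : ℂ} {d t : ℝ} (hd : 0 < d) (hdr : d ≤ r)
    (hsub : closedBall c (d / 2) ⊆ ball (0 : ℂ) (r * (1 + 1 / M))) (hB : ∀ b ∈ B, d ≤ ‖c - b‖)
    (ht : 0 ≤ t) (htd : 4 * M * t ≤ d) :
    ∀ z ∈ closedBall c t, ‖eta u w z - eta u w c‖ ≤ 4 * M * t / d * ‖eta u w c‖ := by
  have hM := h.MR
  have ht2 : t ≤ d / 2 := by nlinarith
  have hh := h.half hd hdr hsub hB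
  have hs : closedBall c t ⊆ closedBall c (d / 2) := closedBall_subset_closedBall ht2
  intro z hz
  have hg := gron (F := eta u w) (A := 2 * M / d) (by positivity) ht (by
      rw [div_mul_eq_mul_div, div_le_iff₀ hd]
      linarith)
    (fun x hx => h.diff_eta (hh x (hs hx)).1 (hh x (hs hx)).2.1)
    (fun x hx => (hh x (hs hx)).2.2.1) z hz
  refine hg.trans (mul_le_mul_of_nonneg_right ?_ (norm_nonneg _))
  have hzc : ‖z - c‖ ≤ t := by simpa [dist_eq_norm] using hz
  calc 2 * (2 * (M : ℝ) / d) * ‖z - c‖ ≤ 2 * (2 * (M : ℝ) / d) * t := by gcongr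
    _ = _ := by ring

/-- On a small disc `u / w` is almost affine. -/
lemma loc (h : Hyp M r u w B) {c : ℂ} {d t : ℝ} (hd : 0 < d) (hdr : d ≤ r)
    (hsub : closedBall c (d / 2) ⊆ ball (0 : ℂ) (r * (1 + 1 / M))) (hB : ∀ b ∈ B, d ≤ ‖c - b‖)
    (ht : 0 ≤ t) (htd : 16 * M * t ≤ d) (hte : 25 * ‖eta u w c‖ * t ≤ 1) :
    ∀ z ∈ closedBall c t, ‖eta u w c‖ * ‖u c / w c‖ * ‖z - c‖ ≤ ‖u z / w z - u c / w c‖ ∧
      ‖u z / w z - u c / w c‖ ≤ ‖u c / w c‖ / 5 := by
  have hM := h.MR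
  have ht2 : t ≤ d / 2 := by nlinarith
  have hh := h.half hd hdr hsub hB
  have hs : closedBall c t ⊆ closedBall c (d / 2) := closedBall_subset_closedBall ht2
  have hMt : 0 ≤ (M : ℝ) * t := by positivity
  have he : ∀ z ∈ closedBall c t, ‖eta u w z - eta u w c‖ ≤ ‖eta u w c‖ / 4 := by
    intro z hz
    refine (h.eta_var hd hdr hsub hB ht (by linarith) z hz).trans ?_
    have : 4 * M * t / d ≤ 1 / 4 := by
      rw [div_le_iff₀ hd]
      linarith
    have := mul_le_mul_of_nonneg_right this (norm_nonneg (eta u w c))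
    linarith
  have hD : ∀ z ∈ closedBall c t, HasDerivAt (fun x => u x / w x) (2 * eta u w z * (u z / w z)) z :=
    fun z hz => h.hasDeriv_H (hh z (hs hz)).1 (hh z (hs hz)).2.1
  have hH : ∀ z ∈ closedBall c t, ‖u z / w z - u c / w c‖ ≤ ‖u c / w c‖ / 5 := by
    intro z hz
    have hg := gron (F := fun x => u x / w x) (A := 5 / 2 * ‖eta u w c‖) (by positivity) ht
      (by linarith) (fun x hx => (hD x hx).differentiableAt) (fun x hx => by
        rw [(hD x hx).deriv, norm_mul, norm_mul, Complex.norm_ofNat]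
        refine mul_le_mul_of_nonneg_right ?_ (norm_nonneg _)
        have h1 := he x hx
        have h2 : ‖eta u w x‖ ≤ ‖eta u w c‖ + ‖eta u w x - eta u w c‖ := norm_le_insert' _ _
        linarith) z hz
    refine hg.trans ?_
    have hzc : ‖z - c‖ ≤ t := by simpa [dist_eq_norm] using hz
    have h1 : ‖eta u w c‖ * ‖z - c‖ ≤ 1 / 25 := by
      have := mul_le_mul_of_nonneg_left hzc (norm_nonneg (eta u w c))
      linarith
    have h2 := mul_le_mul_of_nonneg_right h1 (norm_nonneg (u c / w c))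
    linarith
  intro z hz
  refine ⟨?_, hH z hz⟩
  have hG : ∀ x ∈ closedBall c t, HasDerivWithinAt (fun x => u x / w x - 2 * eta u w c * (u c / w c) * x)
      (2 * eta u w x * (u x / w x) - 2 * eta u w c * (u c / w c)) (closedBall c t) x := by
    intro x hx
    have h1 := ((hasDerivAt_id x).const_mul (2 * eta u w c * (u c / w c)))
    rw [mul_one] at h1
    exact ((hD x hx).sub h1).hasDerivWithinAt
  have hb : ∀ x ∈ closedBall c t, ‖2 * eta u w x * (u x / w x) - 2 * eta u w c * (u c / w c)‖ ≤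
      ‖eta u w c‖ * ‖u c / w c‖ := by
    intro x hx
    have e : 2 * eta u w x * (u x / w x) - 2 * eta u w c * (u c / w c) =
        2 * ((eta u w x - eta u w c) * (u x / w x) + eta u w c * (u x / w x - u c / w c)) := by
      ring
    rw [e, norm_mul, Complex.norm_ofNat]
    have h1 := norm_add_le ((eta u w x - eta u w c) * (u x / w x))
      (eta u w c * (u x / w x - u c / w c))
    rw [norm_mul, norm_mul] at h1
    have h2 := he x hx
    have h3 := hH x hx
    have h4 : ‖u x / w x‖ ≤ 6 / 5 * ‖u c / w c‖ := by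
      have : ‖u x / w x‖ ≤ ‖u c / w c‖ + ‖u x / w x - u c / w c‖ := norm_le_insert' _ _
      linarith
    have h5 := mul_le_mul h2 h4 (norm_nonneg _) (by positivity)
    have h6 := mul_le_mul_of_nonneg_left h3 (norm_nonneg (eta u w c))
    linarith
  have hm := (convex_closedBall c t).norm_image_sub_le_of_norm_hasDerivWithin_le hG hb
    (mem_closedBall_self ht) hz
  have e : 2 * eta u w c * (u c / w c) * (z - c) = (u z / w z - u c / w c) -
      ((u z / w z - 2 * eta u w c * (u c / w c) * z) -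
        (u c / w c - 2 * eta u w c * (u c / w c) * c)) := by ring
  have h1 := norm_sub_le (u z / w z - u c / w c) ((u z / w z - 2 * eta u w c * (u c / w c) * z) -
        (u c / w c - 2 * eta u w c * (u c / w c) * c))
  rw [← e, norm_mul, norm_mul, norm_mul, Complex.norm_ofNat] at h1
  linarith

lemma sub_D (_h : Hyp M r u w B) {y : ℂ} (hy : ‖y‖ ≤ r) {d : ℝ} (hd : 0 < d) (hdr : d ≤ r / M) :
    closedBall y (d / 2) ⊆ ball (0 : ℂ) (r * (1 + 1 / M)) := by
  intro z hz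
  have hzc : ‖z - y‖ ≤ d / 2 := by simpa [dist_eq_norm] using hz
  have h1 : ‖z‖ ≤ ‖y‖ + ‖z - y‖ := norm_le_insert' _ _
  rw [mem_ball_zero_iff, mul_add, mul_one, mul_one_div]
  linarith

lemma le_r (h : Hyp M r u w B) {d : ℝ} (hdr : d ≤ r / M) : d ≤ r :=
  hdr.trans (div_le_self h.rpos.le (by linarith [h.MR]))

/-- A good point has the required properties. -/
lemma good (h : Hyp M r u w B) {p : ℂ} (hp : ‖p‖ ≤ 48) {y : ℂ} (hy : ‖y‖ ≤ r)
    (hyp : u y = p * w y) {d : ℝ} (hdr : d ≤ r / M) (hB : ∀ b ∈ B, d ≤ ‖y - b‖)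
    (hg : 40 * (M : ℝ) ^ 4 ≤ ‖eta u w y‖ * d) :
    ∃ ρ : ℝ, 0 < ρ ∧ eta u w y ≠ 0 ∧ 5 * (M : ℝ) ^ 2 ≤ ρ * ‖eta u w y‖ ∧
      ‖eta u w y‖ ≤ Real.exp (2 * (M : ℝ) ^ 2) * ‖w y‖ ∧
      ∀ z ∈ ball y ρ, u z ≠ 0 ∧ w z ≠ 0 ∧
        ‖deriv u z / u z - eta u w y‖ ≤ ‖eta u w y‖ / M ∧
        ‖deriv w z / w z + eta u w y‖ ≤ ‖eta u w y‖ / M := by
  have hM := h.MR
  have hr := h.hr
  have hM0 : (0 : ℝ) < M := by linarith
  have hM4 : (M : ℝ) ≤ (M : ℝ) ^ 4 := le_self_pow₀ (by linarith) (by norm_num)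
  have hM2 : (M : ℝ) ^ 2 ≤ (M : ℝ) ^ 4 := pow_le_pow_right₀ (by linarith) (by norm_num)
  have hd : 0 < d := by
    by_contra hneg
    push Not at hneg
    have := mul_nonpos_of_nonneg_of_nonpos (norm_nonneg (eta u w y)) hneg
    linarith
  have hsub := h.sub_D hy hd hdr
  have hdr' := h.le_r hdr
  have hyD := hsub (mem_closedBall_self (half_pos hd).le)
  obtain ⟨hu0, hw0, he0⟩ := h.ne_zero hyD hd hdr' hB
  have hE := Real.exp_pos (M : ℝ)
  refine ⟨d / (8 * (M : ℝ) ^ 2), by positivity, he0, ?_, ?_, ?_⟩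
  · rw [div_mul_eq_mul_div, le_div_iff₀ (by positivity)]
    nlinarith
  · have h1 := h.eta_le hyD hd hB
    have h2 : r ≤ Real.exp M * d := by
      have h3 := mul_le_mul_of_nonneg_right h1 hd.le
      have e : ((M : ℝ) / d + Real.exp M / r) * d = M + Real.exp M * d / r := by field_simp
      rw [e] at h3
      have h4 : 1 ≤ Real.exp M * d / r := by linarith
      rwa [le_div_iff₀ (by linarith), one_mul] at h4
    have hbig := exp_big h.hM
    have h3 : ‖eta u w y‖ ≤ Real.exp M * Real.exp M := by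
      have h4 : (M : ℝ) / d ≤ M * Real.exp M := by
        rw [div_le_iff₀ hd, mul_assoc]
        exact le_mul_of_one_le_right hM0.le (hr.trans h2)
      have h5 : Real.exp M / r ≤ Real.exp M := div_le_self hE.le hr
      have h6 : (M : ℝ) + 1 ≤ Real.exp M := Real.add_one_le_exp _
      have h7 := mul_le_mul_of_nonneg_right h6 hE.le
      linarith
    have h4 := (h.est y hyD d hd hdr' hB).2.2.2
    have h5 : Real.exp (-2 * M) ≤ d / (4 * r) := by
      rw [le_div_iff₀ (by linarith)]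
      have e : Real.exp (-2 * M) * (Real.exp M * Real.exp M) = 1 := by
        rw [← Real.exp_add, ← Real.exp_add, ← Real.exp_zero]
        congr 1
        ring
      have h6 : 4 ≤ Real.exp M := by nlinarith
      have h7 : 4 * r ≤ Real.exp M * (Real.exp M * d) := mul_le_mul h6 h2 (by linarith) hE.le
      calc Real.exp (-2 * M) * (4 * r) ≤ Real.exp (-2 * M) * (Real.exp M * (Real.exp M * d)) :=
            mul_le_mul_of_nonneg_left h7 (Real.exp_pos _).le
        _ = Real.exp (-2 * M) * (Real.exp M * Real.exp M) * d := by ring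
        _ = d := by rw [e, one_mul]
    have h6 : Real.exp (-M) * Real.exp (-2 * M) ^ M ≤ Real.exp M * ‖w y‖ ^ 2 := by
      calc Real.exp (-M) * Real.exp (-2 * M) ^ M ≤ Real.exp (-M) * (d / (4 * r)) ^ M := by
            gcongr
        _ ≤ ‖u y * w y‖ := h4
        _ = ‖p‖ * ‖w y‖ ^ 2 := by rw [hyp, norm_mul, norm_mul]; ring
        _ ≤ _ := mul_le_mul_of_nonneg_right (by nlinarith) (by positivity)
    have h7 : (Real.exp M * Real.exp M) ^ 2 ≤ (Real.exp (2 * (M : ℝ) ^ 2) * ‖w y‖) ^ 2 := by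
      have e1 : (Real.exp M * Real.exp M) ^ 2 = Real.exp (4 * M) := by
        rw [← Real.exp_add, ← Real.exp_nat_mul]
        congr 1
        push_cast
        ring
      have e2 : (Real.exp (2 * (M : ℝ) ^ 2) * ‖w y‖) ^ 2 =
          Real.exp (4 * (M : ℝ) ^ 2 - M) * (Real.exp M * ‖w y‖ ^ 2) := by
        rw [← mul_assoc, ← Real.exp_add, mul_pow, ← Real.exp_nat_mul]
        congr 2
        push_cast
        ring
      rw [e1, e2]
      refine le_trans ?_ (mul_le_mul_of_nonneg_left h6 (Real.exp_pos _).le)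
      rw [← Real.exp_nat_mul, ← Real.exp_add, ← Real.exp_add]
      refine Real.exp_le_exp.2 ?_
      nlinarith
    exact h3.trans (le_of_sq_le_sq h7 (by positivity))
  · intro z hz
    have hρ : 4 * M * (d / (8 * (M : ℝ) ^ 2)) / d = 1 / (2 * M) := by
      field_simp
      ring
    have hρ' : 4 * M * (d / (8 * (M : ℝ) ^ 2)) ≤ d := by
      rw [← div_le_one hd, hρ, div_le_one (by positivity)]
      linarith
    have h1 := h.eta_var hd hdr' hsub hB (by positivity) hρ' z (ball_subset_closedBall hz)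
    rw [hρ] at h1
    have hz2 : z ∈ closedBall y (d / 2) := by
      refine closedBall_subset_closedBall ?_ (ball_subset_closedBall hz)
      refine div_le_div_of_nonneg_left hd.le (by norm_num) (by nlinarith)
    obtain ⟨hu, hw, -, h2⟩ := h.half hd hdr' hsub hB z hz2
    have h3 : (M : ℝ) / d ≤ 1 / (2 * M) * ‖eta u w y‖ := by
      rw [div_le_iff₀ hd, div_mul_eq_mul_div, div_mul_eq_mul_div, le_div_iff₀ (by positivity)]
      nlinarith
    have h4 : ‖(deriv u z / u z + deriv w z / w z) / 2‖ ≤ M / d := by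
      rw [norm_div, Complex.norm_ofNat]
      have : 2 * (M : ℝ) / d = 2 * (M / d) := by ring
      linarith
    have h5 : 1 / (2 * M) * ‖eta u w y‖ + 1 / (2 * M) * ‖eta u w y‖ = ‖eta u w y‖ / M := by
      field_simp
      ring
    refine ⟨hu, hw, ?_, ?_⟩
    · have e : deriv u z / u z - eta u w y =
          (eta u w z - eta u w y) + (deriv u z / u z + deriv w z / w z) / 2 := by
        rw [show eta u w z = (deriv u z / u z - deriv w z / w z) / 2 from rfl]
        ring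
      rw [e]
      refine (norm_add_le _ _).trans ?_
      linarith
    · have e : deriv w z / w z + eta u w y =
          (deriv u z / u z + deriv w z / w z) / 2 - (eta u w z - eta u w y) := by
        rw [show eta u w z = (deriv u z / u z - deriv w z / w z) / 2 from rfl]
        ring
      rw [e]
      refine (norm_sub_le _ _).trans ?_
      linarith

/-- A bad point off `B` is isolated among the solutions. -/
lemma sep (h : Hyp M r u w B) {p : ℂ} (hp : p ≠ 0) {y : ℂ} (hy : ‖y‖ ≤ r)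
    (hyp : u y = p * w y) {d : ℝ} (hd : 0 < d) (hdr : d ≤ r / M) (hB : ∀ b ∈ B, d ≤ ‖y - b‖)
    (hg : ‖eta u w y‖ * d ≤ 40 * (M : ℝ) ^ 4) {y' : ℂ} (hyp' : u y' = p * w y') (hw' : w y' ≠ 0)
    (hne : y ≠ y') : d / (1000 * (M : ℝ) ^ 4) ≤ ‖y - y'‖ := by
  by_contra hlt
  push Not at hlt
  have hM := h.MR
  have hM4 : (M : ℝ) ≤ (M : ℝ) ^ 4 := le_self_pow₀ (by linarith) (by norm_num)
  have hsub := h.sub_D hy hd hdr
  have hdr' := h.le_r hdr
  have hyD := hsub (mem_closedBall_self (half_pos hd).le)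
  obtain ⟨hu0, hw0, he0⟩ := h.ne_zero hyD hd hdr' hB
  have hM0 : (0 : ℝ) < 1000 * (M : ℝ) ^ 4 := by positivity
  have h1 := (h.loc (t := d / (1000 * (M : ℝ) ^ 4)) hd hdr' hsub hB (by positivity) (by
      rw [← mul_div_assoc, div_le_iff₀ hM0]
      nlinarith) (by
      rw [← mul_div_assoc, div_le_iff₀ hM0]
      linarith) y' (by
      rw [mem_closedBall, dist_eq_norm, norm_sub_rev]
      exact hlt.le)).1
  have e1 : u y / w y = p := by rw [hyp]; field_simp
  have e2 : u y' / w y' = p := by rw [hyp']; field_simp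
  rw [e1, e2, sub_self, norm_zero] at h1
  have h2 : 0 < ‖eta u w y‖ * ‖p‖ * ‖y' - y‖ :=
    mul_pos (mul_pos (norm_pos_iff.2 he0) (norm_pos_iff.2 hp))
      (norm_pos_iff.2 (sub_ne_zero.2 hne.symm))
  linarith

end Hyp

end Sel

end Pool.Agent.Lib.MP_bb1814_an
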